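import Pool.Agent.Work.MP_beb559_al.LenGen

/-!
# Constants, invariants of a stage, families of axes, the hat metric, quotient lengths
-/

namespace Pool.Agent.Beb

/-- The constants. -/
structure Par where
  (D T0 T3 T4 A R1 R C L r0 p : ℕ)
  hD : 100 ≤ D
  hT0 : T0 = 1000 * D
  hT4 : T4 = 2 * T0
  hT3 : T3 = 8 * T0
  hA : A = 100 * T3
  hR1 : R1 = 1000 * A
  hR : R = 100 * R1
  hL : (A + 2) * (40000 * R) ≤ L
  hr0 : 2000 * R ≤ r0
  hp : r0 * L ≤ p
  prime : p.Prime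

/-- Bounded powers. -/
def Ell {G : Type} [Group G] (L : Len G) (g : G) : Prop := ∃ B : ℕ, ∀ n : ℕ, L.l (g ^ n) ≤ B

/-- Linear growth of the powers. -/
def Lox {G : Type} [Group G] (L : Len G) (g : G) : Prop := ∃ m : ℕ, ∀ n : ℕ, n ≤ m * L.l (g ^ n)

/-- The elements to be killed. -/
def kil {G E : Type} [Group G] [Group E] (V : Subgroup E) (π : G →* E) (g : G) : Prop :=
  π g ∈ V ∧ π g ≠ 1

/-- The target group `E` with `V` elementary abelian and `E / V` torsion free. -/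
structure EV (p : ℕ) {E : Type} [Group E] (V : Subgroup E) : Prop where
  normal : V.Normal
  exp : ∀ v ∈ V, v ^ p = 1
  root : ∀ (e : E) (n : ℕ), 1 ≤ n → e ^ n ∈ V → e ∈ V

/-- Geometric invariants of a stage. -/
structure Geo (P : Par) {G : Type} [Group G] (L : Len G) : Prop where
  hyp : L.Hyp P.D
  two : ∀ g : G, g * g = 1 → g = 1
  np : ∀ g : G, Ell L g ∨ Lox L g
  c1 : ∀ x y : G, L.d x y = P.A → ∃ c : G, ∀ g : G, L.d x (g * x) ≤ P.T0 →
    L.d y (g * y) ≤ P.T0 → g ∈ Subgroup.zpowers c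
  c2 : ∀ x y : G, L.d x y = P.A → ∀ g : G, g ≠ 1 → L.d x (g * x) ≤ P.T0 →
    L.d y (g * y) ≤ P.T0 → ∃ n : ℕ, 1 ≤ n ∧ ∀ z, L.Btw x z y → P.A ≤ 4 * L.d x z →
      P.A ≤ 4 * L.d z y → (∀ i ≤ n, L.d z (g ^ i * z) ≤ P.T3) ∧ P.T4 ≤ L.d z (g ^ n * z)

/-- The invariants of a stage: `F` is the subgroup which has to survive. -/
structure Inv (P : Par) {G E : Type} [Group G] [Group E] (V : Subgroup E) (π : G →* E)
    (F : Subgroup G) (L : Len G) : Prop extends Geo P L where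
  rr : ∀ g : G, kil V π g → Lox L g → ∀ (x : G) (n : ℕ), n ≤ P.r0 * L.d x (g ^ n * x)
  el : ∀ g : G, kil V π g → Ell L g → g ^ P.p = 1
  m1 : ∀ f ∈ F, ∀ z : G, L.Btw 1 z f → ∃ f' ∈ F, L.d z f' ≤ P.D
  m2 : ∀ g : G, g ∉ F → ∀ a b : G,
    (∃ f ∈ F, L.d a f ≤ 2 * P.T0) → (∃ f ∈ F, L.d a (g * f) ≤ 2 * P.T0) →
    (∃ f ∈ F, L.d b f ≤ 2 * P.T0) → (∃ f ∈ F, L.d b (g * f) ≤ 2 * P.T0) → L.d a b ≤ P.A
  m3 : ∀ f ∈ F, ¬ kil V π f

/-- A `G`-family of quasi-convex sets with bounded overlaps. -/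
structure QF (P : Par) {G : Type} [Group G] (L : Len G) where
  I : Type
  [act : MulAction G I]
  Y : I → Set G
  ne : ∀ i, (Y i).Nonempty
  smul : ∀ (g : G) (i : I) (x : G), x ∈ Y i → g * x ∈ Y (g • i)
  qc : ∀ i, ∀ x ∈ Y i, ∀ y ∈ Y i, ∀ z, L.Btw x z y → ∃ w ∈ Y i, L.d z w ≤ 3 * P.R1
  ov : ∀ i j, i ≠ j → ∀ a b : G, (∃ u ∈ Y i, L.d a u ≤ P.R) → (∃ u ∈ Y j, L.d a u ≤ P.R) →
    (∃ u ∈ Y i, L.d b u ≤ P.R) → (∃ u ∈ Y j, L.d b u ≤ P.R) → L.d a b ≤ 5 * P.R

attribute [instance] QF.act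

namespace QF

variable {P : Par} {G : Type} [Group G] {L : Len G} (F : QF P L)

/-- `y` is a nearest point of `Y i` to `x`. -/
def Nr (i : F.I) (x y : G) : Prop := y ∈ F.Y i ∧ ∀ y' ∈ F.Y i, L.d x y ≤ L.d x y'

/-- Projection of a point or of another member of the family to `Y i`. -/
def pr (i : F.I) : G ⊕ F.I → Set G
  | Sum.inl x => {y | F.Nr i x y}
  | Sum.inr j => {y | ∃ x ∈ F.Y j, F.Nr i x y}

open Classical in
/-- Distance of projections. -/
noncomputable def dd (i : F.I) (a b : G ⊕ F.I) : ℕ :=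
  if a = Sum.inr i ∨ b = Sum.inr i then 0 else
    sSup {n | ∃ u ∈ F.pr i a ∪ F.pr i b, ∃ v ∈ F.pr i a ∪ F.pr i b, n = L.d u v}

/-- Distance of the projections of two points. -/
noncomputable def dp (i : F.I) (x y : G) : ℕ := F.dd i (Sum.inl x) (Sum.inl y)

/-- Distance of a point to `Y i`. -/
noncomputable def rk (i : F.I) (x : G) : ℕ := sInf {n | ∃ y ∈ F.Y i, n = L.d x y}

/-- The generating set of the hat metric. -/
def S : Set G := {g | L.l g ≤ P.R ∨ ∃ i, ∃ a ∈ F.Y i, ∃ b ∈ F.Y i, g = a⁻¹ * b}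

theorem closure_S : Subgroup.closure F.S = ⊤ := by
  have h1 : ∀ (n : ℕ) (g : G), L.l g ≤ n → g ∈ Subgroup.closure F.S := by
    intro n
    induction n with
    | zero =>
      intro g hg
      have : g = 1 := L.eq_one g (by omega)
      rw [this]
      exact one_mem _
    | succ n ih =>
      intro g hg
      rcases Nat.eq_zero_or_pos (L.l g) with h0 | h0
      · rw [L.eq_one g h0]; exact one_mem _
      · obtain ⟨a, b, hab, ha, hb⟩ := L.interp g 1 h0
        rw [← hab]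
        refine mul_mem (Subgroup.subset_closure (Or.inl ?_)) (ih b (by omega))
        rw [ha]
        have := P.hD
        have := P.hT0
        have := P.hT3
        have := P.hA
        have := P.hR1
        have := P.hR
        omega
  rw [eq_top_iff]
  intro g _
  exact h1 _ g le_rfl

/-- The hat metric: members of the family get diameter one, the rest is divided by `R`. -/
noncomputable def hat : Len G := Len.gen F.S F.closure_S

end QF

/-- A family of axes with generators, rotations and coordinates. -/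
structure Rot (P : Par) {G : Type} [Group G] (L : Len G) extends QF P L where
  e : I → G
  e_smul : ∀ (g : G) i, e (g • i) = g * e i * g⁻¹
  e_fix : ∀ i, e i • i = i
  stab : ∀ (g : G) i, g • i = i → g ∈ Subgroup.zpowers (e i)
  t : I → ℕ
  t_smul : ∀ (g : G) i, t (g • i) = t i
  t_big : ∀ i, P.L ≤ t i
  rot : ∀ i (j : ℤ), j ≠ 0 → ∀ y ∈ Y i, t i ≤ L.d y (e i ^ (P.p * j) * y)
  h : I → G → ℤ
  h_dp : ∀ i x y, |(|h i x - h i y|) - toQF.dp i x y| ≤ P.R
  h_smul : ∀ (g : G) i x y, |(h (g • i) (g * x) - h (g • i) (g * y)) - (h i x - h i y)| ≤ P.R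
  h_rot : ∀ i x, |h i (e i ^ P.p * x) - h i x - t i| ≤ P.R

namespace Rot

variable {P : Par} {G : Type} [Group G] {L : Len G} (F : Rot P L)

/-- The subgroup generated by the rotations. -/
def K : Subgroup G := ⨆ i, Subgroup.zpowers (F.e i ^ P.p)

instance K_normal : F.K.Normal := by
  constructor
  intro n hn g
  have h1 : F.K ≤ (F.K).comap (MulAut.conj g).toMonoidHom := by
    refine iSup_le fun i => ?_
    rw [Subgroup.zpowers_le, Subgroup.mem_comap]
    have h2 : (MulAut.conj g).toMonoidHom (F.e i ^ P.p) = F.e (g • i) ^ P.p := by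
      rw [F.e_smul, map_pow]
      rfl
    rw [h2]
    exact (le_iSup (fun i => Subgroup.zpowers (F.e i ^ P.p)) (g • i)) (Subgroup.mem_zpowers _)
  exact h1 hn

/-- `k` can be reduced to `1` by rotations, seen from `x`. -/
inductive Red (x : G) : G → Prop
  | one : Red x 1
  | step (i : F.I) (j : ℤ) (k : G) : F.t i ≤ F.dp i x (k * x) + 440 * P.R →
      Red x (F.e i ^ (P.p * j) * k) → Red x k

end Rot

open Classical in
/-- The quotient length. -/
noncomputable def Len.quo {G : Type} [Group G] (L : Len G) (K : Subgroup G) [K.Normal] :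
    Len (G ⧸ K) where
  l q := sInf {n | ∃ g : G, (QuotientGroup.mk g : G ⧸ K) = q ∧ L.l g = n}
  one := by
    have : 0 ∈ {n | ∃ g : G, (QuotientGroup.mk g : G ⧸ K) = 1 ∧ L.l g = n} := ⟨1, rfl, L.one⟩
    exact Nat.le_zero.1 (Nat.sInf_le this)
  eq_one q hq := by
    obtain ⟨g, rfl⟩ := QuotientGroup.mk_surjective q
    have hne : {n | ∃ g' : G, (QuotientGroup.mk g' : G ⧸ K) = QuotientGroup.mk g ∧
        L.l g' = n}.Nonempty := ⟨_, g, rfl, rfl⟩
    obtain ⟨g', h1, h2⟩ := Nat.sInf_mem hne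
    have : L.l g' = 0 := h2.trans hq
    rw [← h1, L.eq_one _ this]
    rfl
  inv q := by
    congr 1
    ext n
    constructor
    · rintro ⟨g, h1, h2⟩
      exact ⟨g⁻¹, by rw [QuotientGroup.mk_inv, h1, inv_inv], by rw [L.inv, h2]⟩
    · rintro ⟨g, h1, h2⟩
      exact ⟨g⁻¹, by rw [QuotientGroup.mk_inv, h1], by rw [L.inv, h2]⟩
  mul q r := by
    obtain ⟨g, rfl⟩ := QuotientGroup.mk_surjective q
    obtain ⟨h, rfl⟩ := QuotientGroup.mk_surjective r
    have hne : {n | ∃ g' : G, (QuotientGroup.mk g' : G ⧸ K) = QuotientGroup.mk g ∧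
        L.l g' = n}.Nonempty := ⟨_, g, rfl, rfl⟩
    have hne' : {n | ∃ g' : G, (QuotientGroup.mk g' : G ⧸ K) = QuotientGroup.mk h ∧
        L.l g' = n}.Nonempty := ⟨_, h, rfl, rfl⟩
    obtain ⟨g', h1, h2⟩ := Nat.sInf_mem hne
    obtain ⟨h', h3, h4⟩ := Nat.sInf_mem hne'
    rw [← h2, ← h4]
    refine le_trans (Nat.sInf_le ⟨g' * h', ?_, rfl⟩) (L.mul g' h')
    rw [QuotientGroup.mk_mul, h1, h3]
  interp q i hi := by
    obtain ⟨g, rfl⟩ := QuotientGroup.mk_surjective q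
    have hne : {n | ∃ g' : G, (QuotientGroup.mk g' : G ⧸ K) = QuotientGroup.mk g ∧
        L.l g' = n}.Nonempty := ⟨_, g, rfl, rfl⟩
    obtain ⟨g', h1, h2⟩ := Nat.sInf_mem hne
    rw [← h2] at hi
    obtain ⟨a, b, hab, ha, hb⟩ := L.interp g' i hi
    have hab' : (QuotientGroup.mk a : G ⧸ K) * QuotientGroup.mk b = QuotientGroup.mk g := by
      rw [← h1, ← hab]
      rfl
    refine ⟨QuotientGroup.mk a, QuotientGroup.mk b, hab', ?_⟩
    have hle : ∀ g1 : G, sInf {n | ∃ g' : G, (QuotientGroup.mk g' : G ⧸ K) =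
        QuotientGroup.mk g1 ∧ L.l g' = n} ≤ L.l g1 := fun g1 => Nat.sInf_le ⟨g1, rfl, rfl⟩
    have hex : ∀ g1 : G, ∃ g2 : G, (QuotientGroup.mk g2 : G ⧸ K) = QuotientGroup.mk g1 ∧
        L.l g2 = sInf {n | ∃ g' : G, (QuotientGroup.mk g' : G ⧸ K) =
        QuotientGroup.mk g1 ∧ L.l g' = n} := by
      intro g1
      have hne1 : {n | ∃ g' : G, (QuotientGroup.mk g' : G ⧸ K) = QuotientGroup.mk g1 ∧
          L.l g' = n}.Nonempty := ⟨_, g1, rfl, rfl⟩
      exact Nat.sInf_mem hne1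
    obtain ⟨a', ha1, ha2⟩ := hex a
    obtain ⟨b', hb1, hb2⟩ := hex b
    have h3 : L.l g' ≤ L.l (a' * b') := by
      rw [h2]
      refine Nat.sInf_le ⟨a' * b', ?_, rfl⟩
      rw [QuotientGroup.mk_mul, ha1, hb1, hab']
    have h4 := L.mul a' b'
    have h5 := hle a
    have h6 := hle b
    show sInf _ = i ∧ i + sInf _ = sInf _
    rw [← h2]
    omega

end Pool.Agent.Beb
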