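import Pool.Agent.Work.MP_beb559_al.SylF
import Pool.Agent.Work.MP_beb559_al.Core

/-!
# The base stage: free products satisfy the invariants
-/

namespace Pool.Agent.Beb

open Monoid

namespace Len.Tree

variable {G : Type} [Group G] {L : Len G}

/-- (C2) for tree like length functions. -/
theorem pow_shift (hT : L.Tree) {x y g : G} {T : ℕ} (hT1 : 1 ≤ T) (hg : g ≠ 1)
    (hx : L.d x (g * x) ≤ T) (hy : L.d y (g * y) ≤ T) (hxy : 8 * T + 8 ≤ L.d x y) :
    ∃ n : ℕ, 1 ≤ n ∧ ∀ z, L.Btw x z y → 6 * T + 6 ≤ L.d x z → 6 * T + 6 ≤ L.d z y →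
      (∀ i ≤ n, L.d z (g ^ i * z) ≤ 3 * T) ∧ 2 * T ≤ L.d z (g ^ n * z) := by
  obtain ⟨pt, hp⟩ := exists_pt L x y
  obtain ⟨s, hs, hsh⟩ := shJ_of_small hT hx hy hp
  have hs' := abs_le.1 hs
  have hs0 : s ≠ 0 := by
    rintro rfl
    exact hg (ShJ.inj hsh (ShJ.one pt _ _) (by simp; omega))
  obtain ⟨m, hm⟩ : ∃ m : ℕ, (m : ℤ) = |s| := ⟨|s|.toNat, by
    have := abs_nonneg s
    omega⟩
  have hm1 : 1 ≤ m := by
    have : 0 < |s| := abs_pos.2 hs0
    omega
  have hmT : m ≤ T := by omega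
  obtain ⟨n, hn⟩ : ∃ n, n = (2 * T + m - 1) / m := ⟨_, rfl⟩
  have h1 : n * m ≤ 2 * T + m - 1 := hn ▸ Nat.div_mul_le_self _ _
  have h2 : 2 * T + m - 1 < (n + 1) * m := by
    rw [hn]
    have := Nat.lt_div_mul_add (a := 2 * T + m - 1) (b := m) (by omega)
    rw [Nat.add_mul, Nat.one_mul]
    exact this
  have h2' : 2 * T ≤ n * m := by
    rw [Nat.add_mul, Nat.one_mul] at h2
    omega
  have hn1 : 1 ≤ n := by
    by_contra hc
    have : n = 0 := by omega
    subst this
    omega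
  refine ⟨n, hn1, ?_⟩
  intro z hz hz1 hz2
  have key : ∀ i ≤ n, (L.d z (g ^ i * z) : ℤ) = i * m := by
    intro i hi
    have hle : i * m ≤ n * m := Nat.mul_le_mul_right m hi
    have hpow := hsh.pow i
    have hzz : L.d x z + L.d z y = L.d x y := hz
    obtain ⟨b1, b2⟩ := hp (L.d x z) (by omega) (by omega)
    have e1 : pt (L.d x z) = z := hT.uniq x y _ _ b1 hz (by omega)
    have habs : |(i : ℤ) * s| = i * m := by
      rw [abs_mul, ← hm]
      simp
    have h5 : (i : ℤ) * m = ((i * m : ℕ) : ℤ) := by push_cast; ring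
    rcases le_total 0 s with h0 | h0
    · have hsm : s = m := by rw [hm]; exact (abs_of_nonneg h0).symm
      have h3 := hpow (L.d x z) (by omega) (by omega) (by rw [hsm]; omega) (by rw [hsm]; omega)
      rw [e1] at h3
      rw [h3]
      have h4 := pt_dist hT hp (i := L.d x z) (j := L.d x z + i * s) (by omega)
        (by rw [hsm]; omega) (by rw [hsm]; omega)
      rw [e1] at h4
      rw [h4, hsm]
      ring
    · have hsm : s = -m := by rw [hm, abs_of_nonpos h0]; ring
      have h6 : (i : ℤ) * s = -((i * m : ℕ) : ℤ) := by rw [hsm]; push_cast; ring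
      have h3 := hpow (L.d x z) (by omega) (by omega) (by rw [h6]; omega) (by rw [h6]; omega)
      rw [e1] at h3
      rw [h3]
      have h4 := pt_dist hT hp (i := L.d x z + i * s) (j := L.d x z) (by rw [h6]; omega)
        (by rw [h6]; omega) (by omega)
      rw [e1] at h4
      rw [L.d_comm, h4, h6]
      push_cast
      ring
  constructor
  · intro i hi
    have h3 := key i hi
    have hle : i * m ≤ n * m := Nat.mul_le_mul_right m hi
    have h5 : (i : ℤ) * m = ((i * m : ℕ) : ℤ) := by push_cast; ring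
    omega
  · have h3 := key n le_rfl
    have h5 : (n : ℤ) * m = ((n * m : ℕ) : ℤ) := by push_cast; ring
    omega

end Len.Tree

variable {ι : Type} {Gf : ι → Type} [∀ i, Group (Gf i)]

theorem Len.Hyp.mono {G : Type} [Group G] {L : Len G} {D D' : ℕ} (h : L.Hyp D) (hD : D ≤ D') :
    L.Hyp D' := fun x y z w => (h x y z w).trans (by omega)

/-- The base stage. -/
theorem base_inv [Nonempty ι] (P : Par) {E : Type} [Group E] (V : Subgroup E) (hV : V.Normal)
    (π : CoprodI Gf →* E) (H : ∀ i, Subgroup (Gf i))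
    (hp : ∀ i (x : Gf i), π (CoprodI.of x) ∈ V → π (CoprodI.of x) ≠ 1 → x ^ P.p = 1)
    (h2 : ∀ i (x : Gf i), x * x = 1 → x = 1) (hF : ∀ g ∈ HH Gf H, π g ∈ V → π g = 1) :
    Inv P V π (HH Gf H) (syl Gf) := by
  have hD := P.hD
  have hT0 := P.hT0
  have hT3 := P.hT3
  have hT4 := P.hT4
  have hA := P.hA
  have hR1 := P.hR1
  have hR := P.hR
  have hr0 := P.hr0
  have hcases := fun g => base_inj V π P.p hp g
  have hd : ∀ (g x : CoprodI Gf) (n : ℕ), (syl Gf).d x (g ^ n * x) = (syl Gf).l (x⁻¹ * g ^ n * x) := by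
    intro g x n
    unfold Len.d
    rw [mul_assoc]
  refine ⟨⟨sylHyp.mono (by omega), no_two_tors h2, ?_, ?_, ?_⟩, ?_, ?_, ?_, ?_, ?_⟩
  · intro g
    rcases conj_or_lox g with ⟨c, i, m, rfl⟩ | h
    · left
      refine ⟨(syl Gf).l c + 1 + (syl Gf).l c, fun n => ?_⟩
      have e : (c * CoprodI.of m * c⁻¹) ^ n = c * CoprodI.of (m ^ n) * c⁻¹ := by
        rw [conj_pow, map_pow]
      rw [e]
      have h1 := (syl Gf).mul (c * CoprodI.of (m ^ n)) c⁻¹
      have h3 := (syl Gf).mul c (CoprodI.of (m ^ n))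
      have h4 : (syl Gf).l (CoprodI.of (m ^ n)) ≤ 1 := by
        rw [syl, Len.gen_le_iff]
        exact Len.Rch.of_mem ⟨⟨i, m ^ n⟩, rfl⟩
      rw [(syl Gf).inv] at h1
      omega
    · right
      refine ⟨1, fun n => ?_⟩
      have := h n 1
      simpa using this
  · intro x y hxy
    obtain ⟨f, -, hf⟩ := Len.Tree.cyc (T := P.T0) syl_tree (x := x) (y := y) (by omega)
    exact ⟨f, fun g h1 h3 => hf g h1 h3⟩
  · intro x y hxy g hg h1 h3
    obtain ⟨n, hn, hn'⟩ := Len.Tree.pow_shift (T := P.T0) syl_tree (by omega) hg h1 h3 (by omega)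
    refine ⟨n, hn, fun z hz hz1 hz2 => ?_⟩
    obtain ⟨h5, h6⟩ := hn' z hz (by omega) (by omega)
    exact ⟨fun i hi => (h5 i hi).trans (by omega), by omega⟩
  · intro g hk hl x n
    rcases hcases g hk.1 hk.2 with h | h
    · exfalso
      obtain ⟨m, hm⟩ := hl
      have h5 := hm P.p
      rw [h, (syl Gf).one] at h5
      have := P.prime.pos
      omega
    · have h5 := h n x
      rw [hd]
      calc n ≤ 1 * (syl Gf).l (x⁻¹ * g ^ n * x) := by omega
        _ ≤ P.r0 * (syl Gf).l (x⁻¹ * g ^ n * x) := Nat.mul_le_mul_right _ (by omega)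
  · intro g hk he
    rcases hcases g hk.1 hk.2 with h | h
    · exact h
    · exfalso
      obtain ⟨B, hB⟩ := he
      have h5 := h (B + 1) 1
      have h6 := hB (B + 1)
      simp only [inv_one, one_mul, mul_one] at h5
      omega
  · intro f hf z hz
    refine ⟨z, HH_convex H 1 f z (one_mem _) hf hz, ?_⟩
    rw [(syl Gf).d_self]
    omega
  · rintro g hg a b ⟨f1, hf1, h1⟩ ⟨f1', hf1', h1'⟩ ⟨f3, hf3, h3⟩ ⟨f3', hf3', h3'⟩
    by_contra hc
    have hc := not_le.1 hc
    refine hg (HH_mal H (4 * P.T0) g f1' f3' f1 f3 hf1' hf3' hf1 hf3 ?_ ?_ ?_)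
    · have := (syl Gf).d_tri (g * f1') a f1
      rw [(syl Gf).d_comm (g * f1') a] at this
      omega
    · have := (syl Gf).d_tri (g * f3') b f3
      rw [(syl Gf).d_comm (g * f3') b] at this
      omega
    · have e1 := (syl Gf).d_tri a (g * f1') b
      have e2 := (syl Gf).d_tri (g * f1') (g * f3') b
      rw [(syl Gf).d_smul, (syl Gf).d_comm (g * f3') b] at e2
      omega
  · intro f hf hk
    exact hk.2 (hF f hf hk.1)

end Pool.Agent.Beb
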