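import Pool.Agent.Work.MP_beb559_al.TB

/-!
# Consequences of the invariants (C1), (C2): small displacement along a long segment

`997 * D = T0 - 3 * D`.
-/

namespace Pool.Agent.Beb

variable {P : Par} {G : Type} [Group G] {L : Len G}

/-- A point of a sub-segment. -/
private theorem ca_sub {x z y w : G} (h : L.Btw x z y) (h' : L.Btw x w z) :
    L.Btw x w y ∧ L.d w z + L.d z y = L.d w y := by
  unfold Len.Btw at *
  have t1 := L.d_tri w z y
  have t2 := L.d_tri x w y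
  omega

private theorem ca_comm {x z y : G} (h : L.Btw x z y) : L.Btw y z x := by
  unfold Len.Btw at *
  rw [L.d_comm y z, L.d_comm z x, L.d_comm y x]
  omega

/-- Points not too close to the ends are moved at most `T0`. -/
private theorem ca_t0 (hH : L.Hyp P.D) {x y z g : G}
    (hx : L.d x (g * x) ≤ 997 * P.D) (hy : L.d y (g * y) ≤ 997 * P.D) (hz : L.Btw x z y)
    (h1 : 998 * P.D ≤ L.d x z) (h2 : 998 * P.D ≤ L.d z y) : L.d z (g * z) ≤ P.T0 := by
  have h := transl L hH hx hy (z := z) (ε := 0) (by unfold Len.Btw at hz; omega) (by omega)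
    (by omega)
  have h3 := sh_le L x y g
  have := P.hT0
  omega

/-- CA0. All elements moving two far apart points at most `997 D` lie in one cyclic group. -/
theorem cyc_of_long (hG : Geo P L) {x y : G} (hxy : 2 * P.A ≤ L.d x y) :
    ∃ c : G, ∀ g : G, L.d x (g * x) ≤ 997 * P.D → L.d y (g * y) ≤ 997 * P.D →
      g ∈ Subgroup.zpowers c := by
  have c1 := P.hT0
  have c2 := P.hT3
  have c3 := P.hA
  have c4 := P.hD
  obtain ⟨y₁, h1, h2⟩ := L.d_interp x y (P.A + 1000 * P.D) (by omega)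
  have hy1 : L.Btw x y₁ y := by unfold Len.Btw; omega
  obtain ⟨x₁, h3, h4⟩ := L.d_interp x y₁ (1000 * P.D) (by omega)
  have hx1 : L.Btw x x₁ y₁ := by unfold Len.Btw; omega
  obtain ⟨hx2, h5⟩ := ca_sub hy1 hx1
  obtain ⟨c, hc⟩ := hG.c1 x₁ y₁ (by omega)
  refine ⟨c, fun g hgx hgy => hc g ?_ ?_⟩
  · exact ca_t0 hG.hyp hgx hgy hx2 (by omega) (by omega)
  · exact ca_t0 hG.hyp hgx hgy hy1 (by omega) (by omega)

/-- One half of the comparison of displacements. -/
private theorem ca_half (hH : L.Hyp P.D) {x w v z u : G} (hv : L.Btw x v w)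
    (hz : L.d x z + L.d z v ≤ L.d x v + P.D) (h1 : L.d z (u * z) ≤ P.T3)
    (h2 : L.d w (u * w) ≤ P.T3) (h3 : P.T3 + 2 * P.D ≤ L.d z v)
    (h4 : P.T3 + 2 * P.D ≤ L.d v w) : L.d v (u * v) ≤ L.d z (u * z) + 4 * P.D := by
  have t1 := L.d_tri x z w
  have h5 : L.d z v + L.d v w ≤ L.d z w + P.D := by
    unfold Len.Btw at hv
    omega
  have h := transl L hH h1 h2 h5 (by omega) (by omega)
  have h6 := sh_le L z w u
  omega

/-- The window around a deep point. -/
private theorem ca_window (hG : Geo P L) {x y g v : G} (hg : g ≠ 1)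
    (hx : L.d x (g * x) ≤ 997 * P.D) (hy : L.d y (g * y) ≤ 997 * P.D) (hv : L.Btw x v y)
    (hv1 : P.A ≤ L.d x v) (hv2 : P.A ≤ L.d v y) :
    ∃ n : ℕ, 1 ≤ n ∧ P.T4 ≤ L.d v (g ^ n * v) ∧ (∀ i ≤ n, L.d v (g ^ i * v) ≤ P.T3) ∧
      ∃ a b : G, L.Btw x a v ∧ L.Btw v b y ∧ 4 * L.d a v = P.A ∧ 4 * L.d v b = P.A ∧
        (∀ i ≤ n, L.d a (g ^ i * a) ≤ P.T3) ∧ (∀ i ≤ n, L.d b (g ^ i * b) ≤ P.T3) := by
  have c1 := P.hT0
  have c2 := P.hT3
  have c3 := P.hA
  have c4 := P.hD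
  obtain ⟨w₁, h1, h2⟩ := L.d_interp x v (L.d x v - 50 * P.T3) (by omega)
  obtain ⟨w₂, h3, h4⟩ := L.d_interp v y (50 * P.T3) (by omega)
  have hw1 : L.Btw x w₁ v := by unfold Len.Btw; omega
  have hw2 : L.Btw v w₂ y := by unfold Len.Btw; omega
  obtain ⟨hw1', e1⟩ := ca_sub hv hw1
  have hw2' : L.Btw x w₂ y := ca_comm (ca_sub (ca_comm hv) (ca_comm hw2)).1
  have e2 : L.d x w₂ = L.d x v + L.d v w₂ := by
    unfold Len.Btw at hw2' hv hw2
    omega
  have e3 : L.d w₁ w₂ = P.A := by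
    have t1 := L.d_tri w₁ v w₂
    have t2 := L.d_tri x w₁ w₂
    omega
  have hvw : L.Btw w₁ v w₂ := by
    unfold Len.Btw
    have t1 := L.d_tri w₁ v w₂
    omega
  obtain ⟨n, hn, hc⟩ := hG.c2 w₁ w₂ e3 g hg
    (ca_t0 hG.hyp hx hy hw1' (by omega) (by unfold Len.Btw at hw1'; omega))
    (ca_t0 hG.hyp hx hy hw2' (by omega) (by omega))
  obtain ⟨a, h5, h6⟩ := L.d_interp w₁ v (25 * P.T3) (by omega)
  obtain ⟨b, h7, h8⟩ := L.d_interp v w₂ (25 * P.T3) (by omega)
  have ha : L.Btw w₁ a v := by unfold Len.Btw; omega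
  have hb : L.Btw v b w₂ := by unfold Len.Btw; omega
  have ha' : L.Btw x a v := ca_comm (ca_sub (ca_comm hw1) (ca_comm ha)).1
  have hb' : L.Btw v b y := (ca_sub hw2 hb).1
  have haw := ca_sub hvw ha
  have hbw : L.Btw w₁ b w₂ := ca_comm (ca_sub (ca_comm hvw) (ca_comm hb)).1
  have ev := hc v hvw (by omega) (by omega)
  have ea := hc a haw.1 (by omega) (by have := haw.2; omega)
  have eb := hc b hbw (by unfold Len.Btw at hbw; omega) (by omega)
  refine ⟨n, hn, ev.2, ev.1, a, b, ha', hb', by omega, by omega, ea.1, eb.1⟩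

/-- CA1. Power lemma. -/
theorem power (hG : Geo P L) {x y g : G} (hxy : 3 * P.A ≤ L.d x y) (hg : g ≠ 1)
    (hx : L.d x (g * x) ≤ 997 * P.D) (hy : L.d y (g * y) ≤ 997 * P.D) :
    ∃ n : ℕ, 1 ≤ n ∧ ∀ z, L.Btw x z y → P.A ≤ L.d x z → P.A ≤ L.d z y →
      (∀ i ≤ n, L.d z (g ^ i * z) ≤ P.T3) ∧ P.T4 ≤ L.d z (g ^ n * z) + 10 * P.D := by
  classical
  have c1 := P.hT0
  have c2 := P.hT3
  have c3 := P.hA
  have c4 := P.hD
  have c5 := P.hT4
  let Q : ℕ → Prop := fun n => 1 ≤ n ∧ ∃ v, L.Btw x v y ∧ P.A ≤ L.d x v ∧ P.A ≤ L.d v y ∧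
    P.T4 ≤ L.d v (g ^ n * v)
  have hQ : ∃ n, Q n := by
    obtain ⟨v, h1, h2⟩ := L.d_interp x y P.A (by omega)
    have hv : L.Btw x v y := by unfold Len.Btw; omega
    obtain ⟨n, hn, h3, -⟩ := ca_window hG hg hx hy hv (by omega) (by omega)
    exact ⟨n, hn, v, hv, by omega, by omega, h3⟩
  obtain ⟨hn, v₀, hv, hv1, hv2, hv3⟩ := Nat.find_spec hQ
  have hmin : ∀ m, Q m → Nat.find hQ ≤ m := fun m hm => Nat.find_min' hQ hm
  generalize Nat.find hQ = n at hn hv3 hmin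
  have hdeep : ∀ z, L.Btw x z y → P.A ≤ L.d x z → P.A ≤ L.d z y →
      ∀ i ≤ n, L.d z (g ^ i * z) ≤ P.T3 := by
    intro z hz h1 h2 i hi
    obtain ⟨m, hm, h3, h4, -⟩ := ca_window hG hg hx hy hz h1 h2
    exact h4 i (hi.trans (hmin m ⟨hm, z, hz, h1, h2, h3⟩))
  refine ⟨n, hn, fun z hz h1 h2 => ⟨hdeep z hz h1 h2, ?_⟩⟩
  obtain ⟨m, hm, m1, m2, a, b, ha, hb, ha1, hb1, ha2, hb2⟩ := ca_window hG hg hx hy hv hv1 hv2
  have hnm : n ≤ m := hmin m ⟨hm, v₀, hv, hv1, hv2, m1⟩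
  have ha3 := ha2 n hnm
  have hb3 := hb2 n hnm
  -- positions
  have hax := ca_sub hv ha
  have hbx : L.Btw x b y := ca_comm (ca_sub (ca_comm hv) (ca_comm hb)).1
  have eab : L.d a v₀ + L.d v₀ b = L.d a b := by
    have t1 := L.d_tri a v₀ b
    have t2 := L.d_tri x a b
    have e1 : L.d x b = L.d x v₀ + L.d v₀ b := by
      unfold Len.Btw at hbx hv hb
      omega
    unfold Len.Btw at ha
    omega
  have hab : L.Btw a v₀ b := eab
  have hs := transl L hG.hyp ha3 hb3 (z := v₀) (ε := 0) (by omega) (by omega) (by omega)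
  have hdisp : ∀ v, L.Btw a v b → P.T3 + P.D ≤ L.d a v → P.T3 + P.D ≤ L.d v b →
      P.T4 ≤ L.d v (g ^ n * v) + 5 * P.D := by
    intro v hv4 h3 h4
    have := transl L hG.hyp ha3 hb3 (z := v) (ε := 0) (by unfold Len.Btw at hv4; omega)
      (by omega) (by omega)
    omega
  have hz3 := hdeep z hz h1 h2 n le_rfl
  rcases le_total (L.d x z) (L.d x v₀) with hc | hc
  · obtain ⟨v, h3, h4⟩ := L.d_interp v₀ b (24 * P.T3 - 2 * P.D) (by omega)
    have hv5 : L.Btw v₀ v b := by unfold Len.Btw; omega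
    have hv6 : L.Btw a v b := ca_comm (ca_sub (ca_comm hab) (ca_comm hv5)).1
    have hv7 : L.Btw v₀ v y := (ca_sub hb hv5).1
    have hv8 : L.Btw x v y := ca_comm (ca_sub (ca_comm hv) (ca_comm hv7)).1
    have e4 : L.d x v = L.d x v₀ + L.d v₀ v := by
      unfold Len.Btw at hv8 hv7 hv
      omega
    have e5 : L.d x b = L.d x v₀ + L.d v₀ b := by
      unfold Len.Btw at hbx hv hb
      omega
    have hv9 : L.Btw x v b := by
      unfold Len.Btw
      omega
    have k1 := hdisp v hv6 (by unfold Len.Btw at hv6; omega) (by omega)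
    have k2 := btw_btw L hG.hyp hz hv8 (by omega)
    have k3 := L.d_tri x z v
    have k4 := ca_half hG.hyp hv9 k2 hz3 hb3 (by omega) (by omega)
    omega
  · obtain ⟨v, h3, h4⟩ := L.d_interp a v₀ (P.T3 + 2 * P.D) (by omega)
    have hv5 : L.Btw a v v₀ := by unfold Len.Btw; omega
    have hv6 := ca_sub hab hv5
    have hv7 : L.Btw x v v₀ := ca_comm (ca_sub (ca_comm ha) (ca_comm hv5)).1
    have hv8 := ca_sub hv hv7
    have e4 : L.d y v = L.d y v₀ + L.d v₀ v := by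
      have := L.d_comm y v
      have := L.d_comm y v₀
      have := L.d_comm v₀ v
      have := hv8.2
      omega
    have hv9 : L.Btw y v a := by
      have := L.d_comm y v
      have := L.d_comm y a
      have := L.d_comm v a
      have := L.d_comm y v₀
      have := L.d_comm v₀ v
      have := hv8.2
      have := hax.2
      unfold Len.Btw
      omega
    have k1 := hdisp v hv6.1 (by omega) (by have := hv6.2; omega)
    have k0 : L.d y z ≤ L.d y v := by
      have := L.d_comm y z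
      have := L.d_comm y v₀
      unfold Len.Btw at hz hv
      omega
    have k2 := btw_btw L hG.hyp (ca_comm hz) (ca_comm hv8.1) k0
    have k3 := L.d_tri y z v
    have k5 := L.d_comm y z
    have k6 := L.d_comm v₀ v
    have k7 := L.d_comm y v₀
    have k8 := L.d_comm v a
    have k4 := ca_half hG.hyp hv9 k2 hz3 ha3 (by unfold Len.Btw at hz hv; omega) (by omega)
    omega

/-- CA1'. The shift of the power. -/
theorem power_sh (hG : Geo P L) {x y g : G} (hxy : 4 * P.A ≤ L.d x y) (hg : g ≠ 1)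
    (hx : L.d x (g * x) ≤ 997 * P.D) (hy : L.d y (g * y) ≤ 997 * P.D) :
    ∃ n : ℕ, 1 ≤ n ∧ ∀ z w, L.Btw x z y → L.Btw x w y → P.A ≤ L.d x z → P.A ≤ L.d z y →
      P.A ≤ L.d x w → P.A ≤ L.d w y → L.d x z + 4 * P.T3 ≤ L.d x w →
      (∀ i ≤ n, L.d z (g ^ i * z) ≤ P.T3) ∧ (P.T4 : ℤ) ≤ |L.sh z w (g ^ n)| + 20 * P.D := by
  have c1 := P.hT0
  have c2 := P.hT3
  have c3 := P.hA
  have c4 := P.hD
  have c5 := P.hT4
  obtain ⟨n, hn, hp⟩ := power hG (by omega) hg hx hy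
  refine ⟨n, hn, fun z w hz hw z1 z2 w1 w2 hzw => ?_⟩
  obtain ⟨pz, -⟩ := hp z hz z1 z2
  obtain ⟨pw, -⟩ := hp w hw w1 w2
  refine ⟨pz, ?_⟩
  have hw' := hw
  have hz' := hz
  unfold Len.Btw at hw' hz'
  obtain ⟨m, h1, h2⟩ := L.d_interp x y (L.d x z + 2 * P.T3) (by omega)
  have hm : L.Btw x m y := by unfold Len.Btw; omega
  have pm := (hp m hm (by omega) (by omega)).2
  have k1 := btw_btw L hG.hyp hz hm (by omega)
  have k2 := btw_btw L hG.hyp hm hw (by omega)
  have t1 := L.d_tri x z w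
  have t2 := L.d_tri x z m
  have t3 := L.d_tri x m w
  have k3 := transl L hG.hyp (pz n le_rfl) (pw n le_rfl) (z := m) (ε := 2 * P.D) (by omega)
    (by omega) (by omega)
  omega

/-- CA2. Non-trivial elements moving two far apart points little are loxodromic. -/
theorem lox_of_long (hG : Geo P L) {x y g : G} (hxy : 4 * P.A ≤ L.d x y) (hg : g ≠ 1)
    (hx : L.d x (g * x) ≤ 997 * P.D) (hy : L.d y (g * y) ≤ 997 * P.D) : Lox L g := by
  have c1 := P.hT0
  have c2 := P.hT3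
  have c3 := P.hA
  have c4 := P.hD
  have c5 := P.hT4
  obtain ⟨n, hn, hp⟩ := power_sh hG hxy hg hx hy
  obtain ⟨z, z1, z2⟩ := L.d_interp x y P.A (by omega)
  obtain ⟨w, w1, w2⟩ := L.d_interp x y (L.d x y - P.A - 4 * P.T3) (by omega)
  obtain ⟨v, v1, v2⟩ := L.d_interp x y (L.d x y - P.A) (by omega)
  have hz : L.Btw x z y := by unfold Len.Btw; omega
  have hw : L.Btw x w y := by unfold Len.Btw; omega
  have hv : L.Btw x v y := by unfold Len.Btw; omega
  obtain ⟨pz, ps⟩ := hp z w hz hw (by omega) (by omega) (by omega) (by omega) (by omega)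
  obtain ⟨pw, -⟩ := hp w v hw hv (by omega) (by omega) (by omega) (by omega) (by omega)
  have t1 := L.d_tri x z w
  obtain ⟨m, m1, m2⟩ := L.d_interp z w (2 * P.T3 + 5 * P.D) (by omega)
  have hm : L.Btw z m w := by unfold Len.Btw; omega
  have k1 := lox_of_sh L hG.hyp (pz n le_rfl) (pw n le_rfl) hm (by omega) (by omega)
  have k2 : Lox L (g ^ n) := lox_of_grow L hG.hyp (x := m) (by omega)
  apply lox_of_zpow L (j := (n : ℤ))
  rw [zpow_natCast]
  exact k2

end Pool.Agent.Beb
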