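import Pool.Agent.Work.MP_beb559_al.CA

/-!
# Commutation, centralizers of loxodromic elements, no inversions
-/

namespace Pool.Agent.Beb

variable {P : Par} {G : Type} [Group G] {L : Len G}

theorem Len.l_pow_le (L : Len G) (g : G) (n : ℕ) : L.l (g ^ n) ≤ n * L.l g := by
  induction n with
  | zero => simp [L.one]
  | succ n ih =>
    have h1 := L.mul (g ^ n) g
    rw [pow_succ]
    calc L.l (g ^ n * g) ≤ L.l (g ^ n) + L.l g := h1
      _ ≤ n * L.l g + L.l g := by omega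
      _ = (n + 1) * L.l g := by ring

theorem Len.l_zpow_le (L : Len G) (g : G) (n : ℤ) : L.l (g ^ n) ≤ n.natAbs * L.l g := by
  rcases Int.natAbs_eq n with h | h
  · conv_lhs => rw [h, zpow_natCast]
    exact L.l_pow_le g _
  · conv_lhs => rw [h, zpow_neg, zpow_natCast, L.inv]
    exact L.l_pow_le g _

theorem Len.d_inv_smul (L : Len G) (g z : G) : L.d z (g⁻¹ * z) = L.d z (g * z) := by
  have h := L.d_smul g z (g⁻¹ * z)
  rw [mul_inv_cancel_left] at h
  rw [← h, L.d_comm]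

/-- An element commuting with `a` moves `a` by its length. -/
theorem Len.d_comm_l (L : Len G) {g a : G} (h : g * a = a * g) : L.d a (g * a) = L.l g := by
  unfold Len.d
  rw [h, inv_mul_cancel_left]

theorem Len.lox_ne_one {g : G} (h : Lox L g) : g ≠ 1 := by
  intro h1
  have := lox_zpow_ne L h (j := 1) (by norm_num)
  rw [zpow_one] at this
  exact this h1

/-- The orbit points of a loxodromic element go to infinity. -/
theorem lox_far {u : G} (hu : Lox L u) (y : G) (B : ℕ) : ∃ N : ℕ, ∀ n, N ≤ n →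
    B ≤ L.d y (u ^ n * y) := by
  obtain ⟨m, hm⟩ := hu
  refine ⟨m * B, fun n hn => ?_⟩
  have h1 := lox_all L hm y n
  by_contra hc
  push Not at hc
  have hm0 : 0 < m := by
    rcases Nat.eq_zero_or_pos m with h0 | h0
    · exfalso
      have := hm 1
      rw [h0] at this
      omega
    · exact h0
  have h2 : m * (L.d y (u ^ n * y) + 1) ≤ m * B := Nat.mul_le_mul_left _ hc
  have h3 : m * (L.d y (u ^ n * y) + 1) = m * L.d y (u ^ n * y) + m := by ring
  omega

/-- CB0. If `f ≠ 1` moves two far apart points `x`, `y` at most `997 D`, if `g` moves them at most `T`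
and if `g * f * g⁻¹` moves them at most `997 D` then `g` commutes with `f`. Proof: by `cyc_of_long`
`f = c^a`, `g*f*g⁻¹ = c^b`, `c` is loxodromic by `lox_of_long`, `b = ± a` by `zpow_conj_eq`. If
`b = -a`: take `n` of `power_sh`, `u = f^n`, `g*u*g⁻¹ = u⁻¹`, and compare the shifts along `x', y'`
(at distance `A` from `x`, `y`): `sh_mul`, `sh_inv` (with `T' = T + T3 + 3 D`) give
`2 |L.sh x' y' u| ≤ 36 D`, while `|L.sh x' y' u| ≥ T4 - 20 D`. -/
theorem comm_of_conj (hG : Geo P L) {x y f g : G} {T : ℕ} (hxy : 10 * T + 100 * P.T3 + 4 * P.A ≤ L.d x y)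
    (hfx : L.d x (f * x) ≤ 997 * P.D) (hfy : L.d y (f * y) ≤ 997 * P.D)
    (hgx : L.d x (g * x) ≤ T) (hgy : L.d y (g * y) ≤ T)
    (hx : L.d x (g * f * g⁻¹ * x) ≤ 997 * P.D) (hy : L.d y (g * f * g⁻¹ * y) ≤ 997 * P.D) :
    g * f = f * g := by
  by_cases hf1 : f = 1
  · rw [hf1, mul_one, one_mul]
  have hD := P.hD
  have hT0 := P.hT0
  have hT3 := P.hT3
  have hT4 := P.hT4
  have hA := P.hA
  have hlf : Lox L f := lox_of_long hG (by omega) hf1 hfx hfy
  obtain ⟨c, hc⟩ := cyc_of_long hG (x := x) (y := y) (by omega)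
  obtain ⟨a, ha⟩ := Subgroup.mem_zpowers_iff.1 (hc f hfx hfy)
  obtain ⟨b, hb⟩ := Subgroup.mem_zpowers_iff.1 (hc (g * f * g⁻¹) hx hy)
  have hlc : Lox L c := lox_of_zpow L (j := a) (by rw [ha]; exact hlf)
  have ha0 : a ≠ 0 := by
    intro h0
    rw [h0, zpow_zero] at ha
    exact hf1 ha.symm
  rcases zpow_conj_eq L hlc ha0 (g := g) (b := b) (by rw [ha, hb]) with h | h
  · rw [h, ha] at hb
    calc g * f = g * f * g⁻¹ * g := by group
      _ = f * g := by rw [← hb]
  exfalso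
  have hinv : g * f * g⁻¹ = f⁻¹ := by
    rw [← hb, h, zpow_neg, ha]
  obtain ⟨n, hn1, hn⟩ := power_sh hG (x := x) (y := y) (by omega) hf1 hfx hfy
  set u := f ^ n with hu
  have hgu : g * u * g⁻¹ = u⁻¹ := by
    rw [hu, ← conj_pow, hinv, inv_pow]
  -- points
  obtain ⟨z, hz1, hz2⟩ := L.d_interp x y P.A (by omega)
  obtain ⟨w, hw1, hw2⟩ := L.d_interp x y (L.d x y - P.A - 4 * P.T3) (by omega)
  obtain ⟨w', hw'1, hw'2⟩ := L.d_interp x y (L.d x y - P.A) (by omega)
  have hzB : L.Btw x z y := by unfold Len.Btw; omega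
  have hwB : L.Btw x w y := by unfold Len.Btw; omega
  have hw'B : L.Btw x w' y := by unfold Len.Btw; omega
  obtain ⟨h1, h2⟩ := hn z w hzB hwB (by omega) (by omega) (by omega) (by omega) (by omega)
  obtain ⟨h3, _⟩ := hn w w' hwB hw'B (by omega) (by omega) (by omega) (by omega) (by omega)
  have hzu : L.d z (u * z) ≤ P.T3 := h1 n le_rfl
  have hwu : L.d w (u * w) ≤ P.T3 := h3 n le_rfl
  have hzg : L.d z (g * z) ≤ T + 2 * P.D := disp_qc L hG.hyp hzB hgx hgy
  have hwg : L.d w (g * w) ≤ T + 2 * P.D := disp_qc L hG.hyp hwB hgx hgy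
  have hzw : L.d x y - 2 * P.A - 4 * P.T3 ≤ L.d z w := by
    have := L.d_tri x z w
    omega
  have e1 := sh_mul L hG.hyp (a := z) (b := w) (g := g) (h := u) (T := T + P.T3 + 3 * P.D)
    (by omega) (by omega) (by omega) (by omega) (by omega)
  have e2 := sh_mul L hG.hyp (a := z) (b := w) (g := u⁻¹) (h := g) (T := T + P.T3 + 3 * P.D)
    (by rw [L.d_inv_smul]; omega) (by rw [L.d_inv_smul]; omega) (by omega) (by omega) (by omega)
  have e3 := sh_inv L hG.hyp (a := z) (b := w) (g := u) (T := T + P.T3 + 3 * P.D)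
    (by omega) (by omega) (by omega)
  have e4 : u⁻¹ * g = g * u := by
    rw [← hgu]; group
  rw [e4] at e2
  rw [abs_le] at e1 e2 e3
  rcases abs_cases (L.sh z w u) with ⟨h4, _⟩ | ⟨h4, _⟩ <;> rw [h4] at h2 <;> omega

/-- CB0'. If the commutator `f = h⁻¹ g⁻¹ h g` commutes with `g` and `h` and is loxodromic:
contradiction. Proof: `(h^n)⁻¹ (g^n)⁻¹ h^n g^n = f^(n^2)`, so
`n^2 ≤ m L.l (f^(n^2)) ≤ 2 m n (L.l g + L.l h)` for all `n`. -/
theorem no_heis {f g h : G} (hf : f = h⁻¹ * g⁻¹ * h * g) (h1 : g * f = f * g)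
    (h2 : h * f = f * h) : ¬ Lox L f := by
  rintro ⟨m, hm⟩
  have hc1 : Commute g f := h1
  have hc2 : Commute h f := h2
  have e1 : h * g = g * h * f := by rw [hf]; group
  have e2 : ∀ n : ℕ, h ^ n * g = g * h ^ n * f ^ n := by
    intro n
    induction n with
    | zero => simp
    | succ n ih =>
      calc h ^ (n + 1) * g = h * (h ^ n * g) := by rw [pow_succ', mul_assoc]
        _ = (h * g) * h ^ n * f ^ n := by rw [ih]; group
        _ = g * h * (f * h ^ n) * f ^ n := by rw [e1]; group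
        _ = g * h * (h ^ n * f) * f ^ n := by rw [(hc2.symm.pow_right n).eq]
        _ = g * h ^ (n + 1) * f ^ (n + 1) := by
          rw [pow_succ' h, pow_succ' f]; group
  have e3 : ∀ n k : ℕ, h ^ n * g ^ k = g ^ k * h ^ n * f ^ (n * k) := by
    intro n k
    induction k with
    | zero => simp
    | succ k ih =>
      have hcf : Commute (f ^ (n * k)) g := (hc1.symm.pow_left (n * k))
      have hcf2 : Commute (f ^ (n * k)) (f ^ n) := Commute.pow_pow_self f _ _
      calc h ^ n * g ^ (k + 1) = (h ^ n * g ^ k) * g := by rw [pow_succ]; group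
        _ = g ^ k * h ^ n * (f ^ (n * k) * g) := by rw [ih]; group
        _ = g ^ k * (h ^ n * g) * f ^ (n * k) := by rw [hcf.eq]; group
        _ = g ^ k * (g * h ^ n * f ^ n) * f ^ (n * k) := by rw [e2]
        _ = g ^ (k + 1) * h ^ n * (f ^ n * f ^ (n * k)) := by rw [pow_succ g k]; group
        _ = _ := by rw [← pow_add]; congr 2; ring
  set S := 2 * m * (L.l g + L.l h) + 1 with hS
  have e4 : f ^ (S * S) = (h ^ S)⁻¹ * (g ^ S)⁻¹ * (h ^ S * g ^ S) := by
    rw [e3 S S]; group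
  have e5 : L.l (f ^ (S * S)) ≤ 2 * (S * L.l h + S * L.l g) := by
    rw [e4]
    have a1 := L.mul ((h ^ S)⁻¹ * (g ^ S)⁻¹) (h ^ S * g ^ S)
    have a2 := L.mul (h ^ S)⁻¹ (g ^ S)⁻¹
    have a3 := L.mul (h ^ S) (g ^ S)
    rw [L.inv, L.inv] at a2
    have a4 := L.l_pow_le h S
    have a5 := L.l_pow_le g S
    omega
  have e6 := hm (S * S)
  have e7 : m * L.l (f ^ (S * S)) ≤ m * (2 * (S * L.l h + S * L.l g)) := Nat.mul_le_mul_left _ e5
  have e8 : S * S ≤ S * (2 * m * (L.l g + L.l h)) := by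
    calc S * S ≤ m * (2 * (S * L.l h + S * L.l g)) := e6.trans e7
      _ = _ := by ring
  have e9 : S ≤ 2 * m * (L.l g + L.l h) := Nat.le_of_mul_le_mul_left e8 (by omega)
  omega

/-- CB1. Two elements moving two far apart points at most `T` commute. Proof: `f = h⁻¹ g⁻¹ h g`.
Deep points (at distance `≥ 2 T + 10 D` from the ends) are moved at most `16 D` by `f`
(`comm_small`), and at distance `≥ 3 T + 20 D` from the ends at most `24 D` by `g f g⁻¹` and
`h f h⁻¹` (`transl_near` for `g⁻¹`). Apply `comm_of_conj` to two such points `x₁, y₁` (`g`, `h` move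
them at most `T + 3 D`); if `f ≠ 1` it is loxodromic by `lox_of_long`: `no_heis`. -/
theorem comm_of_long (hG : Geo P L) {x y g h : G} {T : ℕ}
    (hxy : 20 * T + 200 * P.T3 + 6 * P.A ≤ L.d x y)
    (gx : L.d x (g * x) ≤ T) (gy : L.d y (g * y) ≤ T)
    (hx : L.d x (h * x) ≤ T) (hy : L.d y (h * y) ≤ T) : g * h = h * g := by
  have hD := P.hD
  have hT0 := P.hT0
  have hT3 := P.hT3
  have hA := P.hA
  set f := h⁻¹ * g⁻¹ * h * g with hf
  -- deep points
  have small : ∀ z, L.Btw x z y → 2 * T + 10 * P.D ≤ L.d x z → 2 * T + 10 * P.D ≤ L.d z y →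
      L.d z (f * z) ≤ 16 * P.D := by
    intro z hz h1 h2
    have h3 := comm_small L hG.hyp gx gy hx hy hz h1 h2
    have h4 := L.d_smul (g * h) z (f * z)
    have h5 : g * h * (f * z) = h * g * z := by rw [hf]; group
    rw [h5] at h4
    rw [← h4]
    exact h3
  have small' : ∀ k, L.d x (k * x) ≤ T → L.d y (k * y) ≤ T → ∀ z, L.Btw x z y →
      3 * T + 20 * P.D ≤ L.d x z → 3 * T + 20 * P.D ≤ L.d z y →
      L.d z (k * f * k⁻¹ * z) ≤ 24 * P.D := by
    intro k kx ky z hz h1 h2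
    have kx' : L.d x (k⁻¹ * x) ≤ T := by rw [L.d_inv_smul]; exact kx
    have ky' : L.d y (k⁻¹ * y) ≤ T := by rw [L.d_inv_smul]; exact ky
    obtain ⟨z', hz', hd⟩ := transl_near L hG.hyp kx' ky' hz (by omega) (by omega)
    have h3 : L.d z (k⁻¹ * z) ≤ T + 2 * P.D := disp_qc L hG.hyp hz kx' ky'
    have h4 := L.d_tri x (k⁻¹ * z) z
    have h4' := L.d_tri x z' (k⁻¹ * z)
    have h5 := L.d_tri z (k⁻¹ * z) y
    have h5' := L.d_tri (k⁻¹ * z) z' y
    have h6 := L.d_comm (k⁻¹ * z) z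
    have h6' := L.d_comm (k⁻¹ * z) z'
    have h7 := small z' hz' (by omega) (by omega)
    have h8 := L.d_smul k (k⁻¹ * z) (f * (k⁻¹ * z))
    rw [mul_inv_cancel_left] at h8
    have h9 : k * (f * (k⁻¹ * z)) = k * f * k⁻¹ * z := by group
    rw [h9] at h8
    rw [h8]
    have t1 := L.d_tri (k⁻¹ * z) z' (f * (k⁻¹ * z))
    have t2 := L.d_tri z' (f * z') (f * (k⁻¹ * z))
    have t3 := L.d_smul f z' (k⁻¹ * z)
    omega
  obtain ⟨x₁, hx1, hx2⟩ := L.d_interp x y (3 * T + 20 * P.D) (by omega)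
  obtain ⟨y₁, hy1, hy2⟩ := L.d_interp x y (L.d x y - (3 * T + 20 * P.D)) (by omega)
  have hxB : L.Btw x x₁ y := by unfold Len.Btw; omega
  have hyB : L.Btw x y₁ y := by unfold Len.Btw; omega
  have hlen : L.d x y - 2 * (3 * T + 20 * P.D) ≤ L.d x₁ y₁ := by
    have := L.d_tri x x₁ y₁
    omega
  have f1 := small x₁ hxB (by omega) (by omega)
  have f2 := small y₁ hyB (by omega) (by omega)
  have cg : g * f = f * g := by
    refine comm_of_conj hG (x := x₁) (y := y₁) (T := T + 3 * P.D) (by omega) (by omega) (by omega)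
      ?_ ?_ ?_ ?_
    · have := disp_qc L hG.hyp hxB gx gy; omega
    · have := disp_qc L hG.hyp hyB gx gy; omega
    · have := small' g gx gy x₁ hxB (by omega) (by omega); omega
    · have := small' g gx gy y₁ hyB (by omega) (by omega); omega
  have ch : h * f = f * h := by
    refine comm_of_conj hG (x := x₁) (y := y₁) (T := T + 3 * P.D) (by omega) (by omega) (by omega)
      ?_ ?_ ?_ ?_
    · have := disp_qc L hG.hyp hxB hx hy; omega
    · have := disp_qc L hG.hyp hyB hx hy; omega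
    · have := small' h hx hy x₁ hxB (by omega) (by omega); omega
    · have := small' h hx hy y₁ hyB (by omega) (by omega); omega
  have hf1 : f = 1 := by
    by_contra hne
    exact no_heis hf cg ch (lox_of_long hG (x := x₁) (y := y₁) (by omega) hne (by omega) (by omega))
  calc g * h = g * h * f := by rw [hf1, mul_one]
    _ = h * g := by rw [hf]; group

theorem comm_pow_right {f u : G} (h : f * u = u * f) (n : ℕ) : f * u ^ n = u ^ n * f :=
  (Commute.pow_right (show Commute f u from h) n).eq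

/-- CB2. Hint: `comm_of_long` for `x = 1`, `y = u^N`. -/
theorem comm_of_cent (hG : Geo P L) {u g h : G} (hu : Lox L u) (hg : g * u = u * g)
    (hh : h * u = u * h) : g * h = h * g := by
  set T := L.l g + L.l h with hT
  obtain ⟨N, hN⟩ := lox_far hu 1 (20 * T + 200 * P.T3 + 6 * P.A)
  have h1 := hN N le_rfl
  rw [mul_one] at h1
  refine comm_of_long hG (x := 1) (y := u ^ N) (T := T) h1 ?_ ?_ ?_ ?_
  · rw [mul_one, L.d_one]; omega
  · rw [L.d_comm_l (comm_pow_right hg N)]; omega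
  · rw [mul_one, L.d_one]; omega
  · rw [L.d_comm_l (comm_pow_right hh N)]; omega

/-- CB2'. Non-trivial elements commuting with a loxodromic one are loxodromic. Hint: `np`; if `f` is
elliptic `minD_small` gives `v` with `L.d v (f*v) ≤ 3 D`, also `u^N*v` is moved at most `3 D`;
`lox_of_long`, `not_lox_of_ell`. -/
theorem lox_of_cent (hG : Geo P L) {u f : G} (hu : Lox L u) (hf : f * u = u * f) (h1 : f ≠ 1) :
    Lox L f := by
  have hD := P.hD
  rcases hG.np f with he | hl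
  · exfalso
    have hnl := not_lox_of_ell L he
    obtain ⟨v, hv⟩ := minD_small L hG.hyp (by omega) hnl
    obtain ⟨N, hN⟩ := lox_far hu v (4 * P.A)
    have h2 := hN N le_rfl
    refine hnl (lox_of_long hG (x := v) (y := u ^ N * v) h2 h1 (by omega) ?_)
    have h3 : f * (u ^ N * v) = u ^ N * (f * v) := by
      rw [← mul_assoc, comm_pow_right hf N, mul_assoc]
    rw [h3, L.d_smul]
    omega
  · exact hl

/-- A long window along the axis of a loxodromic element, seen by its centralizer. -/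
theorem exists_window (hG : Geo P L) {u : G} (hu : Lox L u) : ∃ z₁ z₂ : G, L.d z₁ z₂ = P.A ∧
    ∀ T : ℕ, ∃ a b : G, (∀ g, g * u = u * g → L.d a (g * a) = L.l g ∧ L.d b (g * b) = L.l g) ∧
      4 * T + 22 * P.D ≤ L.d a b ∧ ∀ g, g * u = u * g → L.l g ≤ T → ∀ z, (z = z₁ ∨ z = z₂) →
        |L.sh a b g| ≤ L.d z (g * z) + 2 * P.D ∧
          (L.d z (g * z) : ℤ) ≤ |L.sh a b g| + 5 * P.D := by
  have hD := P.hD
  obtain ⟨N, E, hN, hax⟩ := axis L hG.hyp (by omega) hu 1
  simp only [mul_one] at hax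
  obtain ⟨M, hM⟩ := lox_far hu 1 (2 * E + 10 * P.A)
  have hinvd : ∀ n : ℕ, L.d (u ^ n)⁻¹ (u ^ n) = L.d 1 (u ^ (2 * n) * 1) := by
    intro n
    unfold Len.d
    congr 1
    rw [inv_inv, inv_one, one_mul, mul_one, ← pow_add]
    congr 1
    ring
  have h0 : 2 * E + 10 * P.A ≤ L.d (u ^ (N * M))⁻¹ (u ^ (N * M)) := by
    rw [hinvd]
    exact hM _ (by nlinarith)
  set a₀ := (u ^ (N * M))⁻¹ with ha₀
  set b₀ := u ^ (N * M) with hb₀
  obtain ⟨z₁, h1, h2⟩ := L.d_interp a₀ b₀ (E + P.A) (by omega)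
  obtain ⟨z₂, h3, h4⟩ := L.d_interp z₁ b₀ P.A (by omega)
  have h5 := L.d_tri a₀ z₁ z₂
  have h6 := L.d_tri a₀ z₂ b₀
  have B1 : L.Btw a₀ z₁ b₀ := by unfold Len.Btw; omega
  have B2 : L.Btw a₀ z₂ b₀ := by unfold Len.Btw; omega
  have w1 : E ≤ L.d a₀ z₁ := by omega
  have w2 : E ≤ L.d z₁ b₀ := by omega
  have w3 : E ≤ L.d a₀ z₂ := by omega
  have w4 : E ≤ L.d z₂ b₀ := by omega
  refine ⟨z₁, z₂, h3, fun T => ?_⟩
  obtain ⟨M', hM'⟩ := lox_far hu 1 (4 * T + 22 * P.D + L.l z₁ + L.l z₂)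
  set J := max M M' with hJ
  have hJM : M ≤ J := le_max_left _ _
  have hJM' : M' ≤ J := le_max_right _ _
  have hNJ : M' ≤ N * J := by nlinarith
  have hfar := hM' (N * J) hNJ
  have hfar2 := hM' (2 * (N * J)) (by omega)
  rw [← hinvd] at hfar2
  rw [mul_one] at hfar
  have hcomm : ∀ g, g * u = u * g → g * (u ^ (N * J))⁻¹ = (u ^ (N * J))⁻¹ * g := by
    intro g hg
    have : Commute g (u ^ (N * J)) := comm_pow_right hg _
    exact this.inv_right.eq
  refine ⟨(u ^ (N * J))⁻¹, u ^ (N * J), fun g hg => ⟨L.d_comm_l (hcomm g hg),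
    L.d_comm_l (comm_pow_right hg _)⟩, by omega, ?_⟩
  intro g hg hgT z hz
  have hz' : L.d (u ^ (N * J))⁻¹ z + L.d z (u ^ (N * J)) ≤
      L.d (u ^ (N * J))⁻¹ (u ^ (N * J)) + 2 * P.D := by
    rcases hz with rfl | rfl
    · exact hax M z B1 w1 w2 J hJM
    · exact hax M z B2 w3 w4 J hJM
  have hlz : L.l z ≤ L.l z₁ + L.l z₂ := by
    rcases hz with rfl | rfl <;> omega
  have k1 : 4 * T + 22 * P.D ≤ L.d (u ^ (N * J))⁻¹ z := by
    have t1 := L.d_tri 1 z (u ^ (N * J))⁻¹
    rw [L.d_comm z, L.d_one z] at t1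
    have t2 : L.d 1 (u ^ (N * J))⁻¹ = L.d 1 (u ^ (N * J)) := by
      rw [L.d_one, L.d_one, L.inv]
    omega
  have k2 : 4 * T + 22 * P.D ≤ L.d z (u ^ (N * J)) := by
    have t1 := L.d_tri 1 z (u ^ (N * J))
    rw [L.d_one z] at t1
    omega
  obtain ⟨-, -, -, -, -, r1, r2⟩ := transl L hG.hyp (a := (u ^ (N * J))⁻¹) (b := u ^ (N * J))
    (z := z) (g := g) (T := T) (ε := 2 * P.D)
    (by rw [L.d_comm_l (hcomm g hg)]; exact hgT)
    (by rw [L.d_comm_l (comm_pow_right hg _)]; exact hgT) hz' (by omega) (by omega)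
  refine ⟨r1, ?_⟩
  push_cast at r2
  omega

theorem ivt_aux (t : ℕ → ℤ) (n : ℕ) (h0 : t 0 < 0) (hn : 0 < t n) :
    ∃ i < n, t i ≤ 0 ∧ 0 ≤ t (i + 1) := by
  induction n with
  | zero => omega
  | succ n ih =>
    rcases lt_or_ge 0 (t n) with h | h
    · obtain ⟨i, hi, h1⟩ := ih h
      exact ⟨i, by omega, h1⟩
    · exact ⟨n, by omega, h, hn.le⟩

theorem ivt (t : ℕ → ℤ) (n : ℕ) (C : ℤ) (hs : ∀ i < n, |t (i + 1) - t i| ≤ C)
    (h : (t 0 < 0 ∧ 0 < t n) ∨ (0 < t 0 ∧ t n < 0)) : ∃ i ≤ n, 2 * |t i| ≤ C := by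
  rcases h with ⟨h0, hn⟩ | ⟨h0, hn⟩
  · obtain ⟨i, hi, h1, h2⟩ := ivt_aux t n h0 hn
    have h3 := hs i hi
    rw [abs_of_nonneg (by omega)] at h3
    rcases le_total (-t i) (t (i + 1)) with h4 | h4
    · exact ⟨i, hi.le, by rw [abs_of_nonpos h1]; omega⟩
    · exact ⟨i + 1, hi, by rw [abs_of_nonneg h2]; omega⟩
  · obtain ⟨i, hi, h1, h2⟩ := ivt_aux (fun i => - t i) n (by simpa using h0) (by simpa using hn)
    have h3 := hs i hi
    rw [abs_of_nonpos (by omega)] at h3
    rcases le_total (t i) (-t (i + 1)) with h4 | h4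
    · exact ⟨i, hi.le, by rw [abs_of_nonneg (by omega)]; omega⟩
    · exact ⟨i + 1, hi, by rw [abs_of_nonpos (by omega)]; omega⟩

/-- Some `f * e ^ k` moves the window at most half as much as `e`. -/
theorem halve (hG : Geo P L) {u : G} (hu : Lox L u) {z₁ z₂ : G}
    (hw : ∀ T : ℕ, ∃ a b : G, (∀ g, g * u = u * g → L.d a (g * a) = L.l g ∧
      L.d b (g * b) = L.l g) ∧
      4 * T + 22 * P.D ≤ L.d a b ∧ ∀ g, g * u = u * g → L.l g ≤ T → ∀ z, (z = z₁ ∨ z = z₂) →
        |L.sh a b g| ≤ L.d z (g * z) + 2 * P.D ∧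
          (L.d z (g * z) : ℤ) ≤ |L.sh a b g| + 5 * P.D)
    {e f : G} (he : e * u = u * e) (he1 : e ≠ 1) (hf : f * u = u * f) :
    ∃ k : ℤ, 2 * L.d z₁ (f * e ^ k * z₁) ≤ L.d z₁ (e * z₁) + 21 * P.D ∧
      2 * L.d z₂ (f * e ^ k * z₂) ≤ L.d z₁ (e * z₁) + 21 * P.D ∧
      L.d z₂ (e * z₂) ≤ L.d z₁ (e * z₁) + 7 * P.D := by
  have hD := P.hD
  have hel : Lox L e := lox_of_cent hG hu he he1
  obtain ⟨K, hK⟩ := lox_far hel z₁ (L.l f + 40 * P.D)
  have hKK := hK K le_rfl
  set T := L.l f + (K + 1) * L.l e with hT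
  obtain ⟨a, b, hab, hlen, hwin⟩ := hw T
  have cz : ∀ k : ℤ, e ^ k * u = u * e ^ k := fun k => (Commute.zpow_left (show Commute e u from he) k).eq
  have cf : ∀ k : ℤ, (f * e ^ k) * u = u * (f * e ^ k) := by
    intro k
    have : Commute (f * e ^ k) u := Commute.mul_left (show Commute f u from hf) (cz k)
    exact this.eq
  have lez : ∀ k : ℤ, k.natAbs ≤ K + 1 → L.l (e ^ k) ≤ (K + 1) * L.l e := by
    intro k hk
    exact (L.l_zpow_le e k).trans (Nat.mul_le_mul_right _ hk)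
  have lfz : ∀ k : ℤ, k.natAbs ≤ K + 1 → L.l (f * e ^ k) ≤ T := by
    intro k hk
    have := L.mul f (e ^ k)
    have := lez k hk
    omega
  have leT : L.l e ≤ T := by
    have : L.l e ≤ (K + 1) * L.l e := Nat.le_mul_of_pos_left _ (by omega)
    omega
  -- additivity
  have add : ∀ g h, g * u = u * g → h * u = u * h → L.l g ≤ T → L.l h ≤ T →
      |L.sh a b (g * h) - L.sh a b g - L.sh a b h| ≤ 9 * P.D := by
    intro g h hg hh lg lh
    exact sh_mul L hG.hyp (T := T) (by rw [(hab g hg).1]; exact lg) (by rw [(hab g hg).2]; exact lg)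
      (by rw [(hab h hh).1]; exact lh) (by rw [(hab h hh).2]; exact lh) hlen
  set s : ℤ → ℤ := fun k => L.sh a b (f * e ^ k) with hs
  have e1 := hwin e he leT z₁ (Or.inl rfl)
  have e2 := hwin e he leT z₂ (Or.inr rfl)
  have step : ∀ k : ℤ, k.natAbs ≤ K + 1 → |s (k + 1) - s k| ≤ |L.sh a b e| + 9 * P.D := by
    intro k hk
    have h1 := add (f * e ^ k) e (cf k) he (lfz k hk) leT
    have h2 : f * e ^ k * e = f * e ^ (k + 1) := by rw [zpow_add_one, mul_assoc]
    rw [h2] at h1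
    have h3 : s (k + 1) - s k = (L.sh a b (f * e ^ (k + 1)) - L.sh a b (f * e ^ k) -
        L.sh a b e) + L.sh a b e := by simp only [hs]; ring
    rw [h3]
    refine (abs_add_le _ _).trans ?_
    omega
  have p1 := add f (e ^ (K : ℤ)) hf (cz K) (by omega) ((lez K (by simp)).trans (by omega))
  have p2 := add f (e ^ (-(K : ℤ))) hf (cz _) (by omega) ((lez _ (by simp)).trans (by omega))
  have p3 := sh_inv L hG.hyp (a := a) (b := b) (g := e ^ (K : ℤ)) (T := T)
    (by rw [(hab _ (cz K)).1]; exact (lez K (by simp)).trans (by omega))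
    (by rw [(hab _ (cz K)).2]; exact (lez K (by simp)).trans (by omega)) hlen
  rw [← zpow_neg] at p3
  have p4 : |L.sh a b f| ≤ L.l f := by
    have := (sh_le L a b f).1
    rwa [(hab f hf).1] at this
  have p5 := (hwin (e ^ (K : ℤ)) (cz K) ((lez K (by simp)).trans (by omega)) z₁ (Or.inl rfl)).2
  rw [zpow_natCast] at p5 p1 p3
  have p6 : (L.l f : ℤ) + 35 * P.D ≤ |L.sh a b (e ^ K)| := by omega
  have hsgn : (s (-(K : ℤ)) < 0 ∧ 0 < s K) ∨ (0 < s (-(K : ℤ)) ∧ s K < 0) := by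
    simp only [hs]
    rw [zpow_natCast]
    rw [abs_le] at p1 p2 p3 p4
    rcases abs_cases (L.sh a b (e ^ K)) with ⟨h4, _⟩ | ⟨h4, _⟩ <;> rw [h4] at p6
    · left; constructor <;> omega
    · right; constructor <;> omega
  obtain ⟨i, hi, h7⟩ := ivt (fun i => s (-(K : ℤ) + i)) (2 * K) (|L.sh a b e| + 9 * P.D)
    (fun i hi => by
      have h8 := step (-(K : ℤ) + i) (by omega)
      have h9 : (-(K : ℤ) + i + 1) = (-(K : ℤ) + ((i + 1 : ℕ) : ℤ)) := by push_cast; ring
      rw [h9] at h8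
      exact h8)
    (by
      have h8 : (-(K : ℤ) + ((0 : ℕ) : ℤ)) = -(K : ℤ) := by simp
      have h9 : (-(K : ℤ) + ((2 * K : ℕ) : ℤ)) = K := by push_cast; ring
      simp only [h8, h9]
      exact hsgn)
  set k : ℤ := -(K : ℤ) + i with hk
  have q1 := hwin (f * e ^ k) (cf k) (lfz k (by omega)) z₁ (Or.inl rfl)
  have q2 := hwin (f * e ^ k) (cf k) (lfz k (by omega)) z₂ (Or.inr rfl)
  have h8 : s k = L.sh a b (f * e ^ k) := rfl
  rw [h8] at h7
  refine ⟨k, ?_, ?_, ?_⟩ <;> omega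

/-- CB3. Centralizers of loxodromic elements are cyclic. Proof: let `C` be the centralizer (abelian by
`comm_of_cent`). `exists_window`, `halve` for an element `e ∈ C`, `e ≠ 1` with `m = L.d z₁ (e*z₁)`
minimal. If `m > 40 D`: `f * e^k = 1` by minimality, `f ∈ zpowers e`. If `m ≤ 40 D`: `e`, `f * e^k`
move `z₁` and `z₂` at most `60 D`, so both lie in `zpowers c`: `C ≤ zpowers c`, so `C` is cyclic
(subgroups of cyclic groups are cyclic). -/
theorem cent_cyc (hG : Geo P L) {u : G} (hu : Lox L u) :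
    ∃ e : G, ∀ f : G, f * u = u * f ↔ f ∈ Subgroup.zpowers e := by
  have hD := P.hD
  have hT0 := P.hT0
  obtain ⟨z₁, z₂, hz, hw⟩ := exists_window hG hu
  have hex : ∃ n : ℕ, ∃ e : G, e * u = u * e ∧ e ≠ 1 ∧ L.d z₁ (e * z₁) = n :=
    ⟨_, u, rfl, Len.lox_ne_one hu, rfl⟩
  classical
  obtain ⟨e, he, he1, hen⟩ := Nat.find_spec hex
  have hmin : ∀ e' : G, e' * u = u * e' → e' ≠ 1 → L.d z₁ (e * z₁) ≤ L.d z₁ (e' * z₁) := by
    intro e' h1 h2
    rw [hen]
    exact Nat.find_min' hex ⟨e', h1, h2, rfl⟩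
  have cz : ∀ k : ℤ, e ^ k * u = u * e ^ k := fun k =>
    (Commute.zpow_left (show Commute e u from he) k).eq
  by_cases hm : 40 * P.D < L.d z₁ (e * z₁)
  · refine ⟨e, fun f => ⟨fun hf => ?_, fun hf => ?_⟩⟩
    · obtain ⟨k, h1, _, _⟩ := halve hG hu hw he he1 hf
      have h2 : f * e ^ k = 1 := by
        by_contra hne
        have hc : (f * e ^ k) * u = u * (f * e ^ k) := by
          have : Commute (f * e ^ k) u := Commute.mul_left (show Commute f u from hf) (cz k)
          exact this.eq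
        have := hmin _ hc hne
        omega
      rw [Subgroup.mem_zpowers_iff]
      refine ⟨-k, ?_⟩
      rw [zpow_neg]
      exact (eq_inv_of_mul_eq_one_left h2).symm
    · obtain ⟨k, rfl⟩ := Subgroup.mem_zpowers_iff.1 hf
      exact cz k
  · push Not at hm
    obtain ⟨c, hc⟩ := hG.c1 z₁ z₂ hz
    have hall : ∀ f : G, f * u = u * f → f ∈ Subgroup.zpowers c := by
      intro f hf
      obtain ⟨k, h1, h2, h3⟩ := halve hG hu hw he he1 hf
      have h4 : e ∈ Subgroup.zpowers c := hc e (by omega) (by omega)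
      have h5 : f * e ^ k ∈ Subgroup.zpowers c := hc _ (by omega) (by omega)
      have h6 : f = f * e ^ k * (e ^ k)⁻¹ := by group
      rw [h6]
      exact mul_mem h5 (inv_mem (zpow_mem h4 k))
    have hle : Subgroup.centralizer {u} ≤ Subgroup.zpowers c := by
      intro f hf
      rw [Subgroup.mem_centralizer_singleton_iff] at hf
      exact hall f (by rw [hf])
    have : IsCyclic (Subgroup.centralizer ({u} : Set G)) :=
      isCyclic_of_injective (Subgroup.inclusion hle) (Subgroup.inclusion_injective hle)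
    obtain ⟨⟨g, hg⟩, hgen⟩ := IsCyclic.exists_generator (α := Subgroup.centralizer ({u} : Set G))
    have hg' := Subgroup.mem_centralizer_singleton_iff.1 hg
    refine ⟨g, fun f => ⟨fun hf => ?_, fun hf => ?_⟩⟩
    · have hfC : f ∈ Subgroup.centralizer ({u} : Set G) :=
        Subgroup.mem_centralizer_singleton_iff.2 (by rw [hf])
      obtain ⟨k, hk⟩ := Subgroup.mem_zpowers_iff.1 (hgen ⟨f, hfC⟩)
      rw [Subgroup.mem_zpowers_iff]
      refine ⟨k, ?_⟩
      have := congrArg Subtype.val hk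
      simpa using this
    · obtain ⟨k, rfl⟩ := Subgroup.mem_zpowers_iff.1 hf
      exact (Commute.zpow_left (show Commute g u from (by rw [Commute, SemiconjBy, hg'])) k).eq

/-- CB4. No inversions. Proof: `g*g` commutes with `u`; `C(u) = zpowers c`, conjugation by `g`
preserves it and maps `c` to `c⁻¹` (as `u ↦ u⁻¹`, `u = c^a`, `lox_zpow_inj`); `g*g = c^b` is fixed,
so `b = 0`, `g*g = 1`, `g = 1`, `u = u⁻¹`. -/
theorem no_inv (hG : Geo P L) {u g : G} (hu : Lox L u) : g * u * g⁻¹ ≠ u⁻¹ := by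
  intro hinv
  obtain ⟨c, hc⟩ := cent_cyc hG hu
  obtain ⟨a, ha⟩ := Subgroup.mem_zpowers_iff.1 ((hc u).1 rfl)
  have hlc : Lox L c := lox_of_zpow L (j := a) (by rw [ha]; exact hu)
  have ha0 : a ≠ 0 := by
    intro h0
    rw [h0, zpow_zero] at ha
    exact Len.lox_ne_one hu ha.symm
  have hcu : c * u = u * c := (hc c).2 (Subgroup.mem_zpowers c)
  -- `g c g⁻¹` commutes with `u`
  have h1 : (g * c * g⁻¹) * u = u * (g * c * g⁻¹) := by
    have h2 : (g * c * g⁻¹) * u⁻¹ = u⁻¹ * (g * c * g⁻¹) := by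
      rw [← hinv]
      calc g * c * g⁻¹ * (g * u * g⁻¹) = g * (c * u) * g⁻¹ := by group
        _ = g * (u * c) * g⁻¹ := by rw [hcu]
        _ = _ := by group
    have h3 : Commute (g * c * g⁻¹) u⁻¹ := h2
    have h4 := h3.inv_right
    rw [inv_inv] at h4
    exact h4.eq
  obtain ⟨b, hb⟩ := Subgroup.mem_zpowers_iff.1 ((hc _).1 h1)
  have h5 : c ^ (b * a) = c ^ (-a) := by
    rw [zpow_mul, hb, conj_zpow, ha, hinv, zpow_neg, ha]
  have h6 : b * a = -a := lox_zpow_inj L hlc h5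
  have h7 : b = -1 := by
    have : (b + 1) * a = 0 := by linarith
    rcases mul_eq_zero.1 this with h | h
    · linarith
    · exact absurd h ha0
  rw [h7, zpow_neg, zpow_one] at hb
  -- `g * g` commutes with `u`
  have h8 : (g * g) * u = u * (g * g) := by
    have h9 : g * (g * u * g⁻¹) * g⁻¹ = u := by
      rw [hinv]
      have : g * u⁻¹ * g⁻¹ = (g * u * g⁻¹)⁻¹ := by group
      rw [this, hinv, inv_inv]
    calc g * g * u = g * (g * u * g⁻¹) * g⁻¹ * (g * g) := by group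
      _ = u * (g * g) := by rw [h9]
  obtain ⟨k, hk⟩ := Subgroup.mem_zpowers_iff.1 ((hc _).1 h8)
  have h9 : c ^ k = c ^ (-k) := by
    have h10 : g * c ^ k * g⁻¹ = c ^ k := by rw [hk]; group
    have h11 : g * c ^ k * g⁻¹ = (g * c * g⁻¹) ^ k := (conj_zpow).symm
    rw [h11, ← hb, inv_zpow, ← zpow_neg] at h10
    exact h10.symm
  have h10 := lox_zpow_inj L hlc h9
  have h11 : k = 0 := by omega
  rw [h11, zpow_zero] at hk
  have h12 : g = 1 := hG.two g hk.symm
  rw [h12] at hinv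
  have h13 : u * u = 1 := by
    have : u = u⁻¹ := by simpa using hinv
    nth_rewrite 2 [this]
    exact mul_inv_cancel u
  exact Len.lox_ne_one hu (hG.two u h13)

/-- CB5. Normalizer of a maximal cyclic group. Proof: `g*e*g⁻¹` generates `C(g*e*g⁻¹) = C(e)`, so it is
`e` or `e⁻¹`; `no_inv`. -/
theorem norm_cyc (hG : Geo P L) {e g : G} (he : Lox L e)
    (hc : ∀ f : G, f * e = e * f ↔ f ∈ Subgroup.zpowers e)
    (h : g * e * g⁻¹ ∈ Subgroup.zpowers e) : g ∈ Subgroup.zpowers e := by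
  obtain ⟨b, hb⟩ := Subgroup.mem_zpowers_iff.1 h
  rcases zpow_conj_eq L he (a := 1) (b := b) (g := g) (by norm_num) (by rw [zpow_one, hb])
    with h1 | h1
  · rw [h1, zpow_one] at hb
    refine (hc g).1 ?_
    calc g * e = g * e * g⁻¹ * g := by group
      _ = e * g := by rw [← hb]
  · exfalso
    rw [h1, zpow_neg, zpow_one] at hb
    exact no_inv hG he hb.symm

end Pool.Agent.Beb
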