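import Pool.Agent.Work.MP_beb559_al.TA

/-!
# Projections to a family of quasi-convex sets with bounded overlaps
-/

namespace Pool.Agent.Beb

namespace QF

variable {P : Par} {G : Type} [Group G] {L : Len G} (F : QF P L)

theorem exists_nr (i : F.I) (x : G) : ∃ y, F.Nr i x y := by
  classical
  have hne : ∃ n : ℕ, ∃ y ∈ F.Y i, L.d x y = n := by
    obtain ⟨y, hy⟩ := F.ne i
    exact ⟨_, y, hy, rfl⟩
  obtain ⟨y, hy, h⟩ := Nat.find_spec hne
  refine ⟨y, hy, fun y' hy' => ?_⟩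
  rw [h]
  exact Nat.find_min' hne ⟨y', hy', rfl⟩

theorem nr_self {i : F.I} {x y : G} (hx : x ∈ F.Y i) (h : F.Nr i x y) : y = x := by
  have h1 := h.2 x hx
  rw [L.d_self] at h1
  exact (L.eq_of_d (Nat.le_zero.1 h1)).symm

theorem nr_mem {i : F.I} {x : G} (hx : x ∈ F.Y i) : F.Nr i x x :=
  ⟨hx, fun y' _ => by rw [L.d_self]; exact Nat.zero_le _⟩

theorem nr_smul (g : G) {i : F.I} {x y : G} (h : F.Nr i x y) : F.Nr (g • i) (g * x) (g * y) := by
  refine ⟨F.smul g i y h.1, fun y' hy' => ?_⟩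
  have h1 := F.smul g⁻¹ (g • i) y' hy'
  rw [inv_smul_smul] at h1
  have h2 := h.2 _ h1
  rw [L.d_smul]
  have h3 := L.d_smul g x (g⁻¹ * y')
  rw [mul_inv_cancel_left] at h3
  rw [h3]
  exact h2

/-- PA1. Proof: let `t = (L.d y x + L.d y y' - L.d x y') / 2`, `z` between `y` and `y'` with
`L.d y z = t`; `tripod` gives `z'` between `y` and `x` with `L.d z z' ≤ 2 D`; `qc` gives `w ∈ Y i`
with `L.d z w ≤ 3 R1`; `L.d x y ≤ L.d x w ≤ L.d x y - t + 2 D + 3 R1`. -/
theorem pi1 (hH : L.Hyp P.D) {i : F.I} {x y y' : G} (h : F.Nr i x y) (hy' : y' ∈ F.Y i) :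
    L.d x y + L.d y y' ≤ L.d x y' + 7 * P.R1 := by
  have c1 := P.hD
  have c2 := P.hT0
  have c3 := P.hT3
  have c4 := P.hA
  have c5 := P.hR1
  obtain ⟨t, ht⟩ : ∃ t, t = (L.d y x + L.d y y' - L.d x y') / 2 := ⟨_, rfl⟩
  have h1 := L.d_tri y y' x
  have h1t := L.d_tri x y y'
  have h1' := L.d_comm x y'
  have h1'' := L.d_comm x y
  obtain ⟨z, hz1, hz2⟩ := L.d_interp y y' t (by omega)
  have hz : L.Btw y z y' := by
    unfold Len.Btw
    omega
  obtain ⟨z', hz'1, hz'2, hz'3⟩ := tripod L hH (c := x) hz (by omega)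
  obtain ⟨w, hw1, hw2⟩ := F.qc i y h.1 y' hy' z hz
  have h2 := h.2 w hw1
  have h3 := L.d_tri x z' w
  have h4 := L.d_tri z' z w
  have h5 := L.d_comm z z'
  have h6 := L.d_comm x z'
  unfold Len.Btw at hz'1
  omega

/-- PA2. Proof: `pi1` twice and four points `x, x', y', y`. -/
theorem pi2 (hH : L.Hyp P.D) {i : F.I} {x x' y y' : G} (h : F.Nr i x y) (h' : F.Nr i x' y') :
    L.d y y' ≤ 8 * P.R1 ∨ L.d x y + L.d y y' + L.d y' x' ≤ L.d x x' + 15 * P.R1 := by
  have c1 := P.hD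
  have c2 := P.hT0
  have c3 := P.hT3
  have c4 := P.hA
  have c5 := P.hR1
  have h1 := F.pi1 hH h h'.1
  have h2 := F.pi1 hH h' h.1
  have h3 := hH x x' y' y
  have e1 := L.d_comm y' y
  have e2 := L.d_comm x' y'
  rw [max_def] at h3
  split_ifs at h3 <;> omega

/-- PA3. Proof: otherwise by `pi2` both projections `a`, `b` are `15 R1`-between `a', b' ∈ Y j`;
`near_btw` and `qc` for `Y j`: points within `16 R1` of `a` (of `b`), within `3 R1` of `Y j`; `ov`. -/
theorem pr_inr (hH : L.Hyp P.D) {i j : F.I} (hij : i ≠ j) {u v : G}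
    (hu : u ∈ F.pr i (Sum.inr j)) (hv : v ∈ F.pr i (Sum.inr j)) : L.d u v ≤ 6 * P.R := by
  have c1 := P.hD
  have c2 := P.hT0
  have c3 := P.hT3
  have c4 := P.hA
  have c5 := P.hR1
  have c6 := P.hR
  obtain ⟨x, hx, hxu⟩ := hu
  obtain ⟨x', hx', hxv⟩ := hv
  rcases F.pi2 hH hxu hxv with h | h
  · omega
  · have key : ∀ w : G, L.d x w + L.d w x' ≤ L.d x x' + 15 * P.R1 →
        ∃ s ∈ F.Y j, L.d w s ≤ P.R := by
      intro w hw
      obtain ⟨w', h1, h2, h3⟩ := near_btw L hH hw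
      obtain ⟨s, hs, h4⟩ := F.qc j x hx x' hx' w' h1
      refine ⟨s, hs, ?_⟩
      have h5 := L.d_tri w w' s
      omega
    have t1 := L.d_tri u v x'
    have t2 := L.d_tri x u v
    have h1 := F.ov i j hij u v ⟨u, hxu.1, by rw [L.d_self]; exact Nat.zero_le _⟩
      (key u (by omega)) ⟨v, hxv.1, by rw [L.d_self]; exact Nat.zero_le _⟩
      (key v (by omega))
    omega

/-- Two nearest points to the same point. -/
theorem nr_nr (hH : L.Hyp P.D) {i : F.I} {x u v : G} (hu : F.Nr i x u) (hv : F.Nr i x v) :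
    L.d u v ≤ 8 * P.R1 := by
  have c1 := P.hD
  have c2 := P.hT0
  have c3 := P.hT3
  have c4 := P.hA
  have c5 := P.hR1
  rcases F.pi2 hH hu hv with h | h
  · exact h
  · have h1 := L.d_tri u x v
    have h2 := L.d_comm x u
    have h3 := L.d_comm x v
    have h4 := L.d_self x
    omega

theorem pr_nonempty (i : F.I) (a : G ⊕ F.I) : (F.pr i a).Nonempty := by
  rcases a with x | j
  · exact F.exists_nr i x
  · obtain ⟨x, hx⟩ := F.ne j
    obtain ⟨y, hy⟩ := F.exists_nr i x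
    exact ⟨y, x, hx, hy⟩

theorem pr_diam (hH : L.Hyp P.D) {i : F.I} {a : G ⊕ F.I} (ha : a ≠ Sum.inr i) {u v : G}
    (hu : u ∈ F.pr i a) (hv : v ∈ F.pr i a) : L.d u v ≤ 6 * P.R := by
  have c1 := P.hD
  have c2 := P.hT0
  have c3 := P.hT3
  have c4 := P.hA
  have c5 := P.hR1
  have c6 := P.hR
  rcases a with x | j
  · have := F.nr_nr hH (i := i) (x := x) hu hv
    omega
  · exact F.pr_inr hH (fun h => ha (by rw [h])) hu hv

/-- PA4. `dd` is the diameter of the union of the projections. (Bounded by `pi2`, `pr_inr`.) -/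
theorem le_dd (hH : L.Hyp P.D) {i : F.I} {a b : G ⊕ F.I} (ha : a ≠ Sum.inr i)
    (hb : b ≠ Sum.inr i) {u v : G} (hu : u ∈ F.pr i a ∪ F.pr i b)
    (hv : v ∈ F.pr i a ∪ F.pr i b) : L.d u v ≤ F.dd i a b := by
  classical
  unfold dd
  rw [if_neg (by rintro (h | h); exacts [ha h, hb h])]
  refine le_csSup ?_ ⟨u, hu, v, hv, rfl⟩
  obtain ⟨u0, hu0⟩ := F.pr_nonempty i a
  obtain ⟨v0, hv0⟩ := F.pr_nonempty i b
  refine ⟨12 * P.R + L.d u0 v0, ?_⟩
  rintro n ⟨u', hu', v', hv', rfl⟩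
  have e1 := L.d_comm v0 u0
  rcases hu' with hu' | hu' <;> rcases hv' with hv' | hv'
  · have := F.pr_diam hH ha hu' hv'
    omega
  · have h1 := F.pr_diam hH ha hu' hu0
    have h2 := F.pr_diam hH hb hv0 hv'
    have h3 := L.d_tri u' u0 v'
    have h4 := L.d_tri u0 v0 v'
    omega
  · have h1 := F.pr_diam hH hb hu' hv0
    have h2 := F.pr_diam hH ha hu0 hv'
    have h3 := L.d_tri u' v0 v'
    have h4 := L.d_tri v0 u0 v'
    omega
  · have := F.pr_diam hH hb hu' hv'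
    omega

theorem dd_le {i : F.I} {a b : G ⊕ F.I} {n : ℕ}
    (h : ∀ u ∈ F.pr i a ∪ F.pr i b, ∀ v ∈ F.pr i a ∪ F.pr i b, L.d u v ≤ n) :
    F.dd i a b ≤ n := by
  classical
  unfold dd
  split_ifs
  · exact Nat.zero_le _
  · refine csSup_le' ?_
    rintro m ⟨u, hu, v, hv, rfl⟩
    exact h u hu v hv

theorem dd_symm (i : F.I) (a b : G ⊕ F.I) : F.dd i a b = F.dd i b a := by
  classical
  unfold dd
  rw [Set.union_comm (F.pr i a) (F.pr i b)]
  simp only [or_comm]

theorem dd_tri (hH : L.Hyp P.D) (i : F.I) (a b c : G ⊕ F.I) (hb : b ≠ Sum.inr i) :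
    F.dd i a c ≤ F.dd i a b + F.dd i b c := by
  classical
  by_cases ha : a = Sum.inr i
  · unfold dd
    rw [if_pos (Or.inl ha)]
    exact Nat.zero_le _
  by_cases hc : c = Sum.inr i
  · unfold dd
    rw [if_pos (Or.inr hc)]
    exact Nat.zero_le _
  obtain ⟨w, hw⟩ := F.pr_nonempty i b
  have key : ∀ u ∈ F.pr i a, ∀ v ∈ F.pr i c, L.d u v ≤ F.dd i a b + F.dd i b c := by
    intro u hu v hv
    have h1 := F.le_dd hH ha hb (Or.inl hu) (Or.inr hw)
    have h2 := F.le_dd hH hb hc (Or.inl hw) (Or.inr hv)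
    have h3 := L.d_tri u w v
    omega
  refine F.dd_le ?_
  rintro u (hu | hu) v (hv | hv)
  · exact (F.le_dd hH ha hb (Or.inl hu) (Or.inl hv)).trans (Nat.le_add_right _ _)
  · exact key u hu v hv
  · rw [L.d_comm]
    exact key v hv u hu
  · exact (F.le_dd hH hb hc (Or.inr hu) (Or.inr hv)).trans (Nat.le_add_left _ _)

theorem pr_smul (g : G) {i : F.I} {a : G ⊕ F.I} {y : G} (h : y ∈ F.pr i a) :
    g * y ∈ F.pr (g • i) (g • a) := by
  rcases a with x | j
  · exact F.nr_smul g h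
  · obtain ⟨x, hx, hy⟩ := h
    exact ⟨g * x, F.smul g j x hx, F.nr_smul g hy⟩

theorem dd_smul (g : G) (i : F.I) (a b : G ⊕ F.I) :
    F.dd (g • i) (g • a) (g • b) = F.dd i a b := by
  classical
  have e : ∀ a : G ⊕ F.I, g • a = Sum.inr (g • i) ↔ a = Sum.inr i := by
    intro a
    constructor
    · intro h
      have h2 : g • a = g • (Sum.inr i : G ⊕ F.I) := h
      exact smul_left_cancel g h2
    · rintro rfl
      rfl
  have hp : ∀ (a : G ⊕ F.I) (y : G), y ∈ F.pr (g • i) (g • a) → g⁻¹ * y ∈ F.pr i a := by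
    intro a y hy
    have h1 := F.pr_smul g⁻¹ hy
    rwa [inv_smul_smul, inv_smul_smul] at h1
  unfold dd
  simp only [e]
  congr 1
  congr 1
  ext n
  constructor
  · rintro ⟨u, hu, v, hv, rfl⟩
    refine ⟨g⁻¹ * u, ?_, g⁻¹ * v, ?_, ?_⟩
    · rcases hu with hu | hu
      · exact Or.inl (hp _ _ hu)
      · exact Or.inr (hp _ _ hu)
    · rcases hv with hv | hv
      · exact Or.inl (hp _ _ hv)
      · exact Or.inr (hp _ _ hv)
    · rw [L.d_smul]
  · rintro ⟨u, hu, v, hv, rfl⟩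
    refine ⟨g * u, ?_, g * v, ?_, ?_⟩
    · rcases hu with hu | hu
      · exact Or.inl (F.pr_smul g hu)
      · exact Or.inr (F.pr_smul g hu)
    · rcases hv with hv | hv
      · exact Or.inl (F.pr_smul g hv)
      · exact Or.inr (F.pr_smul g hv)
    · rw [L.d_smul]

theorem dp_self (hH : L.Hyp P.D) (i : F.I) (x : G) : F.dp i x x ≤ 8 * P.R1 := by
  refine F.dd_le ?_
  rintro u (hu | hu) v (hv | hv) <;> exact F.nr_nr hH hu hv

theorem dp_symm (i : F.I) (x y : G) : F.dp i x y = F.dp i y x := F.dd_symm i _ _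

theorem dp_tri (hH : L.Hyp P.D) (i : F.I) (x y z : G) : F.dp i x z ≤ F.dp i x y + F.dp i y z :=
  F.dd_tri hH i _ _ _ (by simp)

theorem dp_smul (g : G) (i : F.I) (x y : G) : F.dp (g • i) (g * x) (g * y) = F.dp i x y :=
  F.dd_smul g i (Sum.inl x) (Sum.inl y)

/-- PA5. `dp` and nearest points. -/
theorem le_dp (hH : L.Hyp P.D) {i : F.I} {x y u v : G} (hu : F.Nr i x u) (hv : F.Nr i y v) :
    L.d u v ≤ F.dp i x y :=
  F.le_dd hH (by simp) (by simp) (Or.inl hu) (Or.inr hv)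

theorem dp_le_pt (hH : L.Hyp P.D) {i : F.I} {x y u v : G} (hu : F.Nr i x u) (hv : F.Nr i y v) :
    F.dp i x y ≤ L.d u v + 16 * P.R1 := by
  have key : ∀ u', F.Nr i x u' → ∀ v', F.Nr i y v' → L.d u' v' ≤ L.d u v + 16 * P.R1 := by
    intro u' hu' v' hv'
    have h1 := F.nr_nr hH hu' hu
    have h2 := F.nr_nr hH hv hv'
    have h3 := L.d_tri u' u v'
    have h4 := L.d_tri u v v'
    omega
  refine F.dd_le ?_
  rintro u' (hu' | hu') v' (hv' | hv')
  · have := F.nr_nr hH hu' hv'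
    omega
  · exact key u' hu' v' hv'
  · rw [L.d_comm]
    exact key v' hv' u' hu'
  · have := F.nr_nr hH hu' hv'
    omega

theorem dp_le (hH : L.Hyp P.D) (i : F.I) (x y : G) : F.dp i x y ≤ L.d x y + 16 * P.R1 := by
  have key : ∀ u, F.Nr i x u → ∀ v, F.Nr i y v → L.d u v ≤ L.d x y + 16 * P.R1 := by
    intro u hu v hv
    rcases F.pi2 hH hu hv with h | h <;> omega
  refine F.dd_le ?_
  rintro u (hu | hu) v (hv | hv)
  · have := F.nr_nr hH hu hv
    omega
  · exact key u hu v hv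
  · rw [L.d_comm u v]
    exact key v hv u hu
  · have := F.nr_nr hH hu hv
    omega

theorem dp_mem (hH : L.Hyp P.D) {i : F.I} {x y : G} (hx : x ∈ F.Y i) (hy : y ∈ F.Y i) :
    F.dp i x y = L.d x y := by
  apply le_antisymm
  · refine F.dd_le ?_
    rintro u (hu | hu) v (hv | hv)
    · rw [F.nr_self hx hu, F.nr_self hx hv, L.d_self]
      exact Nat.zero_le _
    · rw [F.nr_self hx hu, F.nr_self hy hv]
    · rw [F.nr_self hy hu, F.nr_self hx hv, L.d_comm]
    · rw [F.nr_self hy hu, F.nr_self hy hv, L.d_self]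
      exact Nat.zero_le _
  · exact F.le_dp hH (F.nr_mem hx) (F.nr_mem hy)

/-- For two points of another member of the family. -/
theorem dp_other (hH : L.Hyp P.D) {i j : F.I} (hij : i ≠ j) {x y : G} (hx : x ∈ F.Y j)
    (hy : y ∈ F.Y j) : F.dp i x y ≤ 6 * P.R := by
  have key : ∀ u ∈ F.pr i (Sum.inl x) ∪ F.pr i (Sum.inl y), u ∈ F.pr i (Sum.inr j) := by
    rintro u (hu | hu)
    · exact ⟨x, hx, hu⟩
    · exact ⟨y, hy, hu⟩
  exact F.dd_le fun u hu v hv => F.pr_inr hH hij (key u hu) (key v hv)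

/-- PA6. Large projection distance: the geodesic passes near the projections. -/
theorem dp_big (hH : L.Hyp P.D) {i : F.I} {x y u v : G} (hu : F.Nr i x u) (hv : F.Nr i y v)
    (h : 24 * P.R1 < F.dp i x y) :
    L.d x u + L.d u v + L.d v y ≤ L.d x y + 15 * P.R1 := by
  have h1 := F.dp_le_pt hH hu hv
  rcases F.pi2 hH hu hv with h2 | h2 <;> omega

/-- If `x` is far from `Y j` in the projection to `Y i`, so is every single projection. -/
theorem far_pt (hH : L.Hyp P.D) {i j : F.I} (hij : i ≠ j) {x : G}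
    (h : 40 * P.R < F.dd i (Sum.inl x) (Sum.inr j)) {u v : G} (hu : F.Nr i x u)
    (hv : v ∈ F.pr i (Sum.inr j)) : 15 * P.R1 < L.d u v := by
  have c1 := P.hD
  have c2 := P.hT0
  have c3 := P.hT3
  have c4 := P.hA
  have c5 := P.hR1
  have c6 := P.hR
  by_contra hcon
  have h1 : F.dd i (Sum.inl x) (Sum.inr j) ≤ 40 * P.R := by
    have key : ∀ u', F.Nr i x u' → ∀ v' ∈ F.pr i (Sum.inr j), L.d u' v' ≤ 40 * P.R := by
      intro u' hu' v' hv'
      have h1 := F.nr_nr hH hu' hu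
      have h2 := F.pr_inr hH hij hv hv'
      have h3 := L.d_tri u' u v'
      have h4 := L.d_tri u v v'
      omega
    refine F.dd_le ?_
    rintro u' (hu' | hu') v' (hv' | hv')
    · have := F.nr_nr hH hu' hv'
      omega
    · exact key u' hu' v' hv'
    · rw [L.d_comm]
      exact key v' hv' u' hu'
    · have := F.pr_inr hH hij hu' hv'
      omega
  omega

/-- PA7. Behrstock inequality for points. Proof: `y` nearest in `Y i` to `x`, `z`, `z''` nearest in
`Y j` to `x` and to `y`. For all `z' ∈ Y j`: `pi2` (the projections of `x` and `z'` to `Y i` are far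
apart) gives `L.d x y + L.d y z' ≤ L.d x z' + 15 R1`. With `pi1` for `x, z, z''`:
`L.d z z'' ≤ 22 R1` and `z'' ∈ pr j (inr i)`; `pr_inr`. -/
theorem beh (hH : L.Hyp P.D) {i j : F.I} (hij : i ≠ j) {x : G}
    (h : 40 * P.R < F.dd i (Sum.inl x) (Sum.inr j)) :
    F.dd j (Sum.inl x) (Sum.inr i) ≤ 40 * P.R := by
  have c1 := P.hD
  have c2 := P.hT0
  have c3 := P.hT3
  have c4 := P.hA
  have c5 := P.hR1
  have c6 := P.hR
  obtain ⟨y, hy⟩ := F.exists_nr i x
  obtain ⟨z, hz⟩ := F.exists_nr j x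
  obtain ⟨z'', hz''⟩ := F.exists_nr j y
  have hfar : L.d x y + L.d y z ≤ L.d x z + 15 * P.R1 := by
    obtain ⟨y1, hy1⟩ := F.exists_nr i z
    have h1 := F.far_pt hH hij h hy ⟨z, hz.1, hy1⟩
    rcases F.pi2 hH hy hy1 with h2 | h2
    · omega
    · have h3 := L.d_tri y y1 z
      omega
  have hclose : L.d z z'' ≤ 22 * P.R1 := by
    have h1 := hz.2 z'' hz''.1
    have h2 := L.d_tri x y z''
    have h3 := F.pi1 hH hz'' hz.1
    have h4 := L.d_comm z z''
    omega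
  have key : ∀ u, F.Nr j x u → ∀ v ∈ F.pr j (Sum.inr i), L.d u v ≤ 40 * P.R := by
    intro u hu v hv
    have h1 := F.nr_nr hH hu hz
    have h2 := F.pr_inr hH hij.symm (u := z'') (v := v) ⟨y, hy.1, hz''⟩ hv
    have h3 := L.d_tri u z v
    have h4 := L.d_tri z z'' v
    omega
  refine F.dd_le ?_
  rintro u (hu | hu) v (hv | hv)
  · have := F.nr_nr hH hu hv
    omega
  · exact key u hu v hv
  · rw [L.d_comm]
    exact key v hv u hu
  · have := F.pr_inr hH hij.symm hu hv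
    omega

theorem rk_eq {i : F.I} {x y : G} (hy : F.Nr i x y) : F.rk i x = L.d x y := by
  unfold rk
  apply le_antisymm
  · exact Nat.sInf_le ⟨y, hy.1, rfl⟩
  · obtain ⟨y', hy', e⟩ := Nat.sInf_mem (s := {n | ∃ y ∈ F.Y i, n = L.d x y}) ⟨_, y, hy.1, rfl⟩
    rw [e]
    exact hy.2 y' hy'

/-- PA8. Proof: `y` nearest in `Y i` to `x`; the projections `z`, `z'` of `x` and `y` to `Y j` are far
apart; `pi2`. -/
theorem rank (hH : L.Hyp P.D) {i j : F.I} (hij : i ≠ j) {x : G}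
    (h : 40 * P.R < F.dd j (Sum.inl x) (Sum.inr i)) : F.rk j x < F.rk i x := by
  have c1 := P.hD
  have c2 := P.hT0
  have c3 := P.hT3
  have c4 := P.hA
  have c5 := P.hR1
  obtain ⟨y, hy⟩ := F.exists_nr i x
  obtain ⟨z, hz⟩ := F.exists_nr j x
  obtain ⟨z', hz'⟩ := F.exists_nr j y
  have h1 := F.far_pt hH hij.symm h hz ⟨y, hy.1, hz'⟩
  rw [F.rk_eq hy, F.rk_eq hz]
  rcases F.pi2 hH hz hz' with h2 | h2 <;> omega

/-- PA9. Points between `x` and `y`. Proof: `w₁`, `w₁'` nearest to `w`, `w'`, `u`, `v` nearest to `x`,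
`y`; if `L.d w₁ w₁' > 8 R1` then `pi2` for `w, w'`, `pi1` for `x, u, w₁` and `y, v, w₁'` give
`L.d w₁ w₁' ≤ L.d u v + 30 R1`. -/
theorem dp_btw (hH : L.Hyp P.D) (i : F.I) {x y w w' : G} (hw : L.Btw x w y)
    (hw' : L.Btw x w' y) : F.dp i w w' ≤ F.dp i x y + P.R := by
  have c1 := P.hD
  have c2 := P.hT0
  have c3 := P.hT3
  have c4 := P.hA
  have c5 := P.hR1
  have c6 := P.hR
  have key : ∀ w w' : G, L.Btw x w y → L.Btw x w' y → L.d x w ≤ L.d x w' →
      F.dp i w w' ≤ F.dp i x y + P.R := by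
    intro w w' hw hw' hle
    obtain ⟨w1, hw1⟩ := F.exists_nr i w
    obtain ⟨w1', hw1'⟩ := F.exists_nr i w'
    obtain ⟨u, hu⟩ := F.exists_nr i x
    obtain ⟨v, hv⟩ := F.exists_nr i y
    have h0 := F.le_dp hH hu hv
    have h1 := F.dp_le_pt hH hw1 hw1'
    have h2 := btw_btw L hH hw hw' hle
    rcases F.pi2 hH hw1 hw1' with h3 | h3
    · omega
    · have h4 := F.pi1 hH hu hw1.1
      have h5 := F.pi1 hH hv hw1'.1
      have h6 := L.d_tri x w w1
      have h7 := L.d_tri y w' w1'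
      have h8 := L.d_tri x u y
      have h9 := L.d_tri u v y
      have e1 := L.d_comm y w'
      have e2 := L.d_comm v y
      have e3 := L.d_comm w1' w'
      unfold Len.Btw at hw hw'
      omega
  rcases le_total (L.d x w) (L.d x w') with h | h
  · exact key w w' hw hw' h
  · rw [F.dp_symm]
    exact key w' w hw' hw h

/-- PA10. A point `ε`-between `b ∈ Y i` and `z`, where `b` is nearest to `z`, projects near `b`.
Proof: `pi1` for `w, w₁, b` and `L.d z b ≤ L.d z w₁`. -/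
theorem nr_btw (hH : L.Hyp P.D) {i : F.I} {z b w w₁ : G} {ε : ℕ} (hb : F.Nr i z b)
    (hw : L.d b w + L.d w z ≤ L.d b z + ε) (hw₁ : F.Nr i w w₁) : L.d w₁ b ≤ 7 * P.R1 + ε := by
  have h1 := F.pi1 hH hw₁ hb.1
  have h2 := hb.2 w₁ hw₁.1
  have h3 := L.d_tri z w w₁
  have e1 := L.d_comm b w
  have e2 := L.d_comm w z
  have e3 := L.d_comm b z
  omega

end QF

end Pool.Agent.Beb
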