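import Pool.Agent.Work.MP_beb559_al.CB
import Pool.Agent.Work.MP_beb559_al.PA

/-!
# The family of axes of the killable loxodromic elements of small displacement
-/

namespace Pool.Agent.Beb

variable {P : Par} {G E : Type} [Group G] [Group E] {V : Subgroup E} {π : G →* E}
  {F : Subgroup G} {L : Len G}

/-- `e` is the preferred generator of its centralizer: it comes before its inverse for a well
ordering of the conjugacy classes. -/
def Pref (e : G) : Prop := WellOrderingRel (ConjClasses.mk e) (ConjClasses.mk e⁻¹)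

/-- The generators of the axes. -/
structure IsAx (P : Par) (V : Subgroup E) (π : G →* E) (L : Len G) (e : G) : Prop where
  kil : kil V π e
  lox : Lox L e
  cent : ∀ f : G, f * e = e * f ↔ f ∈ Subgroup.zpowers e
  small : ∃ x, L.d x (e * x) ≤ 60 * P.D
  pref : Pref e

/-- Algebra of `kil`. -/
theorem kil_conj (hV : EV P.p V) {g : G} (c : G) (h : kil V π g) : kil V π (c * g * c⁻¹) := by
  refine ⟨?_, ?_⟩
  · rw [map_mul, map_mul, map_inv]
    exact hV.normal.conj_mem _ h.1 _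
  · rw [map_mul, map_mul, map_inv]
    intro h1
    exact h.2 (conj_eq_one_iff.1 h1)

theorem kil_inv (hV : EV P.p V) {g : G} (h : kil V π g) : kil V π g⁻¹ := by
  refine ⟨?_, ?_⟩
  · rw [map_inv]
    exact inv_mem h.1
  · rw [map_inv]
    intro h1
    exact h.2 (inv_eq_one.1 h1)

theorem kil_of_zpow (hV : EV P.p V) {g : G} {j : ℤ} (h : kil V π (g ^ j)) : kil V π g := by
  obtain ⟨h1, h2⟩ := h
  rw [map_zpow] at h1 h2
  have hj : j ≠ 0 := by
    rintro rfl
    exact h2 (zpow_zero _)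
  refine ⟨?_, ?_⟩
  · have h3 : (π g) ^ j.natAbs ∈ V := by
      rcases Int.natAbs_eq j with hc | hc
      · rw [hc, zpow_natCast] at h1
        exact h1
      · rw [hc, zpow_neg, zpow_natCast] at h1
        exact (inv_mem_iff).1 h1
    exact hV.root _ _ (Int.natAbs_pos.2 hj) h3
  · intro h3
    apply h2
    rw [h3, one_zpow]

theorem kil_pow_p (hV : EV P.p V) {g : G} (h : kil V π g) : g ^ P.p ∈ π.ker := by
  rw [MonoidHom.mem_ker, map_pow]
  exact hV.exp _ h.1

/-- Displacement of the inverse. -/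
theorem FA_d_inv_mul (L : Len G) (g x : G) : L.d x (g⁻¹ * x) = L.d x (g * x) := by
  have h1 := L.d_smul g x (g⁻¹ * x)
  rw [mul_inv_cancel_left, L.d_comm] at h1
  exact h1.symm

/-- Displacement of a nearby point. -/
theorem FA_disp_near (L : Len G) (g x y : G) :
    L.d x (g * x) ≤ L.d y (g * y) + 2 * L.d x y := by
  have h1 := L.d_tri x y (g * x)
  have h2 := L.d_tri y (g * y) (g * x)
  have h3 := L.d_smul g y x
  have h4 := L.d_comm y x
  omega

/-- FA1. Proof: `cent_cyc`: the centralizer of `h` is `zpowers e₀`, `h = e₀^j`, `kil_of_zpow`;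
`centralizer e₀` is the same group; `e₀` and `e₀⁻¹` are not conjugate (`no_inv`), so one of them is
preferred. `small`: `m = ` minimal displacement of `e`; `disp_pow`: `|j| * (m - 3 D)`, more precisely
`m - 3 D ≤ L.d x (e^|j| * x) ≤ 50 D`. -/
theorem exists_ax (hG : Geo P L) (hV : EV P.p V) {h : G} (hk : kil V π h) (hl : Lox L h)
    (hx : ∃ x, L.d x (h * x) ≤ 50 * P.D) :
    ∃ e, IsAx P V π L e ∧ h ∈ Subgroup.zpowers e := by
  obtain ⟨e₀, hc⟩ := cent_cyc hG hl
  have hh : h ∈ Subgroup.zpowers e₀ := (hc h).1 rfl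
  obtain ⟨j, hj⟩ := Subgroup.mem_zpowers_iff.1 hh
  have hD := P.hD
  have hk0 : kil V π e₀ := kil_of_zpow (j := j) hV (by rw [hj]; exact hk)
  have hl0 : Lox L e₀ := lox_of_zpow L (j := j) (by rw [hj]; exact hl)
  have hj0 : j ≠ 0 := by
    rintro rfl
    rw [zpow_zero] at hj
    rw [← hj] at hl
    exact not_lox_one L hl
  have hc0 : ∀ f : G, f * e₀ = e₀ * f ↔ f ∈ Subgroup.zpowers e₀ := by
    intro f
    constructor
    · intro h1
      apply (hc f).1
      rw [← hj]
      exact (Commute.zpow_right (h1 : Commute f e₀) j)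
    · intro h1
      obtain ⟨i, rfl⟩ := Subgroup.mem_zpowers_iff.1 h1
      exact (Commute.zpow_left (Commute.refl e₀) i)
  have hs0 : ∃ x, L.d x (e₀ * x) ≤ 60 * P.D := by
    obtain ⟨y, hy⟩ := hx
    obtain ⟨x, hx⟩ := exists_minD L e₀
    have h1 := disp_pow L hG.hyp (by omega) hx y j.natAbs (Int.natAbs_pos.2 hj0)
    have h2 : L.d y (e₀ ^ j.natAbs * y) = L.d y (h * y) := by
      rcases Int.natAbs_eq j with hc | hc
      · rw [← hj]
        conv_rhs => rw [hc]
        rw [zpow_natCast]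
      · rw [← hj]
        conv_rhs => rw [hc]
        rw [zpow_neg, zpow_natCast, FA_d_inv_mul]
    have h3 : 1 * (L.d x (e₀ * x) - 3 * P.D) ≤ j.natAbs * (L.d x (e₀ * x) - 3 * P.D) :=
      Nat.mul_le_mul_right _ (Int.natAbs_pos.2 hj0)
    refine ⟨x, ?_⟩
    omega
  have hne : ConjClasses.mk e₀ ≠ ConjClasses.mk e₀⁻¹ := by
    intro h1
    rw [ConjClasses.mk_eq_mk_iff_isConj, isConj_iff] at h1
    obtain ⟨c, hc⟩ := h1
    exact no_inv hG hl0 hc
  rcases trichotomous_of WellOrderingRel (ConjClasses.mk e₀) (ConjClasses.mk e₀⁻¹) with h1 | h1 | h1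
  · exact ⟨e₀, ⟨hk0, hl0, hc0, hs0, h1⟩, hh⟩
  · exact absurd h1 hne
  · refine ⟨e₀⁻¹, ⟨kil_inv hV hk0, lox_inv L hl0, ?_, ?_, ?_⟩, ?_⟩
    · intro f
      rw [Subgroup.zpowers_inv, ← hc0]
      constructor
      · intro h2
        exact (Commute.inv_right_iff.1 (h2 : Commute f e₀⁻¹))
      · intro h2
        exact (Commute.inv_right_iff.2 (h2 : Commute f e₀))
    · obtain ⟨x, hx⟩ := hs0
      exact ⟨x, by rw [FA_d_inv_mul]; exact hx⟩
    · unfold Pref
      rw [inv_inv]
      exact h1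
    · rw [Subgroup.zpowers_inv]
      exact hh

/-- FA2. -/
theorem IsAx.conj (hG : Geo P L) (hV : EV P.p V) {e : G} (h : IsAx P V π L e) (g : G) :
    IsAx P V π L (g * e * g⁻¹) := by
  refine ⟨kil_conj hV g h.kil, lox_conj L g h.lox, ?_, ?_, ?_⟩
  · intro f
    have h1 : f * (g * e * g⁻¹) = g * e * g⁻¹ * f ↔ (g⁻¹ * f * g) * e = e * (g⁻¹ * f * g) := by
      constructor
      · intro h2
        have h3 : g⁻¹ * (f * (g * e * g⁻¹)) * g = g⁻¹ * (g * e * g⁻¹ * f) * g := by rw [h2]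
        simpa [mul_assoc] using h3
      · intro h2
        have h3 : g * (g⁻¹ * f * g * e) * g⁻¹ = g * (e * (g⁻¹ * f * g)) * g⁻¹ := by rw [h2]
        simpa [mul_assoc] using h3
    rw [h1, h.cent]
    constructor
    · intro h2
      obtain ⟨i, hi⟩ := Subgroup.mem_zpowers_iff.1 h2
      rw [Subgroup.mem_zpowers_iff]
      refine ⟨i, ?_⟩
      rw [conj_zpow, hi]
      group
    · intro h2
      obtain ⟨i, hi⟩ := Subgroup.mem_zpowers_iff.1 h2
      rw [Subgroup.mem_zpowers_iff]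
      refine ⟨i, ?_⟩
      rw [conj_zpow] at hi
      rw [← hi]
      group
  · obtain ⟨x, hx⟩ := h.small
    refine ⟨g * x, ?_⟩
    have e1 : g * e * g⁻¹ * (g * x) = g * (e * x) := by group
    rw [e1, L.d_smul]
    exact hx
  · have h1 : ConjClasses.mk (g * e * g⁻¹) = ConjClasses.mk e := by
      rw [ConjClasses.mk_eq_mk_iff_isConj, isConj_comm, isConj_iff]
      exact ⟨g, rfl⟩
    have h2 : ConjClasses.mk (g * e * g⁻¹)⁻¹ = ConjClasses.mk e⁻¹ := by
      rw [ConjClasses.mk_eq_mk_iff_isConj, isConj_comm, isConj_iff]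
      exact ⟨g, by group⟩
    unfold Pref
    rw [h1, h2]
    exact h.pref

/-- FA3. Deep points of a long segment with ends moved at most `T` by `e` are moved at most `80 D`.
Proof: `transl` twice: if `s = |sh| > 9 D` then `lox_of_sh` and `grow_le` (with the point of `small`)
give `s - 9 D ≤ 60 D`. -/
theorem IsAx.deep (hG : Geo P L) {e : G} (h : IsAx P V π L e) {x y z : G} {T : ℕ}
    (hx : L.d x (e * x) ≤ T) (hy : L.d y (e * y) ≤ T) (hxy : 4 * T + 12 * P.D ≤ L.d x y)
    (hz : L.Btw x z y) (h1 : T + P.D ≤ L.d x z) (h2 : T + P.D ≤ L.d z y) :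
    L.d z (e * z) ≤ 80 * P.D := by
  have hz' : L.d x z + L.d z y = L.d x y := hz
  obtain ⟨a1, a2, a3, a4, a5, a6, a7⟩ := transl L hG.hyp (z := z) (ε := 0) hx hy (by omega)
    (by omega) (by omega)
  obtain ⟨w, w1, w2⟩ := L.d_interp x y (2 * T + 5 * P.D) (by omega)
  have h3 := lox_of_sh L hG.hyp hx hy (z := w) (by unfold Len.Btw; omega) (by omega) (by omega)
  obtain ⟨u, hu⟩ := h.small
  have hs : |L.sh x y e| ≤ 69 * P.D := by
    by_contra hc
    push Not at hc
    have h4 := grow_le L hG.hyp (g := e) (z := w) (y := u) (a := 60 * P.D)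
      (δ := 60 * P.D + 1) (by omega) (by omega) hu
    omega
  omega

/-- The quasi-axis of `e`. -/
def YY (P : Par) (L : Len G) (e : G) : Set G := {x | L.d x (e * x) ≤ P.R1}

/-- FA4. -/
theorem IsAx.qc (hG : Geo P L) {e : G} (h : IsAx P V π L e) {x y z : G} (hx : x ∈ YY P L e)
    (hy : y ∈ YY P L e) (hz : L.Btw x z y) : ∃ w ∈ YY P L e, L.d z w ≤ 3 * P.R1 := by
  have hz' : L.d x z + L.d z y = L.d x y := hz
  have hD := P.hD
  have hT0 := P.hT0
  have hT3 := P.hT3
  have hA := P.hA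
  have hR1 := P.hR1
  by_cases c1 : L.d x z ≤ 3 * P.R1
  · exact ⟨x, hx, by rw [L.d_comm]; exact c1⟩
  by_cases c2 : L.d z y ≤ 3 * P.R1
  · exact ⟨y, hy, c2⟩
  refine ⟨z, ?_, ?_⟩
  · have h1 := h.deep hG (T := P.R1) hx hy (by omega) hz (by omega) (by omega)
    show L.d z (e * z) ≤ P.R1
    omega
  · rw [L.d_self]
    omega

/-- FA5. Proof: let `L.d a b > 5 R`; points `z` between `a` and `b` at distance `≥ R + 3 R1` from both
are moved at most `80 D + 8 D` by `e` and by `e'` (`quad_deep`, `IsAx.deep` with `T = R1`); two such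
points at distance `> 290 R1`; `comm_of_long`: `e` and `e'` commute; `cent`; `e' = e` or `e⁻¹`;
`pref`. -/
theorem IsAx.ov (hG : Geo P L) {e e' : G} (h : IsAx P V π L e) (h' : IsAx P V π L e')
    (hne : e ≠ e') (a b : G) (h1 : ∃ u ∈ YY P L e, L.d a u ≤ P.R)
    (h2 : ∃ u ∈ YY P L e', L.d a u ≤ P.R) (h3 : ∃ u ∈ YY P L e, L.d b u ≤ P.R)
    (h4 : ∃ u ∈ YY P L e', L.d b u ≤ P.R) : L.d a b ≤ 5 * P.R := by
  by_contra hc
  push Not at hc
  have hD := P.hD
  have hT0 := P.hT0
  have hT3 := P.hT3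
  have hA := P.hA
  have hR1 := P.hR1
  have hR := P.hR
  have key : ∀ f : G, IsAx P V π L f → (∃ u ∈ YY P L f, L.d a u ≤ P.R) →
      (∃ u ∈ YY P L f, L.d b u ≤ P.R) → ∀ z, L.d a z + L.d z b = L.d a b →
      P.R + 3 * P.R1 ≤ L.d a z → P.R + 3 * P.R1 ≤ L.d z b → L.d z (f * z) ≤ 88 * P.D := by
    intro f hf ⟨u, hu, hau⟩ ⟨v, hv, hbv⟩ z hz z1 z2
    obtain ⟨z', hz', hzz⟩ := quad_deep L hG.hyp u v (show L.Btw a z b from hz) (by omega) (by omega)
    have t1 := L.d_tri a u z
    have t2 := L.d_tri u z' z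
    have t3 := L.d_comm z' z
    have t4 := L.d_tri z v b
    have t5 := L.d_tri z z' v
    have t6 := L.d_comm v b
    have t7 := L.d_tri a u b
    have t8 := L.d_tri u v b
    have h5 := hf.deep hG (T := P.R1) hu hv (by omega) hz' (by omega) (by omega)
    have h6 := FA_disp_near L f z z'
    omega
  obtain ⟨z₁, a1, a2⟩ := L.d_interp a b (P.R + 3 * P.R1) (by omega)
  obtain ⟨z₂, b1, b2⟩ := L.d_interp a b (L.d a b - (P.R + 3 * P.R1)) (by omega)
  have t1 := L.d_tri a z₁ z₂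
  have hcomm := comm_of_long hG (x := z₁) (y := z₂) (g := e) (h := e') (T := 88 * P.D) (by omega)
    (key e h h1 h3 z₁ (by omega) (by omega) (by omega))
    (key e h h1 h3 z₂ (by omega) (by omega) (by omega))
    (key e' h' h2 h4 z₁ (by omega) (by omega) (by omega))
    (key e' h' h2 h4 z₂ (by omega) (by omega) (by omega))
  obtain ⟨i, hi⟩ := Subgroup.mem_zpowers_iff.1 ((h.cent e').1 hcomm.symm)
  obtain ⟨j, hj⟩ := Subgroup.mem_zpowers_iff.1 ((h'.cent e).1 hcomm)
  have hij : e ^ (i * j) = e ^ (1 : ℤ) := by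
    rw [zpow_mul, hi, hj, zpow_one]
  have hij' := lox_zpow_inj L h.lox hij
  rcases Int.eq_one_or_neg_one_of_mul_eq_one hij' with hi1 | hi1
  · rw [hi1, zpow_one] at hi
    exact hne hi
  · rw [hi1, zpow_neg, zpow_one] at hi
    have p1 := h.pref
    have p2 := h'.pref
    unfold Pref at p1 p2
    rw [← hi, inv_inv] at p2
    exact asymm p1 p2

end Pool.Agent.Beb
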