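import Pool.Agent.Work.MP_beb559_al.HypA

/-!
# Geodesic paths, chains, shifts, loxodromic elements
-/

namespace Pool.Agent.Beb

namespace Len

variable {G : Type} [Group G] {L : Len G} {D : ℕ}

/-- Geodesic paths of length `n`. -/
def Geo (L : Len G) (γ : ℕ → G) (n : ℕ) : Prop :=
  ∀ i j, i ≤ j → j ≤ n → L.d (γ i) (γ j) = j - i

/-- IA1. -/
theorem exists_geo (L : Len G) (x y : G) :
    ∃ γ, Geo L γ (L.d x y) ∧ γ 0 = x ∧ γ (L.d x y) = y := by
  have key : ∀ n : ℕ, ∀ x y : G, L.d x y = n → ∃ γ, Geo L γ n ∧ γ 0 = x ∧ γ n = y := by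
    intro n
    induction n with
    | zero =>
      intro x y h
      have := L.eq_of_d h
      subst this
      refine ⟨fun _ => x, ?_, rfl, rfl⟩
      intro i j _ _
      have := L.d_self x
      simp only
      omega
    | succ n ih =>
      intro x y h
      obtain ⟨z, h1, h2⟩ := L.d_interp x y n (by omega)
      obtain ⟨γ, h3, h4, h5⟩ := ih x z h1
      refine ⟨fun i => if i ≤ n then γ i else y, ?_, ?_, ?_⟩
      · intro i j hij hj
        by_cases hjn : j ≤ n
        · have hin : i ≤ n := le_trans hij hjn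
          simp only [hin, hjn, if_true]
          exact h3 i j hij hjn
        · have hj' : j = n + 1 := by omega
          subst hj'
          by_cases hin : i ≤ n
          · simp only [hin, if_true]
            rw [if_neg (by omega)]
            have e1 := h3 0 i (Nat.zero_le i) hin
            have e2 := h3 i n hin le_rfl
            have t1 := L.d_tri (γ i) z y
            have t2 := L.d_tri x (γ i) y
            rw [h5] at e2
            rw [h4] at e1
            omega
          · have : i = n + 1 := by omega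
            subst this
            have := L.d_self y
            simp only [hin, if_false]
            omega
      · simp only [Nat.zero_le, if_true]
        exact h4
      · simp
  exact key _ x y rfl

/-- IA2. Chain lemma (from the left end). -/
theorem Hyp.chain (hL : L.Hyp D) {a n : ℕ} {x : ℕ → G}
    (h1 : ∀ i, i + 2 ≤ n → L.d (x i) (x (i + 1)) + L.d (x (i + 1)) (x (i + 2)) ≤
      L.d (x i) (x (i + 2)) + a)
    (h2 : ∀ i, 1 ≤ i → i + 2 ≤ n → a + D < L.d (x i) (x (i + 1))) (i : ℕ) (hi : 1 ≤ i)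
    (hin : i + 1 ≤ n) :
    L.d (x 0) (x i) + L.d (x i) (x (i + 1)) ≤ L.d (x 0) (x (i + 1)) + a + D := by
  induction i, hi using Nat.le_induction with
  | base =>
    have := h1 0 (by omega)
    simp only [zero_add] at this
    simp only [Nat.reduceAdd]
    omega
  | succ i hi ih =>
    have ih := ih (by omega)
    have a1 := h1 i (by omega)
    have a2 := h2 i hi (by omega)
    have a3 := hL (x 0) (x i) (x (i + 1)) (x (i + 2))
    have e : i + 1 + 1 = i + 2 := rfl
    rw [e]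
    omega

/-- IA3. Chain lemma (interior points are close to the geodesic between the ends). -/
theorem Hyp.chain_mid (hL : L.Hyp D) {a n : ℕ} {x : ℕ → G}
    (h1 : ∀ i, i + 2 ≤ n → L.d (x i) (x (i + 1)) + L.d (x (i + 1)) (x (i + 2)) ≤
      L.d (x i) (x (i + 2)) + a)
    (h2 : ∀ i, i + 1 ≤ n → a + 2 * D < L.d (x i) (x (i + 1))) (i : ℕ) (hin : i ≤ n) :
    L.d (x 0) (x i) + L.d (x i) (x n) ≤ L.d (x 0) (x n) + a + 2 * D := by
  rcases Nat.eq_zero_or_pos i with h0 | h0
  · subst h0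
    have := L.d_self (x 0)
    omega
  · rcases Nat.lt_or_ge i n with h3 | h3
    · have l1 := hL.chain h1 (fun i _ hi => by have := h2 i (by omega); omega) i h0 h3
      rcases Nat.lt_or_ge (i + 1) n with h4 | h4
      · have l2 := hL.chain (a := a) (n := n) (x := fun j => x (n - j))
          (fun j hj => by
            have e1 : n - j = (n - (j + 2)) + 2 := by omega
            have e2 : n - (j + 1) = (n - (j + 2)) + 1 := by omega
            have := h1 (n - (j + 2)) (by omega)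
            rw [e1, e2, L.d_comm (x _) (x (n - (j + 2) + 1)),
              L.d_comm (x (n - (j + 2) + 1)) (x (n - (j + 2))),
              L.d_comm (x _) (x (n - (j + 2)))]
            omega)
          (fun j _ hj => by
            have e2 : n - j = (n - (j + 1)) + 1 := by omega
            have := h2 (n - (j + 1)) (by omega)
            rw [e2, L.d_comm]
            omega) (n - (i + 1)) (by omega) (by omega)
        have e1 : n - (n - (i + 1)) = i + 1 := by omega
        have e2 : n - (n - (i + 1) + 1) = i := by omega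
        have e3 : n - 0 = n := rfl
        rw [e1, e2, e3] at l2
        have c1 := L.d_comm (x n) (x (i + 1))
        have c2 := L.d_comm (x (i + 1)) (x i)
        have c3 := L.d_comm (x n) (x i)
        have a2 := h2 i (by omega)
        have a3 := hL (x 0) (x i) (x (i + 1)) (x n)
        omega
      · have : i + 1 = n := by omega
        rw [this] at l1
        omega
    · have : i = n := by omega
      subst this
      have := L.d_self (x i)
      omega

/-- IA4. Two geodesics of the same length with close ends. -/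
theorem Hyp.fellow (hL : L.Hyp D) {γ γ' : ℕ → G} {n T : ℕ} (h : Geo L γ n) (h' : Geo L γ' n)
    (h0 : L.d (γ 0) (γ' 0) ≤ T) (hn : L.d (γ n) (γ' n) ≤ T) :
    ∃ s : ℤ, |s| ≤ T ∧ ∀ i j : ℕ, T + D ≤ i → i + (T + D) ≤ n → (j : ℤ) = i + s →
      L.d (γ j) (γ' i) ≤ 2 * D := by
  have e0 := h 0 n (Nat.zero_le n) le_rfl
  have t1 := L.d_tri (γ 0) (γ' 0) (γ n)
  have t2 := L.d_tri (γ' 0) (γ 0) (γ n)
  have c1 := L.d_comm (γ' 0) (γ 0)
  refine ⟨(n : ℤ) - L.d (γ' 0) (γ n), ?_, ?_⟩
  · rw [abs_le]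
    constructor <;> omega
  · intro i j hi hin hj
    have hjn : j ≤ n := by omega
    have g1 := h' 0 i (Nat.zero_le i) (by omega)
    have g2 := h' i n (by omega) le_rfl
    have g3 := h' 0 n (Nat.zero_le n) le_rfl
    have g4 := h 0 j (Nat.zero_le j) hjn
    have g5 := h j n hjn le_rfl
    have c2 := L.d_comm (γ n) (γ' 0)
    have c3 := L.d_comm (γ n) (γ' i)
    have c4 := L.d_comm (γ n) (γ' n)
    have b1 := hL.btw (x := γ' 0) (p := γ' i) (y := γ' n) (γ n) (by unfold Len.Btw; omega)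
    have A : (L.d (γ' i) (γ n) : ℤ) ≤ L.d (γ' 0) (γ n) - i + D := by omega
    have b2 := hL (γ 0) (γ' 0) (γ' i) (γ n)
    have B : (L.d (γ 0) (γ' i) : ℤ) ≤ j + D := by omega
    have := hL.close (x := γ 0) (p := γ j) (y := γ n) (w := γ' i) (a := D)
      (by unfold Len.Btw; omega) (by omega) (by omega)
    omega

/-- `g` shifts the part `[a, n - a]` of the path `γ` by `s` up to the error `c`. -/
def Sh (L : Len G) (γ : ℕ → G) (n a c : ℕ) (g : G) (s : ℤ) : Prop :=
  ∀ i j : ℕ, a ≤ i → i + a ≤ n → (j : ℤ) = i + s → L.d (γ j) (g * γ i) ≤ c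

/-- IA5. Small elements shift. -/
theorem Hyp.sh_of_small (hL : L.Hyp D) {γ : ℕ → G} {n T : ℕ} {g : G} (h : Geo L γ n)
    (h0 : L.d (γ 0) (g * γ 0) ≤ T) (hn : L.d (γ n) (g * γ n) ≤ T) :
    ∃ s : ℤ, |s| ≤ T ∧ Sh L γ n (T + D) (2 * D) g s := by
  have h' : Geo L (fun i => g * γ i) n := by
    intro i j hij hj
    simp only
    rw [L.d_smul]
    exact h i j hij hj
  obtain ⟨s, h1, h2⟩ := hL.fellow h h' h0 hn
  exact ⟨s, h1, h2⟩

/-- IA6. Composition. -/
theorem Sh.mul {γ : ℕ → G} {n a c a' c' b : ℕ} {g g' : G} {s s' : ℤ} (h : Sh L γ n a c g s)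
    (h' : Sh L γ n a' c' g' s') (hb : a' ≤ b) (hb' : a + |s'| ≤ b) :
    Sh L γ n b (c + c') (g * g') (s + s') := by
  intro i j hi hin hj
  have hs : -|s'| ≤ s' := neg_abs_le s'
  have hs' : s' ≤ |s'| := le_abs_self s'
  obtain ⟨k, hk⟩ : ∃ k : ℕ, (k : ℤ) = i + s' := ⟨(i + s').toNat, by omega⟩
  have a1 := h' i k (by omega) (by omega) hk
  have a2 := h k j (by omega) (by omega) (by omega)
  have t := L.d_tri (γ j) (g * γ k) (g * g' * γ i)
  rw [mul_assoc, L.d_smul] at t
  rw [mul_assoc]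
  omega

/-- IA7. Inverse. -/
theorem Sh.inv {γ : ℕ → G} {n a c b : ℕ} {g : G} {s : ℤ} (h : Sh L γ n a c g s)
    (hb : a + |s| ≤ b) : Sh L γ n b c g⁻¹ (-s) := by
  intro i j hi hin hj
  have hs : -|s| ≤ s := neg_abs_le s
  have hs' : s ≤ |s| := le_abs_self s
  have a1 := h j i (by omega) (by omega) (by omega)
  have e : L.d (γ j) (g⁻¹ * γ i) = L.d (γ i) (g * γ j) := by
    rw [← L.d_smul g (γ j) (g⁻¹ * γ i), L.d_comm]
    simp
  omega

/-- IA8. Displacement of a shift. -/
theorem Sh.disp {γ : ℕ → G} {n a c : ℕ} {g : G} {s : ℤ} (hγ : Geo L γ n)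
    (h : Sh L γ n a c g s) (i : ℕ) (hi : a + |s| ≤ i) (hin : i + (a + |s|) ≤ n) :
    (L.d (γ i) (g * γ i) : ℤ) ≤ |s| + c ∧ |s| ≤ (L.d (γ i) (g * γ i) : ℤ) + c := by
  have hs : -|s| ≤ s := neg_abs_le s
  have hs' : s ≤ |s| := le_abs_self s
  obtain ⟨j, hj⟩ : ∃ j : ℕ, (j : ℤ) = i + s := ⟨(i + s).toNat, by omega⟩
  have a1 := h i j (by omega) (by omega) hj
  have t1 := L.d_tri (γ i) (γ j) (g * γ i)
  have t2 := L.d_tri (γ i) (g * γ i) (γ j)
  have c := L.d_comm (g * γ i) (γ j)
  rcases le_total 0 s with h0 | h0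
  · rw [abs_of_nonneg h0] at *
    have := hγ i j (by omega) (by omega)
    omega
  · rw [abs_of_nonpos h0] at *
    have := hγ j i (by omega) (by omega)
    have c2 := L.d_comm (γ i) (γ j)
    omega

/-- IA9. Commutators of shifts. -/
theorem Sh.comm {γ : ℕ → G} {n a c b T : ℕ} {g g' : G} {s s' : ℤ} (h : Sh L γ n a c g s)
    (h' : Sh L γ n a c g' s') (hs : |s| ≤ T) (hs' : |s'| ≤ T) (hb : a + 4 * T ≤ b) :
    Sh L γ n b (4 * c) (g * g' * g⁻¹ * g'⁻¹) 0 := by
  have i' := h'.inv (b := a + T) (by push_cast; omega)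
  have i1 := h.inv (b := a + T) (by push_cast; omega)
  have hsn : |(-s')| ≤ T := by rw [abs_neg]; exact hs'
  have m1 := i1.mul i' (b := a + 2 * T) (by omega) (by push_cast; omega)
  have hs2 : |(-s + -s')| ≤ 2 * T := by
    have := abs_add_le (-s) (-s')
    rw [abs_neg s] at this
    omega
  have m2 := h'.mul m1 (b := a + 2 * T) (by omega) (by push_cast; omega)
  have e : s' + (-s + -s') = -s := by ring
  rw [e] at m2
  have hs3 : |(-s)| ≤ T := by rw [abs_neg]; exact hs
  have m3 := h.mul m2 (b := b) (by omega) (by omega)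
  have e2 : s + -s = 0 := by ring
  rw [e2] at m3
  have e3 : c + (c + (c + c)) = 4 * c := by ring
  have e4 : g * (g' * (g⁻¹ * g'⁻¹)) = g * g' * g⁻¹ * g'⁻¹ := by group
  rw [e3, e4] at m3
  exact m3

theorem d_pow_le (L : Len G) (g x : G) (m : ℕ) : L.d x (g ^ m * x) ≤ m * L.d x (g * x) := by
  induction m with
  | zero => simp [L.d_self]
  | succ m ih =>
    have t := L.d_tri x (g ^ m * x) (g ^ (m + 1) * x)
    have e : L.d (g ^ m * x) (g ^ (m + 1) * x) = L.d x (g * x) := by
      rw [pow_succ, mul_assoc, L.d_smul]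
    rw [e] at t
    have e2 : (m + 1) * L.d x (g * x) = m * L.d x (g * x) + L.d x (g * x) := by ring
    omega

theorem d_zpow (L : Len G) (f x : G) (m : ℤ) : L.d x (f ^ m * x) = L.d x (f ^ m.natAbs * x) := by
  rcases Int.natAbs_eq m with e | e
  · conv_lhs => rw [e, zpow_natCast]
  · conv_lhs => rw [e, zpow_neg, zpow_natCast, L.d_inv_smul]

/-- Loxodromic elements: linear growth. -/
def Lox (L : Len G) (g : G) : Prop := ∃ N : ℕ, ∀ (n : ℕ) (x : G), n ≤ N * L.d x (g ^ n * x)

/-- IA10. -/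
theorem Lox.ne_one {g : G} (h : Lox L g) : g ≠ 1 := by
  rintro rfl
  obtain ⟨N, hN⟩ := h
  have := hN 1 1
  rw [one_pow, one_mul, L.d_self] at this
  omega

/-- IA11. -/
theorem Lox.inv {g : G} (h : Lox L g) : Lox L g⁻¹ := by
  obtain ⟨N, hN⟩ := h
  refine ⟨N, fun n x => ?_⟩
  rw [inv_pow, L.d_inv_smul]
  exact hN n x

/-- IA12. -/
theorem Lox.pow {g : G} (h : Lox L g) {m : ℕ} (hm : 1 ≤ m) : Lox L (g ^ m) := by
  obtain ⟨N, hN⟩ := h
  refine ⟨N, fun n x => ?_⟩
  have := hN (m * n) x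
  rw [pow_mul] at this
  have h2 : n ≤ m * n := Nat.le_mul_of_pos_left n hm
  omega

/-- IA13. -/
theorem Lox.zpow {g : G} (h : Lox L g) {m : ℤ} (hm : m ≠ 0) : Lox L (g ^ m) := by
  rcases Int.natAbs_eq m with e | e
  · rw [e, zpow_natCast]
    exact h.pow (by omega)
  · rw [e, zpow_neg, zpow_natCast]
    exact (h.pow (by omega)).inv

/-- IA14. -/
theorem Lox.of_pow {g : G} {m : ℕ} (hm : 1 ≤ m) (h : Lox L (g ^ m)) : Lox L g := by
  obtain ⟨N, hN⟩ := h
  refine ⟨N * m, fun n x => ?_⟩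
  have h1 := hN n x
  have h2 := d_pow_le L (g ^ n) x m
  rw [← pow_mul, mul_comm n m, pow_mul] at h2
  calc n ≤ N * L.d x ((g ^ m) ^ n * x) := h1
    _ ≤ N * (m * L.d x (g ^ n * x)) := Nat.mul_le_mul_left N h2
    _ = N * m * L.d x (g ^ n * x) := by ring

/-- IA15. -/
theorem Lox.conj {g : G} (h : Lox L g) (c : G) : Lox L (c * g * c⁻¹) := by
  obtain ⟨N, hN⟩ := h
  refine ⟨N, fun n x => ?_⟩
  have h1 := hN n (c⁻¹ * x)
  have e : (c * g * c⁻¹) ^ n * x = c * (g ^ n * (c⁻¹ * x)) := by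
    rw [conj_pow]; group
  have e2 : L.d x (c * (g ^ n * (c⁻¹ * x))) = L.d (c⁻¹ * x) (g ^ n * (c⁻¹ * x)) := by
    rw [← L.d_smul c (c⁻¹ * x)]
    simp
  rw [e, e2]
  exact h1

/-- IA16. Linear growth at one point is enough. -/
theorem Lox.of_point {g x : G} {N c : ℕ} (h : ∀ n : ℕ, n ≤ N * L.d x (g ^ n * x) + c) :
    Lox L g := by
  refine ⟨N, fun n y => ?_⟩
  by_contra hc
  push Not at hc
  have key : ∀ k : ℕ, k ≤ 2 * (N * L.d x y) + c := by
    intro k
    have h1 := h (n * k)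
    have t1 := L.d_tri x y (g ^ (n * k) * x)
    have t2 := L.d_tri y (g ^ (n * k) * y) (g ^ (n * k) * x)
    rw [L.d_smul, L.d_comm y x] at t2
    have h2 := d_pow_le L (g ^ n) y k
    rw [← pow_mul] at h2
    have h3 : L.d x (g ^ (n * k) * x) ≤ 2 * L.d x y + k * L.d y (g ^ n * y) := by omega
    have h4 := Nat.mul_le_mul_left N h3
    have h5 : N * (2 * L.d x y + k * L.d y (g ^ n * y)) =
      2 * (N * L.d x y) + k * (N * L.d y (g ^ n * y)) := by ring
    have h6 : k * (N * L.d y (g ^ n * y) + 1) ≤ k * n := Nat.mul_le_mul_left k hc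
    have h7 : k * (N * L.d y (g ^ n * y) + 1) = k * (N * L.d y (g ^ n * y)) + k := by ring
    have h8 : n * k = k * n := mul_comm n k
    omega
  have := key (2 * (N * L.d x y) + c + 1)
  omega

/-- IA17. The loxodromic criterion. -/
theorem Hyp.lox (hL : L.Hyp D) {g x : G} (h : L.d x (g * x) + D < L.d x (g ^ 2 * x)) :
    Lox L g := by
  refine Lox.of_point (x := x) (N := 1) (c := 1) fun n => ?_
  rcases n with _ | n
  · omega
  · have h1 := hL.growth h n
    have h2 : n * 1 ≤ n * (L.d x (g ^ 2 * x) - L.d x (g * x) - D) :=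
      Nat.mul_le_mul_left n (by omega)
    omega

/-- Exponential growth beats a linear function (auxiliary for IA18). -/
theorem exp_aux {A B N F c : ℕ} (hA : 1 ≤ A) (hAB : A < B)
    (h : ∀ k : ℕ, B ^ k ≤ N * (A ^ k * F + k * c)) : False := by
  have hA0 : (0 : ℝ) < A := by exact_mod_cast hA
  have hr : (1 : ℝ) < (B : ℝ) / A := by
    rw [one_lt_div hA0]
    exact_mod_cast hAB
  have t1 := (tendsto_pow_const_div_const_pow_of_one_lt 1 hr).const_mul ((N : ℝ) * c)
  have t2 := (tendsto_pow_const_div_const_pow_of_one_lt 0 hr).const_mul ((N : ℝ) * F)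
  have t := t1.add t2
  rw [mul_zero, mul_zero, add_zero] at t
  have : (1 : ℝ) ≤ 0 := by
    refine ge_of_tendsto' t fun k => ?_
    have hp : (0 : ℝ) < ((B : ℝ) / A) ^ k := by positivity
    have hq : (1 : ℝ) ≤ (A : ℝ) ^ k := one_le_pow₀ (by exact_mod_cast hA)
    have h2 : (B : ℝ) ^ k ≤ N * ((A : ℝ) ^ k * F + k * c) := by exact_mod_cast h k
    have h3 : (N : ℝ) * (k * c) * 1 ≤ N * (k * c) * (A : ℝ) ^ k :=
      mul_le_mul_of_nonneg_left hq (by positivity)
    rw [pow_zero, pow_one, ← mul_div_assoc, ← mul_div_assoc, ← add_div, le_div_iff₀ hp, one_mul,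
      div_pow, div_le_iff₀ (by positivity)]
    nlinarith
  linarith

theorem abs_aux {f g : G} (h : Lox L f) {a b : ℤ} (hab : g * f ^ a * g⁻¹ = f ^ b)
    (h1 : |a| < |b|) : False := by
  have hb : b ≠ 0 := by
    rintro rfl
    have := abs_nonneg a
    simp at h1
    omega
  by_cases ha : a = 0
  · subst ha
    have : f ^ b = 1 := by rw [← hab]; group
    exact (h.zpow hb).ne_one this
  obtain ⟨N, hN⟩ := h
  have hA : 1 ≤ a.natAbs := by omega
  have hAB : a.natAbs < b.natAbs := by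
    have e1 := Int.natCast_natAbs a
    have e2 := Int.natCast_natAbs b
    omega
  have step : ∀ n : ℕ, L.d 1 (f ^ (b.natAbs * n) * 1) ≤
      L.d 1 (f ^ (a.natAbs * n) * 1) + 2 * L.d 1 (g⁻¹ * 1) := by
    intro n
    have e : f ^ (b * n) = g * f ^ (a * n) * g⁻¹ := by
      rw [zpow_mul, ← hab, zpow_natCast, conj_pow, zpow_mul, zpow_natCast]
    have e1 : L.d 1 (f ^ (b.natAbs * n) * 1) = L.d 1 (f ^ (b * n) * 1) := by
      rw [d_zpow L f 1 (b * n), Int.natAbs_mul, Int.natAbs_natCast]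
    have e2 : L.d 1 (f ^ (a.natAbs * n) * 1) = L.d 1 (f ^ (a * n) * 1) := by
      rw [d_zpow L f 1 (a * n), Int.natAbs_mul, Int.natAbs_natCast]
    have e3 : L.d 1 (f ^ (b * n) * 1) = L.d (g⁻¹ * 1) (f ^ (a * n) * (g⁻¹ * 1)) := by
      rw [e, ← L.d_smul g (g⁻¹ * 1)]
      congr 1 <;> group
    have t1 := L.d_tri (g⁻¹ * 1) 1 (f ^ (a * n) * (g⁻¹ * 1))
    have t2 := L.d_tri 1 (f ^ (a * n) * 1) (f ^ (a * n) * (g⁻¹ * 1))
    rw [L.d_smul] at t2
    rw [L.d_comm (g⁻¹ * 1) 1] at t1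
    omega
  have key : ∀ k m : ℕ, L.d 1 (f ^ (b.natAbs ^ k * m) * 1) ≤
      L.d 1 (f ^ (a.natAbs ^ k * m) * 1) + k * (2 * L.d 1 (g⁻¹ * 1)) := by
    intro k
    induction k with
    | zero => intro m; simp
    | succ k ih =>
      intro m
      have s1 := step (b.natAbs ^ k * m)
      have s2 := ih (a.natAbs * m)
      have e1 : b.natAbs * (b.natAbs ^ k * m) = b.natAbs ^ (k + 1) * m := by ring
      have e2 : a.natAbs * (b.natAbs ^ k * m) = b.natAbs ^ k * (a.natAbs * m) := by ring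
      have e3 : a.natAbs ^ k * (a.natAbs * m) = a.natAbs ^ (k + 1) * m := by ring
      rw [e1, e2] at s1
      rw [e3] at s2
      have e4 : (k + 1) * (2 * L.d 1 (g⁻¹ * 1)) = k * (2 * L.d 1 (g⁻¹ * 1)) +
        2 * L.d 1 (g⁻¹ * 1) := by ring
      omega
  refine exp_aux (N := N) (F := L.d 1 (f * 1)) (c := 2 * L.d 1 (g⁻¹ * 1)) hA hAB fun k => ?_
  have k1 := key k 1
  rw [mul_one (b.natAbs ^ k), mul_one (a.natAbs ^ k)] at k1
  have k2 := d_pow_le L f 1 (a.natAbs ^ k)
  calc b.natAbs ^ k ≤ N * L.d 1 (f ^ (b.natAbs ^ k) * 1) := hN _ 1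
    _ ≤ N * (a.natAbs ^ k * L.d 1 (f * 1) + k * (2 * L.d 1 (g⁻¹ * 1))) :=
      Nat.mul_le_mul_left N (by omega)

/-- IA18. Powers which are conjugate have the same absolute value of the exponent. (For
`F n = d x (f ^ n x)`: `F (b n)` and `F (a n)` differ by a constant; stable length, for instance
with `Subadditive.lim`.) -/
theorem Lox.abs_eq {f g : G} (h : Lox L f) {a b : ℤ} (hab : g * f ^ a * g⁻¹ = f ^ b) :
    |a| = |b| := by
  rcases lt_trichotomy |a| |b| with h1 | h1 | h1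
  · exact absurd h1 (fun h1 => abs_aux h hab h1)
  · exact h1
  · have hab' : g⁻¹ * f ^ b * g⁻¹⁻¹ = f ^ a := by
      rw [← hab]; group
    exact absurd h1 (fun h1 => abs_aux h hab' h1)

end Len

end Pool.Agent.Beb
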