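import Pool.Agent.Work.MP_beb559_al.FBs
import Pool.Agent.Work.MP_beb559_al.IsoA

/-!
# The coordinate of an axis
-/

namespace Pool.Agent.Beb

variable {P : Par} {G E : Type} [Group G] [Group E] {V : Subgroup E} {π : G →* E}
  {F : Subgroup G} {L : Len G}

private theorem pfacts (P : Par) : 100 ≤ P.D ∧ P.T0 = 1000 * P.D ∧ P.T4 = 2000 * P.D ∧
    P.T3 = 8000 * P.D ∧ P.A = 800000 * P.D ∧ P.R1 = 800000000 * P.D ∧
    P.R = 80000000000 * P.D ∧ 80000 * P.R ≤ P.L := by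
  have h1 := P.hD
  have h2 := P.hT0
  have h3 := P.hT3
  have h3' := P.hT4
  have h4 := P.hA
  have h5 := P.hR1
  have h6 := P.hR
  have h7 := P.hL
  have h8 : 2 * (40000 * P.R) ≤ (P.A + 2) * (40000 * P.R) :=
    Nat.mul_le_mul_right _ (by omega)
  refine ⟨h1, h2, by omega, by omega, by omega, by omega, by omega, by omega⟩

/-- FB1. Horofunction. `H x = lim (L.d (g^(-m)) x - L.d (g^(-m)) 1)` along an ultrafilter
(`Filter.hyperfilter ℕ`); the sequence is bounded by `L.l x`, integer valued, so it is eventually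
constant along the ultrafilter. -/
theorem exists_horo (L : Len G) : ∃ H : G → G → ℤ, ∀ g x, ∀ᶠ m : ℕ in (Filter.hyperfilter ℕ : Filter ℕ),
    (L.d (g⁻¹ ^ m) x : ℤ) - L.d (g⁻¹ ^ m) 1 = H g x := by
  have key : ∀ g x : G, ∃ c : ℤ, ∀ᶠ m : ℕ in (Filter.hyperfilter ℕ : Filter ℕ),
      (L.d (g⁻¹ ^ m) x : ℤ) - L.d (g⁻¹ ^ m) 1 = c := by
    intro g x
    have h0 : (⋃ c ∈ Set.Icc (-(L.l x : ℤ)) (L.l x),
        {m : ℕ | (L.d (g⁻¹ ^ m) x : ℤ) - L.d (g⁻¹ ^ m) 1 = c}) = Set.univ := by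
      ext m
      simp only [Set.mem_iUnion, Set.mem_ofPred_eq, Set.mem_univ, iff_true]
      refine ⟨(L.d (g⁻¹ ^ m) x : ℤ) - L.d (g⁻¹ ^ m) 1, ?_, rfl⟩
      have h1 := L.d_tri (g⁻¹ ^ m) 1 x
      have h2 := L.d_tri (g⁻¹ ^ m) x 1
      have h3 := L.d_comm x 1
      rw [L.d_one] at h1 h3
      rw [Set.mem_Icc]
      omega
    have h1 : (⋃ c ∈ Set.Icc (-(L.l x : ℤ)) (L.l x),
        {m : ℕ | (L.d (g⁻¹ ^ m) x : ℤ) - L.d (g⁻¹ ^ m) 1 = c}) ∈ Filter.hyperfilter ℕ := by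
      rw [h0]
      exact Filter.univ_mem
    rw [Ultrafilter.finite_biUnion_mem_iff (Set.finite_Icc _ _)] at h1
    obtain ⟨c, -, hc⟩ := h1
    exact ⟨c, hc⟩
  choose H hH using key
  exact ⟨H, hH⟩

/-- The powers of a loxodromic element leave every ball. -/
theorem fb_lox_far {g : G} (hg : Lox L g) (x : G) (B : ℕ) :
    ∀ᶠ m : ℕ in (Filter.hyperfilter ℕ : Filter ℕ), B < L.d (g⁻¹ ^ m) x := by
  obtain ⟨k, hk⟩ := hg
  refine Filter.Eventually.filter_mono Nat.hyperfilter_le_atTop ?_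
  rw [Filter.eventually_atTop]
  refine ⟨(k * (B + L.l x) + 1), fun m hm => ?_⟩
  have h1 := hk m
  have h2 : L.d (g⁻¹ ^ m) 1 = L.l (g ^ m) := by
    unfold Len.d
    rw [inv_pow, inv_inv, mul_one]
  have h3 := L.d_tri (g⁻¹ ^ m) x 1
  have h4 : L.d x 1 = L.l x := by rw [L.d_comm, L.d_one]
  by_contra hc
  have h5 : L.l (g ^ m) ≤ B + L.l x := by omega
  have h6 : k * L.l (g ^ m) ≤ k * (B + L.l x) := Nat.mul_le_mul_left _ h5
  omega

/-- FB2. Change of the base point. Proof: four points `g^(-m), g^(-m)*w, x, y`; the sum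
`L.d (g^(-m)) (g^(-m)*w) + L.d x y` is bounded, the other two are not (`g` loxodromic). -/
theorem horo_base (hH : L.Hyp P.D) {H : G → G → ℤ} (hHo : ∀ g x,
    ∀ᶠ m : ℕ in (Filter.hyperfilter ℕ : Filter ℕ),
    (L.d (g⁻¹ ^ m) x : ℤ) - L.d (g⁻¹ ^ m) 1 = H g x) {g : G} (hg : Lox L g) (w x y : G) :
    ∀ᶠ m : ℕ in (Filter.hyperfilter ℕ : Filter ℕ),
      |((L.d (g⁻¹ ^ m * w) x : ℤ) - L.d (g⁻¹ ^ m * w) y) - (H g x - H g y)| ≤ P.D := by
  filter_upwards [hHo g x, hHo g y, fb_lox_far hg x (L.l w + L.d x y + P.D),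
    fb_lox_far hg y (L.l w + L.d x y + P.D)] with m h1 h2 h3 h4
  have h5 : L.d (g⁻¹ ^ m) (g⁻¹ ^ m * w) = L.l w := by
    unfold Len.d
    congr 1
    group
  have e1 := hH (g⁻¹ ^ m) (g⁻¹ ^ m * w) x y
  have e2 := hH (g⁻¹ ^ m) (g⁻¹ ^ m * w) y x
  have c1 := L.d_comm x y
  rw [abs_le]
  omega

/-- FB2'. Equivariance. Proof: `(c*g*c⁻¹)^(-m) = c * g^(-m) * c⁻¹`; `horo_base` with `w = c⁻¹`. -/
theorem horo_conj (hH : L.Hyp P.D) {H : G → G → ℤ} (hHo : ∀ g x,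
    ∀ᶠ m : ℕ in (Filter.hyperfilter ℕ : Filter ℕ),
    (L.d (g⁻¹ ^ m) x : ℤ) - L.d (g⁻¹ ^ m) 1 = H g x) {g : G} (hg : Lox L g) (c x y : G) :
    |(H (c * g * c⁻¹) (c * x) - H (c * g * c⁻¹) (c * y)) - (H g x - H g y)| ≤ P.D := by
  have h : ∀ᶠ m : ℕ in (Filter.hyperfilter ℕ : Filter ℕ),
      |(H (c * g * c⁻¹) (c * x) - H (c * g * c⁻¹) (c * y)) - (H g x - H g y)| ≤ P.D := by
    filter_upwards [horo_base hH hHo hg c⁻¹ x y, hHo (c * g * c⁻¹) (c * x),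
      hHo (c * g * c⁻¹) (c * y)] with m h1 h2 h3
    have h4 : (c * g * c⁻¹)⁻¹ ^ m = c * (g⁻¹ ^ m * c⁻¹) := by
      rw [conj_inv, conj_pow, mul_assoc]
    rw [h4] at h2 h3
    rw [L.d_smul] at h2 h3
    rw [← h2, ← h3]
    have e : ((L.d (g⁻¹ ^ m * c⁻¹) x : ℤ) - L.d (c * (g⁻¹ ^ m * c⁻¹)) 1 -
        ((L.d (g⁻¹ ^ m * c⁻¹) y : ℤ) - L.d (c * (g⁻¹ ^ m * c⁻¹)) 1) - (H g x - H g y)) =
        ((L.d (g⁻¹ ^ m * c⁻¹) x : ℤ) - L.d (g⁻¹ ^ m * c⁻¹) y) - (H g x - H g y) := by ring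
    rw [e]
    exact h1
  exact h.exists.choose_spec

/-- The horofunctions are Lipschitz. -/
theorem horo_lip {H : G → G → ℤ} (hHo : ∀ g x,
    ∀ᶠ m : ℕ in (Filter.hyperfilter ℕ : Filter ℕ),
    (L.d (g⁻¹ ^ m) x : ℤ) - L.d (g⁻¹ ^ m) 1 = H g x) (g x y : G) :
    |H g x - H g y| ≤ L.d x y := by
  have h : ∀ᶠ m : ℕ in (Filter.hyperfilter ℕ : Filter ℕ), |H g x - H g y| ≤ L.d x y := by
    filter_upwards [hHo g x, hHo g y] with m h2 h3
    have h4 := L.d_tri (g⁻¹ ^ m) x y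
    have h5 := L.d_tri (g⁻¹ ^ m) y x
    have h6 := L.d_comm x y
    rw [abs_le]
    omega
  exact h.exists.choose_spec

/-- `e ^ p` moves every point far. -/
theorem ax_len (hI : Inv P V π F L) {e : G} (h : IsAx P V π L e) (y : G) :
    P.L ≤ L.d y (e ^ P.p * y) := by
  have h1 := hI.rr e h.kil h.lox y P.p
  have h2 := P.hp
  have h3 := P.hr0
  have h4 := pfacts P
  have h5 : P.r0 * P.L ≤ P.r0 * L.d y (e ^ P.p * y) := h2.trans h1
  exact Nat.le_of_mul_le_mul_left h5 (by omega)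

theorem ax_lox_pow {e : G} (h : IsAx P V π L e) : Lox L (e ^ P.p) := by
  have h1 := lox_zpow L h.lox (j := (P.p : ℤ)) (by
    have := P.prime.pos
    omega)
  rwa [zpow_natCast] at h1

/-- Chains of backward translates: errors do not accumulate. -/
theorem back_chain {D : ℕ} (hH : L.Hyp D) {u v w : G} {a b : ℕ}
    (h1 : 2 * L.d v (u * v) ≤ L.d v (u ^ 2 * v) + a)
    (h2 : L.d (u⁻¹ * v) v + L.d v w ≤ L.d (u⁻¹ * v) w + b)
    (h3 : a + b + 2 * D < 2 * L.d v (u * v)) (h3' : 2 * a + 2 * D < 2 * L.d v (u * v))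
    (j : ℕ) (hj : 1 ≤ j) :
    L.d (u⁻¹ ^ j * v) v + L.d v w ≤ L.d (u⁻¹ ^ j * v) w + (b + D) := by
  have e1 : L.d (u⁻¹ * v) v = L.d v (u * v) := by
    rw [← L.d_smul u]
    simp
  have e2 : L.d (u⁻¹ * v) (u * v) = L.d v (u ^ 2 * v) := by
    rw [← L.d_smul u (u⁻¹ * v)]
    simp [pow_two, mul_assoc]
  have key : ∀ j : ℕ, L.d (u⁻¹ ^ (j + 1) * v) v + L.d v (u * v) ≤
      L.d (u⁻¹ ^ (j + 1) * v) (u * v) + (a + D) := by
    intro j
    induction j with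
    | zero =>
      rw [zero_add, pow_one, e1, e2]
      omega
    | succ j ih =>
      have e3 : u⁻¹ ^ (j + 1 + 1) * v = u⁻¹ * (u⁻¹ ^ (j + 1) * v) := by
        rw [pow_succ' _ (j + 1), mul_assoc]
      have e4 : L.d (u⁻¹ ^ (j + 1 + 1) * v) (u⁻¹ * v) = L.d (u⁻¹ ^ (j + 1) * v) v := by
        rw [e3, L.d_smul]
      have e5 : L.d (u⁻¹ ^ (j + 1 + 1) * v) v = L.d (u⁻¹ ^ (j + 1) * v) (u * v) := by
        rw [e3, ← L.d_smul u]
        simp
      have h4 := (chain L hH (w := u⁻¹ ^ (j + 1 + 1) * v) (x := u⁻¹ * v) (y := v) (z := u * v)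
        (a := a + D) (b := a) (by omega) (by omega) (by omega)).2
      omega
  obtain ⟨k, rfl⟩ : ∃ k, j = k + 1 := ⟨j - 1, by omega⟩
  rcases Nat.eq_zero_or_pos k with hk | hk
  · subst hk
    rw [zero_add, pow_one]
    omega
  · obtain ⟨k', rfl⟩ : ∃ k', k = k' + 1 := ⟨k - 1, by omega⟩
    have e3 : u⁻¹ ^ (k' + 1 + 1) * v = u⁻¹ * (u⁻¹ ^ (k' + 1) * v) := by
      rw [pow_succ' _ (k' + 1), mul_assoc]
    have e4 : L.d (u⁻¹ ^ (k' + 1 + 1) * v) (u⁻¹ * v) = L.d (u⁻¹ ^ (k' + 1) * v) v := by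
      rw [e3, L.d_smul]
    have e5 : L.d (u⁻¹ ^ (k' + 1 + 1) * v) v = L.d (u⁻¹ ^ (k' + 1) * v) (u * v) := by
      rw [e3, ← L.d_smul u]
      simp
    have h6 := key k'
    have h4 := (chain L hH (w := u⁻¹ ^ (k' + 1 + 1) * v) (x := u⁻¹ * v) (y := v) (z := w)
      (a := a + D) (b := b) (by omega) (by omega) (by omega)).2
    omega

/-- FB5. Proof: `ax_straight` and `chain` (errors do not accumulate): `y` is `(10 R1 + D)`-between
`g^(-m)*y` and `g*y`; `horo_base` with base point `y`. -/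
theorem ax_sign (hI : Inv P V π F L) (hV : EV P.p V) {H : G → G → ℤ} (hHo : ∀ g x,
    ∀ᶠ m : ℕ in (Filter.hyperfilter ℕ : Filter ℕ),
    (L.d (g⁻¹ ^ m) x : ℤ) - L.d (g⁻¹ ^ m) 1 = H g x) {e y : G} (h : IsAx P V π L e)
    (hy : y ∈ YY P L e) :
    (L.d y (e ^ P.p * y) : ℤ) - 11 * P.R1 ≤ H (e ^ P.p) (e ^ P.p * y) - H (e ^ P.p) y := by
  have h0 := ax_straight hI hV h hy
  have h1 := ax_len hI h y
  have h2 := ax_lox_pow h
  have hp := pfacts P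
  set g := e ^ P.p with hg
  have e0 : L.d (g * y) (g * (g * y)) = L.d y (g * y) := L.d_smul _ _ _
  have e1 : g ^ 2 * y = g * (g * y) := by rw [pow_two, mul_assoc]
  have e2 : L.d (g⁻¹ * y) y = L.d y (g * y) := by
    rw [← L.d_smul g]
    simp
  have e3 : L.d (g⁻¹ * y) (g * y) = L.d y (g * (g * y)) := by
    rw [← L.d_smul g (g⁻¹ * y)]
    simp
  have h3 : ∀ᶠ m : ℕ in (Filter.hyperfilter ℕ : Filter ℕ), 1 ≤ m :=
    Filter.Eventually.filter_mono Nat.hyperfilter_le_atTop (Filter.eventually_ge_atTop 1)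
  obtain ⟨m, h4, h5⟩ := ((horo_base hI.hyp hHo h2 y (g * y) y).and h3).exists
  have h6 := back_chain hI.hyp (u := g) (v := y) (w := g * y) (a := 10 * P.R1) (b := 10 * P.R1)
    (by rw [e1]; omega) (by rw [e2, e3]; omega) (by omega) (by omega) m h5
  rw [abs_le] at h4
  omega

/-- The two shifts of a long segment. -/
theorem sh_rev {D : ℕ} (hH : L.Hyp D) {a b g : G} {T : ℕ} (ha : L.d a (g * a) ≤ T)
    (hb : L.d b (g * b) ≤ T) (hab : T + D < L.d a b) : |L.sh a b g + L.sh b a g| ≤ D := by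
  have h2 := hH a b (g * b) (g * a)
  have h3 := hH a (g * a) b (g * b)
  have c1 := L.d_smul g b a
  have c0 := L.d_smul g a b
  have c2 := L.d_comm (g * a) b
  have c3 := L.d_comm (g * b) a
  have c4 := L.d_comm b a
  unfold Len.sh
  rw [abs_le]
  omega

/-- The horofunction along a segment on which `e ^ n` shifts. -/
theorem coord_aux (hH : L.Hyp P.D) {H : G → G → ℤ} (hHo : ∀ g x,
    ∀ᶠ m : ℕ in (Filter.hyperfilter ℕ : Filter ℕ),
    (L.d (g⁻¹ ^ m) x : ℤ) - L.d (g⁻¹ ^ m) 1 = H g x) {e : G} (he : Lox L (e ^ P.p)) {n : ℕ}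
    {z w v : G} (hn : 1 ≤ n) (hzw : L.Btw z v w) (h1 : 4 * P.T3 ≤ L.d z v)
    (h2 : 4 * P.T3 ≤ L.d v w) (hz : L.d z (e ^ n * z) ≤ P.T3) (hw : L.d w (e ^ n * w) ≤ P.T3)
    (hv : ∀ i ≤ n, L.d v (e ^ i * v) ≤ P.T3) (hs : (P.T4 : ℤ) ≤ L.sh z w (e ^ n) + 30 * P.D) :
    (L.d v w : ℤ) ≤ H (e ^ P.p) w - H (e ^ P.p) v + 30 * P.D + 2 * P.T3 := by
  have hp := pfacts P
  have hpp := P.prime.pos
  have hzw' := hzw
  unfold Len.Btw at hzw'
  have hz' : L.d z ((e ^ n)⁻¹ * z) ≤ P.T3 := by rw [Len.d_inv_smul]; exact hz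
  have hw' : L.d w ((e ^ n)⁻¹ * w) ≤ P.T3 := by rw [Len.d_inv_smul]; exact hw
  obtain ⟨-, -, -, -, -, t6, t7⟩ := transl L hH (a := z) (b := w) (z := v) (g := e ^ n)
    (T := P.T3) (ε := 0) hz hw (by omega) (by omega) (by omega)
  obtain ⟨-, -, u3, -, -, -, u7⟩ := transl L hH (a := z) (b := w) (z := v) (g := (e ^ n)⁻¹)
    (T := P.T3) (ε := 0) hz' hw' (by omega) (by omega) (by omega)
  have s1 := sh_inv L hH hz hw (by omega)
  have s2 := lox_of_sh L hH hz hw hzw (by omega) (by omega)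
  set u := e ^ n with hu
  have c1 := L.d_comm (u⁻¹ * v) v
  rw [abs_le] at s1
  have b1 : |L.sh z w u| = L.sh z w u := abs_of_nonneg (by omega)
  have b2 : |L.sh z w u⁻¹| = - L.sh z w u⁻¹ := abs_of_neg (by omega)
  rw [b1] at t6 t7 s2
  rw [b2] at u7
  have h3 : ∀ᶠ m : ℕ in (Filter.hyperfilter ℕ : Filter ℕ), n ≤ m :=
    Filter.Eventually.filter_mono Nat.hyperfilter_le_atTop (Filter.eventually_ge_atTop n)
  obtain ⟨m, h4, h5⟩ := ((horo_base hH hHo he v w v).and h3).exists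
  have hM : n ≤ P.p * m := h5.trans (Nat.le_mul_of_pos_left m hpp)
  have hq : 1 ≤ P.p * m / n := (Nat.one_le_div_iff (by omega)).2 hM
  have hr := Nat.mod_lt (P.p * m) (show 0 < n by omega)
  have hqr := Nat.div_add_mod (P.p * m) n
  have h6 := back_chain hH (u := u) (v := v) (w := w) (a := 11 * P.D) (b := 3 * P.D)
    (by omega) (by omega) (by omega) (by omega) _ hq
  have e1 : (e ^ P.p)⁻¹ ^ m * v = u⁻¹ ^ (P.p * m / n) * ((e ^ (P.p * m % n))⁻¹ * v) := by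
    rw [← mul_assoc]
    congr 1
    rw [inv_pow, ← pow_mul, inv_pow, hu, ← pow_mul, ← mul_inv_rev, ← pow_add]
    congr 2
    omega
  have e2 : L.d ((e ^ P.p)⁻¹ ^ m * v) (u⁻¹ ^ (P.p * m / n) * v) ≤ P.T3 := by
    rw [e1, L.d_smul, L.d_comm, Len.d_inv_smul]
    exact hv _ hr.le
  have t1 := L.d_tri (u⁻¹ ^ (P.p * m / n) * v) ((e ^ P.p)⁻¹ ^ m * v) w
  have t2 := L.d_tri ((e ^ P.p)⁻¹ ^ m * v) (u⁻¹ ^ (P.p * m / n) * v) v
  have t3 := L.d_comm ((e ^ P.p)⁻¹ ^ m * v) (u⁻¹ ^ (P.p * m / n) * v)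
  rw [abs_le] at h4
  omega

/-- FB4. The horofunction at `e^(-p m)` is a coordinate on `Y`. Proof: if `L.d y y' ≤ 20 R1` trivial.
Otherwise take points `x₁, y₁` between `y` and `y'` at distance `2 R1` from the ends (moved at most
`80 D`), `n` from `power_sh`, `u = e^n`, and let `z, w` be at distance `A` (`2 A`) from `x₁, y₁`
inside; `coord_aux` for `z, w` or for `w, z`. -/
theorem ax_coord (hI : Inv P V π F L) (hV : EV P.p V) {H : G → G → ℤ} (hHo : ∀ g x,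
    ∀ᶠ m : ℕ in (Filter.hyperfilter ℕ : Filter ℕ),
    (L.d (g⁻¹ ^ m) x : ℤ) - L.d (g⁻¹ ^ m) 1 = H g x) {e y y' : G} (h : IsAx P V π L e)
    (hy : y ∈ YY P L e) (hy' : y' ∈ YY P L e) :
    (L.d y y' : ℤ) - 20 * P.R1 ≤ |H (e ^ P.p) y - H (e ^ P.p) y'| ∧
      |H (e ^ P.p) y - H (e ^ P.p) y'| ≤ L.d y y' := by
  refine ⟨?_, horo_lip hHo _ _ _⟩
  have hp := pfacts P
  by_cases hl : L.d y y' ≤ 20 * P.R1
  · have := abs_nonneg (H (e ^ P.p) y - H (e ^ P.p) y')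
    omega
  have hl := not_le.1 hl
  have hH := hI.hyp
  obtain ⟨γ, hγ, hγ0, hγ1⟩ := Len.exists_geo L y y'
  set ℓ := L.d y y' with hℓ
  have hy1 : L.d y (e * y) ≤ P.R1 := hy
  have hy1' : L.d y' (e * y') ≤ P.R1 := hy'
  have hdy : ∀ i, i ≤ ℓ → L.d y (γ i) = i := by
    intro i hi
    have := hγ 0 i (Nat.zero_le _) hi
    rwa [hγ0, Nat.sub_zero] at this
  have hdy' : ∀ i, i ≤ ℓ → L.d (γ i) y' = ℓ - i := by
    intro i hi
    have := hγ i ℓ hi le_rfl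
    rwa [hγ1] at this
  have hdeep : ∀ i, 2 * P.R1 ≤ i → i + 2 * P.R1 ≤ ℓ → L.d (γ i) (e * γ i) ≤ 80 * P.D := by
    intro i h1 h2
    have h3 := hdy i (by omega)
    have h4 := hdy' i (by omega)
    refine h.deep hI.toGeo hy1 hy1' (by omega) (z := γ i) ?_ (by omega) (by omega)
    unfold Len.Btw
    omega
  have hg1 := hdeep (2 * P.R1) (by omega) (by omega)
  have hg2 := hdeep (ℓ - 2 * P.R1) (by omega) (by omega)
  have hd12 := hγ (2 * P.R1) (ℓ - 2 * P.R1) (by omega) (by omega)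
  have hne : e ≠ 1 := by
    rintro rfl
    exact not_lox_one L h.lox
  obtain ⟨n, hn, hpow⟩ := power_sh hI.toGeo (x := γ (2 * P.R1)) (y := γ (ℓ - 2 * P.R1)) (g := e)
    (by omega) hne (by omega) (by omega)
  have key : ∀ i j, 2 * P.R1 + P.A ≤ i → j + (2 * P.R1 + P.A) ≤ ℓ → i + 4 * P.T3 ≤ j →
      (∀ k ≤ n, L.d (γ i) (e ^ k * γ i) ≤ P.T3) ∧
      (P.T4 : ℤ) ≤ |L.sh (γ i) (γ j) (e ^ n)| + 20 * P.D := by
    intro i j hi hj hij
    have a1 := hγ (2 * P.R1) i (by omega) (by omega)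
    have a2 := hγ (2 * P.R1) j (by omega) (by omega)
    have a3 := hγ i (ℓ - 2 * P.R1) (by omega) (by omega)
    have a4 := hγ j (ℓ - 2 * P.R1) (by omega) (by omega)
    refine hpow (γ i) (γ j) ?_ ?_ (by omega) (by omega) (by omega) (by omega) (by omega)
    · unfold Len.Btw
      omega
    · unfold Len.Btw
      omega
  -- the points
  have hiz : 2 * P.R1 + P.A ≤ ℓ := by omega
  obtain ⟨k1, k2⟩ := key (2 * P.R1 + P.A) (ℓ - 2 * P.R1 - 2 * P.A) (by omega) (by omega) (by omega)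
  obtain ⟨k3, -⟩ := key (ℓ - 2 * P.R1 - 2 * P.A) (ℓ - 2 * P.R1 - P.A) (by omega) (by omega)
    (by omega)
  obtain ⟨k5, -⟩ := key (2 * P.R1 + P.A + 4 * P.T3) (ℓ - 2 * P.R1 - 2 * P.A) (by omega) (by omega)
    (by omega)
  obtain ⟨k7, -⟩ := key (ℓ - 2 * P.R1 - 2 * P.A - 4 * P.T3) (ℓ - 2 * P.R1 - 2 * P.A) (by omega)
    (by omega) (by omega)
  have hzw := hγ (2 * P.R1 + P.A) (ℓ - 2 * P.R1 - 2 * P.A) (by omega) (by omega)
  have hzv := hγ (2 * P.R1 + P.A) (2 * P.R1 + P.A + 4 * P.T3) (by omega) (by omega)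
  have hvw := hγ (2 * P.R1 + P.A + 4 * P.T3) (ℓ - 2 * P.R1 - 2 * P.A) (by omega) (by omega)
  have hzv' := hγ (2 * P.R1 + P.A) (ℓ - 2 * P.R1 - 2 * P.A - 4 * P.T3) (by omega) (by omega)
  have hvw' := hγ (ℓ - 2 * P.R1 - 2 * P.A - 4 * P.T3) (ℓ - 2 * P.R1 - 2 * P.A) (by omega)
    (by omega)
  have y1 := hdy (2 * P.R1 + P.A + 4 * P.T3) (by omega)
  have y2 := hdy' (ℓ - 2 * P.R1 - 2 * P.A) (by omega)
  have y3 := hdy (2 * P.R1 + P.A) (by omega)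
  have y4 := hdy' (ℓ - 2 * P.R1 - 2 * P.A - 4 * P.T3) (by omega)
  have l1 := horo_lip hHo (e ^ P.p) y (γ (2 * P.R1 + P.A + 4 * P.T3))
  have l2 := horo_lip hHo (e ^ P.p) (γ (ℓ - 2 * P.R1 - 2 * P.A)) y'
  have l3 := horo_lip hHo (e ^ P.p) y (γ (2 * P.R1 + P.A))
  have l4 := horo_lip hHo (e ^ P.p) (γ (ℓ - 2 * P.R1 - 2 * P.A - 4 * P.T3)) y'
  set z := γ (2 * P.R1 + P.A)
  set w := γ (ℓ - 2 * P.R1 - 2 * P.A)
  set v := γ (2 * P.R1 + P.A + 4 * P.T3)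
  set v' := γ (ℓ - 2 * P.R1 - 2 * P.A - 4 * P.T3)
  rw [abs_le] at l1 l2 l3 l4
  rcases le_total 0 (L.sh z w (e ^ n)) with hs | hs
  · rw [abs_of_nonneg hs] at k2
    have q := coord_aux hH hHo (ax_lox_pow h) (n := n) (z := z) (w := w) (v := v) hn
      (by unfold Len.Btw; omega) (by omega) (by omega) (k1 n le_rfl) (k3 n le_rfl) k5 (by omega)
    have q1 := neg_le_abs (H (e ^ P.p) y - H (e ^ P.p) y')
    omega
  · rw [abs_of_nonpos hs] at k2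
    have r := sh_rev hH (k1 n le_rfl) (k3 n le_rfl) (by omega)
    rw [abs_le] at r
    have c1 := L.d_comm w v'
    have c2 := L.d_comm v' z
    have c3 := L.d_comm w z
    have q := coord_aux hH hHo (ax_lox_pow h) (n := n) (z := w) (w := z) (v := v') hn
      (by unfold Len.Btw; omega) (by omega) (by omega) (k3 n le_rfl) (k1 n le_rfl) k7 (by omega)
    have q1 := le_abs_self (H (e ^ P.p) y - H (e ^ P.p) y')
    omega

end Pool.Agent.Beb
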