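import Pool.Agent.Work.MP_beb559_al.FA
import Pool.Agent.Work.MP_beb559_al.IsoA

/-!
# The axis of a small loxodromic element is straight
-/

namespace Pool.Agent.Beb

variable {P : Par} {G E : Type} [Group G] [Group E] {V : Subgroup E} {π : G →* E}
  {F : Subgroup G} {L : Len G}

/-- The shift of `a` towards `b'` beyond `b` is the shift towards `b`, up to `D`. -/
theorem sh_far {D : ℕ} (hH : L.Hyp D) {a b b' u : G} {T : ℕ} (ha : L.d a (u * a) ≤ T)
    (hb : L.Btw a b b') (h : 2 * T + D < 2 * L.d a b) :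
    L.sh a b u ≤ L.sh a b' u ∧ L.sh a b' u ≤ L.sh a b u + D := by
  unfold Len.Btw at hb
  have h1 := L.d_tri (u * a) b b'
  have h2 := hH (u * a) a b b'
  have h3 := L.d_tri a (u * a) b
  have h4 := L.d_comm (u * a) a
  have h5 := L.d_comm b b'
  unfold Len.sh
  rw [max_def] at h2
  split_ifs at h2 <;> constructor <;> omega

/-- Shifts in the two directions. -/
theorem sh_swap {D : ℕ} (hH : L.Hyp D) {a b u : G} {T : ℕ} (ha : L.d a (u * a) ≤ T)
    (hb : L.d b (u * b) ≤ T) (h : 2 * T + D < 2 * L.d a b) :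
    |L.sh a b u + L.sh b a u| ≤ D := by
  have h1 := hH a (u * a) b (u * b)
  have h2 := hH a (u * a) (u * b) b
  have e1 := L.d_smul u a b
  have e2 := L.d_comm (u * b) a
  have e3 := L.d_comm b a
  have e4 := L.d_comm (u * b) b
  have e5 := L.d_comm (u * a) b
  unfold Len.sh
  rw [abs_le]
  rw [max_def] at h1 h2
  split_ifs at h1 h2 <;> constructor <;> omega

/-- Shifts along close pairs of points. -/
theorem sh_near {a b a' b' u : G} {c : ℕ} (ha : L.d a a' ≤ c) (hb : L.d b b' ≤ c) :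
    |L.sh a b u - L.sh a' b' u| ≤ 4 * c := by
  have h1 := L.d_tri a a' b
  have h2 := L.d_tri a' b' b
  have h3 := L.d_tri a' a b'
  have h4 := L.d_tri a b b'
  have h5 := L.d_tri (u * a) (u * a') b
  have h6 := L.d_tri (u * a') b' b
  have h7 := L.d_tri (u * a') (u * a) b'
  have h8 := L.d_tri (u * a) b b'
  have e1 : L.d (u * a) (u * a') = L.d a a' := L.d_smul _ _ _
  have e2 : L.d (u * a') (u * a) = L.d a' a := L.d_smul _ _ _
  have e3 := L.d_comm a' a
  have e4 := L.d_comm b' b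
  unfold Len.sh
  rw [abs_le]
  constructor <;> omega

/-- The constants used below. -/
theorem fbs_const (P : Par) : 1 ≤ P.D ∧ P.T3 = 8000 * P.D ∧ P.T4 = 2000 * P.D ∧
    P.A = 800000 * P.D ∧ P.R1 = 1000 * P.A ∧ 1000000 * P.R1 ≤ P.L := by
  have c1 := P.hD
  have c2 := P.hT0
  have c3 := P.hT3
  have c3' := P.hT4
  have c4 := P.hA
  have c5 := P.hR1
  have c6 := P.hR
  have c7 := P.hL
  have hL' : 2 * (40000 * P.R) ≤ (P.A + 2) * (40000 * P.R) :=
    Nat.mul_le_mul_right _ (by omega)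
  refine ⟨?_, ?_, ?_, ?_, ?_, ?_⟩ <;> omega

/-- A geodesic with exact distances. -/
theorem exists_pts (L : Len G) (x y : G) : ∃ γ : ℕ → G, γ 0 = x ∧ γ (L.d x y) = y ∧
    ∀ i j, i ≤ j → j ≤ L.d x y → L.d (γ i) (γ j) + i = j := by
  obtain ⟨γ, h1, h2, h3⟩ := Len.exists_geo L x y
  refine ⟨γ, h2, h3, fun i j hij hj => ?_⟩
  rw [h1 i j hij hj]
  omega

theorem pts_btw {γ : ℕ → G} {n : ℕ} (h : ∀ i j, i ≤ j → j ≤ n → L.d (γ i) (γ j) + i = j)
    {i j k : ℕ} (h1 : i ≤ j) (h2 : j ≤ k) (h3 : k ≤ n) : L.Btw (γ i) (γ j) (γ k) := by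
  have a1 := h i j h1 (h2.trans h3)
  have a2 := h j k h2 h3
  have a3 := h i k (h1.trans h2) h3
  unfold Len.Btw
  omega

/-- The contradiction: shifts of `u` along `z, w` in both directions. -/
theorem straight_contra (P : Par) {L : Len G} (hH : L.Hyp P.D) {w1 z1 z w g u : G}
    (hug : u * g = g * u) (m1 : L.d w1 (u * w1) ≤ P.T3) (m2 : L.d z (u * z) ≤ P.T3)
    (m3 : L.d w (u * w) ≤ P.T3) (b1 : L.Btw w1 z1 w) (b2 : L.Btw w1 z w)
    (l1 : P.T3 + P.D < L.d w1 z1) (l2 : P.T3 + P.D ≤ L.d w1 z) (l3 : P.T3 + P.D < L.d z w)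
    (k1 : L.d w (g * w1) ≤ 3 * P.D) (k2 : L.d z (g * z1) ≤ 3 * P.D)
    (q4 : (P.T4 : ℤ) ≤ |L.sh z w u| + 20 * P.D) : False := by
  obtain ⟨c1, c2, c3, -, -, -⟩ := fbs_const P
  have q1 := sh_far hH m1 (b := z1) (b' := w) b1 (by omega)
  have b2' : L.d w1 z + L.d z w ≤ L.d w1 w + 0 := by
    have := b2
    unfold Len.Btw at this
    omega
  have q2 := transl L hH (a := w1) (b := w) (z := z) (g := u) (T := P.T3) (ε := 0) m1 m3
    b2' (by omega) (by omega)
  obtain ⟨-, -, q2c, q2d, -, -, -⟩ := q2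
  have q3 := sh_swap hH (a := z) (b := w) m2 m3 (by omega)
  have q5 := sh_near (L := L) (u := u) k1 k2
  have q6 : L.sh (g * w1) (g * z1) u = L.sh w1 z1 u := by
    unfold Len.sh
    rw [L.d_smul]
    have : u * (g * w1) = g * (u * w1) := by rw [← mul_assoc, hug, mul_assoc]
    rw [this, L.d_smul]
  rw [q6] at q5
  have q7 : L.sh z w u = (L.d z w : ℤ) - L.d (u * z) w := rfl
  generalize L.sh z w u = s1 at *
  generalize L.sh w z u = s2 at *
  generalize L.sh w1 z1 u = s3 at *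
  generalize L.sh w1 w u = s4 at *
  rw [abs_le] at q3 q5
  clear b1 b2 b2' k1 k2 m1 m2 m3 l1 l2 l3 q6
  rcases abs_cases s1 with ⟨j1, j2⟩ | ⟨j1, j2⟩
  · rw [j1] at q4
    push_cast at *
    omega
  · rw [j1] at q4
    push_cast at *
    omega

/-- FB3. The axis is straight. -/
theorem ax_straight (hI : Inv P V π F L) (hV : EV P.p V) {e y : G} (h : IsAx P V π L e)
    (hy : y ∈ YY P L e) :
    L.d y (e ^ P.p * y) + L.d (e ^ P.p * y) (e ^ P.p * (e ^ P.p * y)) ≤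
      L.d y (e ^ P.p * (e ^ P.p * y)) + 10 * P.R1 := by
  by_contra hcon
  push Not at hcon
  obtain ⟨c1, c2, c3, c4, c5, c6⟩ := fbs_const P
  have hG : Geo P L := hI.toGeo
  have hH := hG.hyp
  obtain ⟨g, hg⟩ : ∃ g, g = e ^ P.p := ⟨_, rfl⟩
  rw [← hg] at hcon
  have hy' : L.d y (e * y) ≤ P.R1 := hy
  have heg : e * g = g * e := by rw [hg]; exact (Commute.self_pow e P.p).eq
  obtain ⟨b, hb⟩ : ∃ b, b = g * y := ⟨_, rfl⟩
  obtain ⟨c, hc⟩ : ∃ c, c = g * b := ⟨_, rfl⟩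
  rw [← hb, ← hc] at hcon
  have hbc : L.d b c = L.d y b := by rw [hc, hb, L.d_smul]
  have hlong : P.L ≤ L.d y b := by
    have h1 := hI.rr e h.kil h.lox y P.p
    rw [← hg, ← hb] at h1
    have h2 := P.hp
    have h3 : P.r0 * P.L ≤ P.r0 * L.d y b := le_trans h2 h1
    have h4 : 0 < P.r0 := by
      have := P.hr0
      have := P.hR
      omega
    exact Nat.le_of_mul_le_mul_left h3 h4
  obtain ⟨γ, g0, g1, hγ⟩ := exists_pts L y b
  obtain ⟨l, hl⟩ : ∃ l, l = L.d y b := ⟨_, rfl⟩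
  rw [← hl] at hbc hlong g1 hγ hcon
  have hl1 : 1000000 * P.R1 ≤ l := c6.trans hlong
  clear c6 hlong
  have hby : L.d b (e * b) ≤ P.R1 := by
    have : e * b = g * (e * y) := by rw [hb, ← mul_assoc, heg, mul_assoc]
    rw [this, hb, L.d_smul]
    exact hy'
  have hne : e ≠ 1 := by
    intro h1
    obtain ⟨m, hm⟩ := h.lox
    have := hm 1
    rw [h1, one_pow, L.one] at this
    omega
  -- positions
  obtain ⟨i1, hi1⟩ : ∃ i, i = 2 * P.R1 := ⟨_, rfl⟩
  obtain ⟨i2, hi2⟩ : ∃ i, i = 2 * P.R1 + 2 * P.A := ⟨_, rfl⟩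
  obtain ⟨i3, hi3⟩ : ∃ i, i = 2 * P.R1 + 3 * P.A := ⟨_, rfl⟩
  obtain ⟨i4, hi4⟩ : ∃ i, i + (2 * P.R1 + 3 * P.A) = l := ⟨l - (2 * P.R1 + 3 * P.A), by omega⟩
  obtain ⟨i5, hi5⟩ : ∃ i, i + (2 * P.R1 + 2 * P.A) = l := ⟨l - (2 * P.R1 + 2 * P.A), by omega⟩
  obtain ⟨i6, hi6⟩ : ∃ i, i + (2 * P.R1 + P.A) = l := ⟨l - (2 * P.R1 + P.A), by omega⟩
  obtain ⟨i7, hi7⟩ : ∃ i, i + 2 * P.R1 = l := ⟨l - 2 * P.R1, by omega⟩
  have o1 : i1 ≤ i2 := by omega
  have o2 : i2 ≤ i3 := by omega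
  have o3 : i3 ≤ i4 := by omega
  have o4 : i4 ≤ i5 := by omega
  have o5 : i5 ≤ i6 := by omega
  have o6 : i6 ≤ i7 := by omega
  have o7 : i7 ≤ l := by omega
  -- distances
  have d0 := hγ 0 i1 (by omega) (by omega)
  have d1 := hγ i1 l (by omega) le_rfl
  have d2 := hγ 0 i7 (by omega) (by omega)
  have d3 := hγ i7 l o7 le_rfl
  rw [g0] at d0 d2
  rw [g1] at d1 d3
  have hx1 : L.d (γ i1) (e * γ i1) ≤ 997 * P.D := by
    have hb1 : L.Btw y (γ i1) b := by
      have := pts_btw hγ (Nat.zero_le i1) (by omega : i1 ≤ l) le_rfl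
      rwa [g0, g1] at this
    have := h.deep hG (T := P.R1) hy' hby (by omega) hb1 (by omega) (by omega)
    omega
  have hy1 : L.d (γ i7) (e * γ i7) ≤ 997 * P.D := by
    have hb1 : L.Btw y (γ i7) b := by
      have := pts_btw hγ (Nat.zero_le i7) o7 le_rfl
      rwa [g0, g1] at this
    have := h.deep hG (T := P.R1) hy' hby (by omega) hb1 (by omega) (by omega)
    omega
  clear d0 d1 d2 d3
  have d4 := hγ i1 i7 (by omega) o7
  obtain ⟨n, hn, hpow⟩ := power_sh hG (by omega : 4 * P.A ≤ L.d (γ i1) (γ i7)) hne hx1 hy1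
  obtain ⟨u, hu⟩ : ∃ u, u = e ^ n := ⟨_, rfl⟩
  rw [← hu] at hpow
  have hug : u * g = g * u := by
    rw [hu, hg, ← pow_add, ← pow_add, add_comm]
  have key : ∀ i j, i1 + P.A ≤ i → i + P.A ≤ i7 → j + P.A ≤ i7 → i + 4 * P.T3 ≤ j →
      L.d (γ i) (u * γ i) ≤ P.T3 ∧ (P.T4 : ℤ) ≤ |L.sh (γ i) (γ j) u| + 20 * P.D := by
    intro i j h1 h2 h3 h4
    have e1 := hγ i1 i (by omega) (by omega)
    have e2 := hγ i i7 (by omega) (by omega)
    have e3 := hγ i1 j (by omega) (by omega)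
    have e4 := hγ j i7 (by omega) (by omega)
    have := hpow (γ i) (γ j) (pts_btw hγ (by omega) (by omega) (by omega))
      (pts_btw hγ (by omega) (by omega) (by omega)) (by omega) (by omega) (by omega) (by omega)
      (by omega)
    refine ⟨?_, this.2⟩
    rw [hu]
    exact this.1 n le_rfl
  have m1 := (key i2 i3 (by omega) (by omega) (by omega) (by omega)).1
  have m2 := key i4 i5 (by omega) (by omega) (by omega) (by omega)
  have m3 := (key i5 i6 (by omega) (by omega) (by omega) (by omega)).1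
  -- distances to `b`
  have f1 := hγ i4 l (by omega) le_rfl
  have f2 := hγ i5 l (by omega) le_rfl
  have f3 := hγ 0 i2 (by omega) (by omega)
  have f4 := hγ 0 i3 (by omega) (by omega)
  have f5 := hγ i2 l (by omega) le_rfl
  have f6 := hγ i3 l (by omega) le_rfl
  rw [g1] at f1 f2 f5 f6
  rw [g0] at f3 f4
  have bz : L.Btw b (γ i4) y := by
    have := pts_btw hγ (Nat.zero_le i4) (by omega : i4 ≤ l) le_rfl
    rw [g0, g1] at this
    unfold Len.Btw at this ⊢
    rw [L.d_comm b, L.d_comm _ y, L.d_comm b y]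
    omega
  have bw : L.Btw b (γ i5) y := by
    have := pts_btw hγ (Nat.zero_le i5) (by omega : i5 ≤ l) le_rfl
    rw [g0, g1] at this
    unfold Len.Btw at this ⊢
    rw [L.d_comm b, L.d_comm _ y, L.d_comm b y]
    omega
  have cb := L.d_comm b y
  have cz := L.d_comm b (γ i4)
  have cw := L.d_comm b (γ i5)
  obtain ⟨z', r1, r2, r3⟩ := tripod L hH (a := b) (b := y) (c := c) (z := γ i4) bz (by omega)
  obtain ⟨v', r4, r5, r6⟩ := tripod L hH (a := b) (b := y) (c := c) (z := γ i5) bw (by omega)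
  have s1 : L.d b (g * γ i2) = L.d y (γ i2) := by rw [hb, L.d_smul]
  have s2 : L.d (g * γ i2) c = L.d (γ i2) b := by rw [hc, L.d_smul]
  have s3 : L.d b (g * γ i3) = L.d y (γ i3) := by rw [hb, L.d_smul]
  have s4 : L.d (g * γ i3) c = L.d (γ i3) b := by rw [hc, L.d_smul]
  have t1 : L.Btw b (g * γ i2) c := by
    unfold Len.Btw
    omega
  have t2 : L.Btw b (g * γ i3) c := by
    unfold Len.Btw
    omega
  have v1 := btw_btw L hH r4 t1 (by omega)
  have v2 := btw_btw L hH r1 t2 (by omega)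
  have w1 := L.d_tri (γ i5) v' (g * γ i2)
  have w2 := L.d_tri (γ i4) z' (g * γ i3)
  have k1 : L.d (γ i5) (g * γ i2) ≤ 3 * P.D := by omega
  have k2 : L.d (γ i4) (g * γ i3) ≤ 3 * P.D := by omega
  have x1 := hγ i2 i3 o2 (by omega)
  have x2 := hγ i2 i4 (by omega) (by omega)
  have x3 := hγ i4 i5 (by omega) (by omega)
  exact straight_contra P hH hug m1 m2.1 m3 (pts_btw hγ (by omega) (by omega) (by omega))
    (pts_btw hγ (by omega) (by omega) (by omega)) (by omega) (by omega) (by omega) k1 k2 m2.2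

end Pool.Agent.Beb
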