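import Pool.Agent.Work.MP_beb559_al.FB

/-!
# The family of axes with rotations and coordinates
-/

namespace Pool.Agent.Beb

variable {P : Par} {G E : Type} [Group G] [Group E] {V : Subgroup E} {π : G →* E}
  {F : Subgroup G} {L : Len G}

namespace FCaux

/-- The horofunctions are 1-Lipschitz. -/
theorem lip {H : G → G → ℤ} (hHo : ∀ g x, ∀ᶠ m : ℕ in (Filter.hyperfilter ℕ : Filter ℕ),
    (L.d (g⁻¹ ^ m) x : ℤ) - L.d (g⁻¹ ^ m) 1 = H g x) (g x y : G) :
    |H g x - H g y| ≤ L.d x y := by
  obtain ⟨m, h1, h2⟩ := ((hHo g x).and (hHo g y)).exists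
  have t1 := L.d_tri (g⁻¹ ^ m) x y
  have t2 := L.d_tri (g⁻¹ ^ m) y x
  have e := L.d_comm x y
  rw [abs_le]
  omega

/-- `p`-th powers of the generators of the axes have displacement at least `P.L`. -/
theorem len (hI : Inv P V π F L) {e : G} (h : IsAx P V π L e) (y : G) :
    P.L ≤ L.d y (e ^ P.p * y) := by
  have h1 := hI.rr e h.kil h.lox y P.p
  have h2 := P.hp
  have h3 : 0 < P.r0 := by
    have := P.hr0; have := P.hR; have := P.hR1; have := P.hA; have := P.hT3; have := P.hT0
    have := P.hD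
    omega
  exact Nat.le_of_mul_le_mul_left (h2.trans h1) h3

theorem mem_YY_smul {e : G} (g : G) {x : G} (hx : x ∈ YY P L e) : g * x ∈ YY P L (g * e * g⁻¹) := by
  change L.d (g * x) (g * e * g⁻¹ * (g * x)) ≤ P.R1
  have h1 : g * e * g⁻¹ * (g * x) = g * (e * x) := by group
  rw [h1, L.d_smul]
  exact hx

theorem mem_YY_pow {e : G} (n : ℕ) {x : G} (hx : x ∈ YY P L e) : e ^ n * x ∈ YY P L e := by
  have h1 := mem_YY_smul (P := P) (L := L) (e ^ n) hx
  have h2 : e ^ n * e * (e ^ n)⁻¹ = e := by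
    rw [← pow_succ, pow_succ', mul_inv_cancel_right]
  rwa [h2] at h1

/-- growth of the coordinate under powers of the rotation -/
theorem growth (hI : Inv P V π F L) (hV : EV P.p V) {H : G → G → ℤ} (hHo : ∀ g x,
    ∀ᶠ m : ℕ in (Filter.hyperfilter ℕ : Filter ℕ),
    (L.d (g⁻¹ ^ m) x : ℤ) - L.d (g⁻¹ ^ m) 1 = H g x) {e : G} (h : IsAx P V π L e) {t : ℕ}
    (ht : ∀ y ∈ YY P L e, t ≤ L.d y (e ^ P.p * y)) (j : ℕ) {y : G} (hy : y ∈ YY P L e) :
    (j : ℤ) * (t - 11 * P.R1) ≤ H (e ^ P.p) (e ^ (P.p * j) * y) - H (e ^ P.p) y := by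
  induction j with
  | zero => simp
  | succ j ih =>
    have hy' : e ^ (P.p * j) * y ∈ YY P L e := mem_YY_pow _ hy
    have h1 := ax_sign hI hV hHo h hy'
    have h2 := ht _ hy'
    have h3 : e ^ (P.p * (j + 1)) * y = e ^ P.p * (e ^ (P.p * j) * y) := by
      rw [← mul_assoc, ← pow_add]
      congr 2
      ring
    rw [h3]
    push_cast
    have h4 : ((t : ℤ) ≤ L.d (e ^ (P.p * j) * y) (e ^ P.p * (e ^ (P.p * j) * y))) := by
      exact_mod_cast h2
    linarith

theorem rot_nat (hI : Inv P V π F L) (hV : EV P.p V) {H : G → G → ℤ} (hHo : ∀ g x,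
    ∀ᶠ m : ℕ in (Filter.hyperfilter ℕ : Filter ℕ),
    (L.d (g⁻¹ ^ m) x : ℤ) - L.d (g⁻¹ ^ m) 1 = H g x) {e : G} (h : IsAx P V π L e) {t : ℕ}
    (ht : ∀ y ∈ YY P L e, t ≤ L.d y (e ^ P.p * y)) (hL : P.L ≤ t) (j : ℕ) (hj : 1 ≤ j) {y : G}
    (hy : y ∈ YY P L e) : t ≤ L.d y (e ^ (P.p * j) * y) := by
  rcases Nat.lt_or_ge 1 j with h1 | h1
  · have h2 := growth hI hV hHo h ht j hy
    have h3 := lip hHo (e ^ P.p) (e ^ (P.p * j) * y) y
    have h4 : 22 * P.R1 ≤ P.L := by
      have := P.hL
      have := P.hR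
      have h5 : (P.A + 2) * (40000 * P.R) ≥ 2 * (40000 * P.R) := Nat.mul_le_mul_right _ (by omega)
      omega
    have h5 : (2 : ℤ) * (t - 11 * P.R1) ≤ j * (t - 11 * P.R1) := by
      refine mul_le_mul_of_nonneg_right (by exact_mod_cast h1) ?_
      have : ((22 * P.R1 : ℕ) : ℤ) ≤ t := by exact_mod_cast h4.trans hL
      push_cast at this
      linarith
    rw [L.d_comm] at h3
    have h6 := (le_abs_self _).trans h3
    have h7 : ((22 * P.R1 : ℕ) : ℤ) ≤ t := by exact_mod_cast h4.trans hL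
    push_cast at h7
    have : (t : ℤ) ≤ L.d y (e ^ (P.p * j) * y) := by linarith
    exact_mod_cast this
  · have : j = 1 := by omega
    rw [this, mul_one]
    exact ht y hy

/-- the family of the quasi-axes -/
def famQF (hG : Geo P L) (hV : EV P.p V) : QF P L where
  I := {e : G // IsAx P V π L e}
  act :=
    { smul := fun g i => ⟨g * i.1 * g⁻¹, i.2.conj hG hV g⟩
      one_smul := fun i => Subtype.ext (by
        change 1 * i.1 * 1⁻¹ = i.1
        group)
      mul_smul := fun g g' i => Subtype.ext (by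
        change g * g' * i.1 * (g * g')⁻¹ = g * (g' * i.1 * g'⁻¹) * g⁻¹
        group) }
  Y := fun i => YY P L i.1
  ne := fun i => by
    obtain ⟨x, hx⟩ := i.2.small
    have c1 := P.hD
    have c2 := P.hT0
    have c3 := P.hT3
    have c4 := P.hA
    have c5 := P.hR1
    exact ⟨x, by change L.d x (i.1 * x) ≤ P.R1; omega⟩
  smul := fun g i x hx => mem_YY_smul g hx
  qc := fun i x hx y hy z hz => i.2.qc hG hx hy hz
  ov := fun i j hij a b h1 h2 h3 h4 => i.2.ov hG j.2 (fun h => hij (Subtype.ext h)) a b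
    h1 h2 h3 h4

/-- the generator of an axis -/
def gen (hG : Geo P L) (hV : EV P.p V) (i : (famQF (π := π) hG hV).I) : G := i.1

theorem gen_isAx (hG : Geo P L) (hV : EV P.p V) (i : (famQF (π := π) hG hV).I) :
    IsAx P V π L (gen hG hV i) := i.2

theorem gen_smul (hG : Geo P L) (hV : EV P.p V) (g : G) (i : (famQF (π := π) hG hV).I) :
    gen hG hV (g • i) = g * gen hG hV i * g⁻¹ := rfl

theorem gen_ext (hG : Geo P L) (hV : EV P.p V) {i j : (famQF (π := π) hG hV).I}
    (h : gen hG hV i = gen hG hV j) : i = j := Subtype.ext h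

theorem exists_gen (hG : Geo P L) (hV : EV P.p V) {e : G} (h : IsAx P V π L e) :
    ∃ i : (famQF (π := π) hG hV).I, gen hG hV i = e := ⟨⟨e, h⟩, rfl⟩

end FCaux

open FCaux

/-- FB6. The family of axes with rotations and coordinates. -/
theorem exists_rot (hI : Inv P V π F L) (hV : EV P.p V) :
    ∃ W : Rot P L, (∀ i, IsAx P V π L (W.e i)) ∧ (∀ i, W.Y i = YY P L (W.e i)) ∧
      (∀ g : G, kil V π g → Lox L g → (∃ x, L.d x (g * x) ≤ 50 * P.D) → ∃ i : W.I, g • i = i) ∧
      W.K ≤ π.ker := by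
  classical
  have hG : Geo P L := hI.toGeo
  have hH := hG.hyp
  have c1 := P.hD
  have c2 := P.hT0
  have c3 := P.hT3
  have c4 := P.hA
  have c5 := P.hR1
  have c6 := P.hR
  have hp0 : (P.p : ℤ) ≠ 0 := by exact_mod_cast P.prime.ne_zero
  obtain ⟨H, hHo⟩ := exists_horo L
  have hY : ∀ i, (famQF (π := π) hG hV).Y i = YY P L (gen hG hV i) := fun _ => rfl
  have hax : ∀ i, IsAx P V π L (gen (π := π) hG hV i) := gen_isAx hG hV
  -- minimal displacement
  obtain ⟨t, hte⟩ : ∃ t : (famQF (π := π) hG hV).I → ℕ, ∀ i, t i =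
      sInf {n | ∃ y ∈ YY P L (gen hG hV i), n = L.d y (gen hG hV i ^ P.p * y)} :=
    ⟨_, fun _ => rfl⟩
  have ht : ∀ i, ∀ y ∈ YY P L (gen hG hV i), t i ≤ L.d y (gen hG hV i ^ P.p * y) :=
    fun i y hy => by rw [hte]; exact Nat.sInf_le ⟨y, hy, rfl⟩
  have ht' : ∀ i, ∃ y ∈ YY P L (gen hG hV i), t i = L.d y (gen hG hV i ^ P.p * y) := fun i => by
    obtain ⟨x, hx⟩ := (famQF (π := π) hG hV).ne i
    rw [hte]
    exact Nat.sInf_mem (s := {n | ∃ y ∈ YY P L (gen hG hV i), n = L.d y (gen hG hV i ^ P.p * y)})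
      ⟨_, x, hx, rfl⟩
  have htL : ∀ i, P.L ≤ t i := fun i => by
    obtain ⟨y, _, h⟩ := ht' i
    rw [h]
    exact len hI (hax i) y
  have ht1 : ∀ (g : G) (i : (famQF (π := π) hG hV).I), t (g • i) ≤ t i := fun g i => by
    obtain ⟨y, hy, h⟩ := ht' i
    have h1 := ht (g • i) (g * y) (by rw [gen_smul]; exact mem_YY_smul g hy)
    rw [gen_smul, conj_pow] at h1
    have h2 : g * gen hG hV i ^ P.p * g⁻¹ * (g * y) = g * (gen hG hV i ^ P.p * y) := by group
    rw [h2, L.d_smul] at h1
    omega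
  -- nearest points
  choose nr hnr using fun (i : (famQF (π := π) hG hV).I) (x : G) =>
    (famQF (π := π) hG hV).exists_nr i x
  have hlox : ∀ i, Lox L (gen (π := π) hG hV i ^ P.p) := fun i => by
    have := lox_zpow L (hax i).lox hp0
    rwa [zpow_natCast] at this
  have hfix : ∀ (i : (famQF (π := π) hG hV).I) (n : ℕ), (gen hG hV i ^ n) • i = i := fun i n =>
    gen_ext hG hV (by rw [gen_smul, ← pow_succ, pow_succ', mul_inv_cancel_right])
  let W : Rot P L :=
    { famQF (π := π) hG hV with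
      e := fun i => gen hG hV i
      e_smul := fun g i => gen_smul hG hV g i
      e_fix := fun i => by
        have := hfix i 1
        rwa [pow_one] at this
      stab := fun g i h => by
        have h1 : g * gen hG hV i * g⁻¹ = gen hG hV i := by
          rw [← gen_smul]
          exact congrArg (gen hG hV) h
        refine ((hax i).cent g).1 ?_
        calc g * gen hG hV i = g * gen hG hV i * g⁻¹ * g := by group
          _ = gen hG hV i * g := by rw [h1]
      t := t
      t_smul := fun g i => by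
        refine le_antisymm (ht1 g i) ?_
        have := ht1 g⁻¹ (g • i)
        rwa [inv_smul_smul] at this
      t_big := htL
      rot := fun i j hj y hy => by
        rcases Int.natAbs_eq j with h | h
        · have h1 := rot_nat hI hV hHo (hax i) (ht i) (htL i) j.natAbs (by omega) hy
          have h2 : gen hG hV i ^ (P.p * j) = gen hG hV i ^ (P.p * j.natAbs) := by
            rw [← zpow_natCast]
            push_cast
            conv_lhs => rw [h]
            push_cast
            rfl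
          rw [h2]
          exact h1
        · have h1 := rot_nat hI hV hHo (hax i) (ht i) (htL i) j.natAbs (by omega) hy
          have h2 : gen hG hV i ^ (P.p * j) = (gen hG hV i ^ (P.p * j.natAbs))⁻¹ := by
            rw [← zpow_natCast, ← zpow_neg]
            congr 1
            conv_lhs => rw [h]
            push_cast
            ring
          rw [h2, ← L.d_smul (gen hG hV i ^ (P.p * j.natAbs)), mul_inv_cancel_left, L.d_comm]
          exact h1
      h := fun i x => H (gen hG hV i ^ P.p) (nr i x)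
      h_dp := fun i x y => by
        obtain ⟨h1, h2⟩ := ax_coord hI hV hHo (hax i) (hnr i x).1 (hnr i y).1
        have h3 := (famQF (π := π) hG hV).le_dp hH (hnr i x) (hnr i y)
        have h4 := (famQF (π := π) hG hV).dp_le_pt hH (hnr i x) (hnr i y)
        change |(|H (gen hG hV i ^ P.p) (nr i x) - H (gen hG hV i ^ P.p) (nr i y)|) -
          ((famQF (π := π) hG hV).dp i x y : ℤ)| ≤ (P.R : ℤ)
        rw [abs_le]
        omega
      h_smul := fun g i x y => by
        have h1 := horo_conj hH hHo (hlox i) g (nr i x) (nr i y)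
        have h2 := (famQF (π := π) hG hV).nr_nr hH (hnr (g • i) (g * x))
          ((famQF (π := π) hG hV).nr_smul g (hnr i x))
        have h3 := (famQF (π := π) hG hV).nr_nr hH (hnr (g • i) (g * y))
          ((famQF (π := π) hG hV).nr_smul g (hnr i y))
        have h4 := lip hHo (g * gen hG hV i ^ P.p * g⁻¹) (nr (g • i) (g * x)) (g * nr i x)
        have h5 := lip hHo (g * gen hG hV i ^ P.p * g⁻¹) (nr (g • i) (g * y)) (g * nr i y)
        have h6 : (gen hG hV (g • i)) ^ P.p = g * gen hG hV i ^ P.p * g⁻¹ := by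
          rw [gen_smul, conj_pow]
        change |(H (gen hG hV (g • i) ^ P.p) (nr (g • i) (g * x)) -
          H (gen hG hV (g • i) ^ P.p) (nr (g • i) (g * y))) -
          (H (gen hG hV i ^ P.p) (nr i x) - H (gen hG hV i ^ P.p) (nr i y))| ≤ (P.R : ℤ)
        rw [h6]
        rw [abs_le] at *
        omega
      h_rot := fun i x => by
        have e0 : gen hG hV i ^ P.p * gen hG hV i ^ P.p * (gen hG hV i ^ P.p)⁻¹ =
            gen hG hV i ^ P.p := by
          rw [mul_inv_cancel_right]
        have h0 := (famQF (π := π) hG hV).nr_smul (gen hG hV i ^ P.p) (hnr i x)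
        rw [hfix i P.p] at h0
        have h1 := (famQF (π := π) hG hV).nr_nr hH (hnr i (gen hG hV i ^ P.p * x)) h0
        have h2 := lip hHo (gen hG hV i ^ P.p) (nr i (gen hG hV i ^ P.p * x))
          (gen hG hV i ^ P.p * nr i x)
        obtain ⟨y, hy, hty⟩ := ht' i
        have h3 := ax_sign hI hV hHo (hax i) hy
        have h4 := lip hHo (gen hG hV i ^ P.p) (gen hG hV i ^ P.p * y) y
        have h5 := horo_conj hH hHo (hlox i) (gen hG hV i ^ P.p) (nr i x) y
        rw [e0] at h5
        rw [L.d_comm (gen hG hV i ^ P.p * y) y, ← hty] at h4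
        rw [← hty] at h3
        change |H (gen hG hV i ^ P.p) (nr i (gen hG hV i ^ P.p * x)) -
          H (gen hG hV i ^ P.p) (nr i x) - (t i : ℤ)| ≤ (P.R : ℤ)
        rw [abs_le] at *
        omega }
  refine ⟨W, fun i => hax i, fun i => rfl, ?_, ?_⟩
  · intro g hk hl hx
    obtain ⟨e, he, hge⟩ := exists_ax hG hV hk hl hx
    obtain ⟨m, rfl⟩ := Subgroup.mem_zpowers_iff.1 hge
    obtain ⟨i, hi⟩ := exists_gen hG hV he
    refine ⟨i, gen_ext hG hV ?_⟩
    change e ^ m * gen hG hV i * (e ^ m)⁻¹ = gen hG hV i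
    rw [hi, ← zpow_add_one, ← zpow_neg, ← zpow_add]
    have : m + 1 + -m = 1 := by ring
    rw [this, zpow_one]
  · refine iSup_le fun i => ?_
    rw [Subgroup.zpowers_le]
    exact kil_pow_p hV (hax i).kil

end Pool.Agent.Beb
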