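import Pool.Agent.Work.MP_beb559_al.QA

/-!
# Good lifts of long geodesics of the quotient, coherent lifts of elements
-/

namespace Pool.Agent.Beb

namespace Rot

variable {P : Par} {G : Type} [Group G] {L : Len G} (F : Rot P L)

/-- `x, y` is a good pair with cut `s`: all signed distances of projections avoid the cuts. -/
def Good (s : ℤ) (x y : G) : Prop := (P.L : ℤ) ≤ 8 * s ∧ 4 * s ≤ P.L ∧
  ∀ i, -s + 1000 * P.R ≤ F.h i y - F.h i x ∧ F.h i y - F.h i x ≤ F.t i - s - 1000 * P.R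

/-- A hat geodesic path: distances along the path. -/
theorem geo_path {x y : G} (v : ℕ → G) (h0 : v 0 = x) (h1 : v (F.hat.d x y) = y)
    (hv : F.Path v (F.hat.d x y)) {a b : ℕ} (hab : a ≤ b) (hb : b ≤ F.hat.d x y) :
    F.hat.d (v a) (v b) = b - a := by
  have p1 := F.path_le hv 0 a (Nat.zero_le _) (le_trans hab hb)
  have p2 := F.path_le hv a b hab hb
  have p3 := F.path_le hv b _ hb le_rfl
  rw [h0] at p1
  rw [h1] at p3
  have t1 := F.hat.d_tri x (v a) y
  have t2 := F.hat.d_tri (v a) (v b) y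
  omega

/-- GA1. Unique big edges. Along a hat geodesic `v` from `x` to `y`, if `v a, v (a+1) ∈ Y i` with
`L.d > 10 R` then the rest has small projection, so the signed projection distance is that of the
edge up to `900 R`. Proof: if `dp i x (v a) > 400 R` then `bgi` gives another edge in `Y i` before
`a`, so `v b, v (a+1) ∈ Y i` with `b < a`, contradiction with the geodesic; `h_dp`. -/
theorem edge_h (hH : L.Hyp P.D) (i : F.I) {x y : G} (v : ℕ → G) (h0 : v 0 = x)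
    (h1 : v (F.hat.d x y) = y) (hv : F.Path v (F.hat.d x y)) {a : ℕ} (ha : a < F.hat.d x y)
    (h2 : v a ∈ F.Y i) (h3 : v (a + 1) ∈ F.Y i) (h4 : 10 * P.R < L.d (v a) (v (a + 1))) :
    |(F.h i y - F.h i x) - (F.h i (v (a + 1)) - F.h i (v a))| ≤ 900 * P.R := by
  have A1 : F.dp i x (v a) ≤ 400 * P.R := by
    by_contra hc
    have e : F.hat.d x (v a) = a := by
      have := F.geo_path v h0 h1 hv (Nat.zero_le a) ha.le
      rw [h0] at this
      omega
    obtain ⟨b, hb, b1, b2, -⟩ := F.bgi hH i (not_le.1 hc) v h0 (by rw [e])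
      (fun j hj => hv j (by omega))
    have e2 := F.geo_path v h0 h1 hv (a := b) (b := a + 1) (by omega) (by omega)
    have e3 := (F.hat_le_one (v b) (v (a + 1))).2 (Or.inr ⟨i, b1, h3⟩)
    omega
  have A2 : F.dp i (v (a + 1)) y ≤ 400 * P.R := by
    by_contra hc
    have e : F.hat.d (v (a + 1)) y = F.hat.d x y - (a + 1) := by
      have := F.geo_path v h0 h1 hv (a := a + 1) (b := F.hat.d x y) (by omega) le_rfl
      rw [h1] at this
      exact this
    obtain ⟨b, hb, b1, b2, -⟩ := F.bgi hH i (not_le.1 hc) (fun j => v (a + 1 + j)) rfl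
      (by
        show v (a + 1 + F.hat.d (v (a + 1)) y) = y
        rw [e, show a + 1 + (F.hat.d x y - (a + 1)) = F.hat.d x y by omega, h1])
      (fun j hj => by
        have := hv (a + 1 + j) (by omega)
        exact this)
    have e2 := F.geo_path v h0 h1 hv (a := a) (b := a + 1 + (b + 1)) (by omega) (by omega)
    have e3 := (F.hat_le_one (v a) (v (a + 1 + (b + 1)))).2 (Or.inr ⟨i, h2, b2⟩)
    omega
  have B1 := F.h_dp i x (v a)
  have B2 := F.h_dp i (v (a + 1)) y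
  rw [abs_le] at B1 B2 ⊢
  rcases abs_cases (F.h i x - F.h i (v a)) with ⟨c1, -⟩ | ⟨c1, -⟩ <;>
  rcases abs_cases (F.h i (v (a + 1)) - F.h i y) with ⟨c2, -⟩ | ⟨c2, -⟩ <;>
  · rw [c1] at B1
    rw [c2] at B2
    constructor <;> omega

/-- The step of the values under the rotation. -/
theorem h_step (i : F.I) (x y : G) (j : ℤ) :
    |(F.h i (F.e i ^ (P.p * (j + 1)) * y) - F.h i x) -
      (F.h i (F.e i ^ (P.p * j) * y) - F.h i x) - F.t i| ≤ P.R := by
  have h := F.h_rot i (F.e i ^ (P.p * j) * y)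
  have e : F.e i ^ P.p * (F.e i ^ (P.p * j) * y) = F.e i ^ (P.p * (j + 1)) * y := by
    rw [← mul_assoc, ← zpow_natCast, ← zpow_add]
    congr 2
    ring
  rw [e] at h
  have e2 : (F.h i (F.e i ^ (P.p * (j + 1)) * y) - F.h i x) -
      (F.h i (F.e i ^ (P.p * j) * y) - F.h i x) - F.t i =
      F.h i (F.e i ^ (P.p * (j + 1)) * y) - F.h i (F.e i ^ (P.p * j) * y) - F.t i := by ring
  rw [e2]
  exact h

/-- Different values are far apart. -/
theorem h_far (i : F.I) (x y : G) (j : ℤ) (n : ℕ) :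
    (n + 1) * ((P.L : ℤ) - P.R) ≤ (F.h i (F.e i ^ (P.p * (j + (n + 1))) * y) - F.h i x) -
      (F.h i (F.e i ^ (P.p * j) * y) - F.h i x) := by
  have ht := F.t_big i
  induction n with
  | zero =>
    have h := F.h_step i x y j
    rw [abs_le] at h
    push_cast
    rw [one_mul]
    omega
  | succ n ih =>
    have h := F.h_step i x y (j + (n + 1))
    rw [abs_le] at h
    have e : j + ((n + 1 : ℕ) + 1) = j + (n + 1) + 1 := by push_cast; ring
    rw [e]
    push_cast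
    have e2 : ((n : ℤ) + 1 + 1) * ((P.L : ℤ) - P.R) =
      (n + 1) * ((P.L : ℤ) - P.R) + ((P.L : ℤ) - P.R) := by ring
    rw [e2]
    omega

/-- GA2. One edge: the values `a j = h i (e^(p j) * y) - h i x`, `j ∈ ℤ`, increase by `t i ± R`
(`h_rot`); for a cut `s` such that no value is in `[-s - 2000 R, -s + 2000 R]` some value is in
`[-s + 1990 R, t i - s - 1990 R]`: the first value `≥ -s`. -/
theorem cut_one (i : F.I) (x y : G) (s : ℤ)
    (h : ∀ j : ℤ, ¬ (|F.h i (F.e i ^ (P.p * j) * y) - F.h i x + s| ≤ 2000 * P.R)) :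
    ∃ j : ℤ, -s + 1990 * P.R ≤ F.h i (F.e i ^ (P.p * j) * y) - F.h i x ∧
      F.h i (F.e i ^ (P.p * j) * y) - F.h i x ≤ F.t i - s - 1990 * P.R := by
  obtain ⟨r1, -, r3⟩ := R_facts P
  obtain ⟨a, ha⟩ : ∃ a : ℤ → ℤ, ∀ j, a j = F.h i (F.e i ^ (P.p * j) * y) - F.h i x :=
    ⟨_, fun _ => rfl⟩
  have hst : ∀ j, |a (j + 1) - a j - F.t i| ≤ P.R := by
    intro j
    rw [ha, ha]
    exact F.h_step i x y j
  have hfar : ∀ (j : ℤ) (n : ℕ), (n : ℤ) + 1 ≤ a (j + (n + 1)) - a j := by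
    intro j n
    rw [ha, ha]
    refine le_trans ?_ (F.h_far i x y j n)
    nlinarith
  have h' : ∀ j, ¬ (|a j + s| ≤ 2000 * P.R) := by
    intro j
    rw [ha]
    exact h j
  obtain ⟨j, hj, hmin⟩ := Int.exists_least_of_bdd (P := fun j => -s ≤ a j)
    ⟨-(|a 0 + s| + 1), fun z hz => by
      by_contra hc
      obtain ⟨n, hn⟩ : ∃ n : ℕ, (n : ℤ) + 1 = -z := ⟨(-z - 1).toNat, by
        have := abs_nonneg (a 0 + s)
        omega⟩
      have h1 := hfar z n
      have e : z + (n + 1) = 0 := by omega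
      rw [e] at h1
      have h2 := le_abs_self (a 0 + s)
      omega⟩
    ⟨|a 0 + s| + 1, by
      obtain ⟨n, hn⟩ : ∃ n : ℕ, (n : ℤ) = |a 0 + s| := ⟨(|a 0 + s|).toNat, by
        have := abs_nonneg (a 0 + s)
        omega⟩
      have h1 := hfar 0 n
      rw [zero_add, hn] at h1
      have h2 := neg_abs_le (a 0 + s)
      omega⟩
  refine ⟨j, ?_, ?_⟩
  · rw [← ha]
    have h1 := h' j
    rw [abs_le] at h1
    omega
  · rw [← ha]
    have h1 := h' (j - 1)
    have h2 : ¬ (-s ≤ a (j - 1)) := fun hc => by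
      have := hmin _ hc
      omega
    have h3 := hst (j - 1)
    rw [abs_le] at h1 h3
    have e : j - 1 + 1 = j := by ring
    rw [e] at h3
    omega

/-- GA3. A cut good for finitely many edges: among the `n + 1` values `s = ⌈L/8⌉ + 5000 R * l` one is
good for `n ≤ A` given edges: each edge excludes at most one (two excluded cuts would be excluded by the
same value `a j`, as different values differ by at least `t i - R ≥ L / 2`). -/
theorem exists_cut (n : ℕ) (hn : n ≤ P.A) (i : ℕ → F.I) (x y : ℕ → G) :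
    ∃ s : ℤ, (P.L : ℤ) ≤ 8 * s ∧ 4 * s ≤ P.L ∧ ∀ a < n, ∀ j : ℤ,
      ¬ (|F.h (i a) (F.e (i a) ^ (P.p * j) * y a) - F.h (i a) (x a) + s| ≤ 2000 * P.R) := by
  obtain ⟨r1, -, r3⟩ := R_facts P
  have hL := P.hL
  have hL' : 40000 * (P.A * P.R) + 80000 * P.R ≤ P.L := by
    have e : (P.A + 2) * (40000 * P.R) = 40000 * (P.A * P.R) + 80000 * P.R := by ring
    omega
  by_contra hc
  push Not at hc
  have key : ∀ l : Fin (n + 1), ∃ a : Fin n, ∃ j : ℤ,
      |F.h (i a) (F.e (i a) ^ (P.p * j) * y a) - F.h (i a) (x a) +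
        (((P.L : ℤ) + 7) / 8 + 5000 * (P.R * (l : ℕ)))| ≤ 2000 * P.R := by
    intro l
    have hl : (l : ℕ) ≤ P.A := by have := l.2; omega
    have hRl : P.R * (l : ℕ) ≤ P.A * P.R := by
      rw [mul_comm]
      exact Nat.mul_le_mul_right P.R hl
    have hRl' : (P.R : ℤ) * ((l : ℕ) : ℤ) ≤ (P.A : ℤ) * P.R := by exact_mod_cast hRl
    have hRl0 : (0 : ℤ) ≤ (P.R : ℤ) * ((l : ℕ) : ℤ) := by positivity
    have hLz : 40000 * ((P.A : ℤ) * P.R) + 80000 * P.R ≤ P.L := by exact_mod_cast hL'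
    obtain ⟨a, ha, j, hj⟩ := hc (((P.L : ℤ) + 7) / 8 + 5000 * (P.R * (l : ℕ))) (by omega) (by omega)
    exact ⟨⟨a, ha⟩, j, hj⟩
  choose f g hfg using key
  obtain ⟨l, l', hne, he⟩ := Fintype.exists_ne_map_eq_of_card_lt f (by simp)
  have h1 := hfg l
  have h2 := hfg l'
  rw [he] at h1
  have hl : (l : ℕ) ≤ P.A := by have := l.2; omega
  have hl' : (l' : ℕ) ≤ P.A := by have := l'.2; omega
  have hLz : 40000 * ((P.A : ℤ) * P.R) + 80000 * P.R ≤ P.L := by exact_mod_cast hL'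
  have hne' : (l : ℕ) ≠ (l' : ℕ) := fun h => hne (Fin.ext h)
  have hR0 : (0 : ℤ) < P.R := by exact_mod_cast r1
  have hd1 : |((P.R : ℤ) * ((l : ℕ) : ℤ)) - (P.R : ℤ) * ((l' : ℕ) : ℤ)| ≤ (P.A : ℤ) * P.R := by
    rw [← mul_sub, abs_mul, abs_of_pos hR0, mul_comm]
    refine mul_le_mul_of_nonneg_right ?_ hR0.le
    rw [abs_le]
    constructor <;> omega
  have hd2 : (P.R : ℤ) ≤ |((P.R : ℤ) * ((l : ℕ) : ℤ)) - (P.R : ℤ) * ((l' : ℕ) : ℤ)| := by
    rw [← mul_sub, abs_mul, abs_of_pos hR0]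
    have : 1 ≤ |((l : ℕ) : ℤ) - ((l' : ℕ) : ℤ)| := by
      apply Int.one_le_abs
      omega
    nlinarith
  rw [abs_le] at h1 h2 hd1
  rcases lt_trichotomy (g l) (g l') with hg | hg | hg
  · obtain ⟨m, hm⟩ : ∃ m : ℕ, g l' = g l + (m + 1) := ⟨(g l' - g l - 1).toNat, by omega⟩
    have h3 := F.h_far (i (f l')) (x (f l')) (y (f l')) (g l) m
    rw [← hm] at h3
    have h4 : ((P.L : ℤ) - P.R) ≤ (m + 1) * ((P.L : ℤ) - P.R) := by nlinarith
    omega
  · rw [hg] at h1
    rcases abs_cases (((P.R : ℤ) * ((l : ℕ) : ℤ)) - (P.R : ℤ) * ((l' : ℕ) : ℤ)) with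
      ⟨c1, -⟩ | ⟨c1, -⟩ <;>
    · rw [c1] at hd2
      omega
  · obtain ⟨m, hm⟩ : ∃ m : ℕ, g l = g l' + (m + 1) := ⟨(g l - g l' - 1).toNat, by omega⟩
    have h3 := F.h_far (i (f l')) (x (f l')) (y (f l')) (g l') m
    rw [← hm] at h3
    have h4 : ((P.L : ℤ) - P.R) ≤ (m + 1) * ((P.L : ℤ) - P.R) := by nlinarith
    omega

end Rot

end Pool.Agent.Beb
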