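import Pool.Agent.Work.MP_beb559_al.GA

/-!
# Good pairs: distances between points of a good geodesic survive
-/

namespace Pool.Agent.Beb

namespace Rot

variable {P : Par} {G : Type} [Group G] {L : Len G} (F : Rot P L)

/-- GA5. -/
theorem good_dp (hH : L.Hyp P.D) {s : ℤ} {x y : G} (h : F.Good s x y) (i : F.I) :
    8 * F.dp i x y + P.L ≤ 8 * F.t i := by
  have _ := hH
  obtain ⟨h1, h2, h3⟩ := h
  have h4 := h3 i
  have h5 := F.h_dp i x y
  have h6 := F.t_big i
  have hxy : |F.h i x - F.h i y| = |F.h i y - F.h i x| := abs_sub_comm _ _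
  rw [hxy, abs_le] at h5
  have h7 : |F.h i y - F.h i x| ≤ max (s - 1000 * P.R) (F.t i - s - 1000 * P.R) := by
    rw [abs_le]
    constructor
    · have := le_max_left (s - 1000 * (P.R : ℤ)) (F.t i - s - 1000 * P.R)
      omega
    · have := le_max_right (s - 1000 * (P.R : ℤ)) (F.t i - s - 1000 * P.R)
      omega
  rcases max_cases (s - 1000 * (P.R : ℤ)) (F.t i - s - 1000 * P.R) with h8 | h8
  · omega
  · omega

/-- GA6. Distances between points of a good geodesic survive. -/
theorem good_btw (hH : L.Hyp P.D) {s : ℤ} {x y w w' : G} (h : F.Good s x y)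
    (hw : L.Btw x w y) (hw' : L.Btw x w' y) :
    F.dq.d (QuotientGroup.mk w) (QuotientGroup.mk w') = F.hat.d w w' := by
  refine F.dq_eq hH fun i => ?_
  have h1 := F.good_dp hH h i
  have h2 := F.dp_btw hH i hw hw'
  have h3 : 80000 * P.R ≤ P.L := by
    have h4 := P.hL
    have h5 : 2 * (40000 * P.R) ≤ (P.A + 2) * (40000 * P.R) := Nat.mul_le_mul_right _ (by omega)
    omega
  omega

end Rot

end Pool.Agent.Beb
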