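import Pool.Agent.Work.MP_beb559_al.GA

/-!
# Coherent lifts of elements, lifts of points between
-/

namespace Pool.Agent.Beb

namespace Rot

variable {P : Par} {G : Type} [Group G] {L : Len G} (F : Rot P L)

/-- The signed projection distance of a translate of a good pair. -/
theorem good_smul3 {s : ℤ} {x y : G} (h : F.Good s x y) (g : G) (i : F.I) :
    -s + 999 * P.R ≤ F.h i (g * y) - F.h i (g * x) ∧
      F.h i (g * y) - F.h i (g * x) ≤ F.t i - s - 999 * P.R := by
  obtain ⟨h1, h2, h3⟩ := h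
  have h4 := h3 (g⁻¹ • i)
  have h5 := F.h_smul g (g⁻¹ • i) y x
  rw [smul_inv_smul] at h5
  have h6 := F.t_smul g⁻¹ i
  rw [h6] at h4
  rw [abs_le] at h5
  omega

/-- The signed projection distance is bounded by `dp`. -/
theorem h_le3 {i : F.I} {x y : G} (h : ¬ 400 * P.R < F.dp i x y) :
    |F.h i y - F.h i x| ≤ 401 * P.R := by
  have h1 := F.h_dp i x y
  rw [abs_sub_comm (F.h i x) (F.h i y), abs_le] at h1
  omega

theorem mk_mul_K3 {k g : G} (hk : k ∈ F.K) :
    (QuotientGroup.mk (k * g) : G ⧸ F.K) = QuotientGroup.mk g := by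
  rw [QuotientGroup.mk_mul, (QuotientGroup.eq_one_iff k).2 hk, one_mul]

theorem coherent_aux3 (hH : L.Hyp P.D) {s : ℤ} {x y : G} (h : F.Good s x y) (g₀ : G) (N₁ N₂ : ℕ)
    {k : G} (hk : F.Red x k) : ∀ g : G, (QuotientGroup.mk g : G ⧸ F.K) = QuotientGroup.mk g₀ →
      F.hat.d x (g * x) ≤ N₁ → F.hat.d (g * y) (k * y) ≤ N₂ →
      ∃ g : G, (QuotientGroup.mk g : G ⧸ F.K) = QuotientGroup.mk g₀ ∧
        F.hat.d x (g * x) ≤ N₁ ∧ F.hat.d y (g * y) ≤ N₂ := by
  induction hk with
  | one =>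
    intro g h1 h2 h3
    refine ⟨g, h1, h2, ?_⟩
    rw [one_mul] at h3
    rw [F.hat.d_comm]
    exact h3
  | step i j k hdp _ ih =>
    intro g h1 h2 h3
    have hfix := F.e_zpow_smul i (P.p * j)
    by_cases c1 : 400 * P.R < F.dp i x (g * x)
    · refine ih (F.e i ^ ((P.p : ℤ) * j) * g) ?_ ?_ ?_
      · rw [F.mk_mul_K3 (F.mem_K i j), h1]
      · rw [mul_assoc]
        exact (F.hat_rot hH i c1 hfix).trans h2
      · rw [mul_assoc, mul_assoc, F.hat.d_smul]
        exact h3
    · by_cases c2 : 400 * P.R < F.dp i (g * y) (k * y)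
      · refine ih g h1 h2 ?_
        rw [mul_assoc]
        exact (F.hat_rot hH i c2 hfix).trans h3
      · exfalso
        have a1 := F.h_le3 c1
        have a2 := F.h_le3 c2
        have a3 := F.good_smul3 h g i
        have a4 := F.good_smul3 h k i
        have a5 := F.h_dp i x (k * x)
        rw [abs_le] at a1 a2 a5
        have hR : 0 < P.R := by
          have := P.hD
          have := P.hT0
          have := P.hT3
          have := P.hA
          have := P.hR1
          have := P.hR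
          omega
        rcases abs_cases (F.h i x - F.h i (k * x)) with h8 | h8
        · omega
        · omega

/-- GA7. Coherent lifts. -/
theorem coherent (hH : L.Hyp P.D) {s : ℤ} {x y : G} (h : F.Good s x y) (g₀ : G) :
    ∃ g : G, (QuotientGroup.mk g : G ⧸ F.K) = QuotientGroup.mk g₀ ∧
      F.hat.d x (g * x) ≤ F.dq.d (QuotientGroup.mk x)
        (QuotientGroup.mk g₀ * QuotientGroup.mk x) ∧
      F.hat.d y (g * y) ≤ F.dq.d (QuotientGroup.mk y)
        (QuotientGroup.mk g₀ * QuotientGroup.mk y) := by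
  obtain ⟨k₁, hk₁, e1⟩ := F.exists_dq x (g₀ * x)
  rw [QuotientGroup.mk_mul] at e1
  obtain ⟨k, hk, e2⟩ := F.exists_dq (k₁ * g₀ * y) y
  have e3 : (QuotientGroup.mk (k₁ * g₀) : G ⧸ F.K) = QuotientGroup.mk g₀ := F.mk_mul_K3 hk₁
  refine F.coherent_aux3 hH h g₀ _ _ (F.red hH x k hk) (k₁ * g₀) e3 ?_ ?_
  · rw [mul_assoc, e1]
  · rw [e2, QuotientGroup.mk_mul F.K (k₁ * g₀) y, e3, F.dq.d_comm]

theorem lift_aux3 (hH : L.Hyp P.D) {s : ℤ} {x y : G} (h : F.Good s x y) (q : G ⧸ F.K) (N₁ N₂ : ℕ)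
    {k : G} (hk : F.Red x k) : ∀ z : G, (QuotientGroup.mk z : G ⧸ F.K) = q →
      F.hat.d x z ≤ N₁ → F.hat.d z (k * y) ≤ N₂ →
      ∃ z : G, (QuotientGroup.mk z : G ⧸ F.K) = q ∧
        F.hat.d x z ≤ N₁ ∧ F.hat.d z y ≤ N₂ := by
  induction hk with
  | one =>
    intro z h1 h2 h3
    refine ⟨z, h1, h2, ?_⟩
    rw [one_mul] at h3
    exact h3
  | step i j k hdp _ ih =>
    intro z h1 h2 h3
    have hfix := F.e_zpow_smul i (P.p * j)
    by_cases c1 : 400 * P.R < F.dp i x z
    · refine ih (F.e i ^ ((P.p : ℤ) * j) * z) ?_ ?_ ?_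
      · rw [F.mk_mul_K3 (F.mem_K i j), h1]
      · exact (F.hat_rot hH i c1 hfix).trans h2
      · rw [mul_assoc, F.hat.d_smul]
        exact h3
    · by_cases c2 : 400 * P.R < F.dp i z (k * y)
      · refine ih z h1 h2 ?_
        rw [mul_assoc]
        exact (F.hat_rot hH i c2 hfix).trans h3
      · exfalso
        have a1 := F.h_le3 c1
        have a2 := F.h_le3 c2
        have a4 := F.good_smul3 h k i
        have a5 := F.h_dp i x (k * x)
        obtain ⟨s1, s2, -⟩ := h
        have ht := F.t_big i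
        rw [abs_le] at a1 a2 a5
        have h3 : 80000 * P.R ≤ P.L := by
          have h4 := P.hL
          have h5 : 2 * (40000 * P.R) ≤ (P.A + 2) * (40000 * P.R) :=
            Nat.mul_le_mul_right _ (by omega)
          omega
        have hR : 0 < P.R := by
          have := P.hD
          have := P.hT0
          have := P.hT3
          have := P.hA
          have := P.hR1
          have := P.hR
          omega
        rcases abs_cases (F.h i x - F.h i (k * x)) with h8 | h8
        · omega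
        · omega

/-- GA8. Points between. -/
theorem lift_btw (hH : L.Hyp P.D) {s : ℤ} {x y : G} (h : F.Good s x y) (q : G ⧸ F.K)
    (hq : F.dq.Btw (QuotientGroup.mk x) q (QuotientGroup.mk y))
    (hxy : F.hat.d x y = F.dq.d (QuotientGroup.mk x) (QuotientGroup.mk y)) :
    ∃ z : G, QuotientGroup.mk z = q ∧ F.hat.d x z = F.dq.d (QuotientGroup.mk x) q ∧
      F.hat.d z y = F.dq.d q (QuotientGroup.mk y) := by
  have _ := hq
  have _ := hxy
  obtain ⟨z₀, hz₀, e1⟩ := F.exists_dq' x q
  obtain ⟨k, hk, e2⟩ := F.exists_dq z₀ y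
  rw [hz₀] at e2
  obtain ⟨z, h1, h2, h3⟩ := F.lift_aux3 hH h q (F.dq.d (QuotientGroup.mk x) q)
    (F.dq.d q (QuotientGroup.mk y)) (F.red hH x k hk) z₀ hz₀ e1.le e2.le
  refine ⟨z, h1, le_antisymm h2 ?_, le_antisymm h3 ?_⟩
  · have h4 := F.dq_le x z (one_mem F.K)
    rw [one_mul, h1] at h4
    exact h4
  · have h4 := F.dq_le z y (one_mem F.K)
    rw [one_mul, h1] at h4
    exact h4

end Rot

end Pool.Agent.Beb
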