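import Pool.Agent.Work.MP_beb559_al.GA

/-!
# Good lifts exist
-/

namespace Pool.Agent.Beb

namespace Rot

variable {P : Par} {G : Type} [Group G] {L : Len G} (F : Rot P L)

private theorem ga4_R (P : Par) : 1 ≤ P.R ∧ 40000 * P.R ≤ P.L := by
  have c1 := P.hD
  have c2 := P.hT0
  have c3 := P.hT3
  have c4 := P.hA
  have c5 := P.hR1
  have c6 := P.hR
  have c7 := P.hL
  refine ⟨by omega, le_trans ?_ c7⟩
  exact Nat.le_mul_of_pos_left _ (by omega)

/-- The case of an empty family. -/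
private theorem ga4_triv (q r : G ⧸ F.K) (hI : F.I → False) :
    ∃ (x y : G) (s : ℤ), QuotientGroup.mk x = q ∧ QuotientGroup.mk y = r ∧
      F.hat.d x y = F.dq.d q r ∧ F.Good s x y := by
  obtain ⟨x, rfl⟩ := QuotientGroup.mk_surjective q
  obtain ⟨y, h1, h2⟩ := F.exists_dq' x r
  obtain ⟨c1, c2⟩ := ga4_R P
  refine ⟨x, y, ((P.L / 4 : ℕ) : ℤ), rfl, h1, h2, ?_, ?_, fun i => (hI i).elim⟩
  · omega
  · omega

/-- GA4. Good lifts exist. -/
theorem exists_good (hH : L.Hyp P.D) (q r : G ⧸ F.K) (h : F.dq.d q r ≤ P.A) :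
    ∃ (x y : G) (s : ℤ), QuotientGroup.mk x = q ∧ QuotientGroup.mk y = r ∧
      F.hat.d x y = F.dq.d q r ∧ F.Good s x y := by
  classical
  by_cases hI : Nonempty F.I
  swap
  · exact F.ga4_triv q r (fun i => hI ⟨i⟩)
  obtain ⟨i₀⟩ := hI
  obtain ⟨cR, cL⟩ := ga4_R P
  obtain ⟨x₀, rfl⟩ := QuotientGroup.mk_surjective q
  obtain ⟨y₀, hy₀, hd⟩ := F.exists_dq' x₀ r
  obtain ⟨v, v0, vn, hv⟩ := F.exists_path x₀ y₀
  obtain ⟨n, hn⟩ : ∃ n, n = F.dq.d (QuotientGroup.mk x₀) r := ⟨_, rfl⟩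
  rw [hd, ← hn] at vn hv
  rw [← hn] at h
  -- the axes of the edges
  have hi : ∀ a : ℕ, ∃ i : F.I, a < n → 10 * P.R < L.d (v a) (v (a + 1)) →
      v a ∈ F.Y i ∧ v (a + 1) ∈ F.Y i := by
    intro a
    by_cases hc : a < n ∧ 10 * P.R < L.d (v a) (v (a + 1))
    · rcases (F.hat_le_one _ _).1 (hv a hc.1) with h1 | ⟨i, h1, h2⟩
      · exfalso
        have := hc.2
        omega
      · exact ⟨i, fun _ _ => ⟨h1, h2⟩⟩
    · exact ⟨i₀, fun h1 h2 => (hc ⟨h1, h2⟩).elim⟩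
  choose i hi using hi
  obtain ⟨s, hs1, hs2, hs3⟩ := F.exists_cut n h i v (fun a => v (a + 1))
  have hj : ∀ a : ℕ, ∃ j : ℤ, a < n →
      (10 * P.R < L.d (v a) (v (a + 1)) →
        -s + 1990 * P.R ≤ F.h (i a) (F.e (i a) ^ (P.p * j) * v (a + 1)) - F.h (i a) (v a) ∧
        F.h (i a) (F.e (i a) ^ (P.p * j) * v (a + 1)) - F.h (i a) (v a) ≤
          F.t (i a) - s - 1990 * P.R) ∧
      (¬ 10 * P.R < L.d (v a) (v (a + 1)) → j = 0) := by
    intro a
    by_cases hc : a < n ∧ 10 * P.R < L.d (v a) (v (a + 1))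
    · obtain ⟨j, hj1, hj2⟩ := F.cut_one (i a) (v a) (v (a + 1)) s (hs3 a hc.1)
      exact ⟨j, fun _ => ⟨fun _ => ⟨hj1, hj2⟩, fun h2 => (h2 hc.2).elim⟩⟩
    · exact ⟨0, fun h1 => ⟨fun h2 => (hc ⟨h1, h2⟩).elim, fun _ => rfl⟩⟩
  choose j hj using hj
  -- the turning elements
  let g : ℕ → G := fun a => Nat.rec 1 (fun b gb => gb * F.e (i b) ^ (P.p * j b)) a
  have g0 : g 0 = 1 := rfl
  have gs : ∀ a, g (a + 1) = g a * F.e (i a) ^ (P.p * j a) := fun a => rfl
  have gK : ∀ a, g a ∈ F.K := by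
    intro a
    induction a with
    | zero => rw [g0]; exact one_mem _
    | succ a ih => rw [gs]; exact mul_mem ih (F.mem_K _ _)
  have gmk : ∀ a z, (QuotientGroup.mk (g a * z) : G ⧸ F.K) = QuotientGroup.mk z := by
    intro a z
    rw [QuotientGroup.mk_mul, (QuotientGroup.eq_one_iff _).2 (gK a), one_mul]
  obtain ⟨w, hw⟩ : ∃ w : ℕ → G, ∀ a, w a = g a * v a := ⟨_, fun a => rfl⟩
  have hws : ∀ a, w (a + 1) = g a * (F.e (i a) ^ (P.p * j a) * v (a + 1)) := by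
    intro a
    rw [hw, gs, mul_assoc]
  have hYe : ∀ a z, z ∈ F.Y (i a) → F.e (i a) ^ (P.p * j a) * z ∈ F.Y (i a) := by
    intro a z hz
    have h1 := F.smul (F.e (i a) ^ (P.p * j a)) _ _ hz
    rwa [F.e_zpow_smul] at h1
  have hwpath : F.Path w n := by
    intro a ha
    rw [hws, hw, F.hat.d_smul]
    by_cases hc : 10 * P.R < L.d (v a) (v (a + 1))
    · obtain ⟨h1, h2⟩ := hi a ha hc
      exact (F.hat_le_one _ _).2 (Or.inr ⟨i a, h1, hYe a _ h2⟩)
    · have h1 := (hj a ha).2 hc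
      rw [h1, mul_zero, zpow_zero, one_mul]
      exact hv a ha
  have hq0 : (QuotientGroup.mk (w 0) : G ⧸ F.K) = QuotientGroup.mk x₀ := by
    rw [hw, gmk, v0]
  have hqn : (QuotientGroup.mk (w n) : G ⧸ F.K) = r := by
    rw [hw, gmk, vn, hy₀]
  have hdn : F.hat.d (w 0) (w n) = n := by
    apply le_antisymm
    · have := F.path_le hwpath 0 n (Nat.zero_le _) le_rfl
      omega
    · have h1 := F.dq_le (w 0) (w n) (one_mem F.K)
      rw [one_mul, hq0, hqn, ← hn] at h1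
      exact h1
  refine ⟨w 0, w n, s, hq0, hqn, by rw [hdn, hn], hs1, hs2, ?_⟩
  intro i'
  by_cases hbig : 400 * P.R < F.dp i' (w 0) (w n)
  · obtain ⟨a, ha, h1, h2, h3⟩ := F.bgi hH i' hbig w rfl (by rw [hdn]) (by rw [hdn]; exact hwpath)
    rw [hdn] at ha
    have hc : 10 * P.R < L.d (v a) (v (a + 1)) := by
      by_contra hc
      have h4 := (hj a ha).2 hc
      rw [hws, hw, L.d_smul, h4, mul_zero, zpow_zero, one_mul] at h3
      exact hc h3
    obtain ⟨h5, h6⟩ := hi a ha hc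
    have h7 : w a ∈ F.Y (g a • i a) := by
      rw [hw]
      exact F.smul _ _ _ h5
    have h8 : w (a + 1) ∈ F.Y (g a • i a) := by
      rw [hws]
      exact F.smul _ _ _ (hYe a _ h6)
    have h9 : i' = g a • i a := by
      by_contra hne
      have h10 := F.ov i' (g a • i a) hne (w a) (w (a + 1)) ⟨_, h1, by rw [L.d_self]; omega⟩
        ⟨_, h7, by rw [L.d_self]; omega⟩ ⟨_, h2, by rw [L.d_self]; omega⟩
        ⟨_, h8, by rw [L.d_self]; omega⟩
      omega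
    have h11 := F.edge_h hH i' w rfl (by rw [hdn]) (by rw [hdn]; exact hwpath)
      (by rw [hdn]; exact ha) h1 h2 h3
    have h12 := F.h_smul (g a) (i a) (F.e (i a) ^ (P.p * j a) * v (a + 1)) (v a)
    rw [← h9, ← hws, ← hw] at h12
    obtain ⟨h13, h14⟩ := (hj a ha).1 hc
    have h15 : F.t i' = F.t (i a) := by rw [h9, F.t_smul]
    rw [h15]
    have h16 := abs_le.1 h11
    have h17 := abs_le.1 h12
    constructor
    · linarith [h16.1, h16.2, h17.1, h17.2]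
    · linarith [h16.1, h16.2, h17.1, h17.2]
  · have h1 := F.h_dp i' (w n) (w 0)
    have h2 := F.dp_symm i' (w 0) (w n)
    have h3 := F.t_big i'
    have h4 := abs_le.1 h1
    have h5 : |F.h i' (w n) - F.h i' (w 0)| ≤ 401 * P.R := by omega
    have h6 := abs_le.1 h5
    constructor <;> omega

end Rot

end Pool.Agent.Beb
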