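import Pool.Agent.Work.MP_beb559_al.PA

/-!
# The hat metric
-/

namespace Pool.Agent.Beb

namespace QF

variable {P : Par} {G : Type} [Group G] {L : Len G} (F : QF P L)

/-- HA1. Hint: `Len.gen_le_iff` with `n = 1`; `S` is symmetric; if `x⁻¹ * y = a⁻¹ * b` use `smul`
with `g = x * a⁻¹`. -/
theorem hat_le_one (x y : G) : F.hat.d x y ≤ 1 ↔ L.d x y ≤ P.R ∨ ∃ i, x ∈ F.Y i ∧ y ∈ F.Y i := by
  have key : ∀ s : G, s = x⁻¹ * y → ∀ i, ∀ a ∈ F.Y i, ∀ b ∈ F.Y i, s = a⁻¹ * b →
      ∃ i, x ∈ F.Y i ∧ y ∈ F.Y i := by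
    intro s hs i a ha b hb hab
    refine ⟨(x * a⁻¹) • i, ?_, ?_⟩
    · have h := F.smul (x * a⁻¹) i a ha
      rwa [inv_mul_cancel_right] at h
    · have h := F.smul (x * a⁻¹) i b hb
      have e : x * a⁻¹ * b = y := by
        rw [mul_assoc, ← hab, hs, mul_inv_cancel_left]
      rwa [e] at h
  constructor
  · intro h
    obtain ⟨w, h1, h2, h3⟩ := (Len.gen_le_iff F.closure_S (x⁻¹ * y) 1).1 h
    rcases w with _ | ⟨s, w⟩
    · left
      have h4 : x⁻¹ * y = 1 := by rw [← h3]; rfl
      unfold Len.d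
      rw [h4, L.one]
      exact Nat.zero_le _
    · have hw : w = [] := by
        apply List.length_eq_zero_iff.1
        simp only [List.length_cons] at h1
        omega
      subst hw
      have hs : s = x⁻¹ * y := by simpa using h3
      rcases h2 s (by simp) with h4 | h4
      · rcases h4 with h4 | ⟨i, a, ha, b, hb, hab⟩
        · left
          unfold Len.d
          rw [← hs]
          exact h4
        · right
          exact key s hs i a ha b hb hab
      · rcases h4 with h4 | ⟨i, a, ha, b, hb, hab⟩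
        · left
          unfold Len.d
          rw [← hs, ← L.inv]
          exact h4
        · right
          refine key s hs i b hb a ha ?_
          have : s = (s⁻¹)⁻¹ := (inv_inv s).symm
          rw [this, hab]
          group
  · intro h
    refine (Len.gen_le_iff F.closure_S (x⁻¹ * y) 1).2 (Len.Rch.of_mem ?_)
    rcases h with h | ⟨i, hx, hy⟩
    · exact Or.inl h
    · exact Or.inr ⟨i, x, hx, y, hy, rfl⟩

theorem hat_le_one' {x y : G} (h : L.d x y ≤ P.R) : F.hat.d x y ≤ 1 :=
  (F.hat_le_one x y).2 (Or.inl h)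

/-- HA2. Hint: induction on `n`, `L.d_interp`. -/
theorem hat_le (x y : G) (n : ℕ) (h : L.d x y ≤ P.R * n) : F.hat.d x y ≤ n := by
  induction n generalizing x with
  | zero =>
    have h1 : x = y := L.eq_of_d (by omega)
    rw [h1, F.hat.d_self]
  | succ n ih =>
    rw [Nat.mul_succ] at h
    by_cases hR : L.d x y ≤ P.R
    · have := F.hat_le_one' hR
      omega
    · obtain ⟨z, h1, h2⟩ := L.d_interp x y P.R (by omega)
      have h3 := ih z (by omega)
      have h4 := F.hat_le_one' (x := x) (y := z) (by omega)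
      have h5 := F.hat.d_tri x z y
      omega

/-- Paths in the hat metric. -/
def Path (v : ℕ → G) (n : ℕ) : Prop := ∀ i < n, F.hat.d (v i) (v (i + 1)) ≤ 1

theorem exists_path_aux (n : ℕ) : ∀ x y : G, F.hat.d x y = n → ∃ v : ℕ → G, v 0 = x ∧ v n = y ∧
    F.Path v n := by
  induction n with
  | zero =>
    intro x y h
    exact ⟨fun _ => x, rfl, F.hat.eq_of_d h, fun i hi => absurd hi (Nat.not_lt_zero i)⟩
  | succ n ih =>
    intro x y h
    obtain ⟨z, h1, h2⟩ := F.hat.d_interp x y 1 (by omega)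
    obtain ⟨v, v0, vn, hv⟩ := ih z y (by omega)
    refine ⟨fun k => if k = 0 then x else v (k - 1), by simp, by simpa using vn, ?_⟩
    intro i hi
    rcases i with _ | i
    · simpa [v0] using h1.le
    · simpa using hv i (by omega)

theorem exists_path (x y : G) : ∃ v : ℕ → G, v 0 = x ∧ v (F.hat.d x y) = y ∧
    F.Path v (F.hat.d x y) := F.exists_path_aux _ x y rfl

theorem path_le {v : ℕ → G} {n : ℕ} (h : F.Path v n) (i j : ℕ) (hij : i ≤ j) (hj : j ≤ n) :
    F.hat.d (v i) (v j) ≤ j - i := by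
  induction j, hij using Nat.le_induction with
  | base => rw [F.hat.d_self]; omega
  | succ j hij ih =>
    have h1 := ih (by omega)
    have h2 := h j (by omega)
    have h3 := F.hat.d_tri (v i) (v j) (v (j + 1))
    omega

/-- Concatenation of paths. -/
theorem path_append {u w : ℕ → G} {m n : ℕ} (hu : F.Path u m) (hw : F.Path w n)
    (h : u m = w 0) : ∃ v : ℕ → G, F.Path v (m + n) ∧ v 0 = u 0 ∧ v (m + n) = w n ∧
      ∀ i ≤ m + n, (∃ j ≤ m, v i = u j) ∨ (∃ j ≤ n, v i = w j) := by
  refine ⟨fun i => if i ≤ m then u i else w (i - m), ?_, by simp, ?_, ?_⟩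
  · intro i hi
    rcases lt_trichotomy i m with h1 | h1 | h1
    · simp only [h1.le, Nat.succ_le_iff.2 h1, if_true]
      exact hu i h1
    · subst h1
      simp only [le_refl, if_true]
      rw [if_neg (by omega), h]
      have := hw 0 (by omega)
      simpa using this
    · have h2 : ¬ i ≤ m := by omega
      have h3 : ¬ i + 1 ≤ m := by omega
      simp only [h2, h3, if_false]
      have := hw (i - m) (by omega)
      rwa [show i - m + 1 = i + 1 - m by omega] at this
  · dsimp only
    by_cases h1 : n = 0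
    · subst h1
      rw [if_pos (by omega)]
      simpa using h
    · rw [if_neg (by omega)]
      congr 1
      omega
  · intro i hi
    by_cases h1 : i ≤ m
    · exact Or.inl ⟨i, h1, if_pos h1⟩
    · exact Or.inr ⟨i - m, by omega, if_neg h1⟩

/-- Pieces of paths, in both directions. -/
theorem sub_path {v : ℕ → G} {N : ℕ} (hv : F.Path v N) {a b : ℕ} (ha : a ≤ N) (hb : b ≤ N) :
    ∃ w : ℕ → G, F.Path w ((a - b) + (b - a)) ∧ w 0 = v a ∧ w ((a - b) + (b - a)) = v b ∧
      ∀ i ≤ (a - b) + (b - a), ∃ j ≤ N, w i = v j := by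
  rcases le_total a b with h | h
  · refine ⟨fun i => v (a + i), ?_, rfl, ?_, ?_⟩
    · intro i hi
      exact hv (a + i) (by omega)
    · dsimp only
      congr 1
      omega
    · intro i hi
      exact ⟨a + i, by omega, rfl⟩
  · refine ⟨fun i => v (a - i), ?_, rfl, ?_, ?_⟩
    · intro i hi
      have h1 := hv (a - (i + 1)) (by omega)
      rw [show a - (i + 1) + 1 = a - i by omega] at h1
      rw [F.hat.d_comm]
      exact h1
    · dsimp only
      congr 1
      omega
    · intro i hi
      exact ⟨a - i, by omega, rfl⟩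

/-- HA3. Logarithmic estimate: every point `z` between the ends of a path with `n ≤ 2^k` edges is at
hat distance at most `k + 2` from the path. Proof: induction on `k`. `k = 0`: one edge: length
`≤ P.R`: distance `≤ 1`; edge in `Y i`: `qc`, distance `≤ 2`. Step: `thin` for the middle vertex
(`2 D ≤ R`, so hat distance `≤ 1`). -/
theorem log_path (hH : L.Hyp P.D) (k : ℕ) : ∀ (v : ℕ → G) (n : ℕ), n ≤ 2 ^ k → F.Path v n →
    ∀ z, L.Btw (v 0) z (v n) → ∃ i ≤ n, F.hat.d z (v i) ≤ k + 2 := by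
  have c1 := P.hD
  have c2 := P.hT0
  have c3 := P.hT3
  have c4 := P.hA
  have c5 := P.hR1
  have c6 := P.hR
  induction k with
  | zero =>
    intro v n hn hv z hz
    rw [pow_zero] at hn
    refine ⟨0, Nat.zero_le _, ?_⟩
    rcases Nat.eq_zero_or_pos n with h0 | h0
    · subst h0
      have h1 : v 0 = z := by
        apply L.eq_of_d
        unfold Len.Btw at hz
        rw [L.d_self] at hz
        omega
      rw [h1, F.hat.d_self]
      omega
    · have h1 : n = 1 := by omega
      subst h1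
      rcases (F.hat_le_one _ _).1 (hv 0 (by omega)) with h2 | ⟨i, h2, h3⟩
      · have h4 : F.hat.d z (v 0) ≤ 1 := by
          apply F.hat_le_one'
          rw [L.d_comm]
          unfold Len.Btw at hz
          simp only [zero_add] at h2
          omega
        omega
      · obtain ⟨w, hw, hzw⟩ := F.qc i _ h2 _ h3 z (by simpa using hz)
        have h4 : F.hat.d z w ≤ 1 := F.hat_le_one' (by omega)
        have h5 : F.hat.d w (v 0) ≤ 1 := (F.hat_le_one _ _).2 (Or.inr ⟨i, hw, h2⟩)
        have h6 := F.hat.d_tri z w (v 0)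
        omega
  | succ k ih =>
    intro v n hn hv z hz
    rw [pow_succ] at hn
    obtain ⟨z', hz', hd⟩ := thin L hH (v (n / 2)) hz
    have h1 : F.hat.d z z' ≤ 1 := F.hat_le_one' (by omega)
    rcases hz' with hz' | hz'
    · obtain ⟨i, hi, h2⟩ := ih v (n / 2) (by omega) (fun i hi => hv i (by omega)) z' hz'
      refine ⟨i, by omega, ?_⟩
      have h3 := F.hat.d_tri z z' (v i)
      omega
    · obtain ⟨i, hi, h2⟩ := ih (fun i => v (n / 2 + i)) (n - n / 2) (by omega)
        (fun i hi => hv (n / 2 + i) (by omega)) z' (by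
          rwa [Nat.add_zero, show n / 2 + (n - n / 2) = n by omega])
      refine ⟨n / 2 + i, by omega, ?_⟩
      have h3 := F.hat.d_tri z z' (v (n / 2 + i))
      omega

theorem hat_interp_aux (z : G) (n : ℕ) (m : ℕ) : ∀ y : G, L.d z y = m → n ≤ F.hat.d z y →
    ∃ w, L.Btw z w y ∧ F.hat.d z w = n := by
  have c1 := P.hD
  have c2 := P.hT0
  have c3 := P.hT3
  have c4 := P.hA
  have c5 := P.hR1
  have c6 := P.hR
  induction m with
  | zero =>
    intro y hy hn
    have h1 : z = y := L.eq_of_d hy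
    subst h1
    rw [F.hat.d_self] at hn
    refine ⟨z, ?_, ?_⟩
    · unfold Len.Btw
      rw [L.d_self]
    · rw [F.hat.d_self]
      omega
  | succ m ih =>
    intro y hy hn
    by_cases he : F.hat.d z y = n
    · refine ⟨y, ?_, he⟩
      unfold Len.Btw
      rw [L.d_self]
      rfl
    · obtain ⟨y', h1, h2⟩ := L.d_interp z y m (by omega)
      have h3 : F.hat.d y' y ≤ 1 := F.hat_le_one' (by omega)
      have h4 := F.hat.d_tri z y' y
      obtain ⟨w, hw, hw'⟩ := ih y' h1 (by omega)
      refine ⟨w, ?_, hw'⟩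
      have h5 := L.d_tri w y' y
      have h6 := L.d_tri z w y
      unfold Len.Btw at hw ⊢
      omega

/-- HA3'. Moving along a geodesic, the hat distance changes by at most one each step. Hint:
discrete continuity along `L.d_interp`. -/
theorem hat_interp {x y z : G} (_hz : L.Btw x z y) (n : ℕ) (hn : n ≤ F.hat.d z y) :
    ∃ w, L.Btw z w y ∧ F.hat.d z w = n := F.hat_interp_aux z n _ y rfl hn

theorem btw_left {x z z1 y : G} (hz : L.Btw x z y) (h1 : L.Btw x z1 z) : L.Btw x z1 y := by
  have h2 := L.d_tri z1 z y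
  have h3 := L.d_tri x z1 y
  unfold Len.Btw at *
  omega

theorem btw_symm {x z y : G} (hz : L.Btw x z y) : L.Btw y z x := by
  have h1 := L.d_comm x z
  have h2 := L.d_comm z y
  have h3 := L.d_comm x y
  unfold Len.Btw at *
  omega

theorem btw_right {x z z2 y : G} (hz : L.Btw x z y) (h1 : L.Btw z z2 y) : L.Btw x z2 y :=
  btw_symm (btw_left (btw_symm hz) (btw_symm h1))

theorem btw_mid {x z z1 z2 y : G} (hz : L.Btw x z y) (h1 : L.Btw x z1 z) (h2 : L.Btw z z2 y) :
    L.Btw z1 z z2 := by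
  have h3 := L.d_tri x z1 y
  have h4 := L.d_tri z1 z2 y
  have h5 := L.d_tri z1 z z2
  unfold Len.Btw at *
  omega

/-- HA4. Bounded distance from geodesics. Proof: let `a` be the maximum over `z` between `x` and `y` of
the hat distance to the path `v` (`≤` something finite), attained at `z`. Choose `z₁` between `x` and
`z` with hat distance `2 a` to `z` (or `z₁ = x`), `z₂` between `z` and `y` similarly. `z_i` is at hat
distance `≤ a` from `v (n_i)`. The path `z₁, v n₁, v n₂, z₂` has at most `8 a` edges (`v` is a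
geodesic), `log_path` for it and `z` (between `z₁` and `z₂`): `z` is within `k + 2` of it,
`8 a ≤ 2^k`. A point of the first or last part is at distance `≥ 2 a - a = a` from `z` (if
`z₁ ≠ x`; if `z₁ = x` this part is trivial), so `a ≤ k + 2` in all cases. `a ≥ 11` is impossible:
for `a = 11`: `8 a = 88 ≤ 2^7`, `k + 2 = 9`; in general `2^(a-3) > 8 a`. -/
theorem guess (hH : L.Hyp P.D) {x y z : G} (hz : L.Btw x z y) (v : ℕ → G)
    (h0 : v 0 = x) (h1 : v (F.hat.d x y) = y) (hv : F.Path v (F.hat.d x y)) :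
    ∃ i ≤ F.hat.d x y, F.hat.d z (v i) ≤ 10 := by
  classical
  have c1 := P.hD
  have c2 := P.hT0
  have c3 := P.hT3
  have c4 := P.hA
  have c5 := P.hR1
  have c6 := P.hR
  obtain ⟨N, hN⟩ : ∃ N, N = F.hat.d x y := ⟨_, rfl⟩
  rw [← hN] at h1 hv ⊢
  have hex : ∃ a : ℕ, ∀ z, L.Btw x z y → ∃ i ≤ N, F.hat.d z (v i) ≤ a := by
    refine ⟨L.d x y, fun z hz => ⟨0, Nat.zero_le _, ?_⟩⟩
    rw [h0, F.hat.d_comm]
    refine (F.hat_le x z (L.d x y) ?_)
    have h2 : L.d x z ≤ L.d x y := by
      unfold Len.Btw at hz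
      omega
    calc L.d x z ≤ L.d x y := h2
      _ = 1 * L.d x y := (one_mul _).symm
      _ ≤ P.R * L.d x y := Nat.mul_le_mul_right _ (by omega)
  obtain ⟨a, ha⟩ : ∃ a, a = Nat.find hex := ⟨_, rfl⟩
  have hQ : ∀ z, L.Btw x z y → ∃ i ≤ N, F.hat.d z (v i) ≤ a := by
    rw [ha]
    exact Nat.find_spec hex
  have ha10 : a ≤ 10 := by
    by_contra hcon
    have hmin := Nat.find_min hex (m := a - 1) (by omega)
    push Not at hmin
    obtain ⟨z, hz, hfar⟩ := hmin
    have hfar' : ∀ i ≤ N, a ≤ F.hat.d z (v i) := fun i hi => by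
      have := hfar i hi
      omega
    -- left end
    have hleft : ∃ z1, L.Btw x z1 z ∧ F.hat.d z1 z ≤ 2 * a ∧ ∃ n1 ≤ N, ∃ w1 : ℕ → G, ∃ m1 ≤ a,
        F.Path w1 m1 ∧ w1 0 = z1 ∧ w1 m1 = v n1 ∧ ∀ j ≤ m1, a ≤ F.hat.d z (w1 j) := by
      by_cases hc : F.hat.d z x ≤ 2 * a
      · refine ⟨x, ?_, ?_, 0, Nat.zero_le _, fun _ => x, 0, Nat.zero_le _, ?_, rfl, h0.symm, ?_⟩
        · unfold Len.Btw
          rw [L.d_self]
          exact zero_add _
        · rw [F.hat.d_comm]
          exact hc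
        · intro i hi
          exact absurd hi (Nat.not_lt_zero i)
        · intro j _
          have := hfar' 0 (Nat.zero_le _)
          rwa [h0] at this
      · obtain ⟨z1, hz1, hd1⟩ := F.hat_interp (x := y) (btw_symm hz) (2 * a) (by omega)
        obtain ⟨n1, hn1, hd2⟩ := hQ z1 (btw_left hz (btw_symm hz1))
        obtain ⟨w1, w10, w11, hw1⟩ := F.exists_path z1 (v n1)
        refine ⟨z1, btw_symm hz1, ?_, n1, hn1, w1, _, hd2, hw1, w10, w11, ?_⟩
        · rw [F.hat.d_comm, hd1]
        · intro j hj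
          have h3 := F.path_le hw1 0 j (Nat.zero_le _) hj
          rw [w10] at h3
          have h4 := F.hat.d_tri z (w1 j) z1
          have h5 := F.hat.d_comm (w1 j) z1
          omega
    have hright : ∃ z2, L.Btw z z2 y ∧ F.hat.d z z2 ≤ 2 * a ∧ ∃ n2 ≤ N, ∃ w2 : ℕ → G, ∃ m2 ≤ a,
        F.Path w2 m2 ∧ w2 0 = v n2 ∧ w2 m2 = z2 ∧ ∀ j ≤ m2, a ≤ F.hat.d z (w2 j) := by
      by_cases hc : F.hat.d z y ≤ 2 * a
      · refine ⟨y, ?_, hc, N, le_refl _, fun _ => y, 0, Nat.zero_le _, ?_, h1.symm, rfl, ?_⟩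
        · unfold Len.Btw
          rw [L.d_self]
          exact add_zero _
        · intro i hi
          exact absurd hi (Nat.not_lt_zero i)
        · intro j _
          have := hfar' N le_rfl
          rwa [h1] at this
      · obtain ⟨z2, hz2, hd1⟩ := F.hat_interp hz (2 * a) (by omega)
        obtain ⟨n2, hn2, hd2⟩ := hQ z2 (btw_right hz hz2)
        obtain ⟨w2, w20, w21, hw2⟩ := F.exists_path (v n2) z2
        refine ⟨z2, hz2, hd1.le, n2, hn2, w2, F.hat.d (v n2) z2, ?_, hw2, w20, w21, ?_⟩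
        · rw [F.hat.d_comm]
          exact hd2
        · intro j hj
          have h3 := F.path_le hw2 j _ hj le_rfl
          rw [w21] at h3
          have h4 := F.hat.d_tri z (w2 j) z2
          rw [F.hat.d_comm z2 (v n2)] at hd2
          omega
    obtain ⟨z1, hz1, hd1, n1, hn1, w1, m1, hm1, hw1, w10, w11, hf1⟩ := hleft
    obtain ⟨z2, hz2, hd2, n2, hn2, w2, m2, hm2, hw2, w20, w21, hf2⟩ := hright
    obtain ⟨w3, hw3, w30, w31, hw3'⟩ := F.sub_path hv hn1 hn2
    -- length of the middle part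
    have hgeo : ∀ i j, i ≤ j → j ≤ N → j - i ≤ F.hat.d (v i) (v j) := by
      intro i j hij hj
      have g1 := F.path_le hv 0 i (Nat.zero_le _) (by omega)
      have g2 := F.path_le hv j N hj le_rfl
      have g3 := F.hat.d_tri x (v i) y
      have g4 := F.hat.d_tri (v i) (v j) y
      rw [h0] at g1
      rw [h1] at g2
      omega
    have hmid : (n1 - n2) + (n2 - n1) ≤ 6 * a := by
      have g1 := F.path_le hw1 0 m1 (Nat.zero_le _) le_rfl
      have g2 := F.path_le hw2 0 m2 (Nat.zero_le _) le_rfl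
      rw [w10, w11] at g1
      rw [w20, w21] at g2
      have g3 := F.hat.d_tri (v n1) z1 (v n2)
      have g4 := F.hat.d_tri z1 z (v n2)
      have g5 := F.hat.d_tri z z2 (v n2)
      have e1 := F.hat.d_comm (v n1) z1
      have e2 := F.hat.d_comm (v n2) z2
      have e3 := F.hat.d_comm (v n1) (v n2)
      rcases le_total n1 n2 with h | h
      · have := hgeo n1 n2 h hn2
        omega
      · have := hgeo n2 n1 h hn1
        omega
    obtain ⟨u1, hu1, u10, u11, hu1'⟩ := F.path_append hw1 hw3 (by rw [w11, w30])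
    obtain ⟨u2, hu2, u20, u21, hu2'⟩ := F.path_append hu1 hw2 (by rw [u11, w31, w20])
    have hpow : ∀ b : ℕ, 8 * (b + 11) ≤ 2 ^ (b + 8) := by
      intro b
      induction b with
      | zero => norm_num
      | succ b ih => rw [show b + 1 + 8 = (b + 8) + 1 by ring, pow_succ]; omega
    have hlen : m1 + ((n1 - n2) + (n2 - n1)) + m2 ≤ 2 ^ (a - 3) := by
      have := hpow (a - 11)
      rw [show a - 11 + 8 = a - 3 by omega] at this
      omega
    obtain ⟨i, hi, hd⟩ := F.log_path hH (a - 3) u2 _ hlen hu2 z (by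
      rw [u20, u10, w10, u21, w21]
      exact btw_mid hz hz1 hz2)
    have hbig : a ≤ F.hat.d z (u2 i) := by
      rcases hu2' i hi with ⟨j, hj, e⟩ | ⟨j, hj, e⟩
      · rw [e]
        rcases hu1' j hj with ⟨l, hl, e'⟩ | ⟨l, hl, e'⟩
        · rw [e']
          exact hf1 l hl
        · rw [e']
          obtain ⟨q, hq, e''⟩ := hw3' l hl
          rw [e'']
          exact hfar' q hq
      · rw [e]
        exact hf2 j hj
    omega
  obtain ⟨i, hi, h⟩ := hQ z hz
  exact ⟨i, hi, h.trans ha10⟩

/-- HA5. -/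
theorem hat_btw (hH : L.Hyp P.D) {x y z : G} (hz : L.Btw x z y) :
    F.hat.d x z + F.hat.d z y ≤ F.hat.d x y + 20 := by
  obtain ⟨v, v0, v1, hv⟩ := F.exists_path x y
  obtain ⟨i, hi, h⟩ := F.guess hH hz v v0 v1 hv
  have h1 := F.path_le hv 0 i (Nat.zero_le _) hi
  have h2 := F.path_le hv i _ hi le_rfl
  rw [v0] at h1
  rw [v1] at h2
  have h3 := F.hat.d_tri x (v i) z
  have h4 := F.hat.d_tri z (v i) y
  have h5 := F.hat.d_comm z (v i)
  omega

/-- HA9. Lower bound for distances. -/
theorem hat_len (x y : G) (n : ℕ) (h : n < F.hat.d x y) : P.R * n < L.d x y := by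
  by_contra hcon
  have := F.hat_le x y n (by omega)
  omega

/-- HA8. Monotonicity. Proof: `z` is `D`-between `x` and `w` (`btw_btw`); `near_btw`, `hat_btw`. -/
theorem hat_mono (hH : L.Hyp P.D) {x y z w : G} (hz : L.Btw x z y) (hw : L.Btw x w y)
    (h : L.d x z ≤ L.d x w) : F.hat.d x z + F.hat.d z w ≤ F.hat.d x w + 22 := by
  have c1 := P.hD
  have c2 := P.hT0
  have c3 := P.hT3
  have c4 := P.hA
  have c5 := P.hR1
  have c6 := P.hR
  obtain ⟨z', h1, h2, h3⟩ := near_btw L hH (btw_btw L hH hz hw h)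
  have h4 := F.hat_btw hH h1
  have h5 : F.hat.d z z' ≤ 1 := F.hat_le_one' (by omega)
  have h6 := F.hat.d_tri x z' z
  have h7 := F.hat.d_tri z z' w
  have h8 := F.hat.d_comm z z'
  omega

/-- Points close to a geodesic. -/
theorem hat_near_btw (hH : L.Hyp P.D) {x y c p : G} (hp : L.Btw x p y)
    (h : L.d c p ≤ 2 * P.D + 1) : F.hat.d x c + F.hat.d c y ≤ F.hat.d x y + 22 := by
  have c1 := P.hD
  have c2 := P.hT0
  have c3 := P.hT3
  have c4 := P.hA
  have c5 := P.hR1
  have c6 := P.hR
  have h1 : F.hat.d c p ≤ 1 := F.hat_le_one' (by omega)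
  have h2 := F.hat_btw hH hp
  have h3 := F.hat.d_tri x p c
  have h4 := F.hat.d_tri c p y
  have h5 := F.hat.d_comm c p
  omega

/-- The sharper form. -/
theorem hat_hyp' (hH : L.Hyp P.D) : F.hat.Hyp 44 := by
  classical
  intro x y z w
  -- near both `[x, y]` and `[w, z]`, or near both `[x, w]` and `[y, z]`
  have hmain : ∃ c : G, ((∃ p, L.Btw x p y ∧ L.d c p ≤ 2 * P.D + 1) ∧
      (∃ q, L.Btw w q z ∧ L.d c q ≤ 2 * P.D + 1)) ∨
      ((∃ p, L.Btw x p w ∧ L.d c p ≤ 2 * P.D + 1) ∧
      (∃ q, L.Btw y q z ∧ L.d c q ≤ 2 * P.D + 1)) := by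
    by_contra hcon
    push Not at hcon
    have key : ∀ n : ℕ, ∀ c : G, L.Btw x c z → L.d x c = n →
        (∃ p, L.Btw x p y ∧ L.d c p ≤ 2 * P.D) ∧ (∃ p, L.Btw x p w ∧ L.d c p ≤ 2 * P.D) := by
      intro n
      induction n with
      | zero =>
        intro c hc hn
        have h1 : x = c := L.eq_of_d hn
        subst h1
        have h2 : ∀ t : G, L.Btw x x t := by
          intro t
          unfold Len.Btw
          rw [L.d_self]
          exact zero_add _
        exact ⟨⟨x, h2 y, by rw [L.d_self]; omega⟩, ⟨x, h2 w, by rw [L.d_self]; omega⟩⟩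
      | succ n ih =>
        intro c hc hn
        obtain ⟨c', h1, h2⟩ := L.d_interp x c n (by omega)
        have hc' : L.Btw x c' z := btw_left hc (by unfold Len.Btw; omega)
        obtain ⟨⟨p, hp, hp'⟩, ⟨q, hq, hq'⟩⟩ := ih c' hc' h1
        have e1 := L.d_comm c' c
        have e2 := L.d_tri c c' p
        have e3 := L.d_tri c c' q
        obtain ⟨s, hs, hs'⟩ := thin L hH y hc
        obtain ⟨t, ht, ht'⟩ := thin L hH w hc
        rcases hs with hs | hs
        · refine ⟨⟨s, hs, hs'⟩, ?_⟩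
          rcases ht with ht | ht
          · exact ⟨t, ht, ht'⟩
          · exact absurd (by omega : L.d c t ≤ 2 * P.D + 1)
              (not_le.2 ((hcon c).1 ⟨s, hs, by omega⟩ t ht))
        · exact absurd (by omega : L.d c s ≤ 2 * P.D + 1)
            (not_le.2 ((hcon c).2 ⟨q, hq, by omega⟩ s hs))
    have hz : L.Btw x z z := by
      unfold Len.Btw
      rw [L.d_self]
      exact add_zero _
    obtain ⟨⟨p, hp, hp'⟩, -⟩ := key _ z hz rfl
    have h3 : L.Btw w z z := by
      unfold Len.Btw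
      rw [L.d_self]
      exact add_zero _
    have h4 := (hcon z).1 ⟨p, hp, by omega⟩ z h3
    rw [L.d_self] at h4
    omega
  obtain ⟨c, h | h⟩ := hmain
  · obtain ⟨⟨p, hp, hp'⟩, ⟨q, hq, hq'⟩⟩ := h
    have h1 := F.hat_near_btw hH hp hp'
    have h2 := F.hat_near_btw hH hq hq'
    have h3 := F.hat.d_tri x c z
    have h4 := F.hat.d_tri y c w
    have e1 := F.hat.d_comm y c
    have e2 := F.hat.d_comm c w
    have e3 := F.hat.d_comm w z
    have h5 := le_max_left (F.hat.d x y + F.hat.d z w) (F.hat.d x w + F.hat.d y z)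
    omega
  · obtain ⟨⟨p, hp, hp'⟩, ⟨q, hq, hq'⟩⟩ := h
    have h1 := F.hat_near_btw hH hp hp'
    have h2 := F.hat_near_btw hH hq hq'
    have h3 := F.hat.d_tri x c z
    have h4 := F.hat.d_tri y c w
    have h5 := le_max_right (F.hat.d x y + F.hat.d z w) (F.hat.d x w + F.hat.d y z)
    omega

/-- HA6. Proof: walk along `[x, z]`: every point is within `2 D` of `[x, y] ∪ [y, z]` and of
`[x, w] ∪ [w, z]` (`thin`). Some point `c` is within `2 D + 1` of (`[x, y]` and `[w, z]`) or of
(`[y, z]` and `[x, w]`). With `hat_btw` for `c`: e.g.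
`hat x z + hat y w ≤ (hat x c + hat c y) + (hat z c + hat c w) ≤ hat x y + hat z w + 44`. -/
theorem hat_hyp (hH : L.Hyp P.D) : F.hat.Hyp P.D := by
  have c1 := P.hD
  intro x y z w
  have := F.hat_hyp' hH x y z w
  omega

/-- HA7. Points on hat geodesics are close to geodesics. Proof: `hat_interp` gives `w` with
`hat x w = hat x z`; it is `20`-between (`hat_btw`); `pt_le` for `F.hat` with the constant `44`
(`hat_hyp'`). -/
theorem hat_near (hH : L.Hyp P.D) {x y z : G} (hz : F.hat.Btw x z y) :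
    ∃ w, L.Btw x w y ∧ F.hat.d z w ≤ 70 := by
  have c1 := P.hD
  obtain ⟨w, hw, hd⟩ := F.hat_interp (x := x) (y := y) (z := x)
    (by unfold Len.Btw; rw [L.d_self]; exact zero_add _) (F.hat.d x z)
    (by unfold Len.Btw at hz; omega)
  refine ⟨w, hw, ?_⟩
  have h1 := F.hat_btw hH hw
  have e1 := F.hat.d_comm w x
  unfold Len.Btw at hz
  have h2 := pt_le F.hat (F.hat_hyp' hH) (a := x) (b := y) (z := z) (w := w) (ε := 0) (u := 20)
    (by omega) (by omega) (by omega)
  have e2 := F.hat.d_comm w z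
  omega

/-- HA10. Projections and edges. -/
theorem dp_edge (hH : L.Hyp P.D) (i : F.I) {x y : G} (h : F.hat.d x y ≤ 1) :
    F.dp i x y ≤ 10 * P.R ∨ (x ∈ F.Y i ∧ y ∈ F.Y i ∧ 10 * P.R < L.d x y) := by
  have c5 := P.hR1
  have c6 := P.hR
  rcases (F.hat_le_one x y).1 h with h1 | ⟨j, hx, hy⟩
  · left
    have := F.dp_le hH i x y
    omega
  · by_cases hij : i = j
    · subst hij
      by_cases h2 : L.d x y ≤ 10 * P.R
      · left
        rw [F.dp_mem hH hx hy]
        exact h2
      · right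
        exact ⟨hx, hy, by omega⟩
    · left
      have := F.dp_other hH hij hx hy
      omega

theorem dp_path (hH : L.Hyp P.D) (i : F.I) {v : ℕ → G} {N : ℕ}
    (h : ∀ a < N, F.dp i (v a) (v (a + 1)) ≤ 10 * P.R) (a k : ℕ) (hk : a + k ≤ N) :
    F.dp i (v a) (v (a + k)) ≤ 8 * P.R1 + k * (10 * P.R) := by
  induction k with
  | zero =>
    have := F.dp_self hH i (v a)
    simpa using this
  | succ k ih =>
    have h1 := ih (by omega)
    have h2 := h (a + k) (by omega)
    have h3 := F.dp_tri hH i (v a) (v (a + k)) (v (a + k + 1))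
    rw [Nat.succ_mul k]
    rw [show a + (k + 1) = a + k + 1 by ring]
    omega

/-- HA11. Bounded geodesic images. Proof: suppose every edge has `dp i ≤ 10 R`. Let `a` be the first
index with `dp i x (v a) > 20 R`, `b` the last with `dp i (v b) y > 20 R` (if `b < a` then
`dp i x y ≤ 60 R`). `dp_big` for `x, v a`: the geodesic `[x, v a]` passes within `16 R1 ≤ R` of the
projection `u` of `x`, so by `guess` some `v a'`, `a' ≤ a`, is at hat distance `≤ 11` from `u`;
similarly some `v b'`, `b ≤ b'`, at hat distance `≤ 11` from the projection of `y`; both projections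
are in `Y i`, so `b' - a' ≤ 23` and `dp i (v a) (v b) ≤ 230 R`. Total `≤ 30 R + 230 R + 30 R`. -/
theorem bgi (hH : L.Hyp P.D) (i : F.I) {x y : G} (h : 400 * P.R < F.dp i x y) (v : ℕ → G)
    (h0 : v 0 = x) (h1 : v (F.hat.d x y) = y) (hv : F.Path v (F.hat.d x y)) :
    ∃ a < F.hat.d x y, v a ∈ F.Y i ∧ v (a + 1) ∈ F.Y i ∧ 10 * P.R < L.d (v a) (v (a + 1)) := by
  classical
  have c1 := P.hD
  have c2 := P.hT0
  have c3 := P.hT3
  have c4 := P.hA
  have c5 := P.hR1
  have c6 := P.hR
  by_contra hcon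
  obtain ⟨N, hN⟩ : ∃ N, N = F.hat.d x y := ⟨_, rfl⟩
  rw [← hN] at h1 hv hcon
  have hno : ∀ a < N, F.dp i (v a) (v (a + 1)) ≤ 10 * P.R := by
    intro a ha
    rcases F.dp_edge hH i (hv a ha) with h2 | ⟨h2, h3, h4⟩
    · exact h2
    · exact absurd ⟨a, ha, h2, h3, h4⟩ hcon
  have hgeo : ∀ i j, i ≤ j → j ≤ N → j - i ≤ F.hat.d (v i) (v j) := by
    intro i j hij hj
    have g1 := F.path_le hv 0 i (Nat.zero_le _) (by omega)
    have g2 := F.path_le hv j N hj le_rfl
    have g3 := F.hat.d_tri x (v i) y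
    have g4 := F.hat.d_tri (v i) (v j) y
    rw [h0] at g1
    rw [h1] at g2
    omega
  have hself := F.dp_self hH i x
  have hselfy := F.dp_self hH i y
  -- the first index
  have hexa : ∃ n, n ≤ N ∧ 20 * P.R < F.dp i x (v n) := ⟨N, le_rfl, by rw [h1]; omega⟩
  obtain ⟨haN, ha⟩ := Nat.find_spec hexa
  have hamin : ∀ m, m < Nat.find hexa → m ≤ N → F.dp i x (v m) ≤ 20 * P.R := by
    intro m hm hmN
    have := Nat.find_min hexa hm
    push Not at this
    exact this hmN
  obtain ⟨a, hae⟩ : ∃ a, a = Nat.find hexa := ⟨_, rfl⟩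
  rw [← hae] at haN ha hamin
  have ha0 : a ≠ 0 := by
    rintro rfl
    rw [h0] at ha
    omega
  have ha30 : F.dp i x (v a) ≤ 30 * P.R := by
    have g1 := hamin (a - 1) (by omega) (by omega)
    have g2 := hno (a - 1) (by omega)
    rw [show a - 1 + 1 = a by omega] at g2
    have g3 := F.dp_tri hH i x (v (a - 1)) (v a)
    omega
  -- the last index
  have hexb : ∃ n, n ≤ N ∧ 20 * P.R < F.dp i (v (N - n)) y :=
    ⟨N, le_rfl, by rw [Nat.sub_self, h0]; omega⟩
  obtain ⟨hcN, hc⟩ := Nat.find_spec hexb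
  have hcmin : ∀ m, m < Nat.find hexb → m ≤ N → F.dp i (v (N - m)) y ≤ 20 * P.R := by
    intro m hm hmN
    have := Nat.find_min hexb hm
    push Not at this
    exact this hmN
  obtain ⟨c, hce⟩ : ∃ c, c = Nat.find hexb := ⟨_, rfl⟩
  rw [← hce] at hcN hc hcmin
  have hc0 : c ≠ 0 := by
    rintro rfl
    rw [Nat.sub_zero, h1] at hc
    omega
  have hc30 : F.dp i (v (N - c)) y ≤ 30 * P.R := by
    have g1 := hcmin (c - 1) (by omega) (by omega)
    have g2 := hno (N - c) (by omega)
    rw [show N - c + 1 = N - (c - 1) by omega] at g2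
    have g3 := F.dp_tri hH i (v (N - c)) (v (N - (c - 1))) y
    omega
  obtain ⟨b, hbe⟩ : ∃ b, b = N - c := ⟨_, rfl⟩
  rw [← hbe] at hc hc30
  by_cases hab : b < a
  · have g1 := hcmin (N - a) (by omega) (by omega)
    rw [show N - (N - a) = a by omega] at g1
    have g2 := F.dp_tri hH i x (v a) y
    omega
  · have hab' : a ≤ b := by omega
    obtain ⟨u, hu⟩ := F.exists_nr i x
    obtain ⟨s, hs⟩ := F.exists_nr i (v a)
    obtain ⟨s', hs'⟩ := F.exists_nr i (v b)
    obtain ⟨t, ht⟩ := F.exists_nr i y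
    have g1 := F.dp_big hH hu hs (by omega)
    have g2 := F.dp_big hH hs' ht (by omega)
    have g3 := L.d_tri u s (v a)
    have g4 := L.d_tri (v b) s' t
    obtain ⟨u', hu1, -, hu2⟩ := near_btw L hH (a := x) (b := v a) (z := u) (ε := 15 * P.R1)
      (by omega)
    obtain ⟨t', ht1, -, ht2⟩ := near_btw L hH (a := v b) (b := y) (z := t) (ε := 15 * P.R1)
      (by omega)
    have hda : F.hat.d x (v a) = a := by
      have k1 := hgeo 0 a (Nat.zero_le _) haN
      have k2 := F.path_le hv 0 a (Nat.zero_le _) haN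
      rw [h0] at k1 k2
      omega
    have hdb : F.hat.d (v b) y = N - b := by
      have k1 := hgeo b N (by omega) le_rfl
      have k2 := F.path_le hv b N (by omega) le_rfl
      rw [h1] at k1 k2
      omega
    obtain ⟨a', ha', hda'⟩ := F.guess hH hu1 v h0 (by rw [hda]) (by
      rw [hda]
      intro j hj
      exact hv j (by omega))
    obtain ⟨k, hk, hdk⟩ := F.guess hH ht1 (fun k => v (b + k)) rfl (by
      rw [hdb, show b + (N - b) = N by omega, h1]) (by
      rw [hdb]
      intro j hj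
      exact hv (b + j) (by omega))
    rw [hda] at ha'
    rw [hdb] at hk
    have k1 : F.hat.d u u' ≤ 1 := F.hat_le_one' (by omega)
    have k2 : F.hat.d t t' ≤ 1 := F.hat_le_one' (by omega)
    have k3 : F.hat.d u t ≤ 1 := (F.hat_le_one u t).2 (Or.inr ⟨i, hu.1, ht.1⟩)
    have k4 := hgeo a' (b + k) (by omega) (by omega)
    have k5 := F.hat.d_tri (v a') u' (v (b + k))
    have k6 := F.hat.d_tri u' u (v (b + k))
    have k7 := F.hat.d_tri u t (v (b + k))
    have k8 := F.hat.d_tri t t' (v (b + k))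
    have e1 := F.hat.d_comm (v a') u'
    have e2 := F.hat.d_comm u' u
    have hba : b - a ≤ 23 := by omega
    have m1 := F.dp_path hH i hno a (b - a) (by omega)
    rw [show a + (b - a) = b by omega] at m1
    have m2 : (b - a) * (10 * P.R) ≤ 23 * (10 * P.R) := Nat.mul_le_mul_right _ hba
    have m3 := F.dp_tri hH i x (v a) y
    have m4 := F.dp_tri hH i (v a) (v b) y
    omega

/-- HA12. Rotation does not increase the hat distance. -/
theorem hat_rot (hH : L.Hyp P.D) (i : F.I) {x y g : G} (h : 400 * P.R < F.dp i x y)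
    (hg : g • i = i) : F.hat.d x (g * y) ≤ F.hat.d x y := by
  obtain ⟨v, v0, v1, hv⟩ := F.exists_path x y
  obtain ⟨a, ha, h1, h2, -⟩ := F.bgi hH i h v v0 v1 hv
  have h3 := F.path_le hv 0 a (Nat.zero_le _) (by omega)
  have h4 := F.path_le hv (a + 1) _ (by omega) le_rfl
  rw [v0] at h3
  rw [v1] at h4
  have h5 : g * v (a + 1) ∈ F.Y i := by
    have := F.smul g i _ h2
    rwa [hg] at this
  have h6 : F.hat.d (v a) (g * v (a + 1)) ≤ 1 := (F.hat_le_one _ _).2 (Or.inr ⟨i, h1, h5⟩)
  have h7 := F.hat.d_tri x (v a) (g * y)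
  have h8 := F.hat.d_tri (v a) (g * v (a + 1)) (g * y)
  have h9 := F.hat.d_smul g (v (a + 1)) y
  omega

/-- HA13. Lower bound for the hat distance. Proof: along a path from `x` to `b` the function
`v ↦ L.d x v - L.d v b` changes by at most `2 (B + R)` per edge (`pi1` for edges in `Y i`). -/
theorem hat_lower (hH : L.Hyp P.D) {x b : G} {B : ℕ} (h : ∀ i, F.dp i x b ≤ B) :
    L.d x b ≤ F.hat.d x b * (B + P.R) := by
  have c1 := P.hD
  have c2 := P.hT0
  have c3 := P.hT3
  have c4 := P.hA
  have c5 := P.hR1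
  have c6 := P.hR
  have hedge : ∀ v v' : G, F.hat.d v v' ≤ 1 →
      L.d x v' + L.d v b ≤ L.d x v + L.d v' b + 2 * (B + P.R) := by
    intro v v' hvv
    rcases (F.hat_le_one v v').1 hvv with h1 | ⟨i, hv, hv'⟩
    · have h2 := L.d_tri x v v'
      have h3 := L.d_tri v v' b
      omega
    · obtain ⟨u, hu⟩ := F.exists_nr i x
      obtain ⟨s, hs⟩ := F.exists_nr i b
      have h1 := F.le_dp hH hu hs
      have h2 := h i
      have h3 := F.pi1 hH hu hv
      have h4 := F.pi1 hH hs hv'
      have h5 := L.d_tri x u v'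
      have h6 := L.d_tri b s v
      have h7 := L.d_tri u s v'
      have h8 := L.d_tri s u v
      have e1 := L.d_comm b v'
      have e2 := L.d_comm b v
      have e3 := L.d_comm s u
      omega
  obtain ⟨v, v0, v1, hv⟩ := F.exists_path x b
  have key : ∀ k ≤ F.hat.d x b, L.d x (v k) + L.d x b ≤ L.d (v k) b + k * (2 * (B + P.R)) := by
    intro k
    induction k with
    | zero =>
      intro _
      rw [v0, L.d_self]
      omega
    | succ k ih =>
      intro hk
      have h1 := ih (by omega)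
      have h2 := hedge _ _ (hv k (by omega))
      rw [Nat.succ_mul k]
      omega
  have h1 := key _ le_rfl
  rw [v1, L.d_self] at h1
  have h2 : F.hat.d x b * (2 * (B + P.R)) = 2 * (F.hat.d x b * (B + P.R)) := by ring
  omega

end QF

end Pool.Agent.Beb
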