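import Pool.Agent.Work.MP_beb559_al.CB
import Pool.Agent.Work.MP_beb559_al.HA

/-!
# Coherent elements translate along the long geodesic

Setting: `F : QF P L`, points `x, y` with `F.hat.d x y = A` (or only large), and elements `g` which are
*coherent*: `F.hat.d x (g*x) ≤ T0`, `F.hat.d y (g*y) ≤ T0`. All geodesic points are taken with
respect to `L`. The position of `z` is `L.d x z`.
-/

namespace Pool.Agent.Beb

namespace QF

variable {P : Par} {G : Type} [Group G] {L : Len G} (F : QF P L)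

/-- `z` is between `x` and `y` (for `L`), at hat distance at least `ν` from both. -/
def Mid (x y : G) (ν : ℕ) (z : G) : Prop := L.Btw x z y ∧ ν ≤ F.hat.d x z ∧ ν ≤ F.hat.d z y

/-- Coherent elements. -/
def Coh (x y g : G) : Prop := F.hat.d x (g * x) ≤ P.T0 ∧ F.hat.d y (g * y) ≤ P.T0

theorem d_inv_pt (L' : Len G) (g z : G) : L'.d z (g⁻¹ * z) = L'.d z (g * z) := by
  rw [← L'.d_smul g z (g⁻¹ * z), mul_inv_cancel_left, L'.d_comm]

theorem Coh.inv {x y g : G} (h : F.Coh x y g) : F.Coh x y g⁻¹ := by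
  refine ⟨?_, ?_⟩
  · rw [d_inv_pt]
    exact h.1
  · rw [d_inv_pt]
    exact h.2

/-- GB1. Fellow travelling. Proof: `quad` for `x, g*x, g*y, y`: `z` is within `4 D` of `[x, g*x]`,
`[g*x, g*y]` or `[g*y, y]`; in the first case `hat x z ≤ T0 + 20 + 1` (`hat_btw`), contradiction. -/
theorem fellow (hH : L.Hyp P.D) {x y g z : G} (h : F.Coh x y g) (hz : F.Mid x y (P.T0 + P.D) z) :
    ∃ w, L.Btw x w y ∧ L.d z (g * w) ≤ 4 * P.D := by
  have c1 := P.hD
  have c2 := P.hT0
  have c3 := P.hT3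
  have c4 := P.hA
  have c5 := P.hR1
  have c6 := P.hR
  obtain ⟨hz1, hz2, hz3⟩ := hz
  obtain ⟨z', hz', hd⟩ := quad L hH (g * x) (g * y) hz1
  have k1 : F.hat.d z z' ≤ 1 := F.hat_le_one' (by omega)
  have e1 := F.hat.d_comm z z'
  rcases hz' with hz' | hz' | hz'
  · exfalso
    have h1 := F.hat_btw hH hz'
    have h2 := F.hat.d_tri x z' z
    have h3 := h.1
    omega
  · refine ⟨g⁻¹ * z', ?_, ?_⟩
    · have h1 := L.d_smul g x (g⁻¹ * z')
      have h2 := L.d_smul g (g⁻¹ * z') y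
      have h3 := L.d_smul g x y
      rw [mul_inv_cancel_left] at h1 h2
      unfold Len.Btw at hz' ⊢
      omega
    · rw [mul_inv_cancel_left]
      exact hd
  · exfalso
    have h1 := F.hat_btw hH hz'
    have h2 := F.hat.d_tri z z' y
    have h3 := h.2
    have e2 := F.hat.d_comm y (g * y)
    omega

/-- GB1'. The same for `g⁻¹`. -/
theorem fellow' (hH : L.Hyp P.D) {x y g z : G} (h : F.Coh x y g) (hz : F.Mid x y (P.T0 + P.D) z) :
    ∃ w, L.Btw x w y ∧ L.d (g * z) w ≤ 4 * P.D := by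
  obtain ⟨w, hw, hd⟩ := F.fellow hH (Coh.inv F h) hz
  refine ⟨w, hw, ?_⟩
  have h1 := L.d_smul g z (g⁻¹ * w)
  rw [mul_inv_cancel_left] at h1
  omega

/-- GB2. The position of `w` near `g*z`: hat distance to `x` changes by at most `T0 + 1`. -/
theorem fellow_hat {x y g z w : G} (h : F.Coh x y g) (hw : L.d (g * z) w ≤ P.R) :
    F.hat.d x w ≤ F.hat.d x z + P.T0 + 1 ∧ F.hat.d x z ≤ F.hat.d x w + P.T0 + 1 ∧
    F.hat.d w y ≤ F.hat.d z y + P.T0 + 1 ∧ F.hat.d z y ≤ F.hat.d w y + P.T0 + 1 := by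
  have k1 : F.hat.d (g * z) w ≤ 1 := F.hat_le_one' hw
  have h1 := h.1
  have h2 := h.2
  have e1 := F.hat.d_smul g x z
  have e2 := F.hat.d_smul g z y
  have e3 := F.hat.d_comm (g * z) w
  have e4 := F.hat.d_comm (g * x) x
  have e5 := F.hat.d_comm (g * y) y
  have t1 := F.hat.d_tri x (g * x) w
  have t2 := F.hat.d_tri (g * x) (g * z) w
  have t3 := F.hat.d_tri (g * x) x (g * z)
  have t4 := F.hat.d_tri x w (g * z)
  have t5 := F.hat.d_tri w (g * z) y
  have t6 := F.hat.d_tri (g * z) (g * y) y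
  have t7 := F.hat.d_tri (g * z) w (g * y)
  have t8 := F.hat.d_tri w y (g * y)
  exact ⟨by omega, by omega, by omega, by omega⟩

/-- GB2'. Hat displacement of middle points. Proof: `hat_near` / `disp_qc` for `F.hat`. -/
theorem coh_disp (hH : L.Hyp P.D) {x y g z : G} (h : F.Coh x y g) (hz : L.Btw x z y) :
    F.hat.d z (g * z) ≤ P.T0 + 5 * P.D := by
  have c1 := P.hD
  obtain ⟨z', h1, -, h2⟩ := near_btw F.hat (F.hat_hyp' hH) (F.hat_btw hH hz)
  have h3 := disp_qc F.hat (F.hat_hyp' hH) h1 h.1 h.2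
  have t1 := F.hat.d_tri z z' (g * z)
  have t2 := F.hat.d_tri z' (g * z') (g * z)
  have e1 := F.hat.d_smul g z' z
  have e2 := F.hat.d_comm z z'
  omega

/-- Two pairs far apart in the hat metric. -/
theorem shift_pair (hH : L.Hyp P.D) {x y g z w z' w' : G} (h : F.Coh x y g)
    (hz : L.Btw x z y) (hw : L.Btw x w y) (hd : L.d (g * z) w ≤ 10 * P.D)
    (hz' : L.Btw x z' y) (hw' : L.Btw x w' y) (hd' : L.d (g * z') w' ≤ 10 * P.D)
    (hfar : 3 * P.T0 ≤ F.hat.d z z') (hle : L.d x z ≤ L.d x z') :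
    |((L.d x w : ℤ) - L.d x z) - ((L.d x w' : ℤ) - L.d x z')| ≤ 22 * P.D := by
  have c1 := P.hD
  have c2 := P.hT0
  have c3 := P.hT3
  have c4 := P.hA
  have c5 := P.hR1
  have c6 := P.hR
  have m1 := F.hat_mono hH hz hz' hle
  have f1 := F.fellow_hat h (z := z) (w := w) (by omega)
  have f2 := F.fellow_hat h (z := z') (w := w') (by omega)
  have hww : L.d x w ≤ L.d x w' := by
    by_contra hcon
    have m2 := F.hat_mono hH hw' hw (by omega)
    omega
  have b1 := btw_btw L hH hz hz' hle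
  have b2 := btw_btw L hH hw hw' hww
  have e1 := L.d_smul g z z'
  have e2 := L.d_comm (g * z) w
  have t1 := L.d_tri w (g * z) w'
  have t2 := L.d_tri (g * z) (g * z') w'
  have t3 := L.d_tri (g * z) w (g * z')
  have t4 := L.d_tri w w' (g * z')
  have e3 := L.d_comm w' (g * z')
  have t5 := L.d_tri x z z'
  have t6 := L.d_tri x w w'
  exact abs_le.2 ⟨by omega, by omega⟩

/-- GB3. The shift. There is `σ` such that for all middle points `z` and all `w` between `x` and `y` close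
to `g*z` the position of `w` is the position of `z` plus `σ`, up to `60 D`. Proof: `σ` from a
reference point. For two middle points `z, z'` the difference of the positions of `w, w'` is
`±` the difference of the positions of `z, z'` up to `14 D` (`btw_btw`). The sign is `+` if the hat
distance of `z` and `z'` is at least `3 T0` (`fellow_hat`, `hat_mono`); for arbitrary `z, z'` compare
both with a third middle point which is far from both in the hat metric. -/
theorem exists_shift (hH : L.Hyp P.D) {x y g : G} (hxy : 100 * P.T0 ≤ F.hat.d x y)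
    (h : F.Coh x y g) : ∃ σ : ℤ, ∀ z w, F.Mid x y (P.T0 + P.D) z → L.Btw x w y →
      L.d (g * z) w ≤ 10 * P.D → |(L.d x w : ℤ) - L.d x z - σ| ≤ 60 * P.D := by
  have c1 := P.hD
  have c2 := P.hT0
  have hx : L.Btw x x y := by
    unfold Len.Btw
    rw [L.d_self]
    exact zero_add _
  -- reference points
  have href : ∀ n, 10 * P.T0 ≤ n → n ≤ 40 * P.T0 → ∃ m, F.Mid x y (P.T0 + P.D) m ∧
      F.hat.d x m = n ∧ ∃ w, L.Btw x w y ∧ L.d (g * m) w ≤ 10 * P.D := by
    intro n h1 h2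
    obtain ⟨m, hm, hmn⟩ := F.hat_interp hx n (by omega)
    have t1 := F.hat.d_tri x m y
    have hmm : F.Mid x y (P.T0 + P.D) m := ⟨hm, by omega, by omega⟩
    obtain ⟨w, hw, hd⟩ := F.fellow' hH h hmm
    exact ⟨m, hmm, hmn, w, hw, by omega⟩
  -- any two pairs
  have hpair : ∀ z w z' w', L.Btw x z y → L.Btw x w y → L.d (g * z) w ≤ 10 * P.D →
      L.Btw x z' y → L.Btw x w' y → L.d (g * z') w' ≤ 10 * P.D → 3 * P.T0 ≤ F.hat.d z z' →
      |((L.d x w : ℤ) - L.d x z) - ((L.d x w' : ℤ) - L.d x z')| ≤ 22 * P.D := by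
    intro z w z' w' h1 h2 h3 h4 h5 h6 h7
    rcases le_total (L.d x z) (L.d x z') with hle | hle
    · exact F.shift_pair hH h h1 h2 h3 h4 h5 h6 h7 hle
    · rw [abs_sub_comm]
      exact F.shift_pair hH h h4 h5 h6 h1 h2 h3 (by rw [F.hat.d_comm]; exact h7) hle
  obtain ⟨m0, hm0, hm0n, w0, hw0, hd0⟩ := href (10 * P.T0) le_rfl (by omega)
  refine ⟨(L.d x w0 : ℤ) - L.d x m0, ?_⟩
  intro z w hz hw hd
  obtain ⟨m1, hm1, hm1n, w1, hw1, hd1⟩ := href (20 * P.T0) (by omega) (by omega)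
  obtain ⟨m2, hm2, hm2n, w2, hw2, hd2⟩ := href (30 * P.T0) (by omega) (by omega)
  by_cases hc : 3 * P.T0 ≤ F.hat.d z m1
  · have a1 := abs_le.1 (hpair z w m1 w1 hz.1 hw hd hm1.1 hw1 hd1 hc)
    have a2 := abs_le.1 (hpair m1 w1 m0 w0 hm1.1 hw1 hd1 hm0.1 hw0 hd0 (by
      have t1 := F.hat.d_tri x m0 m1
      have e1 := F.hat.d_comm m0 m1
      omega))
    exact abs_le.2 ⟨by omega, by omega⟩
  · have t0 := F.hat.d_tri x z m2
    have t3 := F.hat.d_tri z m1 m2
    have t4 := F.hat.d_tri x m1 m2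
    have t6 := F.hat.d_tri m1 z m2
    have e6 := F.hat.d_comm m1 z
    have a1 := abs_le.1 (hpair z w m2 w2 hz.1 hw hd hm2.1 hw2 hd2 (by omega))
    have a2 := abs_le.1 (hpair m2 w2 m0 w0 hm2.1 hw2 hd2 hm0.1 hw0 hd0 (by
      have t1 := F.hat.d_tri x m0 m2
      have e1 := F.hat.d_comm m0 m2
      omega))
    exact abs_le.2 ⟨by omega, by omega⟩

/-- GB4. Consequence for displacements. -/
theorem shift_disp (hH : L.Hyp P.D) {x y g : G} (h : F.Coh x y g) {σ : ℤ}
    (hσ : ∀ z w, F.Mid x y (P.T0 + P.D) z → L.Btw x w y →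
      L.d (g * z) w ≤ 10 * P.D → |(L.d x w : ℤ) - L.d x z - σ| ≤ 60 * P.D)
    {z : G} (hz : F.Mid x y (P.T0 + P.D) z) :
    (L.d z (g * z) : ℤ) ≤ |σ| + 70 * P.D ∧ |σ| ≤ L.d z (g * z) + 70 * P.D := by
  obtain ⟨w, hw, hd⟩ := F.fellow' hH h hz
  have h1 := abs_le.1 (hσ z w hz hw (by omega))
  have t1 := L.d_tri z w (g * z)
  have e1 := L.d_comm w (g * z)
  have t2 := L.d_tri z (g * z) w
  have t3 := L.d_tri x z w
  have t4 := L.d_tri x w z
  have e2 := L.d_comm w z
  have s1 := le_abs_self σ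
  have s2 := neg_abs_le σ
  have hzw : L.d z w ≤ L.d x w - L.d x z + P.D ∨ L.d z w ≤ L.d x z - L.d x w + P.D := by
    rcases le_total (L.d x z) (L.d x w) with hle | hle
    · have b1 := btw_btw L hH hz.1 hw hle
      left
      omega
    · have b1 := btw_btw L hH hw hz.1 hle
      right
      omega
  refine ⟨by omega, abs_le.2 ⟨by omega, by omega⟩⟩

/-- GB5 for positive shifts. -/
theorem shift_len_pos (hH : L.Hyp P.D) {x y g x₁ y₁ : G} (h : F.Coh x y g) {σ : ℤ}
    (hσ : ∀ z w, F.Mid x y (P.T0 + P.D) z → L.Btw x w y →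
      L.d (g * z) w ≤ 10 * P.D → |(L.d x w : ℤ) - L.d x z - σ| ≤ 60 * P.D)
    (h₁ : F.Mid x y (3 * P.T0) x₁) (h₂ : F.Mid x y (3 * P.T0) y₁) (h₃ : L.d x x₁ ≤ L.d x y₁)
    (h₄ : 200 * P.T0 ≤ F.hat.d x₁ y₁) (_hpos : 0 ≤ σ) :
    100 * σ + 100 * P.R ≤ L.d x₁ y₁ := by
  have c1 := P.hD
  have c2 := P.hT0
  have c3 := P.hT3
  have c4 := P.hA
  have c5 := P.hR1
  have c6 := P.hR
  have hlen := F.hat_len x₁ y₁ 1000 (by omega)
  by_cases hs : σ ≤ 60 * P.D
  · omega
  obtain ⟨c, hc⟩ : ∃ c, c = σ - 60 * P.D := ⟨_, rfl⟩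
  have hc0 : 0 < c := by omega
  obtain ⟨b, hb⟩ : ∃ b, b = P.T0 + 6 * P.D := ⟨_, rfl⟩
  have key : ∀ j : ℕ, j ≤ 150 → ∃ w, L.Btw x w y ∧ F.hat.d x₁ w ≤ j * b ∧
      (L.d x x₁ : ℤ) + j * c ≤ L.d x w ∧ L.d x w ≤ L.d x y₁ := by
    intro j
    induction j with
    | zero =>
      intro _
      refine ⟨x₁, h₁.1, ?_, ?_, h₃⟩
      · rw [F.hat.d_self]
        exact Nat.zero_le _
      · simp
    | succ j ih =>
      intro hj
      obtain ⟨w, hw, hwh, hwp, hwy⟩ := ih (by omega)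
      have hjc : 0 ≤ (j : ℤ) * c := mul_nonneg (by omega) hc0.le
      have m1 := F.hat_mono hH h₁.1 hw (by omega)
      have m2 := F.hat_mono hH (x := y) (y := x) (z := y₁) (w := w) (btw_symm h₂.1)
        (btw_symm hw) (by
          have g1 := h₂.1
          have e1 := L.d_comm y y₁
          have e2 := L.d_comm y w
          unfold Len.Btw at g1 hw
          omega)
      have e1 := F.hat.d_comm y y₁
      have e2 := F.hat.d_comm y w
      have g1 := h₁.2.1
      have g2 := h₂.2.2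
      have hwm : F.Mid x y (P.T0 + P.D) w := ⟨hw, by omega, by omega⟩
      obtain ⟨w', hw', hd'⟩ := F.fellow' hH h hwm
      have a1 := abs_le.1 (hσ w w' hwm hw' (by omega))
      have k1 := F.coh_disp hH h hw
      have k2 : F.hat.d (g * w) w' ≤ 1 := F.hat_le_one' (by omega)
      have k3 := F.hat.d_tri w (g * w) w'
      have k4 := F.hat.d_tri x₁ w w'
      have ej : (j + 1) * b = j * b + b := by ring
      have hjb : (j + 1) * b ≤ 150 * b := Nat.mul_le_mul_right _ hj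
      have ec : ((j + 1 : ℕ) : ℤ) * c = (j : ℤ) * c + c := by push_cast; ring
      have hwh' : F.hat.d x₁ w' ≤ (j + 1) * b := by omega
      refine ⟨w', hw', hwh', by rw [ec]; omega, ?_⟩
      by_contra hcon
      -- then `y₁` is between `x₁` and `w'`
      have b1 := btw_btw L hH h₁.1 h₂.1 h₃
      have b2 := btw_btw L hH h₂.1 hw' (by omega)
      have t1 := L.d_tri x x₁ w'
      obtain ⟨v, hv, -, hvd⟩ := near_btw L hH (a := x₁) (b := w') (z := y₁) (ε := 2 * P.D)
        (by omega)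
      have b3 := F.hat_btw hH hv
      have k5 : F.hat.d y₁ v ≤ 1 := F.hat_le_one' (by omega)
      have k6 := F.hat.d_tri x₁ v y₁
      have e3 := F.hat.d_comm y₁ v
      omega
  obtain ⟨w, hw, -, hwp, hwy⟩ := key 150 le_rfl
  have t1 := L.d_tri x x₁ y₁
  push_cast at hwp
  omega

/-- GB5. The shift is small compared with the length of the middle part. Proof: say `σ > 0`, otherwise
travel from `y₁` to `x₁`. `w_0 = x₁`, `w_(j+1)` close to `g * w_j` (`fellow'`): hat steps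
`≤ T0 + 6 D`, so for `j ≤ 150` all `w_j` are in the middle part and before `y₁`; the positions
increase by `σ - 60 D` each time. And `L.d x₁ y₁ ≥ R (hat - 1)` by `hat_len`. -/
theorem shift_len (hH : L.Hyp P.D) {x y g x₁ y₁ : G} (h : F.Coh x y g) {σ : ℤ}
    (hσ : ∀ z w, F.Mid x y (P.T0 + P.D) z → L.Btw x w y →
      L.d (g * z) w ≤ 10 * P.D → |(L.d x w : ℤ) - L.d x z - σ| ≤ 60 * P.D)
    (h₁ : F.Mid x y (3 * P.T0) x₁) (h₂ : F.Mid x y (3 * P.T0) y₁) (h₃ : L.d x x₁ ≤ L.d x y₁)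
    (h₄ : 200 * P.T0 ≤ F.hat.d x₁ y₁) :
    100 * |σ| + 100 * P.R ≤ L.d x₁ y₁ := by
  rcases le_total 0 σ with hs | hs
  · rw [abs_of_nonneg hs]
    exact F.shift_len_pos hH h hσ h₁ h₂ h₃ h₄ hs
  · rw [abs_of_nonpos hs]
    have hmid : ∀ {ν : ℕ} {z : G}, F.Mid y x ν z → F.Mid x y ν z := by
      intro ν z hz
      have e1 := F.hat.d_comm y z
      have e2 := F.hat.d_comm z x
      exact ⟨btw_symm hz.1, by have := hz.2.2; omega, by have := hz.2.1; omega⟩
    have hmid' : ∀ {ν : ℕ} {z : G}, F.Mid x y ν z → F.Mid y x ν z := by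
      intro ν z hz
      have e1 := F.hat.d_comm y z
      have e2 := F.hat.d_comm z x
      exact ⟨btw_symm hz.1, by have := hz.2.2; omega, by have := hz.2.1; omega⟩
    have key := F.shift_len_pos hH (x := y) (y := x) (g := g) (x₁ := y₁) (y₁ := x₁) (σ := -σ)
      ⟨h.2, h.1⟩ (by
        intro z w hz hw hd
        have a1 := abs_le.1 (hσ z w (hmid hz) (btw_symm hw) hd)
        have g1 := (hmid hz).1
        have g2 : L.Btw x w y := btw_symm hw
        have e1 := L.d_comm y z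
        have e2 := L.d_comm y w
        unfold Len.Btw at g1 g2
        exact abs_le.2 ⟨by omega, by omega⟩) (hmid' h₂) (hmid' h₁) (by
        have g1 := h₁.1
        have g2 := h₂.1
        have e1 := L.d_comm y x₁
        have e2 := L.d_comm y y₁
        unfold Len.Btw at g1 g2
        omega) (by rw [F.hat.d_comm]; exact h₄) (by omega)
    rw [L.d_comm x₁ y₁]
    exact key

end QF

end Pool.Agent.Beb
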