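import Pool.Agent.Work.MP_beb559_al.GB
import Pool.Agent.Work.MP_beb559_al.GA2
import Pool.Agent.Work.MP_beb559_al.GA3
import Pool.Agent.Work.MP_beb559_al.GA4

/-!
# Coherent elements commute and are loxodromic; the condition (C1) for the quotient
-/

namespace Pool.Agent.Beb

namespace QF

variable {P : Par} {G : Type} [Group G] {L : Len G} (F : QF P L)

/-- A point between `x₁` and `y` with `x₁` between `x` and `y` is between `x` and `y`. -/
theorem btw_right3 {x x₁ y z : G} (h1 : L.Btw x x₁ y) (h2 : L.Btw x₁ z y) :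
    L.Btw x z y ∧ L.d x z = L.d x x₁ + L.d x₁ z := by
  unfold Len.Btw at *
  have t1 := L.d_tri x x₁ z
  have t2 := L.d_tri x z y
  omega

/-- Two far apart middle points. -/
theorem exists_mid3 (hH : L.Hyp P.D) {x y : G} (hxy : P.A ≤ F.hat.d x y) :
    ∃ x₁ y₁, F.Mid x y (9 * P.T0) x₁ ∧ F.Mid x y (9 * P.T0) y₁ ∧ L.d x x₁ ≤ L.d x y₁ ∧
      200 * P.T0 ≤ F.hat.d x₁ y₁ ∧
      ∀ z, L.Btw x₁ z y₁ → F.Mid x y (8 * P.T0) z := by
  have hD := P.hD
  have hT0 := P.hT0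
  have hT3 := P.hT3
  have hA := P.hA
  have h0 : L.Btw x x y := by unfold Len.Btw; rw [L.d_self, Nat.zero_add]
  obtain ⟨x₁, hx1, hx2⟩ := F.hat_interp h0 (10 * P.T0) (by omega)
  have t1 := F.hat.d_tri x x₁ y
  obtain ⟨y₁, hy1, hy2⟩ := F.hat_interp hx1 (300 * P.T0) (by omega)
  have t2 := F.hat.d_tri x₁ y₁ y
  obtain ⟨hb1, hb2⟩ := btw_right3 hx1 hy1
  have m1 := F.hat_mono hH hx1 hb1 (by omega)
  refine ⟨x₁, y₁, ⟨hx1, by omega, by omega⟩, ⟨hb1, by omega, by omega⟩, by omega, by omega, ?_⟩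
  intro z hz
  have hz2 : L.Btw x₁ z y ∧ L.d x₁ z ≤ L.d x₁ y₁ := by
    unfold Len.Btw at *
    have t1 := L.d_tri x₁ z y
    have t2 := L.d_tri z y₁ y
    omega
  obtain ⟨hc1, hc2⟩ := btw_right3 hx1 hz2.1
  refine ⟨hc1, ?_, ?_⟩
  · have m2 := F.hat_mono hH hx1 hc1 (by omega)
    omega
  · have m3 := F.hat_mono hH (x := y) (y := x) (z := y₁) (w := z)
      (by unfold Len.Btw at *; rw [L.d_comm y y₁, L.d_comm y₁ x, L.d_comm y x]; omega)
      (by unfold Len.Btw at *; rw [L.d_comm y z, L.d_comm z x, L.d_comm y x]; omega)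
      (by
        unfold Len.Btw at *
        rw [L.d_comm y y₁, L.d_comm y z]
        omega)
    rw [F.hat.d_comm y z, F.hat.d_comm y y₁] at m3
    omega

/-- The products `g' * g` and `g * g'` move middle points to nearby points. -/
theorem prod_near3 (hH : L.Hyp P.D) {x y g g' : G} (hxy : 100 * P.T0 ≤ F.hat.d x y)
    (h : F.Coh x y g) (h' : F.Coh x y g') {z : G} (hz : F.Mid x y (3 * P.T0) z) :
    L.d (g * (g' * z)) (g' * (g * z)) ≤ 257 * P.D := by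
  have hD := P.hD
  have hT0 := P.hT0
  have hT3 := P.hT3
  have hA := P.hA
  have hR1 := P.hR1
  have hR := P.hR
  obtain ⟨σ, hσ⟩ := F.exists_shift hH hxy h
  obtain ⟨σ', hσ'⟩ := F.exists_shift hH hxy h'
  have step : ∀ {g : G} {z : G}, F.Coh x y g → ∀ ν, P.T0 + P.D ≤ ν → F.Mid x y (ν + P.T0 + 1) z →
      ∃ w, F.Mid x y ν w ∧ L.d (g * z) w ≤ 4 * P.D := by
    intro g z hg ν hν hz
    obtain ⟨hz1, hz2, hz3⟩ := hz
    obtain ⟨w, hw1, hw2⟩ := F.fellow' hH hg (z := z) ⟨hz1, by omega, by omega⟩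
    obtain ⟨a1, a2, a3, a4⟩ := F.fellow_hat hg (z := z) (w := w) (by omega)
    exact ⟨w, ⟨hw1, by omega, by omega⟩, hw2⟩
  have hzz : F.Mid x y (P.T0 + P.D + P.T0 + 1) z := ⟨hz.1, by have := hz.2.1; omega,
    by have := hz.2.2; omega⟩
  have hz0 : F.Mid x y (P.T0 + P.D) z := ⟨hz.1, by have := hz.2.1; omega,
    by have := hz.2.2; omega⟩
  obtain ⟨w1, hw1, hw1'⟩ := step h (P.T0 + P.D) le_rfl hzz
  obtain ⟨w2, hw2, hw2'⟩ := step h' (P.T0 + P.D) le_rfl hzz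
  obtain ⟨v1, hv1, hv1'⟩ := F.fellow' hH h' (z := w1) hw1
  obtain ⟨v2, hv2, hv2'⟩ := F.fellow' hH h (z := w2) hw2
  have p1 := hσ z w1 hz0 hw1.1 (by omega)
  have p2 := hσ' w1 v1 hw1 hv1 (by omega)
  have p3 := hσ' z w2 hz0 hw2.1 (by omega)
  have p4 := hσ w2 v2 hw2 hv2 (by omega)
  rw [abs_le] at p1 p2 p3 p4
  have e1 : L.d (g' * (g * z)) (g' * w1) ≤ 4 * P.D := by rw [L.d_smul]; exact hw1'
  have e2 : L.d (g * (g' * z)) (g * w2) ≤ 4 * P.D := by rw [L.d_smul]; exact hw2'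
  have e3 : L.d v2 v1 ≤ 241 * P.D := by
    rcases le_total (L.d x v1) (L.d x v2) with hle | hle
    · have := btw_btw L hH hv1 hv2 hle
      rw [L.d_comm]
      omega
    · have := btw_btw L hH hv2 hv1 hle
      omega
  have t1 := L.d_tri (g * (g' * z)) (g * w2) (g' * (g * z))
  have t2 := L.d_tri (g * w2) v2 (g' * (g * z))
  have t3 := L.d_tri v2 v1 (g' * (g * z))
  have t4 := L.d_tri v1 (g' * w1) (g' * (g * z))
  rw [L.d_comm v1 (g' * w1), L.d_comm (g' * w1) (g' * (g * z))] at t4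
  omega

/-- GB6. Coherent elements commute. -/
theorem coh_comm (hG : Geo P L) {x y g g' : G} (hxy : P.A ≤ F.hat.d x y)
    (h : F.Coh x y g) (h' : F.Coh x y g') : g * g' = g' * g := by
  have hH := hG.hyp
  have hD := P.hD
  have hT0 := P.hT0
  have hT3 := P.hT3
  have hA := P.hA
  have hR1 := P.hR1
  have hR := P.hR
  have hxy' : 100 * P.T0 ≤ F.hat.d x y := by omega
  obtain ⟨x₁, y₁, hx₁, hy₁, hle, hfar, -⟩ := F.exists_mid3 hH hxy
  -- the commutator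
  obtain ⟨f, hf⟩ : ∃ f, f = g'⁻¹ * g⁻¹ * g' * g := ⟨_, rfl⟩
  have hfz : ∀ z, F.Mid x y (3 * P.T0) z → L.d z (f * z) ≤ 257 * P.D := by
    intro z hz
    have h1 := F.prod_near3 hH hxy' h h' hz
    rw [← L.d_smul (g * g') z (f * z)]
    have e1 : g * g' * (f * z) = g' * (g * z) := by rw [hf]; group
    rw [e1, mul_assoc]
    exact h1
  -- conjugates of the commutator
  have hconj : ∀ k, F.Coh x y k → ∀ z, F.Mid x y (9 * P.T0) z →
      L.d z (k * f * k⁻¹ * z) ≤ 997 * P.D := by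
    intro k hk z hz
    obtain ⟨hz1, hz2, hz3⟩ := hz
    obtain ⟨w, hw1, hw2⟩ := F.fellow' hH (Coh.inv F hk) (z := z) ⟨hz1, by omega, by omega⟩
    obtain ⟨a1, a2, a3, a4⟩ := F.fellow_hat (Coh.inv F hk) (z := z) (w := w) (by omega)
    have h1 := hfz w ⟨hw1, by omega, by omega⟩
    have e1 : L.d z (k * f * k⁻¹ * z) = L.d (k⁻¹ * z) (f * (k⁻¹ * z)) := by
      rw [← L.d_smul k (k⁻¹ * z) (f * (k⁻¹ * z))]
      congr 1
      · group
      · group
    rw [e1]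
    have t1 := L.d_tri (k⁻¹ * z) w (f * (k⁻¹ * z))
    have t2 := L.d_tri w (f * w) (f * (k⁻¹ * z))
    rw [L.d_smul, L.d_comm w (k⁻¹ * z)] at t2
    omega
  have hmove : ∀ k, F.Coh x y k → ∃ T : ℕ, 10 * T + 100 * P.T3 + 4 * P.A ≤ L.d x₁ y₁ ∧
      L.d x₁ (k * x₁) ≤ T ∧ L.d y₁ (k * y₁) ≤ T := by
    intro k hk
    obtain ⟨σ, hσ⟩ := F.exists_shift hH hxy' hk
    have h1 := (F.shift_disp hH hk hσ (z := x₁) ⟨hx₁.1, by have := hx₁.2.1; omega,
      by have := hx₁.2.2; omega⟩).1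
    have h2 := (F.shift_disp hH hk hσ (z := y₁) ⟨hy₁.1, by have := hy₁.2.1; omega,
      by have := hy₁.2.2; omega⟩).1
    have h3 := F.shift_len hH hk hσ (x₁ := x₁) (y₁ := y₁) ⟨hx₁.1, by have := hx₁.2.1; omega,
      by have := hx₁.2.2; omega⟩ ⟨hy₁.1, by have := hy₁.2.1; omega,
      by have := hy₁.2.2; omega⟩ hle hfar
    refine ⟨σ.natAbs + 70 * P.D, ?_, ?_, ?_⟩
    · rw [Int.abs_eq_natAbs] at h3
      omega
    · rw [Int.abs_eq_natAbs] at h1
      omega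
    · rw [Int.abs_eq_natAbs] at h2
      omega
  have hx₁3 : F.Mid x y (3 * P.T0) x₁ := ⟨hx₁.1, by have := hx₁.2.1; omega,
      by have := hx₁.2.2; omega⟩
  have hy₁3 : F.Mid x y (3 * P.T0) y₁ := ⟨hy₁.1, by have := hy₁.2.1; omega,
      by have := hy₁.2.2; omega⟩
  have hfx := hfz x₁ hx₁3
  have hfy := hfz y₁ hy₁3
  have hcomm : ∀ k, F.Coh x y k → k * f = f * k := by
    intro k hk
    obtain ⟨T, hT1, hT2, hT3⟩ := hmove k hk
    exact comm_of_conj hG hT1 (by omega) (by omega) hT2 hT3 (hconj k hk x₁ hx₁)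
      (hconj k hk y₁ hy₁)
  by_cases hf1 : f = 1
  · rw [hf1] at hf
    have : g * g' * 1 = g' * g := by rw [hf]; group
    rw [← this, mul_one]
  · exfalso
    obtain ⟨T, hT1, -, -⟩ := hmove g h
    exact no_heis hf (hcomm g h) (hcomm g' h')
      (lox_of_long hG (x := x₁) (y := y₁) (by omega) hf1 (by omega) (by omega))

/-- GB7. -/
theorem coh_lox (hG : Geo P L) {x y g : G} (hxy : P.A ≤ F.hat.d x y)
    (h : F.Coh x y g) (h1 : g ≠ 1) : Lox L g := by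
  have hH := hG.hyp
  have hD := P.hD
  have hT0 := P.hT0
  have hT3 := P.hT3
  have hA := P.hA
  have hR1 := P.hR1
  have hR := P.hR
  obtain ⟨x₁, y₁, hx₁, hy₁, hle, hfar, hmid⟩ := F.exists_mid3 hH hxy
  obtain ⟨σ, hσ⟩ := F.exists_shift hH (by omega) h
  have hdx := (F.shift_disp hH h hσ (z := x₁) ⟨hx₁.1, by have := hx₁.2.1; omega,
    by have := hx₁.2.2; omega⟩).1
  have hdy := (F.shift_disp hH h hσ (z := y₁) ⟨hy₁.1, by have := hy₁.2.1; omega,
    by have := hy₁.2.2; omega⟩).1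
  have hlen := F.shift_len hH h hσ (x₁ := x₁) (y₁ := y₁) ⟨hx₁.1, by have := hx₁.2.1; omega,
    by have := hx₁.2.2; omega⟩ ⟨hy₁.1, by have := hy₁.2.1; omega,
    by have := hy₁.2.2; omega⟩ hle hfar
  rcases le_or_gt |σ| (900 * P.D) with hs | hs
  · exact lox_of_long hG (x := x₁) (y := y₁) (by
      have := abs_nonneg σ
      omega) h1 (by omega) (by omega)
  · set T : ℕ := σ.natAbs + 70 * P.D with hT
    have hTe : (T : ℤ) = |σ| + 70 * P.D := by rw [hT, Int.abs_eq_natAbs]; push_cast; ring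
    obtain ⟨z, hz1, hz2⟩ := L.d_interp x₁ y₁ (2 * T + 5 * P.D) (by omega)
    have hbz : L.Btw x₁ z y₁ := by unfold Len.Btw; omega
    have hmz := hmid z hbz
    have hdz := (F.shift_disp hH h hσ (z := z) ⟨hmz.1, by have := hmz.2.1; omega,
      by have := hmz.2.2; omega⟩).2
    have hgx : L.d x₁ (g * x₁) ≤ T := by omega
    have hgy : L.d y₁ (g * y₁) ≤ T := by omega
    have hs1 := lox_of_sh L hH hgx hgy hbz (by omega) (by omega)
    obtain ⟨-, -, -, -, -, -, hs2⟩ := transl L hH (ε := 0) hgx hgy (z := z)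
      (by unfold Len.Btw at hbz; omega) (by omega) (by omega)
    refine lox_of_grow L hH (x := z) ?_
    omega

end QF

namespace Rot

variable {P : Par} {G : Type} [Group G] {L : Len G} (F : Rot P L)

/-- GB8. (C1) for the quotient. -/
theorem c1_quo (hG : Geo P L) (q r : G ⧸ F.K) (hqr : F.dq.d q r = P.A) :
    ∃ c : G ⧸ F.K, ∀ g : G ⧸ F.K, F.dq.d q (g * q) ≤ P.T0 → F.dq.d r (g * r) ≤ P.T0 →
      g ∈ Subgroup.zpowers c := by
  obtain ⟨x, y, s, hx, hy, hxy, hgood⟩ := F.exists_good hG.hyp q r hqr.le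
  have hA : P.A ≤ F.hat.d x y := by rw [hxy, hqr]
  have hlift : ∀ g : G ⧸ F.K, F.dq.d q (g * q) ≤ P.T0 → F.dq.d r (g * r) ≤ P.T0 →
      ∃ g₁ : G, (QuotientGroup.mk g₁ : G ⧸ F.K) = g ∧ F.toQF.Coh x y g₁ := by
    intro g hq hr
    obtain ⟨g₀, rfl⟩ := QuotientGroup.mk_surjective g
    obtain ⟨g₁, h1, h2, h3⟩ := F.coherent hG.hyp hgood g₀
    rw [hx] at h2
    rw [hy] at h3
    exact ⟨g₁, h1, h2.trans hq, h3.trans hr⟩
  by_cases hall : ∀ g₁ : G, F.toQF.Coh x y g₁ → g₁ = 1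
  · refine ⟨1, fun g hq hr => ?_⟩
    obtain ⟨g₁, h1, h2⟩ := hlift g hq hr
    rw [← h1, hall g₁ h2]
    exact one_mem _
  · push Not at hall
    obtain ⟨g₀, hg₀, hne⟩ := hall
    have hlox := F.toQF.coh_lox hG hA hg₀ hne
    obtain ⟨e, he⟩ := cent_cyc hG hlox
    refine ⟨QuotientGroup.mk e, fun g hq hr => ?_⟩
    obtain ⟨g₁, h1, h2⟩ := hlift g hq hr
    obtain ⟨n, hn⟩ := Subgroup.mem_zpowers_iff.1
      ((he g₁).1 (F.toQF.coh_comm hG hA h2 hg₀))
    refine Subgroup.mem_zpowers_iff.2 ⟨n, ?_⟩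
    rw [← h1, ← hn, QuotientGroup.mk_zpow]

end Rot

end Pool.Agent.Beb
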