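import Pool.Agent.Work.MP_beb559_al.GB

/-!
# The condition (C2) for the quotient: movers
-/

namespace Pool.Agent.Beb

namespace QF

variable {P : Par} {G : Type} [Group G] {L : Len G} (F : QF P L)

/-- `u` moves the middle part of `[x, y]` along itself by `σ` (positive: towards `y`). -/
structure Mover (x y u : G) (σ : ℤ) : Prop where
  near : ∀ z, F.Mid x y (2 * P.T0) z → ∃ w, L.Btw x w y ∧ L.d (u * z) w ≤ 10 * P.D
  near' : ∀ z, F.Mid x y (2 * P.T0) z → ∃ w, L.Btw x w y ∧ L.d (u⁻¹ * z) w ≤ 10 * P.D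
  pos : ∀ z w, F.Mid x y (2 * P.T0) z → L.Btw x w y → L.d (u * z) w ≤ 130 * P.D →
    |(L.d x w : ℤ) - L.d x z - σ| ≤ 200 * P.D
  hat : ∀ z, F.Mid x y (2 * P.T0) z → F.hat.d z (u * z) ≤ P.T0 + 5 * P.D
  big : 800 * P.D ≤ |σ|

variable {F}

theorem gc_mid_swap {x y z : G} {ν : ℕ} (h : F.Mid x y ν z) : F.Mid y x ν z := by
  obtain ⟨h1, h2, h3⟩ := h
  refine ⟨btw_symm h1, ?_, ?_⟩
  · rw [F.hat.d_comm]; exact h3
  · rw [F.hat.d_comm]; exact h2

theorem gc_pos_le (hH : L.Hyp P.D) {x y z w : G} (hz : L.Btw x z y) (hw : L.Btw x w y)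
    (h : F.hat.d x z + 22 < F.hat.d x w) : L.d x z ≤ L.d x w := by
  by_contra hc
  have h1 := F.hat_mono hH hw hz (by omega)
  omega

theorem gc_d_inv (L : Len G) (u x : G) : L.d x (u⁻¹ * x) = L.d x (u * x) := by
  have h := L.d_smul u x (u⁻¹ * x)
  rw [mul_inv_cancel_left, L.d_comm] at h
  exact h.symm

variable (F)

/-- GC1. Exchange of the ends. -/
theorem Mover.swap (hH : L.Hyp P.D) {x y u : G} {σ : ℤ} (h : F.Mover x y u σ) :
    F.Mover y x u (-σ) := by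
  refine ⟨fun z hz => ?_, fun z hz => ?_, fun z w hz hw hd => ?_, fun z hz => ?_, ?_⟩
  · obtain ⟨w, h1, h2⟩ := h.near z (gc_mid_swap hz)
    exact ⟨w, btw_symm h1, h2⟩
  · obtain ⟨w, h1, h2⟩ := h.near' z (gc_mid_swap hz)
    exact ⟨w, btw_symm h1, h2⟩
  · have hz' := gc_mid_swap hz
    have hw' := btw_symm hw
    have h1 := h.pos z w hz' hw' hd
    have h2 := hz'.1
    unfold Len.Btw at h2 hw'
    have e1 := L.d_comm y w
    have e2 := L.d_comm y z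
    rw [abs_le] at h1 ⊢
    omega
  · exact h.hat z (gc_mid_swap hz)
  · rw [abs_neg]; exact h.big

/-- GC1'. Inverse. -/
theorem Mover.inv (hH : L.Hyp P.D) {x y u : G} {σ : ℤ} (h : F.Mover x y u σ) :
    ∀ z w, F.Mid x y (4 * P.T0) z → L.Btw x w y → L.d (u⁻¹ * z) w ≤ 100 * P.D →
    |(L.d x w : ℤ) - L.d x z + σ| ≤ 220 * P.D := by
  intro z w hz hw hd
  have c1 := P.hD
  have c2 := P.hT0
  have c3 := P.hT3
  have c4 := P.hA
  have c5 := P.hR1
  have c6 := P.hR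
  obtain ⟨hz1, hz2, hz3⟩ := hz
  have e1 : L.d (u * w) z = L.d (u⁻¹ * z) w := by
    have := L.d_smul u (u⁻¹ * z) w
    rw [mul_inv_cancel_left, L.d_comm] at this
    exact this
  have hzm : F.Mid x y (2 * P.T0) z := ⟨hz1, by omega, by omega⟩
  -- `w` is a middle point
  have h1 : F.hat.d (u⁻¹ * z) w ≤ 1 := F.hat_le_one' (by omega)
  have h2 : F.hat.d z (u⁻¹ * z) = F.hat.d z (u * z) := gc_d_inv F.hat u z
  have h3 := h.hat z hzm
  have h4 := F.hat.d_tri z (u⁻¹ * z) w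
  have h5 := F.hat.d_tri x w z
  have h6 := F.hat.d_tri z w y
  have h7 := F.hat.d_comm z w
  have hwm : F.Mid x y (2 * P.T0) w := ⟨hw, by omega, by omega⟩
  have h8 := h.pos w z hwm hz1 (by omega)
  rw [abs_le] at h8 ⊢
  omega

variable {F}

/-- Points between, controlled by the power lemma on a subsegment. -/
theorem gc_power (hH : L.Hyp P.D) {x y x₁ y₁ g : G} {n : ℕ} (hx₁ : L.Btw x x₁ y)
    (hy₁ : L.Btw x y₁ y)
    (hpow : ∀ z, L.Btw x₁ z y₁ → P.A ≤ L.d x₁ z → P.A ≤ L.d z y₁ →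
      (∀ i ≤ n, L.d z (g ^ i * z) ≤ P.T3) ∧ P.T4 ≤ L.d z (g ^ n * z) + 10 * P.D) {z : G}
    (hz : L.Btw x z y) (h1 : L.d x x₁ + (P.A + 3 * P.D) ≤ L.d x z)
    (h2 : L.d x z + (P.A + 3 * P.D) ≤ L.d x y₁) :
    (∀ i ≤ n, L.d z (g ^ i * z) ≤ P.T3 + 6 * P.D) ∧ P.T4 ≤ L.d z (g ^ n * z) + 16 * P.D := by
  have a1 := btw_btw L hH hx₁ hz (by omega)
  have a2 := btw_btw L hH hz hy₁ (by omega)
  have a3 := L.d_tri x x₁ y₁
  have a4 := L.d_tri x x₁ z
  have a5 := L.d_tri x z y₁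
  obtain ⟨z', h3, h4, h5⟩ := near_btw L hH (a := x₁) (b := y₁) (z := z) (ε := 2 * P.D) (by omega)
  have a6 := L.d_tri x₁ z y₁
  have a7 : L.d x₁ z' = L.d x₁ z ∨ L.d x₁ z' = L.d x₁ y₁ := by
    rcases min_choice (L.d x₁ z) (L.d x₁ y₁) with h | h
    · left; rw [h4, h]
    · right; rw [h4, h]
  have a8 : L.d x₁ z' ≤ L.d x₁ z := by rw [h4]; exact min_le_left _ _
  have h3' := h3
  unfold Len.Btw at h3'
  obtain ⟨h6, h7⟩ := hpow z' h3 (by rcases a7 with h | h <;> omega) (by omega)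
  have key : ∀ i, L.d z (g ^ i * z) ≤ L.d z' (g ^ i * z') + 6 * P.D ∧
      L.d z' (g ^ i * z') ≤ L.d z (g ^ i * z) + 6 * P.D := by
    intro i
    have b1 := L.d_tri z z' (g ^ i * z)
    have b2 := L.d_tri z' (g ^ i * z') (g ^ i * z)
    have b3 := L.d_smul (g ^ i) z' z
    have b4 := L.d_tri z' z (g ^ i * z')
    have b5 := L.d_tri z (g ^ i * z) (g ^ i * z')
    have b6 := L.d_smul (g ^ i) z z'
    have b7 := L.d_comm z z'
    omega
  constructor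
  · intro i hi
    have := h6 i hi
    have := key i
    omega
  · have := key n
    omega

/-- The situation of `mover_of_ends`. -/
structure GCends (F : QF P L) (x y x₂ y₂ u : G) : Prop where
  hx₂ : L.Btw x x₂ y
  hy₂ : L.Btw x y₂ y
  h1 : F.hat.d x x₂ ≤ P.T0 + 11 * P.D
  h2 : F.hat.d y₂ y ≤ P.T0 + 11 * P.D
  ux : L.d x₂ (u * x₂) ≤ P.T3 + 6 * P.D
  uy : L.d y₂ (u * y₂) ≤ P.T3 + 6 * P.D

theorem GCends.inv {x y x₂ y₂ u : G} (h : GCends F x y x₂ y₂ u) : GCends F x y x₂ y₂ u⁻¹ where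
  hx₂ := h.hx₂
  hy₂ := h.hy₂
  h1 := h.h1
  h2 := h.h2
  ux := by rw [gc_d_inv]; exact h.ux
  uy := by rw [gc_d_inv]; exact h.uy

/-- Positions and translation. -/
theorem GCends.main (hH : L.Hyp P.D) {x y x₂ y₂ u z : G} (h : GCends F x y x₂ y₂ u)
    (hz : L.Btw x z y) (hz1 : 2 * P.T0 ≤ F.hat.d x z + 2) (hz2 : 2 * P.T0 ≤ F.hat.d z y + 2) :
    L.d x x₂ + L.d x₂ z ≤ L.d x z + P.D ∧ L.d x x₂ + L.d x₂ y₂ ≤ L.d x y₂ + P.D ∧
    (L.d x₂ z : ℤ) + L.sh x₂ y₂ u - 3 * P.D ≤ L.d x₂ (u * z) ∧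
    (L.d x₂ (u * z) : ℤ) ≤ L.d x₂ z + L.sh x₂ y₂ u + 2 * P.D ∧
    L.d x₂ (u * z) + L.d (u * z) y₂ ≤ L.d x₂ y₂ + 5 * P.D ∧
    |L.sh x₂ y₂ u| ≤ L.d z (u * z) + 2 * P.D ∧
    (L.d z (u * z) : ℤ) ≤ |L.sh x₂ y₂ u| + 5 * P.D ∧ L.d z (u * z) ≤ P.T3 + 11 * P.D := by
  have c1 := P.hD
  have c2 := P.hT0
  have c3 := P.hT3
  have c4 := P.hA
  have c5 := P.hR1
  have c6 := P.hR
  obtain ⟨hx₂, hy₂, h1, h2, ux, uy⟩ := h
  have p1 := gc_pos_le hH hx₂ hz (F := F) (by omega)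
  have e1 := F.hat.d_comm y₂ y
  have e2 := F.hat.d_comm z y
  have p2 := gc_pos_le hH (btw_symm hy₂) (btw_symm hz) (F := F) (by omega)
  have e3 := L.d_comm y y₂
  have e4 := L.d_comm y z
  have hz' := hz
  have hx₂' := hx₂
  have hy₂' := hy₂
  unfold Len.Btw at hz' hx₂' hy₂'
  have p3 : L.d x z ≤ L.d x y₂ := by omega
  have a1 := btw_btw L hH hx₂ hz p1
  have a2 := btw_btw L hH hz hy₂ p3
  have a3 := btw_btw L hH hx₂ hy₂ (p1.trans p3)
  have a4 := L.d_tri x x₂ y₂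
  -- deep
  have f1 := F.hat.d_tri x x₂ z
  have f2 := F.hat.d_tri z y₂ y
  have g1 := F.hat_len x₂ z 1 (by omega)
  have g2 := F.hat_len z y₂ 1 (by omega)
  obtain ⟨t1, t2, t3, t4, t5, t6, t7⟩ := transl L hH (a := x₂) (b := y₂) (z := z) (g := u)
    (T := P.T3 + 6 * P.D) (ε := 2 * P.D) ux uy (by omega) (by omega) (by omega)
  have s1 := (sh_le L x₂ y₂ u).1
  push_cast at t1 t7
  refine ⟨a1, a3, by linarith, t2, by omega, t6, by linarith, ?_⟩
  omega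

theorem GCends.near (hH : L.Hyp P.D) {x y x₂ y₂ u z : G} (h : GCends F x y x₂ y₂ u)
    (hz : F.Mid x y (2 * P.T0) z) : ∃ w, L.Btw x w y ∧ L.d (u * z) w ≤ 10 * P.D := by
  obtain ⟨m1, m2, m3, m4, m5, m6, m7, m8⟩ := h.main hH hz.1 (by have := hz.2.1; omega)
    (by have := hz.2.2; omega)
  have hx₂' := h.hx₂
  have hy₂' := h.hy₂
  unfold Len.Btw at hx₂' hy₂'
  have a1 := L.d_tri x x₂ (u * z)
  have a2 := L.d_tri (u * z) y₂ y
  obtain ⟨w, h3, h4, h5⟩ := near_btw L hH (a := x) (b := y) (z := u * z) (ε := 6 * P.D) (by omega)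
  exact ⟨w, h3, by omega⟩

theorem GCends.mover (hH : L.Hyp P.D) {x y x₂ y₂ u : G} (h : GCends F x y x₂ y₂ u)
    (hbig : 800 * P.D ≤ |L.sh x₂ y₂ u|) : F.Mover x y u (L.sh x₂ y₂ u) := by
  have c1 := P.hD
  have c2 := P.hT0
  have c3 := P.hT3
  have c4 := P.hA
  have c5 := P.hR1
  have c6 := P.hR
  refine ⟨fun z hz => h.near hH hz, fun z hz => h.inv.near hH hz, fun z w hz hw hd => ?_,
    fun z hz => ?_, hbig⟩
  · obtain ⟨m1, m2, m3, m4, m5, m6, m7, m8⟩ := h.main hH hz.1 (by have := hz.2.1; omega)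
      (by have := hz.2.2; omega)
    have f1 : F.hat.d z (u * z) ≤ 1 := F.hat_le_one' (by omega)
    have f2 : F.hat.d (u * z) w ≤ 1 := F.hat_le_one' (by omega)
    have f3 := F.hat.d_tri z (u * z) w
    have f4 := F.hat.d_tri x w z
    have f5 := F.hat.d_tri z w y
    have f6 := F.hat.d_comm z w
    have z1 := hz.2.1
    have z2 := hz.2.2
    obtain ⟨n1, -⟩ := h.main hH hw (by omega) (by omega)
    have a1 := L.d_tri x x₂ z
    have a2 := L.d_tri x x₂ w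
    have a3 := L.d_tri x₂ (u * z) w
    have a4 := L.d_tri x₂ w (u * z)
    have a5 := L.d_comm w (u * z)
    rw [abs_le]
    omega
  · obtain ⟨m1, m2, m3, m4, m5, m6, m7, m8⟩ := h.main hH hz.1 (by have := hz.2.1; omega)
      (by have := hz.2.2; omega)
    have f1 : F.hat.d z (u * z) ≤ 1 := F.hat_le_one' (by omega)
    omega

variable (F)

/-- A coherent element with large shift is a mover. -/
theorem mover_of_shift (hH : L.Hyp P.D) {x y g : G} (h : F.Coh x y g) {σ : ℤ}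
    (hσ : ∀ z w, F.Mid x y (P.T0 + P.D) z → L.Btw x w y →
      L.d (g * z) w ≤ 10 * P.D → |(L.d x w : ℤ) - L.d x z - σ| ≤ 60 * P.D)
    (hbig : 900 * (P.D : ℤ) < |σ|) : F.Mover x y g σ := by
  have c1 := P.hD
  have c2 := P.hT0
  have hm : ∀ z, F.Mid x y (2 * P.T0) z → F.Mid x y (P.T0 + P.D) z := fun z hz =>
    ⟨hz.1, by have := hz.2.1; omega, by have := hz.2.2; omega⟩
  refine ⟨fun z hz => ?_, fun z hz => ?_, fun z w hz hw hd => ?_, fun z hz => ?_, by omega⟩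
  · obtain ⟨w, h1, h2⟩ := F.fellow' hH h (hm z hz)
    exact ⟨w, h1, by omega⟩
  · obtain ⟨w, h1, h2⟩ := F.fellow' hH h.inv (hm z hz)
    exact ⟨w, h1, by omega⟩
  · obtain ⟨w₀, h1, h2⟩ := F.fellow' hH h (hm z hz)
    have h3 := hσ z w₀ (hm z hz) h1 (by omega)
    have h4 := L.d_tri x w w₀
    have h5 := L.d_tri x w₀ w
    have h6 := L.d_comm w w₀
    have h7 := L.d_tri w (g * z) w₀
    have h8 := L.d_comm w (g * z)
    rw [abs_le] at h3 ⊢
    omega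
  · exact F.coh_disp hH h hz.1

/-- GC2. The power `u = g^n` of a coherent element. Proof: if the shift of `g` is `> 900 D` in
absolute value: `n = 1` (`fellow'`, `exists_shift`, `coh_disp`). Otherwise `x₁, y₁` middle points at
hat depth `T0 + 10 D`: they are moved at most `970 D` by `g`; `power`, `power_sh` for `x₁, y₁`; points
at hat depth `≥ 2 T0` are at distance `≥ R` from `x₁` and `y₁`, so they are deep; `transl_near` for
`u = g^n` and two points at distance `A` from `x₁, y₁`; the shift `σ` of `u` is its `L.sh`. The points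
of `[x, y]` and of `[x₁, y₁]` at the same position are within `3 D`. -/
theorem exists_mover (hG : Geo P L) {x y g : G} (hxy : P.A ≤ F.hat.d x y)
    (h : F.Coh x y g) (h1 : g ≠ 1) : ∃ n : ℕ, 1 ≤ n ∧ (∃ σ : ℤ, F.Mover x y (g ^ n) σ) ∧
      ∀ z, F.Mid x y (2 * P.T0) z → ∀ i < n, F.hat.d z (g ^ i * z) ≤ 1 := by
  have c1 := P.hD
  have c2 := P.hT0
  have c3 := P.hT3
  have c4 := P.hA
  have c5 := P.hR1
  have c6 := P.hR
  have c7 := P.hT4
  have hH := hG.hyp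
  obtain ⟨σ, hσ⟩ := F.exists_shift hH (by omega) h
  by_cases hbig : 900 * (P.D : ℤ) < |σ|
  · refine ⟨1, le_rfl, ⟨σ, ?_⟩, ?_⟩
    · rw [pow_one]
      exact F.mover_of_shift hH h hσ hbig
    · intro z hz i hi
      have hi0 : i = 0 := by omega
      rw [hi0, pow_zero, one_mul, F.hat.d_self]
      omega
  -- small shift
  have hxx : L.Btw x x y := by
    unfold Len.Btw
    rw [L.d_self, zero_add]
  have hyy : L.Btw y y x := by
    unfold Len.Btw
    rw [L.d_self, zero_add]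
  have hyx := F.hat.d_comm x y
  obtain ⟨x₁, hx₁, hhx₁⟩ := F.hat_interp hxx (P.T0 + 10 * P.D) (by omega)
  obtain ⟨y₁, hy₁, hhy₁⟩ := F.hat_interp hyy (P.T0 + 10 * P.D) (by omega)
  have hy₁' : L.Btw x y₁ y := btw_symm hy₁
  have e1 := F.hat.d_comm y y₁
  have t1 := F.hat.d_tri x x₁ y
  have t2 := F.hat.d_tri x y₁ y
  have t3 := F.hat.d_tri x x₁ y₁
  have m1 : F.Mid x y (P.T0 + P.D) x₁ := ⟨hx₁, by omega, by omega⟩
  have m2 : F.Mid x y (P.T0 + P.D) y₁ := ⟨hy₁', by omega, by omega⟩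
  have d1 := (F.shift_disp hH h hσ m1).1
  have d2 := (F.shift_disp hH h hσ m2).1
  have l1 := F.hat_len x₁ y₁ 1 (by omega)
  have l2 := F.hat_len x₁ y 1 (by omega)
  have o1 := gc_pos_le hH hx₁ hy₁' (F := F) (by omega)
  obtain ⟨n, hn, hpow⟩ := power (x := x₁) (y := y₁) (g := g) hG (by omega) h1 (by omega)
    (by omega)
  have b1 := btw_btw L hH hx₁ hy₁' o1
  have b2 := L.d_tri x x₁ y₁
  have hx₁b := hx₁
  have hy₁b := hy₁'
  unfold Len.Btw at hx₁b hy₁b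
  -- the ends
  obtain ⟨x₂, hx₂1, hx₂2⟩ := L.d_interp x y (L.d x x₁ + (P.A + 3 * P.D)) (by omega)
  have hx₂ : L.Btw x x₂ y := by unfold Len.Btw; omega
  obtain ⟨y₂, hy₂1, hy₂2⟩ := L.d_interp x y (L.d x y₁ - (P.A + 3 * P.D)) (by omega)
  have hy₂ : L.Btw x y₂ y := by unfold Len.Btw; omega
  have p1 := gc_power hH hx₁ hy₁' hpow hx₂ (by omega) (by omega)
  have p2 := gc_power hH hx₁ hy₁' hpow hy₂ (by omega) (by omega)
  have b3 := btw_btw L hH hx₁ hx₂ (by omega)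
  have b4 := btw_btw L hH hy₂ hy₁' (by omega)
  have q1 : F.hat.d x₁ x₂ ≤ 1 := F.hat_le_one' (by omega)
  have q2 : F.hat.d y₂ y₁ ≤ 1 := F.hat_le_one' (by omega)
  have q3 := F.hat.d_tri x x₁ x₂
  have q4 := F.hat.d_tri y₂ y₁ y
  have hE : GCends F x y x₂ y₂ (g ^ n) :=
    ⟨hx₂, hy₂, by omega, by omega, p1.1 n le_rfl, p2.1 n le_rfl⟩
  -- middle points
  have hmid : ∀ z, F.Mid x y (2 * P.T0) z →
      (∀ i ≤ n, L.d z (g ^ i * z) ≤ P.T3 + 6 * P.D) ∧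
      P.T4 ≤ L.d z (g ^ n * z) + 16 * P.D := by
    intro z hz
    obtain ⟨hz1, hz2, hz3⟩ := hz
    have r1 := gc_pos_le hH hx₁ hz1 (F := F) (by omega)
    have r2 := btw_btw L hH hx₁ hz1 r1
    have r3 := F.hat.d_tri x x₁ z
    have r4 := F.hat_len x₁ z 1 (by omega)
    have r5 := F.hat.d_tri z y₁ y
    have r6 := F.hat_len z y₁ 1 (by omega)
    have e2 := F.hat.d_comm z y
    have r7 := gc_pos_le hH hy₁ (btw_symm hz1) (F := F) (by omega)
    have e3 := L.d_comm y z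
    have e4 := L.d_comm y y₁
    have hz1b := hz1
    unfold Len.Btw at hz1b
    have r8 := btw_btw L hH hz1 hy₁' (by omega)
    exact gc_power hH hx₁ hy₁' hpow hz1 (by omega) (by omega)
  refine ⟨n, hn, ⟨_, hE.mover hH ?_⟩, ?_⟩
  · obtain ⟨z₀, hz₀, hz₀1⟩ := F.hat_interp hxx (3 * P.T0) (by omega)
    have t4 := F.hat.d_tri x z₀ y
    have m3 : F.Mid x y (2 * P.T0) z₀ := ⟨hz₀, by omega, by omega⟩
    have d3 := (hmid z₀ m3).2
    obtain ⟨-, -, -, -, -, -, m7, -⟩ := hE.main hH hz₀ (by omega) (by omega)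
    omega
  · intro z hz i hi
    have d3 := (hmid z hz).1 i hi.le
    exact F.hat_le_one' (by omega)

end QF

end Pool.Agent.Beb
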