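import Pool.Agent.Work.MP_beb559_al.GC

/-!
# Travelling with a mover
-/

namespace Pool.Agent.Beb

namespace QF

variable {P : Par} {G : Type} [Group G] {L : Len G} (F : QF P L)

/-- The images `u^j * p` form a quasi-geodesic. -/
theorem mover_chain (hH : L.Hyp P.D) {x y u p : G} {σ : ℤ} (h : F.Mover x y u σ) (hσ : 0 < σ)
    (hp : F.Mid x y (4 * P.T0) p) : (∀ j, 500 * P.D ≤ L.d (u ^ j * p) (u ^ (j + 1) * p)) ∧
    ∀ j, L.d p (u ^ j * p) + L.d (u ^ j * p) (u ^ (j + 1) * p) ≤
      L.d p (u ^ (j + 1) * p) + 43 * P.D := by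
  have c1 := P.hD
  have c2 := P.hT0
  obtain ⟨w1, hw1, hd1⟩ := h.near' p ⟨hp.1, by have := hp.2.1; omega, by have := hp.2.2; omega⟩
  obtain ⟨w2, hw2, hd2⟩ := h.near p ⟨hp.1, by have := hp.2.1; omega, by have := hp.2.2; omega⟩
  have p1 := abs_le.1 (Mover.inv F hH h p w1 hp hw1 (by omega))
  have p2 := abs_le.1 (h.pos p w2 ⟨hp.1, by have := hp.2.1; omega, by have := hp.2.2; omega⟩ hw2
    (by omega))
  have hbig := h.big
  rw [abs_of_pos hσ] at hbig
  have b1 := btw_btw L hH hw1 hp.1 (by omega)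
  have b2 := btw_btw L hH hp.1 hw2 (by omega)
  have t1 := L.d_tri x w1 w2
  have t2 := L.d_tri w1 (u⁻¹ * p) w2
  have t3 := L.d_tri (u⁻¹ * p) (u * p) w2
  have t4 := L.d_tri (u⁻¹ * p) w1 p
  have t5 := L.d_tri p w2 (u * p)
  have t6 := L.d_tri p (u * p) w2
  have t7 := L.d_tri x p w2
  have e1 := L.d_comm (u⁻¹ * p) w1
  have e2 := L.d_comm w2 (u * p)
  have key : L.d (u⁻¹ * p) p + L.d p (u * p) ≤ L.d (u⁻¹ * p) (u * p) + 42 * P.D := by omega
  have key1 : 500 * P.D ≤ L.d p (u * p) := by omega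
  have hs1 : ∀ j, L.d (u ^ j * p) (u ^ (j + 1) * p) = L.d p (u * p) := by
    intro j
    rw [pow_succ, mul_assoc, L.d_smul]
  have hs2 : ∀ j, L.d (u ^ j * p) (u ^ (j + 2) * p) = L.d (u⁻¹ * p) (u * p) := by
    intro j
    rw [show u ^ (j + 2) * p = u ^ j * (u * (u * p)) by rw [pow_add, pow_two]; group, L.d_smul,
      ← L.d_smul u⁻¹ p, inv_mul_cancel_left]
  have hs3 : L.d (u⁻¹ * p) p = L.d p (u * p) := by
    rw [← L.d_smul u (u⁻¹ * p) p, mul_inv_cancel_left]
  refine ⟨fun j => by rw [hs1]; exact key1, ?_⟩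
  intro j
  induction j with
  | zero =>
    rw [pow_zero, one_mul, L.d_self]
    omega
  | succ j ih =>
    have h2 : L.d (u ^ j * p) (u ^ (j + 1) * p) + L.d (u ^ (j + 1) * p) (u ^ (j + 1 + 1) * p) ≤
        L.d (u ^ j * p) (u ^ (j + 1 + 1) * p) + 42 * P.D := by
      have k1 := hs1 j
      have k2 := hs1 (j + 1)
      have k3 : L.d (u ^ j * p) (u ^ (j + 1 + 1) * p) = _ := hs2 j
      omega
    have k1 := hs1 j
    exact (chain L hH ih h2 (by omega)).2.trans (by omega)

/-- The stronger form of `travel`. -/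
theorem travel_aux (hH : L.Hyp P.D) {x y u p : G} {σ : ℤ} (h : F.Mover x y u σ) (hσ : 0 < σ)
    (hp : F.Mid x y (6 * P.T0) p) (k : ℕ)
    (hk : ∀ j ≤ k, ∀ w, L.Btw x w y → L.d (u ^ j * p) w ≤ 80 * P.D → 6 * P.T0 ≤ F.hat.d w y) :
    ∀ j ≤ k, ∃ w, L.Btw x w y ∧ L.d (u ^ j * p) w ≤ 60 * P.D ∧
      L.d x p + 500 * P.D * j ≤ L.d x w := by
  have c1 := P.hD
  have c2 := P.hT0
  obtain ⟨hstep, hch⟩ := F.mover_chain hH h hσ (p := p)
    ⟨hp.1, by have := hp.2.1; omega, by have := hp.2.2; omega⟩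
  have hbig := h.big
  rw [abs_of_pos hσ] at hbig
  intro j
  induction j with
  | zero =>
    intro _
    refine ⟨p, hp.1, ?_, ?_⟩
    · rw [pow_zero, one_mul, L.d_self]
      omega
    · omega
  | succ j ih =>
    intro hj
    obtain ⟨w, hw, hd, hpos⟩ := ih (by omega)
    -- `w` is a middle point
    have hmid : ∀ w', L.Btw x w' y → L.d x p ≤ L.d x w' → 6 * P.T0 ≤ F.hat.d w' y →
        F.Mid x y (2 * P.T0) w' := by
      intro w' hw' hle h6
      have h1 := F.hat_mono hH hp.1 hw' hle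
      have h2 := hp.2.1
      exact ⟨hw', by omega, by omega⟩
    have hpos' : L.d x p ≤ L.d x w := le_trans (Nat.le_add_right _ _) hpos
    have hwm := hmid w hw hpos' (hk j (by omega) w hw (by omega))
    obtain ⟨w', hw', hd'⟩ := h.near w hwm
    have hq1 : L.d (u ^ (j + 1) * p) (u * w) = L.d (u ^ j * p) w := by
      rw [pow_succ', mul_assoc, L.d_smul]
    have t1 := L.d_tri (u ^ (j + 1) * p) (u * w) w'
    have p1 := abs_le.1 (h.pos w w' hwm hw' (by omega))
    have hwm' := hmid w' hw' (by omega) (hk (j + 1) hj w' hw' (by omega))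
    obtain ⟨w2, hw2, hd2⟩ := h.near w' hwm'
    have hq2 : L.d (u ^ (j + 1 + 1) * p) (u * w') = L.d (u ^ (j + 1) * p) w' := by
      rw [pow_succ', mul_assoc, L.d_smul]
    have t2 := L.d_tri (u ^ (j + 1 + 1) * p) (u * w') w2
    have p2 := abs_le.1 (h.pos w' w2 hwm' hw2 (by omega))
    -- the point between
    have hc := hch (j + 1)
    have hst := hstep (j + 1)
    obtain ⟨z, hz, -, hz1⟩ := near_btw L hH hc
    obtain ⟨z', hz', hz2⟩ := thin L hH w2 hz
    have hz'1 : L.Btw p z' w2 := by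
      rcases hz' with hz' | hz'
      · exact hz'
      · exfalso
        have t3 := L.d_tri (u ^ (j + 1) * p) z (u ^ (j + 1 + 1) * p)
        have t4 := L.d_tri z z' (u ^ (j + 1 + 1) * p)
        have e1 := L.d_comm w2 (u ^ (j + 1 + 1) * p)
        unfold Len.Btw at hz'
        omega
    have b1 := btw_btw L hH hp.1 hw2 (by omega)
    have t5 := L.d_tri x p z'
    have t6 := L.d_tri z' w2 y
    have hz'3 : L.d x z' + L.d z' y ≤ L.d x y + P.D := by
      have g1 : L.d p z' + L.d z' w2 = L.d p w2 := hz'1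
      have g2 : L.d x w2 + L.d w2 y = L.d x y := hw2
      omega
    obtain ⟨v, hv, -, hv1⟩ := near_btw L hH hz'3
    have t7 := L.d_tri (u ^ (j + 1) * p) z v
    have t8 := L.d_tri z z' v
    have t9 := L.d_tri (u * w) (u ^ (j + 1) * p) v
    have e2 := L.d_comm (u * w) (u ^ (j + 1) * p)
    have p3 := abs_le.1 (h.pos w v hwm hv (by omega))
    refine ⟨v, hv, by omega, ?_⟩
    have e3 : 500 * P.D * (j + 1) = 500 * P.D * j + 500 * P.D := by ring
    omega

/-- GC3. Travelling lemma (no accumulation of errors). `σ > 0`, `p` a middle point, `q j = u^j * p`. As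
long as the points of `[x, y]` close to `q 0, ..., q j` are in the middle part, `q j` is within
`60 D` of `[x, y]`. Proof: the triples `q (j-1), q j, q (j+1)` are translates of
`u⁻¹*p, p, u*p`, and `p` is `42 D`-between `u⁻¹*p` and `u*p` (`near`, `near'`, `pos`, `Mover.inv`); by
`chain` `q (j+1)` is `43 D`-between `q 0` and `q (j+2)` (all steps are `≥ 500 D` long). Induction:
`q j` is within `60 D` of `w j ∈ [x,y]`, a middle point; so `q (j+1)` is within `70 D` of `[x,y]`, and
(if the point of `[x,y]` there is still a middle point) `q (j+2)` is within `80 D` of `[x,y]`; then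
`q (j+1)` is within `43 D + D + 4 D + 2 D ≤ 60 D` of `[x,y]` (`near_btw`, `quad`). The positions increase
by at least `600 D - 10 D` each step (`pos` with `130 D`). -/
theorem travel (hH : L.Hyp P.D) {x y u p : G} {σ : ℤ} (h : F.Mover x y u σ) (hσ : 0 < σ)
    (hp : F.Mid x y (6 * P.T0) p) (k : ℕ)
    (hk : ∀ j ≤ k, ∀ w, L.Btw x w y → L.d (u ^ j * p) w ≤ 80 * P.D → 6 * P.T0 ≤ F.hat.d w y) :
    ∀ j ≤ k, ∃ w, L.Btw x w y ∧ L.d (u ^ j * p) w ≤ 60 * P.D ∧
      L.d x p + 500 * P.D * j ≤ L.d x w + 100 * P.D := by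
  intro j hj
  obtain ⟨w, h1, h2, h3⟩ := F.travel_aux hH h hσ hp k hk j hj
  exact ⟨w, h1, h2, h3.trans (Nat.le_add_right _ _)⟩

/-- GC4. Reaching: for every target hat distance `N` to `x` (between that of `p` and
`hat x y - 8 T0`) some `q j` is close to a point `w` of `[x,y]` with
`N ≤ hat x w ≤ N + 2 T0`. Proof: `travel`; the positions increase, so the middle part is left on the
side of `y`; the hat steps are at most `T0 + 5 D + 2`. -/
theorem reach (hH : L.Hyp P.D) {x y u p : G} {σ : ℤ} (h : F.Mover x y u σ) (hσ : 0 < σ)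
    (hp : F.Mid x y (6 * P.T0) p) (N : ℕ) (h1 : F.hat.d x p ≤ N)
    (h2 : N + 8 * P.T0 ≤ F.hat.d x y) :
    ∃ (j : ℕ) (w : G), L.Btw x w y ∧ L.d (u ^ j * p) w ≤ 60 * P.D ∧
      N ≤ F.hat.d x w ∧ F.hat.d x w ≤ N + 2 * P.T0 := by
  have c1 := P.hD
  have c2 := P.hT0
  have c3 := P.hT3
  have c4 := P.hA
  have c5 := P.hR1
  have c6 := P.hR
  by_contra hcon
  push Not at hcon
  have key : ∀ j : ℕ, ∃ w, L.Btw x w y ∧ L.d (u ^ j * p) w ≤ 60 * P.D ∧
      L.d x p + 500 * P.D * j ≤ L.d x w ∧ F.hat.d x w < N := by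
    intro j
    induction j using Nat.strong_induction_on with
    | _ j ih =>
      rcases Nat.eq_zero_or_pos j with h0 | h0
      · subst h0
        refine ⟨p, hp.1, ?_, ?_, ?_⟩
        · rw [pow_zero, one_mul, L.d_self]
          omega
        · omega
        · by_contra hc
          have h3 := hcon 0 p hp.1 (by rw [pow_zero, one_mul, L.d_self]; omega) (by omega)
          omega
      · have hnear : ∀ w, L.Btw x w y → L.d (u ^ j * p) w ≤ 80 * P.D →
            F.hat.d x w ≤ N + 2 * P.T0 ∧ 6 * P.T0 ≤ F.hat.d w y := by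
          intro w hw hd
          obtain ⟨v, hv, hvd, hvp, hvN⟩ := ih (j - 1) (by omega)
          have m1 := F.hat_mono hH hp.1 hv (le_trans (Nat.le_add_right _ _) hvp)
          have m2 := F.hat.d_tri x v y
          have hvm : F.Mid x y (2 * P.T0) v := ⟨hv, by have := hp.2.1; omega, by omega⟩
          have m3 := h.hat v hvm
          have hq : L.d (u ^ j * p) (u * v) = L.d (u ^ (j - 1) * p) v := by
            obtain ⟨i, rfl⟩ : ∃ i, j = i + 1 := ⟨j - 1, by omega⟩
            rw [pow_succ', mul_assoc, L.d_smul]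
            rfl
          have m4 := L.d_tri (u * v) (u ^ j * p) w
          have e1 := L.d_comm (u * v) (u ^ j * p)
          have m5 : F.hat.d (u * v) w ≤ 1 := F.hat_le_one' (by omega)
          have m6 := F.hat.d_tri x v w
          have m7 := F.hat.d_tri v (u * v) w
          have m8 := F.hat.d_tri x w y
          exact ⟨by omega, by omega⟩
        obtain ⟨w, hw1, hw2, hw3⟩ := F.travel_aux hH h hσ hp j (by
          intro i hi w hw hd
          rcases Nat.lt_or_ge i j with hlt | hge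
          · obtain ⟨v, hv, hvd, hvp, hvN⟩ := ih i hlt
            have m4 := L.d_tri v (u ^ i * p) w
            have e1 := L.d_comm v (u ^ i * p)
            have m5 : F.hat.d v w ≤ 1 := F.hat_le_one' (by omega)
            have m6 := F.hat.d_tri x v w
            have m8 := F.hat.d_tri x w y
            omega
          · have hij : i = j := by omega
            subst hij
            exact (hnear w hw hd).2) j le_rfl
        refine ⟨w, hw1, hw2, hw3, ?_⟩
        by_contra hc
        have h3 := hcon j w hw1 hw2 (by omega)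
        have h4 := (hnear w hw1 (by omega)).1
        omega
  obtain ⟨w, hw, -, hpos, -⟩ := key (L.d x y + 1)
  unfold Len.Btw at hw
  have h3 : L.d x y + 1 ≤ 500 * P.D * (L.d x y + 1) :=
    Nat.le_mul_of_pos_left _ (by omega)
  omega

end QF

end Pool.Agent.Beb
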