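import Pool.Agent.Work.MP_beb559_al.GC2

/-!
# The number of steps
-/

namespace Pool.Agent.Beb

namespace QF

variable {P : Par} {G : Type} [Group G] {L : Len G} (F : QF P L)

/-- Quasi-convexity of the displacement for a point which is only `ε`-between. -/
theorem disp_qc' {G : Type} [Group G] (L : Len G) {D : ℕ} (hH : L.Hyp D) {x y z g : G} {T ε : ℕ}
    (hz : L.d x z + L.d z y ≤ L.d x y + ε) (hx : L.d x (g * x) ≤ T) (hy : L.d y (g * y) ≤ T) :
    L.d z (g * z) ≤ T + 4 * D + 2 * ε := by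
  obtain ⟨z', h1, -, h3⟩ := near_btw L hH hz
  have h4 := disp_qc L hH h1 hx hy
  have h5 := TBaux.d_le_d L g z z'
  omega

/-- Positions are compared by hat distances. -/
theorem ord_of_hat (hH : L.Hyp P.D) {x y z w : G} (hz : L.Btw x z y) (hw : L.Btw x w y)
    (h : F.hat.d x z + 22 < F.hat.d x w) : L.d x z ≤ L.d x w := by
  by_contra hc
  push Not at hc
  have := F.hat_mono hH hw hz hc.le
  omega

/-- Three points of the geodesic. -/
theorem hat_three (hH : L.Hyp P.D) {x y p q r : G} (hp : L.Btw x p y) (hq : L.Btw x q y)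
    (hr : L.Btw x r y) (h1 : F.hat.d x p + 22 < F.hat.d x q)
    (h2 : F.hat.d x q + 22 < F.hat.d x r) :
    F.hat.d p q + F.hat.d q r ≤ F.hat.d p r + 44 := by
  have a1 := F.hat_mono hH hp hq (F.ord_of_hat hH hp hq h1)
  have a2 := F.hat_mono hH hq hr (F.ord_of_hat hH hq hr h2)
  have a3 := F.hat.d_tri x p r
  omega

/-- A point with prescribed hat distance to `x`. -/
theorem exists_at {x y : G} (n : ℕ) (hn : n ≤ F.hat.d x y) :
    ∃ w, L.Btw x w y ∧ F.hat.d x w = n := by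
  have h : L.Btw x x y := by
    unfold Len.Btw
    rw [L.d_self, zero_add]
  exact F.hat_interp h n hn

/-- The case of a positive shift. -/
theorem exists_steps_pos (hH : L.Hyp P.D) {x y u : G} {σ : ℤ} (hxy : F.hat.d x y = P.A)
    (h : F.Mover x y u σ) (hσ : 0 < σ) : ∃ k : ℕ, 1 ≤ k ∧
      ∀ z, L.Btw x z y → P.A ≤ 4 * (F.hat.d x z + P.D) → P.A ≤ 4 * (F.hat.d z y + P.D) →
        (∀ j ≤ k, F.hat.d z (u ^ j * z) ≤ 3 * P.T0 + 60 * P.D) ∧
        P.T4 + 30 * P.D ≤ F.hat.d z (u ^ k * z) ∧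
        ∃ w, L.Btw x w y ∧ F.hat.d (u ^ k * z) w ≤ 6 * P.D := by
  classical
  have q1 := P.hD
  have q2 := P.hT0
  have q3 := P.hT3
  have q4 := P.hT4
  have q5 := P.hA
  have q6 := P.hR1
  have q7 := P.hR
  have hhat := F.hat_hyp hH
  -- a move by a power does not change the displacement
  have hcomm : ∀ (j k : ℕ) (p : G),
      F.hat.d (u ^ j * p) (u ^ k * (u ^ j * p)) = F.hat.d p (u ^ k * p) := by
    intro j k p
    have e : u ^ k * (u ^ j * p) = u ^ j * (u ^ k * p) := by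
      rw [← mul_assoc, ← mul_assoc, ← pow_add, ← pow_add, add_comm]
    rw [e, F.hat.d_smul]
  have hclose : ∀ (j k : ℕ) (p w : G), L.d (u ^ j * p) w ≤ 60 * P.D →
      F.hat.d p (u ^ k * p) ≤ F.hat.d w (u ^ k * w) + 2 ∧
      F.hat.d w (u ^ k * w) ≤ F.hat.d p (u ^ k * p) + 2 := by
    intro j k p w hw
    have a1 : F.hat.d (u ^ j * p) w ≤ 1 := F.hat_le_one' (by omega)
    have a2 := TBaux.d_le_d F.hat (u ^ k) (u ^ j * p) w
    have a3 := TBaux.d_le_d F.hat (u ^ k) w (u ^ j * p)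
    rw [hcomm] at a2 a3
    have a4 := F.hat.d_comm w (u ^ j * p)
    omega
  -- existence of a large displacement
  have hex : ∃ k : ℕ, ∃ p, F.Mid x y (100 * P.T0) p ∧
      P.T4 + 50 * P.D ≤ F.hat.d p (u ^ k * p) := by
    obtain ⟨p, hp1, hp2⟩ := F.exists_at (x := x) (y := y) (200 * P.T0) (by omega)
    have hp3 := F.hat.d_tri x p y
    have hp : F.Mid x y (6 * P.T0) p := ⟨hp1, by omega, by omega⟩
    obtain ⟨j, w, hw1, hw2, hw3, hw4⟩ := F.reach hH h hσ hp (400 * P.T0) (by omega) (by omega)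
    refine ⟨j, p, ⟨hp1, by omega, by omega⟩, ?_⟩
    have a1 : F.hat.d (u ^ j * p) w ≤ 1 := F.hat_le_one' (by omega)
    have a2 := F.hat.d_tri x p w
    have a3 := F.hat.d_tri p (u ^ j * p) w
    omega
  obtain ⟨k, hk⟩ : ∃ k, k = Nat.find hex := ⟨_, rfl⟩
  obtain ⟨p₁, hp₁, hp₁'⟩ : ∃ p, F.Mid x y (100 * P.T0) p ∧
      P.T4 + 50 * P.D ≤ F.hat.d p (u ^ k * p) := by
    rw [hk]
    exact Nat.find_spec hex
  have hk0 : k ≠ 0 := by
    intro h0
    rw [h0, pow_zero, one_mul, F.hat.d_self] at hp₁'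
    omega
  have hlt : ∀ j < k, ∀ p, F.Mid x y (100 * P.T0) p →
      F.hat.d p (u ^ j * p) < P.T4 + 50 * P.D := by
    intro j hj p hp
    have := Nat.find_min hex (m := j) (by omega)
    by_contra hc
    push Not at hc
    exact this ⟨p, hp, hc⟩
  have hle : ∀ j ≤ k, ∀ p, F.Mid x y (100 * P.T0) p →
      F.hat.d p (u ^ j * p) ≤ 3 * P.T0 + 55 * P.D := by
    intro j hj p hp
    rcases Nat.eq_zero_or_pos j with h0 | h0
    · rw [h0, pow_zero, one_mul, F.hat.d_self]
      omega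
    obtain ⟨i, rfl⟩ : ∃ i, j = i + 1 := ⟨j - 1, by omega⟩
    have b1 := hlt i (by omega) p hp
    have b2 := F.hat.d_tri p (u ^ i * p) (u ^ (i + 1) * p)
    have b3 := TBaux.d_pow_add F.hat u p i 1
    rw [pow_one] at b3
    have b4 := h.hat p ⟨hp.1, by have := hp.2.1; omega, by have := hp.2.2; omega⟩
    omega
  -- the ends of the middle part
  obtain ⟨a, ha1, ha2⟩ := F.exists_at (x := x) (y := y) (100 * P.T0) (by omega)
  have ha3 := F.hat.d_tri x a y
  obtain ⟨b, hb1, hb2⟩ := F.exists_at (x := y) (y := a) (100 * P.T0)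
    (by have := F.hat.d_comm a y; omega)
  have hb1' : L.Btw a b y := btw_symm hb1
  have hb3 : L.Btw x b y := btw_right ha1 hb1'
  have hb4 := F.hat.d_tri x b y
  have hb5 := F.hat.d_comm b y
  have haM : F.Mid x y (100 * P.T0) a := ⟨ha1, by omega, by omega⟩
  have hbM : F.Mid x y (100 * P.T0) b := ⟨hb3, by omega, by omega⟩
  have hab : ∀ w, L.Btw a w b → L.Btw x w y := by
    intro w hw
    exact btw_right ha1 (btw_left hb1' hw)
  have haT := hle k le_rfl a haM
  have hbT := hle k le_rfl b hbM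
  -- deep points
  have hdeep : ∀ z, L.Btw x z y → 104 * P.T0 ≤ F.hat.d x z → 104 * P.T0 ≤ F.hat.d z y →
      |F.hat.sh a b (u ^ k)| ≤ F.hat.d z (u ^ k * z) + 2 * P.D ∧
      (F.hat.d z (u ^ k * z) : ℤ) ≤ |F.hat.sh a b (u ^ k)| + (3 * P.D + 44) ∧
      F.hat.d a (u ^ k * z) + F.hat.d (u ^ k * z) b ≤ F.hat.d a b + (3 * P.D + 44) := by
    intro z hz z1 z2
    have c1 := F.hat_btw hH hz
    have c2 := F.hat_three hH ha1 hz hb3 (by omega) (by omega)
    have c3 := F.hat.d_tri x a z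
    have c4 := F.hat.d_tri z b y
    obtain ⟨-, -, -, -, a5, a6, a7⟩ := transl F.hat hhat (T := 3 * P.T0 + 55 * P.D) haT hbT c2
      (by omega) (by omega)
    push_cast at a7
    exact ⟨a6, by omega, a5⟩
  -- a deep point with large displacement
  have hv : ∃ v, L.Btw x v y ∧ 104 * P.T0 ≤ F.hat.d x v ∧ 104 * P.T0 ≤ F.hat.d v y ∧
      P.T4 + 40 * P.D ≤ F.hat.d v (u ^ k * v) := by
    obtain ⟨hp1, hp2, hp3⟩ := hp₁
    rcases Nat.lt_or_ge (F.hat.d x p₁) (104 * P.T0) with c1 | c1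
    · obtain ⟨j, v, hv1, hv2, hv3, hv4⟩ := F.reach hH h hσ (p := p₁)
        ⟨hp1, by omega, by omega⟩ (400 * P.T0) (by omega) (by omega)
      have c2 := (hclose j k p₁ v hv2).1
      have c3 := F.hat.d_tri x v y
      exact ⟨v, hv1, by omega, by omega, by omega⟩
    rcases Nat.lt_or_ge (F.hat.d p₁ y) (104 * P.T0) with c2 | c2
    swap
    · exact ⟨p₁, hp1, c1, c2, by omega⟩
    obtain ⟨q, hq1, hq2⟩ := F.exists_at (x := x) (y := y) (400 * P.T0) (by omega)
    have hq3 := F.hat.d_tri x q y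
    by_contra hc
    push Not at hc
    have c3 := hc q hq1 (by omega) (by omega)
    obtain ⟨j, w, hw1, hw2, hw3, hw4⟩ := F.reach hH h hσ (p := q)
      ⟨hq1, by omega, by omega⟩ (750 * P.T0) (by omega) (by omega)
    have c4 := (hclose j k q w hw2).2
    have c5 := F.hat_btw hH hp1
    have c6 := F.hat.d_tri x p₁ y
    have c7 := F.hat_three hH hq1 hp1 hw1 (by omega) (by omega)
    have c8 := disp_qc' F.hat hhat (g := u ^ k) (T := P.T4 + 40 * P.D + 2) c7 (by omega)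
      (by omega)
    omega
  obtain ⟨v, hv1, hv2, hv3, hv4⟩ := hv
  obtain ⟨d1, d2, d3⟩ := hdeep v hv1 hv2 hv3
  refine ⟨k, by omega, fun z hz z1 z2 => ⟨fun j hj => ?_, ?_, ?_⟩⟩
  · have := hle j hj z ⟨hz, by omega, by omega⟩
    omega
  · obtain ⟨e1, e2, e3⟩ := hdeep z hz (by omega) (by omega)
    omega
  · obtain ⟨e1, e2, e3⟩ := hdeep z hz (by omega) (by omega)
    obtain ⟨z', f1, -, f2⟩ := near_btw F.hat hhat e3
    obtain ⟨w, g1, g2⟩ := F.hat_near hH f1
    refine ⟨w, hab w g1, ?_⟩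
    have := F.hat.d_tri (u ^ k * z) z' w
    omega

/-- GC5. The number of steps. Proof: let `k` be least `≥ 1` such that some `p` in the part
`M = Mid (A/8)` has `hat p (u^k*p) ≥ T4 + 50 D` (exists by `reach`). All points of `M` are moved at
most `3 T0 + 60 D` by `u^j`, `j ≤ k`. Let `p₁ ∈ M` be moved at least `T4 + 50 D` by `u^k`; by `reach`
(or its mirror image, or `p₁` itself) some `u^j*p₁` is close to a point `v` of `[x,y]` with hat
distance `≥ A/8 + 10 T0` to both ends; `v` is moved at least `T4 + 48 D` by `u^k` (`u^j` and `u^k`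
commute). `transl` for `F.hat`, the ends of `M` and the test point `v`: the hat shift of `u^k` is at
least `T4 + 40 D`, so all points at hat distance `≥ A/4 - D` from the ends are moved at least
`T4 + 30 D`, and are mapped close to `[x, y]` (`transl_near` for `F.hat`, `hat_near`). -/
theorem exists_steps (hH : L.Hyp P.D) {x y u : G} {σ : ℤ} (hxy : F.hat.d x y = P.A)
    (h : F.Mover x y u σ) : ∃ k : ℕ, 1 ≤ k ∧
      ∀ z, L.Btw x z y → P.A ≤ 4 * (F.hat.d x z + P.D) → P.A ≤ 4 * (F.hat.d z y + P.D) →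
        (∀ j ≤ k, F.hat.d z (u ^ j * z) ≤ 3 * P.T0 + 60 * P.D) ∧
        P.T4 + 30 * P.D ≤ F.hat.d z (u ^ k * z) ∧
        ∃ w, L.Btw x w y ∧ F.hat.d (u ^ k * z) w ≤ 6 * P.D := by
  have hb := h.big
  have q1 := P.hD
  rcases lt_or_ge 0 σ with hσ | hσ
  · exact F.exists_steps_pos hH hxy h hσ
  · have h' := Mover.swap F hH h
    have hσ' : 0 < -σ := by
      rcases abs_cases σ with ⟨r1, r2⟩ | ⟨r1, r2⟩
      · rw [r1] at hb
        omega
      · omega
    obtain ⟨k, hk1, hk⟩ := F.exists_steps_pos hH (x := y) (y := x)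
      (by rw [F.hat.d_comm]; exact hxy) h' hσ'
    refine ⟨k, hk1, fun z hz z1 z2 => ?_⟩
    obtain ⟨e1, e2, w, e3, e4⟩ := hk z (btw_symm hz) (by rw [F.hat.d_comm y z]; exact z2)
      (by rw [F.hat.d_comm z x]; exact z1)
    exact ⟨e1, e2, w, btw_symm e3, e4⟩

end QF

end Pool.Agent.Beb
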