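import Pool.Agent.Work.MP_beb559_al.GC5
import Pool.Agent.Work.MP_beb559_al.GB6

/-!
# GC6. The condition (C2) for the quotient
-/

namespace Pool.Agent.Beb

namespace Rot

variable {P : Par} {G : Type} [Group G] {L : Len G} (F : Rot P L)

/-- The displacement of the powers downstairs is at most the displacement upstairs. -/
theorem dq_pow_le (g z : G) (i : ℕ) :
    F.dq.d (QuotientGroup.mk z) ((QuotientGroup.mk g : G ⧸ F.K) ^ i * QuotientGroup.mk z) ≤
      F.hat.d z (g ^ i * z) := by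
  have h := F.dq_le z (g ^ i * z) (one_mem F.K)
  rw [one_mul] at h
  exact h

/-- GC6. (C2) for the quotient. Proof: `exists_good`, `coherent`: `g` lifts to `g' ∈ Coh x y`,
`g' ≠ 1`; `exists_mover` (`n`), `exists_steps` (`k`); the exponent is `n * k`. A point `q` between
`mk x` and `mk y` lifts to `z` with `F.hat.Btw x z y` (`lift_btw`), `hat_near` gives `w` between
`x` and `y` for `L` with `hat z w ≤ D`. Upper bound: `g^i = (g^n)^j * g^l`. Lower bound: the point
`w'` close to `g'^(n k) * w` satisfies `dq (mk w) (mk w') = hat w w'` (`good_btw`). -/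
theorem c2_quo (hG : Geo P L) (q r : G ⧸ F.K) (hqr : F.dq.d q r = P.A) (g : G ⧸ F.K)
    (h1 : g ≠ 1) (hq : F.dq.d q (g * q) ≤ P.T0) (hr : F.dq.d r (g * r) ≤ P.T0) :
    ∃ n : ℕ, 1 ≤ n ∧ ∀ z, F.dq.Btw q z r → P.A ≤ 4 * F.dq.d q z → P.A ≤ 4 * F.dq.d z r →
      (∀ i ≤ n, F.dq.d z (g ^ i * z) ≤ P.T3) ∧ P.T4 ≤ F.dq.d z (g ^ n * z) := by
  have hH := hG.hyp
  have cD := P.hD
  have cT0 := P.hT0
  have cT3 := P.hT3
  have cT4 := P.hT4
  have cA := P.hA
  obtain ⟨x, y, s, rfl, rfl, hxy, hgood⟩ := F.exists_good hH q r (le_of_eq hqr)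
  obtain ⟨g₀, rfl⟩ := QuotientGroup.mk_surjective g
  obtain ⟨g', hg', hx', hy'⟩ := F.coherent hH hgood g₀
  rw [hqr] at hxy
  have hcoh : F.toQF.Coh x y g' := ⟨le_trans hx' hq, le_trans hy' hr⟩
  have hne : g' ≠ 1 := by
    rintro rfl
    exact h1 hg'.symm
  rw [← hg'] at *
  clear hx' hy' hg'
  obtain ⟨n, hn, ⟨σ, hmov⟩, hsmall⟩ :=
    F.toQF.exists_mover hG (le_of_eq hxy.symm) hcoh hne
  obtain ⟨k, hk, hsteps⟩ := F.toQF.exists_steps hH hxy hmov
  refine ⟨n * k, Nat.mul_pos hn hk, ?_⟩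
  intro zq hz hzx hzy
  obtain ⟨z, rfl, hz1, hz2⟩ := F.lift_btw hH hgood zq hz (hxy.trans hqr.symm)
  have hzb : F.hat.Btw x z y := by
    unfold Len.Btw
    rw [hz1, hz2, hxy, ← hqr]
    exact hz
  obtain ⟨w, hw, hzw⟩ := F.toQF.hat_near hH hzb
  have e1 := F.hat.d_tri x w z
  have e2 := F.hat.d_tri z w y
  have e3 := F.hat.d_comm z w
  have hwx : P.A ≤ 4 * (F.hat.d x w + P.D) := by omega
  have hwy : P.A ≤ 4 * (F.hat.d w y + P.D) := by omega
  obtain ⟨hs1, hs2, w', hw', hww'⟩ := hsteps w hw hwx hwy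
  have hmid : F.toQF.Mid x y (2 * P.T0) w := ⟨hw, by omega, by omega⟩
  -- displacement of `z` upstairs in terms of the one of `w`
  constructor
  · intro i hi
    refine le_trans (F.dq_pow_le g' z i) ?_
    have f1 := F.hat.d_tri z w (g' ^ i * z)
    have f2 := F.hat.d_tri w (g' ^ i * w) (g' ^ i * z)
    have f3 := F.hat.d_smul (g' ^ i) w z
    have f4 : F.hat.d w (g' ^ i * w) ≤ 3 * P.T0 + 60 * P.D + 1 := by
      have hi' : i / n ≤ k := by
        refine Nat.div_le_of_le_mul ?_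
        exact hi
      have f5 := hs1 (i / n) hi'
      have f6 := hsmall w hmid (i % n) (Nat.mod_lt _ hn)
      have f7 : g' ^ i = (g' ^ n) ^ (i / n) * g' ^ (i % n) := by
        rw [← pow_mul, ← pow_add, Nat.div_add_mod]
      have f8 := F.hat.d_tri w ((g' ^ n) ^ (i / n) * w)
        ((g' ^ n) ^ (i / n) * (g' ^ (i % n) * w))
      have f9 := F.hat.d_smul ((g' ^ n) ^ (i / n)) w (g' ^ (i % n) * w)
      rw [f7, mul_assoc]
      omega
    omega
  · have hgb := F.good_btw hH hgood hw hw'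
    have a1 := F.dq_le z w (one_mem F.K)
    rw [one_mul] at a1
    have a2 := F.dq_le (g' ^ (n * k) * w) w' (one_mem F.K)
    rw [one_mul] at a2
    have a3 : F.hat.d (g' ^ (n * k) * w) w' ≤ 6 * P.D := by
      rw [pow_mul]
      exact hww'
    have a4 := F.hat.d_tri w w' (g' ^ (n * k) * w)
    have a5 := F.hat.d_comm w' (g' ^ (n * k) * w)
    have a6 : P.T4 + 30 * P.D ≤ F.hat.d w (g' ^ (n * k) * w) := by
      rw [pow_mul]
      exact hs2
    -- downstairs
    have b0 : (QuotientGroup.mk (g' ^ (n * k) * w) : G ⧸ F.K) =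
        (QuotientGroup.mk g' : G ⧸ F.K) ^ (n * k) * QuotientGroup.mk w := rfl
    rw [b0] at a2
    have b1 := F.dq.d_tri (QuotientGroup.mk w)
      ((QuotientGroup.mk g' : G ⧸ F.K) ^ (n * k) * QuotientGroup.mk w) (QuotientGroup.mk w')
    have b2 := F.dq.d_smul ((QuotientGroup.mk g' : G ⧸ F.K) ^ (n * k))
      (QuotientGroup.mk z) (QuotientGroup.mk w)
    have b3 := F.dq.d_tri (QuotientGroup.mk w) (QuotientGroup.mk z)
      ((QuotientGroup.mk g' : G ⧸ F.K) ^ (n * k) * QuotientGroup.mk w)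
    have b4 := F.dq.d_tri (QuotientGroup.mk z)
      ((QuotientGroup.mk g' : G ⧸ F.K) ^ (n * k) * QuotientGroup.mk z)
      ((QuotientGroup.mk g' : G ⧸ F.K) ^ (n * k) * QuotientGroup.mk w)
    have b5 := F.dq.d_comm (QuotientGroup.mk w) (QuotientGroup.mk z)
    omega

end Rot

end Pool.Agent.Beb
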