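import Pool.Agent.Work.MP_beb559_al.Len

/-!
# Hyperbolic length functions: elementary estimates
-/

namespace Pool.Agent.Beb

namespace Len

variable {G : Type} [Group G] {L : Len G} {D : ℕ}

theorem btw_comm {x y z : G} (h : L.Btw x z y) : L.Btw y z x := by
  unfold Len.Btw at *
  rw [L.d_comm y z, L.d_comm z x, L.d_comm y x]
  omega

theorem btw_smul {x y z : G} (g : G) (h : L.Btw x z y) : L.Btw (g * x) (g * z) (g * y) := by
  unfold Len.Btw at *
  rw [L.d_smul, L.d_smul, L.d_smul]
  exact h

theorem d_inv_smul (g x : G) : L.d x (g⁻¹ * x) = L.d x (g * x) := by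
  rw [← L.d_smul g x (g⁻¹ * x), L.d_comm]
  simp

/-- Distance from a point to a point of a geodesic. -/
theorem Hyp.btw (hL : L.Hyp D) {x p y : G} (w : G) (h : L.Btw x p y) :
    L.d w p + L.d x y ≤ max (L.d w x + L.d p y) (L.d w y + L.d x p) + D := by
  have h1 := hL w x p y
  unfold Len.Btw at h
  rw [L.d_comm p y, L.d_comm x p] at *
  omega

/-- Points which are almost between are close to the geodesic. -/
theorem Hyp.close (hL : L.Hyp D) {x p y w : G} {a : ℕ} (h : L.Btw x p y)
    (h1 : L.d x w ≤ L.d x p + a) (h2 : L.d w y ≤ L.d p y + a) : L.d p w ≤ a + D := by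
  have h3 := hL.btw w h
  unfold Len.Btw at h
  rw [L.d_comm w x, L.d_comm w p] at h3
  omega

/-- Two points on geodesics from `x` to `y`. -/
theorem Hyp.two (hL : L.Hyp D) {x p q y : G} (hp : L.Btw x p y) (hq : L.Btw x q y) :
    L.d p q ≤ max (L.d x p - L.d x q) (L.d x q - L.d x p) + D := by
  have h3 := hL.btw q hp
  unfold Len.Btw at hp hq
  rw [L.d_comm q x, L.d_comm q p] at h3
  omega

/-- Thin triangles. -/
theorem Hyp.thin (hL : L.Hyp D) {x p y : G} (z : G) (h : L.Btw x p y) :
    ∃ q, (L.Btw x q z ∨ L.Btw z q y) ∧ L.d p q ≤ 2 * D + 1 := by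
  by_cases hc : 2 * L.d x p + L.d y z ≤ L.d x y + L.d x z
  · have hle : L.d x p ≤ L.d x z := by
      have := L.d_tri x z y
      have := L.d_tri x y z
      have e := L.d_comm y z
      unfold Len.Btw at h
      omega
    obtain ⟨q, h1, h2⟩ := L.d_interp x z (L.d x p) hle
    have hq : L.Btw x q z := by unfold Len.Btw; omega
    refine ⟨q, Or.inl hq, ?_⟩
    have a1 := hL.btw q h
    have a2 := hL.btw y hq
    unfold Len.Btw at h hq
    have e1 := L.d_comm q x
    have e2 := L.d_comm q p
    have e3 := L.d_comm q y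
    have e4 := L.d_comm y x
    omega
  · have hc := not_le.1 hc
    have hle : L.d p y ≤ L.d z y := by
      have := L.d_tri x z y
      have := L.d_tri x y z
      have e := L.d_comm y z
      unfold Len.Btw at h
      omega
    obtain ⟨q, h1, h2⟩ := L.d_interp y z (L.d p y) (by rw [L.d_comm y z]; exact hle)
    have hq : L.Btw z q y := by
      unfold Len.Btw
      rw [L.d_comm z q, L.d_comm q y, L.d_comm z y]
      omega
    refine ⟨q, Or.inr hq, ?_⟩
    have a1 := hL.btw q h
    have a2 := hL.btw x hq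
    unfold Len.Btw at h hq
    have e1 := L.d_comm q x
    have e2 := L.d_comm q p
    have e3 := L.d_comm q y
    have e4 := L.d_comm y z
    have e5 := L.d_comm x z
    omega

/-- Translation lemma: `g` moves `x`, `y` by at most `T`; deep points `z` of the geodesic are moved
along the geodesic by the shift `d x y - d (g x) y`. -/
theorem Hyp.translate (hL : L.Hyp D) {x y z q g : G} {T : ℕ} (hx : L.d x (g * x) ≤ T)
    (hy : L.d y (g * y) ≤ T) (hz : L.Btw x z y) (h1 : T + D ≤ L.d x z) (h2 : T + D ≤ L.d z y)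
    (hq : L.Btw x q y) (hs : (L.d x q : ℤ) = L.d x z + (L.d x y - L.d (g * x) y)) :
    L.d q (g * z) ≤ 2 * D ∧ L.d x (g * z) ≤ L.d x q + D ∧ L.d (g * z) y ≤ L.d q y + D := by
  have e1 := hL.btw y (btw_smul g hz)
  have e2 := hL.btw x (btw_smul g hz)
  rw [L.d_smul, L.d_smul, L.d_smul] at e1 e2
  have t1 := L.d_tri x (g * x) y
  have t2 := L.d_tri (g * x) x y
  have c1 := L.d_comm (g * x) x
  have c2 := L.d_comm (g * x) y
  have c3 := L.d_comm (g * z) y
  have c4 := L.d_comm y x
  have f1 := hL x (g * x) (g * z) y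
  rw [L.d_smul] at f1
  have hz' := hz
  have hq' := hq
  unfold Len.Btw at hz' hq'
  have k1 : L.d y (g * z) + L.d x z ≤ L.d (g * x) y + D := by omega
  have k2 : L.d x (g * z) ≤ L.d x q + D := by omega
  have k3 : L.d (g * z) y ≤ L.d q y + D := by omega
  refine ⟨?_, k2, k3⟩
  have := hL.close hq k2 k3
  omega

/-- Linear growth. -/
theorem Hyp.growth (hL : L.Hyp D) {x g : G} (h : L.d x (g * x) + D < L.d x (g ^ 2 * x)) (n : ℕ) :
    L.d x (g * x) + n * (L.d x (g ^ 2 * x) - L.d x (g * x) - D) ≤ L.d x (g ^ (n + 1) * x) := by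
  have key : ∀ n : ℕ, L.d x (g ^ n * x) + (L.d x (g ^ 2 * x) - L.d x (g * x) - D) ≤
      L.d x (g ^ (n + 1) * x) ∨ n = 0 := by
    intro n
    induction n with
    | zero => right; rfl
    | succ n ih =>
      left
      have h1 := hL x (g ^ n * x) (g ^ (n + 1) * x) (g ^ (n + 2) * x)
      have e1 : L.d (g ^ n * x) (g ^ (n + 2) * x) = L.d x (g ^ 2 * x) := by
        rw [pow_add, mul_assoc, L.d_smul]
      have e2 : L.d (g ^ n * x) (g ^ (n + 1) * x) = L.d x (g * x) := by
        rw [pow_succ, mul_assoc, L.d_smul]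
      have e3 : L.d (g ^ (n + 1) * x) (g ^ (n + 2) * x) = L.d x (g * x) := by
        rw [pow_succ g (n + 1), mul_assoc, L.d_smul]
      rw [e1, e2, e3] at h1
      have e4 : n + 1 + 1 = n + 2 := rfl
      rw [e4]
      rcases ih with ih | ih
      · omega
      · subst ih
        simp only [pow_zero, one_mul, zero_add, pow_one] at *
        have := L.d_self x
        omega
  induction n with
  | zero => simp
  | succ n ih =>
    rcases key (n + 1) with h1 | h1
    · have e4 : n + 1 + 1 = n + 2 := rfl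
      rw [e4] at h1 ⊢
      have : (n + 1) * (L.d x (g ^ 2 * x) - L.d x (g * x) - D) =
        n * (L.d x (g ^ 2 * x) - L.d x (g * x) - D) + (L.d x (g ^ 2 * x) - L.d x (g * x) - D) := by
        ring
      rw [this]
      omega
    · omega

end Len

end Pool.Agent.Beb
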