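import Pool.Agent.Work.MP_beb559_al.IsoA

/-!
# No flips, small elements on long geodesics commute
-/

namespace Pool.Agent.Beb

namespace Len

variable {G : Type} [Group G] {L : Len G} {D A : ℕ}

/-- Elements which move `x` and `y` by at most `T`. -/
def Small (L : Len G) (T : ℕ) (x y : G) : Set G :=
  {g | L.d x (g * x) ≤ T ∧ L.d y (g * y) ≤ T}

/-- (C1): small elements of long geodesics lie in a cyclic group generated by `1` or by a
loxodromic element. -/
def Cyc (L : Len G) (T A : ℕ) : Prop :=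
  ∀ x y : G, A ≤ L.d x y → ∃ f : G, (f = 1 ∨ Lox L f) ∧ ∀ g ∈ Small L T x y, g ∈ Subgroup.zpowers f

/-- (T): no elements of order two. -/
def NoTwo (G : Type) [Group G] : Prop := ∀ g : G, g * g = 1 → g = 1

/-- IB1. Small elements of long geodesics are `1` or loxodromic. -/
theorem Cyc.small_lox (hC : Cyc L (100 * D) A) {x y g : G} (hxy : A ≤ L.d x y)
    (hg : g ∈ Small L (100 * D) x y) : g = 1 ∨ Lox L g := by
  obtain ⟨f, hf, h⟩ := hC x y hxy
  obtain ⟨a, ha⟩ := Subgroup.mem_zpowers_iff.1 (h g hg)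
  rcases hf with rfl | hf
  · left; rw [← ha]; simp
  · by_cases h0 : a = 0
    · left; rw [← ha, h0]; simp
    · right; rw [← ha]; exact hf.zpow h0

/-- If `k` inverts the loxodromic element `s` then `k ^ 2` is `4 D`-small at points of arbitrarily
large distance. -/
theorem flip_point (hL : L.Hyp D) {s k : G} (hs : Lox L s) (h : k * s * k⁻¹ = s⁻¹) (A : ℕ) :
    ∃ x y : G, A ≤ L.d x y ∧ L.d x (k ^ 2 * x) ≤ 4 * D ∧ L.d y (k ^ 2 * y) ≤ 4 * D := by
  obtain ⟨N, hN⟩ := hs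
  set B := L.d 1 k with hB
  have hpow : ∀ m : ℕ, k * s ^ m = (s ^ m)⁻¹ * k := by
    intro m
    have h1 : k * s ^ m * k⁻¹ = (s ^ m)⁻¹ := by
      rw [← inv_pow, ← h, conj_pow]
    rw [← h1]; group
  -- the geodesic
  set m := (A + 2 * (2 * B + D)) * N + 1 with hm
  obtain ⟨γ, hγ, h0, hn⟩ := exists_geo L ((s ^ m)⁻¹) (s ^ m)
  set n := L.d ((s ^ m)⁻¹) (s ^ m) with hnd
  have hlen : A + 2 * (2 * B + D) ≤ n := by
    have h1 : n = L.d 1 (s ^ (2 * m) * 1) := by
      rw [hnd, ← L.d_smul (s ^ m), mul_one, two_mul, mul_inv_cancel, pow_add s m m]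
    have h2 := hN (2 * m) 1
    rw [← h1] at h2
    by_contra hc
    have h3 : n ≤ A + 2 * (2 * B + D) := by omega
    have h4 : N * n ≤ (A + 2 * (2 * B + D)) * N := by
      rw [mul_comm]; exact Nat.mul_le_mul_right _ h3
    omega
  -- the reversed image
  have hγ' : Geo L (fun i => k * γ (n - i)) n := by
    intro i j hij hj
    simp only
    rw [L.d_smul, L.d_comm, hγ (n - j) (n - i) (by omega) (by omega)]
    omega
  have hb0 : L.d (γ 0) (k * γ (n - 0)) ≤ B := by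
    rw [Nat.sub_zero, h0, hn, hpow, ← L.d_smul (s ^ m)]
    have e1 : s ^ m * (s ^ m)⁻¹ = 1 := by group
    have e2 : s ^ m * ((s ^ m)⁻¹ * k) = k := by group
    rw [e1, e2]
  have hbn : L.d (γ n) (k * γ (n - n)) ≤ B := by
    rw [Nat.sub_self, h0, hn]
    have e : k * (s ^ m)⁻¹ = s ^ m * k := by
      have := hpow m
      have h2 : s ^ m * (k * s ^ m) * (s ^ m)⁻¹ = s ^ m * ((s ^ m)⁻¹ * k) * (s ^ m)⁻¹ := by rw [this]
      have h3 : s ^ m * (k * s ^ m) * (s ^ m)⁻¹ = s ^ m * k := by group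
      have h4 : s ^ m * ((s ^ m)⁻¹ * k) * (s ^ m)⁻¹ = k * (s ^ m)⁻¹ := by group
      rw [h3, h4] at h2
      exact h2.symm
    rw [e, ← L.d_smul (s ^ m)⁻¹]
    have e1 : (s ^ m)⁻¹ * s ^ m = 1 := by group
    have e2 : (s ^ m)⁻¹ * (s ^ m * k) = k := by group
    rw [e1, e2]
  obtain ⟨t, ht, hfel⟩ := hL.fellow hγ hγ' hb0 hbn
  have key : ∀ j : ℕ, 2 * B + D ≤ j → j + (2 * B + D) ≤ n → L.d (γ j) (k ^ 2 * γ j) ≤ 4 * D := by
    intro j hj1 hj2
    rw [abs_le] at ht
    obtain ⟨i1, hi1⟩ : ∃ i1 : ℕ, (i1 : ℤ) = (n - j : ℕ) + t :=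
      ⟨((n - j : ℕ) + t).toNat, by omega⟩
    obtain ⟨i2, hi2⟩ : ∃ i2 : ℕ, (i2 : ℤ) = j - t := ⟨(j - t).toNat, by omega⟩
    have h1 := hfel (n - j) i1 (by omega) (by omega) hi1
    have h2 := hfel i2 j (by omega) (by omega) (by omega)
    have e1 : n - (n - j) = j := by omega
    have e2 : n - i2 = i1 := by omega
    rw [e1] at h1
    rw [e2] at h2
    have h3 := L.d_tri (γ j) (k * γ i1) (k ^ 2 * γ j)
    have h4 : L.d (k * γ i1) (k ^ 2 * γ j) = L.d (γ i1) (k * γ j) := by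
      rw [sq, mul_assoc, L.d_smul]
    omega
  refine ⟨γ (2 * B + D), γ (n - (2 * B + D)), ?_, key _ (by omega) (by omega),
    key _ (by omega) (by omega)⟩
  rw [hγ _ _ (by omega) (by omega)]
  omega

/-- IB2. A loxodromic element is not conjugate to its inverse. -/
theorem no_flip (hL : L.Hyp D) (hD : 1 ≤ D) (hC : Cyc L (100 * D) A) (h2 : NoTwo G) {s g : G}
    (hs : Lox L s) (h : g * s * g⁻¹ = s⁻¹) : False := by
  have hodd : ∀ m : ℕ, g ^ (2 * m + 1) * s * (g ^ (2 * m + 1))⁻¹ = s⁻¹ := by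
    intro m
    induction m with
    | zero => simpa using h
    | succ m ih =>
      have e1 : g ^ (2 * (m + 1) + 1) = g * (g * g ^ (2 * m + 1)) := by
        rw [← pow_succ', ← pow_succ']
        congr 1
      have e2 : g * (g * g ^ (2 * m + 1)) * s * (g * (g * g ^ (2 * m + 1)))⁻¹ =
          g * (g * (g ^ (2 * m + 1) * s * (g ^ (2 * m + 1))⁻¹) * g⁻¹) * g⁻¹ := by
        group
      have e3 : g * s⁻¹ * g⁻¹ = s := by
        calc g * s⁻¹ * g⁻¹ = (g * s * g⁻¹)⁻¹ := by group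
          _ = s := by rw [h, inv_inv]
      rw [e1, e2, ih, e3, h]
  have hg : g ^ 2 = 1 ∨ Lox L (g ^ 2) := by
    obtain ⟨x, y, h1, h3, h4⟩ := flip_point hL hs h A
    exact hC.small_lox h1 ⟨by omega, by omega⟩
  rcases hg with hg | hg
  · have g1 : g = 1 := h2 g (by rw [← sq]; exact hg)
    rw [g1] at h
    have s1 : s = 1 := h2 s (by
      have : s = s⁻¹ := by simpa using h
      nth_rewrite 1 [this]
      simp)
    exact hs.ne_one s1
  · obtain ⟨N, hN⟩ := hg
    obtain ⟨x, y, _, h3, _⟩ := flip_point hL hs (hodd (N * (4 * D))) A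
    have h4 := hN (2 * (N * (4 * D)) + 1) x
    have e : (g ^ 2) ^ (2 * (N * (4 * D)) + 1) = (g ^ (2 * (N * (4 * D)) + 1)) ^ 2 := by
      rw [← pow_mul, ← pow_mul, mul_comm]
    rw [e] at h4
    have h5 : N * L.d x ((g ^ (2 * (N * (4 * D)) + 1)) ^ 2 * x) ≤ N * (4 * D) :=
      Nat.mul_le_mul_left _ h3
    omega

/-- Powers of a commutator which commutes with both elements. -/
theorem comm_pow {g g' u : G} (hu : u = g * g' * g⁻¹ * g'⁻¹) (h1 : g * u = u * g) (n : ℕ) :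
    g ^ n * g' * (g ^ n)⁻¹ * g'⁻¹ = u ^ n := by
  have e0 : g' * g⁻¹ * g'⁻¹ = g⁻¹ * u := by rw [hu]; group
  have hc : Commute g⁻¹ u := (show Commute g u from h1).inv_left
  have e1 : g' * (g ^ n)⁻¹ * g'⁻¹ = (g' * g⁻¹ * g'⁻¹) ^ n := by
    rw [conj_pow, inv_pow]
  calc g ^ n * g' * (g ^ n)⁻¹ * g'⁻¹ = g ^ n * (g' * (g ^ n)⁻¹ * g'⁻¹) := by group
    _ = g ^ n * ((g⁻¹) ^ n * u ^ n) := by rw [e1, e0, hc.mul_pow]
    _ = u ^ n := by rw [inv_pow]; group

/-- Elements commuting with a loxodromic element `u`: their commutator moves some point by at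
most `8 D`. -/
theorem comm_point (hL : L.Hyp D) {u a b : G} (hu : Lox L u) (ha : Commute a u)
    (hb : Commute b u) : ∃ w, L.d w (a * b * a⁻¹ * b⁻¹ * w) ≤ 8 * D := by
  obtain ⟨N, hN⟩ := hu
  set T := max (L.d 1 a) (L.d 1 b) with hT
  set m := (2 * (5 * T + D)) * N + 1 with hm
  obtain ⟨γ, hγ, h0, hn⟩ := exists_geo L 1 (u ^ m)
  set n := L.d 1 (u ^ m) with hnd
  have hlen : 2 * (5 * T + D) ≤ n := by
    have h2 := hN m 1
    rw [mul_one, ← hnd] at h2
    by_contra hc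
    have h3 : n ≤ 2 * (5 * T + D) := by omega
    have h4 : N * n ≤ (2 * (5 * T + D)) * N := by
      rw [mul_comm]; exact Nat.mul_le_mul_right _ h3
    omega
  have hend : ∀ c : G, Commute c u → L.d (γ n) (c * γ n) = L.d 1 c := by
    intro c hc
    have : c * u ^ m = u ^ m * c := (hc.pow_right m)
    rw [hn, this]
    nth_rewrite 1 [← mul_one (u ^ m)]
    rw [L.d_smul]
  obtain ⟨s, hs, hs'⟩ := hL.sh_of_small (g := a) (T := T) hγ
    (by rw [h0, mul_one]; exact le_max_left _ _) (by rw [hend a ha]; exact le_max_left _ _)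
  obtain ⟨t, ht, ht'⟩ := hL.sh_of_small (g := b) (T := T) hγ
    (by rw [h0, mul_one]; exact le_max_right _ _) (by rw [hend b hb]; exact le_max_right _ _)
  have hcm := Sh.comm (b := T + D + 4 * T) hs' ht' hs ht le_rfl
  refine ⟨γ (5 * T + D), ?_⟩
  have := hcm (5 * T + D) (5 * T + D) (by omega) (by omega) (by simp)
  omega

/-- Auxiliary: `u` shifts by `0`, hence `u` and `g u g⁻¹` are small, hence `g` commutes with `u`. -/
theorem comm_aux (hL : L.Hyp D) (hD : 1 ≤ D) (hC : Cyc L (100 * D) A) (h2 : NoTwo G) {T n : ℕ}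
    (hT : 100 * D ≤ T) {γ : ℕ → G} (hγ : Geo L γ n) (hn : A + 100 * T ≤ n) {g u : G} {s : ℤ}
    (hs : |s| ≤ T) (hg : Sh L γ n (T + D) (2 * D) g s) (hu : Sh L γ n (5 * T + D) (8 * D) u 0)
    (h1 : u ≠ 1) : Lox L u ∧ g * u = u * g := by
  have hi := Sh.inv (b := 2 * T + D) hg (by push_cast; omega)
  have hui := Sh.mul (b := 6 * T + D) hu hi (by omega) (by rw [abs_neg]; push_cast; omega)
  have hgu := Sh.mul (b := 6 * T + D) hg hui (by omega) (by
    rw [zero_add, abs_neg]; push_cast; omega)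
  have e0 : s + (0 + -s) = 0 := by ring
  rw [e0] at hgu
  set i := 6 * T + D with hi6
  have hsm : ∀ v : G, (∀ j : ℕ, i ≤ j → j + i ≤ n → L.d (γ j) (v * γ j) ≤ 12 * D) →
      v ∈ Small L (100 * D) (γ i) (γ (n - i)) := by
    intro v hv
    have h3 := hv i le_rfl (by omega)
    have h4 := hv (n - i) (by omega) (by omega)
    exact ⟨by omega, by omega⟩
  have hsu : u ∈ Small L (100 * D) (γ i) (γ (n - i)) := hsm u fun j h3 h4 => by
    have := hu j j (by omega) (by omega) (by simp)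
    omega
  have hsg : g * (u * g⁻¹) ∈ Small L (100 * D) (γ i) (γ (n - i)) := hsm _ fun j h3 h4 => by
    have := hgu j j (by omega) (by omega) (by simp)
    omega
  obtain ⟨f, hf, hfs⟩ := hC (γ i) (γ (n - i)) (by
    rw [hγ _ _ (by omega) (by omega)]
    omega)
  obtain ⟨a, ha⟩ := Subgroup.mem_zpowers_iff.1 (hfs _ hsu)
  obtain ⟨b, hb⟩ := Subgroup.mem_zpowers_iff.1 (hfs _ hsg)
  have hfl : Lox L f := by
    rcases hf with rfl | hf
    · exact absurd (by rw [← ha]; simp) h1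
    · exact hf
  have ha0 : a ≠ 0 := by
    rintro rfl
    exact h1 (by rw [← ha]; simp)
  have hul : Lox L u := by rw [← ha]; exact hfl.zpow ha0
  have hconj : g * u * g⁻¹ = g * (u * g⁻¹) := by group
  have hab : |a| = |b| := hfl.abs_eq (g := g) (by rw [ha, hb, hconj])
  refine ⟨hul, ?_⟩
  rcases abs_eq_abs.1 hab with h | h
  · have h3 : g * (u * g⁻¹) = u := by rw [← hb, ← h, ha]
    calc g * u = g * (u * g⁻¹) * g := by group
      _ = u * g := by rw [h3]
  · exfalso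
    refine no_flip hL hD hC h2 hul (g := g) ?_
    rw [hconj, ← hb, ← ha, ← zpow_neg]
    congr 1
    omega

/-- IB3. (C') commuting. -/
theorem small_comm (hL : L.Hyp D) (hD : 1 ≤ D) (hC : Cyc L (100 * D) A) (h2 : NoTwo G) {T : ℕ}
    (hT : 100 * D ≤ T) {x y g g' : G} (hxy : A + 100 * T ≤ L.d x y) (hg : g ∈ Small L T x y)
    (hg' : g' ∈ Small L T x y) : g * g' = g' * g := by
  obtain ⟨γ, hγ, h0, hn⟩ := exists_geo L x y
  obtain ⟨s, hs, hs'⟩ := hL.sh_of_small (g := g) (T := T) hγ (by rw [h0]; exact hg.1)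
    (by rw [hn]; exact hg.2)
  obtain ⟨t, ht, ht'⟩ := hL.sh_of_small (g := g') (T := T) hγ (by rw [h0]; exact hg'.1)
    (by rw [hn]; exact hg'.2)
  have hcm := Sh.comm (b := 5 * T + D) hs' ht' hs ht (by omega)
  have e8 : 4 * (2 * D) = 8 * D := by ring
  rw [e8] at hcm
  set u := g * g' * g⁻¹ * g'⁻¹ with hu
  by_cases hu1 : u = 1
  · calc g * g' = u * (g' * g) := by rw [hu]; group
      _ = g' * g := by rw [hu1, one_mul]
  · exfalso
    obtain ⟨hul, hc1⟩ := comm_aux hL hD hC h2 hT hγ hxy hs hs' hcm hu1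
    obtain ⟨_, hc2⟩ := comm_aux hL hD hC h2 hT hγ hxy ht ht' hcm hu1
    obtain ⟨N, hN⟩ := hul
    obtain ⟨w, hw⟩ := comm_point hL ⟨N, hN⟩ (show Commute (g ^ (N * (8 * D) + 1)) u from
      (show Commute g u from hc1).pow_left _) (show Commute g' u from hc2)
    rw [comm_pow hu hc1] at hw
    have h3 := hN (N * (8 * D) + 1) w
    have h4 : N * L.d w (u ^ (N * (8 * D) + 1) * w) ≤ N * (8 * D) := Nat.mul_le_mul_left _ hw
    omega

/-- IB4. (C') loxodromic. -/
theorem small_lox (hL : L.Hyp D) (hD : 1 ≤ D) (hC : Cyc L (100 * D) A) {T : ℕ}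
    (hT : 100 * D ≤ T) {x y g : G} (hxy : A + 100 * T ≤ L.d x y) (hg : g ∈ Small L T x y) :
    g = 1 ∨ Lox L g := by
  obtain ⟨γ, hγ, h0, hn⟩ := exists_geo L x y
  set n := L.d x y with hnd
  obtain ⟨s, hs, hs'⟩ := hL.sh_of_small (g := g) (T := T) hγ (by rw [h0]; exact hg.1)
    (by rw [hn]; exact hg.2)
  have hdisp : ∀ i : ℕ, 2 * T + D ≤ i → i + (2 * T + D) ≤ n →
      (L.d (γ i) (g * γ i) : ℤ) ≤ |s| + 2 * D := by
    intro i h1 h3
    have := (hs'.disp hγ i (by push_cast; omega) (by push_cast; omega)).1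
    push_cast at this
    exact this
  by_cases hc : |s| ≤ 90 * D
  · refine hC.small_lox (x := γ (2 * T + D)) (y := γ (n - (2 * T + D))) ?_ ⟨?_, ?_⟩
    · rw [hγ _ _ (by omega) (by omega)]
      omega
    · have := hdisp (2 * T + D) (by omega) (by omega)
      omega
    · have := hdisp (n - (2 * T + D)) (by omega) (by omega)
      omega
  · right
    have h22 := Sh.mul (b := 2 * T + D) hs' hs' (by omega) (by push_cast; omega)
    have h4 := (h22.disp hγ (n / 2) (by
      have : |s + s| ≤ 2 * T := by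
        rw [abs_le] at hs ⊢
        omega
      push_cast
      omega) (by
      have : |s + s| ≤ 2 * T := by
        rw [abs_le] at hs ⊢
        omega
      push_cast
      omega)).2
    have h5 := hdisp (n / 2) (by omega) (by omega)
    refine hL.lox (x := γ (n / 2)) ?_
    rw [sq]
    have h6 : |s + s| = 2 * |s| := by
      rw [← two_mul, abs_mul]; rfl
    rw [h6] at h4
    push_cast at h4
    omega

end Len

end Pool.Agent.Beb
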