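import Pool.Agent.Work.MP_beb559_al.IsoB

/-!
# Centralisers of loxodromic elements are cyclic
-/

namespace Pool.Agent.Beb

namespace Len

variable {G : Type} [Group G] {L : Len G} {D A : ℕ}

private theorem lox_pos {s : G} (hs : Lox L s) : ∃ N : ℕ, 1 ≤ N ∧
    ∀ (n : ℕ) (x : G), n ≤ N * L.d x (s ^ n * x) := by
  obtain ⟨N, hN⟩ := hs
  refine ⟨N, ?_, hN⟩
  by_contra h
  have h0 : N = 0 := by omega
  have := hN 1 1
  rw [h0, zero_mul] at this
  omega

/-- some power of a loxodromic element satisfies a strong growth condition -/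
private theorem exists_growth {s : G} (hs : Lox L s) (q : G) (K : ℕ) :
    ∃ m : ℕ, 1 ≤ m ∧ L.d q (s ^ m * q) + K < L.d q (s ^ (2 * m) * q) := by
  by_contra hno
  push Not at hno
  obtain ⟨N, hN1, hN⟩ := lox_pos hs
  have key : ∀ j : ℕ, L.d q (s ^ (2 ^ j) * q) ≤ L.d q (s ^ 1 * q) + j * K := by
    intro j
    induction j with
    | zero => simp
    | succ j ih =>
      have h1 := hno (2 ^ j) Nat.one_le_two_pow
      have h2 : 2 ^ (j + 1) = 2 * 2 ^ j := by ring
      rw [h2]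
      have h3 : (j + 1) * K = j * K + K := by ring
      rw [h3]
      omega
  have h4 : ∀ j : ℕ, 2 ^ j ≤ N * (L.d q (s ^ 1 * q) + j * K) := fun j =>
    (hN (2 ^ j) q).trans (Nat.mul_le_mul_left _ (key j))
  set c := L.d q (s ^ 1 * q) with hc
  -- `2 ^ j` beats every linear function
  have h5 : ∀ j : ℕ, 2 ^ j ≤ (N * (c + K)) * (j + 1) := by
    intro j
    refine (h4 j).trans ?_
    have : c + j * K ≤ (c + K) * (j + 1) := by nlinarith
    calc N * (c + j * K) ≤ N * ((c + K) * (j + 1)) := Nat.mul_le_mul_left _ this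
      _ = _ := by ring
  set M := N * (c + K) with hM
  have h6 := h5 (2 * M + 4)
  have h7 : ∀ M : ℕ, M * (2 * M + 4 + 1) < 2 ^ (2 * M + 4) := by
    intro M
    induction M with
    | zero => norm_num
    | succ M ih =>
      have : 2 ^ (2 * (M + 1) + 4) = 4 * 2 ^ (2 * M + 4) := by
        rw [show 2 * (M + 1) + 4 = 2 * M + 4 + 2 by ring, pow_add]; ring
      have h16 : 2 ^ 4 ≤ 2 ^ (2 * M + 4) := Nat.pow_le_pow_right (by norm_num) (by omega)
      rw [this]
      nlinarith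
  exact absurd h6 (not_le.2 (h7 M))

/-- IC1. For a loxodromic `s` there is a point `p` such that every element commuting with `s` moves
`p` and the points of arbitrarily long geodesics through (close to) `p` almost in the same way:
for every `N` there is a geodesic `γ` of length `n ≥ N`, an index `i` with `N ≤ i`, `i + N ≤ n`,
`d p (γ i) ≤ 3 D`, and a number `B` such that every `g` commuting with `s` moves the ends of `γ`
by at most `d p (g p) + B`, where `B` does not depend on `N`. -/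
theorem exists_axis_point (hL : L.Hyp D) {s : G} (hs : Lox L s) :
    ∃ (p : G) (B : ℕ), ∀ N : ℕ, ∃ (γ : ℕ → G) (n i : ℕ), Geo L γ n ∧ N ≤ i ∧ i + N ≤ n ∧
      L.d p (γ i) ≤ 3 * D ∧ ∀ g : G, g * s = s * g →
        L.d (γ 0) (g * γ 0) ≤ L.d p (g * p) + B ∧ L.d (γ n) (g * γ n) ≤ L.d p (g * p) + B := by
  obtain ⟨m, hm1, hm⟩ := exists_growth hs 1 (100 * D + 100)
  obtain ⟨Ns, hNs1, hNs⟩ := lox_pos hs
  set q : G := 1 with hq
  set r : G := s ^ m with hr
  set Q : ℤ → G := fun k => r ^ k * q with hQ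
  set F : ℕ → ℕ := fun k => L.d q (r ^ k * q) with hF
  have hF1 : F 1 = L.d q (s ^ m * q) := by simp [hF, hr]
  have hF2 : F 2 = L.d q (s ^ (2 * m) * q) := by
    simp only [hF, hr]
    rw [← pow_mul, mul_comm m 2]
  have hFlarge : ∀ k : ℕ, k ≤ Ns * F k := by
    intro k
    have h1 := hNs (m * k) q
    have h2 : F k = L.d q (s ^ (m * k) * q) := by simp only [hF, hr]; rw [← pow_mul]
    rw [h2]
    exact (Nat.le_mul_of_pos_left k hm1).trans h1
  have hdQ : ∀ (k : ℤ) (l : ℕ), L.d (Q k) (Q (k + l)) = F l := by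
    intro k l
    simp only [hQ, hF]
    rw [zpow_add, mul_assoc, L.d_smul, zpow_natCast]
  set a : ℕ := 2 * F 1 - F 2 with ha
  have hF2le : F 2 ≤ 2 * F 1 := by
    have h1 := L.d_tri (Q 0) (Q 1) (Q 2)
    have e1 := hdQ 0 2
    have e2 := hdQ 0 1
    have e3 := hdQ 1 1
    norm_num at e1 e2 e3
    rw [e1, e2, e3] at h1
    omega
  have hchain : ∀ j l : ℕ, F j + F l ≤ F (j + l) + (a + 2 * D) := by
    intro j l
    have e0 : ∀ i t : ℕ, L.d (r ^ i * q) (r ^ (i + t) * q) = F t := by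
      intro i t
      simp only [hF]
      rw [pow_add, mul_assoc, L.d_smul]
    have h1 := hL.chain_mid (a := a) (n := j + l) (x := fun i => r ^ i * q)
      (fun i _ => by
        show L.d (r ^ i * q) (r ^ (i + 1) * q) + L.d (r ^ (i + 1) * q) (r ^ (i + 2) * q) ≤
          L.d (r ^ i * q) (r ^ (i + 2) * q) + a
        have e1 := e0 i 1
        have e2 := e0 i 2
        have e3 := e0 (i + 1) 1
        rw [show i + 1 + 1 = i + 2 from rfl] at e3
        rw [e1, e2, e3]
        omega)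
      (fun i _ => by
        show a + 2 * D < L.d (r ^ i * q) (r ^ (i + 1) * q)
        rw [e0 i 1]
        rw [← hF1, ← hF2] at hm
        omega) j (Nat.le_add_right j l)
    have e1 := e0 0 j
    have e2 := e0 j l
    have e3 := e0 0 (j + l)
    simp only [zero_add] at e1 e3
    rw [e1, e2, e3] at h1
    omega
  -- the point `p`
  set R : ℕ := a + 3 * D + 1 with hR
  set N1 : ℕ := Ns * (2 * R) with hN1
  have hN1F : 2 * R ≤ F (2 * N1) := by
    have h1 := hFlarge (2 * N1)
    have h2 : Ns * (2 * R) ≤ Ns * F (2 * N1) := by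
      refine le_trans ?_ h1
      rw [hN1]
      omega
    exact Nat.le_of_mul_le_mul_left h2 hNs1
  have huv : L.d (Q (-(N1 : ℤ))) (Q N1) = F (2 * N1) := by
    have := hdQ (-(N1 : ℤ)) (2 * N1)
    rw [← this]
    congr 2
    push_cast
    ring
  obtain ⟨p, hp1, hp2⟩ := L.d_interp (Q (-(N1 : ℤ))) (Q N1) R (by omega)
  refine ⟨p, 2 * L.d p q, fun N => ?_⟩
  -- the long geodesic
  set N' : ℕ := N1 + Ns * (N + L.d p q + 3 * D) with hN'
  have hN'F : N + L.d p q + 3 * D ≤ F N' := by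
    have h1 := hFlarge N'
    have h2 : Ns * (N + L.d p q + 3 * D) ≤ Ns * F N' := by
      refine le_trans ?_ h1
      rw [hN']
      omega
    exact Nat.le_of_mul_le_mul_left h2 hNs1
  have hN1N' : N1 ≤ N' := by rw [hN']; omega
  obtain ⟨γ, hγ, hγ0, hγn⟩ := exists_geo L (Q (-(N' : ℤ))) (Q N')
  set x := Q (-(N' : ℤ)) with hx
  set y := Q (N' : ℤ) with hy
  set u := Q (-(N1 : ℤ)) with hu
  set v := Q (N1 : ℤ) with hv
  have dxu : L.d x u = F (N' - N1) := by
    rw [hx, hu, ← hdQ (-(N' : ℤ)) (N' - N1)]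
    congr 2
    push_cast [Nat.cast_sub hN1N']
    ring
  have dvy : L.d v y = F (N' - N1) := by
    rw [hv, hy, ← hdQ (N1 : ℤ) (N' - N1)]
    congr 2
    push_cast [Nat.cast_sub hN1N']
    ring
  have dxv : L.d x v = F (N' + N1) := by
    rw [hx, hv, ← hdQ (-(N' : ℤ)) (N' + N1)]
    congr 2
    push_cast
    ring
  have duy : L.d u y = F (N' + N1) := by
    rw [hu, hy, ← hdQ (-(N1 : ℤ)) (N' + N1)]
    congr 2
    push_cast
    ring
  have c1 : L.d x u + L.d u v ≤ L.d x v + (a + 2 * D) := by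
    rw [dxu, huv, dxv]
    have := hchain (N' - N1) (2 * N1)
    rwa [show N' - N1 + 2 * N1 = N' + N1 by omega] at this
  have c2 : L.d u v + L.d v y ≤ L.d u y + (a + 2 * D) := by
    rw [dvy, huv, duy]
    have := hchain (2 * N1) (N' - N1)
    rwa [show 2 * N1 + (N' - N1) = N' + N1 by omega] at this
  have hbt : L.Btw u p v := by unfold Len.Btw; omega
  have k1 := hL.btw x hbt
  have k2 := hL.btw y hbt
  have k3 := hL x u v y
  have e1 := L.d_comm y u
  have e2 := L.d_comm y v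
  have e3 := L.d_comm y p
  have e4 := L.d_comm p u
  -- excess of `p`
  have hexc : L.d x p + L.d p y ≤ L.d x y + 3 * D := by
    rw [e1, e2, e3] at k2
    unfold Len.Btw at hbt
    omega
  have dq : ∀ k : ℤ, L.d (Q k) q = L.d q (Q (-k)) := by
    intro k
    simp only [hQ]
    rw [← L.d_smul (r ^ (-k)) (r ^ k * q) q, ← mul_assoc, ← zpow_add, neg_add_cancel, zpow_zero,
      one_mul]
  have dxq : L.d x q = F N' := by
    have := hdQ (-(N' : ℤ)) N'
    rw [neg_add_cancel] at this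
    rw [← this]
    simp only [hQ, zpow_zero, one_mul, hx]
  have dqy : L.d q y = F N' := by
    have := hdQ 0 N'
    rw [zero_add] at this
    rw [← this]
    simp only [hQ, zpow_zero, one_mul, hy]
  have t1 := L.d_tri x p q
  have t2 := L.d_tri q p y
  have e5 := L.d_comm q p
  have t3 := L.d_tri x p y
  have h2D : 2 * D ≤ L.d x p := by omega
  have hin : L.d x p - 2 * D ≤ L.d x y := by omega
  refine ⟨γ, L.d x y, L.d x p - 2 * D, hγ, by omega, by omega, ?_, ?_⟩
  · have g1 := hγ 0 (L.d x p - 2 * D) (Nat.zero_le _) hin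
    have g2 := hγ (L.d x p - 2 * D) (L.d x y) hin le_rfl
    rw [hγ0] at g1
    rw [hγn] at g2
    have hb : L.Btw x (γ (L.d x p - 2 * D)) y := by unfold Len.Btw; omega
    have := hL.close hb (w := p) (a := 2 * D) (by omega) (by omega)
    rw [L.d_comm]
    omega
  · intro g hg
    have hcomm : ∀ k : ℤ, g * Q k = r ^ k * (g * q) := by
      intro k
      have h1 : Commute g s := hg
      have h2 : Commute g (r ^ k) := (h1.pow_right m).zpow_right k
      simp only [hQ]
      rw [← mul_assoc, h2.eq, mul_assoc]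
    have hdisp : ∀ k : ℤ, L.d (Q k) (g * Q k) = L.d q (g * q) := by
      intro k
      rw [hcomm k]
      simp only [hQ]
      rw [L.d_smul]
    have t4 := L.d_tri q p (g * q)
    have t5 := L.d_tri p (g * p) (g * q)
    rw [L.d_smul] at t5
    rw [hγ0, hγn, hx, hy, hdisp, hdisp]
    constructor <;> omega

/-- Every element commuting with a loxodromic element is `1` or loxodromic, and two such elements
commute. -/
private theorem cent_facts (hL : L.Hyp D) (hD : 1 ≤ D) (hC : Cyc L (100 * D) A) (h2 : NoTwo G)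
    {s : G} (hs : Lox L s) :
    (∀ g : G, g * s = s * g → g = 1 ∨ Lox L g) ∧
      ∀ g g' : G, g * s = s * g → g' * s = s * g' → g * g' = g' * g := by
  obtain ⟨p, B, hp⟩ := exists_axis_point hL hs
  constructor
  · intro g hg
    obtain ⟨γ, n, i, hγ, h1, h2', -, h4⟩ := hp (A + 100 * (L.d p (g * p) + B + 100 * D))
    have hn := hγ 0 n (Nat.zero_le _) le_rfl
    obtain ⟨h5, h6⟩ := h4 g hg
    exact small_lox hL hD hC (T := L.d p (g * p) + B + 100 * D) (x := γ 0) (y := γ n)
      (by omega) (by omega) ⟨by omega, by omega⟩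
  · intro g g' hg hg'
    obtain ⟨γ, n, i, hγ, h1, h2', -, h4⟩ :=
      hp (A + 100 * (L.d p (g * p) + L.d p (g' * p) + B + 100 * D))
    have hn := hγ 0 n (Nat.zero_le _) le_rfl
    obtain ⟨h5, h6⟩ := h4 g hg
    obtain ⟨h7, h8⟩ := h4 g' hg'
    exact small_comm hL hD hC h2 (T := L.d p (g * p) + L.d p (g' * p) + B + 100 * D) (x := γ 0)
      (y := γ n) (by omega) (by omega) ⟨by omega, by omega⟩ ⟨by omega, by omega⟩

/-- discrete intermediate values -/
private theorem exists_cross (f : ℤ → ℤ) (δ : ℤ) (J : ℕ) (hδ : 0 ≤ δ)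
    (hstep : ∀ j : ℤ, -(J : ℤ) ≤ j → j < J → |f (j + 1) - f j| ≤ δ)
    (hsign : (f (-(J : ℤ)) ≤ 0 ∧ 0 ≤ f J) ∨ (0 ≤ f (-(J : ℤ)) ∧ f J ≤ 0)) :
    ∃ j : ℤ, -(J : ℤ) ≤ j ∧ j ≤ J ∧ 2 * |f j| ≤ δ := by
  -- the case of increasing signs
  have main : ∀ f : ℤ → ℤ, (∀ j : ℤ, -(J : ℤ) ≤ j → j < J → |f (j + 1) - f j| ≤ δ) →
      f (-(J : ℤ)) ≤ 0 → 0 ≤ f J → ∃ j : ℤ, -(J : ℤ) ≤ j ∧ j ≤ J ∧ 2 * |f j| ≤ δ := by
    intro f hstep h0 h1
    by_contra hno
    push Not at hno
    have key : ∀ k : ℕ, k ≤ 2 * J → f (-(J : ℤ) + k) < 0 := by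
      intro k
      induction k with
      | zero =>
        intro _
        have h3 := hno (-(J : ℤ)) le_rfl (by omega)
        simp only [Nat.cast_zero, add_zero]
        rcases lt_or_eq_of_le h0 with h | h
        · exact h
        · rw [h] at h3
          simp only [abs_zero, mul_zero] at h3
          omega
      | succ k ih =>
        intro hk
        have h3 := ih (by omega)
        have h4 := hstep (-(J : ℤ) + k) (by omega) (by omega)
        have h5 := hno (-(J : ℤ) + k) (by omega) (by omega)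
        have h6 := hno (-(J : ℤ) + (k + 1)) (by omega) (by omega)
        have e : -(J : ℤ) + ((k + 1 : ℕ) : ℤ) = -(J : ℤ) + k + 1 := by push_cast; ring
        rw [e]
        rw [← add_assoc] at h6
        by_contra hpos
        have hpos := not_lt.1 hpos
        rw [abs_of_nonneg hpos] at h6
        rw [abs_of_neg h3] at h5
        rw [abs_of_nonneg (by omega)] at h4
        omega
    have := key (2 * J) le_rfl
    have e : -(J : ℤ) + ((2 * J : ℕ) : ℤ) = J := by push_cast; ring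
    rw [e] at this
    omega
  rcases hsign with ⟨h0, h1⟩ | ⟨h0, h1⟩
  · exact main f hstep h0 h1
  · obtain ⟨j, hj1, hj2, hj3⟩ := main (fun j => -f j) (fun j h3 h4 => by
      have := hstep j h3 h4
      show |-f (j + 1) - -f j| ≤ δ
      rw [show -f (j + 1) - -f j = -(f (j + 1) - f j) by ring, abs_neg]
      exact this) (by simpa using h0) (by simpa using h1)
    exact ⟨j, hj1, hj2, by rwa [abs_neg] at hj3⟩

/-- Two indices whose points are close are close. -/
private theorem Geo.abs_le {γ : ℕ → G} {n i j c : ℕ} (h : Geo L γ n) (hi : i ≤ n) (hj : j ≤ n)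
    (hd : L.d (γ i) (γ j) ≤ c) : |(i : ℤ) - j| ≤ c := by
  rcases le_total i j with h1 | h1
  · rw [h i j h1 hj] at hd
    rw [abs_of_nonpos (by omega)]
    omega
  · rw [L.d_comm, h j i h1 hi] at hd
    rw [abs_of_nonneg (by omega)]
    omega

/-- The key step of IC2. -/
private theorem cent_step (hL : L.Hyp D) {s p : G} {B : ℕ}
    (hp : ∀ N : ℕ, ∃ (γ : ℕ → G) (n i : ℕ), Geo L γ n ∧ N ≤ i ∧ i + N ≤ n ∧
      L.d p (γ i) ≤ 3 * D ∧ ∀ g : G, g * s = s * g →
        L.d (γ 0) (g * γ 0) ≤ L.d p (g * p) + B ∧ L.d (γ n) (g * γ n) ≤ L.d p (g * p) + B)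
    {z g : G} (hz : Lox L z) (hzs : z * s = s * z) (hgs : g * s = s * g) :
    ∃ j : ℤ, 2 * L.d p (g * z ^ j * p) ≤ L.d p (z * p) + 30 * D := by
  obtain ⟨Nz, hNz1, hNz⟩ := lox_pos hz
  set dg := L.d p (g * p) with hdg
  set dz := L.d p (z * p) with hdz
  -- the number of steps
  set J : ℕ := Nz * (dg + 20 * D + 1) with hJ
  set T : ℕ := dg + (J + 1) * dz + B with hT
  set T' : ℕ := T + D with hT'
  obtain ⟨γ, n, i, hγ, hi, hin, hpi, hend⟩ := hp (3 * T' + 3 * D + 1)
  -- displacement at `p` and at `γ i`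
  have hpγ : ∀ h : G, L.d (γ i) (h * γ i) ≤ L.d p (h * p) + 6 * D ∧
      L.d p (h * p) ≤ L.d (γ i) (h * γ i) + 6 * D := by
    intro h
    have t1 := L.d_tri (γ i) p (h * γ i)
    have t2 := L.d_tri p (h * p) (h * γ i)
    have t3 := L.d_tri p (γ i) (h * p)
    have t4 := L.d_tri (γ i) (h * γ i) (h * p)
    rw [L.d_smul] at t2 t4
    have e1 := L.d_comm (γ i) p
    constructor <;> omega
  have hzpow : ∀ k : ℕ, L.d p (z ^ k * p) ≤ k * dz := by
    intro k
    induction k with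
    | zero => simp [L.d_self]
    | succ k ih =>
      have t1 := L.d_tri p (z ^ k * p) (z ^ (k + 1) * p)
      rw [pow_succ, mul_assoc, L.d_smul] at t1
      rw [pow_succ, mul_assoc]
      have : (k + 1) * dz = k * dz + dz := by ring
      omega
  have hzzpow : ∀ k : ℤ, |k| ≤ J → L.d p (z ^ k * p) ≤ J * dz := by
    intro k hk
    have hk' : k.natAbs ≤ J := by
      have := abs_le.1 hk
      omega
    have h1 := (hzpow k.natAbs).trans (Nat.mul_le_mul_right dz hk')
    rcases Int.natAbs_eq k with h | h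
    · rw [h, zpow_natCast]; exact h1
    · rw [h, zpow_neg, zpow_natCast, d_inv_smul]; exact h1
  have hcomm : ∀ k : ℤ, (g * z ^ k) * s = s * (g * z ^ k) := by
    intro k
    have h1 : Commute g s := hgs
    have h2 : Commute z s := hzs
    exact (h1.mul_left (h2.zpow_left k)).eq
  have hzcomm : ∀ k : ℤ, (z ^ k) * s = s * (z ^ k) := by
    intro k
    have h2 : Commute z s := hzs
    exact (h2.zpow_left k).eq
  have hsmall : ∀ h : G, h * s = s * h → L.d p (h * p) + B ≤ T →
      ∃ c : ℤ, |c| ≤ T ∧ Sh L γ n (T + D) (2 * D) h c := by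
    intro h hh hle
    obtain ⟨h5, h6⟩ := hend h hh
    exact hL.sh_of_small hγ (h5.trans hle) (h6.trans hle)
  have hdisp : ∀ k : ℤ, |k| ≤ J → L.d p (g * z ^ k * p) + B ≤ T := by
    intro k hk
    have t1 := L.d_tri p (g * p) (g * z ^ k * p)
    rw [mul_assoc, L.d_smul] at t1
    have h1 := hzzpow k hk
    rw [mul_assoc]
    have : (J + 1) * dz = J * dz + dz := by ring
    omega
  have hshift : ∀ k : ℤ, ∃ c : ℤ, |k| ≤ J → |c| ≤ T ∧ Sh L γ n (T + D) (2 * D) (g * z ^ k) c := by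
    intro k
    by_cases hk : |k| ≤ (J : ℤ)
    · obtain ⟨c, h1, h2⟩ := hsmall _ (hcomm k) (hdisp k hk)
      exact ⟨c, fun _ => ⟨h1, h2⟩⟩
    · exact ⟨0, fun h => absurd h hk⟩
  choose f hf using hshift
  -- the shift of `z`
  obtain ⟨ζ, hζ1, hζ2⟩ := hsmall z hzs (by
    have : (J + 1) * dz = J * dz + dz := by ring
    omega)
  have hζ : |ζ| ≤ dz + 8 * D := by
    have h1 := (hζ2.disp hγ i (by omega) (by omega)).2
    have h2 := (hpγ z).1
    omega
  -- comparison of two shifts at the index `i`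
  have hcmp : ∀ (h : G) (c c' : ℤ) (e e' b b' : ℕ), Sh L γ n b e h c → Sh L γ n b' e' h c' →
      b ≤ 3 * T' → b' ≤ 3 * T' → |c| ≤ 2 * T → |c'| ≤ 2 * T → |c - c'| ≤ e + e' := by
    intro h c c' e e' b b' h1 h2 hb hb' hc hc'
    have hc1 := abs_le.1 hc
    have hc2 := abs_le.1 hc'
    obtain ⟨j, hj⟩ : ∃ j : ℕ, (j : ℤ) = i + c := ⟨(i + c).toNat, by omega⟩
    obtain ⟨j', hj'⟩ : ∃ j : ℕ, (j : ℤ) = i + c' := ⟨(i + c').toNat, by omega⟩
    have d1 := h1 i j (by omega) (by omega) hj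
    have d2 := h2 i j' (by omega) (by omega) hj'
    have t := L.d_tri (γ j) (h * γ i) (γ j')
    have e1 := L.d_comm (γ j') (h * γ i)
    have := hγ.abs_le (i := j) (j := j') (c := e + e') (by omega) (by omega) (by omega)
    rw [hj, hj'] at this
    have e3 : (i : ℤ) + c - (i + c') = c - c' := by ring
    rw [e3] at this
    push_cast at this
    exact this
  have hstep : ∀ j : ℤ, -(J : ℤ) ≤ j → j < J → |f (j + 1) - f j| ≤ dz + 14 * D := by
    intro j h1 h2
    obtain ⟨ha1, ha2⟩ := hf j (abs_le.2 ⟨h1, h2.le⟩)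
    obtain ⟨hb1, hb2⟩ := hf (j + 1) (abs_le.2 ⟨by omega, by omega⟩)
    have h3 : Sh L γ n (2 * T') (2 * D + 2 * D) (g * z ^ j * z) (f j + ζ) :=
      ha2.mul hζ2 (by omega) (by push_cast; omega)
    have h4 : g * z ^ j * z = g * z ^ (j + 1) := by rw [zpow_add_one, mul_assoc]
    rw [h4] at h3
    have h5 := hcmp _ _ _ _ _ _ _ hb2 h3 (by omega) (by omega) (by omega)
      ((abs_add_le _ _).trans (by omega))
    have h6 : |f (j + 1) - f j| ≤ |f (j + 1) - (f j + ζ)| + |ζ| := by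
      have : f (j + 1) - f j = (f (j + 1) - (f j + ζ)) + ζ := by ring
      rw [this]
      exact abs_add_le _ _
    push_cast at h5
    omega
  -- the ends
  obtain ⟨α, hα1, hα2⟩ := hsmall g hgs (by
    have : (J + 1) * dz = J * dz + dz := by ring
    omega)
  have hα : |α| ≤ dg + 8 * D := by
    have h1 := (hα2.disp hγ i (by omega) (by omega)).2
    have h2 := (hpγ g).1
    omega
  obtain ⟨σ, hσ1, hσ2⟩ := hsmall (z ^ (J : ℤ)) (hzcomm J) (by
    have h1 := hzzpow J (by simp)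
    have : (J + 1) * dz = J * dz + dz := by ring
    omega)
  have hσ : (dg : ℤ) + 18 * D < |σ| := by
    have h1 := (hσ2.disp hγ i (by omega) (by omega)).1
    have h2 := hNz J (γ i)
    rw [zpow_natCast] at h1
    have h3 : dg + 20 * D + 1 ≤ L.d (γ i) (z ^ J * γ i) := by
      have h4 : Nz * (dg + 20 * D + 1) ≤ Nz * L.d (γ i) (z ^ J * γ i) := h2
      exact Nat.le_of_mul_le_mul_left h4 hNz1
    omega
  have hJJ : |(J : ℤ)| ≤ J := by simp
  have hJJ' : |(-(J : ℤ))| ≤ J := by rw [abs_neg]; simp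
  have hend1 : |f J - (α + σ)| ≤ 6 * D := by
    have h3 : Sh L γ n (2 * T') (2 * D + 2 * D) (g * z ^ (J : ℤ)) (α + σ) :=
      hα2.mul hσ2 (by omega) (by push_cast; omega)
    have h5 := hcmp _ _ _ _ _ _ _ (hf J hJJ).2 h3 (by omega) (by omega)
      (by have := (hf J hJJ).1; omega) ((abs_add_le _ _).trans (by omega))
    push_cast at h5
    omega
  have hend2 : |f (-(J : ℤ)) - (α - σ)| ≤ 6 * D := by
    have h3 : Sh L γ n (2 * T') (2 * D) (z ^ (J : ℤ))⁻¹ (-σ) := hσ2.inv (by push_cast; omega)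
    have h4 : Sh L γ n (3 * T') (2 * D + 2 * D) (g * (z ^ (J : ℤ))⁻¹) (α + -σ) :=
      hα2.mul h3 (by omega) (by rw [abs_neg]; push_cast; omega)
    rw [← zpow_neg] at h4
    have h5 := hcmp _ _ _ _ _ _ _ (hf _ hJJ').2 h4 (by omega) (by omega)
      (by have := (hf _ hJJ').1; omega) ((abs_add_le _ _).trans (by rw [abs_neg]; omega))
    rw [← sub_eq_add_neg] at h5
    push_cast at h5
    omega
  obtain ⟨j, hj1, hj2, hj3⟩ := exists_cross f (dz + 14 * D) J (by positivity) hstep (by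
    rcases abs_cases σ with ⟨h1, h2⟩ | ⟨h1, h2⟩ <;> rcases abs_cases α with ⟨h3, h4⟩ | ⟨h3, h4⟩ <;>
      have h5 := abs_le.1 hend1 <;> have h6 := abs_le.1 hend2 <;> omega)
  refine ⟨j, ?_⟩
  obtain ⟨hb1, hb2⟩ := hf j (abs_le.2 ⟨hj1, hj2⟩)
  have h1 := (hb2.disp hγ i (by omega) (by omega)).1
  have h2 := (hpγ (g * z ^ j)).2
  omega

/-- IC2. (D3) The centraliser of a loxodromic element is infinite cyclic. -/
theorem cent_cyclic (hL : L.Hyp D) (hD : 1 ≤ D) (hC : Cyc L (100 * D) A) (h2 : NoTwo G) {s : G}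
    (hs : Lox L s) : ∃ z : G, Lox L z ∧ ∀ g : G, g * s = s * g ↔ g ∈ Subgroup.zpowers z := by
  classical
  obtain ⟨hlox, -⟩ := cent_facts hL hD hC h2 hs
  obtain ⟨p, B, hp⟩ := exists_axis_point hL hs
  -- an element of the centraliser with minimal displacement
  have hex : ∃ m : ℕ, ∃ z : G, z ≠ 1 ∧ z * s = s * z ∧ L.d p (z * p) = m :=
    ⟨_, s, hs.ne_one, rfl, rfl⟩
  obtain ⟨z, hz1, hzs, hzm⟩ := Nat.find_spec hex
  have hmin : ∀ g : G, g * s = s * g → L.d p (g * p) < L.d p (z * p) → g = 1 := by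
    intro g hg hlt
    by_contra hne
    exact Nat.find_min hex (by rw [← hzm]; exact hlt) ⟨g, hne, hg, rfl⟩
  have hzlox : Lox L z := (hlox z hzs).resolve_left hz1
  have hstep : ∀ g : G, g * s = s * g → ∃ j : ℤ, (g * z ^ j) * s = s * (g * z ^ j) ∧
      2 * L.d p (g * z ^ j * p) ≤ L.d p (z * p) + 30 * D := by
    intro g hg
    obtain ⟨j, hj⟩ := cent_step hL hp hzlox hzs hg
    refine ⟨j, ?_, hj⟩
    have h1 : Commute g s := hg
    have h2 : Commute z s := hzs
    exact (h1.mul_left (h2.zpow_left j)).eq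
  by_cases hbig : 30 * D < L.d p (z * p)
  · refine ⟨z, hzlox, fun g => ⟨fun hg => ?_, fun hg => ?_⟩⟩
    · obtain ⟨j, hj1, hj2⟩ := hstep g hg
      have h3 := hmin _ hj1 (by omega)
      refine Subgroup.mem_zpowers_iff.2 ⟨-j, ?_⟩
      rw [zpow_neg]
      exact (eq_inv_of_mul_eq_one_left h3).symm
    · obtain ⟨k, rfl⟩ := Subgroup.mem_zpowers_iff.1 hg
      have h2 : Commute z s := hzs
      exact (h2.zpow_left k).eq
  · have hbig := not_lt.1 hbig
    obtain ⟨Ns, hNs1, hNs⟩ := lox_pos hs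
    have hfar : A ≤ L.d p (s ^ (Ns * A) * p) :=
      Nat.le_of_mul_le_mul_left (hNs (Ns * A) p) hNs1
    obtain ⟨f0, -, hf0⟩ := hC p (s ^ (Ns * A) * p) hfar
    have hmem : ∀ g : G, g * s = s * g → L.d p (g * p) ≤ 30 * D → g ∈ Subgroup.zpowers f0 := by
      intro g hg hle
      refine hf0 g ⟨by omega, ?_⟩
      have h1 : Commute g s := hg
      have h3 : g * (s ^ (Ns * A) * p) = s ^ (Ns * A) * (g * p) := by
        rw [← mul_assoc, (h1.pow_right _).eq, mul_assoc]
      rw [h3, L.d_smul]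
      omega
    have hzf : z ∈ Subgroup.zpowers f0 := hmem z hzs hbig
    set Bc : Subgroup G := Subgroup.centralizer {s} with hBc
    have hBmem : ∀ g : G, g ∈ Bc ↔ g * s = s * g := by
      intro g
      rw [hBc, Subgroup.mem_centralizer_singleton_iff]
    have hle : Bc ≤ Subgroup.zpowers f0 := by
      intro g hg
      have hg' := (hBmem g).1 hg
      obtain ⟨j, hj1, hj2⟩ := hstep g hg'
      have h3 := hmem _ hj1 (by omega)
      have h4 := (Subgroup.zpowers f0).mul_mem h3 ((Subgroup.zpowers f0).zpow_mem hzf (-j))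
      rwa [mul_assoc, ← zpow_add, add_neg_cancel, zpow_zero, mul_one] at h4
    have hcyc : IsCyclic Bc :=
      isCyclic_of_injective (Subgroup.inclusion hle) (Subgroup.inclusion_injective hle)
    obtain ⟨⟨z', hz'⟩, hgen⟩ := hcyc.exists_generator
    have hz's := (hBmem z').1 hz'
    refine ⟨z', ?_, fun g => ⟨fun hg => ?_, fun hg => ?_⟩⟩
    · refine (hlox z' hz's).resolve_left ?_
      rintro rfl
      obtain ⟨k, hk⟩ := Subgroup.mem_zpowers_iff.1 (hgen ⟨s, (hBmem s).2 rfl⟩)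
      have h5 := congrArg (Subtype.val) hk
      simp only [Subgroup.coe_zpow, one_zpow] at h5
      exact hs.ne_one h5.symm
    · obtain ⟨k, hk⟩ := Subgroup.mem_zpowers_iff.1 (hgen ⟨g, (hBmem g).2 hg⟩)
      have h5 := congrArg (Subtype.val) hk
      simp only [Subgroup.coe_zpow] at h5
      exact Subgroup.mem_zpowers_iff.2 ⟨k, h5⟩
    · obtain ⟨k, rfl⟩ := Subgroup.mem_zpowers_iff.1 hg
      have h2 : Commute z' s := hz's
      exact (h2.zpow_left k).eq

/-- IC3. (C'') -/
theorem cyc_large (hL : L.Hyp D) (hD : 1 ≤ D) (hC : Cyc L (100 * D) A) (h2 : NoTwo G) {T : ℕ}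
    (hT : 100 * D ≤ T) {x y : G} (hxy : A + 100 * T ≤ L.d x y) :
    ∃ f : G, (f = 1 ∨ Lox L f) ∧ ∀ g ∈ Small L T x y, g ∈ Subgroup.zpowers f := by
  by_cases h : ∃ s ∈ Small L T x y, s ≠ 1
  · obtain ⟨s, hs, hs1⟩ := h
    have hlox := (small_lox hL hD hC hT hxy hs).resolve_left hs1
    obtain ⟨z, hz1, hz2⟩ := cent_cyclic hL hD hC h2 hlox
    exact ⟨z, Or.inr hz1, fun g hg => (hz2 g).1 (small_comm hL hD hC h2 hT hxy hg hs)⟩
  · push Not at h
    exact ⟨1, Or.inl rfl, fun g hg => by rw [h g hg]; exact Subgroup.one_mem _⟩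

end Len

end Pool.Agent.Beb
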