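import Mathlib

/-!
# Groups with a length function

`Len G`: word length functions of (possibly infinite) generating sets, `L.d x y = L.l (x⁻¹ * y)`
the left invariant metric, `L.Hyp D`: four point condition with constant `D`.
-/

namespace Pool.Agent.Beb

/-- Length functions: word lengths of (possibly infinite) symmetric generating sets. -/
structure Len (G : Type) [Group G] where
  l : G → ℕ
  one : l 1 = 0
  eq_one : ∀ g, l g = 0 → g = 1
  inv : ∀ g, l g⁻¹ = l g
  mul : ∀ g h, l (g * h) ≤ l g + l h
  interp : ∀ g i, i ≤ l g → ∃ a b, a * b = g ∧ l a = i ∧ i + l b = l g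

namespace Len

variable {G : Type} [Group G] (L : Len G)

/-- The left invariant metric. -/
def d (x y : G) : ℕ := L.l (x⁻¹ * y)

theorem d_self (x : G) : L.d x x = 0 := by simp [d, L.one]

theorem eq_of_d {x y : G} (h : L.d x y = 0) : x = y := by
  have h1 := L.eq_one _ h
  have h2 : x * (x⁻¹ * y) = x * 1 := by rw [h1]
  simpa using h2.symm

theorem d_comm (x y : G) : L.d x y = L.d y x := by
  unfold d
  rw [← L.inv (y⁻¹ * x)]
  simp

theorem d_tri (x y z : G) : L.d x z ≤ L.d x y + L.d y z := by
  unfold d
  have h := L.mul (x⁻¹ * y) (y⁻¹ * z)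
  have e : x⁻¹ * y * (y⁻¹ * z) = x⁻¹ * z := by group
  rwa [e] at h

theorem d_smul (g x y : G) : L.d (g * x) (g * y) = L.d x y := by
  unfold d
  congr 1
  group

theorem d_one (x : G) : L.d 1 x = L.l x := by simp [d]

theorem d_interp (x y : G) (i : ℕ) (hi : i ≤ L.d x y) : ∃ z, L.d x z = i ∧ i + L.d z y = L.d x y := by
  obtain ⟨a, b, h1, h2, h3⟩ := L.interp (x⁻¹ * y) i hi
  refine ⟨x * a, ?_, ?_⟩
  · unfold d; simpa using h2
  · have e : (x * a)⁻¹ * y = b := by
      have : y = x * (a * b) := by rw [h1]; group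
      rw [this]; group
    unfold d
    rw [e]
    exact h3

/-- Four point condition. -/
def Hyp (D : ℕ) : Prop := ∀ x y z w : G, L.d x z + L.d y w ≤
  max (L.d x y + L.d z w) (L.d x w + L.d y z) + D

/-- `z` is between `x` and `y` (lies on a geodesic from `x` to `y`). -/
def Btw (x z y : G) : Prop := L.d x z + L.d z y = L.d x y

/-- Twice the Gromov product of `y` and `z` seen from `x`. -/
def gp (x y z : G) : ℤ := L.d x y + L.d x z - L.d y z

/-- Word length of a symmetric generating set: `n` is a bound for the length of `g`. -/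
def Reach (S : Set G) : ℕ → G → Prop
  | 0, g => g = 1
  | n + 1, g => ∃ s a, (s ∈ S ∨ s = 1) ∧ Reach S n a ∧ g = s * a

end Len

end Pool.Agent.Beb
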