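import Pool.Agent.Work.MP_beb559_al.Len

/-!
# The word length of a generating set
-/

namespace Pool.Agent.Beb

namespace Len

variable {G : Type} [Group G]

/-- `g` is a product of at most `n` elements of `S ∪ S⁻¹`. -/
def Rch (S : Set G) (n : ℕ) (g : G) : Prop :=
  ∃ w : List G, w.length ≤ n ∧ (∀ s ∈ w, s ∈ S ∨ s⁻¹ ∈ S) ∧ w.prod = g

theorem Rch.one (S : Set G) (n : ℕ) : Rch S n 1 := ⟨[], by simp, by simp, by simp⟩

theorem Rch.mul {S : Set G} {m n : ℕ} {g h : G} (hg : Rch S m g) (hh : Rch S n h) :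
    Rch S (m + n) (g * h) := by
  obtain ⟨w, h1, h2, h3⟩ := hg
  obtain ⟨w', h1', h2', h3'⟩ := hh
  refine ⟨w ++ w', by simp; omega, ?_, by simp [h3, h3']⟩
  intro s hs
  rcases List.mem_append.1 hs with h | h
  · exact h2 s h
  · exact h2' s h

theorem Rch.inv {S : Set G} {n : ℕ} {g : G} (hg : Rch S n g) : Rch S n g⁻¹ := by
  obtain ⟨w, h1, h2, h3⟩ := hg
  refine ⟨(w.map (·⁻¹)).reverse, by simpa using h1, ?_, ?_⟩
  · intro s hs
    rw [List.mem_reverse, List.mem_map] at hs
    obtain ⟨t, ht, rfl⟩ := hs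
    rcases h2 t ht with h | h
    · right; simpa using h
    · left; exact h
  · rw [← h3, List.prod_inv_reverse]

theorem Rch.of_mem {S : Set G} {g : G} (hg : g ∈ S) : Rch S 1 g :=
  ⟨[g], by simp, by simpa using Or.inl hg, by simp⟩

theorem Rch.mono {S : Set G} {m n : ℕ} (h : m ≤ n) {g : G} (hg : Rch S m g) : Rch S n g := by
  obtain ⟨w, h1, h2, h3⟩ := hg
  exact ⟨w, h1.trans h, h2, h3⟩

theorem exists_rch {S : Set G} (hS : Subgroup.closure S = ⊤) (g : G) : ∃ n, Rch S n g := by
  have hg : g ∈ Subgroup.closure S := by rw [hS]; trivial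
  induction hg using Subgroup.closure_induction with
  | mem x hx => exact ⟨1, Rch.of_mem hx⟩
  | one => exact ⟨0, Rch.one S 0⟩
  | mul x y _ _ hx hy =>
    obtain ⟨m, hm⟩ := hx
    obtain ⟨n, hn⟩ := hy
    exact ⟨m + n, hm.mul hn⟩
  | inv x _ hx =>
    obtain ⟨m, hm⟩ := hx
    exact ⟨m, hm.inv⟩

open Classical in
/-- The word length of a generating set. -/
noncomputable def gen (S : Set G) (hS : Subgroup.closure S = ⊤) : Len G where
  l g := Nat.find (exists_rch hS g)
  one := by
    rw [Nat.find_eq_zero]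
    exact Rch.one S 0
  eq_one g hg := by
    rw [Nat.find_eq_zero] at hg
    obtain ⟨w, h1, -, h3⟩ := hg
    have : w = [] := List.length_eq_zero_iff.1 (by omega)
    rw [← h3, this]
    simp
  inv g := by
    apply le_antisymm
    · exact Nat.find_min' _ (Nat.find_spec (exists_rch hS g)).inv
    · refine Nat.find_min' _ ?_
      have h := (Nat.find_spec (exists_rch hS g⁻¹)).inv
      rwa [inv_inv] at h
  mul g h := Nat.find_min' _ ((Nat.find_spec (exists_rch hS g)).mul
    (Nat.find_spec (exists_rch hS h)))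
  interp g i hi := by
    obtain ⟨w, h1, h2, h3⟩ := Nat.find_spec (exists_rch hS g)
    set n := Nat.find (exists_rch hS g) with hn
    have hmin : ∀ m, Rch S m g → n ≤ m := fun m hm => Nat.find_min' _ hm
    have hle : w.length = n := le_antisymm h1 (hmin _ ⟨w, le_rfl, h2, h3⟩)
    have ha : Rch S i (w.take i).prod :=
      ⟨w.take i, by simp, fun s hs => h2 s (List.mem_of_mem_take hs), rfl⟩
    have hb : Rch S (n - i) (w.drop i).prod :=
      ⟨w.drop i, by simp; omega, fun s hs => h2 s (List.mem_of_mem_drop hs), rfl⟩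
    have hab : (w.take i).prod * (w.drop i).prod = g := by
      rw [← List.prod_append, List.take_append_drop, h3]
    refine ⟨(w.take i).prod, (w.drop i).prod, hab, ?_⟩
    have h4 := Nat.find_min' (exists_rch hS (w.take i).prod) ha
    have h5 := Nat.find_min' (exists_rch hS (w.drop i).prod) hb
    have h6 := hmin _ (hab ▸ (Nat.find_spec (exists_rch hS (w.take i).prod)).mul
      (Nat.find_spec (exists_rch hS (w.drop i).prod)))
    omega

open Classical in
theorem gen_le_iff {S : Set G} (hS : Subgroup.closure S = ⊤) (g : G) (n : ℕ) :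
    (gen S hS).l g ≤ n ↔ Rch S n g := by
  unfold gen
  dsimp only
  rw [Nat.find_le_iff]
  constructor
  · rintro ⟨m, hm, h⟩
    exact h.mono hm
  · intro h
    exact ⟨n, le_rfl, h⟩

end Len

end Pool.Agent.Beb
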