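import Pool.Agent.Work.MP_beb559_al.FA
import Pool.Agent.Work.MP_beb559_al.GA

/-!
# The surviving subgroup
-/

namespace Pool.Agent.Beb

variable {P : Par} {G E : Type} [Group G] [Group E] {V : Subgroup E} {π : G →* E}
  {F : Subgroup G} {L : Len G}

/-- MA1 at the base point. -/
theorem dp_F_one (hI : Inv P V π F L) (W : Rot P L)
    (hW : ∀ i, IsAx P V π L (W.e i)) (hY : ∀ i, W.Y i = YY P L (W.e i)) (i : W.I) {f : G}
    (hf : f ∈ F) : W.dp i 1 f ≤ 3 * P.R := by
  by_contra hcon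
  have hH : L.Hyp P.D := hI.hyp
  have c1 := P.hD
  have c2 := P.hT0
  have c3 := P.hT3
  have c4 := P.hA
  have c5 := P.hR1
  have c6 := P.hR
  obtain ⟨a, ha⟩ := W.toQF.exists_nr i 1
  obtain ⟨b, hb⟩ := W.toQF.exists_nr i f
  have hbig : L.d 1 a + L.d a b + L.d b f ≤ L.d 1 f + 15 * P.R1 :=
    W.toQF.dp_big hH ha hb (by omega)
  have hlen : W.dp i 1 f ≤ L.d a b + 16 * P.R1 := W.toQF.dp_le_pt hH ha hb
  have haY : a ∈ YY P L (W.e i) := by rw [← hY i]; exact ha.1
  have hbY : b ∈ YY P L (W.e i) := by rw [← hY i]; exact hb.1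
  -- the key estimate
  have key : ∀ z : G, L.Btw 1 z f → L.d 1 a + 30 * P.R1 ≤ L.d 1 z →
      L.d f b + 30 * P.R1 ≤ L.d z f → ∃ f' ∈ F, L.d z f' ≤ P.D ∧
        L.d z (W.e i * f') ≤ 89 * P.D := by
    intro z hz h1 h2
    obtain ⟨z', hz', hzz⟩ := quad_deep L hH a b hz (by omega) (by omega)
    have h3 : L.d z' (W.e i * z') ≤ 80 * P.D := by
      refine (hW i).deep hI.toGeo (T := P.R1) haY hbY (by omega) hz' ?_ ?_
      · have t1 := L.d_tri 1 a z
        have t2 := L.d_tri a z' z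
        rw [L.d_comm z' z] at t2
        omega
      · have t1 := L.d_tri z b f
        have t2 := L.d_tri z z' b
        rw [L.d_comm b f] at t1
        omega
    obtain ⟨f', hf', h4⟩ := hI.m1 f hf z hz
    refine ⟨f', hf', h4, ?_⟩
    have t1 := L.d_tri z z' (W.e i * f')
    have t2 := L.d_tri z' (W.e i * z') (W.e i * f')
    have t3 := L.d_smul (W.e i) z' f'
    have t4 := L.d_tri z' z f'
    have t5 := L.d_comm z' z
    omega
  have hfb : L.d f b = L.d b f := L.d_comm f b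
  obtain ⟨z, hz1, hz2⟩ := L.d_interp 1 f (L.d 1 a + 30 * P.R1) (by omega)
  obtain ⟨w, hw1, hw2⟩ := L.d_interp 1 f (L.d 1 f - L.d b f - 30 * P.R1) (by omega)
  have hz : L.Btw 1 z f := by unfold Len.Btw; omega
  have hw : L.Btw 1 w f := by unfold Len.Btw; omega
  obtain ⟨p, hp, hp1, hp2⟩ := key z hz (by omega) (by omega)
  obtain ⟨q, hq, hq1, hq2⟩ := key w hw (by omega) (by omega)
  have heF : W.e i ∉ F := fun h => hI.m3 _ h (hW i).kil
  have hA := hI.m2 (W.e i) heF z w ⟨p, hp, by omega⟩ ⟨p, hp, by omega⟩ ⟨q, hq, by omega⟩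
    ⟨q, hq, by omega⟩
  have t1 := L.d_tri 1 z w
  omega

/-- MA1. Elements of `F` have small projections to the axes. Proof: suppose `dp i 1 f > 3 R`. `a`, `b`
nearest to `1` and `f`; `dp_big`. Points `z` between `a` and `b` at distance `≥ 2 R1` from both are
moved at most `80 D` by `e = e i` (`IsAx.deep`); they are within `20 R1` ... more precisely: points
`z` between `1` and `f` at distance `≥ L.d 1 a + 30 R1` from `1` and `≥ L.d b f + 30 R1` from `f` are
within `4 D` of such points (`quad_deep`), so they are moved at most `90 D` by `e`. By (M1) they are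
within `D` of `F`, so `z` is within `100 D ≤ 2 T0` of `F` and of `e * F`. Two such points at distance
`> A`: by (M2) `e ∈ F`, contradiction with (M3) since `e` is killable. -/
theorem dp_F (hI : Inv P V π F L) (hV : EV P.p V) (W : Rot P L)
    (hW : ∀ i, IsAx P V π L (W.e i)) (hY : ∀ i, W.Y i = YY P L (W.e i)) (i : W.I) {f₁ f₂ : G}
    (h₁ : f₁ ∈ F) (h₂ : f₂ ∈ F) : W.dp i f₁ f₂ ≤ 3 * P.R := by
  have h := dp_F_one hI W hW hY (f₁⁻¹ • i) (F.mul_mem (F.inv_mem h₁) h₂)
  have h2 := W.toQF.dp_smul f₁⁻¹ i f₁ f₂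
  rw [inv_mul_cancel] at h2
  rwa [h2] at h

/-- MA2. Injectivity. Proof: `red` at `1`; a step is impossible. -/
theorem F_inj (hH : L.Hyp P.D) (W : Rot P L)
    (hF : ∀ i, ∀ f₁ ∈ F, ∀ f₂ ∈ F, W.dp i f₁ f₂ ≤ 3 * P.R) : ∀ f ∈ F, f ∈ W.K → f = 1 := by
  intro f hf hk
  have hr := W.red hH 1 f hk
  cases hr with
  | one => rfl
  | step i j k h1 h2 =>
    exfalso
    have h3 := hF i 1 F.one_mem f hf
    have h4 := W.t_big i
    have c1 := P.hL
    have c2 := P.hD
    have c3 := P.hT0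
    have c4 := P.hT3
    have c5 := P.hA
    have c6 := P.hR1
    have c7 := P.hR
    rw [mul_one] at h1
    have h5 : W.dp i 1 f ≤ 3 * P.R := h3
    have h6 : 1 * (40000 * P.R) ≤ (P.A + 2) * (40000 * P.R) := Nat.mul_le_mul_right _ (by omega)
    omega

end Pool.Agent.Beb
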