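import Pool.Agent.Work.MP_beb559_al.QA

/-!
# The surviving subgroup in the quotient
-/

namespace Pool.Agent.Beb

variable {P : Par} {G E : Type} [Group G] [Group E] {V : Subgroup E} {π : G →* E}
  {F : Subgroup G} {L : Len G}

theorem Rot.t_large (W : Rot P L) (i : W.I) : 80000 * P.R ≤ W.t i := by
  have h1 := W.t_big i
  have h2 := P.hL
  have h3 : 2 * (40000 * P.R) ≤ (P.A + 2) * (40000 * P.R) := Nat.mul_le_mul_right _ (by omega)
  omega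

theorem dp_F_smul (W : Rot P L) (hF : ∀ i, ∀ f₁ ∈ F, ∀ f₂ ∈ F, W.dp i f₁ f₂ ≤ 3 * P.R)
    (g : G) (i : W.I) {f₁ f₂ : G} (h₁ : f₁ ∈ F) (h₂ : f₂ ∈ F) :
    W.dp i (g * f₁) (g * f₂) ≤ 3 * P.R := by
  have h := W.toQF.dp_smul g (g⁻¹ • i) f₁ f₂
  rw [smul_inv_smul] at h
  rw [h]
  exact hF _ _ h₁ _ h₂

/-- Reduction of a point between `1` and `k * f`. -/
theorem m1_red (hH : L.Hyp P.D) (W : Rot P L)
    (hF : ∀ i, ∀ f₁ ∈ F, ∀ f₂ ∈ F, W.dp i f₁ f₂ ≤ 3 * P.R) {f : G} (hf : f ∈ F) {k : G}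
    (hk : W.Red f k) : ∀ z : G, ∃ z' : G, (QuotientGroup.mk z' : G ⧸ W.K) = QuotientGroup.mk z ∧
      W.hat.d 1 z' ≤ W.hat.d 1 z ∧ W.hat.d z' f ≤ W.hat.d z (k * f) := by
  induction hk with
  | one => intro z; exact ⟨z, rfl, le_rfl, by rw [one_mul]⟩
  | step i j k h _ ih =>
    intro z
    have ht := W.t_large i
    have h1 := W.toQF.dp_tri hH i f 1 (k * f)
    have h2 := W.toQF.dp_tri hH i 1 z (k * f)
    have h3 := hF i f hf 1 (one_mem F)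
    have hei : (W.e i ^ (P.p * j)) • i = i := W.e_zpow_smul i _
    have h4 : 400 * P.R < W.dp i 1 z ∨ 400 * P.R < W.dp i z (k * f) := by
      by_contra hc
      push Not at hc
      have : 1 ≤ P.R := by
        have := P.hD; have := P.hT0; have := P.hT3; have := P.hA; have := P.hR1; have := P.hR
        omega
      omega
    rcases h4 with h4 | h4
    · obtain ⟨z', a, b, c⟩ := ih (W.e i ^ (P.p * j) * z)
      refine ⟨z', ?_, b.trans (W.toQF.hat_rot hH i h4 hei), ?_⟩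
      · rw [a, QuotientGroup.eq]
        have : (W.e i ^ (P.p * j) * z)⁻¹ * z = z⁻¹ * (W.e i ^ (P.p * j))⁻¹ * z⁻¹⁻¹ := by group
        rw [this]
        exact W.K_normal.conj_mem _ (inv_mem (W.mem_K i j)) z⁻¹
      · rw [mul_assoc, W.hat.d_smul] at c
        exact c
    · obtain ⟨z', a, b, c⟩ := ih z
      refine ⟨z', a, b, c.trans ?_⟩
      rw [mul_assoc]
      exact W.toQF.hat_rot hH i h4 hei

/-- MA3. (M1) for the quotient. Proof: `q` between `1` and `mk f`. `dq (mk 1) (mk f) = hat 1 f`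
(`dq_eq`). Lift `q` to `z` with `hat 1 z = dq`, `hat z (k*f) = dq`; induction on `Red 1 k`:
`dp i 1 k ≤ dp i 1 z + dp i z (k*f) + dp i (k*f) k`, the last `≤ 3 R`: rotate at `[1,z]` or
`[z,k*f]`. So `F.hat.Btw 1 z f`; `hat_near`: `w` between `1` and `f` for `L` with `hat z w ≤ 70`
(`hat_hyp'`), (M1) for `w`: `L.d w f' ≤ D`, `hat ≤ 1`. (Here `D ≥ 100` is used; `hat_near'` gives
`70`.) -/
theorem m1_quo (hI : Inv P V π F L) (W : Rot P L)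
    (hF : ∀ i, ∀ f₁ ∈ F, ∀ f₂ ∈ F, W.dp i f₁ f₂ ≤ 3 * P.R) :
    ∀ f ∈ F.map (QuotientGroup.mk' W.K), ∀ z : G ⧸ W.K, W.dq.Btw 1 z f →
      ∃ f' ∈ F.map (QuotientGroup.mk' W.K), W.dq.d z f' ≤ P.D := by
  rintro _ ⟨f, hf, rfl⟩ q hq
  have hH := hI.hyp
  rw [QuotientGroup.mk'_apply] at hq
  have e1 : W.dq.d (QuotientGroup.mk 1) (QuotientGroup.mk f) = W.hat.d 1 f := by
    refine W.dq_eq hH fun i => ?_
    have := W.t_large i
    have := hF i 1 (one_mem F) f hf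
    omega
  obtain ⟨z, hz, h1⟩ := W.exists_dq' 1 q
  subst hz
  obtain ⟨k, hk, h2⟩ := W.exists_dq z f
  unfold Len.Btw at hq
  have e0 : (1 : G ⧸ W.K) = QuotientGroup.mk 1 := rfl
  rw [e0, e1, ← h1, ← h2] at hq
  obtain ⟨z', a, b, c⟩ := m1_red hH W hF hf (W.red hH f k hk) z
  have h3 := W.hat.d_tri 1 z' f
  obtain ⟨w, hw, h4⟩ := W.toQF.hat_near hH (x := 1) (y := f) (z := z')
    (by unfold Len.Btw; omega)
  obtain ⟨f', hf', h5⟩ := hI.m1 f hf w hw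
  refine ⟨QuotientGroup.mk f', ⟨f', hf', rfl⟩, ?_⟩
  rw [← a]
  have h6 := W.dq_le z' f' (one_mem W.K)
  rw [one_mul] at h6
  have hD := P.hD; have := P.hT0; have := P.hT3; have := P.hA; have := P.hR1; have := P.hR
  have h7 := W.toQF.hat_le_one' (x := w) (y := f') (by omega)
  have h8 := W.hat.d_tri z' w f'
  omega

/-- Closing the quadrilateral of MA4. -/
theorem m2_red (hH : L.Hyp P.D) (W : Rot P L)
    (hF : ∀ i, ∀ f₁ ∈ F, ∀ f₂ ∈ F, W.dp i f₁ f₂ ≤ 3 * P.R) {f₁ f₂ f₃ f₄ : G} (h₁ : f₁ ∈ F)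
    (h₂ : f₂ ∈ F) (h₃ : f₃ ∈ F) (h₄ : f₄ ∈ F) (N : ℕ) {k : G} (hk : W.Red f₁ k) :
    ∀ g : G, W.hat.d f₂ (g * f₄) ≤ N → W.hat.d (g * f₃) (k * f₁) ≤ N →
      ∃ g' : G, (QuotientGroup.mk g' : G ⧸ W.K) = QuotientGroup.mk g ∧
        W.hat.d f₂ (g' * f₄) ≤ N ∧ W.hat.d (g' * f₃) f₁ ≤ N := by
  induction hk with
  | one => intro g a b; exact ⟨g, rfl, a, by rwa [one_mul] at b⟩
  | step i j k h _ ih =>
    intro g a b
    have ht := W.t_large i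
    have h1 := W.toQF.dp_tri hH i f₁ f₂ (k * f₁)
    have h2 := W.toQF.dp_tri hH i f₂ (g * f₄) (k * f₁)
    have h3 := W.toQF.dp_tri hH i (g * f₄) (g * f₃) (k * f₁)
    have h5 := hF i f₁ h₁ f₂ h₂
    have h6 := dp_F_smul W hF g i h₄ h₃
    have hei : (W.e i ^ (P.p * j)) • i = i := W.e_zpow_smul i _
    have h4 : 400 * P.R < W.dp i f₂ (g * f₄) ∨ 400 * P.R < W.dp i (g * f₃) (k * f₁) := by
      by_contra hc
      push Not at hc
      have : 1 ≤ P.R := by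
        have := P.hD; have := P.hT0; have := P.hT3; have := P.hA; have := P.hR1; have := P.hR
        omega
      omega
    rcases h4 with h4 | h4
    · obtain ⟨g', a', b', c'⟩ := ih (W.e i ^ (P.p * j) * g)
        (by rw [mul_assoc]; exact (W.toQF.hat_rot hH i h4 hei).trans a)
        (by rw [mul_assoc, mul_assoc, W.hat.d_smul]; exact b)
      refine ⟨g', ?_, b', c'⟩
      rw [a', QuotientGroup.eq]
      have : (W.e i ^ (P.p * j) * g)⁻¹ * g = g⁻¹ * (W.e i ^ (P.p * j))⁻¹ * g⁻¹⁻¹ := by group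
      rw [this]
      exact W.K_normal.conj_mem _ (inv_mem (W.mem_K i j)) g⁻¹
    · exact ih g a (by rw [mul_assoc]; exact (W.toQF.hat_rot hH i h4 hei).trans b)

/-- MA4. (M2) for the quotient. Proof: suppose `dq a b > A`; `f₁, f₂, f₃, f₄ ∈ F` with
`dq a f₁, dq b f₂, dq a (g f₃), dq b (g f₄) ≤ 2 T0`. Lift: `hat f₂ (g' f₄) ≤ 4 T0` for a lift `g'` of
`g`, `hat (g' f₃) (k f₁) ≤ 4 T0`, `k ∈ K`; induction on `Red f₁ k`: only the two short sides can have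
`dp i > 400 R`; rotate there. So `k = 1`. Points `z` between `f₁` and `f₂` at hat distance
`≥ 4 T0 + D` from both are within `4 D` of `[g' f₃, g' f₄]`, so by (M1) within `5 D` of `F` and of
`g' F`; there are two such points at distance `> A` (`hat_len`). (M2): `g' ∈ F`. -/
theorem m2_quo (hI : Inv P V π F L) (W : Rot P L)
    (hF : ∀ i, ∀ f₁ ∈ F, ∀ f₂ ∈ F, W.dp i f₁ f₂ ≤ 3 * P.R) :
    ∀ g : G ⧸ W.K, g ∉ F.map (QuotientGroup.mk' W.K) → ∀ a b : G ⧸ W.K,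
    (∃ f ∈ F.map (QuotientGroup.mk' W.K), W.dq.d a f ≤ 2 * P.T0) →
    (∃ f ∈ F.map (QuotientGroup.mk' W.K), W.dq.d a (g * f) ≤ 2 * P.T0) →
    (∃ f ∈ F.map (QuotientGroup.mk' W.K), W.dq.d b f ≤ 2 * P.T0) →
    (∃ f ∈ F.map (QuotientGroup.mk' W.K), W.dq.d b (g * f) ≤ 2 * P.T0) →
    W.dq.d a b ≤ P.A := by
  rintro q hq a b ⟨_, ⟨f₁, h₁, rfl⟩, d₁⟩ ⟨_, ⟨f₃, h₃, rfl⟩, d₃⟩ ⟨_, ⟨f₂, h₂, rfl⟩, d₂⟩
    ⟨_, ⟨f₄, h₄, rfl⟩, d₄⟩
  rw [QuotientGroup.mk'_apply] at d₁ d₂ d₃ d₄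
  have hH := hI.hyp
  by_contra hab
  push Not at hab
  have hD := P.hD; have hT0 := P.hT0; have hT3 := P.hT3; have hA := P.hA; have hR1 := P.hR1
  have hR := P.hR
  obtain ⟨g₀, rfl⟩ := QuotientGroup.mk_surjective q
  have eg : ∀ (g f : G), (QuotientGroup.mk g : G ⧸ W.K) * QuotientGroup.mk f =
    QuotientGroup.mk (g * f) := fun g f => rfl
  rw [eg] at d₃ d₄
  -- the lift of `g`
  obtain ⟨k₀, hk₀, e₁⟩ := W.exists_dq f₂ (g₀ * f₄)
  have t1 := W.dq.d_tri (QuotientGroup.mk f₂) b (QuotientGroup.mk (g₀ * f₄))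
  rw [W.dq.d_comm (QuotientGroup.mk f₂) b] at t1
  obtain ⟨k, hk, e₂⟩ := W.exists_dq (k₀ * g₀ * f₃) f₁
  have e₃ : (QuotientGroup.mk (k₀ * g₀) : G ⧸ W.K) = QuotientGroup.mk g₀ := by
    rw [QuotientGroup.eq]
    have : (k₀ * g₀)⁻¹ * g₀ = g₀⁻¹ * k₀⁻¹ * g₀⁻¹⁻¹ := by group
    rw [this]
    exact W.K_normal.conj_mem _ (inv_mem hk₀) g₀⁻¹
  have e₄ : (QuotientGroup.mk (k₀ * g₀ * f₃) : G ⧸ W.K) = QuotientGroup.mk (g₀ * f₃) := by
    rw [← eg, e₃, eg]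
  rw [e₄] at e₂
  have t2 := W.dq.d_tri (QuotientGroup.mk (g₀ * f₃)) a (QuotientGroup.mk f₁)
  rw [W.dq.d_comm (QuotientGroup.mk (g₀ * f₃)) a] at t2
  obtain ⟨g, hg, e₅, e₆⟩ := m2_red hH W hF h₁ h₂ h₃ h₄ (4 * P.T0) (W.red hH f₁ k hk) (k₀ * g₀)
    (by rw [mul_assoc]; omega) (by omega)
  have hgF : g ∉ F := fun hgF => hq ⟨g, hgF, by rw [QuotientGroup.mk'_apply, hg, e₃]⟩
  -- the distance of `f₁` and `f₂`
  have t3 := W.dq.d_tri a (QuotientGroup.mk f₁) b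
  have t4 := W.dq.d_tri (QuotientGroup.mk f₁) (QuotientGroup.mk f₂) b
  rw [W.dq.d_comm (QuotientGroup.mk f₂) b] at t4
  have t5 := W.dq_le f₁ f₂ (one_mem W.K)
  rw [one_mul] at t5
  have t6 : 796 * P.T0 < W.hat.d f₁ f₂ := by omega
  -- the points
  have key : ∀ z, L.Btw f₁ z f₂ → 4 * P.T0 + 21 < W.hat.d f₁ z → 4 * P.T0 + 21 < W.hat.d z f₂ →
      (∃ f ∈ F, L.d z f ≤ 2 * P.T0) ∧ (∃ f ∈ F, L.d z (g * f) ≤ 2 * P.T0) := by
    intro z hz c1 c2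
    constructor
    · obtain ⟨f', hf', h⟩ := hI.m1 (f₁⁻¹ * f₂) (mul_mem (inv_mem h₁) h₂) (f₁⁻¹ * z) (by
        unfold Len.Btw at hz ⊢
        have u1 := L.d_smul f₁ 1 (f₁⁻¹ * z)
        have u2 := L.d_smul f₁ 1 (f₁⁻¹ * f₂)
        rw [mul_one, mul_inv_cancel_left] at u1 u2
        rw [← u1, ← u2, L.d_smul]
        exact hz)
      refine ⟨f₁ * f', mul_mem h₁ hf', ?_⟩
      have u1 := L.d_smul f₁ (f₁⁻¹ * z) f'
      rw [mul_inv_cancel_left] at u1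
      omega
    · obtain ⟨z', hz', h5⟩ := quad L hH (g * f₃) (g * f₄) hz
      have h6 := W.toQF.hat_le_one' (x := z) (y := z') (by omega)
      rcases hz' with h7 | h7 | h7
      · have h8 := W.toQF.hat_btw hH h7
        have h9 := W.hat.d_tri f₁ z' z
        rw [W.hat.d_comm z' z] at h9
        rw [W.hat.d_comm f₁ (g * f₃)] at h8
        omega
      · obtain ⟨f', hf', h⟩ := hI.m1 (f₃⁻¹ * f₄) (mul_mem (inv_mem h₃) h₄) ((g * f₃)⁻¹ * z') (by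
          unfold Len.Btw at h7 ⊢
          have u1 := L.d_smul (g * f₃) 1 ((g * f₃)⁻¹ * z')
          have u2 := L.d_smul (g * f₃) 1 (f₃⁻¹ * f₄)
          have u3 := L.d_smul (g * f₃) ((g * f₃)⁻¹ * z') (f₃⁻¹ * f₄)
          have u4 : g * f₃ * (f₃⁻¹ * f₄) = g * f₄ := by group
          rw [mul_one, mul_inv_cancel_left] at u1
          rw [mul_one, u4] at u2
          rw [mul_inv_cancel_left, u4] at u3
          rw [← u1, ← u2, ← u3]
          exact h7)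
        refine ⟨f₃ * f', mul_mem h₃ hf', ?_⟩
        have u1 := L.d_smul (g * f₃) ((g * f₃)⁻¹ * z') f'
        rw [mul_inv_cancel_left, mul_assoc g f₃ f'] at u1
        have u2 := L.d_tri z z' (g * (f₃ * f'))
        omega
      · have h8 := W.toQF.hat_btw hH h7
        have h9 := W.hat.d_tri z z' f₂
        rw [W.hat.d_comm (g * f₄) f₂] at h8
        omega
  have hb0 : L.Btw f₁ f₁ f₂ := by unfold Len.Btw; rw [L.d_self, zero_add]
  obtain ⟨z₁, hz₁, c₁⟩ := W.toQF.hat_interp hb0 (5 * P.T0) (by omega)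
  obtain ⟨z₂, hz₂, c₂⟩ := W.toQF.hat_interp hb0 (700 * P.T0) (by omega)
  have v1 := W.hat.d_tri f₁ z₁ f₂
  have v2 := W.hat.d_tri f₁ z₂ f₂
  have v3 := W.hat.d_tri f₁ z₁ z₂
  obtain ⟨p₁, p₂⟩ := key z₁ hz₁ (by omega) (by omega)
  obtain ⟨p₃, p₄⟩ := key z₂ hz₂ (by omega) (by omega)
  have h10 := hI.m2 g hgF z₁ z₂ p₁ p₂ p₃ p₄
  have h11 := W.toQF.hat_len z₁ z₂ 1 (by omega)
  omega

end Pool.Agent.Beb
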