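import Pool.Agent.Work.MP_beb559_al.Stmt

/-!
# A criterion for not preforming a free group
-/

namespace Pool.Agent.Beb

/-- the inverse letter -/
def RA_nu {α : Type} (u : α × Bool) : α × Bool := (u.1, !u.2)

theorem RA_rel_iff {α : Type} (u v : α × Bool) :
    (u.1 = v.1 → u.2 = v.2) ↔ v ≠ RA_nu u := by
  obtain ⟨u1, u2⟩ := u
  obtain ⟨v1, v2⟩ := v
  simp only [RA_nu, ne_eq, Prod.mk.injEq, not_and]
  constructor
  · intro h h1 h2
    have := h h1.symm
    subst this
    revert h2; cases u2 <;> simp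
  · intro h h1
    have := h h1.symm
    revert this; cases u2 <;> cases v2 <;> simp

theorem RA_exists_letter {m : ℕ} (hm : 2 ≤ m) (x y z : Fin m × Bool) :
    ∃ s : Fin m × Bool, s ≠ x ∧ s ≠ y ∧ s ≠ z := by
  by_contra hcon
  push Not at hcon
  have h1 : (Finset.univ : Finset (Fin m × Bool)) ⊆ {x, y, z} := by
    intro s _
    simp only [Finset.mem_insert, Finset.mem_singleton]
    by_contra h
    push Not at h
    exact h.2.2 (hcon s h.1 h.2.1)
  have h2 := Finset.card_le_card h1
  have h3 : ({x, y, z} : Finset (Fin m × Bool)).card ≤ 3 := Finset.card_le_three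
  rw [Finset.card_univ, Fintype.card_prod, Fintype.card_fin, Fintype.card_bool] at h2
  omega

/-- RA1. In a free group of rank at least two, nontrivial elements `a`, `b`: some conjugate of `b`
does not commute with `a`. (Take `c = z z'` of length two with letters such that `c b c⁻¹` is
reduced and starts with a letter different from the first letter of `a` and from the inverse of the
last letter of `a`.) -/
theorem exists_not_commute {m : ℕ} (hm : 2 ≤ m) (a b : FreeGroup (Fin m)) (ha : a ≠ 1)
    (hb : b ≠ 1) : ∃ c : FreeGroup (Fin m), ¬ Commute a (c * b * c⁻¹) := by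
  have hwa : a.toWord ≠ [] := by
    rwa [ne_eq, FreeGroup.toWord_eq_nil_iff]
  have hwb : b.toWord ≠ [] := by
    rwa [ne_eq, FreeGroup.toWord_eq_nil_iff]
  obtain ⟨fa, A, hA⟩ := List.exists_cons_of_ne_nil hwa
  obtain ⟨fb, B, hB⟩ := List.exists_cons_of_ne_nil hwb
  obtain ⟨A', la, hA'⟩ : ∃ A' la, a.toWord = A' ++ [la] :=
    ⟨_, _, (List.dropLast_append_getLast hwa).symm⟩
  obtain ⟨B', lb, hB'⟩ : ∃ B' lb, b.toWord = B' ++ [lb] :=
    ⟨_, _, (List.dropLast_append_getLast hwb).symm⟩
  have hra : FreeGroup.IsReduced a.toWord := FreeGroup.isReduced_toWord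
  have hrb : FreeGroup.IsReduced b.toWord := FreeGroup.isReduced_toWord
  obtain ⟨s, hs1, hs2, _⟩ := RA_exists_letter hm (RA_nu la) fa fa
  obtain ⟨t, ht1, ht2, ht3⟩ := RA_exists_letter hm (RA_nu s) (RA_nu fb) lb
  refine ⟨FreeGroup.mk [s, t], fun hcom => ?_⟩
  set Y : List (Fin m × Bool) := [s, t] ++ (b.toWord ++ [RA_nu t, RA_nu s]) with hY
  have hy : FreeGroup.mk [s, t] * b * (FreeGroup.mk [s, t])⁻¹ = FreeGroup.mk Y := by
    rw [hY, ← FreeGroup.mul_mk, ← FreeGroup.mul_mk, FreeGroup.mk_toWord, FreeGroup.inv_mk, mul_assoc]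
    rfl
  have hnn : ∀ u : Fin m × Bool, RA_nu (RA_nu u) = u := by
    intro u; simp [RA_nu]
  have hYr : FreeGroup.IsReduced Y := by
    rw [hY]
    unfold FreeGroup.IsReduced at hra hrb ⊢
    rw [List.isChain_append, List.isChain_append]
    refine ⟨?_, ⟨hrb, ?_, ?_⟩, ?_⟩
    · rw [List.isChain_pair, RA_rel_iff]
      exact ht1
    · rw [List.isChain_pair, RA_rel_iff, hnn]
      intro h
      exact ht1 h.symm
    · intro x hx y hy'
      rw [hB'] at hx
      simp at hx hy'
      subst hx
      subst hy'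
      rw [RA_rel_iff]
      intro h
      apply ht3
      have := congrArg RA_nu h
      rwa [hnn, hnn] at this
    · intro x hx y hy'
      rw [hB] at hy'
      simp at hx hy'
      subst hx
      subst hy'
      rw [RA_rel_iff]
      intro h
      apply ht2
      rw [h, hnn]
  have e1 : FreeGroup.IsReduced (a.toWord ++ Y) := by
    unfold FreeGroup.IsReduced at hra hYr ⊢
    rw [List.isChain_append]
    refine ⟨hra, hYr, ?_⟩
    intro x hx y hy'
    rw [hA'] at hx
    rw [hY] at hy'
    simp at hx hy'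
    subst hx
    subst hy'
    rw [RA_rel_iff]
    exact hs1
  have e2 : FreeGroup.IsReduced (Y ++ a.toWord) := by
    unfold FreeGroup.IsReduced at hra hYr ⊢
    rw [List.isChain_append]
    refine ⟨hYr, hra, ?_⟩
    intro x hx y hy'
    rw [hA] at hy'
    have hY2 : Y = [s, t] ++ (b.toWord ++ [RA_nu t]) ++ [RA_nu s] := by simp [hY]
    rw [hY2, List.getLast?_concat, Option.mem_some_iff] at hx
    simp at hy'
    subst hx
    subst hy'
    rw [RA_rel_iff, hnn]
    exact Ne.symm hs2
  have h1 : (a * FreeGroup.mk Y).toWord = a.toWord ++ Y := by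
    have : a * FreeGroup.mk Y = FreeGroup.mk (a.toWord ++ Y) := by
      have e := FreeGroup.mul_mk (L₁ := a.toWord) (L₂ := Y)
      rwa [FreeGroup.mk_toWord] at e
    rw [this, FreeGroup.toWord_mk, e1.reduce_eq]
  have h2 : (FreeGroup.mk Y * a).toWord = Y ++ a.toWord := by
    have : FreeGroup.mk Y * a = FreeGroup.mk (Y ++ a.toWord) := by
      have e := FreeGroup.mul_mk (L₁ := Y) (L₂ := a.toWord)
      rwa [FreeGroup.mk_toWord] at e
    rw [this, FreeGroup.toWord_mk, e2.reduce_eq]
  rw [hy] at hcom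
  have h3 : a.toWord ++ Y = Y ++ a.toWord := by
    rw [← h1, ← h2, hcom.eq]
  rw [hA, hY] at h3
  simp at h3
  exact hs2 h3.1.symm

/-- RA2. Iterated commutators. -/
theorem iterComm {k m : ℕ} (hm : 2 ≤ m) (φ : FreeGroup (Fin k) →* FreeGroup (Fin m))
    (hφ : Function.Surjective φ) (ws : List (FreeGroup (Fin k))) (hw : ∀ w ∈ ws, φ w ≠ 1) :
    ∃ W, φ W ≠ 1 ∧ ∀ (P : Type) [Group P] (ψ : FreeGroup (Fin k) →* P),
      (∃ w ∈ ws, ψ w = 1) → ψ W = 1 := by
  induction ws with
  | nil =>
    obtain ⟨W, hW⟩ := hφ (FreeGroup.of ⟨0, by omega⟩)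
    refine ⟨W, ?_, ?_⟩
    · rw [hW]
      exact FreeGroup.of_ne_one _
    · rintro P _ ψ ⟨w, hw', _⟩
      simp at hw'
  | cons w ws ih =>
    obtain ⟨W, hW1, hW2⟩ := ih (fun w' hw' => hw w' (List.mem_cons_of_mem _ hw'))
    obtain ⟨c, hc⟩ := exists_not_commute hm (φ w) (φ W) (hw w List.mem_cons_self) hW1
    obtain ⟨C, rfl⟩ := hφ c
    refine ⟨w * (C * W * C⁻¹) * w⁻¹ * (C * W * C⁻¹)⁻¹, ?_, ?_⟩
    · intro h
      apply hc
      simp only [map_mul, map_inv] at h
      rw [mul_inv_eq_one, mul_inv_eq_iff_eq_mul] at h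
      exact h
    · rintro P _ ψ ⟨w', hw', h'⟩
      rcases List.mem_cons.1 hw' with rfl | hw'
      · simp only [map_mul, map_inv, h']
        group
      · have := hW2 P ψ ⟨w', hw', h'⟩
        simp only [map_mul, map_inv, this]
        group

/-- if the generators commute, so does everything -/
theorem RA_comm_of_gen {G : Type} [Group G] {k : ℕ} {s : Fin k → G} (hs : Gen s) {E : Type}
    [Group E] (f : G →* E) (h : ∀ i j, f (s i * s j) = f (s j * s i)) :
    ∀ x y : G, f (x * y) = f (y * x) := by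
  have h1 : ∀ (x : G) (i : Fin k), f (x * s i) = f (s i * x) := by
    intro x i
    have hx : x ∈ Subgroup.closure (Set.range s) := by rw [hs]; trivial
    induction hx using Subgroup.closure_induction with
    | mem x hx =>
      obtain ⟨j, rfl⟩ := hx
      exact h j i
    | one => simp
    | mul x y _ _ hx hy =>
      simp only [map_mul] at hx hy ⊢
      rw [mul_assoc, hy, ← mul_assoc, hx, mul_assoc]
    | inv x _ hx =>
      simp only [map_mul, map_inv] at hx ⊢
      rw [inv_mul_eq_iff_eq_mul, ← mul_assoc, hx, mul_assoc, mul_inv_cancel, mul_one]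
  intro x y
  have hy : y ∈ Subgroup.closure (Set.range s) := by rw [hs]; trivial
  induction hy using Subgroup.closure_induction with
  | mem y hy =>
    obtain ⟨j, rfl⟩ := hy
    exact h1 x j
  | one => simp
  | mul y z _ _ hy hz =>
    simp only [map_mul] at hy hz ⊢
    rw [← mul_assoc, hy, mul_assoc, hz, ← mul_assoc]
  | inv y _ hy =>
    simp only [map_mul, map_inv] at hy ⊢
    rw [mul_inv_eq_iff_eq_mul, mul_assoc, hy, ← mul_assoc, inv_mul_cancel, one_mul]

/-- RA3. Criterion for not preforming a free group. -/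
theorem noPre {G : Type} [Group G] {L : Type} [Nonempty L] (P E : L → Type) [∀ l, Group (P l)]
    [∀ l, Group (E l)] (ψ : ∀ l, G →* P l) (ρ : ∀ l, P l →* E l) (p : ℕ) (hp : 1 ≤ p)
    (hinj : ∀ g : G, (∀ l, ψ l g = 1) → g = 1)
    (hna : ∀ l, ∃ x y : G, ρ l (ψ l (x * y)) ≠ ρ l (ψ l (y * x)))
    (hkill : ∀ l (x y : G), ρ l (ψ l (x * y * x⁻¹ * y⁻¹)) ≠ 1 →
      (ψ l (x * y * x⁻¹ * y⁻¹)) ^ p = 1) (m : ℕ) :
    ¬ Preforms G (FreeGroup (Fin m)) := by
  rintro ⟨k, s, t, hgs, hgt, hconv⟩
  classical
  -- the commutators of the generators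
  set q : Fin k × Fin k → FreeGroup (Fin k) := fun ij =>
    FreeGroup.of ij.1 * FreeGroup.of ij.2 * (FreeGroup.of ij.1)⁻¹ * (FreeGroup.of ij.2)⁻¹ with hq
  set φ : FreeGroup (Fin k) →* FreeGroup (Fin m) := FreeGroup.lift t with hφ
  -- for every `l`, `n` some commutator of generators survives
  have hsurv : ∀ (l : L) (n : ℕ), ∃ ij : Fin k × Fin k, ρ l (ψ l (FreeGroup.lift (s n) (q ij))) ≠ 1 := by
    intro l n
    by_contra hcon
    push Not at hcon
    obtain ⟨x, y, hxy⟩ := hna l
    apply hxy
    refine RA_comm_of_gen (hgs n) ((ρ l).comp (ψ l)) ?_ x y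
    intro i j
    have := hcon (i, j)
    simp only [hq, map_mul, map_inv, FreeGroup.lift_apply_of] at this
    simp only [MonoidHom.comp_apply, map_mul]
    rw [mul_inv_eq_one, mul_inv_eq_iff_eq_mul] at this
    exact this
  -- the commutators killed in the limit are killed in `G` eventually
  have hev : ∀ w : FreeGroup (Fin k), ∃ n₀ : ℕ, ∀ n ≥ n₀, (FreeGroup.lift (s n) w = 1 ↔ φ w = 1) :=
    hconv
  choose N hN using hev
  set n1 : ℕ := ∑ ij : Fin k × Fin k, N (q ij) with hn1
  have hle : ∀ ij : Fin k × Fin k, N (q ij) ≤ n1 := fun ij =>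
    Finset.single_le_sum (f := fun ij => N (q ij)) (fun _ _ => Nat.zero_le _) (Finset.mem_univ ij)
  obtain ⟨l0⟩ := ‹Nonempty L›
  by_cases hm : 2 ≤ m
  · -- rank at least two
    have hsurj : Function.Surjective φ := by
      rw [← MonoidHom.range_eq_top, hφ, FreeGroup.range_lift_eq_closure]
      exact hgt
    set ws : List (FreeGroup (Fin k)) :=
      ((Finset.univ.filter fun ij : Fin k × Fin k => φ (q ij) ≠ 1).toList).map
        (fun ij => q ij ^ p) with hws
    have hw : ∀ w ∈ ws, φ w ≠ 1 := by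
      intro w hw
      rw [hws, List.mem_map] at hw
      obtain ⟨ij, hij, rfl⟩ := hw
      rw [Finset.mem_toList, Finset.mem_filter] at hij
      rw [map_pow]
      intro h
      apply hij.2
      exact (pow_eq_one_iff_left (by omega : p ≠ 0)).1 h
    obtain ⟨W, hW1, hW2⟩ := iterComm hm φ hsurj ws hw
    -- `W` is killed in `G`
    have hkillW : ∀ n ≥ n1, FreeGroup.lift (s n) W = 1 := by
      intro n hn
      apply hinj
      intro l
      have := hW2 (P l) ((ψ l).comp (FreeGroup.lift (s n))) ?_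
      · exact this
      · obtain ⟨ij, hij⟩ := hsurv l n
        have h1 : φ (q ij) ≠ 1 := by
          intro h
          apply hij
          rw [(hN (q ij) n ((hle ij).trans hn)).2 h, map_one, map_one]
        refine ⟨q ij ^ p, ?_, ?_⟩
        · rw [hws, List.mem_map]
          exact ⟨ij, Finset.mem_toList.2 (Finset.mem_filter.2 ⟨Finset.mem_univ _, h1⟩), rfl⟩
        · have h2 := hkill l (s n ij.1) (s n ij.2)
          simp only [hq, map_mul, map_inv, FreeGroup.lift_apply_of] at hij
          simp only [map_mul, map_inv] at h2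
          simp only [hq, map_pow, map_mul, map_inv, MonoidHom.comp_apply,
            FreeGroup.lift_apply_of]
          exact h2 hij
    have h3 := (hN W (max n1 (N W)) (le_max_right _ _)).1 (hkillW _ (le_max_left _ _))
    exact hW1 h3
  · -- rank at most one: the limit is commutative
    have hcomm : ∀ x y : FreeGroup (Fin m), x * y = y * x := by
      have : Subsingleton (Fin m) := by
        refine ⟨fun i j => Fin.ext ?_⟩
        have := i.2; have := j.2; omega
      intro x y
      have h1 : ∀ (i j : Fin m), FreeGroup.of i * FreeGroup.of j = FreeGroup.of j * FreeGroup.of i := by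
        intro i j
        rw [Subsingleton.elim i j]
      have hgen : Gen (FreeGroup.of : Fin m → FreeGroup (Fin m)) := by
        unfold Gen
        exact FreeGroup.closure_range_of _
      exact RA_comm_of_gen hgen (MonoidHom.id _) (fun i j => h1 i j) x y
    obtain ⟨ij, hij⟩ := hsurv l0 n1
    apply hij
    have h1 : φ (q ij) = 1 := by
      simp only [hq, map_mul, map_inv]
      rw [hcomm (φ (FreeGroup.of ij.1)) (φ (FreeGroup.of ij.2))]
      group
    rw [(hN (q ij) n1 (hle ij)).2 h1, map_one, map_one]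

end Pool.Agent.Beb
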