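import Pool.Agent.Work.MP_beb559_al.Stmt

/-!
# A criterion for infinite girth
-/

namespace Pool.Agent.Beb

/-! ### RB1 -/

section uwords

variable {k : ℕ}

/-- the letter read from `x` when the current shift is `s` -/
def RB_val (N : ℕ) : Fin 3 ⊕ Fin k → ℤ → ℤ × Bool
  | Sum.inl i, s => (s, decide (i = 2))
  | Sum.inr j, s => (s + (2 * N + 1) * ((j : ℕ) + 1), true)

/-- the word read from the list, from the shift `s` -/
def RB_read (N : ℕ) : ℤ → List ((Fin 3 ⊕ Fin k) × Bool) → List ((ℤ × Bool) × Bool)
  | _, [] => []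
  | s, (x, b) :: L =>
      if x = Sum.inl 1 then RB_read N (s + if b then 1 else -1) L
      else (RB_val N x s, b) :: RB_read N s L

theorem RB_val_inj {N : ℕ} {x x' : Fin 3 ⊕ Fin k} {s n : ℤ} (hx : x ≠ Sum.inl 1)
    (hx' : x' ≠ Sum.inl 1) (hn : |n| ≤ N) (h : RB_val N x' (s + n) = RB_val N x s) :
    x' = x ∧ n = 0 := by
  rw [abs_le] at hn
  rcases x with i | j <;> rcases x' with i' | j' <;> simp only [RB_val, Prod.mk.injEq] at h
  · have hn0 : n = 0 := by omega
    refine ⟨?_, hn0⟩
    congr 1
    have h2 := h.2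
    fin_cases i <;> fin_cases i' <;> simp_all
  · exfalso
    have h1 := h.1
    have : (0 : ℤ) ≤ ((2 * N + 1) * (j' : ℕ) : ℕ) := by positivity
    push_cast at this
    nlinarith
  · exfalso
    have h1 := h.1
    have : (0 : ℤ) ≤ ((2 * N + 1) * (j : ℕ) : ℕ) := by positivity
    push_cast at this
    nlinarith
  · have h1 := h.1
    have h3 : (2 * (N : ℤ) + 1) * (((j : ℕ) : ℤ) - (j' : ℕ)) = n := by
      linear_combination -h1
    have hjj : ((j : ℕ) : ℤ) - (j' : ℕ) = 0 := by
      by_contra hne
      rcases lt_or_gt_of_ne hne with hlt | hgt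
      · nlinarith
      · nlinarith
    rw [hjj, mul_zero] at h3
    refine ⟨?_, h3.symm⟩
    congr 1
    apply Fin.ext
    omega

theorem RB_isReduced_cons {α : Type*} {a : α × Bool} {L : List (α × Bool)} :
    FreeGroup.IsReduced (a :: L) ↔
      (∀ b, L.head? = some b → a.1 = b.1 → a.2 = b.2) ∧ FreeGroup.IsReduced L := by
  cases L with
  | nil => simp [FreeGroup.IsReduced.singleton, FreeGroup.IsReduced.nil]
  | cons b L => simp [FreeGroup.isReduced_cons_cons]

theorem RB_head {N : ℕ} (L : List ((Fin 3 ⊕ Fin k) × Bool)) (hL : FreeGroup.IsReduced L) :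
    ∀ (s : ℤ) (c : ℤ × Bool) (b' : Bool), (RB_read N s L).head? = some (c, b') →
      ∃ (n : ℤ) (x' : Fin 3 ⊕ Fin k), x' ≠ Sum.inl 1 ∧ |n| ≤ L.length ∧ c = RB_val N x' (s + n) ∧
        ((n = 0 ∧ L.head? = some (x', b')) ∨ (0 < n ∧ L.head? = some (Sum.inl 1, true)) ∨
          (n < 0 ∧ L.head? = some (Sum.inl 1, false))) := by
  induction L with
  | nil =>
      intro s c b' h
      simp [RB_read] at h
  | cons a L ih =>
      obtain ⟨x, b⟩ := a
      intro s c b' h
      rw [RB_isReduced_cons] at hL
      by_cases hx : x = Sum.inl 1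
      · subst hx
        rw [RB_read, if_pos rfl] at h
        obtain ⟨n, x', hx', hn, hc, h3⟩ := ih hL.2 _ _ _ h
        rw [abs_le] at hn
        rcases h3 with ⟨h0, -⟩ | ⟨h0, hh⟩ | ⟨h0, hh⟩
        · cases b with
          | true =>
              refine ⟨n + 1, x', hx', ?_, ?_, Or.inr (Or.inl ⟨by omega, rfl⟩)⟩
              · rw [abs_le, List.length_cons]; push_cast; omega
              · rw [hc]; congr 1; simp; ring
          | false =>
              refine ⟨n - 1, x', hx', ?_, ?_, Or.inr (Or.inr ⟨by omega, rfl⟩)⟩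
              · rw [abs_le, List.length_cons]; push_cast; omega
              · rw [hc]; congr 1; simp; ring
        · have hb : b = true := hL.1 _ hh rfl
          subst hb
          refine ⟨n + 1, x', hx', ?_, ?_, Or.inr (Or.inl ⟨by omega, rfl⟩)⟩
          · rw [abs_le, List.length_cons]; push_cast; omega
          · rw [hc]; congr 1; simp; ring
        · have hb : b = false := hL.1 _ hh rfl
          subst hb
          refine ⟨n - 1, x', hx', ?_, ?_, Or.inr (Or.inr ⟨by omega, rfl⟩)⟩
          · rw [abs_le, List.length_cons]; push_cast; omega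
          · rw [hc]; congr 1; simp; ring
      · rw [RB_read, if_neg hx] at h
        simp only [List.head?_cons, Option.some.injEq, Prod.mk.injEq] at h
        refine ⟨0, x, hx, by rw [abs_zero]; exact Int.natCast_nonneg _, ?_, Or.inl ⟨rfl, ?_⟩⟩
        · rw [add_zero]; exact h.1.symm
        · rw [List.head?_cons, h.2]

theorem RB_read_reduced {N : ℕ} (L : List ((Fin 3 ⊕ Fin k) × Bool)) (hL : FreeGroup.IsReduced L)
    (hN : L.length ≤ N) : ∀ s : ℤ, FreeGroup.IsReduced (RB_read N s L) := by
  induction L with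
  | nil => intro s; exact FreeGroup.IsReduced.nil
  | cons a L ih =>
      obtain ⟨x, b⟩ := a
      intro s
      rw [RB_isReduced_cons] at hL
      rw [List.length_cons] at hN
      by_cases hx : x = Sum.inl 1
      · rw [RB_read, if_pos hx]
        exact ih hL.2 (by omega) _
      · rw [RB_read, if_neg hx, RB_isReduced_cons]
        refine ⟨?_, ih hL.2 (by omega) _⟩
        rintro ⟨c, b'⟩ hh hc
        obtain ⟨n, x', hx', hn, hc', h3⟩ := RB_head L hL.2 _ _ _ hh
        have h4 : RB_val N x' (s + n) = RB_val N x s := by rw [← hc']; exact hc.symm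
        obtain ⟨rfl, rfl⟩ := RB_val_inj hx hx' (hn.trans (by exact_mod_cast (by omega))) h4
        rcases h3 with ⟨-, hh'⟩ | ⟨h0, -⟩ | ⟨h0, -⟩
        · exact hL.1 _ hh' rfl
        · exact absurd h0 (lt_irrefl _)
        · exact absurd h0 (lt_irrefl _)

/-- total shift -/
def RB_tot : List ((Fin 3 ⊕ Fin k) × Bool) → ℤ
  | [] => 0
  | (x, b) :: L => (if x = Sum.inl 1 then (if b then 1 else -1) else 0) + RB_tot L

theorem RB_read_nil {N : ℕ} (L : List ((Fin 3 ⊕ Fin k) × Bool)) (hL : FreeGroup.IsReduced L) :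
    ∀ s : ℤ, RB_read N s L = [] →
      (L = []) ∨ (L.head? = some (Sum.inl 1, true) ∧ 0 < RB_tot L) ∨
        (L.head? = some (Sum.inl 1, false) ∧ RB_tot L < 0) := by
  induction L with
  | nil => intro s _; exact Or.inl rfl
  | cons a L ih =>
      obtain ⟨x, b⟩ := a
      intro s h
      rw [RB_isReduced_cons] at hL
      by_cases hx : x = Sum.inl 1
      · subst hx
        rw [RB_read, if_pos rfl] at h
        right
        rcases ih hL.2 _ h with h1 | ⟨h1, h2⟩ | ⟨h1, h2⟩
        · subst h1
          cases b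
          · right; exact ⟨rfl, by simp [RB_tot]⟩
          · left; exact ⟨rfl, by simp [RB_tot]⟩
        · have hb : b = true := hL.1 _ h1 rfl
          subst hb
          left
          exact ⟨rfl, by simp only [RB_tot, if_true]; omega⟩
        · have hb : b = false := hL.1 _ h1 rfl
          subst hb
          right
          refine ⟨rfl, ?_⟩
          simp only [RB_tot, if_true]
          simp only [Bool.false_eq_true, if_false]
          omega
      · rw [RB_read, if_neg hx] at h
        exact absurd h (List.cons_ne_nil _ _)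

/-- the shift automorphism -/
def RB_sh : FreeGroup (ℤ × Bool) ≃* FreeGroup (ℤ × Bool) :=
  FreeGroup.freeGroupCongr ((Equiv.addRight (1 : ℤ)).prodCongr (Equiv.refl Bool))

theorem RB_sh_mk (N : ℕ) (L : List ((Fin 3 ⊕ Fin k) × Bool)) :
    ∀ s : ℤ, RB_sh (FreeGroup.mk (RB_read N s L)) = FreeGroup.mk (RB_read N (s + 1) L) := by
  have key : ∀ s : ℤ, (RB_read N s L).map (fun x => ((x.1.1 + 1, x.1.2), x.2))
      = RB_read N (s + 1) L := by
    induction L with
    | nil => intro s; rfl
    | cons a L ih =>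
        obtain ⟨x, b⟩ := a
        intro s
        by_cases hx : x = Sum.inl 1
        · rw [RB_read, RB_read, if_pos hx, if_pos hx, ih]
          congr 1
          ring
        · rw [RB_read, RB_read, if_neg hx, if_neg hx, List.map_cons, ih]
          congr 1
          rcases x with i | j
          · rfl
          · simp only [RB_val, Prod.mk.injEq, and_true]
            ring
  intro s
  rw [← key s]
  rfl

/-- the action of the free group of rank three -/
def RB_act : FreeGroup (Fin 3) →* Equiv.Perm (FreeGroup (ℤ × Bool)) :=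
  FreeGroup.lift ![Equiv.mulLeft (FreeGroup.of ((0 : ℤ), false)), RB_sh.toEquiv,
    Equiv.mulLeft (FreeGroup.of ((0 : ℤ), true))]

theorem RB_sh_pow (n : ℕ) (g : FreeGroup (ℤ × Bool)) :
    (RB_sh.toEquiv ^ n) (FreeGroup.of ((0 : ℤ), true) * (RB_sh.toEquiv ^ n)⁻¹ g)
      = FreeGroup.of ((n : ℤ), true) * g := by
  induction n generalizing g with
  | zero => simp
  | succ n ih =>
      have h1 : ((RB_sh.toEquiv ^ (n + 1))⁻¹ : Equiv.Perm _) g
          = (RB_sh.toEquiv ^ n)⁻¹ (RB_sh.toEquiv⁻¹ g) := by
        rw [pow_succ', mul_inv_rev]; rfl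
      rw [h1, pow_succ', Equiv.Perm.mul_apply, ih]
      show RB_sh (FreeGroup.of ((n : ℤ), true) * RB_sh.symm g) = _
      rw [map_mul, MulEquiv.apply_symm_apply]
      congr 1

/-- the words -/
def RB_u (N : ℕ) (j : Fin k) : FreeGroup (Fin 3) :=
  FreeGroup.of 1 ^ ((2 * N + 1) * ((j : ℕ) + 1)) * FreeGroup.of 2 *
    (FreeGroup.of 1 ^ ((2 * N + 1) * ((j : ℕ) + 1)))⁻¹

theorem RB_act_letter (N : ℕ) (x : Fin 3 ⊕ Fin k) (hx : x ≠ Sum.inl 1)
    (g : FreeGroup (ℤ × Bool)) :
    RB_act (Sum.elim FreeGroup.of (RB_u N) x) g = FreeGroup.of (RB_val N x 0) * g := by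
  rcases x with i | j
  · fin_cases i
    · show RB_act (FreeGroup.of 0) g = _
      rw [RB_act, FreeGroup.lift_apply_of]
      rfl
    · exact absurd rfl hx
    · show RB_act (FreeGroup.of 2) g = _
      rw [RB_act, FreeGroup.lift_apply_of]
      rfl
  · show RB_act (RB_u N j) g = _
    rw [RB_u, map_mul, map_mul, map_inv, map_pow]
    have h1 : RB_act (FreeGroup.of 1) = RB_sh.toEquiv := by
      rw [RB_act, FreeGroup.lift_apply_of]; rfl
    have h2 : RB_act (FreeGroup.of 2) = Equiv.mulLeft (FreeGroup.of ((0 : ℤ), true)) := by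
      rw [RB_act, FreeGroup.lift_apply_of]; rfl
    rw [h1, h2, Equiv.Perm.mul_apply, Equiv.Perm.mul_apply]
    show (RB_sh.toEquiv ^ ((2 * N + 1) * ((j : ℕ) + 1))) (FreeGroup.of ((0 : ℤ), true) *
      (RB_sh.toEquiv ^ ((2 * N + 1) * ((j : ℕ) + 1)))⁻¹ g) = _
    rw [RB_sh_pow]
    congr 2
    simp only [RB_val, zero_add, Prod.mk.injEq, and_true]
    push_cast
    ring

theorem RB_act_mk (N : ℕ) (L : List ((Fin 3 ⊕ Fin k) × Bool)) :
    RB_act (FreeGroup.lift (Sum.elim FreeGroup.of (RB_u N)) (FreeGroup.mk L)) 1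
      = FreeGroup.mk (RB_read N 0 L) := by
  induction L with
  | nil =>
      show RB_act (FreeGroup.lift (Sum.elim FreeGroup.of (RB_u N)) 1) 1 = 1
      rw [map_one (FreeGroup.lift (Sum.elim FreeGroup.of (RB_u N))), map_one RB_act]
      rfl
  | cons a L ih =>
      obtain ⟨x, b⟩ := a
      have h1 : FreeGroup.mk ((x, b) :: L) = FreeGroup.mk [(x, b)] * FreeGroup.mk L := by
        rw [FreeGroup.mul_mk]; rfl
      rw [h1, map_mul, map_mul, Equiv.Perm.mul_apply, ih]
      have hpos : FreeGroup.lift (Sum.elim FreeGroup.of (RB_u N)) (FreeGroup.mk [(x, true)])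
          = Sum.elim FreeGroup.of (RB_u N) x := FreeGroup.lift_apply_of ..
      have hneg : FreeGroup.lift (Sum.elim FreeGroup.of (RB_u N)) (FreeGroup.mk [(x, false)])
          = (Sum.elim FreeGroup.of (RB_u N) x)⁻¹ := by
        rw [← hpos, ← map_inv]; rfl
      by_cases hx : x = Sum.inl 1
      · subst hx
        rw [RB_read, if_pos rfl]
        have h2 : RB_act (FreeGroup.of 1) = RB_sh.toEquiv := by
          rw [RB_act, FreeGroup.lift_apply_of]; rfl
        cases b with
        | true =>
            rw [hpos]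
            show RB_act (FreeGroup.of 1) _ = _
            rw [h2]
            exact RB_sh_mk N L 0
        | false =>
            rw [hneg, map_inv]
            show (RB_act (FreeGroup.of 1))⁻¹ _ = _
            rw [h2]
            show RB_sh.symm _ = _
            rw [MulEquiv.symm_apply_eq]
            simp only [Bool.false_eq_true, if_false]
            rw [RB_sh_mk]
            norm_num
      · rw [RB_read, if_neg hx]
        cases b with
        | true =>
            rw [hpos, RB_act_letter N x hx, FreeGroup.of, FreeGroup.mul_mk]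
            rfl
        | false =>
            rw [hneg, map_inv, Equiv.Perm.inv_eq_iff_eq, RB_act_letter N x hx, FreeGroup.of]
            have h3 : FreeGroup.mk ((RB_val N x 0, false) :: RB_read N 0 L)
                = (FreeGroup.mk [(RB_val N x 0, true)])⁻¹ * FreeGroup.mk (RB_read N 0 L) := by
              rw [FreeGroup.inv_mk, FreeGroup.mul_mk]; rfl
            rw [h3, mul_inv_cancel_left]

theorem RB_tot_hom (N : ℕ) (L : List ((Fin 3 ⊕ Fin k) × Bool)) :
    FreeGroup.lift ![1, Multiplicative.ofAdd (1 : ℤ), 1]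
      (FreeGroup.lift (Sum.elim FreeGroup.of (RB_u N)) (FreeGroup.mk L))
      = Multiplicative.ofAdd (RB_tot L) := by
  induction L with
  | nil =>
      show FreeGroup.lift ![1, Multiplicative.ofAdd (1 : ℤ), 1]
        (FreeGroup.lift (Sum.elim FreeGroup.of (RB_u N)) 1) = 1
      rw [map_one (FreeGroup.lift (Sum.elim FreeGroup.of (RB_u N))),
        map_one (FreeGroup.lift ![1, Multiplicative.ofAdd (1 : ℤ), 1])]
  | cons a L ih =>
      obtain ⟨x, b⟩ := a
      have h1 : FreeGroup.mk ((x, b) :: L) = FreeGroup.mk [(x, b)] * FreeGroup.mk L := by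
        rw [FreeGroup.mul_mk]; rfl
      rw [h1, map_mul, map_mul, ih, RB_tot, ofAdd_add]
      congr 1
      have hpos : FreeGroup.lift (Sum.elim FreeGroup.of (RB_u N)) (FreeGroup.mk [(x, true)])
          = Sum.elim FreeGroup.of (RB_u N) x := FreeGroup.lift_apply_of ..
      have hneg : FreeGroup.lift (Sum.elim FreeGroup.of (RB_u N)) (FreeGroup.mk [(x, false)])
          = (Sum.elim FreeGroup.of (RB_u N) x)⁻¹ := by
        rw [← hpos, ← map_inv]; rfl
      have hval : FreeGroup.lift ![1, Multiplicative.ofAdd (1 : ℤ), 1]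
          (Sum.elim FreeGroup.of (RB_u N) x)
          = Multiplicative.ofAdd (if x = Sum.inl 1 then (1 : ℤ) else 0) := by
        rcases x with i | j
        · show FreeGroup.lift _ (FreeGroup.of i) = _
          rw [FreeGroup.lift_apply_of]
          fin_cases i <;> rfl
        · show FreeGroup.lift _ (RB_u N j) = _
          rw [RB_u, map_mul, map_mul, map_inv, FreeGroup.lift_apply_of]
          simp
      cases b with
      | true =>
          rw [hpos, hval]
          simp
      | false =>
          rw [hneg, map_inv, hval, ← ofAdd_neg]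
          congr 1
          split_ifs <;> simp_all

end uwords

/-- RB1. Words `u j = y1 ^ (N j) y2 y1 ^ (- N j)` with `N (j + 1) - N j > 2 N`, `N 0 > 2 N`.
(Map the free group to `FreeGroup (ℤ × Bool) ⋊ ℤ`: `y1` to the shift, `y2`, `t` to the letters with
index `0`; a reduced word of length `≤ N` goes to a reduced word.) -/
theorem uwords (N k : ℕ) : ∃ u : Fin k → FreeGroup (Fin 3),
    (∀ j, u j ∈ Subgroup.closure {FreeGroup.of (1 : Fin 3), FreeGroup.of (2 : Fin 3)}) ∧
    ∀ w : FreeGroup (Fin 3 ⊕ Fin k), w ≠ 1 → w.norm ≤ N →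
      FreeGroup.lift (Sum.elim FreeGroup.of u) w ≠ 1 := by
  refine ⟨RB_u N, ?_, ?_⟩
  · intro j
    have h1 : FreeGroup.of (1 : Fin 3) ∈
        Subgroup.closure {FreeGroup.of (1 : Fin 3), FreeGroup.of (2 : Fin 3)} :=
      Subgroup.subset_closure (by simp)
    have h2 : FreeGroup.of (2 : Fin 3) ∈
        Subgroup.closure {FreeGroup.of (1 : Fin 3), FreeGroup.of (2 : Fin 3)} :=
      Subgroup.subset_closure (by simp)
    exact mul_mem (mul_mem (pow_mem h1 _) h2) (inv_mem (pow_mem h1 _))
  · intro w hw hN hcon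
    have hmk : FreeGroup.mk w.toWord = w := FreeGroup.mk_toWord
    have hred : FreeGroup.IsReduced w.toWord := FreeGroup.isReduced_toWord
    have h1 := RB_act_mk N w.toWord
    rw [hmk, hcon, map_one RB_act, Equiv.Perm.one_apply] at h1
    have h2 : RB_read N 0 w.toWord = [] := by
      have h3 : FreeGroup.IsReduced (RB_read N 0 w.toWord) :=
        RB_read_reduced w.toWord hred hN 0
      have h4 : (FreeGroup.mk (RB_read N 0 w.toWord)).toWord = [] := by
        rw [← h1]; exact FreeGroup.toWord_one
      rwa [FreeGroup.toWord_mk, h3.reduce_eq] at h4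
    have h5 := RB_tot_hom N w.toWord
    rw [hmk, hcon, map_one] at h5
    have h6 : RB_tot w.toWord = 0 := (Multiplicative.ofAdd.injective h5).symm
    rcases RB_read_nil w.toWord hred 0 h2 with h7 | ⟨-, h7⟩ | ⟨-, h7⟩
    · exact hw (FreeGroup.toWord_eq_nil_iff.1 h7)
    · omega
    · omega

/-- RB2. A short word misses a letter. -/
theorem exists_missing {α : Type} [DecidableEq α] {k : ℕ} (w : FreeGroup α) (f : Fin k → α)
    (hf : Function.Injective f) (hw : w.norm < k) :
    ∃ j, ∀ (G : Type) [Group G] (s s' : α → G), (∀ x, x ≠ f j → s x = s' x) →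
      FreeGroup.lift s w = FreeGroup.lift s' w := by
  obtain ⟨j, hj⟩ : ∃ j, f j ∉ (w.toWord.map Prod.fst).toFinset := by
    by_contra hcon
    push Not at hcon
    have h1 : (Finset.univ.image f).card ≤ (w.toWord.map Prod.fst).toFinset.card := by
      apply Finset.card_le_card
      intro x hx
      obtain ⟨j, -, rfl⟩ := Finset.mem_image.1 hx
      exact hcon j
    rw [Finset.card_image_of_injective _ hf, Finset.card_univ, Fintype.card_fin] at h1
    have h2 := List.toFinset_card_le (w.toWord.map Prod.fst)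
    rw [List.length_map] at h2
    have h3 : w.toWord.length = w.norm := rfl
    omega
  refine ⟨j, fun G _ s s' h => ?_⟩
  rw [← FreeGroup.mk_toWord (x := w), FreeGroup.lift_mk, FreeGroup.lift_mk]
  congr 1
  apply List.map_congr_left
  intro x hx
  have hne : x.1 ≠ f j := by
    intro he
    apply hj
    rw [List.mem_toFinset, ← he]
    exact List.mem_map_of_mem hx
  rw [h _ hne]

/-- RB3. Criterion for infinite girth. -/
theorem infGirth {G : Type} [Group G] {L : Type} (P : L → Type) [∀ l, Group (P l)]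
    (ψ : ∀ l, G →* P l) (t a y1 y2 : G)
    (hgen : Subgroup.closure {t, a, y1, y2} = (⊤ : Subgroup G))
    (hfree : ∀ l, ∀ w : FreeGroup (Fin 3), w ≠ 1 → ψ l (FreeGroup.lift ![t, y1, y2] w) ≠ 1)
    (hsep : ∀ k : ℕ, 1 ≤ k → ∃ (c : Fin k → G) (e : Fin k → L),
      (∀ i j, i ≠ j → ψ (e i) (c j) = 1) ∧ a ∈ Subgroup.closure (insert t (Set.range c))) :
    InfGirth G := by
  classical
  intro N
  obtain ⟨c, e, hce, hac⟩ := hsep (N + 1) (by omega)
  obtain ⟨u, hu, huN⟩ := uwords N (N + 1)
  set u' : Fin (N + 1) → G := fun j => FreeGroup.lift ![t, y1, y2] (u j) with hu'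
  set S : Fin 3 ⊕ Fin (N + 1) → G := Sum.elim ![t, y1, y2] (fun j => c j * u' j) with hS
  set S' : Fin 3 ⊕ Fin (N + 1) → G := Sum.elim ![t, y1, y2] u' with hS'
  have hSgen : Subgroup.closure (Set.range S) = ⊤ := by
    set K := Subgroup.closure (Set.range S) with hK
    have ht : t ∈ K := Subgroup.subset_closure ⟨Sum.inl 0, rfl⟩
    have hy1 : y1 ∈ K := Subgroup.subset_closure ⟨Sum.inl 1, rfl⟩
    have hy2 : y2 ∈ K := Subgroup.subset_closure ⟨Sum.inl 2, rfl⟩
    have huK : ∀ j, u' j ∈ K := by
      intro j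
      have h1 : FreeGroup.lift ![t, y1, y2] (u j) ∈
          (Subgroup.closure {FreeGroup.of (1 : Fin 3), FreeGroup.of (2 : Fin 3)}).map
            (FreeGroup.lift ![t, y1, y2]) := Subgroup.mem_map_of_mem _ (hu j)
      rw [MonoidHom.map_closure] at h1
      refine (Subgroup.closure_le K).2 ?_ h1
      rintro _ ⟨x, hx, rfl⟩
      rcases hx with rfl | rfl
      · rw [FreeGroup.lift_apply_of]; exact hy1
      · rw [FreeGroup.lift_apply_of]; exact hy2
    have hcK : ∀ j, c j ∈ K := by
      intro j
      have h1 : c j * u' j ∈ K := Subgroup.subset_closure ⟨Sum.inr j, rfl⟩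
      have h2 := mul_mem h1 (inv_mem (huK j))
      rwa [mul_inv_cancel_right] at h2
    have haK : a ∈ K := by
      refine (Subgroup.closure_le K).2 ?_ hac
      rintro x hx
      rcases hx with rfl | ⟨j, rfl⟩
      · exact ht
      · exact hcK j
    rw [eq_top_iff, ← hgen, Subgroup.closure_le]
    rintro x hx
    rcases hx with rfl | rfl | rfl | rfl
    · exact ht
    · exact haK
    · exact hy1
    · exact hy2
  refine ⟨3 + (N + 1), S ∘ finSumFinEquiv.symm, ?_, ?_⟩
  · show Subgroup.closure (Set.range (S ∘ finSumFinEquiv.symm)) = ⊤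
    rw [EquivLike.range_comp, hSgen]
  · intro w hw hN hcon
    set w' : FreeGroup (Fin 3 ⊕ Fin (N + 1)) := FreeGroup.map finSumFinEquiv.symm w with hw'
    have hw'1 : w' ≠ 1 := by
      intro h
      apply hw
      have h1 : FreeGroup.freeGroupCongr (finSumFinEquiv (m := 3) (n := N + 1)).symm w = 1 := h
      exact (EmbeddingLike.map_eq_one_iff (f := FreeGroup.freeGroupCongr
        (finSumFinEquiv (m := 3) (n := N + 1)).symm)).1 h1
    have hw'N : w'.norm ≤ N := by
      rw [hw', ← FreeGroup.mk_toWord (x := w), FreeGroup.map.mk]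
      refine FreeGroup.norm_mk_le.trans ?_
      rw [List.length_map]
      exact hN
    have hlift : FreeGroup.lift S w' = 1 := by
      have h1 : (FreeGroup.lift S).comp (FreeGroup.map finSumFinEquiv.symm)
          = FreeGroup.lift (S ∘ finSumFinEquiv.symm) := by
        apply FreeGroup.ext_hom
        intro x
        simp
      rw [hw', ← hcon, ← h1]
      rfl
    obtain ⟨j, hj⟩ := exists_missing w' (Sum.inr : Fin (N + 1) → Fin 3 ⊕ Fin (N + 1))
      Sum.inr_injective (by omega)
    have h1 := hj (P (e j)) (fun x => ψ (e j) (S x)) (fun x => ψ (e j) (S' x)) (by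
      intro x hx
      rcases x with i | i
      · rfl
      · show ψ (e j) (c i * u' i) = ψ (e j) (u' i)
        have hij : j ≠ i := by
          rintro rfl
          exact hx rfl
        rw [map_mul, hce j i hij, one_mul])
    have h2 : ∀ T : Fin 3 ⊕ Fin (N + 1) → G, FreeGroup.lift (fun x => ψ (e j) (T x)) w'
        = ψ (e j) (FreeGroup.lift T w') := by
      intro T
      have h3 : FreeGroup.lift (fun x => ψ (e j) (T x)) = (ψ (e j)).comp (FreeGroup.lift T) := by
        apply FreeGroup.ext_hom
        intro x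
        simp
      rw [h3]
      rfl
    rw [h2, h2, hlift, map_one] at h1
    have h4 : FreeGroup.lift S' = (FreeGroup.lift ![t, y1, y2]).comp
        (FreeGroup.lift (Sum.elim FreeGroup.of u)) := by
      apply FreeGroup.ext_hom
      intro x
      rcases x with i | i
      · simp [hS']
      · simp [hS', hu']
    rw [h4] at h1
    exact hfree (e j) _ (huN w' hw'1 hw'N) h1.symm

end Pool.Agent.Beb
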