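import Pool.Agent.Work.MP_beb559_al.Stmt

/-!
# The groups `R ⋊ ℤ` and pairwise coprime polynomials
-/

namespace Pool.Agent.Beb

/-- The semidirect product of the additive group of `R` and `ℤ` acting by powers of `u`. -/
@[ext] structure Af (R : Type) [CommRing R] (u : Rˣ) where
  a : R
  n : ℤ

namespace Af

variable {R : Type} [CommRing R] {u : Rˣ}

instance : Mul (Af R u) := ⟨fun x y => ⟨x.a + ((u ^ x.n : Rˣ) : R) * y.a, x.n + y.n⟩⟩
instance : One (Af R u) := ⟨⟨0, 0⟩⟩
instance : Inv (Af R u) := ⟨fun x => ⟨-(((u ^ (-x.n) : Rˣ) : R) * x.a), -x.n⟩⟩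

theorem mul_a (x y : Af R u) : (x * y).a = x.a + ((u ^ x.n : Rˣ) : R) * y.a := rfl
theorem mul_n (x y : Af R u) : (x * y).n = x.n + y.n := rfl
theorem one_a : (1 : Af R u).a = 0 := rfl
theorem one_n : (1 : Af R u).n = 0 := rfl
theorem inv_a (x : Af R u) : (x⁻¹).a = -(((u ^ (-x.n) : Rˣ) : R) * x.a) := rfl
theorem inv_n (x : Af R u) : (x⁻¹).n = -x.n := rfl

instance : Group (Af R u) := Group.ofLeftAxioms
  (fun x y z => by
    ext
    · simp only [mul_a, mul_n, zpow_add, Units.val_mul]; ring
    · simp only [mul_n]; ring)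
  (fun x => by ext <;> simp [mul_a, mul_n, one_a, one_n])
  (fun x => by ext <;> simp [mul_a, mul_n, one_a, one_n, inv_a, inv_n])

/-- The translation subgroup. -/
def V (R : Type) [CommRing R] (u : Rˣ) : Subgroup (Af R u) where
  carrier := {x | x.n = 0}
  mul_mem' := by
    intro x y hx hy
    have hx' : x.n = 0 := hx
    have hy' : y.n = 0 := hy
    show (x * y).n = 0
    rw [mul_n, hx', hy', add_zero]
  one_mem' := rfl
  inv_mem' := by
    intro x hx
    have hx' : x.n = 0 := hx
    show (x⁻¹).n = 0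
    rw [inv_n, hx', neg_zero]

/-- The complement. -/
def H (R : Type) [CommRing R] (u : Rˣ) : Subgroup (Af R u) where
  carrier := {x | x.a = 0}
  mul_mem' := by
    intro x y hx hy
    have hx' : x.a = 0 := hx
    have hy' : y.a = 0 := hy
    show (x * y).a = 0
    rw [mul_a, hx', hy', mul_zero, add_zero]
  one_mem' := rfl
  inv_mem' := by
    intro x hx
    have hx' : x.a = 0 := hx
    show (x⁻¹).a = 0
    rw [inv_a, hx', mul_zero, neg_zero]

/-- RC1. -/
theorem V_normal : (V R u).Normal := by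
  constructor
  intro x hx g
  have hx' : x.n = 0 := hx
  change (g * x * g⁻¹).n = 0
  rw [mul_n, mul_n, inv_n, hx']
  ring

theorem pow_n (x : Af R u) (k : ℕ) : (x ^ k).n = k * x.n := by
  induction k with
  | zero => rw [pow_zero, one_n]; simp
  | succ k ih =>
    rw [pow_succ, mul_n, ih]
    push_cast
    ring

theorem pow_a_of_mem (x : Af R u) (hx : x ∈ V R u) (k : ℕ) : (x ^ k).a = k * x.a := by
  have hx' : x.n = 0 := hx
  induction k with
  | zero => rw [pow_zero, one_a]; simp
  | succ k ih =>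
    rw [pow_succ', mul_a, ih, hx', zpow_zero, Units.val_one, one_mul]
    push_cast
    ring

/-- RC2. -/
theorem V_exp {p : ℕ} [CharP R p] (x : Af R u) (hx : x ∈ V R u) : x ^ p = 1 := by
  have hx' : x.n = 0 := hx
  ext
  · rw [pow_a_of_mem x hx, CharP.cast_eq_zero, zero_mul, one_a]
  · rw [pow_n, hx', mul_zero, one_n]

/-- RC3. -/
theorem V_root (x : Af R u) (n : ℕ) (hn : 1 ≤ n) (hx : x ^ n ∈ V R u) : x ∈ V R u := by
  have hx' : (x ^ n).n = 0 := hx
  rw [pow_n] at hx'
  rcases mul_eq_zero.mp hx' with h | h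
  · have : n = 0 := by exact_mod_cast h
    omega
  · exact h

/-- RC4. -/
theorem comm_mem (x y : Af R u) : x * y * x⁻¹ * y⁻¹ ∈ V R u := by
  change (x * y * x⁻¹ * y⁻¹).n = 0
  rw [mul_n, mul_n, mul_n, inv_n, inv_n]
  ring

/-- RC5. -/
theorem no_two {p : ℕ} [CharP R p] (hp : p.Prime) (h2 : 2 < p) (x : Af R u) (hx : x * x = 1) :
    x = 1 := by
  have hn : x.n = 0 := by
    have h := congrArg Af.n hx
    rw [mul_n, one_n] at h
    omega
  have ha : x.a + x.a = 0 := by
    have h := congrArg Af.a hx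
    rwa [mul_a, one_a, hn, zpow_zero, Units.val_one, one_mul] at h
  have hodd : Odd p := hp.odd_of_ne_two (by omega)
  obtain ⟨k, hk⟩ := hodd
  have h1 : (p : R) * x.a = 0 := by rw [CharP.cast_eq_zero, zero_mul]
  have h3 : x.a = 0 := by
    have e : (p : R) * x.a = (k : R) * (x.a + x.a) + x.a := by
      rw [hk]
      push_cast
      ring
    rw [h1, ha, mul_zero, zero_add] at e
    exact e.symm
  ext
  · rw [h3, one_a]
  · rw [hn, one_n]

/-- RC6. -/
theorem H_V (x : Af R u) (hx : x ∈ H R u) (hx' : x ∈ V R u) : x = 1 := by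
  have h1 : x.a = 0 := hx
  have h2 : x.n = 0 := hx'
  ext
  · rw [h1, one_a]
  · rw [h2, one_n]

end Af

open Polynomial in
/-- The polynomials: `polyF l = (f l, ∏ m < l + 1, f m)`. -/
noncomputable def polyF (p : ℕ) : ℕ → (ZMod p)[X] × (ZMod p)[X]
  | 0 => (1 + X * X, 1 + X * X)
  | l + 1 => (1 + X * (X * (polyF p l).2), (polyF p l).2 * (1 + X * (X * (polyF p l).2)))

open Polynomial in
/-- RC7. Pairwise coprime polynomials `f 0 = 1 + X ^ 2`, `f (l + 1) = 1 + X * (X * ∏ m ≤ l, f m)`. -/
theorem exists_polys (p : ℕ) [Fact p.Prime] : ∃ f g : ℕ → (ZMod p)[X],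
    (∀ l, f l = 1 + X * g l) ∧ (∀ l, (f l).Monic) ∧ (∀ l, 2 ≤ (f l).natDegree) ∧
    Pairwise (Function.onFun IsCoprime f) := by
  set f : ℕ → (ZMod p)[X] := fun l => (polyF p l).1 with hf
  set q : ℕ → (ZMod p)[X] := fun l => (polyF p l).2 with hq
  have hf0 : f 0 = 1 + X * X := rfl
  have hq0 : q 0 = 1 + X * X := rfl
  have hfs : ∀ l, f (l + 1) = 1 + X * (X * q l) := fun l => rfl
  have hqs : ∀ l, q (l + 1) = q l * f (l + 1) := fun l => rfl
  -- one plus `X * X` times a monic polynomial
  have key : ∀ r : (ZMod p)[X], r.Monic → (1 + X * (X * r)).Monic ∧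
      2 ≤ (1 + X * (X * r)).natDegree := by
    intro r hr
    have hm : (X * (X * r) : (ZMod p)[X]).Monic := monic_X.mul (monic_X.mul hr)
    have hd : (X * (X * r) : (ZMod p)[X]).natDegree = r.natDegree + 2 := by
      rw [monic_X.natDegree_mul (monic_X.mul hr), monic_X.natDegree_mul hr, natDegree_X]
      ring
    have hlt : (1 : (ZMod p)[X]).degree < (X * (X * r) : (ZMod p)[X]).degree := by
      rw [degree_one, degree_eq_natDegree hm.ne_zero, hd]
      exact_mod_cast Nat.succ_pos _
    refine ⟨hm.add_of_right hlt, ?_⟩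
    have hlt' : (1 : (ZMod p)[X]).natDegree < (X * (X * r) : (ZMod p)[X]).natDegree := by
      rw [natDegree_one, hd]
      omega
    rw [natDegree_add_eq_right_of_natDegree_lt hlt', hd]
    omega
  have hqm : ∀ l, (q l).Monic := by
    intro l
    induction l with
    | zero =>
      rw [hq0]
      have := (key 1 monic_one).1
      rwa [mul_one] at this
    | succ l ih =>
      rw [hqs, hfs]
      exact ih.mul (key _ ih).1
  have hdvd : ∀ m l, m ≤ l → f m ∣ q l := by
    intro m l
    induction l with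
    | zero =>
      intro h
      have : m = 0 := by omega
      subst this
      exact ⟨1, by rw [mul_one]; rfl⟩
    | succ l ih =>
      intro h
      rcases Nat.lt_or_ge m (l + 1) with h1 | h1
      · rw [hqs]
        exact Dvd.dvd.mul_right (ih (by omega)) _
      · have : m = l + 1 := by omega
        subst this
        rw [hqs]
        exact Dvd.intro_left _ rfl
  have hcop : ∀ m l, m < l → IsCoprime (f m) (f l) := by
    intro m l hml
    obtain ⟨l', rfl⟩ : ∃ l', l = l' + 1 := ⟨l - 1, by omega⟩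
    obtain ⟨c, hc⟩ := hdvd m l' (by omega)
    refine ⟨-(X * (X * c)), 1, ?_⟩
    rw [hfs, hc]
    ring
  refine ⟨f, fun l => match l with
    | 0 => X
    | l + 1 => X * q l, ?_, ?_, ?_, ?_⟩
  · intro l
    cases l with
    | zero => rfl
    | succ l => rfl
  · intro l
    cases l with
    | zero =>
      have := (key 1 monic_one).1
      rwa [mul_one] at this
    | succ l => exact (key _ (hqm l)).1
  · intro l
    cases l with
    | zero =>
      have := (key 1 monic_one).2
      rwa [mul_one] at this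
    | succ l => exact (key _ (hqm l)).2
  · intro m l hml
    rcases lt_or_gt_of_ne hml with h | h
    · exact hcop m l h
    · exact (hcop l m h).symm

end Pool.Agent.Beb
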