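import Pool.Agent.Work.MP_beb559_al.ThmB
import Pool.Agent.Work.MP_beb559_al.RedA
import Pool.Agent.Work.MP_beb559_al.RedB
import Pool.Agent.Work.MP_beb559_al.RedC

/-!
# The group
-/

namespace Pool.Agent.Beb

open Monoid

/-- The two factors: `E` and the free group of rank two. -/
def Gf (E : Type) : Bool → Type
  | true => E
  | false => FreeGroup (Fin 2)

instance instGf (E : Type) [Group E] : ∀ b, Group (Gf E b)
  | true => inferInstanceAs (Group E)
  | false => inferInstanceAs (Group (FreeGroup (Fin 2)))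

section

variable {E : Type} [Group E]

/-- The inclusion of `E`. -/
def inE : E →* CoprodI (Gf E) := (CoprodI.of (M := Gf E) (i := true) : Gf E true →* CoprodI (Gf E))

/-- The inclusion of the free group. -/
def inF : FreeGroup (Fin 2) →* CoprodI (Gf E) :=
  (CoprodI.of (M := Gf E) (i := false) : Gf E false →* CoprodI (Gf E))

/-- The projection to `E` which kills the free group. -/
def prE : CoprodI (Gf E) →* E :=
  CoprodI.lift (fun b => match b with
    | true => (MonoidHom.id E : E →* E)
    | false => (1 : FreeGroup (Fin 2) →* E))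

/-- RD1. -/
theorem prE_inE (e : E) : prE (inE e) = e := by
  exact CoprodI.lift_of (M := Gf E) _ (i := true) (e : Gf E true)

/-- RD2. -/
theorem prE_inF (w : FreeGroup (Fin 2)) : prE (E := E) (inF w) = 1 := by
  exact CoprodI.lift_of (M := Gf E) _ (i := false) (w : Gf E false)

end

/-- The exponent of `t`. -/
def afN {R : Type} [CommRing R] (u : Rˣ) : Af R u →* Multiplicative ℤ where
  toFun x := Multiplicative.ofAdd x.n
  map_one' := rfl
  map_mul' _ _ := rfl

/-- The retraction of the free product onto the free group of rank three. -/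
def retr {R : Type} [CommRing R] (u : Rˣ) : CoprodI (Gf (Af R u)) →* FreeGroup (Fin 3) :=
  CoprodI.lift (fun b => match b with
    | true => ((zpowersHom (FreeGroup (Fin 3)) (FreeGroup.of 0)).comp (afN u) :
        Af R u →* FreeGroup (Fin 3))
    | false => (FreeGroup.lift ![FreeGroup.of 1, FreeGroup.of 2] :
        FreeGroup (Fin 2) →* FreeGroup (Fin 3)))

theorem retr_inE {R : Type} [CommRing R] (u : Rˣ) (e : Af R u) :
    retr u (inE e) = FreeGroup.of 0 ^ e.n := by
  exact CoprodI.lift_of (M := Gf (Af R u)) _ (i := true) (e : Gf (Af R u) true)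

theorem retr_inF {R : Type} [CommRing R] (u : Rˣ) (w : FreeGroup (Fin 2)) :
    retr u (inF w) = FreeGroup.lift ![FreeGroup.of 1, FreeGroup.of 2] w := by
  exact CoprodI.lift_of (M := Gf (Af R u)) _ (i := false) (w : Gf (Af R u) false)

/-- The subgroups of the factors. -/
def Hf {R : Type} [CommRing R] (u : Rˣ) : ∀ b, Subgroup (Gf (Af R u) b)
  | true => (Af.H R u : Subgroup (Af R u))
  | false => (⊤ : Subgroup (FreeGroup (Fin 2)))

theorem inE_mem_HH {R : Type} [CommRing R] (u : Rˣ) (e : Af R u) (he : e ∈ Af.H R u) :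
    inE e ∈ HH (Gf (Af R u)) (Hf u) :=
  Subgroup.mem_iSup_of_mem true ⟨(e : Gf (Af R u) true), he, rfl⟩

theorem inF_mem_HH {R : Type} [CommRing R] (u : Rˣ) (w : FreeGroup (Fin 2)) :
    inF w ∈ HH (Gf (Af R u)) (Hf u) :=
  Subgroup.mem_iSup_of_mem false ⟨(w : Gf (Af R u) false), trivial, rfl⟩

/-- RD3. For one ring `R` and unit `u ≠ 1`: the group `P` with its maps. -/
theorem exists_P {p : ℕ} (hp : p.Prime) (h2 : 2 < p) (hB : PartialPeriodic p) (R : Type)
    [CommRing R] [CharP R p] (u : Rˣ) (hu : (u : R) ≠ 1) :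
    ∃ (P : Type) (_ : Group P) (ρ : P →* Af R u) (i : Af R u →* P) (y1 y2 : P),
      (∀ x, ρ (i x) = x) ∧ ρ y1 = 1 ∧ ρ y2 = 1 ∧
      (∀ g : P, ρ g ∈ Af.V R u → ρ g ≠ 1 → g ^ p = 1) ∧
      ∀ w : FreeGroup (Fin 3), w ≠ 1 → FreeGroup.lift ![i ⟨0, 1⟩, y1, y2] w ≠ 1 := by
  obtain ⟨N, hN, hker, hpow, hfree⟩ := hB Bool (Gf (Af R u)) (Af R u) (Af.V R u) prE (Hf u)
    Af.V_normal (fun v hv => Af.V_exp v hv) (fun e n hn he => Af.V_root e n hn he)
    (by
      intro b x hx hx1
      cases b with
      | true =>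
        have h : prE (CoprodI.of x) = (x : Af R u) := prE_inE (x : Af R u)
        rw [h] at hx
        exact Af.V_exp (x : Af R u) hx
      | false => exact absurd (prE_inF (x : FreeGroup (Fin 2))) hx1)
    (by
      intro b x hx
      cases b with
      | true => exact Af.no_two hp h2 (x : Af R u) hx
      | false =>
        have h : (show FreeGroup (Fin 2) from x) ^ 2 = 1 := by
          rw [pow_two]
          exact hx
        exact (pow_eq_one_iff_left (M := FreeGroup (Fin 2)) (two_ne_zero)).mp h)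
    (by
      have key : HH (Gf (Af R u)) (Hf u) ≤ (Af.H R u).comap prE := by
        refine iSup_le fun b => ?_
        rw [Subgroup.map_le_iff_le_comap]
        intro x hx
        cases b with
        | true =>
          change prE (inE (x : Af R u)) ∈ Af.H R u
          rw [prE_inE]
          exact hx
        | false =>
          change prE (inF (x : FreeGroup (Fin 2))) ∈ Af.H R u
          rw [prE_inF]
          exact one_mem _
      intro g hg hgV
      exact Af.H_V _ (key hg) hgV)
  have := hN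
  refine ⟨CoprodI (Gf (Af R u)) ⧸ N, inferInstance, QuotientGroup.lift N prE hker,
    (QuotientGroup.mk' N).comp inE, QuotientGroup.mk' N (inF (FreeGroup.of 0)),
    QuotientGroup.mk' N (inF (FreeGroup.of 1)), ?_, ?_, ?_, ?_, ?_⟩
  · intro x
    exact prE_inE x
  · exact prE_inF (FreeGroup.of 0)
  · exact prE_inF (FreeGroup.of 1)
  · intro g
    obtain ⟨x, rfl⟩ := QuotientGroup.mk'_surjective N g
    intro hx hx1
    have h : x ^ p ∈ N := hpow x hx hx1
    rw [← map_pow]
    exact (QuotientGroup.eq_one_iff _).mpr h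
  · intro w hw hw1
    let ψ : FreeGroup (Fin 3) →* CoprodI (Gf (Af R u)) :=
      FreeGroup.lift ![inE ⟨0, 1⟩, inF (FreeGroup.of 0), inF (FreeGroup.of 1)]
    have e1 : (QuotientGroup.mk' N).comp ψ = FreeGroup.lift
        ![((QuotientGroup.mk' N).comp inE) ⟨0, 1⟩, QuotientGroup.mk' N (inF (FreeGroup.of 0)),
          QuotientGroup.mk' N (inF (FreeGroup.of 1))] := by
      ext j
      fin_cases j <;> simp [ψ]
    have e2 : (retr u).comp ψ = MonoidHom.id _ := by
      ext j
      fin_cases j
      · simp [ψ, retr_inE]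
      · simp [ψ, retr_inF]
      · simp [ψ, retr_inF]
    have hmem : ψ w ∈ HH (Gf (Af R u)) (Hf u) := by
      have h : (⊤ : Subgroup (FreeGroup (Fin 3))) ≤ (HH (Gf (Af R u)) (Hf u)).comap ψ := by
        rw [← FreeGroup.closure_range_of, Subgroup.closure_le]
        rintro _ ⟨j, rfl⟩
        change ψ (FreeGroup.of j) ∈ HH (Gf (Af R u)) (Hf u)
        fin_cases j
        · have : ψ (FreeGroup.of 0) = inE ⟨0, 1⟩ := by simp [ψ]
          exact this ▸ inE_mem_HH u _ rfl
        · have : ψ (FreeGroup.of 1) = inF (FreeGroup.of 0) := by simp [ψ]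
          exact this ▸ inF_mem_HH u _
        · have : ψ (FreeGroup.of 2) = inF (FreeGroup.of 1) := by simp [ψ]
          exact this ▸ inF_mem_HH u _
      exact h trivial
    rw [← e1] at hw1
    have h1 : ψ w ∈ N := (QuotientGroup.eq_one_iff _).mp hw1
    have h2 : ψ w = 1 := hfree _ hmem h1
    apply hw
    have h3 := congrArg (retr u) h2
    rw [map_one] at h3
    have h4 : retr u (ψ w) = w := DFunLike.congr_fun e2 w
    rw [← h4]
    exact h3


/-- Elements of the subgroup generated by `t` and `el h`. -/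
theorem el_mem {p : ℕ} [Fact p.Prime] {Q : Type} [Group Q] (el : Polynomial (ZMod p) → Q) (t : Q)
    (hadd : ∀ a b, el (a + b) = el a * el b)
    (hX : ∀ a, el (Polynomial.X * a) = t * el a * t⁻¹) (S : Subgroup Q) (ht : t ∈ S)
    (h : Polynomial (ZMod p)) (hh : el h ∈ S) (q : Polynomial (ZMod p)) : el (q * h) ∈ S := by
  have h0 : el 0 = 1 := by
    have := hadd 0 0
    rw [add_zero] at this
    exact mul_eq_left.mp this.symm
  have hpow : ∀ n : ℕ, el (Polynomial.X ^ n * h) ∈ S := by
    intro n
    induction n with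
    | zero => rwa [pow_zero, one_mul]
    | succ n ih =>
      rw [pow_succ', mul_assoc, hX]
      exact mul_mem (mul_mem ht ih) (inv_mem ht)
  have hnat : ∀ (k : ℕ) (a : Polynomial (ZMod p)), el a ∈ S →
      el ((k : Polynomial (ZMod p)) * a) ∈ S := by
    intro k a ha
    induction k with
    | zero => rw [Nat.cast_zero, zero_mul, h0]; exact one_mem S
    | succ k ih =>
      rw [Nat.cast_succ, add_mul, one_mul, hadd]
      exact mul_mem ih ha
  induction q using Polynomial.induction_on' with
  | add a b ha hb =>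
    rw [add_mul, hadd]
    exact mul_mem ha hb
  | monomial n c =>
    have hc : Polynomial.C c = ((c.val : ℕ) : Polynomial (ZMod p)) := by
      conv_lhs => rw [← ZMod.natCast_zmod_val c]
      rw [map_natCast]
    rw [← Polynomial.C_mul_X_pow_eq_monomial, mul_assoc, hc]
    exact hnat _ _ (hpow n)

/-- RD4. From Theorem B for one prime `p > 2` to the final theorem. -/
theorem final_of_B {p : ℕ} (hp : p.Prime) (h2 : 2 < p) (hB : PartialPeriodic p) :
    ∃ (G : Type) (_ : Group G), Group.FG G ∧ InfGirth G ∧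
      ∀ m : ℕ, ¬ Preforms G (FreeGroup (Fin m)) := by
  classical
  have := Fact.mk hp
  obtain ⟨f, g, hfg, hmon, hdeg, hcop⟩ := exists_polys p
  -- the rings and units
  let R : ℕ → Type := fun l => AdjoinRoot (f l)
  have hrel : ∀ l, 1 + AdjoinRoot.root (f l) * AdjoinRoot.mk (f l) (g l) = 0 := by
    intro l
    calc 1 + AdjoinRoot.root (f l) * AdjoinRoot.mk (f l) (g l)
        = AdjoinRoot.mk (f l) (1 + Polynomial.X * g l) := by
          rw [map_add, map_mul, map_one, AdjoinRoot.mk_X]
      _ = AdjoinRoot.mk (f l) (f l) := congrArg _ (hfg l).symm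
      _ = 0 := AdjoinRoot.mk_self
  let u : ∀ l, (R l)ˣ := fun l =>
    ⟨AdjoinRoot.root (f l), -AdjoinRoot.mk (f l) (g l),
      by linear_combination -(hrel l), by linear_combination -(hrel l)⟩
  have hu : ∀ l, ((u l : (R l)ˣ) : R l) ≠ 1 := by
    intro l h
    have h1 : AdjoinRoot.mk (f l) (Polynomial.X - 1) = 0 := by
      rw [map_sub, map_one, AdjoinRoot.mk_X]
      exact sub_eq_zero.mpr h
    rw [AdjoinRoot.mk_eq_zero] at h1
    have h3 : (Polynomial.X - 1 : Polynomial (ZMod p)).natDegree = 1 := by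
      have := Polynomial.natDegree_X_sub_C (1 : ZMod p)
      rwa [Polynomial.C_1] at this
    have h4 : (Polynomial.X - 1 : Polynomial (ZMod p)) ≠ 0 := by
      intro h0
      rw [h0, Polynomial.natDegree_zero] at h3
      omega
    have h5 := Polynomial.natDegree_le_of_dvd h1 h4
    have h6 := hdeg l
    omega
  have hchar : ∀ l, CharP (R l) p := by
    intro l
    have h0 : (f l).degree ≠ 0 := by
      intro h
      have := Polynomial.natDegree_eq_of_degree_eq_some (n := 0) (by simpa using h)
      have h6 := hdeg l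
      omega
    exact charP_of_injective_ringHom (AdjoinRoot.of.injective_of_degree_ne_zero h0) p
  have hP := fun l => @exists_P p hp h2 hB (R l) _ (hchar l) (u l) (hu l)
  choose P instP ρ i y1 y2 hρi hρ1 hρ2 hpow hfree using hP
  -- the elements of the product
  let el : Polynomial (ZMod p) → ∀ l, P l := fun h l => i l ⟨AdjoinRoot.mk (f l) h, 0⟩
  let t : ∀ l, P l := fun l => i l ⟨0, 1⟩
  have hadd : ∀ a b, el (a + b) = el a * el b := by
    intro a b
    funext l
    change i l ⟨AdjoinRoot.mk (f l) (a + b), 0⟩ =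
      i l ⟨AdjoinRoot.mk (f l) a, 0⟩ * i l ⟨AdjoinRoot.mk (f l) b, 0⟩
    rw [← map_mul]
    congr 1
    ext
    · rw [Af.mul_a, zpow_zero, Units.val_one, one_mul, map_add]
    · rw [Af.mul_n, add_zero]
  have hX : ∀ a, el (Polynomial.X * a) = t * el a * t⁻¹ := by
    intro a
    funext l
    change i l ⟨AdjoinRoot.mk (f l) (Polynomial.X * a), 0⟩ =
      i l ⟨0, 1⟩ * i l ⟨AdjoinRoot.mk (f l) a, 0⟩ * (i l ⟨0, 1⟩)⁻¹
    rw [← map_mul, ← map_inv, ← map_mul]
    congr 1
    ext
    · rw [Af.mul_a, Af.mul_a, Af.mul_n, Af.inv_a, zpow_one, map_mul, AdjoinRoot.mk_X]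
      simp [u]
    · rw [Af.mul_n, Af.mul_n, Af.inv_n]
      simp
  let T : Subgroup (∀ l, P l) := Subgroup.closure {t, el 1, y1, y2}
  have htT : t ∈ T := Subgroup.subset_closure (by simp)
  have h1T : el 1 ∈ T := Subgroup.subset_closure (by simp)
  have hy1T : y1 ∈ T := Subgroup.subset_closure (by simp)
  have hy2T : y2 ∈ T := Subgroup.subset_closure (by simp)
  have helT : ∀ q, el q ∈ T := by
    intro q
    have := el_mem el t hadd hX T htT 1 h1T q
    rwa [mul_one] at this
  let ψ : ∀ l, T →* P l := fun l => (Pi.evalMonoidHom P l).comp T.subtype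
  have hc0 : ∀ (x y : T) l, ρ l (ψ l (x * y * x⁻¹ * y⁻¹)) ∈ Af.V (R l) (u l) := by
    intro x y l
    rw [map_mul, map_mul, map_mul, map_inv, map_inv, map_mul, map_mul, map_mul, map_inv, map_inv]
    exact Af.comm_mem _ _
  refine ⟨T, inferInstance, inferInstance, ?_, ?_⟩
  · refine infGirth P ψ ⟨t, htT⟩ ⟨el 1, h1T⟩ ⟨y1, hy1T⟩ ⟨y2, hy2T⟩ ?_ ?_ ?_
    · have h := Subgroup.closure_closure_coe_preimage (k := ({t, el 1, y1, y2} : Set (∀ l, P l)))
      convert h using 2
      ext ⟨x, hx⟩
      simp [Subtype.ext_iff]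
    · intro l w hw
      have h : (ψ l).comp (FreeGroup.lift ![(⟨t, htT⟩ : T), ⟨y1, hy1T⟩, ⟨y2, hy2T⟩]) =
          FreeGroup.lift ![i l ⟨0, 1⟩, y1 l, y2 l] := by
        ext j
        fin_cases j
        · simp [ψ, t]
        · simp [ψ]
        · simp [ψ]
      have h' := DFunLike.congr_fun h w
      rw [MonoidHom.comp_apply] at h'
      rw [h']
      exact hfree l w hw
    · intro k hk
      let a : Fin k → Polynomial (ZMod p) := fun j => ∏ m ∈ ({j}ᶜ : Finset (Fin k)), f (m : ℕ)
      refine ⟨fun j => ⟨el (a j), helT _⟩, fun j => (j : ℕ), ?_, ?_⟩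
      · intro j j' hjj
        change el (a j') (j : ℕ) = 1
        have hdvd : f (j : ℕ) ∣ a j' :=
          Finset.dvd_prod_of_mem (fun m : Fin k => f (m : ℕ)) (by simpa using hjj)
        have h0 : AdjoinRoot.mk (f (j : ℕ)) (a j') = 0 := AdjoinRoot.mk_eq_zero.mpr hdvd
        change i (j : ℕ) ⟨AdjoinRoot.mk (f (j : ℕ)) (a j'), 0⟩ = 1
        rw [h0]
        exact map_one (i (j : ℕ))
      · have : Nonempty (Fin k) := ⟨⟨0, hk⟩⟩
        have hpc : Pairwise (Function.onFun IsCoprime (fun m : Fin k => f (m : ℕ))) := by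
          intro m m' hmm
          exact hcop (fun h => hmm (Fin.ext h))
        obtain ⟨μ, hμ⟩ := (exists_sum_eq_one_iff_pairwise_coprime' (s := fun m : Fin k =>
          f (m : ℕ))).mpr hpc
        let el' : Polynomial (ZMod p) → T := fun q => ⟨el q, helT q⟩
        have hadd' : ∀ b c, el' (b + c) = el' b * el' c := fun b c => Subtype.ext (hadd b c)
        have hX' : ∀ b, el' (Polynomial.X * b) = ⟨t, htT⟩ * el' b * ⟨t, htT⟩⁻¹ :=
          fun b => Subtype.ext (hX b)
        let S : Subgroup T := Subgroup.closure (insert ⟨t, htT⟩ (Set.range fun j => el' (a j)))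
        have htS : (⟨t, htT⟩ : T) ∈ S := Subgroup.subset_closure (Set.mem_insert _ _)
        have haS : ∀ j, el' (a j) ∈ S := fun j =>
          Subgroup.subset_closure (Set.mem_insert_of_mem _ ⟨j, rfl⟩)
        have hsum : ∀ s : Finset (Fin k), el' (∑ j ∈ s, μ j * a j) ∈ S := by
          intro s
          induction s using Finset.induction_on with
          | empty =>
            rw [Finset.sum_empty]
            have h0 : el' 0 = 1 := by
              have := hadd' 0 0
              rw [add_zero] at this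
              exact mul_eq_left.mp this.symm
            rw [h0]
            exact one_mem S
          | insert j s hj ih =>
            rw [Finset.sum_insert hj, hadd']
            exact mul_mem (el_mem el' _ hadd' hX' S htS _ (haS j) _) ih
        have hfin : el' (∑ j, μ j * a j) ∈ S := hsum Finset.univ
        rw [hμ] at hfin
        exact hfin
  · intro m
    refine noPre P (fun l => Af (R l) (u l)) ψ ρ p hp.one_le ?_ ?_ ?_ m
    · intro x hx
      exact Subtype.ext (funext hx)
    · intro l
      refine ⟨⟨t, htT⟩, ⟨el 1, h1T⟩, ?_⟩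
      intro h
      apply hu l
      have e1 : ρ l (ψ l (⟨t, htT⟩ * ⟨el 1, h1T⟩)) = ⟨0, 1⟩ * ⟨1, 0⟩ := by
        rw [map_mul, map_mul]
        change ρ l (i l ⟨0, 1⟩) * ρ l (i l ⟨AdjoinRoot.mk (f l) 1, 0⟩) = _
        rw [hρi, hρi, map_one]
      have e2 : ρ l (ψ l (⟨el 1, h1T⟩ * ⟨t, htT⟩)) = ⟨1, 0⟩ * ⟨0, 1⟩ := by
        rw [map_mul, map_mul]
        change ρ l (i l ⟨AdjoinRoot.mk (f l) 1, 0⟩) * ρ l (i l ⟨0, 1⟩) = _
        rw [hρi, hρi, map_one]
      rw [e1, e2] at h
      have h' := congrArg Af.a h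
      rw [Af.mul_a, Af.mul_a] at h'
      simpa using h'
    · intro l x y hxy
      exact hpow l _ (hc0 x y l) hxy

end Pool.Agent.Beb
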