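import Pool.Agent.Work.MP_beb559_al.Tower
import Pool.Agent.Work.MP_beb559_al.RedD

/-!
# The final theorem from the step
-/

namespace Pool.Agent.Beb

/-- There are constants. -/
theorem exists_par : ∃ P : Par, 2 < P.p := by
  obtain ⟨p, hp1, hp2⟩ := Nat.exists_infinite_primes
    (2000 * (100 * (1000 * (100 * (8 * (1000 * 100))))) *
      ((100 * (8 * (1000 * 100)) + 2) * (40000 * (100 * (1000 * (100 * (8 * (1000 * 100))))))))
  refine ⟨⟨100, 1000 * 100, 8 * (1000 * 100), 2 * (1000 * 100), 100 * (8 * (1000 * 100)),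
    1000 * (100 * (8 * (1000 * 100))), 100 * (1000 * (100 * (8 * (1000 * 100)))), 0,
    (100 * (8 * (1000 * 100)) + 2) * (40000 * (100 * (1000 * (100 * (8 * (1000 * 100)))))),
    2000 * (100 * (1000 * (100 * (8 * (1000 * 100))))), p, le_rfl, rfl, rfl, rfl, rfl, rfl, rfl,
    le_rfl, le_rfl, hp1, hp2⟩, ?_⟩
  show 2 < p
  norm_num at hp1
  omega

/-- The final theorem from the step. -/
theorem final_of_step (hS : ∀ P : Par, StepStmt P) :
    ∃ (G : Type) (_ : Group G), Group.FG G ∧ InfGirth G ∧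
      ∀ m : ℕ, ¬ Preforms G (FreeGroup (Fin m)) := by
  obtain ⟨P, hP⟩ := exists_par
  exact final_of_B P.prime hP (partialPeriodic_of_step P (hS P))

end Pool.Agent.Beb
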