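import Mathlib

/-!
# The windmill: reduction of the elements generated by rotations
-/

namespace Pool.Agent.Beb

/-- Abstract projection data with rotations. Points `X`, indices `I`. -/
structure WM (G X I : Type) [Group G] [MulAction G X] [MulAction G I] where
  θ : ℕ
  d : I → X ⊕ I → X ⊕ I → ℕ
  t : I → ℕ
  H : I → Subgroup G
  ρ : I → X → ℕ
  pos : 1 ≤ θ
  symm : ∀ i a b, d i a b = d i b a
  tri : ∀ i a b c, b ≠ Sum.inr i → d i a c ≤ d i a b + d i b c
  self : ∀ i x, d i (Sum.inl x) (Sum.inl x) ≤ θ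
  equi : ∀ (g : G) i a b, d (g • i) (g • a) (g • b) = d i a b
  beh : ∀ i j x, i ≠ j → θ < d i (Sum.inl x) (Sum.inr j) → d j (Sum.inl x) (Sum.inr i) ≤ θ
  rank : ∀ i j x, i ≠ j → θ < d j (Sum.inl x) (Sum.inr i) → ρ j x < ρ i x
  conj : ∀ (g : G) i h, h ∈ H i → g * h * g⁻¹ ∈ H (g • i)
  fix : ∀ i, ∀ h ∈ H i, h • i = i
  t_smul : ∀ (g : G) i, t (g • i) = t i
  t_big : ∀ i, 100 * θ ≤ t i
  rot : ∀ i, ∀ h ∈ H i, h ≠ 1 → ∀ x : X, t i ≤ d i (Sum.inl x) (Sum.inl (h • x))

namespace WM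

variable {G X I : Type} [Group G] [MulAction G X] [MulAction G I] (W : WM G X I)

/-- Reducible elements, seen from `x`. -/
inductive Rd (x : X) : G → Prop
  | one : Rd x 1
  | step (i : I) (h k : G) : h ∈ W.H i →
      W.t i ≤ W.d i (Sum.inl x) (Sum.inl (k • x)) + 11 * W.θ → Rd x (h * k) → Rd x k

/-- A level. -/
structure Lvl (x : X) (S : Set I) (N : Subgroup G) : Prop where
  inv : ∀ n ∈ N, ∀ i ∈ S, n • i ∈ S
  sub : ∀ i ∈ S, W.H i ≤ N
  bd : ∀ Z, Z ∉ S → ∀ k ∈ N, W.d Z (.inl x) (.inl (k • x)) ≤ 8 * W.θ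
  rd : ∀ k ∈ N, W.Rd x k

/-- The new centres. -/
def Cn (x : X) (S : Set I) (N : Subgroup G) : Set I :=
  {c | c ∉ S ∧ ((∃ k ∈ N, ∃ k' ∈ N, 4 * W.θ < W.d c (.inl (k • x)) (.inl (k' • x))) ∨
    ∀ Z, Z ∉ S → Z ≠ c → ∃ k ∈ N, W.d Z (.inl (k • x)) (.inr c) ≤ W.θ)}

/-- The next group. -/
def N1 (x : X) (S : Set I) (N : Subgroup G) : Subgroup G :=
  Subgroup.closure ((N : Set G) ∪ {g | ∃ c ∈ W.Cn x S N, g ∈ W.H c})

/-- The next set of centres. -/
def S1 (x : X) (S : Set I) (N : Subgroup G) : Set I :=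
  {i | ∃ g ∈ W.N1 x S N, ∃ c, (c ∈ S ∨ c ∈ W.Cn x S N) ∧ i = g • c}

/-- Normal forms; the index is the first centre. -/
inductive NF (C : Set I) (N : Subgroup G) : Option I → G → Prop
  | base {w : G} (hw : w ∈ N) : NF C N none w
  | step {c : I} {o : Option I} {r k : G} (hc : c ∈ C) (hr : r ∈ W.H c) (hr1 : r ≠ 1)
      (hk : NF C N o k) (ho : o ≠ some c) : NF C N (some c) (r * k)

variable {W} {x : X} {S : Set I} {N : Subgroup G}

theorem equi' (g : G) (Y : I) (a b : X ⊕ I) : W.d Y (g • a) (g • b) = W.d (g⁻¹ • Y) a b := by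
  have h := W.equi g (g⁻¹ • Y) a b
  rwa [smul_inv_smul] at h

theorem notMem_smul (hL : W.Lvl x S N) {n : G} (hn : n ∈ N) {Z : I} (hZ : Z ∉ S) : n • Z ∉ S := by
  intro h
  have := hL.inv n⁻¹ (inv_mem hn) _ h
  rw [inv_smul_smul] at this
  exact hZ this

theorem bd' (hL : W.Lvl x S N) {Z : I} (hZ : Z ∉ S) {k k' : G} (hk : k ∈ N) (hk' : k' ∈ N) :
    W.d Z (.inl (k • x)) (.inl (k' • x)) ≤ 8 * W.θ := by
  have h1 := hL.bd (k⁻¹ • Z) (notMem_smul hL (inv_mem hk) hZ) (k⁻¹ * k') (mul_mem (inv_mem hk) hk')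
  have h2 := equi' (W := W) k Z (.inl x) (.inl ((k⁻¹ * k') • x))
  rw [Sum.smul_inl, Sum.smul_inl, smul_smul, mul_inv_cancel_left] at h2
  omega

/-- (1) -/
theorem near {c c' : I} (hc' : c' ∈ W.Cn x S N) (hc : c ∉ S) (hne : c ≠ c') :
    ∃ k ∈ N, W.d c (.inl (k • x)) (.inr c') ≤ W.θ := by
  obtain ⟨h1, ⟨k, hk, k', hk', h2⟩ | h2⟩ := hc'
  · have h3 := W.tri c' (.inl (k • x)) (.inr c) (.inl (k' • x)) (fun e => hne (Sum.inr.inj e))
    have h4 := W.symm c' (.inr c) (.inl (k' • x))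
    by_cases h5 : W.θ < W.d c' (.inl (k • x)) (.inr c)
    · exact ⟨k, hk, W.beh c' c _ (Ne.symm hne) h5⟩
    · exact ⟨k', hk', W.beh c' c _ (Ne.symm hne) (by omega)⟩
  · exact h2 c hc hne

theorem near' (hL : W.Lvl x S N) {c c' : I} (hc' : c' ∈ W.Cn x S N) (hc : c ∉ S) (hne : c ≠ c')
    {k : G} (hk : k ∈ N) : W.d c (.inl (k • x)) (.inr c') ≤ 9 * W.θ := by
  obtain ⟨k', hk', h⟩ := near hc' hc hne
  have h1 := W.tri c (.inl (k • x)) (.inl (k' • x)) (.inr c') (by simp)
  have h2 := bd' hL hc hk hk'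
  omega

theorem Cn_smul (hL : W.Lvl x S N) {c : I} (hc : c ∈ W.Cn x S N) {n : G} (hn : n ∈ N) :
    n • c ∈ W.Cn x S N := by
  obtain ⟨h1, h⟩ := hc
  refine ⟨notMem_smul hL hn h1, ?_⟩
  rcases h with ⟨k, hk, k', hk', h2⟩ | h2
  · refine Or.inl ⟨n * k, mul_mem hn hk, n * k', mul_mem hn hk', ?_⟩
    have h3 := W.equi n c (.inl (k • x)) (.inl (k' • x))
    rw [Sum.smul_inl, Sum.smul_inl, smul_smul, smul_smul] at h3
    omega
  · refine Or.inr fun Z hZ hne => ?_
    obtain ⟨k, hk, h3⟩ := h2 (n⁻¹ • Z) (notMem_smul hL (inv_mem hn) hZ) (by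
      intro e
      apply hne
      rw [← e, smul_inv_smul])
    refine ⟨n * k, mul_mem hn hk, ?_⟩
    have h4 := equi' (W := W) n Z (.inl (k • x)) (.inr c)
    rw [Sum.smul_inl, Sum.smul_inr, smul_smul] at h4
    omega

theorem NF.smul (hL : W.Lvl x S N) {o : Option I} {k : G} (h : W.NF (W.Cn x S N) N o k) {n : G}
    (hn : n ∈ N) : W.NF (W.Cn x S N) N (o.map (n • ·)) (n * k) := by
  induction h with
  | base hw => exact NF.base (mul_mem hn hw)
  | @step c o r k hc hr hr1 hk ho ih =>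
    have e : n * (r * k) = (n * r * n⁻¹) * (n * k) := by group
    rw [e]
    refine NF.step (Cn_smul hL hc hn) (W.conj n c r hr) ?_ ih ?_
    · intro e
      apply hr1
      rw [mul_inv_eq_one] at e
      exact mul_eq_left.1 e
    · intro e
      rcases o with _ | c'
      · cases e
      · apply ho
        have e1 : n • c' = n • c := Option.some.inj e
        rw [smul_left_cancel n e1]

theorem NF.rot {C : Set I} {o : Option I} {k : G} (h : W.NF C N o k) {c : I} (hc : c ∈ C) {r : G}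
    (hr : r ∈ W.H c) : ∃ o', W.NF C N o' (r * k) := by
  by_cases hr1 : r = 1
  · rw [hr1, one_mul]
    exact ⟨o, h⟩
  by_cases ho : o = some c
  · cases h with
    | base hw => cases ho
    | @step c' o r' k hc' hr' hr1' hk ho' =>
      obtain rfl : c' = c := Option.some.inj ho
      rw [← mul_assoc]
      by_cases h1 : r * r' = 1
      · rw [h1, one_mul]
        exact ⟨_, hk⟩
      · exact ⟨_, NF.step hc (mul_mem hr hr') h1 hk ho'⟩
  · exact ⟨_, NF.step hc hr hr1 h ho⟩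

theorem exists_NF (hL : W.Lvl x S N) {k : G} (hk : k ∈ W.N1 x S N) :
    ∃ o, W.NF (W.Cn x S N) N o k := by
  refine Subgroup.closure_induction_left (p := fun k _ => ∃ o, W.NF (W.Cn x S N) N o k)
    ?_ ?_ ?_ hk
  · exact ⟨none, NF.base (one_mem N)⟩
  · rintro g (hg | ⟨c, hc, hg⟩) y hy ⟨o, h⟩
    · exact ⟨_, NF.smul hL h hg⟩
    · exact h.rot hc hg
  · rintro g (hg | ⟨c, hc, hg⟩) y hy ⟨o, h⟩
    · exact ⟨_, NF.smul hL h (inv_mem hg)⟩
    · exact h.rot hc (inv_mem hg)

/-- Claims A and B. -/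
theorem NF.AB (hL : W.Lvl x S N) {o : Option I} {k : G} (h : W.NF (W.Cn x S N) N o k) {c₁ : I}
    (ho : o = some c₁) :
    (∀ c, c ∈ W.Cn x S N → c ≠ c₁ → W.d c (.inl (k • x)) (.inr c₁) ≤ W.θ) ∧
    ∀ a ∈ N, W.t c₁ ≤ W.d c₁ (.inl (a • x)) (.inl (k • x)) + 10 * W.θ := by
  induction h generalizing c₁ with
  | base hw => cases ho
  | @step c o r k hc hr hr1 hk ho' ih =>
    obtain rfl : c = c₁ := Option.some.inj ho
    have hpos := W.pos
    have hbig := W.t_big c
    have hB : ∀ a ∈ N, W.t c ≤ W.d c (.inl (a • x)) (.inl ((r * k) • x)) + 10 * W.θ := by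
      intro a ha
      have h1 := W.rot c r hr hr1 (a • x)
      have h2 := W.tri c (.inl (a • x)) (.inl ((r * k) • x)) (.inl (r • a • x)) (by simp)
      have h3 : W.d c (.inl ((r * k) • x)) (.inl (r • a • x)) =
          W.d c (.inl (k • x)) (.inl (a • x)) := by
        have h4 := W.equi r c (.inl (k • x)) (.inl (a • x))
        rw [W.fix c r hr, Sum.smul_inl, Sum.smul_inl, smul_smul] at h4
        exact h4
      have h5 : W.d c (.inl (k • x)) (.inl (a • x)) ≤ 10 * W.θ := by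
        rcases o with _ | c₂
        · cases hk with
          | base hw =>
            have := bd' hL hc.1 hw ha
            omega
        · have hne : c ≠ c₂ := fun e => ho' (by rw [e])
          have hc₂ : c₂ ∈ W.Cn x S N := by
            cases hk with
            | step hc₂ _ _ _ _ => exact hc₂
          have h6 := (ih rfl).1 c hc hne
          have h7 := near' hL hc₂ hc.1 hne ha
          have h8 := W.tri c (.inl (k • x)) (.inr c₂) (.inl (a • x))
            (fun e => hne (Sum.inr.inj e).symm)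
          have h9 := W.symm c (.inr c₂) (.inl (a • x))
          omega
      omega
    refine ⟨?_, hB⟩
    intro c' hc' hne
    obtain ⟨a, ha, h1⟩ := near hc' hc.1 hne.symm
    have h2 := hB a ha
    have h3 := W.tri c (.inl (a • x)) (.inr c') (.inl ((r * k) • x))
      (fun e => hne (Sum.inr.inj e))
    have h4 := W.symm c (.inr c') (.inl ((r * k) • x))
    exact W.beh c c' _ hne.symm (by omega)

theorem subset_N1 {g : G} (hg : g ∈ N) : g ∈ W.N1 x S N :=
  Subgroup.subset_closure (Or.inl hg)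

theorem H_le_N1 {c : I} (hc : c ∈ W.Cn x S N) : W.H c ≤ W.N1 x S N :=
  fun _ hg => Subgroup.subset_closure (Or.inr ⟨c, hc, hg⟩)

theorem S1_smul {n : G} (hn : n ∈ W.N1 x S N) {i : I} (hi : i ∈ W.S1 x S N) :
    n • i ∈ W.S1 x S N := by
  obtain ⟨g, hg, c, hc, rfl⟩ := hi
  exact ⟨n * g, mul_mem hn hg, c, hc, by rw [mul_smul]⟩

theorem notMem_S1_smul {n : G} (hn : n ∈ W.N1 x S N) {i : I} (hi : i ∉ W.S1 x S N) :
    n • i ∉ W.S1 x S N := by
  intro h
  have := S1_smul (inv_mem hn) h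
  rw [inv_smul_smul] at this
  exact hi this

theorem S_sub {i : I} (hi : i ∈ S) : i ∈ W.S1 x S N :=
  ⟨1, one_mem _, i, Or.inl hi, (one_smul G i).symm⟩

theorem C_sub {i : I} (hi : i ∈ W.Cn x S N) : i ∈ W.S1 x S N :=
  ⟨1, one_mem _, i, Or.inr hi, (one_smul G i).symm⟩

/-- Small distances outside the new centres. -/
theorem out {Y : I} (hY : Y ∉ W.S1 x S N) {k k' : G} (hk : k ∈ N) (hk' : k' ∈ N) :
    W.d Y (.inl (k • x)) (.inl (k' • x)) ≤ 4 * W.θ := by
  by_contra hc
  exact hY (C_sub ⟨fun h => hY (S_sub h), Or.inl ⟨k, hk, k', hk', not_le.1 hc⟩⟩)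

theorem out1 {Y : I} (hY : Y ∉ W.S1 x S N) {c : I} (hc : c ∈ W.Cn x S N) {k : G} (hk : k ∈ N) :
    W.d Y (.inl (k • x)) (.inr c) ≤ 5 * W.θ := by
  obtain ⟨k', hk', h⟩ := near hc (fun h => hY (S_sub h)) (fun e => hY (e ▸ C_sub hc))
  have h1 := out hY hk hk'
  have h2 := W.tri Y (.inl (k • x)) (.inl (k' • x)) (.inr c) (by simp)
  omega

theorem out2 {Y : I} (hY : Y ∉ W.S1 x S N) {c c' : I} (hc : c ∈ W.Cn x S N)
    (hc' : c' ∈ W.Cn x S N) : W.d Y (.inr c) (.inr c') ≤ 6 * W.θ := by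
  obtain ⟨k', hk', h⟩ := near hc (fun h => hY (S_sub h)) (fun e => hY (e ▸ C_sub hc))
  have h1 := out1 hY hc' hk'
  have h2 := W.tri Y (.inr c) (.inl (k' • x)) (.inr c') (by simp)
  have h3 := W.symm Y (.inr c) (.inl (k' • x))
  omega

/-- The walk. -/
theorem NF.walk (hL : W.Lvl x S N) {o : Option I} {k : G} (h : W.NF (W.Cn x S N) N o k) {Y : I}
    (hY : Y ∉ W.S1 x S N) {g : G} (hgN : g ∈ W.N1 x S N)
    (hg : g = 1 ∨ ∃ c₀ ∈ W.Cn x S N, W.NF (W.Cn x S N) N (some c₀) g⁻¹ ∧ o ≠ some c₀ ∧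
      W.d Y (.inl x) (.inr (g • c₀)) ≤ W.θ) :
    W.d Y (.inl x) (.inl ((g * k) • x)) ≤ 8 * W.θ := by
  have hpos := W.pos
  induction h generalizing g with
  | @base w hw =>
    rcases hg with rfl | ⟨c₀, hc₀, -, -, h1⟩
    · have := out hY (one_mem N) hw
      rw [one_smul] at this
      rw [one_mul]
      omega
    · have hY' : g⁻¹ • Y ∉ W.S1 x S N := notMem_S1_smul (inv_mem hgN) hY
      have h2 := out1 hY' hc₀ hw
      have h3 := equi' (W := W) g Y (.inl (w • x)) (.inr c₀)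
      rw [Sum.smul_inl, Sum.smul_inr, smul_smul] at h3
      have h4 := W.tri Y (.inl x) (.inr (g • c₀)) (.inl ((g * w) • x)) (by
        intro e
        exact hY (Sum.inr.inj e ▸ S1_smul hgN (C_sub hc₀)))
      have h5 := W.symm Y (.inr (g • c₀)) (.inl ((g * w) • x))
      omega
  | @step c o r k hc hr hr1 hk ho ih =>
    have hNF : W.NF (W.Cn x S N) N (some c) (r * k) := NF.step hc hr hr1 hk ho
    have hgc : g • c ∈ W.S1 x S N := S1_smul hgN (C_sub hc)
    have hgcY : g • c ≠ Y := fun e => hY (e ▸ hgc)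
    have hbig := W.t_big c
    -- the angle at `g • c`
    have hang : 3 * W.θ ≤ W.d (g • c) (.inl x) (.inl ((g * (r * k)) • x)) := by
      have h1 := (hNF.AB hL rfl).2 1 (one_mem N)
      rw [one_smul] at h1
      have h2 : W.d c (.inl (g⁻¹ • x)) (.inl x) ≤ 10 * W.θ := by
        rcases hg with rfl | ⟨c₀, hc₀, h2, h3, -⟩
        · have := W.self c x
          rw [inv_one, one_smul]
          omega
        · have hne : c ≠ c₀ := fun e => h3 (by rw [e])
          have h4 := (h2.AB hL rfl).1 c hc hne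
          have h5 := near' hL hc₀ hc.1 hne (one_mem N)
          rw [one_smul] at h5
          have h6 := W.tri c (.inl (g⁻¹ • x)) (.inr c₀) (.inl x)
            (fun e => hne (Sum.inr.inj e).symm)
          have h7 := W.symm c (.inr c₀) (.inl x)
          omega
      have h3 := W.tri c (.inl x) (.inl (g⁻¹ • x)) (.inl ((r * k) • x)) (by simp)
      have h4 := W.symm c (.inl x) (.inl (g⁻¹ • x))
      have h5 := W.equi g c (.inl (g⁻¹ • x)) (.inl ((r * k) • x))
      rw [Sum.smul_inl, Sum.smul_inl, smul_inv_smul, smul_smul] at h5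
      omega
    have h1 := W.tri (g • c) (.inl x) (.inr Y) (.inl ((g * (r * k)) • x))
      (fun e => hgcY (Sum.inr.inj e).symm)
    have h2 := W.symm (g • c) (.inr Y) (.inl ((g * (r * k)) • x))
    by_cases h3 : W.θ < W.d (g • c) (.inl x) (.inr Y)
    · have h4 := W.beh (g • c) Y x hgcY h3
      have e : (g * r) • c = g • c := by rw [mul_smul, W.fix c r hr]
      have h5 := ih (g := g * r) (mul_mem hgN (H_le_N1 hc hr)) (Or.inr ⟨c, hc, ?_, ho, ?_⟩)
      · rw [mul_assoc] at h5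
        exact h5
      · rw [mul_inv_rev]
        rcases hg with rfl | ⟨c₀, hc₀, h2, h3, -⟩
        · rw [inv_one]
          exact NF.step hc (inv_mem hr) (inv_ne_one.2 hr1) (NF.base (one_mem N)) (by simp)
        · exact NF.step hc (inv_mem hr) (inv_ne_one.2 hr1) h2 h3.symm
      · rw [e]
        exact h4
    · have h4 := W.beh (g • c) Y ((g * (r * k)) • x) hgcY (by omega)
      have h5 := W.symm Y (.inl ((g * (r * k)) • x)) (.inr (g • c))
      have h6 := W.tri Y (.inl x) (.inr (g • c)) (.inl ((g * (r * k)) • x))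
        (fun e => hgcY (Sum.inr.inj e))
      rcases hg with rfl | ⟨c₀, hc₀, h7, h8, h9⟩
      · have h10 := out1 hY hc (one_mem N)
        rw [one_smul] at h10
        rw [one_smul] at h6 h4 h5
        omega
      · have hY' : g⁻¹ • Y ∉ W.S1 x S N := notMem_S1_smul (inv_mem hgN) hY
        have h10 := out2 hY' hc₀ hc
        have h11 := equi' (W := W) g Y (.inr c₀) (.inr c)
        rw [Sum.smul_inr, Sum.smul_inr] at h11
        have h12 := W.tri Y (.inl x) (.inr (g • c₀)) (.inr (g • c)) (by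
          intro e
          exact hY (Sum.inr.inj e ▸ S1_smul hgN (C_sub hc₀)))
        omega

theorem NF.red (hL : W.Lvl x S N) {o : Option I} {k : G} (h : W.NF (W.Cn x S N) N o k) :
    W.Rd x k := by
  induction h with
  | base hw => exact hL.rd _ hw
  | @step c o r k hc hr hr1 hk ho ih =>
    have h1 := ((NF.step hc hr hr1 hk ho : W.NF (W.Cn x S N) N (some c) (r * k)).AB hL rfl).2 1
      (one_mem N)
    rw [one_smul] at h1
    refine Rd.step c r⁻¹ _ (inv_mem hr) (by omega) ?_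
    rw [inv_mul_cancel_left]
    exact ih

/-- The step. -/
theorem Lvl.next (hL : W.Lvl x S N) : W.Lvl x (W.S1 x S N) (W.N1 x S N) where
  inv n hn i hi := S1_smul hn hi
  sub := by
    rintro i ⟨g, hg, c, hc, rfl⟩ h hh
    have h1 : g⁻¹ * h * g ∈ W.H c := by
      have := W.conj g⁻¹ _ h hh
      rwa [inv_smul_smul, inv_inv] at this
    have h2 : g⁻¹ * h * g ∈ W.N1 x S N := by
      rcases hc with hc | hc
      · exact subset_N1 (hL.sub c hc h1)
      · exact H_le_N1 hc h1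
    have e : h = g * (g⁻¹ * h * g) * g⁻¹ := by group
    rw [e]
    exact mul_mem (mul_mem hg h2) (inv_mem hg)
  bd Z hZ k hk := by
    obtain ⟨o, ho⟩ := exists_NF hL hk
    have := ho.walk hL hZ (one_mem _) (Or.inl rfl)
    rwa [one_mul] at this
  rd k hk := by
    obtain ⟨o, ho⟩ := exists_NF hL hk
    exact ho.red hL

/-- The levels. -/
def lv (W : WM G X I) (x : X) : ℕ → Set I × Subgroup G
  | 0 => (∅, ⊥)
  | n + 1 => (W.S1 x (lv W x n).1 (lv W x n).2, W.N1 x (lv W x n).1 (lv W x n).2)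

theorem lv_lvl (n : ℕ) : W.Lvl x (W.lv x n).1 (W.lv x n).2 := by
  induction n with
  | zero =>
    refine ⟨fun n _ i hi => absurd hi (Set.notMem_empty i), fun i hi => absurd hi
      (Set.notMem_empty i), ?_, ?_⟩
    · intro Z _ k hk
      rw [Subgroup.mem_bot.1 hk, one_smul]
      have := W.self Z x
      omega
    · intro k hk
      rw [Subgroup.mem_bot.1 hk]
      exact Rd.one
  | succ n ih => exact ih.next

theorem lv_mem (n : ℕ) (Y : I) (hY : W.ρ Y x < n) : Y ∈ (W.lv x n).1 := by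
  induction n generalizing Y with
  | zero => omega
  | succ n ih =>
    by_cases h : Y ∈ (W.lv x n).1
    · exact S_sub h
    · refine C_sub ⟨h, Or.inr fun Z hZ hne => ⟨1, one_mem _, ?_⟩⟩
      rw [one_smul]
      by_contra hc
      have := W.rank Y Z x hne.symm (not_le.1 hc)
      exact hZ (ih Z (by omega))

theorem lv_mono {m n : ℕ} (h : m ≤ n) : (W.lv x m).2 ≤ (W.lv x n).2 := by
  induction n, h using Nat.le_induction with
  | base => exact le_rfl
  | succ n _ ih => exact ih.trans fun g hg => subset_N1 hg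

/-- The theorem: every element of the group generated by the `H i` is reducible. -/
theorem rd (W : WM G X I) (x : X) (k : G) (hk : k ∈ ⨆ i, W.H i) : W.Rd x k := by
  have h : ∃ n, k ∈ (W.lv x n).2 := by
    refine Subgroup.iSup_induction (C := fun k => ∃ n, k ∈ (W.lv x n).2) W.H hk ?_ ?_ ?_
    · intro i g hg
      exact ⟨W.ρ i x + 1, (lv_lvl _).sub i (lv_mem _ i (Nat.lt_succ_self _)) hg⟩
    · exact ⟨0, one_mem _⟩
    · rintro a b ⟨m, hm⟩ ⟨n, hn⟩
      exact ⟨max m n, mul_mem (lv_mono (le_max_left m n) hm) (lv_mono (le_max_right m n) hn)⟩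
  obtain ⟨n, hn⟩ := h
  exact (lv_lvl n).rd k hn

end WM

end Pool.Agent.Beb
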