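import Pool.Agent.Work.MP_beb559_al.HA
import Pool.Agent.Work.MP_beb559_al.Wind

/-!
# The quotient by the rotations
-/

namespace Pool.Agent.Beb

namespace Rot

variable {P : Par} {G : Type} [Group G] {L : Len G} (F : Rot P L)

theorem e_zpow_smul (i : F.I) (j : ℤ) : (F.e i ^ j) • i = i := by
  have h1 : F.e i ∈ MulAction.stabilizer G i := F.e_fix i
  exact (MulAction.stabilizer G i).zpow_mem h1 j

theorem mem_K (i : F.I) (j : ℤ) : F.e i ^ (P.p * j) ∈ F.K := by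
  rw [zpow_mul, zpow_natCast]
  exact (le_iSup (fun i => Subgroup.zpowers (F.e i ^ P.p)) i)
    (Subgroup.zpow_mem _ (Subgroup.mem_zpowers _) j)

/-- The constants used here. -/
theorem R_facts (P : Par) : 1 ≤ P.R ∧ P.R = 100 * P.R1 ∧ 40000 * P.R ≤ P.L := by
  have h1 := P.hD
  have h2 := P.hT0
  have h3 := P.hT3
  have h4 := P.hA
  have h5 := P.hR1
  have h6 := P.hR
  have h7 := P.hL
  refine ⟨by omega, h6, ?_⟩
  have h8 : 1 * (40000 * P.R) ≤ (P.A + 2) * (40000 * P.R) :=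
    Nat.mul_le_mul_right _ (by omega)
  omega

/-- QA0. Rotations move projections at least `t`. Hint: `rot` at a nearest point. -/
theorem rot_dp (hH : L.Hyp P.D) (i : F.I) (j : ℤ) (hj : j ≠ 0) (x : G) :
    F.t i ≤ F.dp i x (F.e i ^ (P.p * j) * x) := by
  obtain ⟨y, hy⟩ := F.exists_nr i x
  have h1 : F.Nr i (F.e i ^ (P.p * j) * x) (F.e i ^ (P.p * j) * y) := by
    have h2 := F.nr_smul (F.e i ^ (P.p * j)) hy
    rwa [F.e_zpow_smul] at h2
  exact (F.rot i j hj y hy.1).trans (F.le_dp hH hy h1)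

/-- The windmill structure. -/
noncomputable def wm (hH : L.Hyp P.D) : WM G G F.I where
  θ := 40 * P.R
  pos := by
    have h2 := R_facts P
    omega
  d := F.dd
  t := F.t
  H i := Subgroup.zpowers (F.e i ^ P.p)
  ρ := F.rk
  symm := F.dd_symm
  tri := F.dd_tri hH
  self i x := by
    have h1 := F.dp_self hH i x
    have h2 := R_facts P
    unfold QF.dp at h1
    omega
  equi := F.dd_smul
  beh i j x hij h := F.beh hH hij h
  rank i j x hij h := F.rank hH hij h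
  conj g i h hh := by
    obtain ⟨n, hn⟩ := Subgroup.mem_zpowers_iff.1 hh
    rw [Subgroup.mem_zpowers_iff]
    refine ⟨n, ?_⟩
    rw [F.e_smul, conj_pow, conj_zpow, hn]
  fix i h hh := by
    obtain ⟨n, hn⟩ := Subgroup.mem_zpowers_iff.1 hh
    rw [← hn, ← zpow_natCast, ← zpow_mul]
    exact F.e_zpow_smul i _
  t_smul := F.t_smul
  t_big i := by
    have h1 := F.t_big i
    have h2 := R_facts P
    omega
  rot i h hh h1 x := by
    obtain ⟨n, hn⟩ := Subgroup.mem_zpowers_iff.1 hh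
    have h2 : h = F.e i ^ (P.p * n) := by rw [← hn, zpow_mul, zpow_natCast]
    have h3 : n ≠ 0 := by
      rintro rfl
      exact h1 (by rw [← hn, zpow_zero])
    have h4 := F.rot_dp hH i n h3 x
    rw [← h2] at h4
    exact h4

/-- QA1. Every element of `K` is reducible, seen from any point. Proof: the structure `WM` with
`X = G`, `θ = 40 R`, `d = dd`, `H i = zpowers (e i ^ p)`, `ρ = rk`; `WM.rd`. -/
theorem red (hH : L.Hyp P.D) (x k : G) (hk : k ∈ F.K) : F.Red x k := by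
  have h1 : (F.wm hH).Rd x k := (F.wm hH).rd x k hk
  induction h1 with
  | one => exact Red.one
  | step i h k hh ht _ ih =>
    obtain ⟨n, hn⟩ := Subgroup.mem_zpowers_iff.1 hh
    have h2 : h = F.e i ^ (P.p * n) := by rw [← hn, zpow_mul, zpow_natCast]
    have h3 : h ∈ F.K := by rw [h2]; exact F.mem_K i n
    have h4 := ih (mul_mem h3 hk)
    rw [h2] at h4
    refine Red.step i n k ?_ h4
    have h5 : F.t i ≤ F.dp i x (k * x) + 11 * (40 * P.R) := ht
    omega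

/-- QA2. `K` meets the stabilizers in the rotations. Proof: induction on `Red` at `x ∈ Y i`: in a step
with index `j ≠ i` the points `x, k * x ∈ Y i` have `dp j ≤ 6 R < t - 440 R`. -/
theorem K_stab (hH : L.Hyp P.D) {i : F.I} {k : G} (hk : k ∈ F.K) (hi : k • i = i) :
    ∃ j : ℤ, k = F.e i ^ (P.p * j) := by
  obtain ⟨x, hx⟩ := F.ne i
  have h1 := F.red hH x k hk
  clear hk
  induction h1 with
  | one => exact ⟨0, by simp⟩
  | step j n k ht _ ih =>
    have hkx : k * x ∈ F.Y i := by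
      have := F.smul k i x hx
      rwa [hi] at this
    by_cases hji : j = i
    · subst hji
      obtain ⟨m, hm⟩ := ih (by rw [mul_smul, hi]; exact F.e_zpow_smul j _)
      refine ⟨m - n, ?_⟩
      rw [mul_sub, zpow_sub, ← hm]
      have h5 : F.e j ^ ((P.p : ℤ) * n) * k * (F.e j ^ ((P.p : ℤ) * n))⁻¹ = k := by
        have h6 : k = (F.e j ^ ((P.p : ℤ) * n))⁻¹ * F.e j ^ ((P.p : ℤ) * m) := by
          rw [← hm]; group
        have h7 : F.e j ^ ((P.p : ℤ) * n) * k = k * F.e j ^ ((P.p : ℤ) * n) := by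
          rw [h6, ← zpow_neg, ← zpow_add, ← zpow_add, ← zpow_add]
          congr 1
          ring
        rw [h7]; group
      exact h5.symm
    · have h2 := F.dp_other hH hji hx hkx
      have h3 := R_facts P
      have h4 := F.t_big j
      omega

/-- The quotient length. -/
noncomputable def dq : Len (G ⧸ F.K) := F.hat.quo F.K

/-- QA3. -/
theorem dq_le (x y : G) {k : G} (hk : k ∈ F.K) :
    F.dq.d (QuotientGroup.mk x) (QuotientGroup.mk y) ≤ F.hat.d x (k * y) := by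
  refine Nat.sInf_le ⟨x⁻¹ * (k * y), ?_, rfl⟩
  have h1 : (QuotientGroup.mk k : G ⧸ F.K) = 1 := (QuotientGroup.eq_one_iff k).2 hk
  rw [QuotientGroup.mk_mul, QuotientGroup.mk_mul, h1, one_mul, QuotientGroup.mk_inv]

theorem exists_dq (x y : G) : ∃ k ∈ F.K,
    F.hat.d x (k * y) = F.dq.d (QuotientGroup.mk x) (QuotientGroup.mk y) := by
  have hne : {n | ∃ g : G, (QuotientGroup.mk g : G ⧸ F.K) =
      (QuotientGroup.mk x)⁻¹ * QuotientGroup.mk y ∧ F.hat.l g = n}.Nonempty :=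
    ⟨_, x⁻¹ * y, by rw [QuotientGroup.mk_mul, QuotientGroup.mk_inv], rfl⟩
  obtain ⟨g, h1, h2⟩ := Nat.sInf_mem hne
  refine ⟨x * g * y⁻¹, ?_, ?_⟩
  · rw [← QuotientGroup.eq_one_iff, QuotientGroup.mk_mul, QuotientGroup.mk_mul, h1,
      QuotientGroup.mk_inv]
    group
  · have h3 : x⁻¹ * (x * g * y⁻¹ * y) = g := by group
    unfold Len.d
    rw [h3, h2]
    rfl

theorem exists_dq' (x : G) (q : G ⧸ F.K) : ∃ y : G, QuotientGroup.mk y = q ∧
    F.hat.d x y = F.dq.d (QuotientGroup.mk x) q := by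
  obtain ⟨y, rfl⟩ := QuotientGroup.mk_surjective q
  obtain ⟨k, hk, h1⟩ := F.exists_dq x y
  refine ⟨k * y, ?_, h1⟩
  have h2 : (QuotientGroup.mk k : G ⧸ F.K) = 1 := (QuotientGroup.eq_one_iff k).2 hk
  rw [QuotientGroup.mk_mul, h2, one_mul]

/-- QA4. Short projections: the distance survives. Proof: take `k` of `exists_dq`, induction on
`Red y k` (all `k` with `hat x (k*y) ≤ N` give `hat x y ≤ N`): in a step
`dp i x (k*y) ≥ dp i y (k*y) - dp i x y > 400 R`; `hat_rot`. -/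
theorem dq_eq (hH : L.Hyp P.D) {x y : G} (h : ∀ i, F.dp i x y + 841 * P.R ≤ F.t i) :
    F.dq.d (QuotientGroup.mk x) (QuotientGroup.mk y) = F.hat.d x y := by
  apply le_antisymm
  · have := F.dq_le x y (one_mem F.K)
    rwa [one_mul] at this
  · obtain ⟨k, hk, h1⟩ := F.exists_dq x y
    rw [← h1]
    have h2 := F.red hH y k hk
    clear h1 hk
    induction h2 with
    | one => rw [one_mul]
    | step i n k ht _ ih =>
      refine ih.trans ?_
      rw [mul_assoc]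
      refine F.hat_rot hH i ?_ (F.e_zpow_smul i _)
      have h3 := F.dp_tri hH i y x (k * y)
      have h4 := F.dp_symm i y x
      have h5 := h i
      have h6 := R_facts P
      omega

/-- QA5. Closing a quadrilateral. Proof: induction on `Red x₀ k`: in a step one of the four sides has
`dp i > 400 R` (`dp_tri`, `t i ≥ 4000 R`); rotate everything behind this side by
`e i ^ (p * j)` (`hat_rot`). -/
theorem close4 (hH : L.Hyp P.D) {k : G} (hk : k ∈ F.K) (x₀ x₁ x₂ x₃ : G) :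
    ∃ k₁ ∈ F.K, ∃ k₂ ∈ F.K, ∃ k₃ ∈ F.K,
      F.hat.d x₀ (k₁ * x₁) ≤ F.hat.d x₀ x₁ ∧ F.hat.d (k₁ * x₁) (k₂ * x₂) ≤ F.hat.d x₁ x₂ ∧
      F.hat.d (k₂ * x₂) (k₃ * x₃) ≤ F.hat.d x₂ x₃ ∧
      F.hat.d (k₃ * x₃) x₀ ≤ F.hat.d x₃ (k * x₀) := by
  have h2 := F.red hH x₀ k hk
  clear hk
  induction h2 generalizing x₁ x₂ x₃ with
  | one =>
    refine ⟨1, one_mem _, 1, one_mem _, 1, one_mem _, ?_⟩
    simp only [one_mul]
    exact ⟨le_rfl, le_rfl, le_rfl, le_rfl⟩
  | step i n k ht _ ih =>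
    have hg := F.mem_K i n
    have hgi := F.e_zpow_smul i (P.p * n)
    set g := F.e i ^ ((P.p : ℤ) * n) with hgdef
    have h3 := F.dp_tri hH i x₀ x₁ (k * x₀)
    have h4 := F.dp_tri hH i x₁ x₂ (k * x₀)
    have h5 := F.dp_tri hH i x₂ x₃ (k * x₀)
    have h6 := R_facts P
    have h7 := F.t_big i
    have h8 : 400 * P.R < F.dp i x₀ x₁ ∨ 400 * P.R < F.dp i x₁ x₂ ∨
        400 * P.R < F.dp i x₂ x₃ ∨ 400 * P.R < F.dp i x₃ (k * x₀) := by omega
    rcases h8 with h8 | h8 | h8 | h8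
    · obtain ⟨k₁, hk₁, k₂, hk₂, k₃, hk₃, a1, a2, a3, a4⟩ := ih (g * x₁) (g * x₂) (g * x₃)
      refine ⟨k₁ * g, mul_mem hk₁ hg, k₂ * g, mul_mem hk₂ hg, k₃ * g, mul_mem hk₃ hg, ?_⟩
      rw [Len.d_smul] at a2 a3
      rw [mul_assoc g k x₀, Len.d_smul] at a4
      simp only [mul_assoc]
      exact ⟨a1.trans (F.hat_rot hH i h8 hgi), a2, a3, a4⟩
    · obtain ⟨k₁, hk₁, k₂, hk₂, k₃, hk₃, a1, a2, a3, a4⟩ := ih x₁ (g * x₂) (g * x₃)
      refine ⟨k₁, hk₁, k₂ * g, mul_mem hk₂ hg, k₃ * g, mul_mem hk₃ hg, ?_⟩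
      rw [Len.d_smul] at a3
      rw [mul_assoc g k x₀, Len.d_smul] at a4
      simp only [mul_assoc]
      exact ⟨a1, a2.trans (F.hat_rot hH i h8 hgi), a3, a4⟩
    · obtain ⟨k₁, hk₁, k₂, hk₂, k₃, hk₃, a1, a2, a3, a4⟩ := ih x₁ x₂ (g * x₃)
      refine ⟨k₁, hk₁, k₂, hk₂, k₃ * g, mul_mem hk₃ hg, ?_⟩
      rw [mul_assoc g k x₀, Len.d_smul] at a4
      simp only [mul_assoc]
      exact ⟨a1, a2, a3.trans (F.hat_rot hH i h8 hgi), a4⟩
    · obtain ⟨k₁, hk₁, k₂, hk₂, k₃, hk₃, a1, a2, a3, a4⟩ := ih x₁ x₂ x₃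
      refine ⟨k₁, hk₁, k₂, hk₂, k₃, hk₃, a1, a2, a3, a4.trans ?_⟩
      rw [mul_assoc]
      exact F.hat_rot hH i h8 hgi

/-- QA6. Proof: lift the four sides (`exists_dq'`), `close4`; the diagonals are estimated by the
diagonals upstairs; `hat_hyp`. -/
theorem dq_hyp (hH : L.Hyp P.D) : F.dq.Hyp P.D := by
  intro q₀ q₁ q₂ q₃
  obtain ⟨x₀, rfl⟩ := QuotientGroup.mk_surjective q₀
  obtain ⟨x₁, rfl, h1⟩ := F.exists_dq' x₀ q₁
  obtain ⟨x₂, rfl, h2⟩ := F.exists_dq' x₁ q₂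
  obtain ⟨x₃, rfl, h3⟩ := F.exists_dq' x₂ q₃
  obtain ⟨k, hk, h4⟩ := F.exists_dq x₃ x₀
  obtain ⟨k₁, hk₁, k₂, hk₂, k₃, hk₃, a1, a2, a3, a4⟩ := F.close4 hH hk x₀ x₁ x₂ x₃
  have h5 := F.hat_hyp hH x₀ (k₁ * x₁) (k₂ * x₂) (k₃ * x₃)
  have h6 := F.dq_le x₀ x₂ hk₂
  have h7 : F.dq.d (QuotientGroup.mk x₁) (QuotientGroup.mk x₃) ≤
      F.hat.d (k₁ * x₁) (k₃ * x₃) := by
    have h8 := F.dq_le (k₁ * x₁) x₃ hk₃
    have h9 : (QuotientGroup.mk (k₁ * x₁) : G ⧸ F.K) = QuotientGroup.mk x₁ := by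
      rw [QuotientGroup.mk_mul, (QuotientGroup.eq_one_iff k₁).2 hk₁, one_mul]
    rwa [h9] at h8
  have h10 := F.hat.d_comm x₀ (k₃ * x₃)
  have h11 := F.dq.d_comm (QuotientGroup.mk x₀) (QuotientGroup.mk x₃)
  omega

end Rot

end Pool.Agent.Beb
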