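import Pool.Agent.Work.MP_beb559_al.TA

/-!
# Toolbox B: powers, loxodromic elements, minimal displacement
-/

namespace Pool.Agent.Beb

variable {G : Type} [Group G] (L : Len G) {D : ℕ}

namespace TBaux

theorem d_pow_add (g x : G) (i k : ℕ) :
    L.d (g ^ i * x) (g ^ (i + k) * x) = L.d x (g ^ k * x) := by
  rw [pow_add, mul_assoc, L.d_smul]

theorem d_zpow_sub (g x : G) (i j : ℤ) :
    L.d (g ^ i * x) (g ^ j * x) = L.d x (g ^ (j - i) * x) := by
  have e : g ^ j * x = g ^ i * (g ^ (j - i) * x) := by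
    rw [← mul_assoc, ← zpow_add]
    congr 2
    omega
  rw [e, L.d_smul]

theorem d_pow_le (g y : G) (k : ℕ) : L.d y (g ^ k * y) ≤ k * L.d y (g * y) := by
  induction k with
  | zero => simp [L.d_self]
  | succ k ih =>
    have h1 := L.d_tri y (g ^ k * y) (g ^ (k + 1) * y)
    have h2 := d_pow_add L g y k 1
    rw [pow_one] at h2
    rw [h2] at h1
    calc L.d y (g ^ (k + 1) * y) ≤ L.d y (g ^ k * y) + L.d y (g * y) := h1
      _ ≤ k * L.d y (g * y) + L.d y (g * y) := by omega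
      _ = (k + 1) * L.d y (g * y) := by ring

theorem l_le (g y : G) : L.l g ≤ L.d y (g * y) + 2 * L.l y := by
  have h1 := L.d_tri 1 y g
  have h2 := L.d_tri y (g * y) g
  have h3 : L.d (g * y) g = L.l y := by
    have h4 := L.d_smul g y 1
    rw [mul_one, L.d_comm y 1, L.d_one] at h4
    exact h4
  rw [L.d_one] at h1
  rw [L.d_one] at h1
  omega

theorem d_le (g y : G) : L.d y (g * y) ≤ L.l g + 2 * L.l y := by
  have h1 := L.d_tri y 1 (g * y)
  have h2 := L.d_tri 1 g (g * y)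
  have h3 : L.d g (g * y) = L.l y := by
    have h4 := L.d_smul g 1 y
    rw [mul_one, L.d_one] at h4
    exact h4
  rw [L.d_comm y 1, L.d_one y] at h1
  rw [L.d_one g] at h2
  omega

theorem d_le_d (g x y : G) : L.d x (g * x) ≤ L.d y (g * y) + 2 * L.d x y := by
  have h1 := L.d_tri x y (g * x)
  have h2 := L.d_tri y (g * y) (g * x)
  have h3 := L.d_smul g y x
  have h4 := L.d_comm x y
  omega

theorem l_pow_le (g : G) (k : ℕ) : L.l (g ^ k) ≤ k * L.l g := by
  have h := d_pow_le L g 1 k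
  simpa [L.d_one] using h

theorem l_zpow (g : G) (j : ℤ) : L.l (g ^ j) = L.l (g ^ j.natAbs) := by
  rcases Int.natAbs_eq j with h | h
  · conv_lhs => rw [h]
    rw [zpow_natCast]
  · conv_lhs => rw [h]
    rw [zpow_neg, zpow_natCast, L.inv]

end TBaux

open TBaux

/-- TB1. Hint: with `a n = L.d x (g ^ n * x)`, four points `x, g*x, g^2*x, g^(n+1)*x` give
`a 2 + a n ≤ max (a 1 + a (n-1)) (a (n+1) + a 1) + D`; induction on `n`. -/
theorem grow (hH : L.Hyp D) {g x : G} {δ : ℕ} (hδ : 1 ≤ δ)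
    (h : L.d x (g * x) + D + δ ≤ L.d x (g ^ 2 * x)) (n : ℕ) (hn : 1 ≤ n) :
    L.d x (g ^ n * x) + δ ≤ L.d x (g ^ (n + 1) * x) := by
  induction n, hn using Nat.le_induction with
  | base =>
    rw [pow_one]
    have : (1 : ℕ) + 1 = 2 := rfl
    rw [this]
    omega
  | succ n hn ih =>
    have h1 := hH x (g * x) (g ^ 2 * x) (g ^ (n + 1 + 1) * x)
    have e1 : L.d (g * x) (g ^ (n + 1 + 1) * x) = L.d x (g ^ (n + 1) * x) := by
      have := d_pow_add L g x 1 (n + 1)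
      rw [pow_one] at this
      rw [← this]
      congr 3
      omega
    have e2 : L.d (g ^ 2 * x) (g ^ (n + 1 + 1) * x) = L.d x (g ^ n * x) := by
      have := d_pow_add L g x 2 n
      rw [← this]
      congr 3
      omega
    have e3 : L.d (g * x) (g ^ 2 * x) = L.d x (g * x) := by
      have := d_pow_add L g x 1 1
      rw [pow_one] at this
      exact this
    rw [e1, e2, e3] at h1
    omega

/-- TB1'. Hint: induction with `grow`. -/
theorem grow' (hH : L.Hyp D) {g x : G} {δ : ℕ} (hδ : 1 ≤ δ)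
    (h : L.d x (g * x) + D + δ ≤ L.d x (g ^ 2 * x)) (n : ℕ) :
    L.d x (g * x) + n * δ ≤ L.d x (g ^ (n + 1) * x) := by
  induction n with
  | zero => simp
  | succ n ih =>
    have h1 := grow L hH hδ h (n + 1) (by omega)
    calc L.d x (g * x) + (n + 1) * δ = L.d x (g * x) + n * δ + δ := by ring
      _ ≤ L.d x (g ^ (n + 1 + 1) * x) := by omega

/-- TB1''. Hint: `grow'`, `L.l (g ^ n) ≥ L.d x (g ^ n * x) - 2 * L.l x` and
`1 ≤ L.l (g ^ n)` for `1 ≤ n` (otherwise `g ^ n = 1`). -/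
theorem lox_of_grow (hH : L.Hyp D) {g x : G}
    (h : L.d x (g * x) + D < L.d x (g ^ 2 * x)) : Lox L g := by
  refine ⟨2 * L.l x + 2, fun n => ?_⟩
  rcases Nat.eq_zero_or_pos n with h0 | h0
  · rw [h0]
    exact Nat.zero_le _
  obtain ⟨k, rfl⟩ : ∃ k, n = k + 1 := ⟨n - 1, by omega⟩
  have h1 := grow' L hH (g := g) (x := x) (δ := 1) le_rfl (by omega) k
  have h2 := d_le L (g ^ (k + 1)) x
  have h3 : 1 ≤ L.l (g ^ (k + 1)) := by
    by_contra hc
    have h4 : L.l (g ^ (k + 1)) = 0 := by omega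
    have h5 := L.eq_one _ h4
    rw [h5, one_mul, L.d_self] at h1
    have h6 : L.d x (g * x) = 0 := by omega
    have h7 : k = 0 := by omega
    rw [h7, zero_add, pow_one] at h5
    rw [h5] at h
    simp [L.d_self] at h
  have h4 : (2 * L.l x + 1) * 1 ≤ (2 * L.l x + 1) * L.l (g ^ (k + 1)) :=
    Nat.mul_le_mul_left _ h3
  have h5 : (2 * L.l x + 2) * L.l (g ^ (k + 1)) =
      (2 * L.l x + 1) * L.l (g ^ (k + 1)) + L.l (g ^ (k + 1)) := by ring
  omega

/-- `x` is a point of minimal displacement. -/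
def MinD (g x : G) : Prop := ∀ y : G, L.d x (g * x) ≤ L.d y (g * y)

theorem exists_minD (g : G) : ∃ x, MinD L g x := by
  have hne : {n | ∃ y : G, L.d y (g * y) = n}.Nonempty := ⟨_, 1, rfl⟩
  obtain ⟨x, hx⟩ := Nat.sInf_mem hne
  refine ⟨x, fun y => ?_⟩
  rw [hx]
  exact Nat.sInf_le ⟨y, rfl⟩

/-- TB2. Hint: `z` between `x` and `g*x` with `L.d x z = L.d x (g*x) / 2 = k > D`. Then
`L.d z (g*z) ≥ n`; `pt_le` type inequality (four points `z, g*z, x, g*x`) gives
`L.d x (g*z) ≥ n + k - D`; four points `x, g*x, g*z, g^2*x` give `L.d x (g^2*x) ≥ 2 n - 2 D`. -/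
theorem minD_two (hH : L.Hyp D) {g x : G} (hx : MinD L g x) (h : 3 * D < L.d x (g * x))
    (hD : 3 ≤ D) : 2 * L.d x (g * x) ≤ L.d x (g ^ 2 * x) + 2 * D := by
  obtain ⟨z, h1, h2⟩ := L.d_interp x (g * x) (L.d x (g * x) / 2) (by omega)
  have h3 := hx z
  have h4 := hH z x (g * z) (g * x)
  have h5 := L.d_smul g x z
  have h6 := L.d_comm (g * x) (g * z)
  have h7 := L.d_comm x z
  have h8 := hH x (g * x) (g * z) (g ^ 2 * x)
  have e3 : L.d (g * x) (g ^ 2 * x) = L.d x (g * x) := by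
    have := d_pow_add L g x 1 1
    rw [pow_one] at this
    exact this
  have e4 : L.d (g * z) (g ^ 2 * x) = L.d z (g * x) := by
    have e : g ^ 2 * x = g * (g * x) := by rw [pow_two, mul_assoc]
    rw [e, L.d_smul]
  rw [e3, e4] at h8
  omega

/-- TB3. -/
theorem minD_small (hH : L.Hyp D) (hD : 3 ≤ D) {g : G} (h : ¬ Lox L g) :
    ∃ x, L.d x (g * x) ≤ 3 * D := by
  obtain ⟨x, hx⟩ := exists_minD L g
  refine ⟨x, ?_⟩
  by_contra hc
  apply h
  have h1 := minD_two L hH hx (by omega) hD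
  exact lox_of_grow L hH (x := x) (by omega)

/-- TB4. Hint: `k * L.d y (g^n*y) ≥ L.d y (g^(k*n)*y) ≥ L.l (g^(k*n)) - 2 L.l y`, `k → ∞`. -/
theorem lox_all {g : G} {m : ℕ} (h : ∀ n : ℕ, n ≤ m * L.l (g ^ n)) (y : G) (n : ℕ) :
    n ≤ m * L.d y (g ^ n * y) := by
  by_contra hc
  push Not at hc
  set k := 2 * m * L.l y + 1 with hk
  have h1 := d_pow_le L (g ^ n) y k
  have h2 := l_le L ((g ^ n) ^ k) y
  have h3 := h (n * k)
  rw [pow_mul] at h3
  have h4 : m * L.l ((g ^ n) ^ k) ≤ m * (k * L.d y (g ^ n * y) + 2 * L.l y) :=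
    Nat.mul_le_mul_left _ (by omega)
  have h5 : k * (m * L.d y (g ^ n * y) + 1) ≤ k * n := Nat.mul_le_mul_left _ hc
  have h6 : k * (m * L.d y (g ^ n * y) + 1) ≤ m * (k * L.d y (g ^ n * y) + 2 * L.l y) := by
    calc k * (m * L.d y (g ^ n * y) + 1) ≤ k * n := h5
      _ = n * k := by ring
      _ ≤ _ := h3.trans h4
  have h7 : k * (m * L.d y (g ^ n * y) + 1) = m * (k * L.d y (g ^ n * y)) + k := by ring
  have h8 : m * (k * L.d y (g ^ n * y) + 2 * L.l y) =
      m * (k * L.d y (g ^ n * y)) + 2 * m * L.l y := by ring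
  omega

theorem lox_conj {g : G} (c : G) (h : Lox L g) : Lox L (c * g * c⁻¹) := by
  obtain ⟨m, hm⟩ := h
  refine ⟨m, fun n => ?_⟩
  have h1 := lox_all L hm c⁻¹ n
  have e : L.d c⁻¹ (g ^ n * c⁻¹) = L.l ((c * g * c⁻¹) ^ n) := by
    rw [conj_pow]
    unfold Len.d
    congr 1
    group
  rwa [e] at h1

theorem ell_conj {g : G} (c : G) (h : Ell L g) : Ell L (c * g * c⁻¹) := by
  obtain ⟨B, hB⟩ := h
  refine ⟨B + 2 * L.l c, fun n => ?_⟩
  have h1 := d_le L (g ^ n) c⁻¹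
  have h2 := hB n
  have e : L.d c⁻¹ (g ^ n * c⁻¹) = L.l ((c * g * c⁻¹) ^ n) := by
    rw [conj_pow]
    unfold Len.d
    congr 1
    group
  rw [e, L.inv] at h1
  omega

theorem lox_inv {g : G} (h : Lox L g) : Lox L g⁻¹ := by
  obtain ⟨m, hm⟩ := h
  refine ⟨m, fun n => ?_⟩
  rw [inv_pow, L.inv]
  exact hm n

theorem lox_zpow {g : G} (h : Lox L g) {j : ℤ} (hj : j ≠ 0) : Lox L (g ^ j) := by
  obtain ⟨m, hm⟩ := h
  refine ⟨m, fun n => ?_⟩
  have e : L.l ((g ^ j) ^ n) = L.l (g ^ (j.natAbs * n)) := by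
    have h1 : (g ^ j) ^ n = g ^ (j * (n : ℤ)) := by
      rw [zpow_mul, zpow_natCast]
    rw [h1, l_zpow, Int.natAbs_mul, Int.natAbs_natCast]
  rw [e]
  have h1 := hm (j.natAbs * n)
  have h2 : 1 * n ≤ j.natAbs * n := Nat.mul_le_mul_right _ (by omega)
  omega

theorem lox_of_zpow {g : G} {j : ℤ} (h : Lox L (g ^ j)) : Lox L g := by
  obtain ⟨m, hm⟩ := h
  refine ⟨m * j.natAbs, fun n => ?_⟩
  have e : L.l ((g ^ j) ^ n) = L.l ((g ^ n) ^ j.natAbs) := by
    have h1 : (g ^ j) ^ n = g ^ (j * (n : ℤ)) := by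
      rw [zpow_mul, zpow_natCast]
    rw [h1, l_zpow, Int.natAbs_mul, Int.natAbs_natCast, mul_comm, pow_mul]
  have h1 := hm n
  rw [e] at h1
  have h2 := l_pow_le L (g ^ n) j.natAbs
  calc n ≤ m * L.l ((g ^ n) ^ j.natAbs) := h1
    _ ≤ m * (j.natAbs * L.l (g ^ n)) := Nat.mul_le_mul_left _ h2
    _ = m * j.natAbs * L.l (g ^ n) := by ring

theorem not_lox_of_ell {g : G} (h : Ell L g) : ¬ Lox L g := by
  rintro ⟨m, hm⟩
  obtain ⟨B, hB⟩ := h
  have h1 := hm (m * B + 1)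
  have h2 : m * L.l (g ^ (m * B + 1)) ≤ m * B := Nat.mul_le_mul_left _ (hB _)
  omega

theorem not_lox_one : ¬ Lox L (1 : G) := by
  apply not_lox_of_ell
  exact ⟨0, fun n => by rw [one_pow, L.one]⟩

/-- Powers of loxodromic elements are not trivial. -/
theorem lox_zpow_ne {g : G} (h : Lox L g) {j : ℤ} (hj : j ≠ 0) : g ^ j ≠ 1 := by
  intro he
  have h1 := lox_zpow L h hj
  rw [he] at h1
  exact not_lox_one L h1

theorem lox_zpow_inj {g : G} (h : Lox L g) {i j : ℤ} (hij : g ^ i = g ^ j) : i = j := by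
  by_contra hc
  apply lox_zpow_ne L h (j := i - j) (by omega)
  rw [zpow_sub, hij, mul_inv_cancel]

/-- TB5. Powers move at least as much as the minimal displacement, up to `3 D`. Hint: if
`n = L.d x (g*x) > 3 D` then `grow'` at `x` with `δ = n - 3 D`; transfer to `y` by
`k * L.d y (g^j*y) ≥ L.d y (g^(j*k)*y) ≥ L.d x (g^(j*k)*x) - 2 L.d x y` for `k → ∞`. -/
theorem disp_pow (hH : L.Hyp D) (hD : 3 ≤ D) {g x : G} (hx : MinD L g x) (y : G) (j : ℕ)
    (hj : 1 ≤ j) : j * (L.d x (g * x) - 3 * D) ≤ L.d y (g ^ j * y) := by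
  rcases Nat.lt_or_ge (3 * D) (L.d x (g * x)) with h | h
  swap
  · have : L.d x (g * x) - 3 * D = 0 := by omega
    rw [this, mul_zero]
    exact Nat.zero_le _
  by_contra hc
  push Not at hc
  set δ := L.d x (g * x) - 3 * D with hδ
  have h1 := minD_two L hH hx h hD
  set k := 2 * L.d x y + 1 with hk
  have h2 : 1 ≤ j * k := Nat.mul_pos hj (by omega)
  obtain ⟨q, hq⟩ : ∃ q, j * k = q + 1 := ⟨j * k - 1, by omega⟩
  have h3 := grow' L hH (δ := δ) (by omega) (by omega : L.d x (g * x) + D + δ ≤ _) q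
  rw [← hq, pow_mul] at h3
  have h4 := d_le_d L ((g ^ j) ^ k) x y
  have h5 := d_pow_le L (g ^ j) y k
  have h6 : k * (L.d y (g ^ j * y) + 1) ≤ k * (j * δ) := Nat.mul_le_mul_left _ hc
  have h7 : k * (j * δ) = (j * k) * δ := by ring
  rw [h7, hq] at h6
  have h8 : k * (L.d y (g ^ j * y) + 1) = k * L.d y (g ^ j * y) + k := by ring
  have h9 : (q + 1) * δ = q * δ + δ := by ring
  omega

/-- TB5'. The step at a point cannot exceed the growth. If `L.d y (h^j*y) ≤ j * a` for all `j` and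
`g` shows growth `δ` at `z` then `δ ≤ a`. -/
theorem grow_le (hH : L.Hyp D) {g z y : G} {a δ : ℕ} (hδ : 1 ≤ δ)
    (h : L.d z (g * z) + D + δ ≤ L.d z (g ^ 2 * z)) (hy : L.d y (g * y) ≤ a) : δ ≤ a := by
  by_contra hc
  push Not at hc
  set N := a + 2 * L.d z y + 1 with hN
  have h1 := grow' L hH hδ h N
  have h2 := d_le_d L (g ^ (N + 1)) z y
  have h3 := d_pow_le L g y (N + 1)
  have h4 : (N + 1) * L.d y (g * y) ≤ (N + 1) * a := Nat.mul_le_mul_left _ hy
  have h5 : N * (a + 1) ≤ N * δ := Nat.mul_le_mul_left _ hc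
  have h6 : N * (a + 1) = N * a + N := by ring
  have h7 : (N + 1) * a = N * a + a := by ring
  omega

namespace TBaux

/-- Exponentials with different bases. -/
theorem exp_lt {a b : ℕ} (ha : 1 ≤ a) (hab : a < b) (M : ℕ) :
    ∃ k : ℕ, 1 ≤ k ∧ M * k * a ^ k < b ^ k := by
  have ha' : (0 : ℝ) < a := by exact_mod_cast ha
  have hr : (1 : ℝ) < (b : ℝ) / a := by
    rw [one_lt_div ha']
    exact_mod_cast hab
  have h1 := tendsto_pow_const_div_const_pow_of_one_lt 1 hr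
  have h2 : ∀ᶠ n : ℕ in Filter.atTop, (n : ℝ) ^ 1 / ((b : ℝ) / a) ^ n < 1 / ((M : ℝ) + 1) :=
    h1.eventually_lt_const (by positivity)
  obtain ⟨k, hk, hk1⟩ := (h2.and (Filter.eventually_ge_atTop 1)).exists
  refine ⟨k, hk1, ?_⟩
  have hrk : (0 : ℝ) < ((b : ℝ) / a) ^ k := by
    have : (0 : ℝ) < (b : ℝ) / a := by linarith
    positivity
  rw [pow_one, div_lt_div_iff₀ hrk (by positivity), one_mul, div_pow] at hk
  have hak : (0 : ℝ) < (a : ℝ) ^ k := by positivity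
  rw [lt_div_iff₀ hak] at hk
  have h3 : ((M * k * a ^ k : ℕ) : ℝ) < ((b ^ k : ℕ) : ℝ) := by
    push_cast
    have hkk : (0 : ℝ) ≤ (k : ℝ) * (a : ℝ) ^ k := by positivity
    nlinarith
  exact_mod_cast h3

end TBaux

/-- One direction of TB6. -/
theorem pow_conj_le {c g : G} (h : Lox L c) {a b : ℕ} (ha : 1 ≤ a)
    (e : g * c ^ a * g⁻¹ = c ^ b) : b ≤ a := by
  by_contra hc
  push Not at hc
  obtain ⟨m, hm⟩ := h
  have h1 : ∀ n : ℕ, L.l (c ^ (b * n)) ≤ L.l (c ^ (a * n)) + 2 * L.l g := by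
    intro n
    have e1 : c ^ (b * n) = g * c ^ (a * n) * g⁻¹ := by
      rw [pow_mul, ← e, conj_pow, ← pow_mul]
    rw [e1]
    have h2 := L.mul (g * c ^ (a * n)) g⁻¹
    have h3 := L.mul g (c ^ (a * n))
    rw [L.inv] at h2
    omega
  have h2 : ∀ i k : ℕ, L.l (c ^ (b ^ i * a ^ k)) ≤ a ^ (k + i) * L.l c + 2 * i * L.l g := by
    intro i
    induction i with
    | zero =>
      intro k
      have := l_pow_le L c (a ^ k)
      simpa using this
    | succ i ih =>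
      intro k
      have h3 := h1 (b ^ i * a ^ k)
      have e1 : b * (b ^ i * a ^ k) = b ^ (i + 1) * a ^ k := by ring
      have e2 : a * (b ^ i * a ^ k) = b ^ i * a ^ (k + 1) := by ring
      rw [e1, e2] at h3
      have h4 := ih (k + 1)
      have e3 : k + 1 + i = k + (i + 1) := by omega
      rw [e3] at h4
      have e4 : 2 * (i + 1) * L.l g = 2 * i * L.l g + 2 * L.l g := by ring
      omega
  obtain ⟨k, hk1, hk⟩ := exp_lt ha hc (m * (L.l c + 2 * L.l g))
  have h3 := h2 k 0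
  rw [pow_zero, mul_one, zero_add] at h3
  have h4 := hm (b ^ k)
  have h5 : a ^ k * L.l c ≤ k * a ^ k * L.l c := by
    have : 1 * (a ^ k * L.l c) ≤ k * (a ^ k * L.l c) := Nat.mul_le_mul_right _ hk1
    calc a ^ k * L.l c = 1 * (a ^ k * L.l c) := by ring
      _ ≤ k * (a ^ k * L.l c) := this
      _ = k * a ^ k * L.l c := by ring
  have h6 : 2 * k * L.l g ≤ k * a ^ k * (2 * L.l g) := by
    have h7 : 1 ≤ a ^ k := Nat.one_le_pow _ _ ha
    have : (2 * k * L.l g) * 1 ≤ (2 * k * L.l g) * a ^ k := Nat.mul_le_mul_left _ h7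
    calc 2 * k * L.l g = (2 * k * L.l g) * 1 := by ring
      _ ≤ (2 * k * L.l g) * a ^ k := this
      _ = k * a ^ k * (2 * L.l g) := by ring
  have h8 : m * L.l (c ^ b ^ k) ≤ m * (k * a ^ k * L.l c + k * a ^ k * (2 * L.l g)) :=
    Nat.mul_le_mul_left _ (by omega)
  have h9 : m * (k * a ^ k * L.l c + k * a ^ k * (2 * L.l g)) =
      m * (L.l c + 2 * L.l g) * k * a ^ k := by ring
  omega

/-- TB6. Equal translation lengths. Hint: `L.l (c^(b*m)) ≤ L.l (c^(a*m)) + 2 L.l g` for all `m`;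
iterating `L.l (c^(b^k)) ≤ a^k * L.l c + 2 k L.l g`; compare with `b^k ≤ m * L.l (c^(b^k))`. -/
theorem pow_conj_eq {c g : G} (h : Lox L c) {a b : ℕ} (ha : 1 ≤ a) (hb : 1 ≤ b)
    (e : g * c ^ a * g⁻¹ = c ^ b) : a = b := by
  apply le_antisymm
  · refine pow_conj_le L (g := g⁻¹) h hb ?_
    rw [← e]
    group
  · exact pow_conj_le L h ha e

/-- TB6'. -/
theorem zpow_conj_eq {c g : G} (h : Lox L c) {a b : ℤ} (ha : a ≠ 0)
    (e : g * c ^ a * g⁻¹ = c ^ b) : b = a ∨ b = -a := by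
  have hb : b ≠ 0 := by
    intro hb
    rw [hb, zpow_zero] at e
    apply lox_zpow_ne L h ha
    have : c ^ a = g⁻¹ * (g * c ^ a * g⁻¹) * g := by group
    rw [this, e]
    group
  have h1 : ∀ n : ℤ, g * c ^ (a * n) * g⁻¹ = c ^ (b * n) := by
    intro n
    rw [zpow_mul, zpow_mul, ← e, conj_zpow]
  have h2 : (g * g) * c ^ (a * a) * (g * g)⁻¹ = c ^ (b * b) := by
    have e1 : (g * g) * c ^ (a * a) * (g * g)⁻¹ = g * (g * c ^ (a * a) * g⁻¹) * g⁻¹ := by group
    rw [e1, h1 a, mul_comm b a, h1 b]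
  have h3 : (g * g) * c ^ (a.natAbs * a.natAbs) * (g * g)⁻¹ = c ^ (b.natAbs * b.natAbs) := by
    have e1 : (a * a : ℤ) = ((a.natAbs * a.natAbs : ℕ) : ℤ) := by
      rw [Nat.cast_mul, Int.natAbs_mul_self']
    have e2 : (b * b : ℤ) = ((b.natAbs * b.natAbs : ℕ) : ℤ) := by
      rw [Nat.cast_mul, Int.natAbs_mul_self']
    rw [e1, e2, zpow_natCast, zpow_natCast] at h2
    exact h2
  have h4 := pow_conj_eq L h (Nat.mul_pos (Int.natAbs_pos.2 ha) (Int.natAbs_pos.2 ha))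
    (Nat.mul_pos (Int.natAbs_pos.2 hb) (Int.natAbs_pos.2 hb)) h3
  have h5 : a.natAbs = b.natAbs := Nat.mul_self_inj.1 h4
  rcases Int.natAbs_eq_natAbs_iff.1 h5 with h6 | h6
  · left; exact h6.symm
  · right; omega

namespace TBaux

/-- Claim A/B of TB8 with natural exponents: `b J + b J' ≤ b (J + J') + a + 2 D`. -/
theorem axis_sum (hH : L.Hyp D) {v x : G} {a : ℕ}
    (ha : 2 * L.d x (v * x) ≤ L.d x (v ^ 2 * x) + a) (h : a + 2 * D < L.d x (v * x)) (J J' : ℕ) :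
    L.d x (v ^ J * x) + L.d x (v ^ J' * x) ≤ L.d x (v ^ (J + J') * x) + a + 2 * D := by
  have hA : ∀ J : ℕ, L.d x (v ^ J * x) + L.d x (v * x) ≤ L.d x (v ^ (J + 1) * x) + (a + D) := by
    intro J
    induction J with
    | zero => simp [L.d_self]
    | succ J ih =>
      have e1 : L.d (v ^ J * x) (v ^ (J + 1) * x) = L.d x (v * x) := by
        have := d_pow_add L v x J 1
        rwa [pow_one] at this
      have e2 : L.d (v ^ (J + 1) * x) (v ^ (J + 1 + 1) * x) = L.d x (v * x) := by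
        have := d_pow_add L v x (J + 1) 1
        rwa [pow_one] at this
      have e3 : L.d (v ^ J * x) (v ^ (J + 1 + 1) * x) = L.d x (v ^ 2 * x) :=
        d_pow_add L v x J 2
      have h1 := (chain L hH (w := x) (x := v ^ J * x) (y := v ^ (J + 1) * x)
        (z := v ^ (J + 1 + 1) * x) (a := a + D) (b := a) (by rw [e1]; omega)
        (by rw [e1, e2, e3]; omega) (by rw [e1]; omega)).2
      rw [e2] at h1
      omega
  rcases Nat.eq_zero_or_pos J with h0 | h0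
  · subst h0
    simp [L.d_self]
    omega
  rcases Nat.eq_zero_or_pos J' with h0' | h0'
  · subst h0'
    simp [L.d_self]
    omega
  obtain ⟨k, rfl⟩ : ∃ k, J' = k + 1 := ⟨J' - 1, by omega⟩
  have f1 : L.d (v ^ J * x) (v ^ (J + 1) * x) = L.d x (v * x) := by
    have := d_pow_add L v x J 1
    rwa [pow_one] at this
  have f2 : L.d (v ^ (J + 1) * x) (v ^ (J + (k + 1)) * x) = L.d x (v ^ k * x) := by
    have := d_pow_add L v x (J + 1) k
    rw [← this]
    congr 3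
    omega
  have f3 : L.d (v ^ J * x) (v ^ (J + (k + 1)) * x) = L.d x (v ^ (k + 1) * x) :=
    d_pow_add L v x J (k + 1)
  have g1 := hA J
  have g2 := hA k
  have g3 := (chain L hH (w := x) (x := v ^ J * x) (y := v ^ (J + 1) * x)
    (z := v ^ (J + (k + 1)) * x) (a := a + D) (b := a + D) (by rw [f1]; omega)
    (by rw [f1, f2, f3]; omega) (by rw [f1]; omega)).1
  rw [f3] at g3
  omega

/-- Two steps of TB8. -/
theorem axis_pts (hH : L.Hyp D) {p q r s z : G} {c : ℕ}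
    (h1 : L.d p q + L.d q r ≤ L.d p r + c) (h2 : L.d p r + L.d r s ≤ L.d p s + c)
    (hz : L.d q z + L.d z r = L.d q r) (h3 : c + D < 2 * L.d q z)
    (h4 : c + 3 * D < 2 * L.d z r) : L.d p z + L.d z s ≤ L.d p s + 2 * D := by
  have a1 := hH p q z r
  have a2 := L.d_tri p z r
  have a3 := L.d_tri p z s
  have a4 := hH p z r s
  have a5 := L.d_tri z r s
  omega

end TBaux

/-- TB8. Points of the axis. Proof: (1) there is `N ≥ 1` with
`L.d x (u^(2N)*x) > L.d x (u^N*x) + 2 D` (otherwise `L.d x (u^(2^k)*x) ≤ L.d x (u*x) + 2 k D`,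
contradicting `lox_all`). Put `v = u^N`, `x_j = v^j * x`,
`a = 2 L.d x (v*x) - L.d x (v^2*x) < L.d x (v*x) - 2 D`. (2) By `chain` and induction, for `J ≥ 1` the
triples `x_(-J), x_0, x_1` and then `x_(-J), x_0, x_J'` satisfy
`L.d + L.d ≤ L.d + a + 2 D` (errors do not accumulate: the triple `x_(-J), x_(-1), x_0` is a translate
of `x_(-J+1), x_0, x_1`; it has error `a + D`, together with the local triple `x_(-1), x_0, x_1`
`chain` gives `x_(-J), x_0, x_1` with error `a + D` again). (3) If `z` is between `x_(-J0)` and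
`x_(J0)` and at distance `≥ E := a + 10 D` from both, four points `x_(-J), x_(-J0), z, x_(J0)` show
that `z` is `D`-between `x_(-J)` and `x_(J0)`, and similarly `2 D`-between `x_(-J)` and `x_J`. -/
theorem axis (hH : L.Hyp D) (hD : 1 ≤ D) {u : G} (hu : Lox L u) (x : G) :
    ∃ N E : ℕ, 1 ≤ N ∧ ∀ (J0 : ℕ) (z : G), L.Btw ((u ^ (N * J0))⁻¹ * x) z (u ^ (N * J0) * x) →
      E ≤ L.d ((u ^ (N * J0))⁻¹ * x) z → E ≤ L.d z (u ^ (N * J0) * x) → ∀ J, J0 ≤ J →
      L.d ((u ^ (N * J))⁻¹ * x) z + L.d z (u ^ (N * J) * x) ≤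
        L.d ((u ^ (N * J))⁻¹ * x) (u ^ (N * J) * x) + 2 * D := by
  obtain ⟨m, hm⟩ := hu
  have hall := lox_all L hm x
  -- step 1
  have h1 : ∃ N : ℕ, 1 ≤ N ∧ L.d x (u ^ N * x) + 2 * D < L.d x (u ^ (N * 2) * x) := by
    by_contra hc
    push Not at hc
    have h2 : ∀ k : ℕ, L.d x (u ^ (2 ^ k) * x) ≤ L.d x (u * x) + 2 * k * D := by
      intro k
      induction k with
      | zero => simp
      | succ k ih =>
        have h3 := hc (2 ^ k) (Nat.one_le_pow _ _ (by omega))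
        rw [← pow_succ] at h3
        have e4 : 2 * (k + 1) * D = 2 * k * D + 2 * D := by ring
        omega
    obtain ⟨k, hk1, hk⟩ := exp_lt (a := 1) (b := 2) le_rfl (by omega)
      (m * (L.d x (u * x) + 2 * D))
    rw [one_pow, mul_one] at hk
    have h3 := hall (2 ^ k)
    have h4 : m * L.d x (u ^ 2 ^ k * x) ≤ m * (L.d x (u * x) + 2 * k * D) :=
      Nat.mul_le_mul_left _ (h2 k)
    have h5 : m * (L.d x (u * x) + 2 * k * D) ≤ m * (L.d x (u * x) + 2 * D) * k := by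
      have h6 : m * L.d x (u * x) * 1 ≤ m * L.d x (u * x) * k := Nat.mul_le_mul_left _ hk1
      calc m * (L.d x (u * x) + 2 * k * D) = m * L.d x (u * x) * 1 + m * 2 * k * D := by ring
        _ ≤ m * L.d x (u * x) * k + m * 2 * k * D := by omega
        _ = m * (L.d x (u * x) + 2 * D) * k := by ring
    omega
  obtain ⟨N, hN1, hN⟩ := h1
  obtain ⟨a, ha⟩ : ∃ a, 2 * L.d x (u ^ N * x) = L.d x ((u ^ N) ^ 2 * x) + a := by
    refine ⟨2 * L.d x (u ^ N * x) - L.d x ((u ^ N) ^ 2 * x), ?_⟩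
    have := d_pow_le L (u ^ N) x 2
    omega
  refine ⟨N, a + 10 * D, hN1, fun J0 z hz hz1 hz2 J hJ => ?_⟩
  have hs := axis_sum L hH (v := u ^ N) (x := x) (a := a) (by omega) (by
    rw [← pow_mul] at ha
    omega)
  obtain ⟨k, rfl⟩ : ∃ k, J = J0 + k := ⟨J - J0, by omega⟩
  have e0 : ∀ n : ℕ, u ^ (N * n) = (u ^ N) ^ n := fun n => pow_mul u N n
  simp only [e0] at hz hz1 hz2 ⊢
  set v := u ^ N with hv
  have f0 : ∀ n : ℕ, (v ^ n)⁻¹ * x = v ^ (-(n : ℤ)) * x := fun n => by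
    rw [zpow_neg, zpow_natCast]
  have f1 : ∀ n : ℕ, v ^ n * x = v ^ (n : ℤ) * x := fun n => by
    rw [zpow_natCast]
  have f2 : ∀ i j : ℕ, L.d ((v ^ (i + j))⁻¹ * x) ((v ^ i)⁻¹ * x) = L.d x (v ^ j * x) := by
    intro i j
    rw [f0, f0, f1, d_zpow_sub]
    congr 3
    push_cast
    ring
  have f3 : ∀ i j : ℕ, L.d ((v ^ i)⁻¹ * x) (v ^ j * x) = L.d x (v ^ (i + j) * x) := by
    intro i j
    rw [f0, f1, f1, d_zpow_sub]
    congr 3
    push_cast
    ring
  have f4 : ∀ i j : ℕ, L.d (v ^ i * x) (v ^ (i + j) * x) = L.d x (v ^ j * x) :=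
    fun i j => d_pow_add L v x i j
  have g1 := hs k (J0 + J0)
  have g2 := hs (J0 + k + J0) k
  refine axis_pts L hH (p := (v ^ (J0 + k))⁻¹ * x) (q := (v ^ J0)⁻¹ * x) (r := v ^ J0 * x)
    (s := v ^ (J0 + k) * x) (c := a + 2 * D) ?_ ?_ hz (by omega) (by omega)
  · rw [f2, f3, f3]
    have e : k + (J0 + J0) = J0 + k + J0 := by omega
    rw [e] at g1
    omega
  · rw [f3, f4, f3]
    have e : J0 + k + J0 + k = J0 + k + (J0 + k) := by omega
    rw [e] at g2
    omega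

/-- TB7. A loxodromic element moving the middle of a long segment along it: growth. -/
theorem lox_of_sh (hH : L.Hyp D) {a b z g : G} {T : ℕ} (ga : L.d a (g * a) ≤ T)
    (gb : L.d b (g * b) ≤ T) (hz : L.Btw a z b) (h1 : 2 * T + 5 * D ≤ L.d a z)
    (h2 : 2 * T + 5 * D ≤ L.d z b) :
    (L.d z (g * z) : ℤ) + |L.sh a b g| - 8 * D ≤ L.d z (g ^ 2 * z) := by
  have hz' : L.d a z + L.d z b = L.d a b := hz
  obtain ⟨s1, s2⟩ := sh_le L a b g
  obtain ⟨a1, a2, a3, a4, a5, a6, a7⟩ := transl L hH (z := z) (ε := 0) ga gb (by omega) (by omega)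
    (by omega)
  have hs : |L.sh a b g| ≤ (T : ℤ) := by
    refine s1.trans ?_
    exact_mod_cast ga
  rw [abs_le] at hs
  obtain ⟨b1, b2, b3, b4, b5, b6, b7⟩ := transl L hH (z := g * z) (ε := 3 * D) ga gb (by omega)
    (by push_cast at *; omega) (by push_cast at *; omega)
  have e : g ^ 2 * z = g * (g * z) := by rw [pow_two, mul_assoc]
  rw [e]
  have t1 := L.d_tri a z (g * (g * z))
  have t2 := L.d_tri (g * (g * z)) z b
  have t3 := L.d_comm z (g * (g * z))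
  push_cast at *
  rcases abs_cases (L.sh a b g) with ⟨c1, c2⟩ | ⟨c1, c2⟩
  · omega
  · omega

end Pool.Agent.Beb
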