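import Pool.Agent.Work.MP_beb559_al.QA
import Pool.Agent.Work.MP_beb559_al.TB

/-!
# Representatives of minimal displacement and their powers
-/

namespace Pool.Agent.Beb

namespace Rot

variable {P : Par} {G : Type} [Group G] {L : Len G} (F : Rot P L)

/-- RA0. A representative of minimal displacement. -/
theorem exists_min (q : G ⧸ F.K) : ∃ g x : G, QuotientGroup.mk g = q ∧
    ∀ k ∈ F.K, ∀ y, L.d x (g * x) ≤ L.d y (k * g * y) := by
  obtain ⟨g₀, hg₀⟩ := QuotientGroup.mk_surjective q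
  have hne : {n | ∃ g x : G, (QuotientGroup.mk g : G ⧸ F.K) = q ∧ L.d x (g * x) = n}.Nonempty :=
    ⟨_, g₀, 1, hg₀, rfl⟩
  obtain ⟨g, x, h1, h2⟩ := Nat.sInf_mem hne
  refine ⟨g, x, h1, fun k hk y => ?_⟩
  rw [h2]
  refine Nat.sInf_le ⟨k * g, y, ?_, rfl⟩
  rw [QuotientGroup.mk_mul, (QuotientGroup.eq_one_iff k).2 hk, one_mul, h1]

/-- The image of a point deep in the projection interval is close to `Y i`. -/
theorem near_moved (hH : L.Hyp P.D) {g : G} {i : F.I} {x y a b z : G} {n : ℕ}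
    (hx : L.d x (g * x) ≤ n) (hy : L.d y (g * y) ≤ n) (ha : a ∈ F.Y i) (hb : b ∈ F.Y i)
    (hab : L.d x a + L.d a b + L.d b y ≤ L.d x y + 15 * P.R1) (hz : L.Btw a z b)
    (h1 : 4 * n + 100 * P.R ≤ L.d a z) (h2 : 4 * n + 100 * P.R ≤ L.d z b) :
    ∃ w ∈ F.Y i, L.d (g * z) w ≤ P.R := by
  have hD := P.hD
  have hT0 := P.hT0
  have hT3 := P.hT3
  have hA := P.hA
  have hR1 := P.hR1
  have hR := P.hR
  unfold Len.Btw at hz
  have t1 := L.d_tri x z y
  have t2 := L.d_tri z b y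
  have t3 := L.d_tri x a z
  have t4 := L.d_tri a z y
  have e1 : L.d x z + L.d z y ≤ L.d x y + 15 * P.R1 := by omega
  obtain ⟨p1, p2, p3, p4, p5, -, -⟩ := transl L hH hx hy e1 (by omega) (by omega)
  have s1 := abs_le.1 (sh_le L x y g).1
  obtain ⟨z₁, hz₁, -, hd₁⟩ := near_btw L hH (a := x) (b := y) (z := g * z)
    (ε := 3 * P.D + 15 * P.R1) (by omega)
  obtain ⟨z₂, hz₂, hd₂⟩ := quad L hH a b hz₁
  have t5 := L.d_tri (g * z) z₁ z₂
  have t6 := L.d_tri x z₂ (g * z)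
  have t7 := L.d_tri (g * z) z₂ y
  have c1 := L.d_comm z₂ (g * z)
  rcases hz₂ with h | h | h
  · exfalso
    unfold Len.Btw at h
    omega
  · obtain ⟨w, hw, hd₃⟩ := F.qc i a ha b hb z₂ h
    refine ⟨w, hw, ?_⟩
    have t8 := L.d_tri (g * z) z₂ w
    omega
  · exfalso
    unfold Len.Btw at h
    omega

/-- Two points moved at most `n` by an element which does not fix `i` have close projections. -/
theorem dp_moved (hH : L.Hyp P.D) {g : G} {i : F.I} (hi : g • i ≠ i) {x y : G} {n : ℕ}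
    (hx : L.d x (g * x) ≤ n) (hy : L.d y (g * y) ≤ n) :
    F.dp i x y ≤ 10 * n + 800 * P.R := by
  by_contra hc
  have hD := P.hD
  have hT0 := P.hT0
  have hT3 := P.hT3
  have hA := P.hA
  have hR1 := P.hR1
  have hR := P.hR
  obtain ⟨a, ha⟩ := F.exists_nr i x
  obtain ⟨b, hb⟩ := F.exists_nr i y
  have h1 := F.dp_big hH ha hb (by omega)
  have h2 := F.dp_le_pt hH ha hb
  obtain ⟨z, hz1, hz2⟩ := L.d_interp a b (4 * n + 100 * P.R) (by omega)
  obtain ⟨z', hz1', hz2'⟩ := L.d_interp a b (L.d a b - (4 * n + 100 * P.R)) (by omega)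
  have hz : L.Btw a z b := by unfold Len.Btw; omega
  have hz' : L.Btw a z' b := by unfold Len.Btw; omega
  obtain ⟨w, hw, hd⟩ := F.near_moved hH hx hy ha.1 hb.1 h1 hz (by omega) (by omega)
  obtain ⟨w', hw', hd'⟩ := F.near_moved hH hx hy ha.1 hb.1 h1 hz' (by omega) (by omega)
  obtain ⟨v, hv, he⟩ := F.qc i a ha.1 b hb.1 z hz
  obtain ⟨v', hv', he'⟩ := F.qc i a ha.1 b hb.1 z' hz'
  have h3 := F.ov i (g • i) (Ne.symm hi) (g * z) (g * z') ⟨w, hw, hd⟩
    ⟨g * v, F.smul g i v hv, by rw [L.d_smul]; omega⟩ ⟨w', hw', hd'⟩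
    ⟨g * v', F.smul g i v' hv', by rw [L.d_smul]; omega⟩
  rw [L.d_smul] at h3
  have t1 := L.d_tri a z z'
  omega

/-- RA1. If `g` does not fix `i`, the powers of `g` project to a bounded set of `Y i`. -/
theorem dp_pow (hH : L.Hyp P.D) {g : G} {i : F.I} (hi : g • i ≠ i) (x : G) (m : ℕ) :
    F.dp i x (g ^ m * x) ≤ 10 * L.d x (g * x) + 800 * P.R := by
  refine F.dp_moved hH hi le_rfl ?_
  have h1 : g * (g ^ m * x) = g ^ m * (g * x) := by
    rw [← mul_assoc, ← mul_assoc, ← pow_succ, ← pow_succ']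
  rw [h1, L.d_smul]

/-- One step of the orbit. -/
theorem orb_step (g x : G) (b : ℕ) : L.d (g ^ b * x) (g ^ (b + 1) * x) = L.d x (g * x) := by
  have h1 : g ^ (b + 1) * x = g ^ b * (g * x) := by rw [pow_succ, mul_assoc]
  rw [h1, L.d_smul]

theorem orb_shift (g x : G) (a b : ℕ) (h : a ≤ b) :
    L.d (g ^ a * x) (g ^ b * x) = L.d x (g ^ (b - a) * x) := by
  have h1 : g ^ b * x = g ^ a * (g ^ (b - a) * x) := by
    rw [← mul_assoc, ← pow_add, Nat.add_sub_cancel' h]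
  rw [h1, L.d_smul]

theorem orb_one (hH : L.Hyp P.D) {g x : G} (hx : MinD L g x) (hn : 10 * P.D ≤ L.d x (g * x))
    (k : ℕ) : L.d x (g * x) + L.d (g * x) (g ^ (k + 1) * x) ≤ L.d x (g ^ (k + 1) * x) +
      3 * P.D := by
  have hD := P.hD
  have h2 := minD_two L hH hx (by omega) (by omega)
  have e2 : L.d (g * x) (g ^ 2 * x) = L.d x (g * x) := by
    have := orb_step (L := L) g x 1
    rwa [pow_one] at this
  induction k with
  | zero =>
    rw [zero_add, pow_one, L.d_self]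
    omega
  | succ k ih =>
    have e3 : L.d (g * x) (g ^ (k + 1 + 1) * x) = L.d x (g ^ (k + 1) * x) := by
      have := orb_shift (L := L) g x 1 (k + 1 + 1) (by omega)
      rwa [pow_one] at this
    have e4 : L.d (g ^ 2 * x) (g ^ (k + 1 + 1) * x) = L.d (g * x) (g ^ (k + 1) * x) := by
      have h3 := orb_shift (L := L) g x 2 (k + 1 + 1) (by omega)
      have h4 := orb_shift (L := L) g x 1 (k + 1) (by omega)
      rw [pow_one] at h4
      rw [h3, h4, show k + 1 + 1 - 2 = k + 1 - 1 from by omega]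
    have := (chain L hH (w := x) (x := g * x) (y := g ^ 2 * x) (z := g ^ (k + 1 + 1) * x)
      (a := 2 * P.D) (b := 3 * P.D) (by omega) (by omega) (by omega)).1
    omega

theorem orb_last (hH : L.Hyp P.D) {g x : G} (hx : MinD L g x) (hn : 10 * P.D ≤ L.d x (g * x))
    (k : ℕ) : L.d x (g ^ k * x) + L.d x (g * x) ≤ L.d x (g ^ (k + 1) * x) + 3 * P.D := by
  have hD := P.hD
  have h2 := minD_two L hH hx (by omega) (by omega)
  induction k with
  | zero =>
    rw [zero_add, pow_one, pow_zero, one_mul, L.d_self]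
    omega
  | succ k ih =>
    have e1 := orb_step (L := L) g x k
    have e2 := orb_step (L := L) g x (k + 1)
    have e3 : L.d (g ^ k * x) (g ^ (k + 1 + 1) * x) = L.d x (g ^ 2 * x) := by
      have := orb_shift (L := L) g x k (k + 1 + 1) (by omega)
      rw [this]
      congr 3
      omega
    have := (chain L hH (w := x) (x := g ^ k * x) (y := g ^ (k + 1) * x)
      (z := g ^ (k + 1 + 1) * x) (a := 3 * P.D) (b := 2 * P.D) (by omega) (by omega)
      (by omega)).2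
    omega

/-- RA2. The orbit of a point of minimal displacement `n ≥ 10 D` is a quasi-geodesic: `g^b*x` is
`4 D`-between `g^a*x` and `g^c*x` for `a ≤ b ≤ c`. -/
theorem orb_btw (hH : L.Hyp P.D) {g x : G} (hx : MinD L g x) (hn : 10 * P.D ≤ L.d x (g * x))
    (b c : ℕ) (h : b ≤ c) :
    L.d x (g ^ b * x) + L.d (g ^ b * x) (g ^ c * x) ≤ L.d x (g ^ c * x) + 4 * P.D := by
  have hD := P.hD
  rcases Nat.eq_or_lt_of_le h with h | h
  · subst h
    rw [L.d_self]
    omega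
  · obtain ⟨k, rfl⟩ : ∃ k, c = b + 1 + k := ⟨c - (b + 1), by omega⟩
    have h1 := orb_last hH hx hn b
    have h2 := orb_one hH hx hn k
    have e1 := orb_step (L := L) g x b
    have e2 := orb_shift (L := L) g x b (b + 1 + k) (by omega)
    have e3 := orb_shift (L := L) g x (b + 1) (b + 1 + k) (by omega)
    have e4 : L.d (g * x) (g ^ (k + 1) * x) = L.d x (g ^ k * x) := by
      have := orb_shift (L := L) g x 1 (k + 1) (by omega)
      rwa [pow_one] at this
    have e5 : b + 1 + k - b = k + 1 := by omega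
    have e6 : b + 1 + k - (b + 1) = k := by omega
    rw [e5] at e2
    rw [e6] at e3
    have := (chain L hH (w := x) (x := g ^ b * x) (y := g ^ (b + 1) * x)
      (z := g ^ (b + 1 + k) * x) (a := 3 * P.D) (b := 3 * P.D) (by omega) (by omega)
      (by omega)).1
    omega

/-- The part of the axis of a member along the orbit of an element which does not fix it has
length at most the displacement, up to `6 R`. -/
theorem len_le (hH : L.Hyp P.D) {g : G} {i : F.I} (hi : g • i ≠ i) {x : G} (hx : MinD L g x)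
    (hn : P.R ≤ L.d x (g * x)) (m : ℕ) {a b : G} (ha : F.Nr i (g ^ 2 * x) a)
    (hb : F.Nr i (g ^ (m + 2) * x) b)
    (hd : 24 * P.R1 < F.dp i (g ^ 2 * x) (g ^ (m + 2) * x)) :
    L.d a b ≤ L.d x (g * x) + 6 * P.R := by
  have hD := P.hD
  have hT0 := P.hT0
  have hT3 := P.hT3
  have hA := P.hA
  have hR1 := P.hR1
  have hR := P.hR
  have hn' : 10 * P.D ≤ L.d x (g * x) := by omega
  have e0 := F.dp_big hH ha hb hd
  have o1 := orb_btw hH hx hn' 2 (m + 4) (by omega)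
  have o2 := orb_btw hH hx hn' m (m + 2) (by omega)
  have o3 := orb_btw hH hx hn' 1 2 (by omega)
  have o4 := orb_btw hH hx hn' 1 (m + 4) (by omega)
  rw [pow_one] at o3 o4
  have e1 : L.d (g ^ 2 * x) (g ^ (m + 4) * x) = L.d x (g ^ (m + 2) * x) := by
    have := orb_shift (L := L) g x 2 (m + 4) (by omega)
    rwa [show m + 4 - 2 = m + 2 from by omega] at this
  have e2 : L.d (g ^ 2 * x) (g ^ (m + 2) * x) = L.d x (g ^ m * x) := by
    have := orb_shift (L := L) g x 2 (m + 2) (by omega)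
    rwa [show m + 2 - 2 = m from by omega] at this
  have e3 : L.d (g ^ m * x) (g ^ (m + 2) * x) = L.d x (g ^ 2 * x) := by
    have := orb_shift (L := L) g x m (m + 2) (by omega)
    rwa [show m + 2 - m = 2 from by omega] at this
  have e4 : L.d (g ^ (m + 2) * x) (g ^ (m + 4) * x) = L.d x (g ^ 2 * x) := by
    have := orb_shift (L := L) g x (m + 2) (m + 4) (by omega)
    rwa [show m + 4 - (m + 2) = 2 from by omega] at this
  have e5 : L.d (g * x) (g ^ 2 * x) = L.d x (g * x) := by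
    have := orb_step (L := L) g x 1
    rwa [pow_one] at this
  have tot : L.d x (g ^ 2 * x) + L.d (g ^ 2 * x) a + L.d a b + L.d b (g ^ (m + 2) * x) +
      L.d (g ^ (m + 2) * x) (g ^ (m + 4) * x) ≤ L.d x (g ^ (m + 4) * x) + 16 * P.R1 := by
    omega
  have hy : L.d (g ^ (m + 4) * x) (g * (g ^ (m + 4) * x)) ≤ L.d x (g * x) := by
    have h1 : g * (g ^ (m + 4) * x) = g ^ (m + 4 + 1) * x := by
      rw [← mul_assoc, ← pow_succ']
    rw [h1, orb_step]
  have key : ∀ z, L.Btw a z b → L.d x (g * x) + 50 * P.R1 < L.d z b →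
      ∃ w ∈ F.Y i, L.d (g * z) w ≤ P.R := by
    intro z hz hzb
    unfold Len.Btw at hz
    have t1 := L.d_tri x (g ^ 2 * x) z
    have t2 := L.d_tri (g ^ 2 * x) a z
    have t3 := L.d_tri z b (g ^ (m + 4) * x)
    have t4 := L.d_tri b (g ^ (m + 2) * x) (g ^ (m + 4) * x)
    have t5 := L.d_tri x z (g ^ (m + 4) * x)
    have f1 : L.d x z + L.d z (g ^ (m + 4) * x) ≤ L.d x (g ^ (m + 4) * x) + 16 * P.R1 := by
      omega
    obtain ⟨p1, p2, p3, p4, p5, -, -⟩ := transl L hH le_rfl hy f1 (by omega) (by omega)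
    have s1 := abs_le.1 (sh_le L x (g ^ (m + 4) * x) g).1
    have s2 : (L.d x (g * x) : ℤ) - 4 * P.D ≤ L.sh x (g ^ (m + 4) * x) g := by
      unfold Len.sh
      omega
    obtain ⟨z₁, hz₁, -, hd₁⟩ := near_btw L hH (a := x) (b := g ^ (m + 4) * x) (z := g * z)
      (ε := 3 * P.D + 16 * P.R1) (by omega)
    obtain ⟨z₂, hz₂, hd₂⟩ := quad L hH a b hz₁
    have t6 := L.d_tri (g * z) z₁ z₂
    have t7 := L.d_tri x z₂ (g * z)
    have t8 := L.d_tri (g * z) z₂ (g ^ (m + 4) * x)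
    have c1 := L.d_comm z₂ (g * z)
    have t9 := L.d_tri x (g ^ 2 * x) a
    rcases hz₂ with h | h | h
    · exfalso
      unfold Len.Btw at h
      omega
    · obtain ⟨w, hw, hd₃⟩ := F.qc i a ha.1 b hb.1 z₂ h
      refine ⟨w, hw, ?_⟩
      have t10 := L.d_tri (g * z) z₂ w
      omega
    · exfalso
      unfold Len.Btw at h
      omega
  by_contra hc
  obtain ⟨z, hz1, hz2⟩ := L.d_interp a b (5 * P.R + 1) (by omega)
  have hz : L.Btw a z b := by unfold Len.Btw; omega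
  obtain ⟨w, hw, hd1⟩ := key z hz (by omega)
  obtain ⟨w', hw', hd1'⟩ := key a (by unfold Len.Btw; rw [L.d_self]; omega) (by omega)
  obtain ⟨v, hv, he⟩ := F.qc i a ha.1 b hb.1 z hz
  have h3 := F.ov i (g • i) (Ne.symm hi) (g * a) (g * z) ⟨w', hw', hd1'⟩
    ⟨g * a, F.smul g i a ha.1, by rw [L.d_self]; omega⟩ ⟨w, hw, hd1⟩
    ⟨g * v, F.smul g i v hv, by rw [L.d_smul]; omega⟩
  rw [L.d_smul] at h3
  omega

/-- The orbit is a quasi-geodesic, general form. -/
theorem orb_btw' (hH : L.Hyp P.D) {g x : G} (hx : MinD L g x) (hn : 10 * P.D ≤ L.d x (g * x))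
    (a b c : ℕ) (h : a ≤ b) (h' : b ≤ c) :
    L.d (g ^ a * x) (g ^ b * x) + L.d (g ^ b * x) (g ^ c * x) ≤
      L.d (g ^ a * x) (g ^ c * x) + 4 * P.D := by
  have h1 := orb_btw hH hx hn (b - a) (c - a) (by omega)
  have e1 := orb_shift (L := L) g x a b h
  have e2 := orb_shift (L := L) g x b c h'
  have e3 := orb_shift (L := L) g x a c (h.trans h')
  have e4 := orb_shift (L := L) g x (b - a) (c - a) (by omega)
  rw [show c - a - (b - a) = c - b from by omega] at e4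
  omega

/-- Unwinding: if the projections of `w` and `y` are far apart, a rotation brings `y` closer. -/
theorem unwind (hH : L.Hyp P.D) {i : F.I} {w y : G}
    (h : F.t i ≤ F.dp i w y + 940 * P.R) :
    ∃ k ∈ F.K, L.d w (k * y) + F.t i ≤ L.d w y + 1900 * P.R := by
  have hD := P.hD
  have hT0 := P.hT0
  have hT3 := P.hT3
  have hA := P.hA
  have hR1 := P.hR1
  have hR := P.hR
  have hL : 80000 * P.R ≤ F.t i := by
    have h1 : 2 * (40000 * P.R) ≤ (P.A + 2) * (40000 * P.R) :=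
      Nat.mul_le_mul_right _ (by omega)
    have h2 := P.hL
    have h3 := F.t_big i
    omega
  obtain ⟨u, hu⟩ := F.exists_nr i w
  obtain ⟨v, hv⟩ := F.exists_nr i y
  have h1 := F.dp_le_pt hH hu hv
  have h2 := F.pi2 hH hu hv
  have h3 := abs_le.1 (F.h_dp i w y)
  have e1 := L.d_comm v y
  -- the estimate for a rotation `k` which changes `h` by `- sign δ * t`
  have key : ∀ k : G, k ∈ F.K → k • i = i →
      (|F.h i w - F.h i (k * y)| ≤ |(|F.h i w - F.h i y|) - F.t i| + P.R) →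
      ∃ k ∈ F.K, L.d w (k * y) + F.t i ≤ L.d w y + 1900 * P.R := by
    intro k hk hki hh
    refine ⟨k, hk, ?_⟩
    have hv' := F.nr_smul k hv
    rw [hki] at hv'
    have h4 := F.le_dp hH hu hv'
    have h5 := abs_le.1 (F.h_dp i w (k * y))
    have t1 := L.d_tri w u (k * y)
    have t2 := L.d_tri u (k * v) (k * y)
    have e2 := L.d_smul k v y
    rcases le_total (|F.h i w - F.h i y|) (F.t i) with hc | hc
    · rw [abs_of_nonpos (by omega : |F.h i w - F.h i y| - (F.t i : ℤ) ≤ 0)] at hh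
      omega
    · rw [abs_of_nonneg (by omega : 0 ≤ |F.h i w - F.h i y| - (F.t i : ℤ))] at hh
      omega
  rcases le_total (F.h i w) (F.h i y) with hc | hc
  · -- `δ ≥ 0`: rotate backwards
    refine key (F.e i ^ ((P.p : ℤ) * (-1))) (F.mem_K i (-1)) (F.e_zpow_smul i _) ?_
    have e3 : F.e i ^ ((P.p : ℤ) * (-1)) = (F.e i ^ P.p)⁻¹ := by
      rw [mul_neg_one, zpow_neg, zpow_natCast]
    rw [e3]
    have h6 := F.h_rot i ((F.e i ^ P.p)⁻¹ * y)
    rw [mul_inv_cancel_left] at h6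
    have h7 := abs_le.1 h6
    rw [abs_of_nonpos (by omega : F.h i w - F.h i y ≤ 0)]
    have h8 : F.h i w - F.h i ((F.e i ^ P.p)⁻¹ * y) =
      -((-(F.h i w - F.h i y)) - F.t i) + (F.h i y - F.h i ((F.e i ^ P.p)⁻¹ * y) - F.t i) := by
      ring
    rw [h8]
    refine (abs_add_le _ _).trans ?_
    rw [abs_neg]
    omega
  · refine key (F.e i ^ ((P.p : ℤ) * 1)) (F.mem_K i 1) (F.e_zpow_smul i _) ?_
    have e3 : F.e i ^ ((P.p : ℤ) * 1) = F.e i ^ P.p := by
      rw [mul_one, zpow_natCast]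
    rw [e3]
    have h6 := F.h_rot i y
    rw [abs_of_nonneg (by omega : 0 ≤ F.h i w - F.h i y)]
    have h8 : F.h i w - F.h i (F.e i ^ P.p * y) =
      ((F.h i w - F.h i y) - F.t i) + -(F.h i (F.e i ^ P.p * y) - F.h i y - F.t i) := by
      ring
    rw [h8]
    refine (abs_add_le _ _).trans ?_
    rw [abs_neg (F.h i (F.e i ^ P.p * y) - F.h i y - F.t i)]
    omega

theorem exists_step (f : ℕ → ℕ) (c M : ℕ) (h0 : f 0 ≤ c) (hM : c < f M) :
    ∃ j < M, f j ≤ c ∧ c < f (j + 1) := by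
  induction M with
  | zero => omega
  | succ M ih =>
    rcases Nat.lt_or_ge c (f M) with h | h
    · obtain ⟨j, h1, h2⟩ := ih h
      exact ⟨j, by omega, h2⟩
    · exact ⟨M, by omega, h, hM⟩

/-- Comparison of the projections of two pairs of points of a quasi-geodesic. -/
theorem dp_btw4 (hH : L.Hyp P.D) (i : F.I) {X x y Y : G}
    (hx : L.d X x + L.d x Y ≤ L.d X Y + 4 * P.D) (hy : L.d X y + L.d y Y ≤ L.d X Y + 4 * P.D) :
    F.dp i x y ≤ F.dp i X Y + 2 * P.R := by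
  have hD := P.hD
  have hT0 := P.hT0
  have hT3 := P.hT3
  have hA := P.hA
  have hR1 := P.hR1
  have hR := P.hR
  obtain ⟨x', hx', -, hdx⟩ := near_btw L hH hx
  obtain ⟨y', hy', -, hdy⟩ := near_btw L hH hy
  have q1 := F.dp_btw hH i hx' hy'
  have q2 := F.dp_tri hH i x x' y
  have q3 := F.dp_tri hH i x' y' y
  have q4 := F.dp_le hH i x x'
  have q5 := F.dp_le hH i y' y
  have q6 := L.d_comm y' y
  omega

/-- The position of the nearest point of an earlier point. -/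
theorem pos_lt (hH : L.Hyp P.D) {i : F.I} {X x y a a₀ b₀ : G}
    (ha : F.Nr i X a) (ha₀ : F.Nr i x a₀) (hb₀ : F.Nr i y b₀)
    (hx : L.d X x + L.d x y ≤ L.d X y + 4 * P.D) (hdp : 100 * P.R ≤ F.dp i x y) :
    L.d X a < L.d X y := by
  have hD := P.hD
  have hT0 := P.hT0
  have hT3 := P.hT3
  have hA := P.hA
  have hR1 := P.hR1
  have hR := P.hR
  have h1 := F.pi1 hH ha ha₀.1
  have h2 := F.dp_big hH ha₀ hb₀ (by omega)
  have h3 := F.dp_le_pt hH ha₀ hb₀
  have t1 := L.d_tri X x a₀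
  omega

/-- A point of the orbit path near a given point `a` of the segment. -/
theorem orb_near (hH : L.Hyp P.D) {g o : G} (ho : MinD L g o) (hn : 10 * P.D ≤ L.d o (g * o))
    (m : ℕ) {a : G} {ε : ℕ}
    (ha : L.d (g ^ 2 * o) a + L.d a (g ^ (m + 6) * o) ≤
      L.d (g ^ 2 * o) (g ^ (m + 6) * o) + ε)
    (hlt : L.d (g ^ 2 * o) a < L.d (g ^ 2 * o) (g ^ (m + 4) * o)) :
    ∃ w, L.d w a ≤ 9 * P.D + ε ∧ L.d w (g * w) ≤ L.d o (g * o) + 2 * P.D ∧
      L.d (g ^ 2 * o) (g * w) + L.d (g * w) (g ^ (m + 6) * o) ≤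
        L.d (g ^ 2 * o) (g ^ (m + 6) * o) + 8 * P.D ∧
      L.d (g ^ 2 * o) a + L.d o (g * o) ≤ L.d (g ^ 2 * o) (g * w) + 8 * P.D := by
  obtain ⟨j, hj, h1, h2⟩ := exists_step (fun j => L.d (g ^ 2 * o) (g ^ (j + 2) * o))
    (L.d (g ^ 2 * o) a) (m + 2) (by
      show L.d (g ^ 2 * o) (g ^ (0 + 2) * o) ≤ _
      rw [zero_add, L.d_self]
      exact Nat.zero_le _) hlt
  have hstep : ∀ j : ℕ, L.d (g ^ j * o) (g ^ (j + 1) * o) = L.d o (g * o) := orb_step g o
  have hg : ∀ j : ℕ, g * (g ^ j * o) = g ^ (j + 1) * o := by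
    intro j
    rw [← mul_assoc, ← pow_succ']
  have hmv : ∀ j : ℕ, L.d (g ^ j * o) (g * (g ^ j * o)) ≤ L.d o (g * o) := by
    intro j
    rw [hg, hstep]
  have s1 : L.d (g ^ (j + 2) * o) (g ^ (j + 3) * o) = L.d o (g * o) := hstep (j + 2)
  have s2 : L.d (g ^ (j + 3) * o) (g ^ (j + 4) * o) = L.d o (g * o) := hstep (j + 3)
  have hb1 : L.d (g ^ 2 * o) (g ^ (j + 2) * o) ≤ L.d (g ^ 2 * o) a := h1
  have hb2 : L.d (g ^ 2 * o) a < L.d (g ^ 2 * o) (g ^ (j + 3) * o) := h2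
  clear h1 h2
  have t1 := L.d_tri (g ^ 2 * o) (g ^ (j + 2) * o) (g ^ (j + 3) * o)
  obtain ⟨w, hw1, hw2⟩ := L.d_interp (g ^ (j + 2) * o) (g ^ (j + 3) * o)
    (L.d (g ^ 2 * o) a - L.d (g ^ 2 * o) (g ^ (j + 2) * o)) (by omega)
  have hw : L.Btw (g ^ (j + 2) * o) w (g ^ (j + 3) * o) := by
    unfold Len.Btw
    omega
  have hdw := disp_qc L hH hw (hmv (j + 2)) (hmv (j + 3))
  have o1 := orb_btw' (L := L) hH ho hn 2 (j + 2) (m + 6) (by omega) (by omega)
  have o2 := orb_btw' (L := L) hH ho hn (j + 2) (j + 3) (m + 6) (by omega) (by omega)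
  have o3 := orb_btw' (L := L) hH ho hn 2 (j + 3) (m + 6) (by omega) (by omega)
  have o4 := orb_btw' (L := L) hH ho hn (j + 3) (j + 4) (m + 6) (by omega) (by omega)
  have o5 := orb_btw' (L := L) hH ho hn 2 (j + 3) (j + 4) (by omega) (by omega)
  have o6 := orb_btw' (L := L) hH ho hn 2 (j + 2) (j + 3) (by omega) (by omega)
  have g1 : L.d (g ^ (j + 3) * o) (g * w) = L.d (g ^ (j + 2) * o) w := by
    rw [← L.d_smul g (g ^ (j + 2) * o) w, hg]
  have g2 : L.d (g * w) (g ^ (j + 4) * o) = L.d w (g ^ (j + 3) * o) := by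
    rw [← L.d_smul g w (g ^ (j + 3) * o), hg]
  refine ⟨w, ?_, hdw, ?_, ?_⟩
  · have t2 := L.d_tri (g ^ 2 * o) (g ^ (j + 2) * o) w
    have t3 := L.d_tri w (g ^ (j + 3) * o) (g ^ (m + 6) * o)
    have t4 := L.d_tri (g ^ 2 * o) a (g ^ (m + 6) * o)
    have e1 := L.d_comm w (g ^ 2 * o)
    have := pt_le L hH (a := g ^ 2 * o) (b := g ^ (m + 6) * o) (z := a) (w := w) (ε := ε)
      (u := 8 * P.D) ha (by omega) (by omega)
    omega
  · have t2 := L.d_tri (g ^ 2 * o) (g ^ (j + 3) * o) (g * w)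
    have t3 := L.d_tri (g * w) (g ^ (j + 4) * o) (g ^ (m + 6) * o)
    omega
  · have t2 := L.d_tri (g ^ 2 * o) (g * w) (g ^ (j + 4) * o)
    omega

/-- If `b` is before `z` on the segment then `z` is between `b` and the end. -/
theorem btw_last (hH : L.Hyp P.D) {X Y a b z : G} {n : ℕ}
    (h1 : L.d X z + L.d z Y ≤ L.d X Y + 8 * P.D) (h2 : L.d X a + n ≤ L.d X z + 8 * P.D)
    (h3 : L.d a b ≤ n + 6 * P.R) : L.d b z + L.d z Y ≤ L.d b Y + 15 * P.R := by
  have hD := P.hD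
  have hT0 := P.hT0
  have hT3 := P.hT3
  have hA := P.hA
  have hR1 := P.hR1
  have hR := P.hR
  have t1 := L.d_tri X a b
  have t2 := L.d_tri z b Y
  have e1 := L.d_comm z b
  have h4 := hH X b Y z
  rcases le_total (L.d X b + L.d Y z) (L.d X z + L.d b Y) with h | h
  · rw [max_eq_right h] at h4
    have e2 := L.d_comm z Y
    omega
  · rw [max_eq_left h] at h4
    have e2 := L.d_comm z Y
    omega

/-- The projections of `w` near `a` and of `z` beyond `b`. -/
theorem le_dp_of_near (hH : L.Hyp P.D) {i : F.I} {Y a b w z : G} {n : ℕ}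
    (ha : a ∈ F.Y i) (hb : F.Nr i Y b) (hwa : L.d w a ≤ 9 * P.D + 15 * P.R1)
    (hz : L.d b z + L.d z Y ≤ L.d b Y + 15 * P.R) (hab : n ≤ L.d a b + 903 * P.R) :
    n ≤ F.dp i w z + 940 * P.R := by
  have hD := P.hD
  have hT0 := P.hT0
  have hT3 := P.hT3
  have hA := P.hA
  have hR1 := P.hR1
  have hR := P.hR
  obtain ⟨u, hu⟩ := F.exists_nr i w
  obtain ⟨v, hv⟩ := F.exists_nr i z
  have h1 := F.nr_btw hH hb hz hv
  have h2 := F.le_dp hH hu hv
  have h3 := hu.2 a ha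
  have t1 := L.d_tri a w u
  have t2 := L.d_tri a u b
  have t3 := L.d_tri u v b
  have e1 := L.d_comm a w
  omega

theorem big_t (i : F.I) : 80000 * P.R ≤ F.t i := by
  have hT3 := P.hT3
  have hT0 := P.hT0
  have hA := P.hA
  have h1 : 2 * (40000 * P.R) ≤ (P.A + 2) * (40000 * P.R) :=
    Nat.mul_le_mul_right _ (by omega)
  have h2 := P.hL
  have h3 := F.t_big i
  omega

/-- The lengths of the two projections. -/
theorem dp_core1 (hH : L.Hyp P.D) {g o : G} (ho : MinD L g o) {i : F.I} (hi : g • i ≠ i)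
    (m : ℕ) (hn : P.R ≤ L.d o (g * o)) {a b : G} (ha : F.Nr i (g ^ 2 * o) a)
    (hb : F.Nr i (g ^ (m + 6) * o) b) {t : ℕ} (ht : 80000 * P.R ≤ t)
    (hc : t < F.dp i (g ^ 4 * o) (g ^ (m + 4) * o) + 900 * P.R) :
    L.d a b ≤ L.d o (g * o) + 6 * P.R ∧ t ≤ L.d a b + 903 * P.R ∧
      L.d (g ^ 2 * o) a + L.d a (g ^ (m + 6) * o) ≤
        L.d (g ^ 2 * o) (g ^ (m + 6) * o) + 15 * P.R1 := by
  have hD := P.hD
  have hT0 := P.hT0
  have hT3 := P.hT3
  have hA := P.hA
  have hR1 := P.hR1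
  have hR := P.hR
  have orb := orb_btw' (L := L) hH ho (by omega)
  have hdp := F.dp_btw4 hH i (orb 2 4 (m + 6) (by omega) (by omega))
    (orb 2 (m + 4) (m + 6) (by omega) (by omega))
  clear orb
  have h1 : 24 * P.R1 < F.dp i (g ^ 2 * o) (g ^ (m + 6) * o) := by omega
  have h2 := F.dp_le_pt hH ha hb
  have h3 := F.dp_big hH ha hb h1
  have t1 := L.d_tri a b (g ^ (m + 6) * o)
  refine ⟨F.len_le hH hi ho hn (m + 4) ha hb h1, ?_, ?_⟩
  · clear h3 t1
    omega
  · clear h2 hdp hc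
    omega

theorem dp_core (hH : L.Hyp P.D) {g o : G}
    (hmin : ∀ k ∈ F.K, ∀ y, L.d o (g * o) ≤ L.d y (k * g * y)) {i : F.I} (hi : g • i ≠ i)
    (m : ℕ) : F.dp i (g ^ 4 * o) (g ^ (m + 4) * o) + 900 * P.R ≤ F.t i := by
  by_contra hc
  rw [not_le] at hc
  have hL := F.big_t i
  have ho : MinD L g o := by
    intro y
    have := hmin 1 (one_mem _) y
    rwa [one_mul] at this
  have hmv : ∀ j : ℕ, L.d (g ^ j * o) (g * (g ^ j * o)) ≤ L.d o (g * o) := by
    intro j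
    rw [← mul_assoc, ← pow_succ', orb_step]
  -- the displacement is large
  have hn : 7000 * P.R ≤ L.d o (g * o) := by
    have h1 := F.dp_moved hH hi (hmv 4) (hmv (m + 4))
    omega
  have hRD : 100000 * P.D ≤ P.R := by
    have hT0 := P.hT0
    have hT3 := P.hT3
    have hA := P.hA
    have hR1 := P.hR1
    have hR := P.hR
    omega
  have hn' : 10 * P.D ≤ L.d o (g * o) := by omega
  obtain ⟨a, ha⟩ := F.exists_nr i (g ^ 2 * o)
  obtain ⟨b, hb⟩ := F.exists_nr i (g ^ (m + 6) * o)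
  obtain ⟨a₀, ha₀⟩ := F.exists_nr i (g ^ 4 * o)
  obtain ⟨b₀, hb₀⟩ := F.exists_nr i (g ^ (m + 4) * o)
  obtain ⟨c1, c2, c3⟩ := F.dp_core1 hH ho hi m (by omega) ha hb hL hc
  have hpos := F.pos_lt hH ha ha₀ hb₀
    (orb_btw' (L := L) hH ho hn' 2 4 (m + 4) (by omega) (by omega)) (by omega)
  obtain ⟨w, w1, w2, w3, w4⟩ := orb_near hH ho hn' m c3 hpos
  have w5 := btw_last hH w3 w4 c1
  have w6 := F.le_dp_of_near hH ha.1 hb w1 w5 c2
  obtain ⟨k, hk, hkw⟩ := F.unwind hH w6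
  have h9 := hmin k hk w
  rw [mul_assoc] at h9
  have hD := P.hD
  omega

/-- RA3. If the displacement is minimal in the coset then the powers have small projections. -/
theorem dp_pow_lt (hH : L.Hyp P.D) {g x : G}
    (hmin : ∀ k ∈ F.K, ∀ y, L.d x (g * x) ≤ L.d y (k * g * y)) {i : F.I} (hi : g • i ≠ i)
    (m : ℕ) : F.dp i x (g ^ m * x) + 900 * P.R ≤ F.t i := by
  have e1 : g * ((g ^ 4)⁻¹ * x) = (g ^ 4)⁻¹ * (g * x) := by
    rw [← mul_assoc, ← mul_assoc]
    congr 1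
    exact ((Commute.refl g).pow_right 4).inv_right
  have e2 : L.d ((g ^ 4)⁻¹ * x) (g * ((g ^ 4)⁻¹ * x)) = L.d x (g * x) := by
    rw [e1, L.d_smul]
  have h := F.dp_core hH (g := g) (o := (g ^ 4)⁻¹ * x) (fun k hk y => by
    rw [e2]
    exact hmin k hk y) hi m
  rw [mul_inv_cancel_left] at h
  have e3 : g ^ (m + 4) * ((g ^ 4)⁻¹ * x) = g ^ m * x := by
    rw [pow_add, mul_assoc, mul_inv_cancel_left]
  rwa [e3] at h

end Rot

end Pool.Agent.Beb
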