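import Pool.Agent.Work.MP_beb559_al.RA

/-!
# Trichotomy in the quotient, second part
-/

namespace Pool.Agent.Beb

/-- Powers move a point at most proportionally. -/
theorem Len.rb_d_pow_le {G : Type} [Group G] (L : Len G) (h y : G) (k : ℕ) :
    L.d y (h ^ k * y) ≤ k * L.d y (h * y) := by
  induction k with
  | zero => simp [L.d_self]
  | succ k ih =>
    have h1 := L.d_tri y (h * y) (h ^ (k + 1) * y)
    have h2 : L.d (h * y) (h ^ (k + 1) * y) = L.d y (h ^ k * y) := by
      rw [pow_succ', mul_assoc, L.d_smul]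
    rw [h2] at h1
    calc L.d y (h ^ (k + 1) * y) ≤ L.d y (h * y) + L.d y (h ^ k * y) := h1
      _ ≤ L.d y (h * y) + k * L.d y (h * y) := by omega
      _ = (k + 1) * L.d y (h * y) := by ring

/-- RA5. Linear growth at one point gives linear growth everywhere. -/
theorem Rot.growth_all {G' : Type} [Group G'] (L' : Len G') {g x : G'} {r : ℕ}
    (h : ∀ n : ℕ, n ≤ r * L'.d x (g ^ n * x)) (y : G') (n : ℕ) : n ≤ r * L'.d y (g ^ n * y) := by
  by_contra hc
  push Not at hc
  set a := L'.d y (g ^ n * y) with ha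
  set c := L'.d x y with hcdef
  -- for all `k`: `k * n ≤ r * (k * a + 2 * c)`
  have key : ∀ k : ℕ, k * n ≤ r * (k * a + 2 * c) := by
    intro k
    have h1 := h (n * k)
    have h2 : L'.d y (g ^ (n * k) * y) ≤ k * a := by
      rw [pow_mul]
      exact L'.rb_d_pow_le _ y k
    have h3 : L'.d x (g ^ (n * k) * x) ≤ c + L'.d y (g ^ (n * k) * y) + c := by
      have h4 := L'.d_tri x y (g ^ (n * k) * x)
      have h5 := L'.d_tri y (g ^ (n * k) * y) (g ^ (n * k) * x)
      have h6 : L'.d (g ^ (n * k) * y) (g ^ (n * k) * x) = c := by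
        rw [L'.d_smul, L'.d_comm]
      omega
    calc k * n = n * k := by ring
      _ ≤ r * L'.d x (g ^ (n * k) * x) := h1
      _ ≤ r * (k * a + 2 * c) := Nat.mul_le_mul_left _ (by omega)
  have h7 := key (2 * r * c + 1)
  have h8 : r * a + 1 ≤ n := hc
  have h9 : (2 * r * c + 1) * (r * a + 1) ≤ (2 * r * c + 1) * n := Nat.mul_le_mul_left _ h8
  have h10 : (2 * r * c + 1) * (r * a + 1) ≤ r * ((2 * r * c + 1) * a + 2 * c) := h9.trans h7
  nlinarith [h10]

namespace Rot

variable {P : Par} {G : Type} [Group G] {L : Len G} (F : Rot P L)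

/-- RA4. Loxodromic case. Proof: RA3, `dq_eq`, RA1, `hat_lower`. -/
theorem lox_case (hH : L.Hyp P.D) {g x : G}
    (hmin : ∀ k ∈ F.K, ∀ y, L.d x (g * x) ≤ L.d y (k * g * y)) (hi : ∀ i : F.I, g • i ≠ i)
    (m : ℕ) : L.d x (g ^ m * x) ≤ F.dq.d (QuotientGroup.mk x)
      ((QuotientGroup.mk g) ^ m * QuotientGroup.mk x) * (10 * L.d x (g * x) + 801 * P.R) := by
  have h1 : F.dq.d (QuotientGroup.mk x) (QuotientGroup.mk (g ^ m * x)) =
      F.hat.d x (g ^ m * x) := by
    apply F.dq_eq hH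
    intro i
    have := F.dp_pow_lt hH hmin (hi i) m
    omega
  have h2 : (QuotientGroup.mk (g ^ m * x) : G ⧸ F.K) =
      (QuotientGroup.mk g) ^ m * QuotientGroup.mk x := by
    rw [QuotientGroup.mk_mul, QuotientGroup.mk_pow]
  rw [h2] at h1
  rw [h1]
  have h3 := F.toQF.hat_lower hH (x := x) (b := g ^ m * x) (B := 10 * L.d x (g * x) + 800 * P.R)
    (fun i => F.dp_pow hH (hi i) x m)
  calc L.d x (g ^ m * x) ≤ F.hat.d x (g ^ m * x) * (10 * L.d x (g * x) + 800 * P.R + P.R) := h3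
    _ = _ := by ring_nf

theorem P_pos (P : Par) : 1 ≤ P.R ∧ 100 * P.D ≤ P.R ∧ 100 * P.R1 = P.R ∧ P.D ≤ P.R1 := by
  have := P.hD
  have := P.hT0
  have := P.hT3
  have := P.hA
  have := P.hR1
  have := P.hR
  omega

theorem one_mem_pres {g x : G} (hmin : ∀ k ∈ F.K, ∀ y, L.d x (g * x) ≤ L.d y (k * g * y)) :
    MinD L g x := by
  intro y
  have := hmin 1 (one_mem _) y
  rwa [one_mul] at this

/-- The quotient length is at most the hat length. -/
theorem dq_l_le (g : G) : F.dq.l (QuotientGroup.mk g) ≤ F.hat.l g := by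
  have h := F.dq_le 1 g (k := 1) (one_mem _)
  rw [one_mul] at h
  have h1 : F.dq.d (QuotientGroup.mk 1) (QuotientGroup.mk g) = F.dq.l (QuotientGroup.mk g) := by
    have : (QuotientGroup.mk (1 : G) : G ⧸ F.K) = 1 := rfl
    rw [this, Len.d_one]
  rw [h1, Len.d_one] at h
  exact h

theorem ell_quo_of_ell {g : G} (h : Ell L g) : Ell F.dq (QuotientGroup.mk g) := by
  obtain ⟨B, hB⟩ := h
  refine ⟨B, fun n => ?_⟩
  have h1 : ((QuotientGroup.mk g : G ⧸ F.K)) ^ n = QuotientGroup.mk (g ^ n) := by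
    rw [QuotientGroup.mk_pow]
  rw [h1]
  refine (F.dq_l_le _).trans ?_
  have h2 : F.hat.d 1 (g ^ n) ≤ B := by
    apply F.toQF.hat_le
    rw [Len.d_one]
    have := (P_pos P).1
    calc L.l (g ^ n) ≤ B := hB n
      _ = 1 * B := (one_mul _).symm
      _ ≤ P.R * B := Nat.mul_le_mul_right _ this
  rwa [Len.d_one] at h2

theorem ell_quo_of_fix {g : G} {i : F.I} (h : g • i = i) : Ell F.dq (QuotientGroup.mk g) := by
  obtain ⟨y, hy⟩ := F.ne i
  refine ⟨2 * F.hat.l y + 1, fun n => ?_⟩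
  have h1 : ((QuotientGroup.mk g : G ⧸ F.K)) ^ n = QuotientGroup.mk (g ^ n) := by
    rw [QuotientGroup.mk_pow]
  rw [h1]
  refine (F.dq_l_le _).trans ?_
  have hn : ∀ n : ℕ, (g ^ n) • i = i := by
    intro n
    induction n with
    | zero => rw [pow_zero, one_smul]
    | succ n ih => rw [pow_succ, mul_smul, h, ih]
  have h2 : F.hat.d y (g ^ n * y) ≤ 1 := by
    rw [F.toQF.hat_le_one]
    refine Or.inr ⟨i, hy, ?_⟩
    have := F.smul (g ^ n) i y hy
    rwa [hn n] at this
  have h3 := F.hat.d_tri 1 y (g ^ n)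
  have h4 := F.hat.d_tri y (g ^ n * y) (g ^ n)
  have h5 : F.hat.d (g ^ n * y) (g ^ n) = F.hat.l y := by
    have h6 := F.hat.d_smul (g ^ n) y 1
    rw [mul_one] at h6
    rw [h6, F.hat.d_comm, Len.d_one]
  have h7 : F.hat.d 1 (g ^ n) = F.hat.l (g ^ n) := Len.d_one _ _
  have h8 : F.hat.d 1 y = F.hat.l y := Len.d_one _ _
  omega

/-- RA6. Trichotomy for minimal representatives. -/
theorem tri_cases (hG : Geo P L) {g x : G}
    (hmin : ∀ k ∈ F.K, ∀ y, L.d x (g * x) ≤ L.d y (k * g * y)) :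
    (Ell L g ∧ L.d x (g * x) ≤ 3 * P.D ∧ Ell F.dq (QuotientGroup.mk g)) ∨
    (∃ i : F.I, ∃ j : ℤ, g = F.e i ^ j ∧ Ell F.dq (QuotientGroup.mk g)) ∨
    ((∀ i : F.I, g • i ≠ i) ∧ Lox L g ∧ Lox F.dq (QuotientGroup.mk g)) := by
  by_cases hfix : ∃ i : F.I, g • i = i
  · obtain ⟨i, hi⟩ := hfix
    right; left
    obtain ⟨j, hj⟩ := Subgroup.mem_zpowers_iff.1 (F.stab g i hi)
    exact ⟨i, j, hj.symm, F.ell_quo_of_fix hi⟩
  · push Not at hfix
    have hx := F.one_mem_pres hmin
    rcases hG.np g with he | hl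
    · left
      refine ⟨he, ?_, F.ell_quo_of_ell he⟩
      obtain ⟨x', hx'⟩ := minD_small L hG.hyp (by have := P.hD; omega) (not_lox_of_ell L he)
      exact (hx x').trans hx'
    · right; right
      refine ⟨hfix, hl, ?_⟩
      obtain ⟨m, hm⟩ := hl
      set C := 10 * L.d x (g * x) + 801 * P.R with hC
      refine ⟨m * C, fun n => ?_⟩
      have h1 : ∀ n : ℕ, n ≤ (m * C) * F.dq.d (QuotientGroup.mk x)
          ((QuotientGroup.mk g) ^ n * QuotientGroup.mk x) := by
        intro n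
        have h2 := lox_all L hm x n
        have h3 := F.lox_case hG.hyp hmin hfix n
        calc n ≤ m * L.d x (g ^ n * x) := h2
          _ ≤ m * (F.dq.d (QuotientGroup.mk x)
            ((QuotientGroup.mk g) ^ n * QuotientGroup.mk x) * C) := Nat.mul_le_mul_left _ h3
          _ = _ := by ring
      have h4 := growth_all F.dq h1 1 n
      rwa [mul_one, Len.d_one] at h4

/-- RA7. -/
theorem np_quo (hG : Geo P L) (q : G ⧸ F.K) : Ell F.dq q ∨ Lox F.dq q := by
  obtain ⟨g, x, rfl, hmin⟩ := F.exists_min q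
  rcases F.tri_cases hG hmin with ⟨_, _, h⟩ | ⟨_, _, _, h⟩ | ⟨_, _, h⟩
  · exact Or.inl h
  · exact Or.inl h
  · exact Or.inr h

/-- The generators of the axes have infinite order. -/
theorem e_zpow_eq_one (i : F.I) {m : ℤ} (h : F.e i ^ m = 1) : m = 0 := by
  by_contra hm
  obtain ⟨y, hy⟩ := F.ne i
  have h1 := F.rot i m hm y hy
  have h2 : F.e i ^ (P.p * m) = 1 := by
    rw [mul_comm, zpow_mul, h, one_zpow]
  rw [h2, one_mul, L.d_self] at h1
  have h3 := F.t_big i
  have h4 := P.hL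
  have h5 := (P_pos P).1
  have h6 : 0 < (P.A + 2) * (40000 * P.R) := by positivity
  omega

theorem L_big (P : Par) : 80000 * P.R ≤ P.L := by
  have h4 := P.hL
  have h5 := (P_pos P).1
  calc 80000 * P.R = 2 * (40000 * P.R) := by ring
    _ ≤ (P.A + 2) * (40000 * P.R) := Nat.mul_le_mul_right _ (by omega)
    _ ≤ P.L := h4

theorem p_big (P : Par) : 2 < P.p := by
  have h1 := P.hp
  have h2 := P.hr0
  have h3 := L_big P
  have h4 := (P_pos P).1
  have h5 : 2000 * 1 ≤ P.r0 := by omega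
  have h6 : 2000 * 80000 ≤ P.r0 * P.L := Nat.mul_le_mul (by omega) (by omega)
  omega

/-- RA8. Proof: `q = mk g`, `g` minimal. Case 1: `g*g ∈ K` is reducible at `x`; a step is impossible
since `dp i x (g*g*x) ≤ 6 D + 16 R1`; so `g*g = 1`. Case 2: `K_stab`, `p` odd, `e i` of infinite
order (`rot`). Case 3: impossible. -/
theorem two_quo (hG : Geo P L) (q : G ⧸ F.K) (h : q * q = 1) : q = 1 := by
  obtain ⟨g, x, rfl, hmin⟩ := F.exists_min q
  have hgg : g * g ∈ F.K := by
    rw [← QuotientGroup.mk_mul] at h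
    exact (QuotientGroup.eq_one_iff _).1 h
  rcases F.tri_cases hG hmin with ⟨_, h3, _⟩ | ⟨i, j, hj, _⟩ | ⟨_, _, h5⟩
  · have hred := F.red hG.hyp x (g * g) hgg
    have hcase : g * g = 1 := by
      generalize hk : g * g = k at hred
      cases hred with
      | one => rfl
      | step i j _ hs _ =>
        exfalso
        have h6 := F.toQF.dp_le hG.hyp i x (k * x)
        have h7 : L.d x (k * x) ≤ 6 * P.D := by
          rw [← hk]
          have h8 := L.d_tri x (g * x) (g * g * x)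
          have h9 : L.d (g * x) (g * g * x) = L.d x (g * x) := by
            rw [mul_assoc, L.d_smul]
          omega
        have h10 := F.t_big i
        have h11 := L_big P
        have h12 := P_pos P
        omega
    have : g = 1 := hG.two g hcase
    rw [this]
    rfl
  · have hfix : (g * g) • i = i := by
      rw [hj, ← zpow_add]
      exact F.e_zpow_smul i _
    obtain ⟨j', hj'⟩ := F.K_stab hG.hyp hgg hfix
    rw [hj, ← zpow_add] at hj'
    have h6 : F.e i ^ (j + j - P.p * j') = 1 := by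
      rw [zpow_sub, hj']
      exact mul_inv_cancel _
    have h7 := F.e_zpow_eq_one i h6
    have h8 : (P.p : ℤ) ∣ 2 * j := ⟨j', by linarith⟩
    have hp : Prime (P.p : ℤ) := Nat.prime_iff_prime_int.1 P.prime
    rcases hp.dvd_or_dvd h8 with h9 | h9
    · exfalso
      have h10 : P.p ∣ 2 := by exact_mod_cast h9
      have h11 := Nat.le_of_dvd (by norm_num) h10
      have := p_big P
      omega
    · obtain ⟨c, hc⟩ := h9
      rw [QuotientGroup.eq_one_iff, hj, hc]
      exact F.mem_K i c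
  · exfalso
    obtain ⟨m, hm⟩ := h5
    have h6 := hm 2
    have h7 : (QuotientGroup.mk g : G ⧸ F.K) ^ 2 = 1 := by rw [pow_two]; exact h
    rw [h7, F.dq.one] at h6
    omega

variable {E : Type} [Group E] (V : Subgroup E) (π : G →* E) (hK : F.K ≤ π.ker)

theorem kil_lift {g : G} (h : kil V (QuotientGroup.lift F.K π hK) (QuotientGroup.mk g)) :
    kil V π g := by
  unfold kil at *
  rwa [QuotientGroup.lift_mk] at h

/-- RA9. Killable loxodromic elements of the quotient have uniformly linear growth. Proof: only case 3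
of RA6 is possible, and `L.d x (g*x) > 50 D` by completeness of the family; RA4 and
`L.d x (g^m*x) ≥ m * (n - 3 D) ≥ m * n / 2` (`disp_pow`), RA5. -/
theorem rr_quo (hG : Geo P L)
    (full : ∀ g : G, kil V π g → Lox L g → (∃ x, L.d x (g * x) ≤ 50 * P.D) → ∃ i : F.I, g • i = i)
    (q : G ⧸ F.K) (hq : kil V (QuotientGroup.lift F.K π hK) q) (hl : Lox F.dq q)
    (x : G ⧸ F.K) (n : ℕ) : n ≤ P.r0 * F.dq.d x (q ^ n * x) := by
  obtain ⟨g, x₀, rfl, hmin⟩ := F.exists_min q
  have hkil : kil V π g := F.kil_lift V π hK hq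
  rcases F.tri_cases hG hmin with ⟨_, _, h⟩ | ⟨_, _, _, h⟩ | ⟨h1, h2, _⟩
  · exact absurd hl (not_lox_of_ell F.dq h)
  · exact absurd hl (not_lox_of_ell F.dq h)
  · have hbig : 50 * P.D < L.d x₀ (g * x₀) := by
      by_contra hc
      push Not at hc
      obtain ⟨i, hi⟩ := full g hkil h2 ⟨x₀, hc⟩
      exact h1 i hi
    refine growth_all F.dq (x := QuotientGroup.mk x₀) (fun m => ?_) x n
    rcases Nat.eq_zero_or_pos m with h0 | h0
    · omega
    have h3 := F.lox_case hG.hyp hmin h1 m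
    have h4 := disp_pow L hG.hyp (by have := P.hD; omega) (F.one_mem_pres hmin) x₀ m h0
    set N := L.d x₀ (g * x₀) with hN
    set Q := F.dq.d (QuotientGroup.mk x₀)
      ((QuotientGroup.mk g) ^ m * QuotientGroup.mk x₀) with hQ
    have hD := P.hD
    obtain ⟨u, hu⟩ : ∃ u, N = u + 3 * P.D := ⟨N - 3 * P.D, by omega⟩
    have hu' : N - 3 * P.D = u := by omega
    rw [hu'] at h4
    have h5 : 10 * N + 801 * P.R ≤ P.r0 * u := by
      have h6 := P.hr0
      have h7 := (P_pos P).1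
      have h8 : 2000 * P.R * u ≤ P.r0 * u := Nat.mul_le_mul_right _ h6
      have h9 : 1 ≤ u := by omega
      have h10 : N ≤ 2 * u := by omega
      nlinarith
    have h11 : m * u ≤ P.r0 * Q * u := by
      calc m * u ≤ L.d x₀ (g ^ m * x₀) := h4
        _ ≤ Q * (10 * N + 801 * P.R) := h3
        _ ≤ Q * (P.r0 * u) := Nat.mul_le_mul_left _ h5
        _ = P.r0 * Q * u := by ring
    exact Nat.le_of_mul_le_mul_right h11 (by omega)

/-- RA10. -/
theorem el_quo (hG : Geo P L)
    (el : ∀ g : G, kil V π g → Ell L g → g ^ P.p = 1)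
    (q : G ⧸ F.K) (hq : kil V (QuotientGroup.lift F.K π hK) q) (he : Ell F.dq q) :
    q ^ P.p = 1 := by
  obtain ⟨g, x₀, rfl, hmin⟩ := F.exists_min q
  have hkil : kil V π g := F.kil_lift V π hK hq
  rcases F.tri_cases hG hmin with ⟨h1, _, _⟩ | ⟨i, j, hj, _⟩ | ⟨_, _, h3⟩
  · rw [← QuotientGroup.mk_pow, el g hkil h1]
    rfl
  · rw [← QuotientGroup.mk_pow, QuotientGroup.eq_one_iff, hj, ← zpow_natCast, ← zpow_mul,
      mul_comm]
    exact F.mem_K i j
  · exact absurd h3 (not_lox_of_ell F.dq he)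

end Rot

end Pool.Agent.Beb
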