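import Pool.Agent.Work.MP_beb559_al.RB
import Pool.Agent.Work.MP_beb559_al.FC
import Pool.Agent.Work.MP_beb559_al.GC6
import Pool.Agent.Work.MP_beb559_al.MA
import Pool.Agent.Work.MP_beb559_al.MA2
import Pool.Agent.Work.MP_beb559_al.Main

/-!
# The step of the construction and the final theorem
-/

namespace Pool.Agent.Beb

/-- The step. -/
theorem stepStmt (P : Par) : StepStmt P := by
  intro G E _ _ V π F L hV hI
  obtain ⟨W, h1, h2, h3, h4⟩ := exists_rot hI hV
  have hH := hI.hyp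
  have hF : ∀ i, ∀ f₁ ∈ F, ∀ f₂ ∈ F, W.dp i f₁ f₂ ≤ 3 * P.R :=
    fun i f₁ hf₁ f₂ hf₂ => dp_F hI hV W h1 h2 i hf₁ hf₂
  refine ⟨W.K, inferInstance, h4, F_inj hH W hF, ?_, W.dq, ?_, ?_⟩
  · intro g hg hlox hx
    obtain ⟨i, hi⟩ := h3 g hg hlox hx
    obtain ⟨j, hj⟩ := Subgroup.mem_zpowers_iff.1 (W.stab g i hi)
    rw [← hj]
    have : (W.e i ^ j) ^ P.p = W.e i ^ (P.p * j) := by
      rw [mul_comm, zpow_mul, zpow_natCast]
    rw [this]
    exact W.mem_K i j
  · exact {
      hyp := W.dq_hyp hH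
      two := fun q hq => W.two_quo hI.toGeo q hq
      np := fun q => W.np_quo hI.toGeo q
      c1 := fun q r hqr => W.c1_quo hI.toGeo q r hqr
      c2 := fun q r hqr g hg h5 h6 => W.c2_quo hI.toGeo q r hqr g hg h5 h6
      rr := fun q hq hl x n => W.rr_quo V π h4 hI.toGeo h3 q hq hl x n
      el := fun q hq he => W.el_quo V π h4 hI.toGeo hI.el q hq he
      m1 := m1_quo hI W hF
      m2 := m2_quo hI W hF
      m3 := by
        rintro f ⟨f', hf', rfl⟩ hk
        exact hI.m3 f' hf' hk }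
  · intro g n hn
    have h5 := W.dq_le (1 : G) g (one_mem W.K)
    have h6 := W.hat_le 1 g n (by rw [Len.d_one]; exact hn)
    rw [one_mul] at h5
    have h7 : W.dq.l (QuotientGroup.mk g) = W.dq.d (QuotientGroup.mk 1) (QuotientGroup.mk g) := by
      rw [QuotientGroup.mk_one, Len.d_one]
    rw [h7]
    exact h5.trans h6

/-- The final theorem. -/
theorem main : ∃ (G : Type) (_ : Group G), Group.FG G ∧ InfGirth G ∧
    ∀ m : ℕ, ¬ Preforms G (FreeGroup (Fin m)) :=
  final_of_step stepStmt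

end Pool.Agent.Beb
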