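import Mathlib

/-!
# Statement of the problem: girth, convergence of marked groups, preforming
-/

namespace Pool.Agent.Beb

/-- The tuple `s` generates `G`. -/
def Gen {G : Type} [Group G] {k : ℕ} (s : Fin k → G) : Prop :=
  Subgroup.closure (Set.range s) = ⊤

/-- Infinite girth: for every `N` there is a finite generating tuple `s` such that no non-trivial
reduced word of length at most `N` in `s` is trivial. -/
def InfGirth (G : Type) [Group G] : Prop :=
  ∀ N : ℕ, ∃ (k : ℕ) (s : Fin k → G), Gen s ∧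
    ∀ w : FreeGroup (Fin k), w ≠ 1 → w.norm ≤ N → FreeGroup.lift s w ≠ 1

/-- The marked groups `(G, s n)` converge to `(H, t)`. -/
def Conv {G H : Type} [Group G] [Group H] {k : ℕ} (s : ℕ → Fin k → G) (t : Fin k → H) : Prop :=
  ∀ w : FreeGroup (Fin k), ∃ n₀ : ℕ, ∀ n ≥ n₀,
    (FreeGroup.lift (s n) w = 1 ↔ FreeGroup.lift t w = 1)

/-- `G` preforms `H`. -/
def Preforms (G H : Type) [Group G] [Group H] : Prop :=
  ∃ (k : ℕ) (s : ℕ → Fin k → G) (t : Fin k → H), (∀ n, Gen (s n)) ∧ Gen t ∧ Conv s t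

end Pool.Agent.Beb
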