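import Pool.Agent.Work.MP_beb559_al.LenGen

/-!
# Free products: reduced words
-/

namespace Pool.Agent.Beb

open Monoid

variable {ι : Type} {Gf : ι → Type} [∀ i, Group (Gf i)]

/-- Reduced lists of letters. -/
def Rd (l : List (Σ i, Gf i)) : Prop :=
  (∀ x ∈ l, x.2 ≠ 1) ∧ l.IsChain (fun x y => x.1 ≠ y.1)

/-- The product of a list of letters. -/
def lp (l : List (Σ i, Gf i)) : CoprodI Gf := (l.map (fun x => CoprodI.of x.2)).prod

theorem lp_nil : lp ([] : List (Σ i, Gf i)) = 1 := rfl

theorem lp_cons (x : Σ i, Gf i) (l : List (Σ i, Gf i)) : lp (x :: l) = CoprodI.of x.2 * lp l := by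
  simp [lp]

theorem lp_append (l l' : List (Σ i, Gf i)) : lp (l ++ l') = lp l * lp l' := by
  simp [lp]

/-- The inverse letter. -/
def li (x : Σ i, Gf i) : Σ i, Gf i := ⟨x.1, x.2⁻¹⟩

theorem of_inv {i : ι} (m : Gf i) : (CoprodI.of m⁻¹ : CoprodI Gf) = (CoprodI.of m)⁻¹ := by
  apply eq_inv_of_mul_eq_one_left
  rw [← map_mul, inv_mul_cancel, map_one]

theorem lp_inv (l : List (Σ i, Gf i)) : (lp l)⁻¹ = lp (l.map li).reverse := by
  induction l with
  | nil => simp [lp_nil]
  | cons x l ih =>
    rw [lp_cons, mul_inv_rev, ih, List.map_cons, List.reverse_cons, lp_append, lp_cons, lp_nil,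
      mul_one]
    exact congrArg _ (of_inv x.2).symm

theorem Rd.tail {x : Σ i, Gf i} {l : List (Σ i, Gf i)} (h : Rd (x :: l)) : Rd l :=
  ⟨fun y hy => h.1 y (List.mem_cons_of_mem _ hy), h.2.tail⟩

theorem Rd.inv {l : List (Σ i, Gf i)} (h : Rd l) : Rd (l.map li).reverse := by
  constructor
  · intro x hx
    rw [List.mem_reverse, List.mem_map] at hx
    obtain ⟨y, hy, rfl⟩ := hx
    exact inv_ne_one.2 (h.1 y hy)
  · rw [List.isChain_reverse, List.isChain_map]
    exact h.2.imp fun x y hxy => Ne.symm hxy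

/-- Concatenation of reduced lists. -/
theorem Rd.append {l l' : List (Σ i, Gf i)} (h : Rd l) (h' : Rd l')
    (hc : ∀ x ∈ l.getLast?, ∀ y ∈ l'.head?, x.1 ≠ y.1) : Rd (l ++ l') := by
  constructor
  · intro x hx
    rcases List.mem_append.1 hx with hx | hx
    · exact h.1 x hx
    · exact h'.1 x hx
  · exact List.isChain_append.2 ⟨h.2, h'.2, hc⟩

open Classical in
/-- The reduced word of an element. -/
noncomputable def wl (g : CoprodI Gf) : List (Σ i, Gf i) := (CoprodI.Word.equiv g).toList

theorem rd_wl (g : CoprodI Gf) : Rd (wl g) := by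
  classical
  exact ⟨(CoprodI.Word.equiv g).ne_one, (CoprodI.Word.equiv g).chain_ne⟩

theorem lp_wl (g : CoprodI Gf) : lp (wl g) = g := by
  classical
  exact CoprodI.Word.equiv.symm_apply_apply g

theorem wl_lp {l : List (Σ i, Gf i)} (h : Rd l) : wl (lp l) = l := by
  classical
  have h1 := CoprodI.Word.equiv.apply_symm_apply (⟨l, h.1, h.2⟩ : CoprodI.Word Gf)
  exact congrArg CoprodI.Word.toList h1

theorem wl_one : wl (1 : CoprodI Gf) = [] := wl_lp (l := []) ⟨by simp, by simp⟩

theorem wl_eq_nil {g : CoprodI Gf} (h : wl g = []) : g = 1 := by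
  rw [← lp_wl g, h, lp_nil]

theorem wl_inj {g h : CoprodI Gf} (e : wl g = wl h) : g = h := by
  rw [← lp_wl g, e, lp_wl]

/-- Multiplication by a letter increases the length by at most one. -/
theorem wl_of_mul (x : Σ i, Gf i) (g : CoprodI Gf) :
    (wl (CoprodI.of x.2 * g)).length ≤ (wl g).length + 1 := by
  obtain ⟨i, m⟩ := x
  by_cases hm : m = 1
  · subst hm; simp
  rcases hg : wl g with _ | ⟨⟨j, n⟩, l⟩
  · have hg1 := wl_eq_nil hg
    subst hg1
    have h1 : Rd ([⟨i, m⟩] : List (Σ i, Gf i)) := ⟨by simpa using hm, by simp⟩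
    have h2 := wl_lp h1
    rw [lp_cons, lp_nil] at h2
    simp only at h2
    rw [h2]
    simp
  · have hr : Rd ((⟨j, n⟩ : Σ i, Gf i) :: l) := hg ▸ rd_wl g
    have hgl : g = CoprodI.of n * lp l := by
      rw [← lp_wl g, hg, lp_cons]
    by_cases hij : i = j
    · subst hij
      by_cases hmn : m * n = 1
      · have h1 : CoprodI.of m * g = lp l := by
          rw [hgl, ← mul_assoc, ← map_mul, hmn, map_one, one_mul]
        show (wl (CoprodI.of m * g)).length ≤ _
        rw [h1, wl_lp hr.tail]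
        simp
        omega
      · have h1 : CoprodI.of m * g = lp ((⟨i, m * n⟩ : Σ i, Gf i) :: l) := by
          rw [hgl, ← mul_assoc, ← map_mul, lp_cons]
        have h2 : Rd ((⟨i, m * n⟩ : Σ i, Gf i) :: l) := by
          refine ⟨?_, ?_⟩
          · intro y hy
            rcases List.mem_cons.1 hy with rfl | hy
            · exact hmn
            · exact hr.1 y (List.mem_cons_of_mem _ hy)
          · have := hr.2
            rw [List.isChain_cons] at this ⊢
            exact this
        show (wl (CoprodI.of m * g)).length ≤ _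
        rw [h1, wl_lp h2]
        simp
    · have h1 : CoprodI.of m * g = lp ((⟨i, m⟩ : Σ i, Gf i) :: ⟨j, n⟩ :: l) := by
        rw [hgl, lp_cons, lp_cons]
      have h2 : Rd ((⟨i, m⟩ : Σ i, Gf i) :: ⟨j, n⟩ :: l) := by
        refine ⟨?_, ?_⟩
        · intro y hy
          rcases List.mem_cons.1 hy with rfl | hy
          · exact hm
          · exact hr.1 y hy
        · rw [List.isChain_cons_cons]
          exact ⟨hij, hr.2⟩
      show (wl (CoprodI.of m * g)).length ≤ _
      rw [h1, wl_lp h2]
      simp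

/-- The letters. -/
def Let (Gf : ι → Type) [∀ i, Group (Gf i)] : Set (CoprodI Gf) := {g | ∃ x : Σ i, Gf i, g = CoprodI.of x.2}

theorem closure_let : Subgroup.closure (Let Gf) = ⊤ := by
  rw [eq_top_iff]
  intro g _
  rw [← lp_wl g]
  generalize wl g = l
  induction l with
  | nil => exact one_mem _
  | cons x l ih =>
    rw [lp_cons]
    exact mul_mem (Subgroup.subset_closure ⟨x, rfl⟩) ih

/-- The syllable length. -/
noncomputable def syl (Gf : ι → Type) [∀ i, Group (Gf i)] : Len (CoprodI Gf) :=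
  Len.gen (Let Gf) closure_let

theorem syl_l (g : CoprodI Gf) : (syl Gf).l g = (wl g).length := by
  apply le_antisymm
  · rw [syl, Len.gen_le_iff]
    refine ⟨(wl g).map (fun x : Σ i, Gf i => CoprodI.of x.2), by simp, ?_, lp_wl g⟩
    intro s hs
    rw [List.mem_map] at hs
    obtain ⟨x, -, rfl⟩ := hs
    exact Or.inl ⟨x, rfl⟩
  · obtain ⟨w, h1, h2, h3⟩ := (Len.gen_le_iff closure_let g _).1 (le_refl ((syl Gf).l g))
    refine le_trans ?_ h1
    clear h1
    rw [← h3]
    clear h3
    induction w with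
    | nil => simp [wl_one]
    | cons s w ih =>
      have ih' := ih (fun t ht => h2 t (List.mem_cons_of_mem _ ht))
      rw [List.prod_cons, List.length_cons]
      have hs : ∃ x : Σ i, Gf i, s = CoprodI.of x.2 := by
        rcases h2 s (by simp) with h | ⟨x, hx⟩
        · exact h
        · exact ⟨⟨x.1, x.2⁻¹⟩, by rw [of_inv, ← hx, inv_inv]⟩
      obtain ⟨x, rfl⟩ := hs
      exact (wl_of_mul x _).trans (by omega)

end Pool.Agent.Beb
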