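import Pool.Agent.Work.MP_beb559_al.SylA

/-!
# Free products: the Gromov product of two elements
-/

namespace Pool.Agent.Beb

open Monoid

variable {ι : Type} {Gf : ι → Type} [∀ i, Group (Gf i)]

/-- The words `a`, `b` have distinct types of first letters (or one is empty). -/
def Sp (a b : List (Σ i, Gf i)) : Prop := ∀ x ∈ a.head?, ∀ y ∈ b.head?, x.1 ≠ y.1

/-- The words `a`, `b` have different first letters of the same type. -/
def Br (a b : List (Σ i, Gf i)) : Prop :=
  ∃ (i : ι) (m n : Gf i) (a' b' : List (Σ i, Gf i)), a = ⟨i, m⟩ :: a' ∧ b = ⟨i, n⟩ :: b' ∧ m ≠ n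

theorem sp_len {a b : List (Σ i, Gf i)} (ha : Rd a) (hb : Rd b) (h : Sp a b) :
    wl ((lp a)⁻¹ * lp b) = (a.map li).reverse ++ b := by
  rw [lp_inv, ← lp_append]
  refine wl_lp (ha.inv.append hb ?_)
  intro x hx y hy
  rw [List.getLast?_reverse, List.head?_map] at hx
  rcases a with _ | ⟨z, a⟩
  · simp at hx
  · simp only [List.head?_cons, Option.map_some, Option.mem_def, Option.some.injEq] at hx
    subst hx
    exact h z (by simp) y hy

theorem br_len {i : ι} {m n : Gf i} {a b : List (Σ i, Gf i)} (ha : Rd ((⟨i, m⟩ : Σ i, Gf i) :: a))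
    (hb : Rd ((⟨i, n⟩ : Σ i, Gf i) :: b)) (h : m ≠ n) :
    wl ((lp ((⟨i, m⟩ : Σ i, Gf i) :: a))⁻¹ * lp ((⟨i, n⟩ : Σ i, Gf i) :: b)) =
      (a.map li).reverse ++ (⟨i, m⁻¹ * n⟩ :: b) := by
  have h1 : (lp ((⟨i, m⟩ : Σ i, Gf i) :: a))⁻¹ * lp ((⟨i, n⟩ : Σ i, Gf i) :: b) =
      lp ((a.map li).reverse ++ (⟨i, m⁻¹ * n⟩ :: b)) := by
    rw [lp_append, ← lp_inv, lp_cons, lp_cons, lp_cons, mul_inv_rev]
    have : (CoprodI.of (m⁻¹ * n) : CoprodI Gf) = (CoprodI.of m)⁻¹ * CoprodI.of n := by
      rw [map_mul, of_inv]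
    rw [this]
    group
  rw [h1]
  refine wl_lp (ha.tail.inv.append ?_ ?_)
  · refine ⟨?_, ?_⟩
    · intro y hy
      rcases List.mem_cons.1 hy with rfl | hy
      · intro h2
        exact h (inv_mul_eq_one.1 h2)
      · exact hb.1 y (List.mem_cons_of_mem _ hy)
    · have := hb.2
      rw [List.isChain_cons] at this ⊢
      exact this
  · intro x hx y hy
    rw [List.getLast?_reverse, List.head?_map] at hx
    rcases a with _ | ⟨z, a⟩
    · simp at hx
    · simp only [List.head?_cons, Option.map_some, Option.mem_def, Option.some.injEq] at hx hy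
      subst hx
      subst hy
      have := ha.2
      rw [List.isChain_cons_cons] at this
      exact Ne.symm this.1

/-- The decomposition of two reduced words. -/
theorem exists_split (u v : List (Σ i, Gf i)) (hu : Rd u) (hv : Rd v) :
    ∃ P a b : List (Σ i, Gf i), u = P ++ a ∧ v = P ++ b ∧
      ((Sp a b ∧ (wl ((lp u)⁻¹ * lp v)).length = a.length + b.length) ∨
        (Br a b ∧ (wl ((lp u)⁻¹ * lp v)).length + 1 = a.length + b.length)) := by
  classical
  induction u generalizing v with
  | nil =>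
    refine ⟨[], [], v, rfl, rfl, Or.inl ⟨by intro x hx; simp at hx, ?_⟩⟩
    rw [lp_nil, inv_one, one_mul, wl_lp hv]
    simp
  | cons x u ih =>
    rcases v with _ | ⟨y, v⟩
    · refine ⟨[], x :: u, [], rfl, rfl, Or.inl ⟨by intro x hx y hy; simp at hy, ?_⟩⟩
      rw [lp_nil, mul_one, lp_inv, wl_lp hu.inv]
      simp
    · by_cases hxy : x = y
      · subst hxy
        obtain ⟨P, a, b, h1, h2, h3⟩ := ih v hu.tail hv.tail
        refine ⟨x :: P, a, b, by simp [h1], by simp [h2], ?_⟩
        have e : (lp (x :: u))⁻¹ * lp (x :: v) = (lp u)⁻¹ * lp v := by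
          rw [lp_cons, lp_cons]; group
        rw [e]
        exact h3
      · refine ⟨[], x :: u, y :: v, rfl, rfl, ?_⟩
        by_cases hi : x.1 = y.1
        · right
          obtain ⟨i, m⟩ := x
          obtain ⟨j, n⟩ := y
          obtain rfl : i = j := hi
          have hmn : m ≠ n := fun h => hxy (by rw [h])
          refine ⟨⟨i, m, n, u, v, rfl, rfl, hmn⟩, ?_⟩
          rw [br_len hu hv hmn]
          simp
          omega
        · left
          have hsp : Sp (x :: u) (y :: v) := by
            intro x' hx' y' hy'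
            simp only [List.head?_cons, Option.mem_def, Option.some.injEq] at hx' hy'
            subst hx'
            subst hy'
            exact hi
          refine ⟨hsp, ?_⟩
          rw [sp_len hu hv hsp]
          simp
          omega

theorem syl_d (g h : CoprodI Gf) : (syl Gf).d g h = (wl (g⁻¹ * h)).length := syl_l _

/-- The decomposition of two elements. -/
theorem syl_split (g h : CoprodI Gf) :
    ∃ P a b : List (Σ i, Gf i), wl g = P ++ a ∧ wl h = P ++ b ∧
      ((Sp a b ∧ (syl Gf).d g h = a.length + b.length) ∨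
        (Br a b ∧ (syl Gf).d g h + 1 = a.length + b.length)) := by
  have h1 := exists_split (wl g) (wl h) (rd_wl g) (rd_wl h)
  rwa [lp_wl, lp_wl, ← syl_d] at h1

end Pool.Agent.Beb
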