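import Pool.Agent.Work.MP_beb559_al.Stmt

/-!
# Partial periodic quotients of free products (Theorem B)
-/

namespace Pool.Agent.Beb

open Monoid

/-- The subgroup of the free product generated by the subgroups `H i` of the factors. -/
def HH {ι : Type} (Gf : ι → Type) [∀ i, Group (Gf i)] (H : ∀ i, Subgroup (Gf i)) :
    Subgroup (CoprodI Gf) :=
  ⨆ i, (H i).map (CoprodI.of : Gf i →* CoprodI Gf)

/-- Conclusion of Theorem B for the exponent `p`. -/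
def PartialPeriodic (p : ℕ) : Prop :=
  ∀ (ι : Type) [DecidableEq ι] (Gf : ι → Type) [∀ i, Group (Gf i)] (E : Type) [Group E]
    (V : Subgroup E) (π : CoprodI Gf →* E) (H : ∀ i, Subgroup (Gf i)),
    V.Normal → (∀ v ∈ V, v ^ p = 1) → (∀ (e : E) (n : ℕ), 1 ≤ n → e ^ n ∈ V → e ∈ V) →
    (∀ i (x : Gf i), π (CoprodI.of x) ∈ V → π (CoprodI.of x) ≠ 1 → x ^ p = 1) →
    (∀ i (x : Gf i), x * x = 1 → x = 1) →
    (∀ g ∈ HH Gf H, π g ∈ V → π g = 1) →
    ∃ N : Subgroup (CoprodI Gf), N.Normal ∧ N ≤ π.ker ∧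
      (∀ g, π g ∈ V → π g ≠ 1 → g ^ p ∈ N) ∧ ∀ g ∈ HH Gf H, g ∈ N → g = 1

end Pool.Agent.Beb
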