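import Pool.Agent.Work.MP_beb559_al.SylB
import Pool.Agent.Work.MP_beb559_al.ThmB

/-!
# Free products: hyperbolicity, geodesics, cut points
-/

namespace Pool.Agent.Beb

open Monoid

variable {ι : Type} {Gf : ι → Type} [∀ i, Group (Gf i)]

theorem split_lt {u v R a c : List (Σ i, Gf i)} (hu : u = R ++ a) (hv : v = R ++ c)
    (h : Sp a c ∨ Br a c) (m : ℕ) (hm : R.length < m) (hmu : m ≤ u.length)
    (he : u.take m = v.take m) : False := by
  subst hu
  subst hv
  obtain ⟨k, rfl⟩ : ∃ k, m = R.length + (k + 1) := ⟨m - R.length - 1, by omega⟩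
  rw [List.take_length_add_append, List.take_length_add_append] at he
  have he' := List.append_cancel_left he
  rcases a with _ | ⟨x, a⟩
  · simp at hmu
  · rcases c with _ | ⟨y, c⟩
    · simp at he'
    · simp only [List.take_succ_cons, List.cons.injEq] at he'
      obtain ⟨rfl, -⟩ := he'
      rcases h with h | ⟨i, n, n', a', c', h1, h2, h3⟩
      · exact h x (by simp) x (by simp) rfl
      · simp only [List.cons.injEq] at h1 h2
        have := h1.1.symm.trans h2.1
        simp only [Sigma.mk.injEq, heq_eq_eq, true_and] at this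
        exact h3 this

theorem sylHyp : (syl Gf).Hyp 1 := by
  have key : ∀ X Y Z : CoprodI Gf, (syl Gf).d X Z + (syl Gf).l Y ≤
      max ((syl Gf).d X Y + (syl Gf).l Z) ((syl Gf).l X + (syl Gf).d Y Z) + 1 := by
    intro X Y Z
    obtain ⟨P, a, b, hX, hY, h1⟩ := syl_split X Y
    obtain ⟨Q, b', c, hY', hZ, h2⟩ := syl_split Y Z
    obtain ⟨R, a', c', hX', hZ', h3⟩ := syl_split X Z
    have lX : (syl Gf).l X = P.length + a.length := by rw [syl_l, hX, List.length_append]
    have lY : (syl Gf).l Y = P.length + b.length := by rw [syl_l, hY, List.length_append]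
    have lY' : (syl Gf).l Y = Q.length + b'.length := by rw [syl_l, hY', List.length_append]
    have lZ : (syl Gf).l Z = Q.length + c.length := by rw [syl_l, hZ, List.length_append]
    have lX' : (syl Gf).l X = R.length + a'.length := by rw [syl_l, hX', List.length_append]
    have lZ' : (syl Gf).l Z = R.length + c'.length := by rw [syl_l, hZ', List.length_append]
    have hR : min P.length Q.length ≤ R.length := by
      by_contra hcon
      have hcon := not_le.1 hcon
      set m := min P.length Q.length with hm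
      refine split_lt hX' hZ' ?_ m hcon ?_ ?_
      · rcases h3 with h | h
        · exact Or.inl h.1
        · exact Or.inr h.1
      · rw [hX, List.length_append]; omega
      · have e1 : (wl X).take m = P.take m := by
          rw [hX, List.take_append_of_le_length (by omega)]
        have e2 : (wl Y).take m = P.take m := by
          rw [hY, List.take_append_of_le_length (by omega)]
        have e3 : (wl Y).take m = Q.take m := by
          rw [hY', List.take_append_of_le_length (by omega)]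
        have e4 : (wl Z).take m = Q.take m := by
          rw [hZ, List.take_append_of_le_length (by omega)]
        rw [e1, ← e2, e3, e4]
    rcases h1 with ⟨-, h1⟩ | ⟨-, h1⟩ <;> rcases h2 with ⟨-, h2⟩ | ⟨-, h2⟩ <;>
      rcases h3 with ⟨-, h3⟩ | ⟨-, h3⟩ <;> omega
  intro x y z w
  have h := key (w⁻¹ * x) (w⁻¹ * y) (w⁻¹ * z)
  rw [(syl Gf).d_smul, (syl Gf).d_smul, (syl Gf).d_smul] at h
  have e1 : (syl Gf).l (w⁻¹ * y) = (syl Gf).d y w := (syl Gf).d_comm w y
  have e2 : (syl Gf).l (w⁻¹ * z) = (syl Gf).d z w := (syl Gf).d_comm w z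
  have e3 : (syl Gf).l (w⁻¹ * x) = (syl Gf).d x w := (syl Gf).d_comm w x
  rw [e1, e2, e3] at h
  exact h

/-- Between from the identity means prefix. -/
theorem syl_btw_one (z y : CoprodI Gf) :
    (syl Gf).l z + (syl Gf).d z y = (syl Gf).l y ↔ ∃ b, wl y = wl z ++ b := by
  constructor
  · intro h
    obtain ⟨P, a, b, hz, hy, h1⟩ := syl_split z y
    rw [syl_l, syl_l, hz, hy, List.length_append, List.length_append] at h
    rcases h1 with ⟨-, h1⟩ | ⟨-, h1⟩
    · have : a = [] := List.length_eq_zero_iff.1 (by omega)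
      subst this
      exact ⟨b, by rw [hz, hy]; simp⟩
    · omega
  · rintro ⟨b, hb⟩
    have h1 : z⁻¹ * y = lp b := by
      rw [← lp_wl y, hb, lp_append, lp_wl]; group
    have h2 : Rd b := by
      have h3 := hb ▸ rd_wl y
      exact ⟨fun x hx => h3.1 x (List.mem_append_right _ hx), (List.isChain_append.1 h3.2).2.1⟩
    rw [syl_d, h1, wl_lp h2, syl_l, syl_l, hb, List.length_append]

theorem syl_btw (x z y : CoprodI Gf) :
    (syl Gf).Btw x z y ↔ ∃ b, wl (x⁻¹ * y) = wl (x⁻¹ * z) ++ b := by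
  rw [← syl_btw_one, (syl Gf).d_smul]
  rfl

/-- Geodesics are unique. -/
theorem syl_uniq (x y z z' : CoprodI Gf) (h : (syl Gf).Btw x z y) (h' : (syl Gf).Btw x z' y)
    (hd : (syl Gf).d x z = (syl Gf).d x z') : z = z' := by
  obtain ⟨b, hb⟩ := (syl_btw x z y).1 h
  obtain ⟨b', hb'⟩ := (syl_btw x z' y).1 h'
  rw [syl_d, syl_d] at hd
  have h1 : wl (x⁻¹ * z) = wl (x⁻¹ * z') := (List.append_inj (hb.symm.trans hb') hd).1
  have h2 := wl_inj h1
  exact mul_left_cancel h2

/-- Interior points of geodesics are cut points. -/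
theorem syl_cut (x y x' y' z : CoprodI Gf) (h : (syl Gf).Btw x z y)
    (hx : (syl Gf).d x x' + 2 ≤ (syl Gf).d x z + (syl Gf).d x' z)
    (hy : (syl Gf).d y y' + 2 ≤ (syl Gf).d y z + (syl Gf).d y' z) :
    (syl Gf).Btw x' z y' := by
  have key : ∀ X X' : CoprodI Gf, (syl Gf).d X X' + 2 ≤ (syl Gf).l X + (syl Gf).l X' →
      (wl X).head? = (wl X').head? := by
    intro X X' hlt
    obtain ⟨P, a, b, h1, h2, h3⟩ := syl_split X X'
    have lX : (syl Gf).l X = P.length + a.length := by rw [syl_l, h1, List.length_append]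
    have lX' : (syl Gf).l X' = P.length + b.length := by rw [syl_l, h2, List.length_append]
    have hP : 1 ≤ P.length := by
      rcases h3 with ⟨-, h3⟩ | ⟨-, h3⟩ <;> omega
    rcases P with _ | ⟨p, P⟩
    · simp at hP
    · rw [h1, h2]; simp
  have hX : (syl Gf).d (z⁻¹ * x) (z⁻¹ * x') + 2 ≤
      (syl Gf).l (z⁻¹ * x) + (syl Gf).l (z⁻¹ * x') := by
    rw [(syl Gf).d_smul, (syl Gf).d_comm x z, (syl Gf).d_comm x' z] at *
    exact hx
  have hY : (syl Gf).d (z⁻¹ * y) (z⁻¹ * y') + 2 ≤
      (syl Gf).l (z⁻¹ * y) + (syl Gf).l (z⁻¹ * y') := by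
    rw [(syl Gf).d_smul, (syl Gf).d_comm y z, (syl Gf).d_comm y' z] at *
    exact hy
  have h1 := key _ _ hX
  have h2 := key _ _ hY
  have h3 : Sp (wl (z⁻¹ * x)) (wl (z⁻¹ * y)) := by
    obtain ⟨P, a, b, e1, e2, h3⟩ := syl_split (z⁻¹ * x) (z⁻¹ * y)
    have l1 : (syl Gf).l (z⁻¹ * x) = P.length + a.length := by rw [syl_l, e1, List.length_append]
    have l2 : (syl Gf).l (z⁻¹ * y) = P.length + b.length := by rw [syl_l, e2, List.length_append]
    have l3 : (syl Gf).l (z⁻¹ * x) + (syl Gf).l (z⁻¹ * y) = (syl Gf).d (z⁻¹ * x) (z⁻¹ * y) := by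
      rw [(syl Gf).d_smul]
      have h4 : (syl Gf).d x z + (syl Gf).d z y = (syl Gf).d x y := h
      rw [(syl Gf).d_comm x z] at h4
      exact h4
    rcases h3 with ⟨hs, h3⟩ | ⟨-, h3⟩
    · have : P = [] := List.length_eq_zero_iff.1 (by omega)
      subst this
      rw [e1, e2]
      simpa using hs
    · omega
  have h4 : Sp (wl (z⁻¹ * x')) (wl (z⁻¹ * y')) := by
    unfold Sp
    rw [← h1, ← h2]
    exact h3
  have h5 := sp_len (rd_wl (z⁻¹ * x')) (rd_wl (z⁻¹ * y')) h4
  rw [lp_wl, lp_wl] at h5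
  have h6 : (syl Gf).d (z⁻¹ * x') (z⁻¹ * y') = (wl (z⁻¹ * x')).length + (wl (z⁻¹ * y')).length := by
    rw [syl_d, h5]; simp
  rw [(syl Gf).d_smul, ← syl_l, ← syl_l] at h6
  unfold Len.Btw
  rw [h6]
  have e : (syl Gf).d x' z = (syl Gf).l (z⁻¹ * x') := (syl Gf).d_comm x' z
  rw [e]
  rfl

end Pool.Agent.Beb
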