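import Pool.Agent.Work.MP_beb559_al.SylB
import Pool.Agent.Work.MP_beb559_al.ThmB

/-!
# Free products: the subgroup generated by subgroups of the factors
-/

namespace Pool.Agent.Beb

open Monoid

variable {ι : Type} {Gf : ι → Type} [∀ i, Group (Gf i)]

theorem of_mem_HH (H : ∀ i, Subgroup (Gf i)) {i : ι} {m : Gf i} (hm : m ∈ H i) :
    (CoprodI.of m : CoprodI Gf) ∈ HH Gf H :=
  (le_iSup (fun i => (H i).map (CoprodI.of : Gf i →* CoprodI Gf)) i) ⟨m, hm, rfl⟩

/-- Words with letters in the subgroups. -/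
theorem lp_mem_HH (H : ∀ i, Subgroup (Gf i)) (l : List (Σ i, Gf i)) (h : ∀ x ∈ l, x.2 ∈ H x.1) :
    lp l ∈ HH Gf H := by
  induction l with
  | nil => exact one_mem _
  | cons x l ih =>
    rw [lp_cons]
    exact mul_mem (of_mem_HH H (h x (by simp))) (ih fun y hy => h y (List.mem_cons_of_mem _ hy))

/-- Multiplication by a letter in the subgroup. -/
theorem wl_of_mul_mem (H : ∀ i, Subgroup (Gf i)) {i : ι} {m : Gf i} (hm : m ∈ H i)
    (g : CoprodI Gf) (hg : ∀ x ∈ wl g, x.2 ∈ H x.1) :
    ∀ x ∈ wl (CoprodI.of m * g), x.2 ∈ H x.1 := by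
  by_cases hm1 : m = 1
  · subst hm1
    rwa [map_one, one_mul]
  rcases hgl : wl g with _ | ⟨⟨j, n⟩, l⟩
  · have hg1 := wl_eq_nil hgl
    subst hg1
    have h1 : Rd ([⟨i, m⟩] : List (Σ i, Gf i)) := ⟨by simpa using hm1, by simp⟩
    have h2 := wl_lp h1
    rw [lp_cons, lp_nil] at h2
    simp only at h2
    rw [h2]
    intro x hx
    rw [List.mem_singleton] at hx
    subst hx
    exact hm
  · have hr : Rd ((⟨j, n⟩ : Σ i, Gf i) :: l) := hgl ▸ rd_wl g
    rw [hgl] at hg
    have hn : n ∈ H j := hg ⟨j, n⟩ (by simp)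
    have hl : ∀ x ∈ l, x.2 ∈ H x.1 := fun x hx => hg x (List.mem_cons_of_mem _ hx)
    have hgl' : g = CoprodI.of n * lp l := by
      rw [← lp_wl g, hgl, lp_cons]
    by_cases hij : i = j
    · subst hij
      by_cases hmn : m * n = 1
      · have h1 : CoprodI.of m * g = lp l := by
          rw [hgl', ← mul_assoc, ← map_mul, hmn, map_one, one_mul]
        rw [h1, wl_lp hr.tail]
        exact hl
      · have h1 : CoprodI.of m * g = lp ((⟨i, m * n⟩ : Σ i, Gf i) :: l) := by
          rw [hgl', ← mul_assoc, ← map_mul, lp_cons]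
        have h2 : Rd ((⟨i, m * n⟩ : Σ i, Gf i) :: l) := by
          refine ⟨?_, ?_⟩
          · intro y hy
            rcases List.mem_cons.1 hy with rfl | hy
            · exact hmn
            · exact hr.1 y (List.mem_cons_of_mem _ hy)
          · have := hr.2
            rw [List.isChain_cons] at this ⊢
            exact this
        rw [h1, wl_lp h2]
        intro x hx
        rcases List.mem_cons.1 hx with rfl | hx
        · exact mul_mem hm hn
        · exact hl x hx
    · have h1 : CoprodI.of m * g = lp ((⟨i, m⟩ : Σ i, Gf i) :: ⟨j, n⟩ :: l) := by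
        rw [hgl', lp_cons, lp_cons]
      have h2 : Rd ((⟨i, m⟩ : Σ i, Gf i) :: ⟨j, n⟩ :: l) := by
        refine ⟨?_, ?_⟩
        · intro y hy
          rcases List.mem_cons.1 hy with rfl | hy
          · exact hm1
          · exact hr.1 y hy
        · rw [List.isChain_cons_cons]
          exact ⟨hij, hr.2⟩
      rw [h1, wl_lp h2]
      intro x hx
      rcases List.mem_cons.1 hx with rfl | hx
      · exact hm
      · exact hg x hx

/-- SD1. The letters of an element of `HH` lie in the subgroups `H i`. -/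
theorem mem_HH_iff (H : ∀ i, Subgroup (Gf i)) (g : CoprodI Gf) :
    g ∈ HH Gf H ↔ ∀ x ∈ wl g, x.2 ∈ H x.1 := by
  constructor
  · intro hg
    have key : ∀ h : CoprodI Gf, (∀ x ∈ wl h, x.2 ∈ H x.1) → ∀ x ∈ wl (g * h), x.2 ∈ H x.1 := by
      refine Subgroup.iSup_induction (fun i => (H i).map (CoprodI.of : Gf i →* CoprodI Gf))
        (C := fun g => ∀ h : CoprodI Gf, (∀ x ∈ wl h, x.2 ∈ H x.1) →
          ∀ x ∈ wl (g * h), x.2 ∈ H x.1) hg ?_ ?_ ?_
      · rintro i _ ⟨m, hm, rfl⟩ h hh
        exact wl_of_mul_mem H hm h hh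
      · intro h hh
        rwa [one_mul]
      · intro a b ha hb h hh
        rw [mul_assoc]
        exact ha _ (hb h hh)
    have := key 1 (by rw [wl_one]; simp)
    rwa [mul_one] at this
  · intro h
    rw [← lp_wl g]
    exact lp_mem_HH H _ h

/-- SD2. Prefixes of elements of `HH`. -/
theorem HH_prefix (H : ∀ i, Subgroup (Gf i)) (g : CoprodI Gf) (hg : g ∈ HH Gf H)
    (P a : List (Σ i, Gf i)) (h : wl g = P ++ a) : lp P ∈ HH Gf H := by
  refine lp_mem_HH H P fun x hx => (mem_HH_iff H g).1 hg x ?_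
  rw [h]
  exact List.mem_append_left _ hx

end Pool.Agent.Beb
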