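import Pool.Agent.Work.MP_beb559_al.SylB

/-!
# Free products: cyclically reduced elements
-/

namespace Pool.Agent.Beb

open Monoid

variable {ι : Type} {Gf : ι → Type} [∀ i, Group (Gf i)]

theorem wl_lp_le (l : List (Σ i, Gf i)) : (wl (lp l)).length ≤ l.length := by
  induction l with
  | nil => simp [lp_nil, wl_one]
  | cons x l ih =>
    rw [lp_cons, List.length_cons]
    exact (wl_of_mul x _).trans (by omega)

/-- An element of minimal length in the conjugacy class. -/
theorem exists_min_conj (g : CoprodI Gf) : ∃ c h : CoprodI Gf, g = c * h * c⁻¹ ∧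
    ∀ d : CoprodI Gf, (wl h).length ≤ (wl (d * h * d⁻¹)).length := by
  obtain ⟨c, -, hc⟩ := WellFounded.has_min
    (InvImage.wf (fun c : CoprodI Gf => (wl (c⁻¹ * g * c)).length) Nat.lt_wfRel.wf)
    Set.univ ⟨1, trivial⟩
  refine ⟨c, c⁻¹ * g * c, by group, fun d => ?_⟩
  have h := hc (c * d⁻¹) trivial
  have e : d * (c⁻¹ * g * c) * d⁻¹ = (c * d⁻¹)⁻¹ * g * (c * d⁻¹) := by group
  rw [e]
  exact not_lt.1 h

/-- Powers of cyclically reduced words. -/
theorem rd_pow (x y : Σ i, Gf i) (l : List (Σ i, Gf i)) (h : Rd (x :: (l ++ [y])))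
    (hxy : x.1 ≠ y.1) (n : ℕ) : Rd (List.replicate n (x :: (l ++ [y]))).flatten := by
  induction n with
  | zero => exact ⟨by simp, by simp⟩
  | succ n ih =>
    rw [List.replicate_succ, List.flatten_cons]
    refine h.append ih ?_
    intro a ha b hb
    have ha' : a = y := by
      rw [← List.cons_append, List.getLast?_append] at ha
      simpa using ha.symm
    have hb' : b = x := by
      rcases n with _ | n
      · simp at hb
      · rw [List.replicate_succ, List.flatten_cons] at hb
        simpa using hb.symm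
    subst ha'
    subst hb'
    exact hxy.symm

theorem lp_pow (l : List (Σ i, Gf i)) (n : ℕ) : lp (List.replicate n l).flatten = lp l ^ n := by
  induction n with
  | zero => simp [lp_nil]
  | succ n ih => rw [List.replicate_succ, List.flatten_cons, lp_append, ih, pow_succ']

/-- SE1. An element is conjugate into a factor or conjugate to a cyclically reduced element of
length at least two. (Take an element of minimal length in the conjugacy class.) -/
theorem conj_cases [Nonempty ι] (g : CoprodI Gf) :
    (∃ (c : CoprodI Gf) (i : ι) (m : Gf i), g = c * CoprodI.of m * c⁻¹) ∨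
    ∃ c h : CoprodI Gf, g = c * h * c⁻¹ ∧ 2 ≤ (syl Gf).l h ∧
      ∀ n : ℕ, (syl Gf).l (h ^ n) = n * (syl Gf).l h := by
  obtain ⟨c, h, hg, hmin⟩ := exists_min_conj g
  rcases hw : wl h with _ | ⟨x, t⟩
  · left
    have h1 := wl_eq_nil hw
    obtain ⟨i⟩ := ‹Nonempty ι›
    exact ⟨c, i, 1, by rw [hg, h1, map_one]⟩
  · rcases List.eq_nil_or_concat t with rfl | ⟨l, y, rfl⟩
    · left
      refine ⟨c, x.1, x.2, ?_⟩
      have h1 : h = CoprodI.of x.2 := by
        rw [← lp_wl h, hw, lp_cons, lp_nil, mul_one]
      rw [hg, h1]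
    · right
      rw [List.concat_eq_append] at hw
      have hr : Rd (x :: (l ++ [y])) := hw ▸ rd_wl h
      have hh : h = lp (x :: (l ++ [y])) := by rw [← hw, lp_wl]
      have hxy : x.1 ≠ y.1 := by
        intro e
        have h1 := hmin (CoprodI.of y.2)
        obtain ⟨i, m⟩ := x
        obtain ⟨j, n⟩ := y
        obtain rfl : i = j := e
        have h2 : (CoprodI.of n : CoprodI Gf) * h * (CoprodI.of n)⁻¹ =
            lp ((⟨i, n * m⟩ : Σ i, Gf i) :: l) := by
          rw [hh, lp_cons, lp_append, lp_cons, lp_nil, lp_cons, map_mul]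
          group
        have h3 := wl_lp_le ((⟨i, n * m⟩ : Σ i, Gf i) :: l)
        rw [h2, hw] at h1
        simp only [List.length_cons, List.length_append, List.length_nil] at h1 h3
        omega
      refine ⟨c, h, hg, ?_, fun n => ?_⟩
      · rw [syl_l, hw]
        simp
      · rw [syl_l, syl_l, hw]
        have h1 : wl (h ^ n) = (List.replicate n (x :: (l ++ [y]))).flatten := by
          rw [hh, ← lp_pow, wl_lp (rd_pow x y l hr hxy n)]
        rw [h1, List.length_flatten]
        simp

/-- SE2. -/
theorem no_two_tors (h2 : ∀ i (x : Gf i), x * x = 1 → x = 1) (g : CoprodI Gf) (hg : g * g = 1) :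
    g = 1 := by
  rcases isEmpty_or_nonempty ι with hι | hι
  · refine wl_eq_nil ?_
    rcases hw : wl g with _ | ⟨x, t⟩
    · rfl
    · exact hι.elim x.1
  · rcases conj_cases g with ⟨c, i, m, rfl⟩ | ⟨c, h, rfl, hl, hn⟩
    · have h1 : c * CoprodI.of m * c⁻¹ * (c * CoprodI.of m * c⁻¹) =
          c * CoprodI.of (m * m) * c⁻¹ := by
        rw [map_mul]
        group
      rw [h1, mul_inv_eq_one, mul_eq_left] at hg
      have h3 : m * m = 1 := by
        apply CoprodI.of_injective i
        rw [hg, map_one]
      rw [h2 i m h3, map_one]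
      group
    · exfalso
      have h1 : c * h * c⁻¹ * (c * h * c⁻¹) = c * h ^ 2 * c⁻¹ := by
        rw [pow_two]
        group
      rw [h1, mul_inv_eq_one, mul_eq_left] at hg
      have h3 := hn 2
      rw [hg, (syl Gf).one] at h3
      omega

theorem l_pow_le {G : Type} [Group G] (L : Len G) (g : G) (k : ℕ) : L.l (g ^ k) ≤ k * L.l g := by
  induction k with
  | zero => simp [L.one]
  | succ k ih =>
    rw [pow_succ, Nat.succ_mul]
    exact (L.mul _ _).trans (by omega)

/-- SE3. Either conjugate into a factor or all powers have long displacement. -/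
theorem conj_or_lox [Nonempty ι] (g : CoprodI Gf) :
    (∃ (c : CoprodI Gf) (i : ι) (m : Gf i), g = c * CoprodI.of m * c⁻¹) ∨
    ∀ (n : ℕ) (x : CoprodI Gf), n ≤ (syl Gf).l (x⁻¹ * g ^ n * x) := by
  rcases conj_cases g with h | ⟨c, h, hg, hl, hn⟩
  · exact Or.inl h
  · right
    intro n x
    set y := c⁻¹ * x with hy
    set z := x⁻¹ * g ^ n * x with hz
    set k := 2 * (syl Gf).l y + 1 with hk
    have h1 : z ^ k = y⁻¹ * h ^ (n * k) * y := by
      have e1 : z = (x⁻¹ * c) * h ^ n * (x⁻¹ * c)⁻¹ := by
        rw [hz, hg, conj_pow]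
        group
      rw [e1, conj_pow, ← pow_mul, hy]
      group
    have h2 : h ^ (n * k) = y * z ^ k * y⁻¹ := by
      rw [h1]
      group
    have h3 : (syl Gf).l (h ^ (n * k)) ≤ (syl Gf).l y + k * (syl Gf).l z + (syl Gf).l y := by
      rw [h2]
      refine ((syl Gf).mul _ _).trans ?_
      rw [(syl Gf).inv]
      refine Nat.add_le_add_right (((syl Gf).mul _ _).trans ?_) _
      exact Nat.add_le_add_left (l_pow_le _ _ _) _
    rw [hn] at h3
    have h4 : n * k * 2 ≤ n * k * (syl Gf).l h := Nat.mul_le_mul_left _ hl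
    by_contra hlt
    push Not at hlt
    have h5 : k * (syl Gf).l z + k ≤ n * k := by
      have : (syl Gf).l z + 1 ≤ n := hlt
      calc k * (syl Gf).l z + k = k * ((syl Gf).l z + 1) := by ring
        _ ≤ k * n := Nat.mul_le_mul_left _ this
        _ = n * k := by ring
    have h6 : 1 ≤ n := by omega
    have h7 : k ≤ n * k := Nat.le_mul_of_pos_left _ h6
    omega

end Pool.Agent.Beb
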