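import Pool.Agent.Work.MP_beb559_al.TreeA

/-!
# Tree like length functions: small stabilisers of long geodesics are cyclic
-/

namespace Pool.Agent.Beb

namespace Len.Tree

variable {G : Type} [Group G] {L : Len G}

/-- `pt` parametrises the geodesic from `x` to `y`. -/
def Pt (L : Len G) (x y : G) (pt : ℤ → G) : Prop :=
  ∀ i : ℤ, 0 ≤ i → i ≤ L.d x y → L.Btw x (pt i) y ∧ (L.d x (pt i) : ℤ) = i

theorem exists_pt (L : Len G) (x y : G) : ∃ pt, Pt L x y pt := by
  have h : ∀ i : ℤ, ∃ z, 0 ≤ i → i ≤ L.d x y → L.Btw x z y ∧ (L.d x z : ℤ) = i := by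
    intro i
    by_cases hi : 0 ≤ i ∧ i ≤ L.d x y
    · obtain ⟨z, h1, h2⟩ := L.d_interp x y i.toNat (by omega)
      refine ⟨z, fun _ _ => ⟨?_, by omega⟩⟩
      unfold Len.Btw
      omega
    · exact ⟨1, fun h1 h2 => absurd ⟨h1, h2⟩ hi⟩
  choose pt hpt using h
  exact ⟨pt, hpt⟩

/-- `g` shifts the middle of the geodesic by `s`. -/
def ShJ (pt : ℤ → G) (a b : ℤ) (g : G) (s : ℤ) : Prop :=
  ∀ i, a ≤ i → i ≤ b → a ≤ i + s → i + s ≤ b → g * pt i = pt (i + s)

theorem ShJ.inv {pt : ℤ → G} {a b : ℤ} {g : G} {s : ℤ} (h : ShJ pt a b g s) :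
    ShJ pt a b g⁻¹ (-s) := by
  intro i h1 h2 h3 h4
  have h5 := h (i + -s) h3 h4 (by omega) (by omega)
  rw [show i + -s + s = i by ring] at h5
  rw [← h5]
  simp

theorem ShJ.inj {pt : ℤ → G} {a b : ℤ} {g g' : G} {s : ℤ} (h : ShJ pt a b g s)
    (h' : ShJ pt a b g' s) (hs : |s| ≤ b - a) : g = g' := by
  rw [abs_le] at hs
  have h1 := h (a + max 0 (-s)) (by omega) (by omega) (by omega) (by omega)
  have h2 := h' (a + max 0 (-s)) (by omega) (by omega) (by omega) (by omega)
  exact mul_right_cancel (h1.trans h2.symm)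

theorem ShJ.one (pt : ℤ → G) (a b : ℤ) : ShJ pt a b 1 0 := by
  intro i _ _ _ _
  simp

theorem ShJ.comm {pt : ℤ → G} {a b : ℤ} {f g : G} {s t : ℤ} (hf : ShJ pt a b f t)
    (hg : ShJ pt a b g s) (hst : |s| + |t| ≤ b - a) : f * g = g * f := by
  have hs : -|s| ≤ s ∧ s ≤ |s| := ⟨neg_abs_le s, le_abs_self s⟩
  have ht : -|t| ≤ t ∧ t ≤ |t| := ⟨neg_abs_le t, le_abs_self t⟩
  have hs0 := abs_nonneg s
  have ht0 := abs_nonneg t
  obtain ⟨i, hi⟩ : ∃ i, i = a + max 0 (-s) + max 0 (-t) := ⟨_, rfl⟩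
  have e1 := hg i (by omega) (by omega) (by omega) (by omega)
  have e2 := hf (i + s) (by omega) (by omega) (by omega) (by omega)
  have e3 := hf i (by omega) (by omega) (by omega) (by omega)
  have e4 := hg (i + t) (by omega) (by omega) (by omega) (by omega)
  have e5 : (f * g) * pt i = (g * f) * pt i := by
    rw [mul_assoc, mul_assoc, e1, e2, e3, e4]
    congr 1
    ring
  exact mul_right_cancel e5

theorem ShJ.sub {pt : ℤ → G} {a b : ℤ} {f g : G} {s t T : ℤ} (hf : ShJ pt a b f t)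
    (hg : ShJ pt a b g s) (ht : 0 < t) (hts : t ≤ s) (hsT : s ≤ T) (hT : 2 * T ≤ b - a) :
    ShJ pt a b (f⁻¹ * g) (s - t) := by
  have hc : f * g = g * f := ShJ.comm hf hg (by rw [abs_of_pos ht, abs_of_pos (by omega)]; omega)
  have hc' : f⁻¹ * g = g * f⁻¹ := by
    rw [inv_mul_eq_iff_eq_mul, ← mul_assoc, hc, mul_assoc, mul_inv_cancel, mul_one]
  intro i h1 h2 h3 h4
  have hf' := hf.inv
  by_cases hb : i + s ≤ b
  · have e1 := hg i h1 h2 (by omega) hb
    have e2 := hf' (i + s) (by omega) hb (by omega) (by omega)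
    rw [mul_assoc, e1, e2]
    congr 1
    ring
  · have e1 := hf' i h1 h2 (by omega) (by omega)
    have e2 := hg (i + -t) (by omega) (by omega) (by omega) (by omega)
    rw [hc', mul_assoc, e1, e2]
    congr 1
    ring

/-- The shift elements form a cyclic group. -/
theorem ShJ.cyc (pt : ℤ → G) (a b T : ℤ) (hT0 : 0 ≤ T) (hT : 2 * T ≤ b - a) :
    ∃ f : G, (f = 1 ∨ ∃ t, 0 < t ∧ t ≤ T ∧ ShJ pt a b f t) ∧
      ∀ g s, |s| ≤ T → ShJ pt a b g s → g ∈ Subgroup.zpowers f := by
  classical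
  by_cases hex : ∃ n : ℕ, 0 < n ∧ (n : ℤ) ≤ T ∧ ∃ g, ShJ pt a b g n
  · obtain ⟨h1, h2, f, hf⟩ := Nat.find_spec hex
    have hmin : ∀ m : ℕ, 0 < m → (m : ℤ) ≤ T → (∃ g, ShJ pt a b g m) → Nat.find hex ≤ m :=
      fun m a1 a2 a3 => Nat.find_min' hex ⟨a1, a2, a3⟩
    set t := Nat.find hex with ht
    have key : ∀ m : ℕ, (m : ℤ) ≤ T → ∀ g, ShJ pt a b g m → g ∈ Subgroup.zpowers f := by
      intro m
      induction m using Nat.strong_induction_on with
      | _ m ih =>
        intro hm g hg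
        rcases Nat.eq_zero_or_pos m with h0 | h0
        · subst h0
          have : g = 1 := ShJ.inj hg (ShJ.one pt a b) (by simp; omega)
          rw [this]
          exact one_mem _
        · have h3 := hmin m h0 hm ⟨g, hg⟩
          have h4 := ShJ.sub hf hg (by omega) (by omega) hm hT
          have h5 : ((m : ℤ) - t) = ((m - t : ℕ) : ℤ) := by omega
          rw [h5] at h4
          have h6 := ih (m - t) (by omega) (by omega) _ h4
          have h7 := mul_mem (Subgroup.mem_zpowers f) h6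
          simpa using h7
    refine ⟨f, Or.inr ⟨t, by omega, h2, hf⟩, ?_⟩
    intro g s hs hg
    rw [abs_le] at hs
    rcases le_total 0 s with h0 | h0
    · obtain ⟨m, rfl⟩ : ∃ m : ℕ, s = m := ⟨s.toNat, by omega⟩
      exact key m hs.2 g hg
    · obtain ⟨m, hm⟩ : ∃ m : ℕ, -s = m := ⟨(-s).toNat, by omega⟩
      have h4 := hg.inv
      rw [hm] at h4
      have h5 := key m (by omega) _ h4
      have h6 := inv_mem h5
      simpa using h6
  · refine ⟨1, Or.inl rfl, ?_⟩
    intro g s hs hg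
    rw [abs_le] at hs
    have : g = 1 := by
      rcases lt_trichotomy s 0 with h0 | h0 | h0
      · exfalso
        refine hex ⟨(-s).toNat, by omega, by omega, g⁻¹, ?_⟩
        have h4 := hg.inv
        rwa [show ((-s).toNat : ℤ) = -s by omega]
      · subst h0
        exact ShJ.inj hg (ShJ.one pt a b) (by simp; omega)
      · exfalso
        refine hex ⟨s.toNat, by omega, by omega, g, ?_⟩
        rwa [show (s.toNat : ℤ) = s by omega]
    rw [this]
    exact one_mem _

theorem ShJ.pow {pt : ℤ → G} {a b : ℤ} {g : G} {s : ℤ} (h : ShJ pt a b g s) (n : ℕ) :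
    ShJ pt a b (g ^ n) (n * s) := by
  induction n with
  | zero =>
    have := ShJ.one pt a b
    simpa using this
  | succ n ih =>
    intro i h1 h2 h3 h4
    push_cast at h3 h4 ⊢
    have hns : (n + 1 : ℤ) * s = n * s + s := by ring
    rw [hns] at h3 h4 ⊢
    have hmid : a ≤ i + s ∧ i + s ≤ b := by
      rcases le_total 0 s with h0 | h0
      · have : 0 ≤ (n : ℤ) * s := mul_nonneg (by omega) h0
        constructor <;> omega
      · have : (n : ℤ) * s ≤ 0 := mul_nonpos_of_nonneg_of_nonpos (by omega) h0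
        constructor <;> omega
    have e1 := h i h1 h2 hmid.1 hmid.2
    have e2 := ih (i + s) hmid.1 hmid.2 (by omega) (by omega)
    rw [pow_succ, mul_assoc, e1, e2]
    congr 1
    ring

variable (hT : L.Tree)
include hT

theorem pt_dist {x y : G} {pt : ℤ → G} (hp : Pt L x y pt) {i j : ℤ} (h0 : 0 ≤ i) (hij : i ≤ j)
    (hj : j ≤ L.d x y) : (L.d (pt i) (pt j) : ℤ) = j - i := by
  obtain ⟨a1, a2⟩ := hp i h0 (by omega)
  obtain ⟨b1, b2⟩ := hp j (by omega) hj
  have h := order hT a1 b1 (by omega)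
  unfold Len.Btw at h
  omega

/-- Small elements are shifts. -/
theorem shJ_of_small {x y g : G} {T : ℕ} (hx : L.d x (g * x) ≤ T) (hy : L.d y (g * y) ≤ T)
    {pt : ℤ → G} (hp : Pt L x y pt) :
    ∃ s : ℤ, |s| ≤ T ∧ ShJ pt (2 * T + 1) (L.d x y - (2 * T + 1)) g s := by
  obtain ⟨s, h1, h2⟩ := shift hT hx hy
  refine ⟨s, h1, ?_⟩
  intro i a1 a2 a3 a4
  obtain ⟨b1, b2⟩ := hp i (by omega) (by omega)
  obtain ⟨c1, c2⟩ := hp (i + s) (by omega) (by omega)
  have b3 : (L.d x (pt i) : ℤ) + L.d (pt i) y = L.d x y := by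
    unfold Len.Btw at b1; omega
  obtain ⟨d1, d2⟩ := h2 (pt i) b1 (by omega) (by omega)
  exact hT.uniq x y _ _ d1 c1 (by omega)

/-- Shifts are loxodromic. -/
theorem shJ_lox {x y f : G} {pt : ℤ → G} (hp : Pt L x y pt) {a b t : ℤ} (ha : 0 ≤ a)
    (hb : b ≤ L.d x y) (ht : 0 < t) (hab : 2 * t ≤ b - a) (hf : ShJ pt a b f t) :
    ∀ (n : ℕ) (w : G), (n : ℤ) * t ≤ L.d w (f ^ n * w) := by
  have e1 := hf a (by omega) (by omega) (by omega) (by omega)
  have e2 := hf (a + t) (by omega) (by omega) (by omega) (by omega)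
  have d1 := pt_dist hT hp (i := a) (j := a + t) ha (by omega) (by omega)
  have d2 := pt_dist hT hp (i := a + t) (j := a + t + t) (by omega) (by omega) (by omega)
  have d3 := pt_dist hT hp (i := a) (j := a + t + t) ha (by omega) (by omega)
  set q := pt a with hq
  have q1 : f * q = pt (a + t) := e1
  have q2 : f * (f * q) = pt (a + t + t) := by rw [q1, e2]
  have hstep : ∀ k : ℕ, L.Btw (f ^ k * q) (f ^ (k + 1) * q) (f ^ (k + 2) * q) := by
    intro k
    have : L.Btw q (f * q) (f * (f * q)) := by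
      unfold Len.Btw
      rw [q2, q1]
      omega
    have h := btw_smul (f ^ k) this
    have e1 : f ^ (k + 1) * q = f ^ k * (f * q) := by rw [pow_succ, mul_assoc]
    have e2 : f ^ (k + 2) * q = f ^ k * (f * (f * q)) := by
      rw [pow_succ, pow_succ, mul_assoc, mul_assoc]
    rw [e1, e2]
    exact h
  have hd : ∀ k : ℕ, (L.d (f ^ k * q) (f ^ (k + 1) * q) : ℤ) = t := by
    intro k
    rw [pow_succ, mul_assoc, L.d_smul, q1]
    omega
  have hne : ∀ k : ℕ, f ^ k * q ≠ f ^ (k + 1) * q := by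
    intro k hk
    have h1 := hd k
    rw [← hk, L.d_self] at h1
    omega
  have hb1 : ∀ k : ℕ, L.Btw q (f ^ k * q) (f ^ (k + 1) * q) := by
    intro k
    induction k with
    | zero =>
      unfold Len.Btw
      simp [L.d_self]
    | succ k ih =>
      have h1 := concat hT ih (hstep k) (hne k)
      have h2 := hstep k
      have h3 : f ^ (k + 1 + 1) * q = f ^ (k + 2) * q := rfl
      rw [h3]
      unfold Len.Btw at *
      omega
  have hlen : ∀ k : ℕ, (L.d q (f ^ k * q) : ℤ) = k * t := by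
    intro k
    induction k with
    | zero => simp [L.d_self]
    | succ k ih =>
      have h1 := hb1 k
      have h2 := hd k
      unfold Len.Btw at h1
      push_cast
      have : (k + 1 : ℤ) * t = k * t + t := by ring
      rw [this]
      omega
  intro n w
  by_contra hcon
  have hcon := not_le.1 hcon
  have hk : ∀ k : ℕ, L.d w ((f ^ n) ^ k * w) ≤ k * L.d w (f ^ n * w) := by
    intro k
    induction k with
    | zero => simp [L.d_self]
    | succ k ih =>
      have h1 := L.d_tri w ((f ^ n) ^ k * w) ((f ^ n) ^ (k + 1) * w)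
      rw [pow_succ, mul_assoc, L.d_smul, ← mul_assoc, ← pow_succ] at h1
      have : (k + 1) * L.d w (f ^ n * w) = k * L.d w (f ^ n * w) + L.d w (f ^ n * w) := by ring
      omega
  obtain ⟨k, hk2⟩ : ∃ k : ℕ, 2 * L.d w q < k := ⟨2 * L.d w q + 1, by omega⟩
  have h1 := hk k
  have h2 := hlen (n * k)
  have h3 := L.d_tri q w (f ^ (n * k) * q)
  have h4 := L.d_tri w (f ^ (n * k) * w) (f ^ (n * k) * q)
  rw [L.d_smul] at h4
  rw [← pow_mul] at h1
  rw [L.d_comm q w] at h3
  have h5 : ((n * k : ℕ) : ℤ) * t ≤ 2 * L.d w q + k * L.d w (f ^ n * w) := by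
    have : ((k * L.d w (f ^ n * w) : ℕ) : ℤ) = k * L.d w (f ^ n * w) := by push_cast; ring
    omega
  have h6 : (L.d w (f ^ n * w) : ℤ) + 1 ≤ n * t := by omega
  have h7 : (k : ℤ) * (L.d w (f ^ n * w) + 1) ≤ k * (n * t) :=
    mul_le_mul_of_nonneg_left h6 (by omega)
  have h8 : ((n * k : ℕ) : ℤ) * t = k * (n * t) := by push_cast; ring
  have h9 : (k : ℤ) * (L.d w (f ^ n * w) + 1) = k * L.d w (f ^ n * w) + k := by ring
  omega

/-- (C1) for tree like length functions. -/
theorem cyc {x y : G} {T : ℕ} (h : 8 * T + 8 ≤ L.d x y) :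
    ∃ f : G, (f = 1 ∨ ∀ (n : ℕ) (w : G), n ≤ L.d w (f ^ n * w)) ∧
      ∀ g, L.d x (g * x) ≤ T → L.d y (g * y) ≤ T → g ∈ Subgroup.zpowers f := by
  obtain ⟨pt, hp⟩ := exists_pt L x y
  obtain ⟨f, h1, h2⟩ := ShJ.cyc pt (2 * T + 1) (L.d x y - (2 * T + 1)) T (by omega) (by omega)
  refine ⟨f, ?_, ?_⟩
  · rcases h1 with h1 | ⟨t, ht, htT, hf⟩
    · exact Or.inl h1
    · right
      intro n w
      have h3 := shJ_lox hT hp (by omega) (by omega) ht (by omega) hf n w
      have h4 : (n : ℤ) * 1 ≤ n * t := mul_le_mul_of_nonneg_left (by omega) (by omega)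
      omega
  · intro g hx hy
    obtain ⟨s, hs, hg⟩ := shJ_of_small hT hx hy hp
    exact h2 g s hs hg

end Len.Tree

end Pool.Agent.Beb
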