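import Pool.Agent.Work.MP_beb559_al.SylC
import Pool.Agent.Work.MP_beb559_al.SylD
import Pool.Agent.Work.MP_beb559_al.SylE
import Pool.Agent.Work.MP_beb559_al.TreeB

/-!
# Free products: the subgroup `HH` is convex and malnormal, loxodromic elements
-/

namespace Pool.Agent.Beb

open Monoid

variable {ι : Type} {Gf : ι → Type} [∀ i, Group (Gf i)]

/-- SF1. -/
theorem syl_tree : (syl Gf).Tree := ⟨syl_uniq, syl_cut⟩

/-- SF2. `HH` is convex. -/
theorem HH_convex (H : ∀ i, Subgroup (Gf i)) (x y z : CoprodI Gf) (hx : x ∈ HH Gf H)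
    (hy : y ∈ HH Gf H) (hz : (syl Gf).Btw x z y) : z ∈ HH Gf H := by
  obtain ⟨b, hb⟩ := (syl_btw x z y).1 hz
  have h1 := HH_prefix H (x⁻¹ * y) (mul_mem (inv_mem hx) hy) _ _ hb
  rw [lp_wl] at h1
  have h2 := mul_mem hx h1
  rwa [mul_inv_cancel_left] at h2

/-- SF3. Malnormality: `g` moves a long geodesic of `HH` close to `HH`. (A deep point `z` between
`x` and `y` lies in `HH`; by `cut`, `g * z` is between `h` and `h'`, so lies in `HH`.) -/
theorem HH_mal (H : ∀ i, Subgroup (Gf i)) (T : ℕ) (g x y h h' : CoprodI Gf) (hx : x ∈ HH Gf H)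
    (hy : y ∈ HH Gf H) (hh : h ∈ HH Gf H) (hh' : h' ∈ HH Gf H)
    (h1 : (syl Gf).d (g * x) h ≤ T) (h2 : (syl Gf).d (g * y) h' ≤ T)
    (h3 : 4 * T + 4 ≤ (syl Gf).d x y) : g ∈ HH Gf H := by
  obtain ⟨z, hz1, hz2⟩ := (syl Gf).d_interp x y (2 * T + 2) (by omega)
  have hz : (syl Gf).Btw x z y := by
    unfold Len.Btw
    omega
  have hgz : (syl Gf).Btw (g * x) (g * z) (g * y) := by
    unfold Len.Btw at *
    rw [(syl Gf).d_smul, (syl Gf).d_smul, (syl Gf).d_smul]
    exact hz
  have e1 : (syl Gf).d (g * x) (g * z) = (syl Gf).d x z := (syl Gf).d_smul g x z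
  have e2 : (syl Gf).d (g * y) (g * z) = (syl Gf).d z y := by
    rw [(syl Gf).d_smul, (syl Gf).d_comm]
  have hcut : (syl Gf).Btw h (g * z) h' := by
    refine syl_cut (g * x) (g * y) h h' (g * z) hgz ?_ ?_
    · have := (syl Gf).d_tri (g * x) h (g * z)
      omega
    · have := (syl Gf).d_tri (g * y) h' (g * z)
      omega
  have h4 := HH_convex H h h' (g * z) hh hh' hcut
  have h5 := HH_convex H x y z hx hy hz
  have h6 := mul_mem h4 (inv_mem h5)
  rwa [mul_inv_cancel_right] at h6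

/-- SF4. Elements over `V` are killed by `p` or loxodromic. -/
theorem base_inj {E : Type} [Group E] (V : Subgroup E) [V.Normal] (π : CoprodI Gf →* E) (p : ℕ)
    (hp : ∀ i (x : Gf i), π (CoprodI.of x) ∈ V → π (CoprodI.of x) ≠ 1 → x ^ p = 1)
    (g : CoprodI Gf) (h1 : π g ∈ V) (h2 : π g ≠ 1) :
    g ^ p = 1 ∨ ∀ (n : ℕ) (x : CoprodI Gf), n ≤ (syl Gf).l (x⁻¹ * g ^ n * x) := by
  rcases isEmpty_or_nonempty ι with hι | hι
  · exfalso
    apply h2
    have hg : g = 1 := by
      refine wl_eq_nil ?_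
      rcases hw : wl g with _ | ⟨x, t⟩
      · rfl
      · exact hι.elim x.1
    rw [hg, map_one]
  · rcases conj_or_lox g with ⟨c, i, m, rfl⟩ | h
    · left
      have e : π (CoprodI.of m) = (π c)⁻¹ * π (c * CoprodI.of m * c⁻¹) * ((π c)⁻¹)⁻¹ := by
        rw [map_mul, map_mul, map_inv]
        group
      have h3 : π (CoprodI.of m) ∈ V := by
        rw [e]
        exact Subgroup.Normal.conj_mem inferInstance _ h1 _
      have h4 : π (CoprodI.of m) ≠ 1 := by
        intro h5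
        apply h2
        rw [map_mul, map_mul, h5, mul_one, map_inv, mul_inv_cancel]
      rw [conj_pow, ← map_pow, hp i m h3 h4, map_one]
      group
    · exact Or.inr h

end Pool.Agent.Beb
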