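import Pool.Agent.Work.MP_beb559_al.Core

/-!
# Toolbox A: consequences of the four point condition

Everything here is: choose the instances of the four point condition given in the hint, add
triangle inequalities (`L.d_tri`, `L.d_comm`, `L.d_smul`), and call `omega`.
-/

namespace Pool.Agent.Beb

variable {G : Type} [Group G] (L : Len G) {D : ℕ}

namespace Len

/-- The shift of `g` along `[a,b]` (positive: towards `b`). -/
def sh (a b g : G) : ℤ := (L.d a b : ℤ) - L.d (g * a) b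

end Len

/-- TA1. If `z` is `ε`-between `a` and `b`, a point `w` which is not much farther from `a` and from
`b` than `z` is close to `z`. Hint: four points `w, a, z, b`. -/
theorem pt_le (hH : L.Hyp D) {a b z w : G} {ε u : ℕ} (h : L.d a z + L.d z b ≤ L.d a b + ε)
    (h1 : L.d w a ≤ L.d a z + u) (h2 : L.d w b ≤ L.d z b + u) : L.d w z ≤ u + D + ε := by
  have h3 := hH w a z b
  omega

/-- TA2. Tripod. Hint: `L.d_interp a c (L.d a z)` gives `z'`; four points `c, a, z, b` give
`L.d c z ≤ L.d a c - L.d a z + D`; then `pt_le` for `z` and `z'` between `a` and `c`. -/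
theorem tripod (hH : L.Hyp D) {a b c z : G} (hz : L.Btw a z b)
    (h : 2 * L.d a z + L.d b c ≤ L.d a b + L.d a c) :
    ∃ z', L.Btw a z' c ∧ L.d a z' = L.d a z ∧ L.d z z' ≤ 2 * D := by
  have t1 := L.d_tri a c b
  have e1 := L.d_comm c b
  obtain ⟨z', h1, h2⟩ := L.d_interp a c (L.d a z) (by omega)
  have h3 := hH c a z b
  have e2 := L.d_comm c a
  have e3 := L.d_comm z a
  have e4 := L.d_comm c z
  unfold Len.Btw at hz
  have h5 := pt_le L hH (a := a) (b := c) (z := z') (w := z) (ε := 0) (u := D)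
    (by omega) (by omega) (by omega)
  exact ⟨z', by unfold Len.Btw; omega, h1, by omega⟩

/-- TA3. Thin triangles. Hint: `tripod` from the end `a` or from the end `b`. -/
theorem thin (hH : L.Hyp D) {a b z : G} (c : G) (hz : L.Btw a z b) :
    ∃ z', (L.Btw a z' c ∨ L.Btw c z' b) ∧ L.d z z' ≤ 2 * D := by
  by_cases h : 2 * L.d a z + L.d b c ≤ L.d a b + L.d a c
  · obtain ⟨z', h1, -, h2⟩ := tripod L hH hz h
    exact ⟨z', Or.inl h1, h2⟩
  · have e1 := L.d_comm a b
    have e2 := L.d_comm a z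
    have e3 := L.d_comm z b
    have e4 := L.d_comm b c
    have e5 := L.d_comm a c
    unfold Len.Btw at hz
    obtain ⟨z', h1, -, h2⟩ := tripod L hH (a := b) (b := a) (c := c) (z := z)
      (by unfold Len.Btw; omega) (by omega)
    have e6 := L.d_comm b z'
    have e7 := L.d_comm z' c
    unfold Len.Btw at h1
    exact ⟨z', Or.inr (by unfold Len.Btw; omega), h2⟩

/-- TA3'. A point `ε`-between `a` and `b` is close to a point exactly between, and one can prescribe
`L.d a z' = min (L.d a z) (L.d a b)`. Hint: `L.d_interp`, `pt_le`. -/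
theorem near_btw (hH : L.Hyp D) {a b z : G} {ε : ℕ} (h : L.d a z + L.d z b ≤ L.d a b + ε) :
    ∃ z', L.Btw a z' b ∧ L.d a z' = min (L.d a z) (L.d a b) ∧ L.d z z' ≤ ε + D := by
  obtain ⟨z', h1, h2⟩ := L.d_interp a b (min (L.d a z) (L.d a b)) (by omega)
  have e1 := L.d_comm a z
  have h3 := pt_le L hH (a := a) (b := b) (z := z') (w := z) (ε := 0) (u := ε)
    (by omega) (by omega) (by omega)
  exact ⟨z', by unfold Len.Btw; omega, h1, by omega⟩

/-- TA3''. Two points between `x` and `y`: their distance is the difference of their distances to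
`x`, up to `D`. Hint: `pt_le`. -/
theorem btw_btw (hH : L.Hyp D) {x y z w : G} (hz : L.Btw x z y) (hw : L.Btw x w y)
    (h : L.d x z ≤ L.d x w) : L.d x z + L.d z w ≤ L.d x w + D := by
  have h1 := hH z x w y
  have e1 := L.d_comm z x
  unfold Len.Btw at hz hw
  omega

/-- TA4. Thin quadrilaterals. Hint: `thin` twice. -/
theorem quad (hH : L.Hyp D) {a b z : G} (c d : G) (hz : L.Btw a z b) :
    ∃ z', (L.Btw a z' c ∨ L.Btw c z' d ∨ L.Btw d z' b) ∧ L.d z z' ≤ 4 * D := by
  obtain ⟨z1, h1 | h1, h2⟩ := thin L hH c hz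
  · exact ⟨z1, Or.inl h1, by omega⟩
  · obtain ⟨z2, h3, h4⟩ := thin L hH d h1
    have h5 := L.d_tri z z1 z2
    exact ⟨z2, Or.inr h3, by omega⟩

/-- TA4'. If moreover `z` is farther than `L.d a c + 4 D` from `a` and than `L.d b d + 4 D` from
`b`, then it is close to `[c, d]`. Hint: every point between `a` and `c` is at distance at most
`L.d a c` from `a`. -/
theorem quad_deep (hH : L.Hyp D) {a b z : G} (c d : G) (hz : L.Btw a z b)
    (h1 : L.d a c + 4 * D < L.d a z) (h2 : L.d b d + 4 * D < L.d z b) :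
    ∃ z', L.Btw c z' d ∧ L.d z z' ≤ 4 * D := by
  obtain ⟨z', h3, h4⟩ := quad L hH c d hz
  have e1 := L.d_comm z z'
  have e2 := L.d_comm b d
  have t1 := L.d_tri a z' z
  have t2 := L.d_tri z z' b
  rcases h3 with h3 | h3 | h3
  · unfold Len.Btw at h3
    omega
  · exact ⟨z', h3, h4⟩
  · unfold Len.Btw at h3
    omega

/-- TA5. Translation lemma. `g` moves `a` and `b` at most `T`, `z` is `ε`-between and deep.
Hint: put `s₁ = L.d a (g*b) - L.d a b`, `s₂ = L.d b (g*a) - L.d a b`. Four points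
`a, b, g*a, g*b` give `|s₁ + s₂| ≤ D`. Four points `a, g*a, g*z, g*b` give
`L.d a (g*z) ≤ L.d a z + s₁ + D`, the triangle inequality gives `≥ L.d a z + s₁ - ε`. Symmetric
for `b`. The rest follows with `pt_le` (for `w = g*z`). -/
theorem transl (hH : L.Hyp D) {a b z g : G} {T ε : ℕ} (ha : L.d a (g * a) ≤ T)
    (hb : L.d b (g * b) ≤ T) (h : L.d a z + L.d z b ≤ L.d a b + ε)
    (h1 : T + D + ε ≤ L.d a z) (h2 : T + D + ε ≤ L.d z b) :
    (L.d a z : ℤ) + L.sh a b g - D - ε ≤ L.d a (g * z) ∧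
    (L.d a (g * z) : ℤ) ≤ L.d a z + L.sh a b g + 2 * D ∧
    (L.d z b : ℤ) - L.sh a b g - ε ≤ L.d (g * z) b ∧
    (L.d (g * z) b : ℤ) ≤ L.d z b - L.sh a b g + D ∧
    L.d a (g * z) + L.d (g * z) b ≤ L.d a b + (3 * D + ε) ∧
    |L.sh a b g| ≤ L.d z (g * z) + 2 * D ∧
    (L.d z (g * z) : ℤ) ≤ |L.sh a b g| + (3 * D + ε) := by
  have q1 := hH a b (g * a) (g * b)
  have q1' := hH a (g * a) b (g * b)
  have q1'' := hH a b (g * b) (g * a)
  have q2 := hH a (g * a) (g * z) (g * b)
  have q3 := hH b (g * b) (g * z) (g * a)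
  have q4 := hH (g * z) a z b
  have e1 := L.d_smul g a b
  have e2 := L.d_smul g a z
  have e3 := L.d_smul g z b
  have f1 := L.d_comm (g * b) (g * z)
  have f2 := L.d_comm (g * a) (g * z)
  have f3 := L.d_comm (g * a) (g * b)
  have f4 := L.d_comm b (g * z)
  have f5 := L.d_comm b (g * a)
  have f6 := L.d_comm (g * z) a
  have f7 := L.d_comm (g * z) z
  have f8 := L.d_comm b (g * b)
  have f9 := L.d_comm (g * a) b
  have f10 := L.d_comm a (g * a)
  have f11 := L.d_comm a (g * b)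
  have t1 := L.d_tri a (g * z) (g * b)
  have t2 := L.d_tri (g * a) (g * z) b
  have t3 := L.d_tri a (g * b) b
  have t4 := L.d_tri a (g * a) b
  have t5 := L.d_tri a z (g * z)
  have t6 := L.d_tri z (g * z) b
  have t7 := L.d_tri (g * z) z b
  have t8 := L.d_tri a (g * z) z
  have s1 := le_abs_self (L.sh a b g)
  have s2 := neg_abs_le (L.sh a b g)
  have hs : L.sh a b g = (L.d a b : ℤ) - L.d (g * a) b := rfl
  have c1 : (L.d a z : ℤ) + L.sh a b g - D - ε ≤ L.d a (g * z) := by omega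
  have c2 : (L.d a (g * z) : ℤ) ≤ L.d a z + L.sh a b g + 2 * D := by omega
  have c3 : (L.d z b : ℤ) - L.sh a b g - ε ≤ L.d (g * z) b := by omega
  have c4 : (L.d (g * z) b : ℤ) ≤ L.d z b - L.sh a b g + D := by omega
  refine ⟨c1, c2, c3, c4, by omega, abs_le.2 ⟨by omega, by omega⟩, by omega⟩

/-- The shift is at most the displacement of the ends (triangle inequality). -/
theorem sh_le (a b g : G) : |L.sh a b g| ≤ L.d a (g * a) ∧ |L.sh a b g| ≤ L.d b (g * b) := by
  have e1 := L.d_smul g a b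
  have f1 := L.d_comm (g * a) a
  have f2 := L.d_comm (g * b) b
  have t1 := L.d_tri a (g * a) b
  have t2 := L.d_tri (g * a) a b
  have t3 := L.d_tri (g * a) b (g * b)
  have t4 := L.d_tri (g * a) (g * b) b
  unfold Len.sh
  exact ⟨abs_le.2 ⟨by omega, by omega⟩, abs_le.2 ⟨by omega, by omega⟩⟩

/-- TA5'. The image of a deep point is close to a point exactly between. Hint: `transl` and
`near_btw`. -/
theorem transl_near (hH : L.Hyp D) {a b z g : G} {T : ℕ} (ha : L.d a (g * a) ≤ T)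
    (hb : L.d b (g * b) ≤ T) (h : L.Btw a z b) (h1 : T + D ≤ L.d a z) (h2 : T + D ≤ L.d z b) :
    ∃ z', L.Btw a z' b ∧ L.d (g * z) z' ≤ 4 * D := by
  unfold Len.Btw at h
  obtain ⟨-, -, -, -, h3, -, -⟩ := transl L hH (z := z) (ε := 0) ha hb (by omega) (by omega)
    (by omega)
  obtain ⟨z', h4, -, h5⟩ := near_btw L hH h3
  exact ⟨z', h4, by omega⟩

/-- Two translations: `g * h * z`. -/
theorem transl2 (hH : L.Hyp D) {a b z g h : G} {T : ℕ} (ga : L.d a (g * a) ≤ T)
    (gb : L.d b (g * b) ≤ T) (ha : L.d a (h * a) ≤ T) (hb : L.d b (h * b) ≤ T)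
    (hz : L.Btw a z b) (h1 : 2 * T + 5 * D ≤ L.d a z) (h2 : 2 * T + 5 * D ≤ L.d z b) :
    (L.d a z : ℤ) + L.sh a b g + L.sh a b h - 5 * D ≤ L.d a (g * h * z) ∧
    (L.d a (g * h * z) : ℤ) ≤ L.d a z + L.sh a b g + L.sh a b h + 4 * D ∧
    (L.d z b : ℤ) - L.sh a b g - L.sh a b h - 3 * D ≤ L.d (g * h * z) b ∧
    (L.d (g * h * z) b : ℤ) ≤ L.d z b - L.sh a b g - L.sh a b h + 2 * D ∧
    L.d a (g * h * z) + L.d (g * h * z) b ≤ L.d a b + 6 * D := by
  unfold Len.Btw at hz
  obtain ⟨a1, a2, a3, a4, a5, -, -⟩ := transl L hH (z := z) (g := h) (ε := 0) ha hb (by omega)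
    (by omega) (by omega)
  obtain ⟨s1, s2⟩ := sh_le L a b h
  have s3 := abs_le.1 s1
  have s4 := abs_le.1 s2
  obtain ⟨b1, b2, b3, b4, b5, -, -⟩ := transl L hH (z := h * z) (g := g) (ε := 3 * D) ga gb
    (by omega) (by omega) (by omega)
  rw [mul_assoc]
  push_cast at *
  exact ⟨by omega, by omega, by omega, by omega, by omega⟩

/-- TA6. Products. Hint: apply `transl` to `h` and `z` (`ε = 0`), then to `g` and `h * z`
(`ε = 3 D`), and compare with `transl` for `g * h` (`T` replaced by `2 T`). -/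
theorem sh_mul (hH : L.Hyp D) {a b g h : G} {T : ℕ} (ga : L.d a (g * a) ≤ T)
    (gb : L.d b (g * b) ≤ T) (ha : L.d a (h * a) ≤ T) (hb : L.d b (h * b) ≤ T)
    (hab : 4 * T + 22 * D ≤ L.d a b) :
    |L.sh a b (g * h) - L.sh a b g - L.sh a b h| ≤ 9 * D := by
  obtain ⟨z, h1, h2⟩ := L.d_interp a b (L.d a b / 2) (by omega)
  obtain ⟨a1, a2, a3, a4, a5⟩ := transl2 L hH (z := z) ga gb ha hb (by unfold Len.Btw; omega)
    (by omega) (by omega)
  have k1 : L.d a (g * h * a) ≤ 2 * T := by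
    have t1 := L.d_tri a (g * a) (g * h * a)
    have e1 := L.d_smul g a (h * a)
    rw [← mul_assoc] at e1
    omega
  have k2 : L.d b (g * h * b) ≤ 2 * T := by
    have t1 := L.d_tri b (g * b) (g * h * b)
    have e1 := L.d_smul g b (h * b)
    rw [← mul_assoc] at e1
    omega
  obtain ⟨b1, b2, b3, b4, b5, -, -⟩ := transl L hH (z := z) (g := g * h) (ε := 0) k1 k2
    (by omega) (by omega) (by omega)
  push_cast at *
  exact abs_le.2 ⟨by omega, by omega⟩

/-- TA6'. Hint: `sh_mul` with `h = g⁻¹`. -/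
theorem sh_inv (hH : L.Hyp D) {a b g : G} {T : ℕ} (ga : L.d a (g * a) ≤ T)
    (gb : L.d b (g * b) ≤ T) (hab : 4 * T + 22 * D ≤ L.d a b) :
    |L.sh a b g⁻¹ + L.sh a b g| ≤ 9 * D := by
  have k : ∀ c : G, L.d c (g⁻¹ * c) = L.d c (g * c) := by
    intro c
    have e1 := L.d_smul g c (g⁻¹ * c)
    rw [mul_inv_cancel_left] at e1
    rw [← e1, L.d_comm]
  have h1 := sh_mul L hH ga gb (by rw [k]; exact ga) (by rw [k]; exact gb) hab
  have h2 : L.sh a b (g * g⁻¹) = 0 := by
    unfold Len.sh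
    rw [mul_inv_cancel, one_mul]
    omega
  rw [h2] at h1
  have h3 := abs_le.1 h1
  exact abs_le.2 ⟨by omega, by omega⟩

/-- TA6''. Commutators move deep points little. Hint: by `transl` (twice, as in TA6) the points
`g*h*z` and `h*g*z` are both `6 D`-between `a` and `b`, with distances to `a` (to `b`) differing by
at most `9 D` (`5 D`); `pt_le`. -/
theorem comm_small (hH : L.Hyp D) {a b z g h : G} {T : ℕ} (ga : L.d a (g * a) ≤ T)
    (gb : L.d b (g * b) ≤ T) (ha : L.d a (h * a) ≤ T) (hb : L.d b (h * b) ≤ T)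
    (hz : L.Btw a z b) (h1 : 2 * T + 10 * D ≤ L.d a z) (h2 : 2 * T + 10 * D ≤ L.d z b) :
    L.d (g * h * z) (h * g * z) ≤ 16 * D := by
  obtain ⟨a1, a2, a3, a4, a5⟩ := transl2 L hH (z := z) ga gb ha hb hz (by omega) (by omega)
  obtain ⟨b1, b2, b3, b4, b5⟩ := transl2 L hH (z := z) ha hb ga gb hz (by omega) (by omega)
  have e1 := L.d_comm (g * h * z) a
  have h3 := pt_le L hH (a := a) (b := b) (z := h * g * z) (w := g * h * z) (ε := 6 * D)
    (u := 9 * D) (by omega) (by omega) (by omega)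
  omega

/-- TA7. Quasi-convexity of the displacement. Hint: four points `x, g*x, g*z, g*y` and
`y, g*y, g*z, g*x` bound `L.d x (g*z)` and `L.d y (g*z)`; then `pt_le`. -/
theorem disp_qc (hH : L.Hyp D) {x y z g : G} {T : ℕ} (hz : L.Btw x z y)
    (hx : L.d x (g * x) ≤ T) (hy : L.d y (g * y) ≤ T) : L.d z (g * z) ≤ T + 2 * D := by
  have q1 := hH x (g * x) (g * z) (g * y)
  have q2 := hH y (g * y) (g * z) (g * x)
  have e1 := L.d_smul g x y
  have e2 := L.d_smul g x z
  have e3 := L.d_smul g z y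
  have f1 := L.d_comm (g * y) (g * z)
  have f2 := L.d_comm (g * z) (g * x)
  have f3 := L.d_comm (g * y) (g * x)
  have f4 := L.d_comm y (g * z)
  have f5 := L.d_comm x (g * z)
  have f6 := L.d_comm (g * z) z
  have t1 := L.d_tri x y (g * y)
  have t2 := L.d_tri y x (g * x)
  have f7 := L.d_comm x y
  unfold Len.Btw at hz
  have h1 := pt_le L hH (a := x) (b := y) (z := z) (w := g * z) (ε := 0) (u := T + D)
    (by omega) (by omega) (by omega)
  omega

/-- TA8. Chains: if `(z₀ | z₂)_{z₁} ≤ a` and `L.d z₁ z₂` is large then the same holds with a farther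
point. Hint: four points. Here `2 (x|z)_y = L.d y x + L.d y z - L.d x z`. -/
theorem chain (hH : L.Hyp D) {w x y z : G} {a b : ℕ}
    (h1 : L.d w x + L.d x y ≤ L.d w y + a) (h2 : L.d x y + L.d y z ≤ L.d x z + b)
    (h3 : a + b + D < 2 * L.d x y) : L.d w x + L.d x z ≤ L.d w z + a + D ∧
      L.d w y + L.d y z ≤ L.d w z + b + D := by
  have q := hH w x y z
  constructor <;> omega

end Pool.Agent.Beb
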