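import Pool.Agent.Work.MP_beb559_al.Base
import Pool.Agent.Work.MP_beb559_al.ThmB

/-!
# The tower of stages: from the step to Theorem B
-/

namespace Pool.Agent.Beb

open Monoid

/-- One step of the construction. -/
def StepStmt (P : Par) : Prop :=
  ∀ (G E : Type) [Group G] [Group E] (V : Subgroup E) (π : G →* E) (F : Subgroup G) (L : Len G),
    EV P.p V → Inv P V π F L →
    ∃ (K : Subgroup G) (_ : K.Normal) (hle : K ≤ π.ker), (∀ f ∈ F, f ∈ K → f = 1) ∧
      (∀ g : G, kil V π g → Lox L g → (∃ x, L.d x (g * x) ≤ 50 * P.D) → g ^ P.p ∈ K) ∧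
      ∃ L' : Len (G ⧸ K), Inv P V (QuotientGroup.lift K π hle) (F.map (QuotientGroup.mk' K)) L' ∧
        ∀ (g : G) (n : ℕ), L.l g ≤ P.R * n → L'.l (QuotientGroup.mk g) ≤ n

/-- A stage of the construction over `Γ`. -/
structure Stage (P : Par) {Γ E : Type} [Group Γ] [Group E] (V : Subgroup E) (π : Γ →* E)
    (F : Subgroup Γ) : Type 1 where
  G : Type
  [grp : Group G]
  φ : Γ →* G
  surj : Function.Surjective φ
  π' : G →* E
  comp : ∀ g, π' (φ g) = π g
  L : Len G
  inv : Inv P V π' (F.map φ) L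
  inj : ∀ f ∈ F, φ f = 1 → f = 1

attribute [instance] Stage.grp

variable {P : Par} {Γ E : Type} [Group Γ] [Group E] {V : Subgroup E} {π : Γ →* E}
  {F : Subgroup Γ}

/-- The relation between two consecutive stages. -/
structure Stage.Next (s s' : Stage P V π F) : Prop where
  ker : ∀ g, s.φ g = 1 → s'.φ g = 1
  kill : ∀ g, kil V π g → Lox s.L (s.φ g) → s.L.l (s.φ g) ≤ 1 → s'.φ (g ^ P.p) = 1
  len : ∀ g n, s.L.l (s.φ g) ≤ P.R * n → s'.L.l (s'.φ g) ≤ n

theorem Stage.exists_next (hS : StepStmt P) (hE : EV P.p V) (s : Stage P V π F) :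
    ∃ s' : Stage P V π F, s.Next s' := by
  obtain ⟨K, hK, hle, h1, h2, L', h3, h4⟩ := hS s.G E V s.π' (F.map s.φ) s.L hE s.inv
  refine ⟨⟨s.G ⧸ K, (QuotientGroup.mk' K).comp s.φ,
    (QuotientGroup.mk'_surjective K).comp s.surj, QuotientGroup.lift K s.π' hle, ?_, L', ?_, ?_⟩,
    ?_, ?_, ?_⟩
  · intro g
    exact s.comp g
  · rw [← Subgroup.map_map]
    exact h3
  · intro f hf hf1
    have h5 : s.φ f ∈ K := (QuotientGroup.eq_one_iff _).1 hf1
    exact s.inj f hf (h1 _ (Subgroup.mem_map_of_mem _ hf) h5)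
  · intro g hg
    show (QuotientGroup.mk' K) (s.φ g) = 1
    rw [hg, map_one]
  · intro g hk hl hle1
    show (QuotientGroup.mk' K) (s.φ (g ^ P.p)) = 1
    rw [map_pow]
    refine (QuotientGroup.eq_one_iff _).2 (h2 _ ?_ hl ⟨1, ?_⟩)
    · unfold kil at *
      rw [s.comp]
      exact hk
    · rw [s.L.d_one, mul_one]
      have := P.hD
      omega
  · intro g n hn
    exact h4 _ _ hn

/-- The sequence of stages. -/
noncomputable def Stage.seq (hS : StepStmt P) (hE : EV P.p V) (s₀ : Stage P V π F) :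
    ℕ → Stage P V π F
  | 0 => s₀
  | n + 1 => Classical.choose (Stage.exists_next hS hE (Stage.seq hS hE s₀ n))

theorem Stage.seq_next (hS : StepStmt P) (hE : EV P.p V) (s₀ : Stage P V π F) (n : ℕ) :
    (Stage.seq hS hE s₀ n).Next (Stage.seq hS hE s₀ (n + 1)) :=
  Classical.choose_spec (Stage.exists_next hS hE (Stage.seq hS hE s₀ n))

theorem exists_limit (hS : StepStmt P) (hE : EV P.p V) (s₀ : Stage P V π F) :
    ∃ N : Subgroup Γ, N.Normal ∧ N ≤ π.ker ∧
      (∀ g, π g ∈ V → π g ≠ 1 → g ^ P.p ∈ N) ∧ ∀ g ∈ F, g ∈ N → g = 1 := by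
  set S := Stage.seq hS hE s₀ with hSdef
  have hnx := Stage.seq_next hS hE s₀
  have hmono : ∀ m n, m ≤ n → ∀ g, (S m).φ g = 1 → (S n).φ g = 1 := by
    intro m n hmn
    induction n, hmn using Nat.le_induction with
    | base => exact fun g hg => hg
    | succ n _ ih => exact fun g hg => (hnx n).ker g (ih g hg)
  refine ⟨⟨⟨⟨{g | ∃ n, (S n).φ g = 1}, ?_⟩, ?_⟩, ?_⟩, ⟨?_⟩, ?_, ?_, ?_⟩
  · rintro a b ⟨m, hm⟩ ⟨n, hn⟩
    refine ⟨max m n, ?_⟩
    rw [map_mul, hmono m _ (le_max_left _ _) a hm, hmono n _ (le_max_right _ _) b hn, one_mul]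
  · exact ⟨0, map_one _⟩
  · rintro a ⟨m, hm⟩
    exact ⟨m, by rw [map_inv, hm, inv_one]⟩
  · rintro a ⟨m, hm⟩ g
    exact ⟨m, by rw [map_mul, map_mul, hm, map_inv, mul_one, mul_inv_cancel]⟩
  · rintro g ⟨n, hn⟩
    rw [MonoidHom.mem_ker, ← (S n).comp g, hn, map_one]
  · intro g h1 h2
    have hR : 2 ≤ P.R := by
      have := P.hD
      have := P.hT0
      have := P.hT3
      have := P.hA
      have := P.hR1
      have := P.hR
      omega
    have hlen : ∀ k n, (S n).L.l ((S n).φ g) ≤ 2 ^ k → (S (n + k)).L.l ((S (n + k)).φ g) ≤ 1 := by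
      intro k
      induction k with
      | zero => exact fun n hn => by simpa using hn
      | succ k ih =>
        intro n hn
        have h3 := (hnx n).len g (2 ^ k) (hn.trans (by
          rw [pow_succ, mul_comm]
          exact Nat.mul_le_mul_right _ hR))
        have h4 := ih (n + 1) h3
        have e : n + 1 + k = n + (k + 1) := by ring
        rwa [e] at h4
    obtain ⟨k, hk⟩ : ∃ k, (S 0).L.l ((S 0).φ g) ≤ 2 ^ k := ⟨_, Nat.lt_two_pow_self.le⟩
    have h5 := hlen k 0 hk
    set n := 0 + k with hn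
    have hkil : kil V (S n).π' ((S n).φ g) := by
      unfold kil
      rw [(S n).comp]
      exact ⟨h1, h2⟩
    rcases (S n).inv.np ((S n).φ g) with he | hl
    · refine ⟨n, ?_⟩
      rw [map_pow]
      exact (S n).inv.el _ hkil he
    · exact ⟨n + 1, (hnx n).kill g ⟨h1, h2⟩ hl h5⟩
  · rintro f hf ⟨n, hn⟩
    exact (S n).inj f hf hn

/-- Theorem B from the step. -/
theorem partialPeriodic_of_step (P : Par) (hS : StepStmt P) : PartialPeriodic P.p := by
  intro ι _ Gf _ E _ V π H hV hexp hroot hp h2 hF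
  by_cases hι : Nonempty ι
  · have hE : EV P.p V := ⟨hV, hexp, hroot⟩
    have hb := base_inv P V hV π H hp h2 hF
    refine exists_limit hS hE ⟨CoprodI Gf, MonoidHom.id _, Function.surjective_id, π,
      fun g => rfl, syl Gf, ?_, fun f _ hf => hf⟩
    rw [Subgroup.map_id]
    exact hb
  · refine ⟨⊥, inferInstance, bot_le, ?_, ?_⟩
    · intro g _ h
      exfalso
      apply h
      have : g = 1 := by
        induction g using CoprodI.induction_on with
        | one => rfl
        | of i _ => exact absurd ⟨i⟩ hι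
        | mul x y hx hy =>
          have hall : ∀ z : CoprodI Gf, z = 1 := by
            intro z
            rw [← lp_wl z]
            rcases wl z with _ | ⟨a, l⟩
            · rfl
            · exact absurd ⟨a.1⟩ hι
          exact hall _
      rw [this, map_one]
    · intro g _ h
      exact (Subgroup.mem_bot.1 h)

end Pool.Agent.Beb
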