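import Pool.Agent.Work.MP_beb559_al.Len

/-!
# Tree like length functions: unique geodesics whose interior points are cut points
-/

namespace Pool.Agent.Beb

/-- Tree like length functions. -/
structure Len.Tree {G : Type} [Group G] (L : Len G) : Prop where
  uniq : ∀ x y z z', L.Btw x z y → L.Btw x z' y → L.d x z = L.d x z' → z = z'
  cut : ∀ x y x' y' z, L.Btw x z y → L.d x x' + 2 ≤ L.d x z + L.d x' z →
    L.d y y' + 2 ≤ L.d y z + L.d y' z → L.Btw x' z y'

namespace Len.Tree

variable {G : Type} [Group G] {L : Len G} (hT : L.Tree)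

theorem btw_comm {x y z : G} (h : L.Btw x z y) : L.Btw y z x := by
  unfold Len.Btw at *
  rw [L.d_comm y z, L.d_comm z x, L.d_comm y x]
  omega

theorem btw_smul {x y z : G} (g : G) (h : L.Btw x z y) : L.Btw (g * x) (g * z) (g * y) := by
  unfold Len.Btw at *
  rw [L.d_smul, L.d_smul, L.d_smul]
  exact h

include hT

/-- The order on a geodesic. -/
theorem order {x y z z' : G} (h : L.Btw x z y) (h' : L.Btw x z' y) (hd : L.d x z ≤ L.d x z') :
    L.Btw x z z' := by
  obtain ⟨w, h1, h2⟩ := L.d_interp x z' (L.d x z) hd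
  have h3 : L.Btw x w y := by
    unfold Len.Btw at *
    have := L.d_tri x w y
    have := L.d_tri w z' y
    omega
  have h4 := hT.uniq x y z w h h3 h1.symm
  subst h4
  unfold Len.Btw
  omega

/-- Geodesics are concatenated. -/
theorem concat {x y z w : G} (h : L.Btw x y z) (h' : L.Btw y z w) (hyz : y ≠ z) :
    L.Btw x y w := by
  by_cases hxy : x = y
  · subst hxy
    unfold Len.Btw
    rw [L.d_self]; omega
  have h1 : 1 ≤ L.d y z := by
    by_contra hc
    exact hyz (L.eq_of_d (by omega))
  have h2 : 1 ≤ L.d x y := by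
    by_contra hc
    exact hxy (L.eq_of_d (by omega))
  refine hT.cut x z x w y h ?_ ?_
  · rw [L.d_self]; omega
  · unfold Len.Btw at h'
    rw [L.d_comm z y, L.d_comm w y]
    omega

/-- Small elements shift deep points of the geodesic. -/
theorem shift {x y g : G} {T : ℕ} (hx : L.d x (g * x) ≤ T) (hy : L.d y (g * y) ≤ T) :
    ∃ s : ℤ, |s| ≤ T ∧ ∀ z, L.Btw x z y → 2 * T < L.d x z → 2 * T < L.d z y →
      L.Btw x (g * z) y ∧ (L.d x (g * z) : ℤ) = L.d x z + s := by
  have hbtw : ∀ z, L.Btw x z y → 2 * T < L.d x z → 2 * T < L.d z y → L.Btw x (g * z) y := by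
    intro z hz h1 h2
    have e1 : L.d x (g⁻¹ * x) = L.d x (g * x) := by
      rw [← L.d_smul g x (g⁻¹ * x), L.d_comm]
      simp
    have e2 : L.d y (g⁻¹ * y) = L.d y (g * y) := by
      rw [← L.d_smul g y (g⁻¹ * y), L.d_comm]
      simp
    have h3 : L.Btw (g⁻¹ * x) z (g⁻¹ * y) := by
      refine hT.cut x y _ _ z hz ?_ ?_
      · have := L.d_tri x (g⁻¹ * x) z
        omega
      · have := L.d_tri y (g⁻¹ * y) z
        have := L.d_comm z y
        omega
    have h4 := btw_smul g h3
    simpa using h4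
  have hsh : ∀ z, L.d x (g * z) ≤ L.d x z + T ∧ L.d x z ≤ L.d x (g * z) + T := by
    intro z
    have h1 := L.d_tri x (g * x) (g * z)
    have h2 := L.d_tri (g * x) x (g * z)
    rw [L.d_smul] at h1 h2
    rw [L.d_comm (g * x) x] at h2
    omega
  have key : ∀ z z', L.Btw x z y → 2 * T < L.d x z → 2 * T < L.d z y → L.Btw x z' y →
      2 * T < L.d x z' → 2 * T < L.d z' y → L.d x z ≤ L.d x z' →
      (L.d x (g * z) : ℤ) - L.d x z = L.d x (g * z') - L.d x z' := by
    intro z z' a1 a2 a3 b1 b2 b3 hle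
    have c1 := hbtw z a1 a2 a3
    have c2 := hbtw z' b1 b2 b3
    have c3 : L.Btw x z z' := order hT a1 b1 hle
    unfold Len.Btw at c3
    rcases le_total (L.d x (g * z)) (L.d x (g * z')) with h | h
    · have c4 : L.Btw x (g * z) (g * z') := order hT c1 c2 h
      unfold Len.Btw at c4
      rw [L.d_smul] at c4
      omega
    · have c4 : L.Btw x (g * z') (g * z) := order hT c2 c1 h
      have s1 := hsh z
      have s2 := hsh z'
      have c4' := c4
      unfold Len.Btw at c4'
      rw [L.d_smul, L.d_comm z' z] at c4'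
      by_cases hzz : L.d z z' = 0
      · omega
      · have c5 : L.Btw (g * x) (g * z') (g * z) := by
          refine hT.cut x (g * z) (g * x) (g * z) (g * z') c4 ?_ ?_
          · rw [L.d_smul]; omega
          · rw [L.d_self, L.d_smul]; omega
        unfold Len.Btw at c5
        rw [L.d_smul, L.d_smul, L.d_smul, L.d_comm z' z] at c5
        omega
  by_cases hex : ∃ z, L.Btw x z y ∧ 2 * T < L.d x z ∧ 2 * T < L.d z y
  · obtain ⟨z0, a1, a2, a3⟩ := hex
    refine ⟨(L.d x (g * z0) : ℤ) - L.d x z0, ?_, ?_⟩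
    · have := hsh z0
      rw [abs_le]
      constructor <;> omega
    · intro z b1 b2 b3
      refine ⟨hbtw z b1 b2 b3, ?_⟩
      rcases le_total (L.d x z0) (L.d x z) with h | h
      · have := key z0 z a1 a2 a3 b1 b2 b3 h
        omega
      · have := key z z0 b1 b2 b3 a1 a2 a3 h
        omega
  · refine ⟨0, by simp, ?_⟩
    intro z b1 b2 b3
    exact absurd ⟨z, b1, b2, b3⟩ hex

end Len.Tree

end Pool.Agent.Beb
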