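import Pool.Agent.Work.MP_beb559_al.WindD

/-!
# Windmills in projection systems: chains
-/

namespace Pool.Agent.Beb

theorem oact_one {G I : Type} [Group G] [MulAction G I] (a : G ⊕ I) : oact 1 a = a := by
  cases a <;> simp [oact]

theorem oact_mul {G I : Type} [Group G] [MulAction G I] (g h : G) (a : G ⊕ I) :
    oact (g * h) a = oact g (oact h a) := by
  cases a <;> simp [oact, mul_assoc, mul_smul]

theorem oact_inj {G I : Type} [Group G] [MulAction G I] (g : G) {a b : G ⊕ I}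
    (h : oact g a = oact g b) : a = b := by
  have h1 := congrArg (oact g⁻¹) h
  rwa [← oact_mul, ← oact_mul, inv_mul_cancel, oact_one, oact_one] at h1

namespace PS

variable {G I : Type} [Group G] [MulAction G I] (S : PS G I)

/-- `Ch E W A P Q B`: a chain from `A` to `B` with interior sets in `W` and angles at least `5 θ`;
`P` is the first object after `A` and `Q` the last object before `B`. -/
inductive Ch (E : G ⊕ I → G ⊕ I → Prop) (W : Set I) :
    G ⊕ I → G ⊕ I → G ⊕ I → G ⊕ I → Prop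
  | edge {A B : G ⊕ I} (h : E A B) (hne : A ≠ B) : Ch E W A B A B
  | cons {A : G ⊕ I} {Z : I} {P Q B : G ⊕ I} (h : E A (.inr Z)) (hne : A ≠ .inr Z) (hZ : Z ∈ W)
      (hc : Ch E W (.inr Z) P Q B) (hb : 5 * S.θ ≤ S.d Z A P) : Ch E W A (.inr Z) Q B

variable {S}
variable {E : G ⊕ I → G ⊕ I → Prop} {W : Set I} {A B P Q P' Q' : G ⊕ I}

theorem Ch.append {Z : I} (h : S.Ch E W A P Q (.inr Z)) (hZ : Z ∈ W)
    (h' : S.Ch E W (.inr Z) P' Q' B) (hb : 5 * S.θ ≤ S.d Z Q P') : S.Ch E W A P Q' B := by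
  generalize hC : (Sum.inr Z : G ⊕ I) = C at h
  induction h with
  | edge h hne =>
    subst hC
    exact Ch.cons h hne hZ h' hb
  | cons h hne hZ1 hc hb1 ih => exact Ch.cons h hne hZ1 (ih hb hC) hb1

theorem Ch.reverse (hE : ∀ u v, E u v → E v u) (h : S.Ch E W A P Q B) : S.Ch E W B Q P A := by
  induction h with
  | edge h hne => exact Ch.edge (hE _ _ h) hne.symm
  | cons h hne hZ hc hb ih =>
    exact ih.append hZ (Ch.edge (hE _ _ h) hne.symm) (by rw [S.d_comm]; exact hb)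

theorem Ch.smul (g : G) (hE : ∀ u v, E u v → E (oact g u) (oact g v))
    (hW : ∀ Z ∈ W, g • Z ∈ W) (h : S.Ch E W A P Q B) :
    S.Ch E W (oact g A) (oact g P) (oact g Q) (oact g B) := by
  induction h with
  | edge h hne => exact Ch.edge (hE _ _ h) (fun e => hne (oact_inj g e))
  | @cons A Z P Q B h hne hZ hc hb ih =>
    refine Ch.cons (Z := g • Z) (hE _ _ h) (fun e => hne (oact_inj g e)) (hW Z hZ) ih ?_
    rw [S.d_smul]
    exact hb

theorem Ch.mono {E' : G ⊕ I → G ⊕ I → Prop} {W' : Set I} (hE : ∀ u v, E u v → E' u v)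
    (hW : W ⊆ W') (h : S.Ch E W A P Q B) : S.Ch E' W' A P Q B := by
  induction h with
  | edge h hne => exact Ch.edge (hE _ _ h) hne
  | cons h hne hZ hc hb ih => exact Ch.cons (hE _ _ h) hne (hW hZ) ih hb

/-- The first object: either the chain is an edge or the first object is a set in `W`. -/
theorem Ch.first (h : S.Ch E W A P Q B) : (P = B ∧ Q = A ∧ E A B) ∨ ∃ Z ∈ W, P = .inr Z := by
  cases h with
  | edge h hne => exact Or.inl ⟨rfl, rfl, h⟩
  | cons h hne hZ hc hb => exact Or.inr ⟨_, hZ, rfl⟩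

theorem Ch.last (h : S.Ch E W A P Q B) : (P = B ∧ Q = A ∧ E A B) ∨ ∃ Z ∈ W, Q = .inr Z := by
  induction h with
  | edge h hne => exact Or.inl ⟨rfl, rfl, h⟩
  | @cons A Z P Q B h hne hZ hc hb ih =>
    rcases ih with ⟨-, h1, -⟩ | h1
    · exact Or.inr ⟨Z, hZ, h1⟩
    · exact Or.inr h1

theorem Ch.aux (h : S.Ch E W A P Q B) :
    A ≠ B ∧ P ≠ A ∧ ∀ Y, A = .inr Y → S.d Y P B ≤ S.θ := by
  have hpos := S.pos
  induction h with
  | edge h hne =>
    refine ⟨hne, hne.symm, ?_⟩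
    rintro Y rfl
    exact S.d_self Y _ hne.symm
  | @cons A Z P Q B h hne hZ hc hb ih =>
    obtain ⟨h1, h2, h3⟩ := ih
    have h4 := h3 Z rfl
    have h5 := S.d_tri Z A B P hne h1.symm h2
    have h6 := S.d_comm Z P B
    have hAB : A ≠ B := by
      rintro rfl
      have := S.d_self Z A hne
      omega
    refine ⟨hAB, hne.symm, ?_⟩
    rintro Y rfl
    have hZY : Z ≠ Y := by
      rintro rfl
      exact hne rfl
    have h7 := S.beh Z Y B hZY h1.symm hAB.symm (by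
      rw [S.d_comm]
      omega)
    rw [S.d_comm]
    exact h7

theorem Ch.ne (h : S.Ch E W A P Q B) : A ≠ B := h.aux.1

theorem Ch.ne_first (h : S.Ch E W A P Q B) : P ≠ A := h.aux.2.1

theorem Ch.ne_last (h : S.Ch E W A P Q B) : Q ≠ B := by
  induction h with
  | edge h hne => exact hne
  | cons h hne hZ hc hb ih => exact ih

/-- (LG) -/
theorem Ch.lg {Y : I} (h : S.Ch E W (.inr Y) P Q B) : S.d Y P B ≤ S.θ := h.aux.2.2 Y rfl

theorem Ch.lg2 {Z : I} (h : S.Ch E W A (.inr Z) Q B) (hB : B ≠ .inr Z) :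
    4 * S.θ ≤ S.d Z A B := by
  cases h with
  | edge h hne => exact absurd rfl hB
  | cons h hne hZ hc hb =>
    have h1 := hc.lg
    have h2 := S.d_tri Z A B _ hne hB hc.ne_first
    have h3 := S.d_comm Z B
    rw [h3] at h2
    omega

theorem Ch.gap_aux {Y : I} {A₀ : G ⊕ I} (h : S.Ch E W A P Q B) (hY : Y ∉ W) (hA₀ : A₀ ≠ .inr Y)
    (hA : A ≠ .inr Y) (hB : B ≠ .inr Y) (hE : ∀ u v, E u v → S.d Y u v ≤ 4 * S.θ)
    (h1 : S.d Y A₀ A ≤ S.θ) (h2 : ∀ Z, P = .inr Z → A₀ ≠ .inr Z ∧ S.d Z A₀ A ≤ S.θ) :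
    S.d Y A₀ B ≤ 6 * S.θ := by
  have hpos := S.pos
  induction h with
  | @edge A B h hne =>
    have h3 := S.d_tri Y A₀ A B hA₀ hA hB
    have h4 := hE _ _ h
    omega
  | @cons A Z P Q B h hne hZ hc hb ih =>
    obtain ⟨h3, h4⟩ := h2 Z rfl
    have hZY : Z ≠ Y := by
      rintro rfl
      exact hY hZ
    have hZY' : (Sum.inr Z : G ⊕ I) ≠ .inr Y := fun e => hZY (Sum.inr.inj e)
    have hYZ' : (Sum.inr Y : G ⊕ I) ≠ .inr Z := fun e => hZY (Sum.inr.inj e).symm
    have h5 := hc.lg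
    have h6 := S.d_tri Z A A₀ P hne h3 hc.ne_first
    have h7 := S.d_comm Z A₀ A
    have h8 := S.d_tri Z A₀ B P h3 hc.ne.symm hc.ne_first
    have h9 := S.d_comm Z P B
    have h10 := S.d_tri Z A₀ (.inr Y) B h3 hYZ' hc.ne.symm
    by_cases hc1 : S.θ < S.d Z A₀ (.inr Y)
    · have h11 := S.beh Z Y A₀ hZY h3 hA₀ hc1
      refine ih hZY' hB h11 ?_
      rintro Z1 rfl
      have h12 : A₀ ≠ .inr Z1 := by
        rintro rfl
        have := S.d_self Z _ h3
        omega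
      refine ⟨h12, ?_⟩
      refine S.beh Z Z1 A₀ ?_ h3 h12 (by omega)
      rintro rfl
      exact hc.ne_first rfl
    · have h11 := S.beh Z Y B hZY hc.ne.symm hB (by
        rw [S.d_comm]
        omega)
      have h12 := hE _ _ h
      have h13 := S.d_tri Y A₀ A B hA₀ hA hB
      have h14 := S.d_tri Y A (.inr Z) B hA hZY' hB
      have h15 := S.d_comm Y B (.inr Z)
      omega

/-- (GAP) -/
theorem Ch.gap {Y : I} (h : S.Ch E W A P Q B) (hY : Y ∉ W) (hA : A ≠ .inr Y) (hB : B ≠ .inr Y)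
    (hE : ∀ u v, E u v → S.d Y u v ≤ 4 * S.θ) : S.d Y A B ≤ 6 * S.θ := by
  refine h.gap_aux hY hA hA hB hE (S.d_self Y A hA) ?_
  rintro Z rfl
  exact ⟨h.ne_first.symm, S.d_self Z A h.ne_first.symm⟩

end PS

end Pool.Agent.Beb
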