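import Pool.Agent.Work.MP_beb559_al.WindA

/-!
# Windmills in projection systems: levels
-/

namespace Pool.Agent.Beb

namespace PS

variable {G I : Type} [Group G] [MulAction G I] (S : PS G I) (x : G)

/-- The subgroup generated by the rotations around sets at distance less than `n`. -/
def Kn (n : ℕ) : Subgroup G := ⨆ Z : {Z : I // S.D x Z < n}, S.Hs Z.1

/-- The sets which `Kn` moves to distance less than `n`. -/
def Wn (n : ℕ) : Set I := {Z | ∃ k ∈ S.Kn x n, S.D x (k • Z) < n}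

/-- The new sets of level `n`. -/
def Bn (n : ℕ) (Y : I) : Prop := S.D x Y = n ∧ Y ∉ S.Wn x n

/-- The point `x` and the sets which are closest to `x` in their orbit. -/
def Tn (n : ℕ) : Set (G ⊕ I) := {a | a = .inl x ∨ ∃ Z, a = .inr Z ∧
  ((S.D x Z < n ∧ Z ∉ S.Wn x (S.D x Z)) ∨
    (Z ∉ S.Wn x n ∧ ∀ k ∈ S.Kn x n, S.D x Z ≤ S.D x (k • Z)))}

/-- Objects at distance less than `ρ`. -/
def Lt (ρ : ℕ) (a : G ⊕ I) : Prop := ∀ Z, a = .inr Z → S.D x Z < ρ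

/-- Pairs of objects which look close from all sets whose orbit is far away. -/
def En (n ρ : ℕ) (u v : G ⊕ I) : Prop :=
  ∀ Y, (∀ κ ∈ S.Kn x n, ρ ≤ S.D x (κ • Y)) → S.d Y u v ≤ 4 * S.θ

/-- Expressions with `m` syllables. -/
inductive Ex (n : ℕ) : ℕ → G → Prop
  | zero {k : G} (h : k ∈ S.Kn x n) : Ex n 0 k
  | succ {m : ℕ} {k0 r k' : G} {Y : I} (h0 : k0 ∈ S.Kn x n) (hY : S.Bn x n Y) (hr : r ∈ S.Hs Y)
      (h : Ex n m k') : Ex n (m + 1) (k0 * r * k')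

variable {S x}

theorem Hs_le_Kn {Z : I} {n : ℕ} (h : S.D x Z < n) : S.Hs Z ≤ S.Kn x n :=
  le_iSup (fun Z : {Z : I // S.D x Z < n} => S.Hs Z.1) ⟨Z, h⟩

theorem Kn_mono {m n : ℕ} (h : m ≤ n) : S.Kn x m ≤ S.Kn x n :=
  iSup_le fun Z => Hs_le_Kn (lt_of_lt_of_le Z.2 h)

theorem Kn_zero {k : G} (h : k ∈ S.Kn x 0) : k = 1 := by
  have h1 : S.Kn x 0 ≤ ⊥ := iSup_le fun Z => absurd Z.2 (Nat.not_lt_zero _)
  exact Subgroup.mem_bot.1 (h1 h)

theorem exists_Kn {k : G} (x : G) (h : k ∈ S.K) : ∃ n, k ∈ S.Kn x n := by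
  have h1 : S.K ≤ ⨆ n, S.Kn x n := iSup_le fun Z =>
    (Hs_le_Kn (Nat.lt_succ_self _)).trans (le_iSup (S.Kn x) _)
  have h2 := h1 h
  rwa [Subgroup.mem_iSup_of_directed (Monotone.directed_le fun m n h => Kn_mono h)] at h2

theorem Wn_smul {n : ℕ} {Z : I} {k : G} (hk : k ∈ S.Kn x n) (hZ : Z ∈ S.Wn x n) :
    k • Z ∈ S.Wn x n := by
  obtain ⟨k', hk', h⟩ := hZ
  refine ⟨k' * k⁻¹, mul_mem hk' (inv_mem hk), ?_⟩
  rwa [mul_smul, inv_smul_smul]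

theorem Wn_mono {m n : ℕ} (h : m ≤ n) : S.Wn x m ⊆ S.Wn x n := by
  rintro Z ⟨k, hk, h'⟩
  exact ⟨k, Kn_mono h hk, lt_of_lt_of_le h' h⟩

theorem mem_Wn {n : ℕ} {Z : I} (h : S.D x Z < n) : Z ∈ S.Wn x n :=
  ⟨1, one_mem _, by rwa [one_smul]⟩

theorem not_Wn {n : ℕ} {Z : I} (h : Z ∉ S.Wn x n) (k : G) (hk : k ∈ S.Kn x n) :
    n ≤ S.D x (k • Z) := by
  by_contra hc
  exact h ⟨k, hk, not_le.1 hc⟩

theorem Hs_le_of_Wn {n : ℕ} {Z : I} (h : Z ∈ S.Wn x n) : S.Hs Z ≤ S.Kn x n := by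
  obtain ⟨k, hk, h'⟩ := h
  intro r hr
  have h1 := Hs_le_Kn h' (S.conj k Z r hr)
  have h2 := mul_mem (mul_mem (inv_mem hk) h1) hk
  have e : k⁻¹ * (k * r * k⁻¹) * k = r := by group
  rwa [e] at h2

theorem x_mem_Tn (n : ℕ) : Sum.inl x ∈ S.Tn x n := Or.inl rfl

theorem Lt_x (ρ : ℕ) : S.Lt x ρ (.inl x) := by
  intro Z h
  cases h

theorem Bn.tn {n : ℕ} {Y : I} (h : S.Bn x n Y) : Sum.inr Y ∈ S.Tn x n := by
  refine Or.inr ⟨Y, rfl, Or.inr ⟨h.2, fun k hk => ?_⟩⟩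
  rw [h.1]
  exact not_Wn h.2 k hk

theorem Tn_anti {n : ℕ} {a : G ⊕ I} (h : a ∈ S.Tn x (n + 1)) : a ∈ S.Tn x n := by
  rcases h with h | ⟨Z, rfl, h | h⟩
  · exact Or.inl h
  · by_cases hn : S.D x Z < n
    · exact Or.inr ⟨Z, rfl, Or.inl ⟨hn, h.2⟩⟩
    · have hn' : S.D x Z = n := by omega
      exact Bn.tn ⟨hn', hn' ▸ h.2⟩
  · exact Or.inr ⟨Z, rfl, Or.inr ⟨fun hc => h.1 (Wn_mono (Nat.le_succ n) hc),
      fun k hk => h.2 k (Kn_mono (Nat.le_succ n) hk)⟩⟩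

/-- (T) -/
theorem T_bound {n : ℕ} {a : G ⊕ I} {Z : I} (ha : a ∈ S.Tn x n) (hZ : Z ∈ S.Wn x n)
    (hne : a ≠ .inr Z) : 2 * S.d Z (.inl x) a ≤ S.t Z + 2 * S.θ := by
  have hpos := S.pos
  have hbig := S.big Z
  rcases ha with rfl | ⟨A, rfl, h⟩
  · have := S.d_self Z (.inl x) (by simp)
    omega
  · by_contra hc
    rw [not_le] at hc
    have hZA : Z ≠ A := fun e => hne (by rw [e])
    obtain ⟨r, hr, hD⟩ := S.dir x Z A hZA hc
    have hd := S.dist x Z A hZA (by omega)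
    rcases h with h | h
    · exact h.2 ⟨r, Hs_le_Kn hd hr, hD⟩
    · have := h.2 r (Hs_le_of_Wn hZ hr)
      omega

/-- (S) -/
theorem S_ne {ρ : ℕ} {a : G ⊕ I} {Y : I} (ha : S.Lt x ρ a) (hY : ρ ≤ S.D x Y) : a ≠ .inr Y := by
  rintro rfl
  have := ha Y rfl
  omega

theorem S_le {n ρ : ℕ} {a : G ⊕ I} {Y : I} (hT : a ∈ S.Tn x n) (ha : S.Lt x ρ a)
    (hY : ρ ≤ S.D x Y) : S.d Y (.inl x) a ≤ S.θ := by
  rcases hT with rfl | ⟨A, rfl, -⟩
  · exact S.d_self Y _ (by simp)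
  · have h1 := ha A rfl
    have hne : Y ≠ A := by
      rintro rfl
      omega
    by_contra hc
    have := S.dist x Y A hne (not_le.1 hc)
    omega

theorem S_set {ρ : ℕ} {A Y : I} (ha : S.D x A < ρ) (hY : ρ ≤ S.D x Y) :
    S.d Y (.inl x) (.inr A) ≤ S.θ := by
  have hne : Y ≠ A := by
    rintro rfl
    omega
  by_contra hc
  have := S.dist x Y A hne (not_le.1 hc)
  omega

/-- Translation of `d`. -/
theorem d_inv (g : G) (Y : I) (a b : G ⊕ I) :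
    S.d (g⁻¹ • Y) a b = S.d Y (oact g a) (oact g b) := by
  have h := S.d_smul g (g⁻¹ • Y) a b
  rw [smul_inv_smul] at h
  exact h.symm

theorem t_inv (g : G) (Y : I) : S.t (g⁻¹ • Y) = S.t Y := S.t_smul g⁻¹ Y

theorem Ex.left {n m : ℕ} {k0 k : G} (h0 : k0 ∈ S.Kn x n) (h : S.Ex x n m k) :
    S.Ex x n m (k0 * k) := by
  cases h with
  | zero h => exact Ex.zero (mul_mem h0 h)
  | succ h1 hY hr h =>
    rw [← mul_assoc, ← mul_assoc]
    exact Ex.succ (mul_mem h0 h1) hY hr h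

theorem Ex.rot {n m : ℕ} {r k : G} {Y : I} (hY : S.Bn x n Y) (hr : r ∈ S.Hs Y)
    (h : S.Ex x n m k) : S.Ex x n (m + 1) (r * k) := by
  have h1 := Ex.succ (one_mem (S.Kn x n)) hY hr h
  rwa [one_mul] at h1

theorem exists_Ex {n : ℕ} {k : G} (h : k ∈ S.Kn x (n + 1)) : ∃ m, S.Ex x n m k := by
  have key : ∀ k' : G, (∃ m, S.Ex x n m k') → ∃ m, S.Ex x n m (k * k') := by
    refine Subgroup.iSup_induction (fun Z : {Z : I // S.D x Z < n + 1} => S.Hs Z.1)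
      (C := fun k => ∀ k' : G, (∃ m, S.Ex x n m k') → ∃ m, S.Ex x n m (k * k')) h ?_ ?_ ?_
    · rintro ⟨Z, hZ⟩ r hr k' ⟨m, hm⟩
      by_cases hW : Z ∈ S.Wn x n
      · exact ⟨m, Ex.left (Hs_le_of_Wn hW hr) hm⟩
      · have hZ' : S.D x Z = n := by
          by_contra hne
          exact hW (mem_Wn (by omega))
        exact ⟨m + 1, Ex.rot ⟨hZ', hW⟩ hr hm⟩
    · intro k' hk'
      rwa [one_mul]
    · intro a b ha hb k' hk'
      rw [mul_assoc]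
      exact ha _ (hb k' hk')
  have h1 := key 1 ⟨0, Ex.zero (one_mem _)⟩
  rwa [mul_one] at h1

theorem Ex.mem {n m : ℕ} {k : G} (h : S.Ex x n m k) : k ∈ S.Kn x (n + 1) := by
  induction h with
  | zero h => exact Kn_mono (Nat.le_succ n) h
  | succ h0 hY hr _ ih =>
    refine mul_mem (mul_mem (Kn_mono (Nat.le_succ n) h0) ?_) ih
    exact Hs_le_Kn (by rw [hY.1]; exact Nat.lt_succ_self n) hr

/-! ### Properties of `En` -/

theorem En.symm {n ρ : ℕ} (u v : G ⊕ I) (h : S.En x n ρ u v) : S.En x n ρ v u := by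
  intro Y hY
  rw [S.d_comm]
  exact h Y hY

theorem En.smul {n ρ : ℕ} {k : G} (hk : k ∈ S.Kn x n) (u v : G ⊕ I) (h : S.En x n ρ u v) :
    S.En x n ρ (oact k u) (oact k v) := by
  intro Y hY
  rw [← d_inv]
  refine h _ fun κ hκ => ?_
  rw [smul_smul]
  exact hY _ (mul_mem hκ (inv_mem hk))

theorem En.succ {n ρ : ℕ} (u v : G ⊕ I) (h : S.En x n ρ u v) : S.En x (n + 1) ρ u v :=
  fun Y hY => h Y fun κ hκ => hY κ (Kn_mono (Nat.le_succ n) hκ)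

/-- CLAIM_n -/
def Claim (S : PS G I) (x : G) (n : ℕ) : Prop := ∀ ρ, n ≤ ρ → ∀ A B, A ∈ S.Tn x n → B ∈ S.Tn x n →
  S.Lt x ρ A → S.Lt x ρ B → ∀ k ∈ S.Kn x n, oact k B ≠ A →
    ∃ P Q, S.Ch (S.En x n ρ) (S.Wn x n) A P Q (oact k B)

theorem claim_zero : Claim S x 0 := by
  intro ρ _ A B hA hB lA lB k hk hne
  have hk1 := Kn_zero hk
  subst hk1
  rw [oact_one] at *
  refine ⟨B, A, Ch.edge ?_ hne.symm⟩
  intro Y hY
  have h1 := hY 1 (one_mem _)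
  rw [one_smul] at h1
  have h2 := S.d_tri Y A (.inl x) B (S_ne lA h1) (by simp) (S_ne lB h1)
  have h3 := S_le hA lA h1
  have h4 := S_le hB lB h1
  have h5 := S.d_comm Y A (.inl x)
  omega

/-- (P_n) for points. -/
theorem Pn_pt {n : ℕ} (hC : Claim S x n) {Y : I} (hY : Y ∉ S.Wn x n) {k : G}
    (hk : k ∈ S.Kn x n) : S.d Y (.inl x) (.inl (k * x)) ≤ 6 * S.θ := by
  by_cases hk1 : k = 1
  · subst hk1
    rw [one_mul]
    have := S.d_self Y (.inl x) (by simp)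
    omega
  · obtain ⟨P, Q, h⟩ := hC n le_rfl (.inl x) (.inl x) (x_mem_Tn n) (x_mem_Tn n) (Lt_x n) (Lt_x n) k hk
      (by
        intro e
        apply hk1
        simpa [oact] using e)
    exact h.gap hY (by simp) (by simp [oact]) fun u v huv => huv Y fun κ hκ => not_Wn hY κ hκ

/-- (P_n) for sets. -/
theorem Pn_set {n : ℕ} (hC : Claim S x n) {Y : I} (hY : Y ∉ S.Wn x n) {Z : I}
    (hZ : Z ∈ S.Wn x n) : S.d Y (.inl x) (.inr Z) ≤ 6 * S.θ := by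
  classical
  -- an element moving `Z` closest to `x`
  obtain ⟨k, hk, hmin⟩ : ∃ k ∈ S.Kn x n, ∀ k' ∈ S.Kn x n, S.D x (k • Z) ≤ S.D x (k' • Z) := by
    have hex : ∃ m, ∃ k ∈ S.Kn x n, S.D x (k • Z) = m := ⟨_, 1, one_mem _, rfl⟩
    obtain ⟨k, hk, he⟩ := Nat.find_spec hex
    refine ⟨k, hk, fun k' hk' => ?_⟩
    rw [he]
    exact Nat.find_min' hex ⟨k', hk', rfl⟩
  have hlt : S.D x (k • Z) < n := by
    obtain ⟨k', hk', h'⟩ := hZ
    exact lt_of_le_of_lt (hmin k' hk') h'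
  have hT : Sum.inr (k • Z) ∈ S.Tn x n := by
    refine Or.inr ⟨_, rfl, Or.inl ⟨hlt, ?_⟩⟩
    rintro ⟨k', hk', h'⟩
    have := hmin (k' * k) (mul_mem (Kn_mono hlt.le hk') hk)
    rw [mul_smul] at this
    omega
  have e : oact k⁻¹ (Sum.inr (k • Z) : G ⊕ I) = .inr Z := by simp [oact]
  obtain ⟨P, Q, h⟩ := hC n le_rfl (.inl x) (.inr (k • Z)) (x_mem_Tn n) hT (Lt_x n)
    (by intro W hW; cases hW; exact hlt) k⁻¹ (inv_mem hk) (by rw [e]; simp)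
  rw [e] at h
  refine h.gap hY (by simp) ?_ fun u v huv => huv Y fun κ hκ => not_Wn hY κ hκ
  intro e'
  cases e'
  exact hY hZ

/-- Two new sets. -/
theorem adj {n : ℕ} (hC : Claim S x n) {Y Y' : I} (hY : S.Bn x n Y) (hY' : S.Bn x n Y') {k : G}
    (hk : k ∈ S.Kn x n) (hne : k • Y ≠ Y') : S.d Y' (.inl x) (.inr (k • Y)) ≤ 7 * S.θ := by
  have h1 := S.d_tri Y' (.inl x) (.inl (k * x)) (.inr (k • Y)) (by simp) (by simp)
    (by intro e; cases e; exact hne rfl)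
  have h2 := Pn_pt hC hY'.2 hk
  have h3 : S.d Y' (.inl (k * x)) (.inr (k • Y)) ≤ S.θ := by
    have e : S.d (k⁻¹ • Y') (.inl x) (.inr Y) = S.d Y' (.inl (k * x)) (.inr (k • Y)) :=
      d_inv k Y' _ _
    rw [← e]
    by_contra hc
    have h4 := S.dist x (k⁻¹ • Y') Y (by
      rintro rfl
      exact hne (smul_inv_smul k Y')) (not_le.1 hc)
    have h5 := not_Wn hY'.2 k⁻¹ (inv_mem hk)
    rw [hY.1] at h4
    omega
  omega

end PS

end Pool.Agent.Beb
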