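import Pool.Agent.Work.MP_beb559_al.WindB

/-!
# Windmills in projection systems: the induction
-/

namespace Pool.Agent.Beb

namespace PS

variable {G I : Type} [Group G] [MulAction G I] {S : PS G I} {x : G}

/-- Reduced suffixes `k_i r_{i+1} … r_m k_m` following the set `Y = Y_i`. -/
inductive Gd (S : PS G I) (x : G) (n : ℕ) (B : G ⊕ I) : I → ℕ → G → Prop
  | last {Y : I} {k : G} (hk : k ∈ S.Kn x n) (hne : oact k B ≠ .inr Y) : Gd S x n B Y 0 k
  | step {Y Y' : I} {k0 r k' : G} {m : ℕ} (h0 : k0 ∈ S.Kn x n) (hY' : S.Bn x n Y')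
      (hne : k0 • Y' ≠ Y) (hr : r ∈ S.Hs Y') (hr1 : r ≠ 1) (hg : Gd S x n B Y' m k') :
      Gd S x n B Y (m + 1) (k0 * r * k')

/-- The rotation inequality with a translation: the angle at `k0 • Y`. -/
theorem angle {Y : I} {k0 r : G} {a b : G ⊕ I} (hr : r ∈ S.Hs Y) (hr1 : r ≠ 1)
    (ha : a ≠ .inr (k0 • Y)) (hb : b ≠ .inr Y) :
    S.t Y ≤ S.d (k0 • Y) a (oact (k0 * r) b) + S.d Y (.inl x) (oact k0⁻¹ a) + S.d Y (.inl x) b +
      S.θ := by
  have ha' : oact k0⁻¹ a ≠ .inr Y := by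
    intro e
    apply ha
    rw [← oact_one a, ← mul_inv_cancel k0, oact_mul, e]
    rfl
  have h1 := S.rot Y r (oact k0⁻¹ a) b hr hr1 ha' hb
  have h2 := S.d_smul k0 Y (oact k0⁻¹ a) (oact r b)
  rw [← oact_mul, ← oact_mul, mul_inv_cancel, oact_one] at h2
  have h3 := S.d_tri Y (oact k0⁻¹ a) (.inl x) b ha' (by simp) hb
  have h4 := S.d_comm Y (oact k0⁻¹ a) (.inl x)
  omega

/-- The last object of a chain of level `n` to `k0 • Y`, seen from `Y`. -/
theorem last_bound {n ρ : ℕ} (hC : Claim S x n) {Y : I} (hY : S.Bn x n Y) {k0 : G}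
    (h0 : k0 ∈ S.Kn x n) {A P Q : G ⊕ I} (h : S.Ch (S.En x n ρ) (S.Wn x n) A P Q (.inr (k0 • Y))) :
    S.d Y (.inl x) (oact k0⁻¹ Q) ≤ 6 * S.θ ∨
      (P = .inr (k0 • Y) ∧ Q = A ∧ S.En x n ρ A (.inr (k0 • Y))) := by
  rcases h.last with h | ⟨Z, hZ, rfl⟩
  · exact Or.inr h
  · exact Or.inl (Pn_set hC hY.2 (Wn_smul (inv_mem h0) hZ))

theorem mem_Wn_succ {n : ℕ} {Y : I} (hY : S.Bn x n Y) : Y ∈ S.Wn x (n + 1) :=
  mem_Wn (by rw [hY.1]; exact Nat.lt_succ_self n)

/-- Chains for reduced suffixes. -/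
theorem Gd.chain {n ρ : ℕ} (hC : Claim S x n) (hρ : n + 1 ≤ ρ) {B : G ⊕ I}
    (hB : B ∈ S.Tn x (n + 1)) (lB : S.Lt x ρ B) {Y : I} {m : ℕ} {k : G} (h : Gd S x n B Y m k)
    (hY : S.Bn x n Y) :
    ∃ P Q, S.Ch (S.En x (n + 1) ρ) (S.Wn x (n + 1)) (.inr Y) P Q (oact k B) ∧
      (S.d Y (.inl x) P ≤ 7 * S.θ ∨ (P = oact k B ∧ k ∈ S.Kn x n ∧
        2 * S.d Y (.inl x) P ≤ S.t Y + 14 * S.θ)) := by
  have hmono : ∀ u v, S.En x n ρ u v → S.En x (n + 1) ρ u v := En.succ
  have lYn : ∀ {Y : I}, S.Bn x n Y → S.Lt x ρ (.inr Y) := by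
    intro Y hY W hW
    cases hW
    rw [hY.1]
    omega
  induction h with
  | @last Y k hk hne =>
    obtain ⟨P, Q, h⟩ := hC ρ (by omega) (.inr Y) B hY.tn (Tn_anti hB) (lYn hY) lB k hk hne
    refine ⟨P, Q, h.mono hmono (Wn_mono (Nat.le_succ n)), ?_⟩
    rcases h.first with ⟨rfl, -, -⟩ | ⟨Z, hZ, rfl⟩
    · right
      refine ⟨rfl, hk, ?_⟩
      have h1 := S.d_tri Y (.inl x) (.inl (k * x)) (oact k B) (by simp) (by simp) hne
      have h2 := Pn_pt hC hY.2 hk
      have h3 : S.d (k⁻¹ • Y) (.inl x) B = S.d Y (.inl (k * x)) (oact k B) := d_inv k Y _ _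
      have h4 : B ≠ .inr (k⁻¹ • Y) := by
        rintro rfl
        apply hne
        simp [oact]
      have h5 := T_bound hB (Wn_smul (Kn_mono (Nat.le_succ n) (inv_mem hk)) (mem_Wn_succ hY)) h4
      rw [t_inv] at h5
      omega
    · left
      have := Pn_set hC hY.2 hZ
      omega
  | @step Y Y' k0 r k' m h0 hY' hne hr hr1 hg ih =>
    obtain ⟨P2, Q2, h2, hP2⟩ := ih hY'
    have e0 : oact k0 (Sum.inr Y' : G ⊕ I) = .inr (k0 • Y') := rfl
    obtain ⟨P1, Q1, h1⟩ := hC ρ (by omega) (.inr Y) (.inr Y') hY.tn hY'.tn (lYn hY) (lYn hY') k0 h0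
      (by rw [e0]; intro e; cases e; exact hne rfl)
    rw [e0] at h1
    have hr' : k0 * r ∈ S.Kn x (n + 1) := mul_mem (Kn_mono (Nat.le_succ n) h0)
      (Hs_le_Kn (by rw [hY'.1]; exact Nat.lt_succ_self n) hr)
    have h3 := h2.smul (k0 * r) (fun u v => En.smul hr' u v) (fun Z hZ => Wn_smul hr' hZ)
    have e1 : oact (k0 * r) (Sum.inr Y' : G ⊕ I) = .inr (k0 • Y') := by
      show Sum.inr ((k0 * r) • Y') = _
      rw [mul_smul, S.fix Y' r hr]
    rw [e1, ← oact_mul] at h3
    have hang := angle (x := x) (k0 := k0) hr hr1 h1.ne_last h2.ne_first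
    have hbig := S.big Y'
    have hpos := S.pos
    have hQ : S.d Y' (.inl x) (oact k0⁻¹ Q1) ≤ 7 * S.θ := by
      rcases last_bound hC hY' h0 h1 with h | ⟨-, rfl, -⟩
      · omega
      · refine adj hC hY hY' (inv_mem h0) ?_
        rintro rfl
        exact hne (smul_inv_smul k0 Y)
    refine ⟨P1, _, (h1.mono hmono (Wn_mono (Nat.le_succ n))).append
      (Wn_smul (Kn_mono (Nat.le_succ n) h0) (mem_Wn_succ hY')) h3 ?_, Or.inl ?_⟩
    · rcases hP2 with h | ⟨-, -, h⟩
      · omega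
      · omega
    · rcases h1.first with ⟨rfl, -, -⟩ | ⟨Z, hZ, rfl⟩
      · exact adj hC hY' hY h0 hne
      · have := Pn_set hC hY.2 hZ
        omega

/-- Expressions of minimal length are reduced, or a shorter one has the same image of `B`. -/
theorem exists_Gd {n : ℕ} {B : G ⊕ I} {j : ℕ} {k' : G} (h : S.Ex x n j k') {Y : I} {r : G}
    (hY : S.Bn x n Y) (hr : r ∈ S.Hs Y) (hmin : ∀ j', S.Ex x n j' (r * k') → j + 1 ≤ j') :
    Gd S x n B Y j k' ∨ ((∃ Z, B = .inr Z) ∧ ∃ q, S.Ex x n j q ∧ oact q B = oact (r * k') B) := by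
  induction h generalizing Y r with
  | @zero k hk =>
    by_cases hne : oact k B = .inr Y
    · right
      refine ⟨?_, k, Ex.zero hk, ?_⟩
      · rcases B with b | Z
        · cases hne
        · exact ⟨Z, rfl⟩
      · rw [oact_mul, hne]
        show _ = Sum.inr (r • Y)
        rw [S.fix Y r hr]
    · exact Or.inl (Gd.last hk hne)
  | @succ m k0 r' k'' Y' h0 hY' hr' hk'' ih =>
    have hne : k0 • Y' ≠ Y := by
      intro e
      have h1 : k0⁻¹ * r * k0 ∈ S.Hs Y' := by
        have h2 := S.conj k0⁻¹ Y r hr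
        rw [inv_inv, ← e, inv_smul_smul] at h2
        exact h2
      have h3 := Ex.succ h0 hY' (mul_mem h1 hr') hk''
      have e2 : k0 * (k0⁻¹ * r * k0 * r') * k'' = r * (k0 * r' * k'') := by group
      rw [e2] at h3
      have := hmin _ h3
      omega
    have hr1 : r' ≠ 1 := by
      rintro rfl
      have h3 := Ex.rot hY hr (Ex.left h0 hk'')
      rw [mul_one] at hmin
      have := hmin _ h3
      omega
    have hm : ∀ j', S.Ex x n j' (r' * k'') → m + 1 ≤ j' := by
      intro j' hj'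
      have h3 := Ex.rot hY hr (Ex.left h0 hj')
      rw [← mul_assoc k0 r' k''] at h3
      have := hmin _ h3
      omega
    rcases ih (r := r') hY' hr' hm with h | ⟨hZ, q, hq, e⟩
    · exact Or.inl (Gd.step h0 hY' hne hr' hr1 h)
    · right
      refine ⟨hZ, r * (k0 * q), Ex.rot hY hr (Ex.left h0 hq), ?_⟩
      rw [oact_mul, oact_mul, e, ← oact_mul, ← oact_mul]
      congr 1
      group

/-- The junction at `Z = k0 • Y`. -/
theorem main_step {n ρ : ℕ} (hC : Claim S x n) (hρ : n + 1 ≤ ρ) {A B : G ⊕ I}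
    (hA : A ∈ S.Tn x (n + 1)) (hB : B ∈ S.Tn x (n + 1)) (lA : S.Lt x ρ A) (lB : S.Lt x ρ B)
    {Y : I} {k0 r k' : G} {j : ℕ} (hY : S.Bn x n Y) (h0 : k0 ∈ S.Kn x n) (hr : r ∈ S.Hs Y)
    (hr1 : r ≠ 1) (hg : Gd S x n B Y j k') (hAZ : A ≠ .inr (k0 • Y))
    (hne : oact (k0 * r * k') B ≠ A) :
    ∃ P Q, S.Ch (S.En x (n + 1) ρ) (S.Wn x (n + 1)) A P Q (oact (k0 * r * k') B) := by
  have hmono : ∀ u v, S.En x n ρ u v → S.En x (n + 1) ρ u v := En.succ
  have lY : S.Lt x ρ (.inr Y) := by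
    intro W hW
    cases hW
    rw [hY.1]
    omega
  have hKn : S.Kn x n ≤ S.Kn x (n + 1) := Kn_mono (Nat.le_succ n)
  obtain ⟨P2, Q2, h2, hP2⟩ := hg.chain hC hρ hB lB hY
  have e0 : oact k0 (Sum.inr Y : G ⊕ I) = .inr (k0 • Y) := rfl
  obtain ⟨P1, Q1, h1⟩ := hC ρ (by omega) A (.inr Y) (Tn_anti hA) hY.tn lA lY k0 h0
    (by rw [e0]; exact hAZ.symm)
  rw [e0] at h1
  have hrn : r ∈ S.Kn x (n + 1) := Hs_le_Kn (by rw [hY.1]; exact Nat.lt_succ_self n) hr
  have hr' : k0 * r ∈ S.Kn x (n + 1) := mul_mem (hKn h0) hrn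
  have h3 := h2.smul (k0 * r) (fun u v => En.smul hr' u v) (fun Z hZ => Wn_smul hr' hZ)
  have e1 : oact (k0 * r) (Sum.inr Y : G ⊕ I) = .inr (k0 • Y) := by
    show Sum.inr ((k0 * r) • Y) = _
    rw [mul_smul, S.fix Y r hr]
  rw [e1, ← oact_mul] at h3
  have hZW : k0 • Y ∈ S.Wn x (n + 1) := Wn_smul (hKn h0) (mem_Wn_succ hY)
  by_cases hb : 5 * S.θ ≤ S.d (k0 • Y) Q1 (oact (k0 * r) P2)
  · exact ⟨P1, _, (h1.mono hmono (Wn_mono (Nat.le_succ n))).append hZW h3 hb⟩
  · have hang := angle (x := x) (k0 := k0) hr hr1 h1.ne_last h2.ne_first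
    have hbig := S.big Y
    have hpos := S.pos
    -- the bound at the end `A`
    have hdA : ∀ a : G ⊕ I, a ≠ .inr (k0 • Y) →
        S.d Y (.inl x) (oact k0⁻¹ a) ≤ 6 * S.θ + S.d (k0 • Y) (.inl x) a := by
      intro a ha
      have ha' : oact k0⁻¹ a ≠ .inr Y := by
        intro e
        apply ha
        rw [← oact_one a, ← mul_inv_cancel k0, oact_mul, e]
        rfl
      have t1 := S.d_tri Y (.inl x) (.inl (k0⁻¹ * x)) (oact k0⁻¹ a) (by simp) (by simp) ha'
      have t2 := Pn_pt hC hY.2 (inv_mem h0)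
      have t3 : S.d (k0 • Y) (.inl x) a = S.d Y (.inl (k0⁻¹ * x)) (oact k0⁻¹ a) := by
        have := d_inv (S := S) k0⁻¹ Y (.inl x) a
        rwa [inv_inv] at this
      omega
    have hT := T_bound hA hZW hAZ
    rw [S.t_smul] at hT
    -- both sides are single edges
    have hQ1 : P1 = .inr (k0 • Y) ∧ Q1 = A ∧ S.En x n ρ A (.inr (k0 • Y)) := by
      rcases last_bound hC hY h0 h1 with h | h
      · exfalso
        rcases hP2 with h' | ⟨-, -, h'⟩ <;> omega
      · exact h
    obtain ⟨-, rfl, -⟩ := hQ1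
    have hQA := hdA Q1 hAZ
    have hP2' : P2 = oact k' B ∧ k' ∈ S.Kn x n := by
      rcases hP2 with h' | ⟨h', h'', -⟩
      · exfalso
        omega
      · exact ⟨h', h''⟩
    obtain ⟨rfl, hk'⟩ := hP2'
    rw [← oact_mul] at hb
    set k := k0 * r * k' with hk
    have hkn : k ∈ S.Kn x (n + 1) := mul_mem hr' (hKn hk')
    have hkB : oact k B ≠ .inr (k0 • Y) := h3.ne.symm
    -- the angle between `x` and `k x`
    have hxk : S.t Y ≤ S.d (k0 • Y) (.inl x) (.inl (k * x)) + 13 * S.θ := by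
      have t1 := angle (x := x) (k0 := k0) (a := .inl x) (b := .inl (k' * x)) hr hr1 (by simp)
        (by simp)
      have t2 : oact (k0 * r) (Sum.inl (k' * x) : G ⊕ I) = .inl (k * x) := by
        simp [oact, hk, mul_assoc]
      rw [t2] at t1
      have t3 := Pn_pt hC hY.2 hk'
      have t4 : S.d Y (.inl x) (oact k0⁻¹ (.inl x)) ≤ 6 * S.θ := Pn_pt hC hY.2 (inv_mem h0)
      omega
    have hkZ : k⁻¹ • (k0 • Y) ∈ S.Wn x (n + 1) := Wn_smul (inv_mem hkn) hZW
    have hBne : B ≠ .inr (k⁻¹ • (k0 • Y)) := by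
      intro e
      apply hkB
      rw [e]
      simp [oact]
    have hTB := T_bound hB hkZ hBne
    rw [t_inv, S.t_smul] at hTB
    have e3 : S.d (k⁻¹ • (k0 • Y)) (.inl x) B = S.d (k0 • Y) (.inl (k * x)) (oact k B) :=
      d_inv k _ _ _
    have t5 := S.d_tri (k0 • Y) (.inl x) (.inl (k * x)) (oact k B) (by simp) (by simp) hkB
    have t6 := S.d_tri (k0 • Y) (.inl x) Q1 (oact k B) (by simp) hAZ hkB
    have t7 := S.d_tri (k0 • Y) (.inl x) (oact k B) (.inl (k * x)) (by simp) hkB (by simp)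
    have t8 := S.d_tri (k0 • Y) (.inl x) (oact k B) Q1 (by simp) hkB hAZ
    have c1 := S.d_comm (k0 • Y) (.inl (k * x)) (oact k B)
    have c2 := S.d_comm (k0 • Y) Q1 (oact k B)
    -- `Z` is closer to `x` than `A`
    have hDZ : S.D x (k0 • Y) < ρ := by
      rcases hA with rfl | ⟨A', rfl, -⟩
      · have := S.d_self (k0 • Y) (.inl x) (by simp)
        omega
      · have h4 := S.dist x (k0 • Y) A' (by rintro rfl; exact hAZ rfl) (by omega)
        have := lA A' rfl
        omega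
    have hDkZ : S.D x (k⁻¹ • (k0 • Y)) < ρ := by
      have h5 : S.θ < S.d (k⁻¹ • (k0 • Y)) (.inl x) B := by
        rw [e3]
        omega
      rcases hB with rfl | ⟨B', rfl, -⟩
      · have := S.d_self (k⁻¹ • (k0 • Y)) (.inl x) (by simp)
        omega
      · have h4 := S.dist x _ B' (by rintro rfl; exact hBne rfl) h5
        have := lB B' rfl
        omega
    refine ⟨_, _, Ch.edge ?_ hne.symm⟩
    intro U hU
    have u1 := hU 1 (one_mem _)
    rw [one_smul] at u1
    have u2 := hU k⁻¹ (inv_mem hkn)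
    have s1 := S_le hA lA u1
    have s2 := S_set hDZ u1
    have s3 := S_set hDkZ u2
    have s4 := S_le hB lB u2
    have n1 := S_ne lA u1
    have n2 : oact k B ≠ .inr U := by
      intro e
      apply S_ne lB u2
      rw [← oact_one B, ← inv_mul_cancel k, oact_mul, e]
      rfl
    have n3 : (Sum.inr (k0 • Y) : G ⊕ I) ≠ .inr U := by
      intro e
      cases e
      omega
    have f3 : S.d (k⁻¹ • U) (.inl x) (.inr (k⁻¹ • (k0 • Y))) = S.d U (.inl (k * x)) (.inr (k0 • Y)) := by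
      rw [d_inv]
      simp [oact]
    have f4 : S.d (k⁻¹ • U) (.inl x) B = S.d U (.inl (k * x)) (oact k B) := d_inv k U _ _
    have v1 := S.d_tri U Q1 (.inl x) (oact k B) n1 (by simp) n2
    have v2 := S.d_tri U (.inl x) (.inr (k0 • Y)) (oact k B) (by simp) n3 n2
    have v3 := S.d_tri U (.inr (k0 • Y)) (.inl (k * x)) (oact k B) n3 (by simp) n2
    have w1 := S.d_comm U Q1 (.inl x)
    have w2 := S.d_comm U (.inr (k0 • Y)) (.inl (k * x))
    omega

theorem claim_succ {n : ℕ} (hC : Claim S x n) : Claim S x (n + 1) := by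
  intro ρ hρ A B hA hB lA lB k hk hne
  obtain ⟨m, hm⟩ := exists_Ex hk
  clear hk
  induction m using Nat.strong_induction_on generalizing k with
  | _ m IH =>
    by_cases hmin : ∃ m', m' < m ∧ S.Ex x n m' k
    · obtain ⟨m', h1, h2⟩ := hmin
      exact IH m' h1 k hne h2
    · have hmin' : ∀ m', S.Ex x n m' k → m ≤ m' := fun m' h => by
        by_contra hc
        exact hmin ⟨m', not_le.1 hc, h⟩
      cases hm with
      | zero hk =>
        obtain ⟨P, Q, h⟩ := hC ρ (by omega) A B (Tn_anti hA) (Tn_anti hB) lA lB k hk hne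
        exact ⟨P, Q, h.mono En.succ (Wn_mono (Nat.le_succ n))⟩
      | @succ j k0 r k' Y h0 hY hr hk' =>
        have hKn : S.Kn x n ≤ S.Kn x (n + 1) := Kn_mono (Nat.le_succ n)
        have hrn : r ∈ S.Kn x (n + 1) := Hs_le_Kn (by rw [hY.1]; exact Nat.lt_succ_self n) hr
        have hr1 : r ≠ 1 := by
          rintro rfl
          have := hmin' j (by rw [mul_one]; exact Ex.left h0 hk')
          omega
        by_cases hAZ : A = .inr (k0 • Y)
        · -- rotate back
          have hs : k0 * r⁻¹ * k0⁻¹ ∈ S.Hs (k0 • Y) := S.conj k0 Y r⁻¹ (inv_mem hr)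
          have hsA : oact (k0 * r⁻¹ * k0⁻¹) A = A := by
            rw [hAZ]
            show Sum.inr ((k0 * r⁻¹ * k0⁻¹) • (k0 • Y)) = _
            rw [S.fix _ _ hs]
          have hsn : k0 * r⁻¹ * k0⁻¹ ∈ S.Kn x (n + 1) :=
            mul_mem (mul_mem (hKn h0) (inv_mem hrn)) (inv_mem (hKn h0))
          have e : k0 * r⁻¹ * k0⁻¹ * (k0 * r * k') = k0 * k' := by group
          have e' : (k0 * r⁻¹ * k0⁻¹)⁻¹ * (k0 * k') = k0 * r * k' := by group
          have hne' : oact (k0 * k') B ≠ A := by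
            intro e2
            apply hne
            have := congrArg (oact (k0 * r⁻¹ * k0⁻¹)⁻¹) e2
            rw [← oact_mul, e'] at this
            rw [this]
            conv_lhs => rw [← hsA]
            rw [← oact_mul, inv_mul_cancel, oact_one]
          obtain ⟨P, Q, h⟩ := IH j (Nat.lt_succ_self j) (k0 * k') hne' (Ex.left h0 hk')
          have h1 := h.smul (k0 * r⁻¹ * k0⁻¹)⁻¹ (fun u v => En.smul (inv_mem hsn) u v)
            (fun Z hZ => Wn_smul (inv_mem hsn) hZ)
          rw [← oact_mul, e'] at h1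
          have hsA' : oact (k0 * r⁻¹ * k0⁻¹)⁻¹ A = A := by
            conv_lhs => rw [← hsA]
            rw [← oact_mul, inv_mul_cancel, oact_one]
          rw [hsA'] at h1
          exact ⟨_, _, h1⟩
        · have hm : ∀ j', S.Ex x n j' (r * k') → j + 1 ≤ j' := by
            intro j' hj'
            have h1 := Ex.left h0 hj'
            rw [← mul_assoc] at h1
            exact hmin' j' h1
          rcases exists_Gd (B := B) hk' hY hr hm with hg | ⟨-, q, hq, e⟩
          · exact main_step hC hρ hA hB lA lB hY h0 hr hr1 hg hAZ hne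
          · have e2 : oact (k0 * r * k') B = oact (k0 * q) B := by
              rw [mul_assoc, oact_mul, ← e, ← oact_mul]
            rw [e2] at hne ⊢
            exact IH j (Nat.lt_succ_self j) (k0 * q) hne (Ex.left h0 hq)

theorem claim (S : PS G I) (x : G) (n : ℕ) : Claim S x n := by
  induction n with
  | zero => exact claim_zero
  | succ n ih => exact claim_succ ih

theorem red_Kn (n : ℕ) (k : G) (hk : k ∈ S.Kn x n) : S.Red x k := by
  induction n generalizing k with
  | zero =>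
    rw [Kn_zero hk]
    exact Red.one
  | succ n IHn =>
    have hC := claim S x n
    obtain ⟨m, hm⟩ := exists_Ex hk
    clear hk
    induction m using Nat.strong_induction_on generalizing k with
    | _ m IH =>
      by_cases hmin : ∃ m', m' < m ∧ S.Ex x n m' k
      · obtain ⟨m', h1, h2⟩ := hmin
        exact IH m' h1 k h2
      · have hmin' : ∀ m', S.Ex x n m' k → m ≤ m' := fun m' h => by
          by_contra hc
          exact hmin ⟨m', not_le.1 hc, h⟩
        cases hm with
        | zero hk => exact IHn k hk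
        | @succ j k0 r k' Y h0 hY hr hk' =>
          have hr1 : r ≠ 1 := by
            rintro rfl
            have := hmin' j (by rw [mul_one]; exact Ex.left h0 hk')
            omega
          have hs : k0 * r⁻¹ * k0⁻¹ ∈ S.Hs (k0 • Y) := S.conj k0 Y r⁻¹ (inv_mem hr)
          have e : k0 * r⁻¹ * k0⁻¹ * (k0 * r * k') = k0 * k' := by group
          refine Red.step _ (k0 • Y) (k0 * r⁻¹ * k0⁻¹) hs ?_ ?_
          · have hg : Gd S x n (.inl x) Y j k' := by
              have hm : ∀ j', S.Ex x n j' (r * k') → j + 1 ≤ j' := by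
                intro j' hj'
                have h1 := Ex.left h0 hj'
                rw [← mul_assoc] at h1
                exact hmin' j' h1
              rcases exists_Gd (B := .inl x) hk' hY hr hm with hg | ⟨⟨Z, hZ⟩, -⟩
              · exact hg
              · cases hZ
            obtain ⟨P, Q, h, hP⟩ := hg.chain hC le_rfl (x_mem_Tn _) (Lt_x _) hY
            have hx : S.d Y (.inl x) (.inl (k' * x)) ≤ 8 * S.θ := by
              have h1 := h.lg
              have h2 := S.d_tri Y (.inl x) P (oact k' (.inl x)) (by simp) h.ne_first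
                (by simp [oact])
              rcases hP with h3 | ⟨-, h3, -⟩
              · show S.d Y (.inl x) (oact k' (.inl x)) ≤ _
                omega
              · have := Pn_pt hC hY.2 h3
                omega
            have t1 := angle (x := x) (k0 := k0) (a := .inl x) (b := .inl (k' * x)) hr hr1
              (by simp) (by simp)
            have t2 : oact (k0 * r) (Sum.inl (k' * x) : G ⊕ I) = .inl (k0 * r * k' * x) := by
              simp [oact, mul_assoc]
            rw [t2] at t1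
            have t4 : S.d Y (.inl x) (oact k0⁻¹ (.inl x)) ≤ 6 * S.θ := Pn_pt hC hY.2 (inv_mem h0)
            rw [S.t_smul]
            omega
          · rw [e]
            exact IH j (Nat.lt_succ_self j) _ (Ex.left h0 hk')

/-- WM. The windmill theorem. -/
theorem red (S : PS G I) (x k : G) (hk : k ∈ S.K) : S.Red x k := by
  obtain ⟨n, hn⟩ := exists_Kn x hk
  exact red_Kn n k hn

end PS

end Pool.Agent.Beb
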