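import Mathlib

/-!
# Windmills in projection systems: definitions

Objects: points `x : G` and members `Z : I` of a family of sets. `d Z a b` is the distance of the
projections of the objects `a`, `b` to `Z` (junk if `a` or `b` is `Z` itself), `D x Z` the distance
of the point `x` to `Z`, `Hs Z` a group of rotations around `Z` which moves all projections by at
least `t Z`.
-/

namespace Pool.Agent.Beb

/-- The action on objects. -/
def oact {G I : Type} [Group G] [MulAction G I] (g : G) : G ⊕ I → G ⊕ I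
  | .inl x => .inl (g * x)
  | .inr Z => .inr (g • Z)

/-- Projection systems with rotations. -/
structure PS (G I : Type) [Group G] [MulAction G I] where
  θ : ℕ
  t : I → ℕ
  d : I → G ⊕ I → G ⊕ I → ℕ
  D : G → I → ℕ
  Hs : I → Subgroup G
  d_comm : ∀ Z a b, d Z a b = d Z b a
  d_tri : ∀ Z a b c, a ≠ .inr Z → b ≠ .inr Z → c ≠ .inr Z → d Z a c ≤ d Z a b + d Z b c
  d_self : ∀ Z a, a ≠ .inr Z → d Z a a ≤ θ
  d_smul : ∀ (g : G) Z a b, d (g • Z) (oact g a) (oact g b) = d Z a b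
  beh : ∀ Z W a, Z ≠ W → a ≠ .inr Z → a ≠ .inr W → θ < d Z a (.inr W) → d W a (.inr Z) ≤ θ
  rot : ∀ Z r a b, r ∈ Hs Z → r ≠ 1 → a ≠ .inr Z → b ≠ .inr Z →
    t Z ≤ d Z a (oact r b) + d Z a b + θ
  fix : ∀ Z r, r ∈ Hs Z → r • Z = Z
  conj : ∀ (g : G) Z r, r ∈ Hs Z → g * r * g⁻¹ ∈ Hs (g • Z)
  D_smul : ∀ (g x : G) Z, D (g * x) (g • Z) = D x Z
  t_smul : ∀ (g : G) Z, t (g • Z) = t Z
  dist : ∀ (x : G) Z A, Z ≠ A → θ < d Z (.inl x) (.inr A) → D x Z < D x A
  dir : ∀ (x : G) Z A, Z ≠ A → t Z + 2 * θ < 2 * d Z (.inl x) (.inr A) →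
    ∃ r ∈ Hs Z, D x (r • A) < D x A
  pos : 1 ≤ θ
  big : ∀ Z, 100 * θ ≤ t Z

namespace PS

variable {G I : Type} [Group G] [MulAction G I] (S : PS G I)

/-- The subgroup generated by the rotations. -/
def K : Subgroup G := ⨆ Z, S.Hs Z

/-- `k` is reduced to `1` (seen from `x`) by successive rotations around sets `Z` with almost full
angle between `x` and `k x`. -/
inductive Red (x : G) : G → Prop
  | one : Red x 1
  | step (k : G) (Z : I) (r : G) (hr : r ∈ S.Hs Z)
      (h : S.t Z ≤ S.d Z (.inl x) (.inl (k * x)) + 20 * S.θ) (hk : Red x (r * k)) : Red x k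

end PS

end Pool.Agent.Beb
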